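import Pool.Agent.H528R2.Defs

/-!
# B1: the group law of `W` in coordinates, for arbitrary rational points
-/

namespace Pool.Agent.H528R2

open WeierstrassCurve

lemma W_equation_iff {x y : ℚ} :
    W.toAffine.Equation x y ↔ y ^ 2 = x ^ 3 - 2 * x ^ 2 + 65 * x := by
  rw [WeierstrassCurve.Affine.equation_iff]
  simp only [W]
  constructor <;> intro h <;> linarith

lemma cubic_pos (x : ℚ) : 0 < x ^ 2 - 2 * x + 65 := by nlinarith [sq_nonneg (x - 1)]

lemma W_nonsingular_iff {x y : ℚ} :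
    W.toAffine.Nonsingular x y ↔ y ^ 2 = x ^ 3 - 2 * x ^ 2 + 65 * x := by
  rw [WeierstrassCurve.Affine.nonsingular_iff, W_equation_iff]
  constructor
  · exact fun h => h.1
  · intro h
    refine ⟨h, ?_⟩
    simp only [W]
    by_cases hy : y = 0
    · left
      subst hy
      have h0 : x * (x ^ 2 - 2 * x + 65) = 0 := by linarith
      rcases mul_eq_zero.mp h0 with hx | hx
      · subst hx; norm_num
      · exact absurd hx (cubic_pos x).ne'
    · right
      intro h1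
      exact hy (by linarith)

@[simp] lemma ptX_some {x y : ℚ} (h : W.toAffine.Nonsingular x y) :
    ptX (Affine.Point.some x y h) = x := rfl
@[simp] lemma ptY_some {x y : ℚ} (h : W.toAffine.Nonsingular x y) :
    ptY (Affine.Point.some x y h) = y := rfl
@[simp] lemma ptX_zero : ptX 0 = 0 := rfl
@[simp] lemma ptY_zero : ptY 0 = 0 := rfl

lemma W_negY (x y : ℚ) : W.toAffine.negY x y = -y := by
  simp [Affine.negY, W]

lemma W_addX (x₁ x₂ l : ℚ) : W.toAffine.addX x₁ x₂ l = l ^ 2 + 2 - x₁ - x₂ := by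
  simp [Affine.addX, W]

lemma W_addY (x₁ x₂ y₁ l : ℚ) :
    W.toAffine.addY x₁ x₂ y₁ l = -(l * ((l ^ 2 + 2 - x₁ - x₂) - x₁) + y₁) := by
  rw [Affine.addY, W_negY, Affine.negAddY, W_addX]

/-- case analysis on nonzero points -/
lemma exists_some {P : Pt} (hP : P ≠ 0) :
    ∃ (x y : ℚ) (h : W.toAffine.Nonsingular x y), P = Affine.Point.some x y h := by
  cases P with
  | zero => exact absurd rfl hP
  | some x y h => exact ⟨x, y, h, rfl⟩

theorem ptX_neg (P : Pt) : ptX (-P) = ptX P := by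
  cases P with
  | zero => rfl
  | some x y h => rw [Affine.Point.neg_some]; rfl

theorem ptY_neg (P : Pt) : ptY (-P) = - ptY P := by
  cases P with
  | zero => change (0 : ℚ) = - 0; simp
  | some x y h => rw [Affine.Point.neg_some, ptY_some, ptY_some, W_negY]

theorem pt_eq {P : Pt} (h : P ≠ 0) : ptY P ^ 2 = ptX P ^ 3 - 2 * ptX P ^ 2 + 65 * ptX P := by
  obtain ⟨x, y, hxy, rfl⟩ := exists_some h
  exact W_nonsingular_iff.mp hxy

theorem ptX_eq_iff {P Q : Pt} (hP : P ≠ 0) (hQ : Q ≠ 0) : ptX P = ptX Q ↔ P = Q ∨ P = -Q := by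
  constructor
  · intro h
    obtain ⟨x, y, hxy, rfl⟩ := exists_some hP
    obtain ⟨x', y', hxy', rfl⟩ := exists_some hQ
    simp only [ptX_some] at h
    subst h
    have h1 := W_nonsingular_iff.mp hxy
    have h2 := W_nonsingular_iff.mp hxy'
    have h3 : y ^ 2 = y' ^ 2 := by rw [h1, h2]
    rcases sq_eq_sq_iff_eq_or_eq_neg.mp h3 with h4 | h4
    · left; subst h4; rfl
    · right
      rw [Affine.Point.neg_some]
      subst h4
      simp only [Affine.Point.some.injEq, W_negY, and_self]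
  · rintro (h | h)
    · rw [h]
    · rw [h, ptX_neg]

set_option linter.unusedVariables false in
/-- every affine rational solution with `z ≠ 0` is a point -/
theorem exists_pt {z y : ℚ} (hz : z ≠ 0) (h : y ^ 2 = z ^ 3 - 2 * z ^ 2 + 65 * z) :
    ∃ P : Pt, P ≠ 0 ∧ ptX P = z ∧ ptY P = y :=
  ⟨Affine.Point.some z y (W_nonsingular_iff.mpr h), Affine.Point.some_ne_zero _, rfl, rfl⟩

theorem pt_add {P Q : Pt} (hP : P ≠ 0) (hQ : Q ≠ 0) (h : ptX P ≠ ptX Q) :
    let l := (ptY P - ptY Q) / (ptX P - ptX Q)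
    P + Q ≠ 0 ∧ ptX (P + Q) = l ^ 2 + 2 - ptX P - ptX Q ∧
      ptY (P + Q) = - (l * (ptX (P + Q) - ptX P) + ptY P) := by
  obtain ⟨x, y, hxy, rfl⟩ := exists_some hP
  obtain ⟨x', y', hxy', rfl⟩ := exists_some hQ
  simp only [ptX_some, ptY_some] at h ⊢
  rw [Affine.Point.add_of_X_ne h]
  refine ⟨Affine.Point.some_ne_zero _, ?_, ?_⟩
  · rw [ptX_some, W_addX, Affine.slope_of_X_ne h]
  · rw [ptX_some, ptY_some, W_addX, W_addY, Affine.slope_of_X_ne h]

theorem pt_dbl {P : Pt} (hP : P ≠ 0) (h : ptY P ≠ 0) :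
    let l := (3 * ptX P ^ 2 - 4 * ptX P + 65) / (2 * ptY P)
    P + P ≠ 0 ∧ ptX (P + P) = l ^ 2 + 2 - 2 * ptX P ∧
      ptX (P + P) = ((ptX P ^ 2 - 65) / (2 * ptY P)) ^ 2 ∧
      ptY (P + P) = - (l * (ptX (P + P) - ptX P) + ptY P) := by
  obtain ⟨x, y, hxy, rfl⟩ := exists_some hP
  simp only [ptX_some, ptY_some] at h ⊢
  have hy : y ≠ W.toAffine.negY x y := by
    rw [W_negY]
    intro h1
    exact h (by linarith)
  have hsl : W.toAffine.slope x x y y = (3 * x ^ 2 - 4 * x + 65) / (2 * y) := by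
    rw [Affine.slope_of_Y_ne rfl hy, W_negY]
    simp only [W]
    congr 1 <;> ring
  rw [Affine.Point.add_self_of_Y_ne hy]
  have h1 : ptX (Affine.Point.some (W.toAffine.addX x x (W.toAffine.slope x x y y))
      (W.toAffine.addY x x y (W.toAffine.slope x x y y)) (Affine.nonsingular_add hxy hxy
        fun hxy => hy hxy.right)) = ((3 * x ^ 2 - 4 * x + 65) / (2 * y)) ^ 2 + 2 - 2 * x := by
    rw [ptX_some, W_addX, hsl]; ring
  refine ⟨Affine.Point.some_ne_zero _, h1, ?_, ?_⟩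
  · rw [h1]
    have h2 := W_nonsingular_iff.mp hxy
    field_simp
    linear_combination (8 - 8 * x) * h2
  · rw [h1, ptY_some, W_addY, hsl]; ring

/-- product formula -/
theorem pt_prod {P Q : Pt} (hP : P ≠ 0) (hQ : Q ≠ 0) (h : ptX P ≠ ptX Q) :
    ptX (P + Q) * ptX (P - Q) = ((ptX P * ptX Q - 65) / (ptX P - ptX Q)) ^ 2 := by
  have hQ' : -Q ≠ 0 := neg_ne_zero.mpr hQ
  have h' : ptX P ≠ ptX (-Q) := by rwa [ptX_neg]
  have h1 := (pt_add hP hQ h).2.1
  have h2 := (pt_add hP hQ' h').2.1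
  rw [ptX_neg, ptY_neg] at h2
  rw [sub_eq_add_neg, h1, h2]
  have e1 := pt_eq hP
  have e2 := pt_eq hQ
  generalize ptX P = x at *
  generalize ptX Q = x' at *
  generalize ptY P = y at *
  generalize ptY Q = y' at *
  have hd : x - x' ≠ 0 := sub_ne_zero.mpr h
  field_simp
  linear_combination
    ((y ^ 2 - y' ^ 2 + (x ^ 3 - 2 * x ^ 2 + 65 * x) - (x' ^ 3 - 2 * x' ^ 2 + 65 * x'))
      + 2 * (x - x') ^ 2 * (2 - x - x')) * e1
    + (-(y ^ 2 - y' ^ 2 + (x ^ 3 - 2 * x ^ 2 + 65 * x) - (x' ^ 3 - 2 * x' ^ 2 + 65 * x'))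
      + 2 * (x - x') ^ 2 * (2 - x - x')) * e2

/-- sum formula -/
theorem pt_sum {P Q : Pt} (hP : P ≠ 0) (hQ : Q ≠ 0) (h : ptX P ≠ ptX Q) :
    ptX (P + Q) + ptX (P - Q) =
      2 * ((ptX P + ptX Q) * (ptX P * ptX Q + 65) - 4 * ptX P * ptX Q) / (ptX P - ptX Q) ^ 2 := by
  have hQ' : -Q ≠ 0 := neg_ne_zero.mpr hQ
  have h' : ptX P ≠ ptX (-Q) := by rwa [ptX_neg]
  have h1 := (pt_add hP hQ h).2.1
  have h2 := (pt_add hP hQ' h').2.1
  rw [ptX_neg, ptY_neg] at h2
  rw [sub_eq_add_neg, h1, h2]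
  have e1 := pt_eq hP
  have e2 := pt_eq hQ
  generalize ptX P = x at *
  generalize ptX Q = x' at *
  generalize ptY P = y at *
  generalize ptY Q = y' at *
  have hd : x - x' ≠ 0 := sub_ne_zero.mpr h
  field_simp
  linear_combination 2 * e1 + 2 * e2

/-- the points with `Y = 0` -/
theorem ptY_eq_zero_iff {P : Pt} (hP : P ≠ 0) : ptY P = 0 ↔ ptX P = 0 := by
  have h := pt_eq hP
  constructor
  · intro h0
    rw [h0] at h
    have h1 : ptX P * (ptX P ^ 2 - 2 * ptX P + 65) = 0 := by linarith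
    rcases mul_eq_zero.mp h1 with hx | hx
    · exact hx
    · exact absurd hx (cubic_pos _).ne'
  · intro h0
    rw [h0] at h
    have : ptY P ^ 2 = 0 := by linarith
    exact pow_eq_zero_iff (two_ne_zero) |>.mp this

theorem ptX_nonneg (P : Pt) : 0 ≤ ptX P := by
  by_cases hP : P = 0
  · rw [hP]; exact le_refl _
  · have h := pt_eq hP
    have h1 : 0 ≤ ptX P * (ptX P ^ 2 - 2 * ptX P + 65) := by
      have : 0 ≤ ptY P ^ 2 := sq_nonneg _
      linarith
    exact nonneg_of_mul_nonneg_left h1 (cubic_pos _)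

end Pool.Agent.H528R2
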