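import Pool.Agent.H528R2.CurvePt
import Pool.Agent.H528R2.Formal

/-!
# B4: the functions `zz`, `yy`
-/

namespace Pool.Agent.H528R2

namespace ZZaux

lemma P0_ne : P0 ≠ 0 := by
  intro h
  exact WeierstrassCurve.Affine.Point.some_ne_zero P0_ns h

lemma X1 : ptX P0 = 5 := rfl
lemma Y1 : ptY P0 = 20 := rfl

lemma point_ext {P Q : Pt} (hP : P ≠ 0) (hQ : Q ≠ 0) (hX : ptX P = ptX Q)
    (hY : ptY P = ptY Q) : P = Q := by
  cases P with
  | zero => exact absurd rfl hP
  | some x y h =>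
    cases Q with
    | zero => exact absurd rfl hQ
    | some x' y' h' =>
      change x = x' at hX
      change y = y' at hY
      subst hX
      subst hY
      rfl

lemma ne_of_X {P : Pt} {x : ℚ} (h : ptX P = x) (hx : x ≠ 0) : P ≠ 0 := by
  rintro rfl
  exact hx h.symm

lemma two : P0 + P0 ≠ 0 ∧ ptX (P0 + P0) = 1 ∧ ptY (P0 + P0) = -8 := by
  have h := pt_dbl P0_ne (by rw [Y1]; norm_num)
  simp only [X1, Y1] at h
  obtain ⟨h1, h2, -, h4⟩ := h
  have h2' : ptX (P0 + P0) = 1 := by rw [h2]; norm_num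
  refine ⟨h1, h2', ?_⟩
  rw [h4, h2']
  norm_num

lemma four : ptX ((P0 + P0) + (P0 + P0)) = 16 ∧ ptY ((P0 + P0) + (P0 + P0)) = 68 := by
  obtain ⟨h0, hx, hy⟩ := two
  have h := pt_dbl h0 (by rw [hy]; norm_num)
  simp only [hx, hy] at h
  obtain ⟨h1, h2, -, h4⟩ := h
  have h2' : ptX ((P0 + P0) + (P0 + P0)) = 16 := by rw [h2]; norm_num
  refine ⟨h2', ?_⟩
  rw [h4, h2']
  norm_num

lemma add_val {P Q : Pt} {a b c d : ℚ} (hP : P ≠ 0) (hQ : Q ≠ 0) (h1 : ptX P = a)
    (h2 : ptY P = b) (h3 : ptX Q = c) (h4 : ptY Q = d) (h : a ≠ c) :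
    ptX (P + Q) = ((b - d) / (a - c)) ^ 2 + 2 - a - c ∧
    ptY (P + Q) = -((b - d) / (a - c) * (ptX (P + Q) - a) + b) := by
  have := pt_add hP hQ (by rw [h1, h3]; exact h)
  simp only [h1, h2, h3, h4] at this
  exact ⟨this.2.1, this.2.2⟩

end ZZaux

open ZZaux

theorem zz_one : zz 1 = 5 := by simp [zz, X1]
theorem yy_one : yy 1 = 20 := by simp [yy, Y1]

namespace ZZaux

lemma smul_two : (2 : ℤ) • P0 = P0 + P0 := two_zsmul P0

lemma smul_four : (4 : ℤ) • P0 = (P0 + P0) + (P0 + P0) := by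
  rw [show (4 : ℤ) = 2 * 2 by norm_num, mul_zsmul, two_zsmul P0, two_zsmul]

lemma zz_two' : zz 2 = 1 := by rw [zz, smul_two]; exact two.2.1
lemma yy_two' : yy 2 = -8 := by rw [yy, smul_two]; exact two.2.2
lemma zz_four' : zz 4 = 16 := by rw [zz, smul_four]; exact four.1
lemma yy_four' : yy 4 = 68 := by rw [yy, smul_four]; exact four.2

lemma zz_ne {n : ℤ} {x : ℚ} (h : zz n = x) (hx : x ≠ 0) : n • P0 ≠ 0 := ne_of_X h hx

lemma add_zz {m n : ℤ} {a b c d : ℚ} (h1 : zz m = a) (h2 : yy m = b) (h3 : zz n = c)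
    (h4 : yy n = d) (ha : a ≠ 0) (hc : c ≠ 0) (h : a ≠ c) :
    zz (m + n) = ((b - d) / (a - c)) ^ 2 + 2 - a - c ∧
    yy (m + n) = -((b - d) / (a - c) * (zz (m + n) - a) + b) := by
  have := add_val (zz_ne h1 ha) (zz_ne h3 hc) h1 h2 h3 h4 h
  unfold zz yy
  rw [add_zsmul]
  exact this

lemma five : zz 5 = 5 / 121 ∧ yy 5 = 2180 / 1331 := by
  have h := add_zz zz_four' yy_four' zz_one yy_one (by norm_num) (by norm_num) (by norm_num)
  have e : (4 : ℤ) + 1 = 5 := by norm_num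
  rw [e] at h
  have h1 : zz 5 = 5 / 121 := by rw [h.1]; norm_num
  refine ⟨h1, ?_⟩
  rw [h.2, h1]
  norm_num

end ZZaux

theorem zz_four : zz 4 = 16 := zz_four'
theorem zz_five : zz 5 = 5 / 121 := five.1

theorem smul_P0_ne {n : ℤ} (hn : n ≠ 0) : n • P0 ≠ 0 := by
  intro h
  have hp : padicValRat 11 (ptX ((5 : ℤ) • P0)) < 0 := by
    have e : ptX ((5 : ℤ) • P0) = 5 / 121 := zz_five
    rw [e]
    have : Fact (Nat.Prime 11) := ⟨by norm_num⟩
    rw [padicValRat.div (by norm_num) (by norm_num)]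
    have h1 : padicValRat 11 (5 : ℚ) = 0 := by
      have : ((5 : ℕ) : ℚ) = 5 := by norm_num
      rw [← this, padicValRat.of_nat, padicValNat.eq_zero_of_not_dvd (by norm_num)]
      rfl
    have h2 : padicValRat 11 (121 : ℚ) = 2 := by
      have : ((11 ^ 2 : ℕ) : ℚ) = 121 := by norm_num
      rw [← this, padicValRat.of_nat, padicValNat.prime_pow]
      rfl
    rw [h1, h2]
    norm_num
  have := (pole_smul (by norm_num : Nat.Prime 11) hp hn).1
  apply this
  rw [← mul_zsmul, mul_comm, mul_zsmul, h]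
  exact zsmul_zero 5

theorem zz_neg (n : ℤ) : zz (-n) = zz n := by
  unfold zz
  rw [neg_zsmul, ptX_neg]

theorem yy_neg (n : ℤ) : yy (-n) = - yy n := by
  unfold yy
  rw [neg_zsmul, ptY_neg]

theorem yy_ne {n : ℤ} (hn : n ≠ 0) : yy n ≠ 0 := by
  intro h
  have h1 := smul_P0_ne hn
  have h2 := smul_P0_ne (mul_ne_zero two_ne_zero hn)
  apply h2
  rw [mul_zsmul, two_zsmul]
  have e : -(n • P0) = n • P0 := by
    have hX : ptX (-(n • P0)) = ptX (n • P0) := ptX_neg _
    have hY : ptY (-(n • P0)) = ptY (n • P0) := by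
      rw [ptY_neg]
      change -(yy n) = yy n
      rw [h, neg_zero]
    exact point_ext (neg_ne_zero.mpr h1) h1 hX hY
  nth_rewrite 1 [← e]
  rw [neg_add_cancel]

theorem zz_pos {n : ℤ} (hn : n ≠ 0) : 0 < zz n := by
  have h1 := ptX_nonneg (n • P0)
  refine lt_of_le_of_ne h1 ?_
  intro h
  exact yy_ne hn ((ptY_eq_zero_iff (smul_P0_ne hn)).mpr h.symm)

theorem zz_eq_iff {m n : ℤ} (hm : m ≠ 0) (hn : n ≠ 0) : zz m = zz n ↔ m = n ∨ m = -n := by
  have hinj : ∀ a b : ℤ, a • P0 = b • P0 → a = b := by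
    intro a b h
    by_contra hne
    apply smul_P0_ne (sub_ne_zero.mpr hne)
    rw [sub_zsmul, h, add_neg_cancel]
  unfold zz
  rw [ptX_eq_iff (smul_P0_ne hm) (smul_P0_ne hn)]
  constructor
  · rintro (h | h)
    · exact Or.inl (hinj _ _ h)
    · right
      apply hinj
      rw [neg_zsmul, h]
  · rintro (h | h)
    · left; rw [h]
    · right; rw [h, neg_zsmul]

namespace ZZaux

lemma prod {n : ℤ} (h0 : n ≠ 0) (h1 : n ≠ 1) (h2 : n ≠ -1) :
    zz (n + 1) * zz (n - 1) = ((zz n * 5 - 65) / (zz n - 5)) ^ 2 := by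
  have hne : ptX (n • P0) ≠ ptX P0 := by
    intro h
    have : zz n = zz 1 := by rw [zz_one]; exact h
    rcases (zz_eq_iff h0 one_ne_zero).mp this with h | h
    · exact h1 h
    · exact h2 h
  have := pt_prod (smul_P0_ne h0) P0_ne hne
  unfold zz
  rw [add_zsmul, sub_zsmul, one_zsmul, ← sub_eq_add_neg, this, X1]

lemma sq_step {n : ℤ} (h1 : 2 ≤ n) (c : ℚ) (hc : c ≠ 0) (h : IsSquare (c * zz (n - 1))) :
    IsSquare (c * zz (n + 1)) := by
  have hp := prod (n := n) (by omega) (by omega) (by omega)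
  obtain ⟨r, hr⟩ := h
  have hz : zz (n - 1) ≠ 0 := (zz_pos (by omega)).ne'
  have hr0 : r ≠ 0 := by
    rintro rfl
    rw [mul_zero] at hr
    exact mul_ne_zero hc hz hr
  refine ⟨c * ((zz n * 5 - 65) / (zz n - 5)) / r, ?_⟩
  have e : c * zz (n + 1) = c ^ 2 * (zz (n + 1) * zz (n - 1)) / (c * zz (n - 1)) := by
    field_simp
  rw [e, hp, hr]
  field_simp

end ZZaux

/-- the classes of `zz n` modulo squares -/
theorem sq_even {n : ℤ} (h : Even n) : IsSquare (zz n) := by
  have key : ∀ k : ℕ, IsSquare (1 * zz (2 * k)) := by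
    intro k
    induction k with
    | zero => simp [zz, ptX]
    | succ k ih =>
      rcases Nat.eq_zero_or_pos k with rfl | hk
      · refine ⟨1, ?_⟩
        norm_num [zz_two']
      · have := sq_step (n := 2 * k + 1) (by omega) 1 one_ne_zero
          (by simpa using ih)
        have e : (2 * ((k + 1 : ℕ) : ℤ)) = 2 * (k : ℤ) + 1 + 1 := by push_cast; ring
        rw [e]
        exact this
  obtain ⟨m, rfl⟩ := h
  rcases Int.eq_nat_or_neg m with ⟨k, rfl | rfl⟩
  · have := key k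
    rw [one_mul, two_mul] at this
    exact this
  · have := key k
    rw [one_mul, two_mul] at this
    have e : (-(k : ℤ) + -(k : ℤ)) = -((k : ℤ) + k) := by ring
    rw [e, zz_neg]
    exact this

theorem sq_odd {n : ℤ} (h : Odd n) : IsSquare (5 * zz n) := by
  have key : ∀ k : ℕ, IsSquare (5 * zz (2 * k + 1)) := by
    intro k
    induction k with
    | zero =>
      refine ⟨5, ?_⟩
      norm_num [zz_one]
    | succ k ih =>
      have := sq_step (n := 2 * k + 2) (by omega) 5 (by norm_num)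
        (by
          have e : (2 * (k : ℤ) + 2 - 1) = 2 * k + 1 := by ring
          rw [e]; exact ih)
      have e : (2 * ((k + 1 : ℕ) : ℤ) + 1) = 2 * (k : ℤ) + 2 + 1 := by push_cast; ring
      rw [e]
      exact this
  obtain ⟨m, rfl⟩ := h
  rcases Int.eq_nat_or_neg m with ⟨k, rfl | rfl⟩
  · exact key k
  · rcases Nat.eq_zero_or_pos k with rfl | hk
    · simpa using key 0
    · obtain ⟨j, rfl⟩ : ∃ j, k = j + 1 := ⟨k - 1, by omega⟩
      have := key j
      have e : (2 * (-((j + 1 : ℕ) : ℤ)) + 1) = -(2 * (j : ℤ) + 1) := by push_cast; ring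
      rw [e, zz_neg]
      exact this

namespace ZZaux

lemma eight : zz 8 = 36481 / 18496 := by
  have h4 := pt_dbl (P := (4 : ℤ) • P0) (smul_P0_ne (by norm_num))
    (by have := yy_four'; unfold yy at this; rw [this]; norm_num)
  have hx : ptX ((4 : ℤ) • P0) = 16 := zz_four'
  have hy : ptY ((4 : ℤ) • P0) = 68 := yy_four'
  simp only [hx, hy] at h4
  have e : (8 : ℤ) • P0 = (4 : ℤ) • P0 + (4 : ℤ) • P0 := by
    rw [← add_zsmul]; norm_num
  unfold zz
  rw [e, h4.2.1]
  norm_num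

end ZZaux

theorem zz_eight : zz 8 = 36481 / 18496 := eight

namespace ZZaux

lemma three : zz 3 = 45 ∧ yy 3 = -300 := by
  have h := add_zz zz_two' yy_two' zz_one yy_one (by norm_num) (by norm_num) (by norm_num)
  have e : (2 : ℤ) + 1 = 3 := by norm_num
  rw [e] at h
  have h1 : zz 3 = 45 := by rw [h.1]; norm_num
  refine ⟨h1, ?_⟩
  rw [h.2, h1]
  norm_num

end ZZaux

theorem zz_seven : zz 7 = 85805 / 841 := by
  have h := add_zz zz_four' yy_four' three.1 three.2 (by norm_num) (by norm_num) (by norm_num)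
  have e : (4 : ℤ) + 3 = 7 := by norm_num
  rw [e] at h
  rw [h.1]
  norm_num

theorem zz_nine : zz 9 = 12121245 / 3728761 := by
  have h := add_zz five.1 five.2 zz_four' yy_four' (by norm_num) (by norm_num) (by norm_num)
  have e : (5 : ℤ) + 4 = 9 := by norm_num
  rw [e] at h
  rw [h.1]
  norm_num

end Pool.Agent.H528R2
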