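import Pool.Agent.H528R2.DiffBase
import Pool.Agent.H528R2.CurvePt
import Pool.Agent.H528R2.Filt
import Pool.Agent.H528R2.ZZ

/-!
# B6: valuation of the differences `zz m - zz n`, and the bound for the rank of apparition
-/

namespace Pool.Agent.H528R2

namespace DB

/-! ### the group law for the multiples of `P0` -/

lemma curve_eq {n : ℤ} (hn : n ≠ 0) : yy n ^ 2 = zz n ^ 3 - 2 * zz n ^ 2 + 65 * zz n :=
  pt_eq (smul_P0_ne hn)

lemma zz_ne' {m n : ℤ} (hm : m ≠ 0) (hn : n ≠ 0) (h1 : m ≠ n) (h2 : m ≠ -n) : zz m ≠ zz n := by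
  intro h
  rcases (zz_eq_iff hm hn).1 h with h | h
  · exact h1 h
  · exact h2 h

lemma zz_add_formula {m n : ℤ} (hm : m ≠ 0) (hn : n ≠ 0) (h : zz m ≠ zz n) :
    zz (m + n) = ((yy m - yy n) / (zz m - zz n)) ^ 2 + (2 - zz m - zz n) := by
  have := (pt_add (smul_P0_ne hm) (smul_P0_ne hn) h).2.1
  unfold zz yy at *
  rw [add_zsmul, this]; ring

lemma zz_sub_formula {m n : ℤ} (hm : m ≠ 0) (hn : n ≠ 0) (h : zz m ≠ zz n) :
    zz (m - n) = ((yy m + yy n) / (zz m - zz n)) ^ 2 + (2 - zz m - zz n) := by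
  have h' : zz m ≠ zz (-n) := by rwa [zz_neg]
  have := zz_add_formula hm (neg_ne_zero.2 hn) h'
  rw [zz_neg, yy_neg] at this
  rw [sub_eq_add_neg, this, sub_neg_eq_add]

lemma zz_prod_formula {m n : ℤ} (hm : m ≠ 0) (hn : n ≠ 0) (h : zz m ≠ zz n) :
    zz (m + n) * zz (m - n) = ((zz m * zz n - 65) / (zz m - zz n)) ^ 2 := by
  have := pt_prod (smul_P0_ne hm) (smul_P0_ne hn) h
  unfold zz at *
  rw [add_zsmul, sub_zsmul, ← sub_eq_add_neg, this]

lemma dd_eq_DD (s : ℕ) (n : ℤ) : dd s n = DD s (zz n) := rfl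

lemma pole_dd {s : ℕ} (hs : s.Prime) {n : ℤ} (h : padicValRat s (zz n) < 0) :
    padicValRat s (zz n) = -2 * (dd s n : ℤ) ∧ 1 ≤ dd s n := by
  obtain ⟨d, hd, h1, _⟩ := pole_val hs h
  have h1' : padicValRat s (zz n) = -2 * d := h1
  have : dd s n = d := by
    unfold dd; rw [h1']; omega
  rw [this]; exact ⟨h1', hd⟩

lemma dd_of_nonneg {s : ℕ} {n : ℤ} (h : 0 ≤ padicValRat s (zz n)) : dd s n = 0 := by
  unfold dd; omega

lemma pole_add' {s : ℕ} (hs : s.Prime) {m n : ℤ} (hm : padicValRat s (zz m) < 0)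
    (hn : padicValRat s (zz n) < 0) (h : m + n ≠ 0) : padicValRat s (zz (m + n)) < 0 := by
  rcases pole_add hs hm hn with h' | h'
  · rw [← add_zsmul] at h'
    exact absurd h' (smul_P0_ne h)
  · unfold zz; rw [add_zsmul]; exact h'

/-! ### units -/

section units

variable {s : ℕ} [hs : Fact s.Prime]

lemma gv_yy {n : ℤ} (hn : n ≠ 0) (h : Vge s 0 (zz n)) : Vge s 0 (yy n) := by
  apply gv_of_sq
  rw [curve_eq hn]
  have e : zz n ^ 3 - 2 * zz n ^ 2 + 65 * zz n
      = zz n * (zz n * zz n - 2 * zz n + 65) := by ring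
  rw [e]
  have h1 := gv_mul h (gv_add (gv_sub (gv_mul h h) (gv_mul (gv_ofNat 2) h)) (gv_ofNat 65))
  simpa using h1

lemma not_vge_two (h2 : s ≠ 2) : ¬ Vge s 1 (2 : ℚ) := by
  intro h
  have h'' : Vge s 1 ((2 : ℤ) : ℚ) := by simpa using h
  have h3 : s ∣ 2 := by exact_mod_cast gv_one_int_iff.1 h''
  exact h2 ((Nat.prime_dvd_prime_iff_eq hs.out Nat.prime_two).1 h3)

lemma not_vge_64 (h2 : s ≠ 2) : ¬ Vge s 1 (64 : ℚ) := by
  intro h
  have h'' : Vge s 1 ((64 : ℤ) : ℚ) := by simpa using h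
  have h3 : s ∣ 2 ^ 6 := by exact_mod_cast gv_one_int_iff.1 h''
  exact h2 ((Nat.prime_dvd_prime_iff_eq hs.out Nat.prime_two).1 (hs.out.dvd_of_dvd_pow h3))

lemma gv_65 (h : Vge s 1 (65 : ℚ)) : s ∣ 65 := by
  have h'' : Vge s 1 ((65 : ℤ) : ℚ) := by simpa using h
  exact_mod_cast gv_one_int_iff.1 h''

lemma even_val_of_isSquare {x : ℚ} (hx : IsSquare x) : Even (padicValRat s x) := by
  obtain ⟨r, rfl⟩ := hx
  by_cases hr : r = 0
  · subst hr; simp
  rw [padicValRat.mul hr hr]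
  exact ⟨_, rfl⟩

lemma val_65 (h : s = 5 ∨ s = 13) : padicValRat s (65 : ℚ) = 1 := by
  have e : (65 : ℚ) = ((65 : ℕ) : ℚ) := by norm_num
  rw [e, padicValRat.of_nat]
  have e2 : (65 : ℕ) = 5 * 13 := by norm_num
  rw [e2]
  haveI : Fact (Nat.Prime 5) := ⟨by norm_num⟩
  haveI : Fact (Nat.Prime 13) := ⟨by norm_num⟩
  rw [padicValNat.mul (by norm_num) (by norm_num)]
  rcases h with h | h
  · subst h
    rw [padicValNat_self, padicValNat_primes (by norm_num)]; norm_num
  · subst h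
    rw [padicValNat_self, padicValNat_primes (by norm_num)]; norm_num

/-- `zz n` is a unit at `5` (`n` even) and at `13`, unless it has a pole -/
lemma not_vge_zz {n : ℤ} (hn : n ≠ 0) (h : (s = 5 ∧ Even n) ∨ s = 13) (_h0 : Vge s 0 (zz n)) :
    ¬ Vge s 1 (zz n) := by
  intro h1
  have hz : zz n ≠ 0 := (zz_pos hn).ne'
  have hv1 : 1 ≤ padicValRat s (zz n) := h1.resolve_left hz
  have hev : Even (padicValRat s (zz n)) := by
    rcases h with ⟨_, h⟩ | h
    · exact even_val_of_isSquare (sq_even h)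
    · rcases Int.even_or_odd n with h' | h'
      · exact even_val_of_isSquare (sq_even h')
      · have := even_val_of_isSquare (s := s) (sq_odd h')
        rw [padicValRat.mul (by norm_num) hz] at this
        have h5 : padicValRat s (5 : ℚ) = 0 := by
          have e : (5 : ℚ) = ((5 : ℕ) : ℚ) := by norm_num
          rw [e, padicValRat.of_nat]
          haveI : Fact (Nat.Prime 5) := ⟨by norm_num⟩
          rw [padicValNat_primes (by omega)]; simp
        rwa [h5, zero_add] at this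
  have hv2 : 2 ≤ padicValRat s (zz n) := by
    rcases hev with ⟨r, hr⟩; omega
  have h65 := val_65 (s := s) (by tauto)
  have hV2 : Vge s 2 (zz n) := Or.inr hv2
  have hq : Vge s 2 (zz n * zz n - 2 * zz n) := by
    refine gv_sub ?_ ?_
    · have := gv_mul hV2 hV2
      exact gv_mono (by norm_num) this
    · have := gv_mul (gv_ofNat (s := s) 2) hV2
      simpa using this
  obtain ⟨hne, hval⟩ := gval_add (s := s) (x := 65) (y := zz n * zz n - 2 * zz n) (by norm_num)
    (by rw [h65]; exact hq)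
  have e : yy n ^ 2 = zz n * (65 + (zz n * zz n - 2 * zz n)) := by
    rw [curve_eq hn]; ring
  have e2 := congrArg (padicValRat s) e
  rw [padicValRat.mul hz hne, hval, h65, padicValRat.pow] at e2
  push_cast at e2
  rcases hev with ⟨r, hr⟩
  omega

/-- the integral case, except for `s = 5` and `m`, `n` odd -/
lemma diff_int {m n : ℤ} (h2 : s ≠ 2) (hm : m ≠ 0) (hn : n ≠ 0) (h : zz m ≠ zz n)
    (hi1 : Vge s 0 (zz m)) (hi2 : Vge s 0 (zz n)) (h5 : s ∣ 65 → ¬ Vge s 1 (zz m)) :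
    (dd s (m + n) : ℤ) + (dd s (m - n) : ℤ) = padicValRat s (zz m - zz n) := by
  rw [dd_eq_DD, dd_eq_DD, zz_add_formula hm hn h, zz_sub_formula hm hn h]
  have hy1 := gv_yy hm hi1
  have hy2 := gv_yy hn hi2
  have hg : Vge s 0 (zz m * zz m + zz m * zz n + zz n * zz n - 2 * (zz m + zz n) + 65) := by
    refine gv_add (gv_sub (gv_add (gv_add ?_ ?_) ?_) ?_) (gv_ofNat 65)
    · simpa using gv_mul hi1 hi1
    · simpa using gv_mul hi1 hi2
    · simpa using gv_mul hi2 hi2
    · simpa using gv_mul (gv_ofNat (s := s) 2) (gv_add hi1 hi2)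
  refine key (g := zz m * zz m + zz m * zz n + zz n * zz n - 2 * (zz m + zz n) + 65) h h2 hy1 hy2
    hg (gv_sub (gv_sub (gv_ofNat 2) hi1) hi2) (gv_sub hi1 hi2) ?_ ?_
  · linear_combination (curve_eq hm) - curve_eq hn
  · intro hd
    by_contra hcon
    push Not at hcon
    obtain ⟨hY, hG⟩ := hcon
    -- f'(Z1) is in the maximal ideal
    have hf' : Vge s 1 (3 * (zz m * zz m) - 4 * zz m + 65) := by
      have a1 : Vge s 0 (2 - zz n - 2 * zz m) :=
        gv_sub (gv_sub (gv_ofNat 2) hi2) (by simpa using gv_mul (gv_ofNat (s := s) 2) hi1)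
      have a2 : Vge s 1 ((zz m - zz n) * (2 - zz n - 2 * zz m)) := by
        simpa using gv_mul hd a1
      have a3 := gv_sub hG a2
      have e : zz m * zz m + zz m * zz n + zz n * zz n - 2 * (zz m + zz n) + 65 -
          (zz m - zz n) * (2 - zz n - 2 * zz m) = 3 * (zz m * zz m) - 4 * zz m + 65 := by ring
      rwa [e] at a3
    have hnZ : ¬ Vge s 1 (zz m) := by
      intro hZ
      have a1 : Vge s 0 (3 * zz m - 4) :=
        gv_sub (by simpa using gv_mul (gv_ofNat (s := s) 3) hi1) (gv_ofNat 4)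
      have a2 : Vge s 1 (zz m * (3 * zz m - 4)) := by simpa using gv_mul hZ a1
      have a3 := gv_sub hf' a2
      have e : 3 * (zz m * zz m) - 4 * zz m + 65 - zz m * (3 * zz m - 4) = 65 := by ring
      rw [e] at a3
      exact h5 (gv_65 a3) hZ
    have hq0 : Vge s 0 (zz m * zz m - 2 * zz m + 65) :=
      gv_add (gv_sub (by simpa using gv_mul hi1 hi1)
        (by simpa using gv_mul (gv_ofNat (s := s) 2) hi1)) (gv_ofNat 65)
    have hq : Vge s 1 (zz m * (zz m * zz m - 2 * zz m + 65)) := by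
      have e : zz m * (zz m * zz m - 2 * zz m + 65) = yy m * yy m := by
        linear_combination - curve_eq hm
      rw [e]
      exact gv_mono (by norm_num) (gv_mul hY hY)
    have hq1 := (gv_prime hi1 hq0 hq).resolve_left hnZ
    have b1 : Vge s 1 (2 * (zz m * (zz m - 1))) := by
      have := gv_sub hf' hq1
      have e : 3 * (zz m * zz m) - 4 * zz m + 65 - (zz m * zz m - 2 * zz m + 65)
        = 2 * (zz m * (zz m - 1)) := by ring
      rwa [e] at this
    have hZ1 : Vge s 0 (zz m - 1) := gv_sub hi1 (by simpa using gv_nat (s := s) 1)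
    have b2 := (gv_prime (gv_ofNat (s := s) 2) (by simpa using gv_mul hi1 hZ1) b1).resolve_left
      (not_vge_two h2)
    have b3 := (gv_prime hi1 hZ1 b2).resolve_left hnZ
    have b4 : Vge s 1 ((zz m - 1) * (zz m - 1)) := gv_mono (by norm_num) (gv_mul b3 b3)
    have b5 := gv_sub hq1 b4
    have e : zz m * zz m - 2 * zz m + 65 - (zz m - 1) * (zz m - 1) = 64 := by ring
    rw [e] at b5
    exact not_vge_64 h2 b5

end units

/-! ### the prime `5` and odd indices -/

section five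

lemma nonres5_aux : ∀ a b : ZMod 5, a ^ 2 - 13 * b ^ 2 = 0 → a = 0 ∧ b = 0 := by decide

lemma nonres5 (t : ℚ) : ¬ Vge 5 1 (t ^ 2 - 13) := by
  intro h
  haveI : Fact (Nat.Prime 5) := ⟨by norm_num⟩
  have hd : (t.den : ℚ) ≠ 0 := by exact_mod_cast t.den_nz
  have h1 : Vge 5 1 ((t ^ 2 - 13) * ((t.den : ℚ) * (t.den : ℚ))) := by
    have := gv_mul h (gv_mul (gv_nat (s := 5) t.den) (gv_nat (s := 5) t.den))
    simpa using this
  have e : (t ^ 2 - 13) * ((t.den : ℚ) * (t.den : ℚ)) =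
      ((t.num ^ 2 - 13 * (t.den : ℤ) ^ 2 : ℤ) : ℚ) := by
    have ht : t * t.den = t.num := Rat.mul_den_eq_num t
    push_cast
    rw [← ht]; ring
  rw [e, gv_one_int_iff] at h1
  have h2 : ((t.num ^ 2 - 13 * (t.den : ℤ) ^ 2 : ℤ) : ZMod 5) = 0 :=
    (ZMod.intCast_zmod_eq_zero_iff_dvd _ 5).2 (by exact_mod_cast h1)
  push_cast at h2
  obtain ⟨ha, hb⟩ := nonres5_aux _ _ h2
  have ha' : (5 : ℤ) ∣ t.num := (ZMod.intCast_zmod_eq_zero_iff_dvd _ 5).1 ha
  have hb' : 5 ∣ t.den := (ZMod.natCast_eq_zero_iff _ 5).1 hb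
  have hc := t.reduced
  have ha'' : 5 ∣ t.num.natAbs := Int.natCast_dvd.1 (by exact_mod_cast ha')
  have := Nat.dvd_gcd ha'' hb'
  rw [hc.gcd_eq_one] at this
  norm_num at this

/-- for odd `n`: `zz n = 5 α²`, `yy n = 5 y`, `α` a `5`-unit, `y` integral -/
lemma odd_five {n : ℤ} (ho : Odd n) : ∃ α y : ℚ, zz n = 5 * α ^ 2 ∧ yy n = 5 * y ∧
    y ^ 2 = α ^ 2 * (5 * α ^ 4 - 2 * α ^ 2 + 13) ∧ Vge 5 0 α ∧ ¬ Vge 5 1 α ∧ Vge 5 0 y ∧
    padicValRat 5 (zz n) = 1 := by
  haveI : Fact (Nat.Prime 5) := ⟨by norm_num⟩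
  have hn : n ≠ 0 := by rintro rfl; simp at ho
  have hz : zz n ≠ 0 := (zz_pos hn).ne'
  obtain ⟨r, hr⟩ := sq_odd ho
  have hzα : zz n = 5 * (r / 5) ^ 2 := by field_simp; linear_combination hr
  have hα : r / 5 ≠ 0 := by
    intro h; rw [h] at hzα; apply hz; rw [hzα]; ring
  set α := r / 5 with hαdef
  have hyy : yy n ^ 2 = 25 * (α ^ 2 * (5 * α ^ 4 - 2 * α ^ 2 + 13)) := by
    rw [curve_eq hn, hzα]; ring
  have hye : (yy n / 5) ^ 2 = α ^ 2 * (5 * α ^ 4 - 2 * α ^ 2 + 13) := by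
    field_simp; linear_combination hyy
  have hv5 : padicValRat 5 (5 : ℚ) = 1 := by
    have := padicValRat.self (p := 5) (by norm_num)
    simpa using this
  have hvz : padicValRat 5 (zz n) = 1 + 2 * padicValRat 5 α := by
    rw [hzα, padicValRat.mul (by norm_num) (pow_ne_zero 2 hα), padicValRat.pow, hv5]; push_cast
    ring
  have hnn : 0 ≤ padicValRat 5 (zz n) := by
    by_contra hc
    push Not at hc
    obtain ⟨h1, _⟩ := pole_dd (by norm_num) hc
    omega
  have hα0 : Vge 5 0 α := Or.inr (by omega)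
  have h2' : Vge 5 0 (α ^ 2) := by simpa using gv_sq hα0
  have h4 : Vge 5 0 (α ^ 4) := by
    have := gv_mul h2' h2'
    have e : α ^ 4 = α ^ 2 * α ^ 2 := by ring
    rw [e]; simpa using this
  have hy0 : Vge 5 0 (yy n / 5) := by
    apply gv_of_sq
    rw [hye]
    have a := gv_mul h2' (gv_add (gv_sub (gv_mul (gv_ofNat (s := 5) 5) h4)
      (gv_mul (gv_ofNat (s := 5) 2) h2')) (gv_ofNat (s := 5) 13))
    simpa using a
  have hα1 : ¬ Vge 5 1 α := by
    intro h
    have ht : (yy n / 5 / α) ^ 2 = 5 * α ^ 4 - 2 * α ^ 2 + 13 := by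
      rw [div_pow, hye]; field_simp
    apply nonres5 (yy n / 5 / α)
    rw [ht]
    have e : 5 * α ^ 4 - 2 * α ^ 2 + 13 - 13 = α * (5 * (α * α * α) - 2 * α) := by ring
    rw [e]
    have a := gv_mul h (gv_sub (gv_mul (gv_ofNat (s := 5) 5) (gv_mul (gv_mul hα0 hα0) hα0))
      (gv_mul (gv_ofNat (s := 5) 2) hα0))
    simpa using a
  refine ⟨α, yy n / 5, hzα, by ring, hye, hα0, hα1, hy0, ?_⟩
  have := (gval_of hα0 hα1).2
  rw [hvz, this]; norm_num

lemma diff_five {m n : ℤ} (hm : Odd m) (hn : Odd n) (h : zz m ≠ zz n) :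
    (dd 5 (m + n) : ℤ) + (dd 5 (m - n) : ℤ) = padicValRat 5 (zz m - zz n) - 1 := by
  haveI : Fact (Nat.Prime 5) := ⟨by norm_num⟩
  have hm0 : m ≠ 0 := by rintro rfl; simp at hm
  have hn0 : n ≠ 0 := by rintro rfl; simp at hn
  obtain ⟨α, y, hz1, hy1, he1, hα, hα', hyi, hvz1⟩ := odd_five hm
  obtain ⟨β, w, hz2, hw2, he2, hβ, hβ', hwi, hvz2⟩ := odd_five hn
  have hu : Vge 5 0 (α ^ 2) := by simpa using gv_sq hα
  have hv : Vge 5 0 (β ^ 2) := by simpa using gv_sq hβ
  have hne : α ^ 2 ≠ β ^ 2 := by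
    intro h'; apply h; rw [hz1, hz2, h']
  have hne' : α ^ 2 - β ^ 2 ≠ 0 := sub_ne_zero.2 hne
  rw [dd_eq_DD, dd_eq_DD, zz_add_formula hm0 hn0 h, zz_sub_formula hm0 hn0 h]
  have e1 : (yy m - yy n) / (zz m - zz n) = (y - w) / (α ^ 2 - β ^ 2) := by
    rw [hy1, hw2, hz1, hz2, ← mul_sub, ← mul_sub, mul_div_mul_left _ _ (by norm_num)]
  have e2 : (yy m + yy n) / (zz m - zz n) = (y + w) / (α ^ 2 - β ^ 2) := by
    rw [hy1, hw2, hz1, hz2, ← mul_add, ← mul_sub, mul_div_mul_left _ _ (by norm_num)]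
  rw [e1, e2]
  have hv5 : padicValRat 5 (5 : ℚ) = 1 := by
    have := padicValRat.self (p := 5) (by norm_num)
    simpa using this
  have e3 : padicValRat 5 (zz m - zz n) - 1 = padicValRat 5 (α ^ 2 - β ^ 2) := by
    have e : zz m - zz n = 5 * (α ^ 2 - β ^ 2) := by rw [hz1, hz2]; ring
    rw [e, padicValRat.mul (by norm_num) hne', hv5]; ring
  rw [e3]
  have hzi1 : Vge 5 0 (zz m) := Or.inr (by rw [hvz1]; norm_num)
  have hzi2 : Vge 5 0 (zz n) := Or.inr (by rw [hvz2]; norm_num)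
  have h5I : Vge 5 1 (5 : ℚ) := Or.inr (by rw [hv5])
  have huu : Vge 5 0 (α ^ 2 * α ^ 2) := by simpa using gv_mul hu hu
  have huv : Vge 5 0 (α ^ 2 * β ^ 2) := by simpa using gv_mul hu hv
  have hvv : Vge 5 0 (β ^ 2 * β ^ 2) := by simpa using gv_mul hv hv
  have hg : Vge 5 0 (5 * (α ^ 2 * α ^ 2 + α ^ 2 * β ^ 2 + β ^ 2 * β ^ 2)
      - 2 * (α ^ 2 + β ^ 2) + 13) := by
    refine gv_add (gv_sub ?_ ?_) (gv_ofNat 13)
    · simpa using gv_mul (gv_ofNat (s := 5) 5) (gv_add (gv_add huu huv) hvv)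
    · simpa using gv_mul (gv_ofNat (s := 5) 2) (gv_add hu hv)
  refine key (g := 5 * (α ^ 2 * α ^ 2 + α ^ 2 * β ^ 2 + β ^ 2 * β ^ 2)
      - 2 * (α ^ 2 + β ^ 2) + 13) hne (by norm_num) hyi hwi hg
    (gv_sub (gv_sub (gv_ofNat 2) hzi1) hzi2) (gv_sub hu hv) ?_ ?_
  · linear_combination he1 - he2
  · intro hd
    by_contra hcon
    push Not at hcon
    obtain ⟨hY, hG⟩ := hcon
    have hf' : Vge 5 1 (15 * (α ^ 2 * α ^ 2) - 4 * α ^ 2 + 13) := by
      have a1 : Vge 5 0 (2 - 5 * β ^ 2 - 10 * α ^ 2) :=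
        gv_sub (gv_sub (gv_ofNat 2) (by simpa using gv_mul (gv_ofNat (s := 5) 5) hv))
          (by simpa using gv_mul (gv_ofNat (s := 5) 10) hu)
      have a2 : Vge 5 1 ((α ^ 2 - β ^ 2) * (2 - 5 * β ^ 2 - 10 * α ^ 2)) := by
        simpa using gv_mul hd a1
      have a3 := gv_sub hG a2
      have e : 5 * (α ^ 2 * α ^ 2 + α ^ 2 * β ^ 2 + β ^ 2 * β ^ 2)
          - 2 * (α ^ 2 + β ^ 2) + 13 - (α ^ 2 - β ^ 2) * (2 - 5 * β ^ 2 - 10 * α ^ 2)
          = 15 * (α ^ 2 * α ^ 2) - 4 * α ^ 2 + 13 := by ring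
      rwa [e] at a3
    have hu1 : ¬ Vge 5 1 (α ^ 2) := by
      intro h'
      have : Vge 5 1 (α * α) := by rwa [← pow_two]
      rcases gv_prime hα hα this with h'' | h'' <;> exact hα' h''
    have hq0 : Vge 5 0 (5 * (α ^ 2 * α ^ 2) - 2 * α ^ 2 + 13) :=
      gv_add (gv_sub (by simpa using gv_mul (gv_ofNat (s := 5) 5) huu)
        (by simpa using gv_mul (gv_ofNat (s := 5) 2) hu)) (gv_ofNat 13)
    have hq : Vge 5 1 (α ^ 2 * (5 * (α ^ 2 * α ^ 2) - 2 * α ^ 2 + 13)) := by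
      have e : α ^ 2 * (5 * (α ^ 2 * α ^ 2) - 2 * α ^ 2 + 13) = y * y := by
        linear_combination - he1
      rw [e]
      exact gv_mono (by norm_num) (gv_mul hY hY)
    have hq1 := (gv_prime hu hq0 hq).resolve_left hu1
    have b1 : Vge 5 1 (2 * (5 * (α ^ 2 * α ^ 2) - 2 * α ^ 2 + 13)) := by
      simpa using gv_mul (gv_ofNat (s := 5) 2) hq1
    have b2 := gv_sub hf' b1
    have b3 : Vge 5 1 (5 * (α ^ 2 * α ^ 2)) := by simpa using gv_mul h5I huu
    have b4 := gv_sub b3 b2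
    have e : 5 * (α ^ 2 * α ^ 2) - (15 * (α ^ 2 * α ^ 2) - 4 * α ^ 2 + 13 -
        2 * (5 * (α ^ 2 * α ^ 2) - 2 * α ^ 2 + 13)) = ((13 : ℤ) : ℚ) := by push_cast; ring
    rw [e, gv_one_int_iff] at b4
    norm_num at b4

end five

/-! ### main statements -/

lemma inert_ne_two {s : ℕ} (hs : Inert s) : s ≠ 2 := by
  rintro rfl
  rcases hs.2 with h | h <;> norm_num at h

lemma dvd_65_cases {s : ℕ} (hp : s.Prime) (h : s ∣ 65) : s = 5 ∨ s = 13 := by
  have e : (65 : ℕ) = 5 * 13 := by norm_num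
  rw [e, hp.dvd_mul] at h
  rcases h with h | h
  · left; exact (Nat.prime_dvd_prime_iff_eq hp (by norm_num)).1 h
  · right; exact (Nat.prime_dvd_prime_iff_eq hp (by norm_num)).1 h

end DB

open DB

/-- integral case, exact formula -/
theorem diff_exact {s : ℕ} (hs : Inert s) {m n : ℤ} (hm : m ≠ 0) (hn : n ≠ 0) (h1 : m ≠ n)
    (h2 : m ≠ -n) (hi1 : 0 ≤ padicValRat s (zz m)) (hi2 : 0 ≤ padicValRat s (zz n)) :
    (dd s (m + n) : ℤ) + (dd s (m - n) : ℤ) =
      padicValRat s (zz m - zz n) - (if s = 5 ∧ Odd m ∧ Odd n then 1 else 0) := by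
  haveI : Fact s.Prime := ⟨hs.1⟩
  have hne := zz_ne' hm hn h1 h2
  by_cases h5 : s = 5 ∧ Odd m ∧ Odd n
  · obtain ⟨rfl, ho1, ho2⟩ := h5
    rw [if_pos ⟨rfl, ho1, ho2⟩]
    exact diff_five ho1 ho2 hne
  · rw [if_neg h5, sub_zero]
    -- if s = 5 and m odd, exchange the roles
    by_cases hmo : s = 5 ∧ Odd m
    · have hno : Even n := by
        by_contra hc
        exact h5 ⟨hmo.1, hmo.2, Int.not_even_iff_odd.1 hc⟩
      have := diff_int (s := s) (inert_ne_two hs) hn hm hne.symm (Or.inr hi2) (Or.inr hi1)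
        (fun _ => not_vge_zz hn (Or.inl ⟨hmo.1, hno⟩) (Or.inr hi2))
      have e1 : padicValRat s (zz n - zz m) = padicValRat s (zz m - zz n) := by
        rw [← neg_sub, padicValRat.neg]
      have e2 : dd s (n - m) = dd s (m - n) := by
        unfold dd; rw [← neg_sub, zz_neg]
      rw [e1, e2, add_comm n m] at this
      exact this
    · refine diff_int (s := s) (inert_ne_two hs) hm hn hne (Or.inr hi1) (Or.inr hi2) (fun h65 => ?_)
      refine not_vge_zz hm ?_ (Or.inr hi1)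
      rcases dvd_65_cases hs.1 h65 with h | h
      · left
        refine ⟨h, ?_⟩
        by_contra hc
        exact hmo ⟨h, Int.not_even_iff_odd.1 hc⟩
      · right; exact h

lemma DB.odd_five_nonneg {n : ℤ} (ho : Odd n) : 0 ≤ padicValRat 5 (zz n) := by
  obtain ⟨_, _, _, _, _, _, _, _, h⟩ := odd_five ho
  rw [h]; norm_num

/-- `v_s(zz m - zz n) ≡ dd s (m+n) + dd s (m-n) + [s = 5, m and n odd] (mod 2)` -/
theorem diff_parity {s : ℕ} (hs : Inert s) {m n : ℤ} (hm : m ≠ 0) (hn : n ≠ 0) (h1 : m ≠ n)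
    (h2 : m ≠ -n) :
    ((padicValRat s (zz m - zz n) : ℤ) : ZMod 2) =
      (dd s (m + n) : ZMod 2) + (dd s (m - n) : ZMod 2) +
        (if s = 5 ∧ Odd m ∧ Odd n then 1 else 0) := by
  haveI : Fact s.Prime := ⟨hs.1⟩
  have hne := zz_ne' hm hn h1 h2
  have hne0 : zz m - zz n ≠ 0 := sub_ne_zero.2 hne
  have hzm : zz m ≠ 0 := (zz_pos hm).ne'
  have hzn : zz n ≠ 0 := (zz_pos hn).ne'
  have hp0 : m + n ≠ 0 := fun h => h2 (by omega)
  have hm0 : m - n ≠ 0 := fun h => h1 (by omega)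
  have two0 : (2 : ZMod 2) = 0 := by decide
  by_cases p1 : padicValRat s (zz m) < 0 <;> by_cases p2 : padicValRat s (zz n) < 0
  · -- both poles
    have hif : ¬ (s = 5 ∧ Odd m ∧ Odd n) := by
      rintro ⟨rfl, ho, _⟩
      have := odd_five_nonneg ho
      omega
    rw [if_neg hif, add_zero]
    have q1 := pole_add' hs.1 p1 p2 hp0
    have p2' : padicValRat s (zz (-n)) < 0 := by rwa [zz_neg]
    have q2 := pole_add' hs.1 p1 p2' (by rwa [← sub_eq_add_neg])
    rw [← sub_eq_add_neg] at q2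
    obtain ⟨d1, -⟩ := pole_dd hs.1 q1
    obtain ⟨d2, -⟩ := pole_dd hs.1 q2
    obtain ⟨e1, -⟩ := pole_dd hs.1 p1
    obtain ⟨e2, -⟩ := pole_dd hs.1 p2
    have hz1 : zz (m + n) ≠ 0 := (zz_pos hp0).ne'
    have hz2 : zz (m - n) ≠ 0 := (zz_pos hm0).ne'
    have hpr := congrArg (padicValRat s) (zz_prod_formula hm hn hne)
    have hmn : padicValRat s (zz m * zz n) < 0 := by
      rw [padicValRat.mul hzm hzn]; omega
    obtain ⟨hne65, hv65⟩ := gval_add (s := s) (x := zz m * zz n) (y := -65)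
      (mul_ne_zero hzm hzn) (gv_neg (gv_mono (by omega) (gv_ofNat 65)))
    rw [← sub_eq_add_neg] at hne65 hv65
    rw [padicValRat.mul hz1 hz2, padicValRat.pow, padicValRat.div hne65 hne0, hv65,
      padicValRat.mul hzm hzn, d1, d2, e1, e2] at hpr
    push_cast at hpr
    have : padicValRat s (zz m - zz n) =
      (dd s (m + n) : ℤ) + (dd s (m - n) : ℤ) - 2 * (dd s m + dd s n) := by
      linarith
    rw [this]
    push_cast
    rw [two0]; ring
  · -- pole at m only
    have hif : ¬ (s = 5 ∧ Odd m ∧ Odd n) := by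
      rintro ⟨rfl, ho, _⟩
      have := odd_five_nonneg ho
      omega
    rw [if_neg hif, add_zero]
    have q1 : ¬ padicValRat s (zz (m + n)) < 0 := by
      intro h
      apply p2
      have p1' : padicValRat s (zz (-m)) < 0 := by rwa [zz_neg]
      have := pole_add' hs.1 h p1' (by omega)
      have e : m + n + -m = n := by ring
      rwa [e] at this
    have q2 : ¬ padicValRat s (zz (m - n)) < 0 := by
      intro h
      apply p2
      have p1' : padicValRat s (zz (-m)) < 0 := by rwa [zz_neg]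
      have := pole_add' hs.1 h p1' (by omega)
      have e : m - n + -m = -n := by ring
      rwa [e, zz_neg] at this
    rw [dd_of_nonneg (not_lt.1 q1), dd_of_nonneg (not_lt.1 q2)]
    obtain ⟨e1, -⟩ := pole_dd hs.1 p1
    have : padicValRat s (zz m - zz n) = padicValRat s (zz m) := by
      rw [sub_eq_add_neg]
      exact (gval_add (s := s) hzm (gv_neg (Or.inr (by omega)))).2
    rw [this, e1]
    push_cast
    rw [two0]; ring
  · -- pole at n only
    have hif : ¬ (s = 5 ∧ Odd m ∧ Odd n) := by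
      rintro ⟨rfl, _, ho⟩
      have := odd_five_nonneg ho
      omega
    rw [if_neg hif, add_zero]
    have q1 : ¬ padicValRat s (zz (m + n)) < 0 := by
      intro h
      apply p1
      have p1' : padicValRat s (zz (-n)) < 0 := by rwa [zz_neg]
      have := pole_add' hs.1 h p1' (by omega)
      have e : m + n + -n = m := by ring
      rwa [e] at this
    have q2 : ¬ padicValRat s (zz (m - n)) < 0 := by
      intro h
      apply p1
      have := pole_add' hs.1 h p2 (by omega)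
      have e : m - n + n = m := by ring
      rwa [e] at this
    rw [dd_of_nonneg (not_lt.1 q1), dd_of_nonneg (not_lt.1 q2)]
    obtain ⟨e1, -⟩ := pole_dd hs.1 p2
    have : padicValRat s (zz m - zz n) = padicValRat s (zz n) := by
      have e : zz m - zz n = -zz n + zz m := by ring
      rw [e]
      have := (gval_add (s := s) (x := -zz n) (y := zz m) (neg_ne_zero.2 hzn)
        (Or.inr (by rw [padicValRat.neg]; omega))).2
      rw [this, padicValRat.neg]
    rw [this, e1]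
    push_cast
    rw [two0]; ring
  · have := diff_exact hs hm hn h1 h2 (not_lt.1 p1) (not_lt.1 p2)
    have h' : padicValRat s (zz m - zz n) = (dd s (m + n) : ℤ) + (dd s (m - n) : ℤ) +
      (if s = 5 ∧ Odd m ∧ Odd n then 1 else 0) := by linarith
    rw [h']
    push_cast
    rfl

/-! ### rank of apparition -/

lemma DB.rk_le_of_pole {s k : ℕ} (hk : 0 < k) (h : padicValRat s (zz k) < 0) : rk s ≤ k :=
  Nat.sInf_le ⟨hk, h⟩

/-- equality of the reductions -/
lemma gv_sub_of_cast {s : ℕ} [hs : Fact s.Prime] {x y : ℚ} (hx : 0 ≤ padicValRat s x)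
    (hy : 0 ≤ padicValRat s y)
    (h : (x.num : ZMod s) * (y.den : ZMod s) = (y.num : ZMod s) * (x.den : ZMod s)) :
    Vge s 1 (x - y) := by
  have hden : ∀ z : ℚ, 0 ≤ padicValRat s z → ¬ Vge s 1 (z.den : ℚ) := by
    intro z hz hd
    have hd' : Vge s 1 (((z.den : ℕ) : ℤ) : ℚ) := by simpa using hd
    have hdvd : s ∣ z.den := by exact_mod_cast gv_one_int_iff.1 hd'
    have h1 : Vge s 1 ((z.num : ℤ) : ℚ) := by
      rw [← Rat.mul_den_eq_num z]
      have := gv_mul (s := s) (k := 0) (l := 1) (x := z) (y := (z.den : ℚ)) (Or.inr hz) hd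
      simpa using this
    have h2 := gv_one_int_iff.1 h1
    have h3 : s ∣ z.num.natAbs := Int.natCast_dvd.1 h2
    have := Nat.dvd_gcd h3 hdvd
    rw [z.reduced.gcd_eq_one] at this
    exact hs.out.one_lt.ne' (Nat.dvd_one.1 this)
  have hxd : (x.den : ℚ) ≠ 0 := by exact_mod_cast x.den_nz
  have hyd : (y.den : ℚ) ≠ 0 := by exact_mod_cast y.den_nz
  have h1 : (s : ℤ) ∣ x.num * y.den - y.num * x.den := by
    rw [← ZMod.intCast_zmod_eq_zero_iff_dvd]
    push_cast
    rw [h, sub_self]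
  have h2 : Vge s 1 ((x.den : ℚ) * ((y.den : ℚ) * (x - y))) := by
    have e : (x.den : ℚ) * ((y.den : ℚ) * (x - y)) =
        ((x.num * y.den - y.num * x.den : ℤ) : ℚ) := by
      push_cast
      rw [← Rat.mul_den_eq_num x, ← Rat.mul_den_eq_num y]
      ring
    rw [e]; exact gv_one_int_iff.2 h1
  have hxy : Vge s 0 (x - y) := gv_sub (Or.inr hx) (Or.inr hy)
  have h3 := (gv_prime (gv_nat _) (by simpa using gv_mul (gv_nat (s := s) y.den) hxy)
    h2).resolve_left (hden x hx)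
  exact (gv_prime (gv_nat _) hxy h3).resolve_left (hden y hy)

/-- pigeonhole on the values `zz n` modulo `s` -/
theorem rk_le {s : ℕ} (hs : Inert s) (h : 7 ≤ s) : rk s ≤ 2 * s + 1 := by
  haveI : Fact s.Prime := ⟨hs.1⟩
  by_cases hp : ∃ k : ℕ, 0 < k ∧ k ≤ s + 1 ∧ padicValRat s (zz k) < 0
  · obtain ⟨k, hk0, hk1, hk2⟩ := hp
    have := rk_le_of_pole hk0 hk2
    omega
  push Not at hp
  -- the map to residues
  let F : Fin (s + 1) → ZMod s := fun i =>
    ((zz ((i : ℕ) + 1 : ℕ)).num : ZMod s) * ((zz ((i : ℕ) + 1 : ℕ)).den : ZMod s)⁻¹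
  have hcard : Fintype.card (ZMod s) < Fintype.card (Fin (s + 1)) := by
    rw [ZMod.card, Fintype.card_fin]; omega
  obtain ⟨i, j, hij, hF⟩ := Fintype.exists_ne_map_eq_of_card_lt F hcard
  have main : ∀ a b : ℕ, 0 < a → a < b → b ≤ s + 1 →
      Vge s 1 (zz b - zz a) → rk s ≤ 2 * s + 1 := by
    intro a b ha hab hb hv
    have ea := hp a ha (by omega)
    have eb := hp b (by omega) hb
    have hne := zz_ne' (m := (b : ℤ)) (n := (a : ℤ)) (by omega) (by omega) (by omega) (by omega)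
    have hex := diff_exact hs (m := (b : ℤ)) (n := (a : ℤ)) (by omega) (by omega) (by omega)
      (by omega) eb ea
    rw [if_neg (by omega), sub_zero] at hex
    have hpos : 1 ≤ padicValRat s (zz b - zz a) := hv.resolve_left (sub_ne_zero.2 hne)
    have hcase : 0 < dd s ((b : ℤ) + a) ∨ 0 < dd s ((b : ℤ) - a) := by omega
    rcases hcase with hc | hc
    · have hneg : padicValRat s (zz ((b : ℤ) + a)) < 0 := by
        by_contra hcc
        rw [dd_of_nonneg (not_lt.1 hcc)] at hc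
        exact lt_irrefl _ hc
      have := rk_le_of_pole (s := s) (k := b + a) (by omega) (by push_cast; exact hneg)
      omega
    · have hneg : padicValRat s (zz ((b : ℤ) - a)) < 0 := by
        by_contra hcc
        rw [dd_of_nonneg (not_lt.1 hcc)] at hc
        exact lt_irrefl _ hc
      have := rk_le_of_pole (s := s) (k := b - a) (by omega)
        (by rw [Nat.cast_sub hab.le]; exact hneg)
      omega
  have hden : ∀ z : ℚ, 0 ≤ padicValRat s z → (z.den : ZMod s) ≠ 0 := by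
    intro z hz hd
    have hdvd : s ∣ z.den := (ZMod.natCast_eq_zero_iff _ s).1 hd
    have hd1 : Vge s 1 ((z.den : ℕ) : ℚ) := by
      have : Vge s 1 (((z.den : ℕ) : ℤ) : ℚ) := gv_one_int_iff.2 (by exact_mod_cast hdvd)
      simpa using this
    have h1 : Vge s 1 ((z.num : ℤ) : ℚ) := by
      rw [← Rat.mul_den_eq_num z]
      have := gv_mul (s := s) (k := 0) (l := 1) (x := z) (y := (z.den : ℚ)) (Or.inr hz) hd1
      simpa using this
    have h3 : s ∣ z.num.natAbs := Int.natCast_dvd.1 (gv_one_int_iff.1 h1)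
    have := Nat.dvd_gcd h3 hdvd
    rw [z.reduced.gcd_eq_one] at this
    exact hs.1.one_lt.ne' (Nat.dvd_one.1 this)
  have hres : ∀ a b : ℕ, 0 < a → a ≤ s + 1 → 0 < b → b ≤ s + 1 →
      ((zz (a : ℕ)).num : ZMod s) * ((zz (a : ℕ)).den : ZMod s)⁻¹ =
        ((zz (b : ℕ)).num : ZMod s) * ((zz (b : ℕ)).den : ZMod s)⁻¹ →
      Vge s 1 (zz b - zz a) := by
    intro a b ha ha' hb hb' he
    have ea := hp a ha ha'
    have eb := hp b hb hb'
    have da := hden _ ea
    have db := hden _ eb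
    refine gv_sub_of_cast eb ea ?_
    field_simp at he
    linear_combination - he
  rcases lt_or_gt_of_ne (fun h' : (i : ℕ) = j => hij (Fin.ext h')) with hlt | hgt
  · have hi := i.2
    have hj := j.2
    exact main (i + 1) (j + 1) (by omega) (by omega) (by omega)
      (hres (i + 1) (j + 1) (by omega) (by omega) (by omega) (by omega) hF)
  · have hi := i.2
    have hj := j.2
    exact main (j + 1) (i + 1) (by omega) (by omega) (by omega)
      (hres (j + 1) (i + 1) (by omega) (by omega) (by omega) (by omega) hF.symm)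

end Pool.Agent.H528R2
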