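import Pool.Agent.H528R2.Filt
import Pool.Agent.H528R2.Formal
import Pool.Agent.H528R2.ZZ

/-!
# Ranks of apparition
-/

namespace Pool.Agent.H528R2

/-- the poles at `s` are closed under addition, in terms of `zz` -/
theorem Rank.zz_add_pole {s : ℕ} (hs : s.Prime) {m n : ℤ} (hm : padicValRat s (zz m) < 0)
    (hn : padicValRat s (zz n) < 0) (h : m + n ≠ 0) : padicValRat s (zz (m + n)) < 0 := by
  have h1 := pole_add hs hm hn
  rw [← add_zsmul] at h1
  exact h1.resolve_left (smul_P0_ne h)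

theorem Rank.zz_neg_pole {s : ℕ} {m : ℤ} (hm : padicValRat s (zz m) < 0) :
    padicValRat s (zz (-m)) < 0 := by rwa [zz_neg]

theorem Rank.zz_mul {s : ℕ} (hs : s.Prime) {m k : ℤ} (hm : padicValRat s (zz m) < 0) (hk : k ≠ 0) :
    padicValRat s (zz (m * k)) = padicValRat s (zz m) - 2 * padicValInt s k := by
  have h := (pole_smul hs hm hk).2
  rw [smul_smul, mul_comm] at h
  exact h

theorem Rank.zz_mul_pole {s : ℕ} (hs : s.Prime) {m k : ℤ} (hm : padicValRat s (zz m) < 0)
    (hk : k ≠ 0) : padicValRat s (zz (m * k)) < 0 := by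
  rw [Rank.zz_mul hs hm hk]; have : (0 : ℤ) ≤ padicValInt s k := by positivity
  omega

theorem Rank.rk_spec {s : ℕ} (h : rk s ≠ 0) : padicValRat s (zz (rk s)) < 0 := by
  have hne : {n : ℕ | 0 < n ∧ padicValRat s (zz n) < 0}.Nonempty := by
    by_contra hcon
    rw [Set.not_nonempty_iff_eq_empty] at hcon
    apply h; unfold rk; rw [hcon]; simp
  exact (Nat.sInf_mem hne).2

theorem Rank.rk_min {s n : ℕ} (hn : 0 < n) (h : padicValRat s (zz n) < 0) : rk s ≤ n ∧ rk s ≠ 0 := by
  have hmem : n ∈ {n : ℕ | 0 < n ∧ padicValRat s (zz n) < 0} := ⟨hn, h⟩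
  exact ⟨Nat.sInf_le hmem, (Nat.sInf_mem ⟨n, hmem⟩).1.ne'⟩

theorem dvd_iff {s : ℕ} (hs : s.Prime) {n : ℤ} (hn : n ≠ 0) :
    (rk s : ℤ) ∣ n ↔ padicValRat s (zz n) < 0 := by
  constructor
  · rintro ⟨k, rfl⟩
    have hr : rk s ≠ 0 := by rintro h; simp [h] at hn
    have hk : k ≠ 0 := by rintro rfl; simp at hn
    exact Rank.zz_mul_pole hs (Rank.rk_spec hr) hk
  · intro h
    have hr : rk s ≠ 0 := by
      rcases lt_or_gt_of_ne hn with h' | h'
      · have : padicValRat s (zz ((-n).toNat : ℕ)) < 0 := by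
          have : (((-n).toNat : ℕ) : ℤ) = -n := by omega
          rw [this, zz_neg]; exact h
        exact (Rank.rk_min (by omega) this).2
      · have : padicValRat s (zz (n.toNat : ℕ)) < 0 := by
          have : ((n.toNat : ℕ) : ℤ) = n := by omega
          rw [this]; exact h
        exact (Rank.rk_min (by omega) this).2
    have hr' : (0 : ℤ) < rk s := by omega
    by_contra hdvd
    have hmod0 : n % (rk s) ≠ 0 := fun hcon => hdvd (Int.dvd_of_emod_eq_zero hcon)
    have hmod1 := Int.emod_nonneg n hr'.ne'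
    have hmod2 := Int.emod_lt_of_pos n hr'
    have hpole : padicValRat s (zz (n % (rk s))) < 0 := by
      by_cases hq : n / (rk s) = 0
      · have : n % (rk s) = n := by
          have := Int.emod_add_mul_ediv n (rk s); rw [hq] at this; simpa using this
        rw [this]; exact h
      · have h1 := Rank.zz_neg_pole (Rank.zz_mul_pole hs (Rank.rk_spec hr) hq)
        have h2 : n % (rk s) = n + -((rk s : ℤ) * (n / rk s)) := by
          rw [Int.emod_def]; ring
        rw [h2]
        refine Rank.zz_add_pole hs h h1 ?_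
        rw [← h2]; exact hmod0
    have h3 : (((n % (rk s)).toNat : ℕ) : ℤ) = n % (rk s) := by omega
    rw [← h3] at hpole
    have := (Rank.rk_min (by omega) hpole).1
    omega

theorem val_zz {s : ℕ} (hs : s.Prime) {n : ℤ} (hn : n ≠ 0) (h : (rk s : ℤ) ∣ n) :
    padicValRat s (zz n) = -2 * dd s n ∧ padicValRat s (yy n) = -3 * dd s n ∧ 1 ≤ dd s n := by
  obtain ⟨d, hd, h1, h2⟩ := pole_val hs ((dvd_iff hs hn).1 h)
  have hdd : dd s n = d := by
    unfold dd
    have : padicValRat s (zz n) = -2 * d := h1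
    rw [this]; omega
  rw [hdd]; exact ⟨h1, h2, hd⟩

theorem Rank.rk_ne_zero_of_dvd {s : ℕ} {n : ℤ} (hn : n ≠ 0) (h : (rk s : ℤ) ∣ n) : rk s ≠ 0 := by
  rintro h0; rw [h0] at h; simp at h; exact hn h

theorem dd_eq {s : ℕ} (hs : s.Prime) {n : ℤ} (hn : n ≠ 0) (h : (rk s : ℤ) ∣ n) :
    dd s n + padicValNat s (rk s) = dd s (rk s) + padicValInt s n := by
  have := Fact.mk hs
  have hr := Rank.rk_ne_zero_of_dvd hn h
  have hr' : (rk s : ℤ) ≠ 0 := by exact_mod_cast hr
  obtain ⟨k, hk⟩ := h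
  have hk0 : k ≠ 0 := by rintro rfl; simp at hk; exact hn hk
  have h1 := (val_zz hs hn ⟨k, hk⟩).1
  have h2 := (val_zz hs hr' (dvd_refl _)).1
  have h3 := Rank.zz_mul hs (Rank.rk_spec hr) hk0
  rw [← hk, h1, h2] at h3
  have h4 : padicValInt s n = padicValInt s (rk s) + padicValInt s k := by
    rw [hk, padicValInt.mul hr' hk0]
  rw [padicValInt.of_nat] at h4
  omega

theorem dd_eq_zero {s : ℕ} (hs : s.Prime) {n : ℤ} (hn : n ≠ 0) (h : ¬ (rk s : ℤ) ∣ n) :
    dd s n = 0 := by
  rw [dvd_iff hs hn] at h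
  unfold dd; omega

theorem finite_rk {n : ℤ} (hn : n ≠ 0) : {s : ℕ | s.Prime ∧ (rk s : ℤ) ∣ n}.Finite := by
  refine (Finset.finite_toSet ((zz n).den.primeFactors)).subset ?_
  rintro s ⟨hs, hdvd⟩
  have hneg := (dvd_iff hs hn).1 hdvd
  have := Fact.mk hs
  simp only [Finset.mem_coe, Nat.mem_primeFactors]
  refine ⟨hs, ?_, (zz n).den_nz⟩
  rw [padicValRat_def] at hneg
  by_contra hcon
  rw [padicValNat.eq_zero_of_not_dvd hcon] at hneg
  have : (0 : ℤ) ≤ padicValInt s (zz n).num := by positivity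
  omega

theorem rk_eleven : rk 11 = 5 := by
  have h11 : Nat.Prime 11 := by norm_num
  have := Fact.mk h11
  have h5 : (rk 11 : ℤ) ∣ (5 : ℕ) := by
    rw [dvd_iff h11 (by norm_num)]
    have : zz (5 : ℕ) = 5 / 11 ^ 2 := by
      have := zz_five; norm_num at this ⊢; exact this
    rw [this, val_div h11 (by norm_num) (by norm_num), val_pow h11]
    have h1 : padicValRat 11 (11 : ℚ) = 1 := by
      exact_mod_cast padicValRat.self (p := 11) (by norm_num)
    have h2 : padicValRat 11 (5 : ℚ) = 0 := by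
      have : padicValRat 11 ((5 : ℕ) : ℚ) = 0 := by
        rw [padicValRat.of_nat, padicValNat.eq_zero_of_not_dvd (by norm_num)]; rfl
      exact_mod_cast this
    rw [h1, h2]; norm_num
  have h5' : rk 11 ∣ 5 := by exact_mod_cast h5
  rcases (Nat.dvd_prime (by norm_num)).1 h5' with h | h
  · exfalso
    have h1 := Rank.rk_spec (s := 11) (by omega)
    rw [h] at h1
    have h2 : zz ((1 : ℕ) : ℤ) = 5 := by exact_mod_cast zz_one
    rw [h2] at h1
    have h3 : (0 : ℤ) ≤ padicValRat 11 (5 : ℚ) := (vge_ofNat 11 5).le (by norm_num)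
    omega
  · exact h

theorem rk_29 : rk 29 = 7 := by
  have h29 : Nat.Prime 29 := by norm_num
  have := Fact.mk h29
  have h7 : (rk 29 : ℤ) ∣ (7 : ℕ) := by
    rw [dvd_iff h29 (by norm_num)]
    have : zz (7 : ℕ) = 85805 / 29 ^ 2 := by
      have := zz_seven; norm_num at this ⊢; exact this
    rw [this, val_div h29 (by norm_num) (by norm_num), val_pow h29]
    have h1 : padicValRat 29 (29 : ℚ) = 1 := by
      exact_mod_cast padicValRat.self (p := 29) (by norm_num)
    have h2 : padicValRat 29 (85805 : ℚ) = 0 := by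
      have : padicValRat 29 ((85805 : ℕ) : ℚ) = 0 := by
        rw [padicValRat.of_nat, padicValNat.eq_zero_of_not_dvd (by norm_num)]; rfl
      exact_mod_cast this
    rw [h1, h2]; norm_num
  have h7' : rk 29 ∣ 7 := by exact_mod_cast h7
  rcases (Nat.dvd_prime (by norm_num)).1 h7' with h | h
  · exfalso
    have h1 := Rank.rk_spec (s := 29) (by omega)
    rw [h] at h1
    have h2 : zz ((1 : ℕ) : ℤ) = 5 := by exact_mod_cast zz_one
    rw [h2] at h1
    have h3 : (0 : ℤ) ≤ padicValRat 29 (5 : ℚ) := (vge_ofNat 29 5).le (by norm_num)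
    omega
  · exact h

theorem rk_1931 : rk 1931 ∣ 9 ∧ rk 1931 ≠ 0 := by
  have hp : Nat.Prime 1931 := by norm_num
  have := Fact.mk hp
  have h9 : (rk 1931 : ℤ) ∣ (9 : ℕ) := by
    rw [dvd_iff hp (by norm_num)]
    have : zz (9 : ℕ) = 12121245 / 1931 ^ 2 := by
      have := zz_nine; norm_num at this ⊢; exact this
    rw [this, val_div hp (by norm_num) (by norm_num), val_pow hp]
    have h1 : padicValRat 1931 (1931 : ℚ) = 1 := by
      exact_mod_cast padicValRat.self (p := 1931) (by norm_num)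
    have h2 : padicValRat 1931 (12121245 : ℚ) = 0 := by
      have : padicValRat 1931 ((12121245 : ℕ) : ℚ) = 0 := by
        rw [padicValRat.of_nat, padicValNat.eq_zero_of_not_dvd (by norm_num)]; rfl
      exact_mod_cast this
    rw [h1, h2]; norm_num
  refine ⟨by exact_mod_cast h9, Rank.rk_ne_zero_of_dvd (by norm_num) h9⟩

/-- a point which is neither `≡ O` nor `≡` a 2-torsion point has unit coordinates -/
theorem val_unit {s : ℕ} (hs : s.Prime) (h : 17 ≤ s) {n : ℤ} (hn : n ≠ 0)
    (h2 : ¬ (rk s : ℤ) ∣ 2 * n) : padicValRat s (zz n) = 0 ∧ padicValRat s (yy n) = 0 := by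
  have := Fact.mk hs
  have hP : n • P0 ≠ 0 := smul_P0_ne hn
  have hz : zz n ≠ 0 := (zz_pos hn).ne'
  have hy : yy n ≠ 0 := yy_ne hn
  have heq : yy n ^ 2 = zz n ^ 3 - 2 * zz n ^ 2 + 65 * zz n := pt_eq hP
  have hnz : ¬ padicValRat s (zz n) < 0 := by
    rw [← dvd_iff hs hn]; exact fun hd => h2 (hd.mul_left 2)
  have hn2 : ¬ padicValRat s (zz (2 * n)) < 0 := by
    rw [← dvd_iff hs (by omega)]; exact h2
  have hdbl : zz (2 * n) = ((zz n ^ 2 - 65) / (2 * yy n)) ^ 2 := by
    have := (pt_dbl hP hy).2.2.1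
    rw [← add_zsmul, ← two_mul] at this
    exact this
  -- integers prime to `s`
  have hunit : ∀ m : ℕ, m ≠ 0 → ¬ s ∣ m → padicValRat s (m : ℚ) = 0 := by
    intro m hm hd
    rw [padicValRat.of_nat, padicValNat.eq_zero_of_not_dvd hd]; rfl
  have hlt : ∀ m : ℕ, m ≠ 0 → m < s → ¬ s ∣ m := fun m hm hms => Nat.not_dvd_of_pos_of_lt
    (Nat.pos_of_ne_zero hm) hms
  have hv2 : padicValRat s (2 : ℚ) = 0 := by
    exact_mod_cast hunit 2 (by norm_num) (hlt 2 (by norm_num) (by omega))
  have h65 : ¬ s ∣ 65 := by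
    intro hd
    have : s ∣ 5 * 13 := by norm_num; exact hd
    rcases (Nat.Prime.dvd_mul hs).1 this with h' | h'
    · exact hlt 5 (by norm_num) (by omega) h'
    · exact hlt 13 (by norm_num) (by omega) h'
  have hv65 : padicValRat s (65 : ℚ) = 0 := by exact_mod_cast hunit 65 (by norm_num) h65
  -- the valuation of `zz² - 65` and of `yy`
  have hvd : padicValRat s (zz n ^ 2 - 65) = 0 → padicValRat s (yy n) ≤ 0 := by
    intro hv
    by_contra hcon
    push Not at hcon
    apply hn2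
    have hne : zz n ^ 2 - 65 ≠ 0 := by
      intro h0
      have h0' : zz (2 * n) = 0 := by rw [hdbl, h0]; simp
      exact (zz_pos (n := 2 * n) (by omega)).ne' h0'
    rw [hdbl, val_pow hs, val_div hs hne (mul_ne_zero two_ne_zero hy), val_mul hs two_ne_zero hy,
      hv, hv2]
    push_cast; omega
  set Z := zz n
  set Y := yy n
  have hfac : Y ^ 2 = Z * (Z ^ 2 - 2 * Z + 65) := by rw [heq]; ring
  have hq0 : Z ^ 2 - 2 * Z + 65 ≠ 0 := by nlinarith [sq_nonneg (Z - 1)]
  have hvY : 2 * padicValRat s Y = padicValRat s Z + padicValRat s (Z ^ 2 - 2 * Z + 65) := by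
    rw [← val_mul hs hz hq0, ← hfac, val_pow hs]; norm_num
  have hZge : Vge s 0 Z := Or.inr (by omega)
  have hqge : 0 ≤ padicValRat s (Z ^ 2 - 2 * Z + 65) := by
    refine Vge.le ?_ hq0
    exact Vge.add hs (Vge.sub hs (by simpa using Vge.pow hs hZge 2) (Vge.ofNat_mul hs 2 hZge))
      (vge_ofNat s 65)
  have hZ0 : padicValRat s Z = 0 := by
    by_contra hne
    have hZ1 : Vge s 1 Z := Or.inr (by omega)
    have h1 : Vge s 1 (Z ^ 2) := by
      have := Vge.pow hs hZ1 2; exact this.mono (by norm_num)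
    have hv : padicValRat s (Z ^ 2 - 65) = 0 := by
      have := (val_sub hs (x := 65) (y := Z ^ 2) (by norm_num) (by rw [hv65]; exact h1)).2
      rw [← padicValRat.neg, hv65] at this
      rw [← this]; congr 1; ring
    have hle := hvd hv
    omega
  refine ⟨hZ0, ?_⟩
  by_contra hne
  have hYpos : 0 < padicValRat s Y := by omega
  have hq1 : Vge s 1 (Z ^ 2 - 2 * Z + 65) := Or.inr (by omega)
  have hd0 : Z ^ 2 - 65 ≠ 0 := by
    intro h0
    have h0' : zz (2 * n) = 0 := by rw [hdbl, h0]; simp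
    exact (zz_pos (n := 2 * n) (by omega)).ne' h0'
  have hdge : 0 ≤ padicValRat s (Z ^ 2 - 65) :=
    (Vge.sub hs (by simpa using Vge.pow hs hZge 2) (vge_ofNat s 65)).le hd0
  have hd1 : Vge s 1 (Z ^ 2 - 65) := by
    right
    by_contra hcon
    have := hvd (by omega)
    omega
  -- `2 (65 - Z) ≡ 0`
  have h3 : Vge s 1 (2 * (65 - Z)) := by
    have := Vge.sub hs hq1 hd1
    have h4 : Z ^ 2 - 2 * Z + 65 - (Z ^ 2 - 65) = 2 * (65 - Z) := by ring
    rwa [h4] at this
  have h4 : Vge s 1 (65 - Z) := by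
    rcases h3 with h3 | h3
    · left; simpa using h3
    by_cases h5 : 65 - Z = 0
    · exact Or.inl h5
    right
    rw [val_mul hs two_ne_zero h5, hv2] at h3
    omega
  have h5 : Vge s 1 ((4160 : ℕ) : ℚ) := by
    have h6 : Vge s 1 ((65 - Z) * (65 + Z)) := by
      have := Vge.mul hs h4 (Vge.add hs (vge_ofNat s 65) hZge)
      simpa using this
    have h7 := Vge.add hs h6 hd1
    have h8 : (65 - Z) * (65 + Z) + (Z ^ 2 - 65) = ((4160 : ℕ) : ℚ) := by push_cast; ring
    rwa [h8] at h7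
  have h6 := h5.le (by norm_num)
  rw [padicValRat.of_nat] at h6
  have h7 : s ∣ 4160 := by
    by_contra hcon
    rw [padicValNat.eq_zero_of_not_dvd hcon] at h6
    norm_num at h6
  have h8 : s ∣ 2 ^ 6 * 65 := by norm_num; exact h7
  rcases (Nat.Prime.dvd_mul hs).1 h8 with h' | h'
  · have := hs.dvd_of_dvd_pow h'
    exact hlt 2 (by norm_num) (by omega) this
  · exact h65 h'

theorem Rank.zz_six : zz 6 = 2401 / 225 := by
  have h := ZZaux.add_zz ZZaux.five.1 ZZaux.five.2 zz_one yy_one (by norm_num) (by norm_num)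
    (by norm_num)
  have e : (5 : ℤ) + 1 = 6 := by norm_num
  rw [e] at h
  rw [h.1]
  norm_num

/-- the ranks of apparition of `3` and `5` divide `6` -/
theorem rk_small {t : ℕ} (ht : t = 3 ∨ t = 5) : (rk t : ℤ) ∣ 6 := by
  have h3 : Nat.Prime 3 := by norm_num
  have h5 : Nat.Prime 5 := by norm_num
  have := Fact.mk h3
  have := Fact.mk h5
  have hz : zz 6 = 2401 / (3 ^ 2 * 5 ^ 2) := by rw [Rank.zz_six]; norm_num
  have hu : ∀ p m : ℕ, p.Prime → ¬ p ∣ m → padicValRat p (m : ℚ) = 0 := by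
    intro p m hp hd
    rw [padicValRat.of_nat, padicValNat.eq_zero_of_not_dvd hd]; rfl
  rcases ht with rfl | rfl
  · rw [dvd_iff h3 (by norm_num), hz, val_div h3 (by norm_num) (by norm_num),
      val_mul h3 (by norm_num) (by norm_num), val_pow h3, val_pow h3]
    have h1 : padicValRat 3 (3 : ℚ) = 1 := by
      exact_mod_cast padicValRat.self (p := 3) (by norm_num)
    have h2 : padicValRat 3 (5 : ℚ) = 0 := by exact_mod_cast hu 3 5 h3 (by norm_num)
    have h4 : padicValRat 3 (2401 : ℚ) = 0 := by exact_mod_cast hu 3 2401 h3 (by norm_num)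
    rw [h1, h2, h4]; norm_num
  · rw [dvd_iff h5 (by norm_num), hz, val_div h5 (by norm_num) (by norm_num),
      val_mul h5 (by norm_num) (by norm_num), val_pow h5, val_pow h5]
    have h1 : padicValRat 5 (5 : ℚ) = 1 := by
      exact_mod_cast padicValRat.self (p := 5) (by norm_num)
    have h2 : padicValRat 5 (3 : ℚ) = 0 := by exact_mod_cast hu 5 3 h5 (by norm_num)
    have h4 : padicValRat 5 (2401 : ℚ) = 0 := by exact_mod_cast hu 5 2401 h5 (by norm_num)
    rw [h1, h2, h4]; norm_num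

end Pool.Agent.H528R2
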