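import Pool.Agent.H528R2.Defs

/-!
# C1: reciprocity for `2`: the parity of `∑_{s inert} v_s(x)`
-/

namespace Pool.Agent.H528R2

namespace RecipAux

lemma Inert.odd {s : ℕ} (hs : Inert s) : s ≠ 2 := by
  rintro rfl
  rcases hs.2 with h | h <;> omega

lemma fin_dvd (n : ℕ) (hn : n ≠ 0) : {s : {s : ℕ // Inert s} | (s : ℕ) ∣ n}.Finite := by
  have h : ((Subtype.val : {s : ℕ // Inert s} → ℕ) ⁻¹' (Set.Iic n)).Finite :=
    (Set.finite_Iic n).preimage Subtype.val_injective.injOn
  refine h.subset ?_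
  intro s hs
  exact Nat.le_of_dvd (Nat.pos_of_ne_zero hn) hs

lemma val_ne {s : ℕ} (hs : s.Prime) {x : ℚ} (h : padicValRat s x ≠ 0) :
    s ∣ x.num.natAbs ∨ s ∣ x.den := by
  by_contra hc
  push Not at hc
  apply h
  have : Fact s.Prime := ⟨hs⟩
  rw [padicValRat_def]
  have h1 : padicValInt s x.num = 0 := by
    rw [padicValInt]
    exact padicValNat.eq_zero_of_not_dvd hc.1
  have h2 : padicValNat s x.den = 0 := padicValNat.eq_zero_of_not_dvd hc.2
  rw [h1, h2]; simp

/-- sum of the valuations at the inert primes, modulo 2 -/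
noncomputable def R (x : ℚ) : ZMod 2 :=
  ∑ᶠ s : {s : ℕ // Inert s}, ((padicValRat s x : ℤ) : ZMod 2)

/-- the class of an odd integer modulo `±1 mod 8` -/
def chi (a : ℤ) : ZMod 2 := if a % 8 = 1 ∨ a % 8 = 7 then 0 else 1

lemma chi_mul {a b : ℤ} (ha : Odd a) (hb : Odd b) : chi (a * b) = chi a + chi b := by
  have h1 : a % 8 = 1 ∨ a % 8 = 3 ∨ a % 8 = 5 ∨ a % 8 = 7 := by
    rcases ha with ⟨k, hk⟩; omega
  have h2 : b % 8 = 1 ∨ b % 8 = 3 ∨ b % 8 = 5 ∨ b % 8 = 7 := by
    rcases hb with ⟨k, hk⟩; omega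
  unfold chi
  rw [Int.mul_emod]
  rcases h1 with h | h | h | h <;> rcases h2 with h' | h' | h' | h' <;> rw [h, h'] <;> decide

end RecipAux

open RecipAux

theorem finite_val (x : ℚ) (hx : x ≠ 0) :
    {s : {s : ℕ // Inert s} | ((padicValRat s x : ℤ) : ZMod 2) ≠ 0}.Finite := by
  have h1 := fin_dvd x.num.natAbs (by simpa using hx)
  have h2 := fin_dvd x.den x.den_nz
  refine (h1.union h2).subset ?_
  intro s hs
  have h : padicValRat s x ≠ 0 := by
    intro h0
    apply hs
    rw [h0]; simp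
  exact val_ne s.2.1 h

namespace RecipAux

lemma R_mul {x y : ℚ} (hx : x ≠ 0) (hy : y ≠ 0) : R (x * y) = R x + R y := by
  unfold R
  rw [← finsum_add_distrib (finite_val x hx) (finite_val y hy)]
  apply finsum_congr
  intro s
  have : Fact (s : ℕ).Prime := ⟨s.2.1⟩
  rw [padicValRat.mul hx hy]
  push_cast
  rfl

lemma R_one : R 1 = 0 := by
  unfold R
  simp

lemma R_neg (x : ℚ) : R (-x) = R x := by
  unfold R
  simp [padicValRat.neg]

lemma R_inv {x : ℚ} (hx : x ≠ 0) : R x⁻¹ = R x := by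
  have h := R_mul hx (inv_ne_zero hx)
  rw [mul_inv_cancel₀ hx, R_one] at h
  have h2 : R x + R x = 0 := by
    have : ∀ z : ZMod 2, z + z = 0 := by decide
    exact this _
  have h3 : R x + R x⁻¹ = R x + R x := by rw [← h, h2]
  exact add_left_cancel h3

lemma R_prime {p : ℕ} (hp : p.Prime) : R (p : ℚ) = if (p % 8 = 3 ∨ p % 8 = 5) then 1 else 0 := by
  unfold R
  split_ifs with h
  · rw [finsum_eq_single _ (⟨p, hp, h⟩ : {s : ℕ // Inert s})]
    · have : Fact p.Prime := ⟨hp⟩
      simp [padicValRat.self hp.one_lt]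
    · intro s hs
      have : Fact (s : ℕ).Prime := ⟨s.2.1⟩
      have : ¬ (s : ℕ) ∣ p := by
        intro hd
        apply hs
        have := (Nat.prime_dvd_prime_iff_eq s.2.1 hp).mp hd
        exact Subtype.ext this
      rw [padicValRat.of_nat, padicValNat.eq_zero_of_not_dvd this]
      simp
  · apply finsum_eq_zero_of_forall_eq_zero
    intro s
    have : Fact (s : ℕ).Prime := ⟨s.2.1⟩
    have : ¬ (s : ℕ) ∣ p := by
      intro hd
      apply h
      have := (Nat.prime_dvd_prime_iff_eq s.2.1 hp).mp hd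
      rw [← this]
      exact s.2.2
    rw [padicValRat.of_nat, padicValNat.eq_zero_of_not_dvd this]
    simp

lemma R_nat (n : ℕ) (hn : Odd n) : R (n : ℚ) = chi n := by
  induction n using Nat.recOnMul with
  | zero => exact absurd hn (by decide)
  | one => rw [Nat.cast_one, R_one]; rfl
  | prime p hp =>
    rw [R_prime hp]
    unfold chi
    obtain ⟨k, hk⟩ := hn
    split_ifs <;> first | rfl | omega
  | mul a b iha ihb =>
    obtain ⟨ha, hb⟩ := Nat.odd_mul.mp hn
    have ha0 : (a : ℚ) ≠ 0 := by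
      intro h
      have : a = 0 := by exact_mod_cast h
      subst this; exact absurd ha (by decide)
    have hb0 : (b : ℚ) ≠ 0 := by
      intro h
      have : b = 0 := by exact_mod_cast h
      subst this; exact absurd hb (by decide)
    push_cast
    rw [R_mul ha0 hb0, iha ha, ihb hb, chi_mul (by exact_mod_cast ha) (by exact_mod_cast hb)]

lemma chi_neg {a : ℤ} (ha : Odd a) : chi (-a) = chi a := by
  unfold chi
  obtain ⟨k, hk⟩ := ha
  split_ifs <;> first | rfl | omega

lemma R_int {a : ℤ} (ha : Odd a) : R (a : ℚ) = chi a := by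
  obtain ⟨n, hn | hn⟩ := Int.eq_nat_or_neg a
  · subst hn
    have hn' : Odd n := by exact_mod_cast ha
    simpa using R_nat n hn'
  · subst hn
    have hn' : Odd n := by
      have h := Odd.neg ha
      rw [neg_neg] at h
      exact_mod_cast h
    have h2 : (((-(n : ℤ)) : ℤ) : ℚ) = -(n : ℚ) := by push_cast; rfl
    rw [h2, R_neg, R_nat n hn', chi_neg (by exact_mod_cast hn')]

lemma R_two : R 2 = 0 := by
  have := R_prime Nat.prime_two
  simpa using this

lemma R_zpow {x : ℚ} (hx : x ≠ 0) (h : R x = 0) (e : ℤ) : R (x ^ e) = 0 := by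
  have hn : ∀ n : ℕ, R (x ^ n) = 0 := by
    intro n
    induction n with
    | zero => simpa using R_one
    | succ n ih => rw [pow_succ, R_mul (pow_ne_zero _ hx) hx, ih, h, add_zero]
  cases e with
  | ofNat n => simpa using hn n
  | negSucc n =>
    rw [zpow_negSucc, R_inv (pow_ne_zero _ hx)]
    exact hn _

end RecipAux

/-- the parity of `∑_{s inert} v_s(x)` is given by the 2-adic class of `±x` -/
theorem recip {x : ℚ} {e : ℤ} {a b : ℤ} (ha : Odd a) (hb : Odd b)
    (h : x = 2 ^ e * ((a : ℚ) / b)) :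
    (∑ᶠ s : {s : ℕ // Inert s}, ((padicValRat s x : ℤ) : ZMod 2)) =
      if (a * b) % 8 = 1 ∨ (a * b) % 8 = 7 then 0 else 1 := by
  have ha0 : (a : ℚ) ≠ 0 := by
    intro h
    have : a = 0 := by exact_mod_cast h
    subst this; exact absurd ha (by decide)
  have hb0 : (b : ℚ) ≠ 0 := by
    intro h
    have : b = 0 := by exact_mod_cast h
    subst this; exact absurd hb (by decide)
  have h2 : (2 : ℚ) ≠ 0 := by norm_num
  change R x = chi (a * b)
  rw [h, div_eq_mul_inv, R_mul (zpow_ne_zero _ h2) (mul_ne_zero ha0 (inv_ne_zero hb0)),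
    R_mul ha0 (inv_ne_zero hb0), R_inv hb0, R_zpow h2 R_two, R_int ha, R_int hb, chi_mul ha hb,
    zero_add]

end Pool.Agent.H528R2
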