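import Pool.Agent.H528R2.ZZ
import Pool.Agent.H528R2.Rank
import Pool.Agent.H528R2.Diff
import Pool.Agent.H528R2.Recip

/-!
# C2: the parity `pr`
-/

namespace Pool.Agent.H528R2

open ZZaux

theorem pr_neg (n : ℤ) : pr (-n) = pr n := by
  unfold pr dd
  simp only [zz_neg]

namespace RhoAux

lemma zz_zero : zz 0 = 0 := by simp [zz, ptX]

lemma fin_dd (n : ℤ) : {s : {s : ℕ // Inert s} | ((dd s n : ℕ) : ZMod 2) ≠ 0}.Finite := by
  by_cases hn : n = 0
  · subst hn
    convert Set.finite_empty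
    ext s
    simp [dd, zz_zero]
  · have h : ((Subtype.val : {s : ℕ // Inert s} → ℕ) ⁻¹' {s : ℕ | s.Prime ∧ (rk s : ℤ) ∣ n}).Finite :=
      (finite_rk hn).preimage Subtype.val_injective.injOn
    refine h.subset ?_
    intro s hs
    refine ⟨s.2.1, ?_⟩
    by_contra hd
    apply hs
    rw [dd_eq_zero s.2.1 hn hd]
    simp

lemma pr_add {m n : ℤ} (hm : m ≠ 0) (hn : n ≠ 0) (h1 : m ≠ n) (h2 : m ≠ -n)
    (h3 : ¬ (Odd m ∧ Odd n)) :
    (∑ᶠ s : {s : ℕ // Inert s}, ((padicValRat s (zz m - zz n) : ℤ) : ZMod 2)) =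
      pr (m + n) + pr (m - n) := by
  unfold pr
  rw [← finsum_add_distrib (fin_dd _) (fin_dd _)]
  apply finsum_congr
  intro s
  rw [diff_parity s.2 hm hn h1 h2]
  have : ¬ ((s : ℕ) = 5 ∧ Odd m ∧ Odd n) := fun h => h3 h.2
  rw [if_neg this, add_zero]

lemma odd_part {r : ℚ} (hr : r ≠ 0) :
    ∃ a b : ℤ, Odd a ∧ Odd b ∧ r = 2 ^ (padicValRat 2 r) * ((a : ℚ) / b) := by
  have h2 : Fact (Nat.Prime 2) := ⟨Nat.prime_two⟩
  obtain ⟨i, a, ha, hna⟩ := Nat.exists_eq_pow_mul_and_not_dvd (n := r.num.natAbs)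
    (by simpa using hr) 2 (by norm_num)
  obtain ⟨j, b, hb, hnb⟩ := Nat.exists_eq_pow_mul_and_not_dvd (n := r.den) r.den_nz 2 (by norm_num)
  have ha' : Odd a := Nat.not_even_iff_odd.mp fun h => ha h.two_dvd
  have hb' : Odd b := Nat.not_even_iff_odd.mp fun h => hb h.two_dvd
  have ha0 : (a : ℚ) ≠ 0 := by
    intro h
    have : a = 0 := by exact_mod_cast h
    subst this; exact absurd ha' (by decide)
  have hb0 : (b : ℚ) ≠ 0 := by
    intro h
    have : b = 0 := by exact_mod_cast h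
    subst this; exact absurd hb' (by decide)
  obtain ⟨c, hc, hcr⟩ : ∃ c : ℤ, Odd c ∧ (r.num : ℤ) = 2 ^ i * c ∧ c.natAbs = a := by
    rcases Int.natAbs_eq r.num with h | h
    · refine ⟨a, by exact_mod_cast ha', ?_, by simp⟩
      rw [h, hna]; push_cast; rfl
    · refine ⟨-a, ?_, ?_, by simp⟩
      · exact Odd.neg (by exact_mod_cast ha')
      · rw [h, hna]; push_cast; ring
  obtain ⟨hcr, hca⟩ := hcr
  have hc0 : (c : ℚ) ≠ 0 := by
    intro h
    have : c = 0 := by exact_mod_cast h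
    subst this; exact absurd hc (by decide)
  have hval : padicValRat 2 r = (i : ℤ) - j := by
    rw [padicValRat_def]
    have e1 : padicValInt 2 r.num = i := by
      rw [padicValInt, hna]
      rw [padicValNat.mul (by positivity) (by
        intro h; subst h; exact ha (dvd_zero 2)), padicValNat.prime_pow,
        padicValNat.eq_zero_of_not_dvd ha, add_zero]
    have e2 : padicValNat 2 r.den = j := by
      rw [hnb]
      rw [padicValNat.mul (by positivity) (by
        intro h; subst h; exact hb (dvd_zero 2)), padicValNat.prime_pow,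
        padicValNat.eq_zero_of_not_dvd hb, add_zero]
    rw [e1, e2]
  refine ⟨c, b, hc, by exact_mod_cast hb', ?_⟩
  rw [hval, zpow_sub₀ (by norm_num), zpow_natCast, zpow_natCast]
  conv_lhs => rw [← Rat.num_div_den r]
  rw [hcr, hnb]
  push_cast
  field_simp

lemma sq8 {a : ℤ} (h : Odd a) : a ^ 2 % 8 = 1 := by
  obtain ⟨k, rfl⟩ := h
  have : (2 * k + 1) ^ 2 = 4 * (k * (k + 1)) + 1 := by ring
  rw [this]
  have h2 : Even (k * (k + 1)) := Int.even_mul_succ_self k
  obtain ⟨j, hj⟩ := h2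
  omega

/-- `zz k = 5 (a/d)²` with `a`, `d` odd, for odd `k` -/
lemma odd_zz {k : ℤ} (hk : Odd k) : ∃ a d : ℤ, Odd a ∧ Odd d ∧ zz k = 5 * ((a : ℚ) / d) ^ 2 := by
  obtain ⟨r, hr⟩ := sq_odd hk
  have hk0 : k ≠ 0 := by rintro rfl; exact absurd hk (by decide)
  have hz := zz_pos hk0
  -- zz k = 5 * (r/5)^2
  set q : ℚ := r / 5 with hq
  have hzq : zz k = 5 * q ^ 2 := by
    rw [hq]
    have : 5 * zz k = r * r := hr
    field_simp
    linarith
  have hq0 : q ≠ 0 := by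
    rintro h
    rw [h] at hzq
    norm_num at hzq
    exact hz.ne' hzq
  have heq := pt_eq (smul_P0_ne hk0)
  change yy k ^ 2 = zz k ^ 3 - 2 * zz k ^ 2 + 65 * zz k at heq
  have h1 : (yy k / (5 * q)) ^ 2 = 5 * q ^ 4 - 2 * q ^ 2 + 13 := by
    rw [div_pow, heq, hzq]
    field_simp
    ring
  -- clear denominators
  set a : ℤ := q.num with ha
  set d : ℤ := (q.den : ℤ) with hd
  have hd0 : (d : ℚ) ≠ 0 := by rw [hd]; exact_mod_cast q.den_nz
  have hqad : q = (a : ℚ) / d := by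
    rw [ha, hd]
    exact_mod_cast (Rat.num_div_den q).symm
  have h2 : (yy k / (5 * q) * (d : ℚ) ^ 2) ^ 2 =
      ((5 * a ^ 4 - 2 * a ^ 2 * d ^ 2 + 13 * d ^ 4 : ℤ) : ℚ) := by
    rw [mul_pow, h1, hqad]
    push_cast
    field_simp
  obtain ⟨w, hw⟩ : ∃ w : ℤ, w ^ 2 = 5 * a ^ 4 - 2 * a ^ 2 * d ^ 2 + 13 * d ^ 4 := by
    have hs : IsSquare ((5 * a ^ 4 - 2 * a ^ 2 * d ^ 2 + 13 * d ^ 4 : ℤ) : ℚ) :=
      ⟨_, by rw [← h2, pow_two]⟩
    rw [Rat.isSquare_intCast_iff] at hs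
    obtain ⟨w, hw⟩ := hs
    exact ⟨w, by rw [hw, pow_two]⟩
  have hcop : IsCoprime a d := by
    rw [ha, hd, Int.isCoprime_iff_gcd_eq_one]
    exact q.reduced
  have hpar : Odd a ∧ Odd d := by
    have hnot : ¬ (Even a ∧ Even d) := by
      rintro ⟨h, h'⟩
      obtain ⟨x, y, hxy⟩ := hcop
      obtain ⟨a', ha'⟩ := h
      obtain ⟨d', hd'⟩ := h'
      rw [ha', hd'] at hxy
      have : x * (a' + a') + y * (d' + d') = 2 * (x * a' + y * d') := by ring
      omega
    have e4 : ∀ x : ℤ, x ^ 4 = (x ^ 2) ^ 2 := by intro x; ring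
    have key : ∀ x y z : ℤ, z ^ 2 = 5 * x ^ 4 - 2 * x ^ 2 * y ^ 2 + 13 * y ^ 4 →
        ¬ (Even x ∧ Odd y) ∧ ¬ (Odd x ∧ Even y) := by
      intro x y z hz
      have hz8 : z ^ 2 % 8 = 0 ∨ z ^ 2 % 8 = 1 ∨ z ^ 2 % 8 = 4 := by
        rcases Int.even_or_odd z with ⟨c, hc⟩ | h
        · have : z ^ 2 = 4 * c ^ 2 := by rw [hc]; ring
          omega
        · right; left; exact sq8 h
      refine ⟨?_, ?_⟩
      · rintro ⟨⟨c, hc⟩, hy⟩
        have h1 : x ^ 2 = 4 * c ^ 2 := by rw [hc]; ring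
        have h2 := sq8 hy
        obtain ⟨t, ht⟩ : ∃ t, y ^ 2 = 8 * t + 1 := ⟨y ^ 2 / 8, by omega⟩
        rw [e4 x, e4 y, h1, ht] at hz
        have : z ^ 2 = 8 * (10 * (c ^ 2) ^ 2 - c ^ 2 * (8 * t + 1) + 13 * (8 * t ^ 2 + 2 * t)) + 13 := by
          rw [hz]; ring
        omega
      · rintro ⟨hx, ⟨c, hc⟩⟩
        have h1 : y ^ 2 = 4 * c ^ 2 := by rw [hc]; ring
        have h2 := sq8 hx
        obtain ⟨t, ht⟩ : ∃ t, x ^ 2 = 8 * t + 1 := ⟨x ^ 2 / 8, by omega⟩
        rw [e4 x, e4 y, h1, ht] at hz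
        have : z ^ 2 = 8 * (5 * (8 * t ^ 2 + 2 * t) - (8 * t + 1) * c ^ 2 + 26 * (c ^ 2) ^ 2) + 5 := by
          rw [hz]; ring
        omega
    obtain ⟨k1, k2⟩ := key a d w hw
    rcases Int.even_or_odd a with h | h <;> rcases Int.even_or_odd d with h' | h'
    · exact absurd ⟨h, h'⟩ hnot
    · exact absurd ⟨h, h'⟩ k1
    · exact absurd ⟨h, h'⟩ k2
    · exact ⟨h, h'⟩
  exact ⟨a, d, hpar.1, hpar.2, by rw [hzq, hqad]⟩

end RhoAux

open RhoAux

/-- from `(m, n) = (k + 4, 4)` and `zz 4 = 16`, `zz (odd) ≡ 5 mod 8` -/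
theorem pr_add_eight {n : ℤ} (h : Odd n) : pr (n + 8) = pr n + 1 := by
  have hk : Odd (n + 4) := by
    obtain ⟨k, rfl⟩ := h
    exact ⟨k + 2, by ring⟩
  have hne : ∀ c : ℤ, Even c → n ≠ c := by
    rintro c hc rfl
    exact (Int.not_odd_iff_even.mpr hc) h
  have h1 := pr_add (m := n + 4) (n := 4) (by have := hne (-4) (by decide); omega) (by norm_num)
    (by have := hne 0 (by decide); omega) (by have := hne (-8) (by decide); omega)
    (by rintro ⟨-, h⟩; exact absurd h (by decide))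
  obtain ⟨a, d, ha, hd, hz⟩ := odd_zz hk
  have hd0 : (d : ℚ) ≠ 0 := by
    intro h
    have : d = 0 := by exact_mod_cast h
    subst this; exact absurd hd (by decide)
  have hA : Odd (5 * a ^ 2 - 16 * d ^ 2) := by
    have := sq8 ha
    rw [Int.odd_iff]
    omega
  have hB : Odd (d ^ 2) := hd.pow
  have h2 := recip (x := zz (n + 4) - zz 4) (e := 0) hA hB (by
    rw [hz, zz_four]
    push_cast
    field_simp)
  have h3 : ((5 * a ^ 2 - 16 * d ^ 2) * d ^ 2) % 8 = 5 := by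
    have e1 := sq8 ha
    have e2 := sq8 hd
    obtain ⟨t, ht⟩ : ∃ t, a ^ 2 = 8 * t + 1 := ⟨a ^ 2 / 8, by omega⟩
    obtain ⟨u, hu⟩ : ∃ u, d ^ 2 = 8 * u + 1 := ⟨d ^ 2 / 8, by omega⟩
    rw [ht, hu]
    have : (5 * (8 * t + 1) - 16 * (8 * u + 1)) * (8 * u + 1) =
      8 * ((5 * t - 2 * (8 * u + 1)) * (8 * u + 1) + 5 * u) + 5 := by ring
    omega
  rw [h3] at h2
  rw [h1] at h2
  have e1 : n + 4 + 4 = n + 8 := by ring
  have e2 : n + 4 - 4 = n := by ring
  rw [e1, e2] at h2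
  norm_num at h2
  have h4 : ∀ x y : ZMod 2, x + y = 1 → x = y + 1 := by decide
  exact h4 _ _ h2

namespace RhoAux

lemma pole8 {n : ℤ} (hn : n ≠ 0) (h8 : 8 ∣ n) : padicValRat 2 (zz n) < 0 := by
  have h2 : Fact (Nat.Prime 2) := ⟨Nat.prime_two⟩
  have hp : padicValRat 2 (ptX ((8 : ℤ) • P0)) < 0 := by
    have e : ptX ((8 : ℤ) • P0) = 36481 / 18496 := zz_eight
    rw [e]
    have e1 : (36481 / 18496 : ℚ) = ((36481 : ℕ) : ℚ) / ((2 ^ 6 * 289 : ℕ) : ℚ) := by norm_num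
    have e2 : padicValNat 2 (2 ^ 6 * 289) = 6 := by
      rw [padicValNat.mul (by norm_num) (by norm_num), padicValNat.prime_pow,
        padicValNat.eq_zero_of_not_dvd (by norm_num)]
    rw [e1, padicValRat.div (by norm_num) (by norm_num), padicValRat.of_nat, padicValRat.of_nat,
      e2, padicValNat.eq_zero_of_not_dvd (by norm_num)]
    norm_num
  obtain ⟨j, rfl⟩ := h8
  have hj : j ≠ 0 := by rintro rfl; simp at hn
  have := (pole_smul Nat.prime_two hp hj).2
  unfold zz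
  rw [mul_comm, mul_zsmul, this]
  have : (0 : ℤ) ≤ 2 * (padicValInt 2 j : ℤ) := by positivity
  linarith

/-- the 2-adic computation -/
lemma step {n k : ℤ} (hn : n ≠ 0) (h8 : 8 ∣ n) (hk : Odd k) (hk0 : 0 < k) :
    pr (n * (k + 2)) + pr (n * k) = if (k + 1) % 4 = 2 then 1 else 0 := by
  have h2 : Fact (Nat.Prime 2) := ⟨Nat.prime_two⟩
  have hk1 : k + 1 ≠ 0 := by omega
  have hev : Even n := by
    obtain ⟨j, rfl⟩ := h8
    exact ⟨4 * j, by ring⟩
  have hne1 : (k + 1) * n ≠ n := by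
    intro h
    have : k * n = 0 := by linear_combination h
    rcases mul_eq_zero.mp this with h | h
    · omega
    · exact hn h
  have hne2 : (k + 1) * n ≠ -n := by
    intro h
    have : (k + 2) * n = 0 := by linear_combination h
    rcases mul_eq_zero.mp this with h | h
    · omega
    · exact hn h
  have h1 := pr_add (m := (k + 1) * n) (n := n) (mul_ne_zero hk1 hn) hn hne1 hne2
    (by rintro ⟨-, h⟩; exact (Int.not_odd_iff_even.mpr hev) h)
  have hp := pole8 hn h8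
  have hv := (pole_smul Nat.prime_two (P := n • P0) hp hk1).2
  have hzk : zz ((k + 1) * n) = ptX ((k + 1) • n • P0) := by
    unfold zz
    rw [mul_zsmul]
  change padicValRat 2 (ptX ((k + 1) • n • P0)) = padicValRat 2 (zz n) - _ at hv
  rw [← hzk] at hv
  obtain ⟨r, hr⟩ := sq_even hev
  obtain ⟨r', hr'⟩ := sq_even (n := (k + 1) * n) (hev.mul_left _)
  have hr0 : r ≠ 0 := by
    rintro rfl
    exact (zz_pos hn).ne' (by simpa using hr)
  have hr0' : r' ≠ 0 := by
    rintro rfl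
    exact (zz_pos (mul_ne_zero hk1 hn)).ne' (by simpa using hr')
  rw [hr, hr', padicValRat.mul hr0 hr0, padicValRat.mul hr0' hr0'] at hv
  obtain ⟨a, b, ha, hb, hab⟩ := odd_part hr0
  obtain ⟨a', b', ha', hb', hab'⟩ := odd_part hr0'
  set e := padicValRat 2 r with he
  set e' := padicValRat 2 r' with he'
  set v := padicValInt 2 (k + 1) with hv'
  have hee : e = e' + v := by omega
  have hb0 : (b : ℚ) ≠ 0 := by
    intro h
    have : b = 0 := by exact_mod_cast h
    subst this; exact absurd hb (by decide)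
  have hb0' : (b' : ℚ) ≠ 0 := by
    intro h
    have : b' = 0 := by exact_mod_cast h
    subst this; exact absurd hb' (by decide)
  have hv1 : 1 ≤ v := by
    rw [hv', padicValInt]
    apply one_le_padicValNat_of_dvd
    · simpa using hk1
    · obtain ⟨j, hj⟩ := hk
      have : (2 : ℤ) ∣ k + 1 := ⟨j + 1, by omega⟩
      exact Int.natCast_dvd.mp this
  -- numerator and denominator
  have hA8 : ((a' ^ 2 * b ^ 2 - 4 ^ v * (a ^ 2 * b' ^ 2)) * (b ^ 2 * b' ^ 2)) % 8 =
      if (k + 1) % 4 = 2 then 5 else 1 := by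
    have e1 := sq8 ha
    have e2 := sq8 hb
    have e3 := sq8 ha'
    have e4 := sq8 hb'
    have hm : ∀ x y : ℤ, x % 8 = 1 → y % 8 = 1 → (x * y) % 8 = 1 := by
      intro x y hx hy
      rw [Int.mul_emod, hx, hy]; rfl
    have m1 := hm _ _ e3 e2
    have m2 := hm _ _ e1 e4
    have m3 := hm _ _ e2 e4
    rw [Int.mul_emod, m3, mul_one]
    split_ifs with hc
    · have hv2 : v = 1 := by
        have : ¬ (2 ^ 2 ∣ (k + 1).natAbs) := by
          intro h
          have h' : ((2 ^ 2 : ℕ) : ℤ) ∣ k + 1 := Int.natCast_dvd.mpr h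
          omega
        have := (padicValNat_dvd_iff_le (p := 2) (by simpa using hk1 : (k + 1).natAbs ≠ 0)
          (n := 2)).not.mp this
        change ¬ (2 ≤ v) at this
        omega
      rw [hv2, Int.emod_emod]
      omega
    · have hv2 : 2 ≤ v := by
        have h' : (2 ^ 2 ∣ (k + 1).natAbs) := by
          apply Int.natCast_dvd.mp
          obtain ⟨j, hj⟩ := hk
          push_cast
          omega
        exact (padicValNat_dvd_iff_le (p := 2) (by simpa using hk1 : (k + 1).natAbs ≠ 0)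
          (n := 2)).mp h'
      obtain ⟨u, hu⟩ : ∃ u, v = u + 2 := ⟨v - 2, by omega⟩
      have : (4 : ℤ) ^ v * (a ^ 2 * b' ^ 2) = 8 * (2 * 4 ^ u * (a ^ 2 * b' ^ 2)) := by
        rw [hu, pow_add]; ring
      rw [this, Int.emod_emod]
      omega
  have hAodd : Odd (a' ^ 2 * b ^ 2 - 4 ^ v * (a ^ 2 * b' ^ 2)) := by
    have : Odd ((a' ^ 2 * b ^ 2 - 4 ^ v * (a ^ 2 * b' ^ 2)) * (b ^ 2 * b' ^ 2)) := by
      rw [Int.odd_iff]
      split_ifs at hA8 <;> omega
    exact (Int.odd_mul.mp this).1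
  have hBodd : Odd (b ^ 2 * b' ^ 2) := hb.pow.mul hb'.pow
  have h3 := recip (x := zz ((k + 1) * n) - zz n) (e := 2 * e') hAodd hBodd (by
    rw [hr, hr', hab, hab', hee]
    have e1 : (2 : ℚ) ^ (e' + (v : ℤ)) = 2 ^ e' * 2 ^ v := by
      rw [zpow_add₀ (by norm_num), zpow_natCast]
    have e2 : (2 : ℚ) ^ (2 * e') = 2 ^ e' * 2 ^ e' := by
      rw [two_mul, zpow_add₀ (by norm_num)]
    have e3 : (4 : ℚ) ^ v = 2 ^ v * 2 ^ v := by
      rw [← mul_pow]; norm_num
    rw [e1, e2]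
    push_cast
    rw [e3]
    field_simp)
  rw [h1, hA8] at h3
  have e1 : (k + 1) * n + n = n * (k + 2) := by ring
  have e2 : (k + 1) * n - n = n * k := by ring
  rw [e1, e2] at h3
  rw [h3]
  split_ifs <;> first | rfl | omega

end RhoAux

/-- from `(m, n) = ((k+1) n, n)` -/
theorem pr_mul {n k : ℤ} (hn : n ≠ 0) (h8 : 8 ∣ n) (hk : Odd k) :
    pr (n * k) = pr n + (if k % 8 = 3 ∨ k % 8 = 5 then 1 else 0) := by
  have key : ∀ j : ℕ, pr (n * (2 * j + 1)) =
      pr n + (if (2 * (j : ℤ) + 1) % 8 = 3 ∨ (2 * (j : ℤ) + 1) % 8 = 5 then 1 else 0) := by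
    intro j
    induction j with
    | zero => simp
    | succ j ih =>
      have hs := step hn h8 (k := 2 * j + 1) ⟨j, rfl⟩ (by positivity)
      have e : (2 * ((j + 1 : ℕ) : ℤ) + 1) = 2 * (j : ℤ) + 1 + 2 := by push_cast; ring
      rw [e]
      rw [ih] at hs
      generalize pr (n * (2 * (j : ℤ) + 1 + 2)) = A at hs ⊢
      generalize pr n = B at hs ⊢
      have h4 : ∀ x y z w u : ZMod 2, x + (y + z) = w → w + z = u → x = y + u := by decide
      refine h4 _ _ _ _ _ hs ?_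
      split_ifs <;> first | rfl | omega
  rcases Int.eq_nat_or_neg k with ⟨m, rfl | rfl⟩
  · obtain ⟨j, hj⟩ : Odd m := by exact_mod_cast hk
    have := key j
    have e : (m : ℤ) = 2 * j + 1 := by exact_mod_cast hj
    rw [e]
    exact this
  · have hm : Odd m := by
      have h := Odd.neg hk
      rw [neg_neg] at h
      exact_mod_cast h
    obtain ⟨j, hj⟩ := hm
    have := key j
    have e : (m : ℤ) = 2 * j + 1 := by exact_mod_cast hj
    rw [e]
    have e2 : n * -(2 * (j : ℤ) + 1) = -(n * (2 * j + 1)) := by ring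
    rw [e2, pr_neg, this]
    congr 1
    split_ifs <;> first | rfl | omega

end Pool.Agent.H528R2
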