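import Pool.Agent.H528R2.Rank
import Pool.Agent.H528R2.Rho

/-!
# Existence of a visible prime above two given inert primes
-/

namespace Pool.Agent.H528R2.CoreB

open Pool.Agent.H528R2

theorem pr_add_16 {n : ℤ} (h : Odd n) : pr (n + 16) = pr n := by
  have h1 := pr_add_eight h
  have h2 := pr_add_eight (n := n + 8) (by
    obtain ⟨k, hk⟩ := h
    exact ⟨k + 4, by omega⟩)
  have e : n + 8 + 8 = n + 16 := by ring
  rw [e, h1] at h2
  rw [h2, add_assoc]
  have : (1 : ZMod 2) + 1 = 0 := by decide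
  rw [this, add_zero]

theorem pr_add_mul (k : ℕ) {n : ℤ} (h : Odd n) : pr (n + 16 * k) = pr n := by
  induction k with
  | zero => simp
  | succ k ih =>
    have e : n + 16 * ((k + 1 : ℕ) : ℤ) = (n + 16 * k) + 16 := by push_cast; ring
    rw [e, pr_add_16, ih]
    obtain ⟨l, hl⟩ := h
    exact ⟨l + 8 * k, by rw [hl]; ring⟩

theorem pr_add_mul' (k : ℤ) {n : ℤ} (h : Odd n) : pr (n + 16 * k) = pr n := by
  rcases le_total 0 k with hk | hk
  · obtain ⟨k', rfl⟩ := Int.eq_ofNat_of_zero_le hk
    exact pr_add_mul k' h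
  · obtain ⟨k', hk'⟩ := Int.eq_ofNat_of_zero_le (a := -k) (by omega)
    have h1 := pr_add_mul k' (n := n + 16 * k) (by
      obtain ⟨l, hl⟩ := h
      exact ⟨l + 8 * k, by rw [hl]; ring⟩)
    rw [← h1, ← hk']
    congr 1
    ring

/-- the parity at odd indices, as a function of the index modulo `16` -/
def tab (α β : ZMod 2) (r : ZMod 16) : ZMod 2 :=
  if r = 1 ∨ r = 15 then α else if r = 7 ∨ r = 9 then α + 1 else
  if r = 3 ∨ r = 13 then β else β + 1

theorem tab1 (α β : ZMod 2) : tab α β ((1 : ℤ) : ZMod 16) = α := by revert α β; decide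
theorem tab3 (α β : ZMod 2) : tab α β ((3 : ℤ) : ZMod 16) = β := by revert α β; decide
theorem tab5 (α β : ZMod 2) : tab α β ((5 : ℤ) : ZMod 16) = β + 1 := by revert α β; decide
theorem tab7 (α β : ZMod 2) : tab α β ((7 : ℤ) : ZMod 16) = α + 1 := by revert α β; decide
theorem tab9 (α β : ZMod 2) : tab α β ((9 : ℤ) : ZMod 16) = α + 1 := by revert α β; decide
theorem tab11 (α β : ZMod 2) : tab α β ((11 : ℤ) : ZMod 16) = β + 1 := by revert α β; decide
theorem tab13 (α β : ZMod 2) : tab α β ((13 : ℤ) : ZMod 16) = β := by revert α β; decide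
theorem tab15 (α β : ZMod 2) : tab α β ((15 : ℤ) : ZMod 16) = α := by revert α β; decide

theorem pr_odd {n : ℤ} (h : Odd n) : pr n = tab (pr 1) (pr 3) (n : ZMod 16) := by
  have e : n = n % 16 + 16 * (n / 16) := by omega
  have hr : Odd (n % 16) := by
    obtain ⟨k, hk⟩ := h
    rw [Int.odd_iff]; omega
  have h1 : pr n = pr (n % 16) := by
    conv_lhs => rw [e]
    exact pr_add_mul' _ hr
  have h2 : (n : ZMod 16) = ((n % 16 : ℤ) : ZMod 16) := by
    rw [← sub_eq_zero, ← Int.cast_sub]
    rw [ZMod.intCast_zmod_eq_zero_iff_dvd] 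
    omega
  have hodd' : n % 16 = 1 ∨ n % 16 = 3 ∨ n % 16 = 5 ∨ n % 16 = 7 ∨ n % 16 = 9 ∨ n % 16 = 11 ∨
      n % 16 = 13 ∨ n % 16 = 15 := by
    rw [Int.odd_iff] at hr; omega
  have h9 : pr 9 = pr 1 + 1 := by
    have := pr_add_eight (n := 1) (by decide)
    norm_num at this
    exact this
  have h11 : pr 11 = pr 3 + 1 := by
    have := pr_add_eight (n := 3) (by decide)
    norm_num at this
    exact this
  have h7 : pr 7 = pr 1 + 1 := by
    have := pr_add_16 (n := -7) (by decide)
    norm_num at this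
    rw [pr_neg] at this
    rw [← this]; exact h9
  have h5 : pr 5 = pr 3 + 1 := by
    have := pr_add_16 (n := -5) (by decide)
    norm_num at this
    rw [pr_neg] at this
    rw [← this]; exact h11
  have h13 : pr 13 = pr 3 := by
    have := pr_add_16 (n := -3) (by decide)
    norm_num at this
    rw [pr_neg] at this
    exact this
  have h15 : pr 15 = pr 1 := by
    have := pr_add_16 (n := -1) (by decide)
    norm_num at this
    rw [pr_neg] at this
    exact this
  rw [h1, h2]
  rcases hodd' with h | h | h | h | h | h | h | h <;> rw [h]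
  · exact (tab1 _ _).symm
  · exact (tab3 _ _).symm
  · rw [h5]; exact (tab5 _ _).symm
  · rw [h7]; exact (tab7 _ _).symm
  · rw [h9]; exact (tab9 _ _).symm
  · rw [h11]; exact (tab11 _ _).symm
  · rw [h13]; exact (tab13 _ _).symm
  · rw [h15]; exact (tab15 _ _).symm

theorem tab_diff : ∀ α β : ZMod 2, ∀ m ∈ ([1, 3, 5, 7, 9, 11, 13, 15] : List (ZMod 16)),
    ∀ u ∈ ([3, 5, 11, 13] : List (ZMod 16)), ∀ v ∈ ([3, 5, 11, 13] : List (ZMod 16)),
      tab α β m + tab α β (m * u) + tab α β (m * v) + tab α β (m * u * v) = 1 := by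
  decide

theorem cast_inert {u : ℕ} (hu : Inert u) :
    (((u : ℤ)) : ZMod 16) ∈ ([3, 5, 11, 13] : List (ZMod 16)) := by
  have h : u % 16 = 3 ∨ u % 16 = 5 ∨ u % 16 = 11 ∨ u % 16 = 13 := by
    rcases hu.2 with h | h <;> omega
  have e : (((u : ℤ)) : ZMod 16) = ((u % 16 : ℕ) : ZMod 16) := by
    rw [ZMod.natCast_mod]; push_cast; rfl
  rw [e]
  rcases h with h | h | h | h <;> rw [h] <;> decide

theorem cast_odd {m : ℕ} (hm : Odd m) :
    (((m : ℤ)) : ZMod 16) ∈ ([1, 3, 5, 7, 9, 11, 13, 15] : List (ZMod 16)) := by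
  have h : m % 16 = 1 ∨ m % 16 = 3 ∨ m % 16 = 5 ∨ m % 16 = 7 ∨ m % 16 = 9 ∨ m % 16 = 11 ∨
      m % 16 = 13 ∨ m % 16 = 15 := by
    rw [Nat.odd_iff] at hm; omega
  have e : (((m : ℤ)) : ZMod 16) = ((m % 16 : ℕ) : ZMod 16) := by
    rw [ZMod.natCast_mod]; push_cast; rfl
  rw [e]
  rcases h with h | h | h | h | h | h | h | h <;> rw [h] <;> decide

theorem odd_inert {u : ℕ} (hu : Inert u) : Odd u := by
  rw [Nat.odd_iff]
  rcases hu.2 with h | h <;> omega

theorem second_diff {m u v : ℕ} (hm : Odd m) (hu : Inert u) (hv : Inert v) :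
    pr (m : ℤ) + pr ((m * u : ℕ) : ℤ) + pr ((m * v : ℕ) : ℤ) + pr ((m * u * v : ℕ) : ℤ) = 1 := by
  have ou := odd_inert hu
  have ov := odd_inert hv
  have h1 : Odd ((m : ℤ)) := by exact_mod_cast hm
  have h2 : Odd (((m * u : ℕ) : ℤ)) := by exact_mod_cast hm.mul ou
  have h3 : Odd (((m * v : ℕ) : ℤ)) := by exact_mod_cast hm.mul ov
  have h4 : Odd (((m * u * v : ℕ) : ℤ)) := by exact_mod_cast (hm.mul ou).mul ov
  rw [pr_odd h1, pr_odd h2, pr_odd h3, pr_odd h4]
  have := tab_diff (pr 1) (pr 3) _ (cast_odd hm) _ (cast_inert hu) _ (cast_inert hv)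
  push_cast at this ⊢
  exact this

theorem exists_prime {m u v : ℕ} (hm : Odd m) (hu : Inert u) (hv : Inert v) :
    ∃ s : ℕ, Inert s ∧ Odd (dd s ((m * u * v : ℕ) : ℤ) + dd s ((m * u : ℕ) : ℤ) +
      dd s ((m * v : ℕ) : ℤ) + dd s (m : ℤ)) := by
  by_contra hcon
  push Not at hcon
  have h := second_diff hm hu hv
  unfold pr at h
  rw [← finsum_add_distrib (RhoAux.fin_dd _) (RhoAux.fin_dd _)] at h
  have hfin : {s : {s : ℕ // Inert s} | ((dd s (m : ℤ) : ℕ) : ZMod 2) +
      ((dd s ((m * u : ℕ) : ℤ) : ℕ) : ZMod 2) ≠ 0}.Finite := by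
    refine ((RhoAux.fin_dd (m : ℤ)).union (RhoAux.fin_dd ((m * u : ℕ) : ℤ))).subset ?_
    intro s hs
    by_contra hc
    simp only [Set.mem_union, Set.mem_setOf_eq, not_or, not_not] at hc
    exact hs (by rw [hc.1, hc.2, add_zero])
  rw [← finsum_add_distrib hfin (RhoAux.fin_dd _)] at h
  have hfin2 : {s : {s : ℕ // Inert s} | ((dd s (m : ℤ) : ℕ) : ZMod 2) +
      ((dd s ((m * u : ℕ) : ℤ) : ℕ) : ZMod 2) + ((dd s ((m * v : ℕ) : ℤ) : ℕ) : ZMod 2)
        ≠ 0}.Finite := by
    refine (hfin.union (RhoAux.fin_dd ((m * v : ℕ) : ℤ))).subset ?_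
    intro s hs
    by_contra hc
    simp only [Set.mem_union, Set.mem_setOf_eq, not_or, not_not] at hc
    exact hs (by rw [hc.1, hc.2, add_zero])
  rw [← finsum_add_distrib hfin2 (RhoAux.fin_dd _)] at h
  have h0 : ∀ s : {s : ℕ // Inert s}, ((dd s (m : ℤ) : ℕ) : ZMod 2) +
      ((dd s ((m * u : ℕ) : ℤ) : ℕ) : ZMod 2) + ((dd s ((m * v : ℕ) : ℤ) : ℕ) : ZMod 2) +
      ((dd s ((m * u * v : ℕ) : ℤ) : ℕ) : ZMod 2) = 0 := by
    intro s
    have h1 := hcon s.1 s.2
    rw [Nat.not_odd_iff_even] at h1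
    have h2 : ((dd s ((m * u * v : ℕ) : ℤ) + dd s ((m * u : ℕ) : ℤ) +
      dd s ((m * v : ℕ) : ℤ) + dd s (m : ℤ) : ℕ) : ZMod 2) = 0 :=
      (ZMod.natCast_eq_zero_iff_even).2 h1
    rw [← h2]
    push_cast
    ring
  rw [finsum_congr h0, finsum_zero] at h
  exact zero_ne_one h

/-- the part of `g` composed of primes larger than `B` -/
theorem exists_part {g : ℕ} (hg : g ≠ 0) (B : ℕ) :
    ∃ K : ℕ, K ≠ 0 ∧ K ∣ g ∧ (∀ p, p.Prime → p ≤ B → ¬ p ∣ K) ∧
      ∀ p, p.Prime → B < p → padicValNat p K = padicValNat p g := by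
  classical
  set f := g.factorization.filter (fun p => B < p) with hf
  have hfp : ∀ p ∈ f.support, p.Prime := by
    intro p hp
    rw [hf, Finsupp.support_filter, Finset.mem_filter] at hp
    exact Nat.prime_of_mem_primeFactors (by simpa using hp.1)
  have hfac := Nat.prod_pow_factorization_eq_self hfp
  have hK0 : (f.prod fun x1 x2 => x1 ^ x2) ≠ 0 := by
    rw [Finsupp.prod, Finset.prod_ne_zero_iff]
    intro p hp
    exact pow_ne_zero _ (hfp p hp).ne_zero
  refine ⟨f.prod fun x1 x2 => x1 ^ x2, hK0, ?_, ?_, ?_⟩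
  · rw [← Nat.factorization_le_iff_dvd hK0 hg, hfac]
    intro p
    rw [hf, Finsupp.filter_apply]
    split_ifs
    · exact le_rfl
    · exact Nat.zero_le _
  · intro p hp hpB hd
    have h1 := hp.factorization_pos_of_dvd hK0 hd
    rw [hfac, hf, Finsupp.filter_apply, if_neg (by omega)] at h1
    exact lt_irrefl _ h1
  · intro p hp hpB
    rw [← Nat.factorization_def _ hp, ← Nat.factorization_def _ hp, hfac, hf,
      Finsupp.filter_apply, if_pos hpB]

theorem dvd_of_val {u R n : ℕ} (hu : u.Prime) (hn : n ≠ 0) (hR : R ≠ 0) (h : R ∣ u * n)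
    (hv : padicValNat u R ≤ padicValNat u n) : R ∣ n := by
  rw [← Nat.factorization_le_iff_dvd hR hn]
  intro p
  by_cases hp : p.Prime
  · by_cases hpu : p = u
    · rw [hpu, Nat.factorization_def _ hu, Nat.factorization_def _ hu]; exact hv
    · have h1 := (Nat.factorization_le_iff_dvd hR (mul_ne_zero hu.ne_zero hn)).2 h p
      rw [Nat.factorization_mul hu.ne_zero hn, Finsupp.add_apply] at h1
      have h2 : u.factorization p = 0 := by
        apply Nat.factorization_eq_zero_of_not_dvd
        intro hd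
        exact hpu ((Nat.prime_dvd_prime_iff_eq hp hu).1 hd)
      omega
  · rw [Nat.factorization_eq_zero_of_not_prime _ hp]
    exact Nat.zero_le _

theorem val_self_or {s u : ℕ} (hs : s.Prime) (hu : u.Prime) :
    padicValNat s u = if s = u then 1 else 0 := by
  split_ifs with h
  · subst h
    have := Fact.mk hs
    exact padicValNat_self
  · apply padicValNat.eq_zero_of_not_dvd
    intro hd
    exact h ((Nat.prime_dvd_prime_iff_eq hs hu).1 hd)

theorem dd_zero_of {s : ℕ} (hs : s.Prime) {n : ℕ} (hn : n ≠ 0) (h : ¬ rk s ∣ n) :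
    dd s (n : ℤ) = 0 := by
  apply dd_eq_zero hs (by exact_mod_cast hn)
  intro hd
  exact h (by exact_mod_cast hd)

theorem dd_of {s : ℕ} (hs : s.Prime) {n : ℕ} (hn : n ≠ 0) (h : rk s ∣ n) :
    dd s (n : ℤ) + padicValNat s (rk s) = dd s (rk s) + padicValNat s n := by
  have := dd_eq hs (n := (n : ℤ)) (by exact_mod_cast hn) (by exact_mod_cast h)
  rw [padicValInt.of_nat] at this
  exact this

theorem dvd_both {R m u v : ℕ} (huv : Nat.Coprime u v) (h1 : R ∣ m * u) (h2 : R ∣ m * v) :
    R ∣ m := by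
  have := Nat.dvd_gcd h1 h2
  rwa [Nat.gcd_mul_left, huv, mul_one] at this

/-- the intrinsic case -/
theorem intr {u v m i j K B : ℕ} (hu : Inert u) (hv : Inert v) (hu11 : 11 ≤ u)
    (hm : m = u ^ i * v ^ j * K) (hm0 : m ≠ 0) (hB : 2 * u + 1 ≤ B)
    (hK : ∀ p, p.Prime → p ≤ B → ¬ p ∣ K)
    (hiu : ¬ (v ∣ rk u ∧ rk u ∣ u ^ i * v ^ (j + 1)))
    (h1 : rk u ∣ m * v) (h2 : ¬ rk u ∣ m * u) : False := by
  have hR0 : rk u ≠ 0 := by
    intro h0
    rw [h0] at h1
    exact mul_ne_zero hm0 hv.1.ne_zero (zero_dvd_iff.1 h1)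
  have hRle : rk u ≤ B := (rk_le hu (by omega)).trans hB
  have hcop : Nat.Coprime (rk u) K := by
    rw [Nat.coprime_iff_gcd_eq_one]
    by_contra hne
    obtain ⟨p, hp, hpd⟩ := Nat.exists_prime_and_dvd hne
    have hp1 : p ∣ rk u := hpd.trans (Nat.gcd_dvd_left _ _)
    have hp2 : p ∣ K := hpd.trans (Nat.gcd_dvd_right _ _)
    exact hK p hp ((Nat.le_of_dvd (Nat.pos_of_ne_zero hR0) hp1).trans hRle) hp2
  have h3 : rk u ∣ u ^ i * v ^ (j + 1) := by
    have e : m * v = K * (u ^ i * v ^ (j + 1)) := by rw [hm]; ring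
    rw [e] at h1
    exact hcop.dvd_of_dvd_mul_left h1
  apply hiu
  refine ⟨?_, h3⟩
  by_contra hnv
  have hc : Nat.Coprime (rk u) (v ^ (j + 1)) :=
    Nat.Coprime.pow_right _ ((Nat.Prime.coprime_iff_not_dvd hv.1).2 hnv).symm
  have h4 : rk u ∣ u ^ i := by
    rw [mul_comm] at h3
    exact hc.dvd_of_dvd_mul_left h3
  apply h2
  have e : m * u = u ^ i * (v ^ j * K * u) := by rw [hm]; ring
  rw [e]
  exact h4.trans (dvd_mul_right _ _)

end Pool.Agent.H528R2.CoreB

namespace Pool.Agent.H528R2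

open CoreB

theorem core {u v : ℕ} (hu : Inert u) (hv : Inert v) (huv : u ≠ v) (hu11 : 11 ≤ u) (hv11 : 11 ≤ v)
    {i j : ℕ} {G : ℤ} (hG : Odd G) (h : ((u ^ (i + 1) * v ^ (j + 1) : ℕ) : ℤ) ∣ G)
    (hiu : ¬ (v ∣ rk u ∧ rk u ∣ u ^ i * v ^ (j + 1)))
    (hiv : ¬ (u ∣ rk v ∧ rk v ∣ v ^ j * u ^ (i + 1))) :
    ∃ t : ℕ, Inert t ∧ rk t ≠ 0 ∧ (rk t : ℤ) ∣ 8 * G ∧ Odd (dd t (8 * G)) ∧
      padicValNat u (rk t) = i + 1 ∧ padicValNat v (rk t) = j + 1 := by
  have hG0 : G ≠ 0 := by rintro rfl; simp at hG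
  set g := G.natAbs with hg
  have hg0 : g ≠ 0 := by rw [hg]; exact Int.natAbs_ne_zero.2 hG0
  have hgodd : Odd g := by rw [hg]; exact Int.natAbs_odd.2 hG
  have hdvd : u ^ (i + 1) * v ^ (j + 1) ∣ g := by
    rw [hg]; exact Int.natCast_dvd.1 h
  set B := 2 * (u + v) with hB
  obtain ⟨K, hK0, hKg, hKB, hKv⟩ := exists_part hg0 B
  have hup := hu.1
  have hvp := hv.1
  have Fu := Fact.mk hup
  have Fv := Fact.mk hvp
  have hKu' : ¬ u ∣ K := hKB u hup (by omega)
  have hKv' : ¬ v ∣ K := hKB v hvp (by omega)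
  have hcuv : Nat.Coprime u v := (Nat.coprime_primes hup hvp).2 huv
  set m := u ^ i * v ^ j * K with hm
  have hm0 : m ≠ 0 := by
    rw [hm]
    exact mul_ne_zero (mul_ne_zero (pow_ne_zero _ hup.ne_zero) (pow_ne_zero _ hvp.ne_zero)) hK0
  have hmodd : Odd m := by
    rw [hm]
    refine ((odd_inert hu).pow.mul (odd_inert hv).pow).mul ?_
    exact Odd.of_dvd_nat hgodd hKg
  obtain ⟨s, hs, hD⟩ := exists_prime hmodd hu hv
  have hsp := hs.1
  have Fs := Fact.mk hsp
  have hmu0 : m * u ≠ 0 := mul_ne_zero hm0 hup.ne_zero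
  have hmv0 : m * v ≠ 0 := mul_ne_zero hm0 hvp.ne_zero
  have hmuv0 : m * u * v ≠ 0 := mul_ne_zero hmu0 hvp.ne_zero
  have v1 : padicValNat s (m * u) = padicValNat s m + padicValNat s u :=
    padicValNat.mul hm0 hup.ne_zero
  have v2 : padicValNat s (m * v) = padicValNat s m + padicValNat s v :=
    padicValNat.mul hm0 hvp.ne_zero
  have v3 : padicValNat s (m * u * v) = padicValNat s m + padicValNat s u + padicValNat s v := by
    rw [padicValNat.mul hmu0 hvp.ne_zero, v1]
  have vu := val_self_or hsp hup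
  have vv := val_self_or hsp hvp
  by_cases h10 : rk s ∣ m * u
  · exfalso
    by_cases h01 : rk s ∣ m * v
    · have h00 : rk s ∣ m := dvd_both hcuv h10 h01
      have e0 := dd_of hsp hm0 h00
      have e1 := dd_of hsp hmu0 h10
      have e2 := dd_of hsp hmv0 h01
      have e3 := dd_of hsp hmuv0 (h10.trans (dvd_mul_right _ _))
      rw [Nat.odd_iff] at hD
      omega
    · have h00 : ¬ rk s ∣ m := fun h => h01 (h.trans (dvd_mul_right _ _))
      have e0 := dd_zero_of hsp hm0 h00
      have e1 := dd_of hsp hmu0 h10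
      have e2 := dd_zero_of hsp hmv0 h01
      have e3 := dd_of hsp hmuv0 (h10.trans (dvd_mul_right _ _))
      rw [Nat.odd_iff] at hD
      have hsv : s = v := by
        by_contra hne
        rw [if_neg hne] at vv
        omega
      subst hsv
      have hm' : m = s ^ j * u ^ i * K := by rw [hm]; ring
      exact intr hs hu hv11 hm' hm0 (by omega) hKB hiv h10 h01
  · by_cases h01 : rk s ∣ m * v
    · exfalso
      have h00 : ¬ rk s ∣ m := fun h => h10 (h.trans (dvd_mul_right _ _))
      have h11 : rk s ∣ m * u * v := by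
        have : m * u * v = m * v * u := by ring
        rw [this]; exact h01.trans (dvd_mul_right _ _)
      have e0 := dd_zero_of hsp hm0 h00
      have e1 := dd_zero_of hsp hmu0 h10
      have e2 := dd_of hsp hmv0 h01
      have e3 := dd_of hsp hmuv0 h11
      rw [Nat.odd_iff] at hD
      have hsu : s = u := by
        by_contra hne
        rw [if_neg hne] at vu
        omega
      subst hsu
      exact intr hs hv hu11 hm hm0 (by omega) hKB hiu h01 h10
    · have h00 : ¬ rk s ∣ m := fun h => h10 (h.trans (dvd_mul_right _ _))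
      have e0 := dd_zero_of hsp hm0 h00
      have e1 := dd_zero_of hsp hmu0 h10
      have e2 := dd_zero_of hsp hmv0 h01
      have h11 : rk s ∣ m * u * v := by
        by_contra h11
        have e3 := dd_zero_of hsp hmuv0 h11
        rw [e0, e1, e2, e3] at hD
        simp at hD
      have e3 := dd_of hsp hmuv0 h11
      have hR0 : rk s ≠ 0 := by
        intro h0
        rw [h0] at h11
        exact hmuv0 (zero_dvd_iff.1 h11)
      -- valuations of the rank
      have vKu : padicValNat u K = 0 := padicValNat.eq_zero_of_not_dvd hKu'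
      have vKv : padicValNat v K = 0 := padicValNat.eq_zero_of_not_dvd hKv'
      have vuv : padicValNat u v = 0 := by rw [val_self_or hup hvp, if_neg huv]
      have vvu : padicValNat v u = 0 := by rw [val_self_or hvp hup, if_neg (Ne.symm huv)]
      have hui : u ^ i ≠ 0 := pow_ne_zero _ hup.ne_zero
      have hvj : v ^ j ≠ 0 := pow_ne_zero _ hvp.ne_zero
      have vum : padicValNat u m = i := by
        rw [hm, padicValNat.mul (mul_ne_zero hui hvj) hK0, padicValNat.mul hui hvj,
          padicValNat.pow, padicValNat.pow, padicValNat_self, vuv, vKu]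
        omega
      have vvm : padicValNat v m = j := by
        rw [hm, padicValNat.mul (mul_ne_zero hui hvj) hK0, padicValNat.mul hui hvj,
          padicValNat.pow, padicValNat.pow, padicValNat_self, vvu, vKv]
        omega
      have vu1 : padicValNat u (rk s) = i + 1 := by
        have hle : padicValNat u (rk s) ≤ padicValNat u (m * u * v) := by
          have := (Nat.factorization_le_iff_dvd hR0 hmuv0).2 h11 u
          rwa [Nat.factorization_def _ hup, Nat.factorization_def _ hup] at this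
        rw [padicValNat.mul hmu0 hvp.ne_zero, padicValNat.mul hm0 hup.ne_zero, padicValNat_self,
          vum, vuv] at hle
        by_contra hne
        apply h01
        apply dvd_of_val hup hmv0 hR0
        · have : u * (m * v) = m * u * v := by ring
          rw [this]; exact h11
        · rw [padicValNat.mul hm0 hvp.ne_zero, vum, vuv]; omega
      have vv1 : padicValNat v (rk s) = j + 1 := by
        have hle : padicValNat v (rk s) ≤ padicValNat v (m * u * v) := by
          have := (Nat.factorization_le_iff_dvd hR0 hmuv0).2 h11 v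
          rwa [Nat.factorization_def _ hvp, Nat.factorization_def _ hvp] at this
        rw [padicValNat.mul hmu0 hvp.ne_zero, padicValNat.mul hm0 hup.ne_zero, padicValNat_self,
          vvm, vvu] at hle
        by_contra hne
        apply h10
        apply dvd_of_val hvp hmu0 hR0
        · have : v * (m * u) = m * u * v := by ring
          rw [this]; exact h11
        · rw [padicValNat.mul hm0 hup.ne_zero, vvm, vvu]; omega
      have hud : u ∣ rk s := by
        have := @pow_padicValNat_dvd u (rk s)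
        rw [vu1] at this
        exact (dvd_pow_self u (Nat.succ_ne_zero i)).trans this
      have hvd : v ∣ rk s := by
        have := @pow_padicValNat_dvd v (rk s)
        rw [vv1] at this
        exact (dvd_pow_self v (Nat.succ_ne_zero j)).trans this
      have huvR : u * v ≤ rk s := Nat.le_of_dvd (Nat.pos_of_ne_zero hR0)
        (Nat.Coprime.mul_dvd_of_dvd_of_dvd hcuv hud hvd)
      have h121 : 121 ≤ u * v := Nat.mul_le_mul hu11 hv11
      have hs7 : 7 ≤ s := by
        by_contra h7
        have h35 : s = 3 ∨ s = 5 := by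
          rcases hs.2 with h8 | h8 <;> omega
        have h6 : rk s ∣ 6 := by exact_mod_cast rk_small h35
        have := Nat.le_of_dvd (by norm_num) h6
        omega
      have hsle := rk_le hs hs7
      have hsB : B < s := by
        have h49 : 4 * (u + v) + 1 < u * v := by
          obtain ⟨a, rfl⟩ := Nat.exists_eq_add_of_le hu11
          obtain ⟨b, rfl⟩ := Nat.exists_eq_add_of_le hv11
          nlinarith
        omega
      have hsu : s ≠ u := by omega
      have hsv : s ≠ v := by omega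
      have hnG : m * u * v ∣ g := by
        have e : m * u * v = u ^ (i + 1) * v ^ (j + 1) * K := by rw [hm]; ring
        rw [e]
        apply Nat.Coprime.mul_dvd_of_dvd_of_dvd _ hdvd hKg
        apply Nat.Coprime.mul_left
        · exact Nat.Coprime.pow_left _ ((Nat.Prime.coprime_iff_not_dvd hup).2 hKu')
        · exact Nat.Coprime.pow_left _ ((Nat.Prime.coprime_iff_not_dvd hvp).2 hKv')
      have hR8 : (rk s : ℤ) ∣ 8 * G := by
        have h1 : rk s ∣ g := h11.trans hnG
        have h2 : (rk s : ℤ) ∣ G := by rw [hg] at h1; exact Int.natCast_dvd.2 h1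
        exact dvd_mul_of_dvd_right h2 8
      refine ⟨s, hs, hR0, hR8, ?_, vu1, vv1⟩
      have e8 := dd_eq hsp (n := 8 * G) (by omega) hR8
      have v8 : padicValInt s (8 * G) = padicValNat s (m * u * v) := by
        rw [padicValInt.mul (by norm_num) hG0]
        have h8 : padicValInt s 8 = 0 := by
          apply padicValInt.eq_zero_of_not_dvd
          intro hd
          have h3 : s ∣ 2 ^ 3 := by exact_mod_cast hd
          have h4 := (Nat.prime_dvd_prime_iff_eq hsp Nat.prime_two).1 (hsp.dvd_of_dvd_pow h3)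
          omega
        have hGg : padicValInt s G = padicValNat s g := rfl
        have vus : padicValNat s (u ^ i) = 0 := by
          rw [padicValNat.pow, vu, if_neg hsu, mul_zero]
        have vvs : padicValNat s (v ^ j) = 0 := by
          rw [padicValNat.pow, vv, if_neg hsv, mul_zero]
        rw [h8, hGg, ← hKv s hsp hsB, v3, vu, vv, if_neg hsu, if_neg hsv, hm,
          padicValNat.mul (mul_ne_zero hui hvj) hK0, padicValNat.mul hui hvj, vus, vvs]
        omega
      have : dd s (8 * G) = dd s ((m * u * v : ℕ) : ℤ) := by omega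
      rw [this]
      rw [e0, e1, e2] at hD
      simpa using hD

end Pool.Agent.H528R2
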