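import Pool.Agent.H528R2.Defs

/-!
# A3: a special case of Legendre's theorem
-/

namespace Pool.Agent.H528R2

namespace Leg

theorem sq_crt (c : ℤ) {n : ℕ} : Squarefree n →
    (∀ p : ℕ, p.Prime → p ∣ n → ∃ s : ℤ, (p : ℤ) ∣ s ^ 2 - c) →
    ∃ s : ℤ, (n : ℤ) ∣ s ^ 2 - c := by
  induction n using induction_on_primes with
  | zero => intro h; exact absurd h not_squarefree_zero
  | one => intro _ _; exact ⟨0, by simp⟩
  | prime_mul p a hp ih =>
    intro hsf h
    obtain ⟨hcop, -, hsa⟩ := Nat.squarefree_mul_iff.1 hsf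
    obtain ⟨s2, h2⟩ := ih hsa fun q hq hqa => h q hq (hqa.mul_left p)
    obtain ⟨s1, h1⟩ := h p hp (dvd_mul_right p a)
    have hc : IsCoprime (p : ℤ) (a : ℤ) := Nat.isCoprime_iff_coprime.2 hcop
    obtain ⟨u, v, huv⟩ := hc
    refine ⟨s1 * (v * a) + s2 * (u * p), ?_⟩
    push_cast
    have hc : IsCoprime (p : ℤ) (a : ℤ) := ⟨u, v, huv⟩
    refine hc.mul_dvd ?_ ?_
    · have e : s1 * (v * a) + s2 * (u * p) = s1 + p * (u * (s2 - s1)) := by
        linear_combination s1 * huv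
      rw [e]
      have : (s1 + p * (u * (s2 - s1))) ^ 2 - c = (s1 ^ 2 - c)
        + p * (2 * s1 * (u * (s2 - s1)) + p * (u * (s2 - s1)) ^ 2) := by ring
      rw [this]
      exact dvd_add h1 (dvd_mul_right _ _)
    · have e : s1 * (v * a) + s2 * (u * p) = s2 + a * (v * (s1 - s2)) := by
        linear_combination s2 * huv
      rw [e]
      have : (s2 + a * (v * (s1 - s2))) ^ 2 - c = (s2 ^ 2 - c)
        + a * (2 * s2 * (v * (s1 - s2)) + a * (v * (s1 - s2)) ^ 2) := by ring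
      rw [this]
      exact dvd_add h2 (dvd_mul_right _ _)

theorem sq_lift (c : ℤ) {p : ℕ} [NeZero p] (h : IsSquare (c : ZMod p)) :
    ∃ s : ℤ, (p : ℤ) ∣ s ^ 2 - c := by
  obtain ⟨w, hw⟩ := h
  refine ⟨(w.val : ℤ), ?_⟩
  rw [← ZMod.intCast_zmod_eq_zero_iff_dvd]
  push_cast
  rw [ZMod.natCast_val, ZMod.cast_id', id, hw]
  ring

end Leg

theorem legendre_special {r a l : ℕ} (hr : Squarefree r) (ha : Squarefree a) (hl : l.Prime)
    (hro : Odd r) (hao : Odd a) (hlo : Odd l) (hra : r.Coprime a) (hrl : r.Coprime l)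
    (hal : a.Coprime l)
    (h1 : ∀ p, p.Prime → p ∣ r → IsSquare (-2 * a * l : ZMod p))
    (h2 : ∀ p, p.Prime → p ∣ a → IsSquare ((l * r : ℕ) : ZMod p))
    (h3 : IsSquare ((2 * a * r : ℕ) : ZMod l)) :
    ∃ x y z : ℤ, (x, y, z) ≠ (0, 0, 0) ∧ r * x ^ 2 = 2 * a * y ^ 2 + l * z ^ 2 := by
  have hr0 : r ≠ 0 := hr.ne_zero
  have ha0 : a ≠ 0 := ha.ne_zero
  have hl0 : l ≠ 0 := hl.ne_zero
  have : NeZero r := ⟨hr0⟩
  have : NeZero a := ⟨ha0⟩
  have : NeZero l := ⟨hl0⟩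
  obtain ⟨s, hs⟩ : ∃ s : ℤ, (r : ℤ) ∣ s ^ 2 - (-2 * a * l) := by
    refine Leg.sq_crt _ hr fun p hp hpr => ?_
    have : NeZero p := ⟨hp.ne_zero⟩
    refine Leg.sq_lift _ ?_
    have := h1 p hp hpr
    push_cast
    exact this
  obtain ⟨t, ht⟩ : ∃ t : ℤ, (a : ℤ) ∣ t ^ 2 - (l * r) := by
    refine Leg.sq_crt _ ha fun p hp hpr => ?_
    have : NeZero p := ⟨hp.ne_zero⟩
    refine Leg.sq_lift _ ?_
    have := h2 p hp hpr
    push_cast at this ⊢
    exact this
  obtain ⟨w, hw⟩ : ∃ w : ℤ, (l : ℤ) ∣ w ^ 2 - (2 * a * r) := by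
    refine Leg.sq_lift _ ?_
    push_cast at h3 ⊢
    exact h3
  -- not squares
  have hodd2 : ∀ n : ℕ, Odd n → ∀ x : ℤ, x ^ 2 ≠ 2 * n := by
    intro n hn x hx
    have hx2 : Even (x ^ 2) := by rw [hx]; exact even_two_mul _
    have hxe : Even x := by
      rw [Int.even_pow] at hx2
      exact hx2.1
    obtain ⟨y, rfl⟩ := hxe
    have : (n : ℤ) = 2 * y ^ 2 := by linarith [hx, (by ring : (y + y) ^ 2 = 2 * (2 * y ^ 2))]
    have hn2 : Even (n : ℤ) := by rw [this]; exact even_two_mul _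
    rw [Int.even_coe_nat] at hn2
    exact (Nat.not_even_iff_odd.2 hn) hn2
  have hlns : ∀ y : ℤ, y ^ 2 ≠ r * l := by
    intro y hy
    have hlp : Prime (l : ℤ) := Nat.prime_iff_prime_int.1 hl
    have hd : (l : ℤ) ∣ y := hlp.dvd_of_dvd_pow (n := 2) ⟨r, by rw [hy]; ring⟩
    obtain ⟨v, rfl⟩ := hd
    have hl0' : (l : ℤ) ≠ 0 := by exact_mod_cast hl0
    have : (r : ℤ) = l * v ^ 2 := by
      apply mul_left_cancel₀ hl0'
      linear_combination -hy
    have hd : l ∣ r := by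
      have : (l : ℤ) ∣ (r : ℤ) := ⟨_, this⟩
      exact_mod_cast this
    have := Nat.Coprime.eq_one_of_dvd (hrl.symm) hd
    exact hl.one_lt.ne' this
  -- pigeonhole
  set X := Nat.sqrt (2 * a * l) with hX
  set Y := Nat.sqrt (r * l) with hY
  set Z := Nat.sqrt (2 * a * r) with hZ
  have hcard : 2 * a * r * l < (X + 1) * ((Y + 1) * (Z + 1)) := by
    have e1 := Nat.lt_succ_sqrt (2 * a * l)
    have e2 := Nat.lt_succ_sqrt (r * l)
    have e3 := Nat.lt_succ_sqrt (2 * a * r)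
    simp only [Nat.succ_eq_add_one, ← hX, ← hY, ← hZ] at e1 e2 e3
    by_contra hcon
    rw [not_lt] at hcon
    have e4 : ((X + 1) * ((Y + 1) * (Z + 1))) * ((X + 1) * ((Y + 1) * (Z + 1)))
        ≤ (2 * a * r * l) * (2 * a * r * l) := Nat.mul_le_mul hcon hcon
    have e5 : (2 * a * l) * ((r * l) * (2 * a * r)) <
        ((X + 1) * (X + 1)) * (((Y + 1) * (Y + 1)) * ((Z + 1) * (Z + 1))) :=
      Nat.mul_lt_mul'' e1 (Nat.mul_lt_mul'' e2 e3)
    have e6 : (2 * a * l) * ((r * l) * (2 * a * r)) = (2 * a * r * l) * (2 * a * r * l) := by ring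
    have e7 : ((X + 1) * (X + 1)) * (((Y + 1) * (Y + 1)) * ((Z + 1) * (Z + 1)))
      = ((X + 1) * ((Y + 1) * (Z + 1))) * ((X + 1) * ((Y + 1) * (Z + 1))) := by ring
    omega
  let F : ℕ × ℕ × ℕ → ZMod r × ZMod a × ZMod l × ZMod 2 := fun q =>
    (((s * q.2.1 - l * q.2.2 : ℤ) : ZMod r), ((r * q.1 - t * q.2.2 : ℤ) : ZMod a),
      ((r * q.1 - w * q.2.1 : ℤ) : ZMod l), ((q.1 - q.2.2 : ℤ) : ZMod 2))
  obtain ⟨q, hq, q', hq', hne, heq⟩ := Finset.exists_ne_map_eq_of_card_lt_of_maps_to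
    (s := Finset.range (X + 1) ×ˢ (Finset.range (Y + 1) ×ˢ Finset.range (Z + 1)))
    (t := (Finset.univ : Finset (ZMod r × ZMod a × ZMod l × ZMod 2))) (f := F)
    (by
      rw [Finset.card_univ, Finset.card_product, Finset.card_product]
      simp only [Fintype.card_prod, ZMod.card, Finset.card_range]
      calc _ = 2 * a * r * l := by ring
        _ < _ := hcard) (fun _ _ => Finset.mem_univ _)
  obtain ⟨x0, y0, z0⟩ := q
  obtain ⟨x1, y1, z1⟩ := q'
  simp only [Finset.mem_product, Finset.mem_range] at hq hq'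
  simp only [F, Prod.mk.injEq] at heq
  obtain ⟨g1, g2, g3, g4⟩ := heq
  rw [ZMod.intCast_eq_intCast_iff_dvd_sub] at g1 g2 g3 g4
  set x : ℤ := x1 - x0 with hx
  set y : ℤ := y1 - y0 with hy
  set z : ℤ := z1 - z0 with hz
  have k1 : (r : ℤ) ∣ s * y - l * z := by
    refine g1.trans (dvd_of_eq ?_)
    rw [hy, hz]; ring
  have k2 : (a : ℤ) ∣ r * x - t * z := by
    refine g2.trans (dvd_of_eq ?_)
    rw [hx, hz]; ring
  have k3 : (l : ℤ) ∣ r * x - w * y := by
    refine g3.trans (dvd_of_eq ?_)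
    rw [hx, hy]; ring
  have k4 : ((2 : ℕ) : ℤ) ∣ x - z := by
    refine g4.trans (dvd_of_eq ?_)
    rw [hx, hz]; ring
  have hxyz : ¬ (x = 0 ∧ y = 0 ∧ z = 0) := by
    rintro ⟨e1, e2, e3⟩
    apply hne
    have e1' : x1 = x0 := by omega
    have e2' : y1 = y0 := by omega
    have e3' : z1 = z0 := by omega
    rw [e1', e2', e3']
  have hxX : |x| ≤ X := by rw [abs_le]; omega
  have hyY : |y| ≤ Y := by rw [abs_le]; omega
  have hzZ : |z| ≤ Z := by rw [abs_le]; omega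
  have sqb : ∀ (n : ℕ) (v : ℤ), |v| ≤ Nat.sqrt n → v ^ 2 ≤ n := by
    intro n v hv
    have e := Nat.sqrt_le n
    have e' : (Nat.sqrt n : ℤ) * Nat.sqrt n ≤ n := by exact_mod_cast e
    calc v ^ 2 = |v| * |v| := by rw [abs_mul_abs_self]; ring
      _ ≤ (Nat.sqrt n : ℤ) * Nat.sqrt n := mul_le_mul hv hv (abs_nonneg _) (by positivity)
      _ ≤ n := e'
  have hx2 : x ^ 2 < 2 * a * l := by
    have e1 := sqb _ _ hxX
    push_cast at e1
    refine lt_of_le_of_ne e1 ?_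
    have := hodd2 (a * l) (hao.mul hlo) x
    push_cast at this
    rwa [← mul_assoc] at this
  have hy2 : y ^ 2 < r * l := by
    have e1 := sqb _ _ hyY
    push_cast at e1
    exact lt_of_le_of_ne e1 (hlns y)
  have hz2 : z ^ 2 < 2 * a * r := by
    have e1 := sqb _ _ hzZ
    push_cast at e1
    refine lt_of_le_of_ne e1 ?_
    have := hodd2 (a * r) (hao.mul hro) z
    push_cast at this
    rwa [← mul_assoc] at this
  -- divisibility
  set f : ℤ := r * x ^ 2 - 2 * a * y ^ 2 - l * z ^ 2 with hf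
  have d1 : (r : ℤ) ∣ f := by
    have hc : IsCoprime (r : ℤ) (l : ℤ) := Nat.isCoprime_iff_coprime.2 hrl
    refine hc.dvd_of_dvd_mul_left ?_
    have e : l * f = (s * y - l * z) * (s * y + l * z) - y ^ 2 * (s ^ 2 - (-2 * a * l))
      + r * (l * x ^ 2) := by rw [hf]; ring
    rw [e]
    exact dvd_add (dvd_sub (k1.mul_right _) (hs.mul_left _)) (dvd_mul_right _ _)
  have d2 : (a : ℤ) ∣ f := by
    have hc : IsCoprime (a : ℤ) (r : ℤ) := Nat.isCoprime_iff_coprime.2 hra.symm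
    refine hc.dvd_of_dvd_mul_left ?_
    have e : r * f = (r * x - t * z) * (r * x + t * z) + z ^ 2 * (t ^ 2 - (l * r))
      + a * (-2 * r * y ^ 2) := by rw [hf]; ring
    rw [e]
    exact dvd_add (dvd_add (k2.mul_right _) (ht.mul_left _)) (dvd_mul_right _ _)
  have d3 : (l : ℤ) ∣ f := by
    have hc : IsCoprime (l : ℤ) (r : ℤ) := Nat.isCoprime_iff_coprime.2 hrl.symm
    refine hc.dvd_of_dvd_mul_left ?_
    have e : r * f = (r * x - w * y) * (r * x + w * y) + y ^ 2 * (w ^ 2 - (2 * a * r))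
      + l * (-r * z ^ 2) := by rw [hf]; ring
    rw [e]
    exact dvd_add (dvd_add (k3.mul_right _) (hw.mul_left _)) (dvd_mul_right _ _)
  have d4 : (2 : ℤ) ∣ f := by
    obtain ⟨k, hk⟩ := k4
    obtain ⟨r', hr'⟩ := hro
    obtain ⟨l', hl'⟩ := hlo
    have e : x = z + 2 * k := by push_cast at hk; linarith
    rw [hf, e, hr', hl']
    refine ⟨r' * (z + 2 * k) ^ 2 + 2 * z * k + 2 * k ^ 2 - a * y ^ 2 - l' * z ^ 2, ?_⟩
    push_cast
    ring
  have c12 : IsCoprime (r : ℤ) (a : ℤ) := Nat.isCoprime_iff_coprime.2 hra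
  have c3 : IsCoprime ((r * a : ℕ) : ℤ) (l : ℤ) :=
    Nat.isCoprime_iff_coprime.2 (Nat.Coprime.mul_left hrl hal)
  have c4 : IsCoprime ((r * a * l : ℕ) : ℤ) ((2 : ℕ) : ℤ) := by
    refine Nat.isCoprime_iff_coprime.2 ?_
    have : Odd (r * a * l) := (hro.mul hao).mul hlo
    exact (Nat.coprime_two_right).2 this
  have dm : ((2 * a * r * l : ℕ) : ℤ) ∣ f := by
    have e1 : (r * a : ℤ) ∣ f := c12.mul_dvd d1 d2
    have e2 : (((r * a : ℕ) : ℤ) * l) ∣ f := c3.mul_dvd (by push_cast; exact e1) d3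
    have e3 : (((r * a * l : ℕ) : ℤ) * ((2 : ℕ) : ℤ)) ∣ f :=
      c4.mul_dvd (by push_cast at e2 ⊢; exact e2) (by exact_mod_cast d4)
    refine (dvd_of_eq ?_).trans e3
    push_cast; ring
  have hrp : (0 : ℤ) < r := by exact_mod_cast Nat.pos_of_ne_zero hr0
  have hap : (0 : ℤ) < a := by exact_mod_cast Nat.pos_of_ne_zero ha0
  have hlp : (0 : ℤ) < l := by exact_mod_cast Nat.pos_of_ne_zero hl0
  have b1 : f < 2 * a * r * l := by
    have e1 : (r : ℤ) * x ^ 2 < r * (2 * a * l) := mul_lt_mul_of_pos_left hx2 hrp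
    have e2 : 0 ≤ 2 * a * y ^ 2 := by positivity
    have e3 : 0 ≤ l * z ^ 2 := by positivity
    have e4 : (r : ℤ) * (2 * a * l) = 2 * a * r * l := by ring
    rw [hf]; linarith
  have b2 : -(2 * (2 * a * r * l)) < f := by
    have e1 : (2 * a : ℤ) * y ^ 2 < 2 * a * (r * l) := mul_lt_mul_of_pos_left hy2 (by positivity)
    have e2 : (l : ℤ) * z ^ 2 < l * (2 * a * r) := mul_lt_mul_of_pos_left hz2 hlp
    have e3 : 0 ≤ r * x ^ 2 := by positivity
    have e4 : (2 * a : ℤ) * (r * l) = 2 * a * r * l := by ring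
    have e5 : (l : ℤ) * (2 * a * r) = 2 * a * r * l := by ring
    rw [hf]; linarith
  obtain ⟨k, hk⟩ := dm
  have hmp : (0 : ℤ) < 2 * a * r * l := by positivity
  push_cast at hk
  have hk1 : k < 1 := by
    by_contra hcon
    have := mul_le_mul_of_nonneg_left (not_lt.1 hcon) hmp.le
    linarith
  have hk2 : -2 < k := by
    by_contra hcon
    have := mul_le_mul_of_nonneg_left (not_lt.1 hcon) hmp.le
    linarith
  have hk3 : k = 0 ∨ k = -1 := by omega
  rcases hk3 with rfl | rfl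
  · refine ⟨x, y, z, ?_, ?_⟩
    · simpa [Prod.ext_iff] using hxyz
    · have : f = 0 := by rw [hk]; ring
      rw [hf] at this; linarith
  · refine ⟨x * z - 2 * a * y, y * z - r * x, z ^ 2 - 2 * a * r, ?_, ?_⟩
    · intro h
      simp only [Prod.mk.injEq] at h
      have := h.2.2
      omega
    · have e : f = -(2 * a * r * l) := by rw [hk]; ring
      rw [hf] at e
      linear_combination (z ^ 2 - 2 * a * r) * e

end Pool.Agent.H528R2
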