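import Pool.Agent.H528R2.NormVal

/-!
# Norms from `ℚ(√2)`: `ℤ[√2]` has class number one (A2)

A nonzero rational with even valuation at all inert primes is a norm.
-/

namespace Pool.Agent.H528R2

theorem NormAux.isN_two : IsN 2 := ⟨two_ne_zero, 2, 1, by norm_num⟩

theorem NormAux.isN_one : IsN 1 := ⟨one_ne_zero, 1, 0, by norm_num⟩

lemma NormAux.isN_of_residue {p : ℕ} (hp : p.Prime) {x : ZMod p} (hx : x ^ 2 = 2) : IsN (p : ℚ) := by
  have := Fact.mk hp
  set k := Nat.sqrt p with hk
  have hk1 : p < (k + 1) * (k + 1) := Nat.lt_succ_sqrt p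
  have hk2 : k * k < p := by
    rcases (Nat.sqrt_le p).lt_or_eq with h | h
    · exact h
    · exfalso
      have h2 : k * k = p := h
      have hpr := hp
      rw [← h2] at hpr
      have hk1' : k ≠ 1 := by
        intro h1
        rw [h1] at hpr
        exact Nat.not_prime_one hpr
      exact Nat.not_prime_mul hk1' hk1' hpr
  let s : Finset (ℕ × ℕ) := Finset.range (k + 1) ×ˢ Finset.range (k + 1)
  let f : ℕ × ℕ → ZMod p := fun w => (w.1 : ZMod p) - x * w.2
  have hcard : (Finset.univ : Finset (ZMod p)).card < s.card := by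
    rw [Finset.card_univ, ZMod.card, Finset.card_product, Finset.card_range]
    exact hk1
  obtain ⟨w1, h1, w2, h2, hne, heq⟩ :=
    Finset.exists_ne_map_eq_of_card_lt_of_maps_to hcard (f := f)
      (fun a _ => Finset.mem_coe.2 (Finset.mem_univ _))
  simp only [s, Finset.mem_product, Finset.mem_range] at h1 h2
  set u : ℤ := (w1.1 : ℤ) - w2.1 with hu
  set v : ℤ := (w1.2 : ℤ) - w2.2 with hv
  have huv : ¬ (u = 0 ∧ v = 0) := by
    rintro ⟨h3, h4⟩
    apply hne
    apply Prod.ext
    · omega
    · omega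
  have hdvd : (p : ℤ) ∣ u ^ 2 - 2 * v ^ 2 := by
    rw [← ZMod.intCast_zmod_eq_zero_iff_dvd]
    push_cast [hu, hv]
    have h5 : (w1.1 : ZMod p) - w2.1 = x * ((w1.2 : ZMod p) - w2.2) := by
      simp only [f] at heq
      linear_combination heq
    rw [h5, mul_pow, hx]
    ring
  have hku : u ^ 2 ≤ k * k := by
    have e1 : |u| ≤ |(k : ℤ)| := by
      rw [abs_le]
      constructor
      · have : |(k : ℤ)| = k := abs_of_nonneg (by positivity)
        rw [this]
        omega
      · have : |(k : ℤ)| = k := abs_of_nonneg (by positivity)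
        rw [this]
        omega
    have := sq_le_sq.2 e1
    linarith [sq (k : ℤ)]
  have hkv : v ^ 2 ≤ k * k := by
    have e1 : |v| ≤ |(k : ℤ)| := by
      rw [abs_le]
      constructor
      · have : |(k : ℤ)| = k := abs_of_nonneg (by positivity)
        rw [this]
        omega
      · have : |(k : ℤ)| = k := abs_of_nonneg (by positivity)
        rw [this]
        omega
    have := sq_le_sq.2 e1
    linarith [sq (k : ℤ)]
  have hkp : (k : ℤ) * k < p := by exact_mod_cast hk2
  have hnz : ((u ^ 2 - 2 * v ^ 2 : ℤ) : ℚ) ≠ 0 := by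
    push_cast
    apply normForm_ne_zero
    rintro ⟨h3, h4⟩
    exact huv ⟨by exact_mod_cast h3, by exact_mod_cast h4⟩
  have hnz' : u ^ 2 - 2 * v ^ 2 ≠ 0 := by
    intro h
    apply hnz
    rw [h]
    simp
  obtain ⟨t, ht⟩ := hdvd
  have hp0 : (0 : ℤ) < p := by exact_mod_cast hp.pos
  have ht1 : t < 1 := by
    by_contra h
    push Not at h
    nlinarith [sq_nonneg v]
  have ht2 : -2 < t := by
    by_contra h
    push Not at h
    nlinarith [sq_nonneg u]
  have ht0 : t ≠ 0 := by
    rintro rfl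
    apply hnz'
    rw [ht, mul_zero]
  have ht' : t = -1 := by omega
  have hfin : IsN (-(p : ℚ)) := by
    refine ⟨neg_ne_zero.2 (by exact_mod_cast hp.ne_zero), u, v, ?_⟩
    rw [ht'] at ht
    have : ((u ^ 2 - 2 * v ^ 2 : ℤ) : ℚ) = ((p * (-1) : ℤ) : ℚ) := by rw [ht]
    push_cast at this
    linarith
  have := hfin.neg
  rwa [neg_neg] at this

theorem isN_prime {p : ℕ} (hp : p.Prime) (h : p = 2 ∨ p % 8 = 1 ∨ p % 8 = 7) : IsN (p : ℚ) := by
  rcases h with rfl | h
  · exact_mod_cast NormAux.isN_two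
  · have := Fact.mk hp
    have hp2 : p ≠ 2 := by
      rintro rfl
      omega
    obtain ⟨x, hx⟩ := (ZMod.exists_sq_eq_two_iff hp2).2 h
    exact NormAux.isN_of_residue hp (x := x) (by rw [sq]; exact hx.symm)

lemma NormAux.isN_prod {s : Finset ℕ} (h : ∀ p ∈ s, IsN (p : ℚ)) : IsN ((∏ p ∈ s, p : ℕ) : ℚ) := by
  classical
  induction s using Finset.induction_on with
  | empty => simpa using NormAux.isN_one
  | insert a s ha ih =>
    rw [Finset.prod_insert ha, Nat.cast_mul]
    exact (h a (Finset.mem_insert_self a s)).mul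
      (ih (fun p hp => h p (Finset.mem_insert_of_mem hp)))

lemma NormAux.isN_of_even_nat {n : ℕ} (hn : n ≠ 0) (h : ∀ q, Inert q → Even (padicValNat q n)) :
    IsN (n : ℚ) := by
  obtain ⟨s, k, hsk, hs⟩ := Nat.sq_mul_squarefree n
  have hk0 : k ≠ 0 := by
    rintro rfl
    apply hn
    rw [← hsk]
    ring
  have hs0 : s ≠ 0 := hs.ne_zero
  have hs' : IsN (s : ℚ) := by
    rw [← Nat.prod_primeFactors_of_squarefree hs]
    apply NormAux.isN_prod
    intro p hp
    have hpp := Nat.prime_of_mem_primeFactors hp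
    have := Fact.mk hpp
    have hps := Nat.dvd_of_mem_primeFactors hp
    apply isN_prime hpp
    by_contra hcon
    push Not at hcon
    have hin : Inert p := by
      refine ⟨hpp, ?_⟩
      have hodd := hpp.eq_two_or_odd.resolve_left hcon.1
      omega
    have h1 := h p hin
    rw [← hsk, padicValNat.mul (pow_ne_zero _ hk0) hs0, padicValNat.pow] at h1
    have h2 : padicValNat p s = 1 := by
      have h3 : 1 ≤ padicValNat p s := one_le_padicValNat_of_dvd hs0 hps
      have h4 : ¬ 2 ≤ padicValNat p s := by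
        intro h5
        have h6 : p ^ 2 ∣ s := (pow_dvd_pow p h5).trans pow_padicValNat_dvd
        rw [sq] at h6
        have := hs p h6
        exact hpp.one_lt.ne' (Nat.isUnit_iff.1 this)
      omega
    rw [h2] at h1
    obtain ⟨r, hr⟩ := h1
    omega
  rw [← hsk]
  push_cast
  exact (IsN.sq (by exact_mod_cast hk0)).mul hs'

theorem isN_of_even {x : ℚ} (hx : x ≠ 0) (h : ∀ q, Inert q → Even (padicValRat q x)) : IsN x := by
  set n : ℕ := x.num.natAbs * x.den with hn
  have hnum : x.num.natAbs ≠ 0 := Int.natAbs_ne_zero.2 (Rat.num_ne_zero.2 hx)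
  have hden : x.den ≠ 0 := x.den_nz
  have hn0 : n ≠ 0 := mul_ne_zero hnum hden
  have hN : IsN (n : ℚ) := by
    apply NormAux.isN_of_even_nat hn0
    intro q hq
    have := Fact.mk hq.1
    have h1 := h q hq
    rw [padicValRat_def, padicValInt] at h1
    rw [hn, padicValNat.mul hnum hden]
    obtain ⟨r, hr⟩ := h1
    rw [Nat.even_iff]
    omega
  have hdq : (x.den : ℚ) ≠ 0 := by exact_mod_cast hden
  have hN2 : IsN ((n : ℚ) * ((x.den : ℚ)⁻¹) ^ 2) := hN.mul (IsN.sq (inv_ne_zero hdq))
  have habs : (n : ℚ) * ((x.den : ℚ)⁻¹) ^ 2 = |x| := by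
    rw [hn]
    push_cast
    rw [← Rat.num_div_den x]
    rw [abs_div, Nat.abs_cast]
    simp only [Rat.num_div_den]
    field_simp
    rw [Nat.cast_natAbs, Int.cast_abs]
  rw [habs] at hN2
  rcases abs_choice x with h1 | h1
  · rwa [h1] at hN2
  · rw [h1] at hN2
    have := hN2.neg
    rwa [neg_neg] at this

end Pool.Agent.H528R2
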