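import Pool.Agent.H528R2.Defs

/-!
# Norms from `ℚ(√2)`: valuations at inert primes (A1)
-/

namespace Pool.Agent.H528R2

/-- `√2` is irrational -/
theorem normForm_ne_zero {c e : ℚ} (h : ¬ (c = 0 ∧ e = 0)) : c ^ 2 - 2 * e ^ 2 ≠ 0 := by
  intro h0
  by_cases he : e = 0
  · apply h
    refine ⟨?_, he⟩
    rw [he] at h0
    have : c ^ 2 = 0 := by linarith
    exact pow_eq_zero_iff (two_ne_zero) |>.1 this
  · have h1 : (c / e) ^ 2 = 2 := by
      field_simp
      linarith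
    have h2 : Real.sqrt 2 = |((c / e : ℚ) : ℝ)| := by
      have : (((c / e : ℚ) : ℝ)) ^ 2 = 2 := by exact_mod_cast h1
      rw [← this, Real.sqrt_sq_eq_abs]
    apply irrational_sqrt_two
    refine ⟨|c / e|, ?_⟩
    rw [h2]
    push_cast
    rfl

lemma NormAux.ne_two {q : ℕ} (hq : Inert q) : q ≠ 2 := by
  rintro rfl
  rcases hq.2 with h | h <;> omega

lemma NormAux.not_isSquare {q : ℕ} (hq : Inert q) : haveI := Fact.mk hq.1
    ¬ IsSquare (2 : ZMod q) := by
  have := Fact.mk hq.1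
  rw [ZMod.exists_sq_eq_two_iff (NormAux.ne_two hq)]
  rcases hq.2 with h | h <;> omega

/-- `c² - 2 e²` has no zero modulo an inert prime -/
lemma NormAux.dvd_of_dvd {q : ℕ} (hq : Inert q) {a b : ℤ} (h : (q : ℤ) ∣ a ^ 2 - 2 * b ^ 2) :
    (q : ℤ) ∣ a ∧ (q : ℤ) ∣ b := by
  have := Fact.mk hq.1
  have h1 : (a : ZMod q) ^ 2 - 2 * (b : ZMod q) ^ 2 = 0 := by
    have := (ZMod.intCast_zmod_eq_zero_iff_dvd (a ^ 2 - 2 * b ^ 2) q).2 h
    push_cast at this
    exact this
  have hb : (b : ZMod q) = 0 := by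
    by_contra hb
    apply NormAux.not_isSquare hq
    refine ⟨(a : ZMod q) / b, ?_⟩
    have h2 : (a : ZMod q) ^ 2 = 2 * (b : ZMod q) ^ 2 := by linear_combination h1
    field_simp
    exact h2.symm
  have ha : (a : ZMod q) = 0 := by
    rw [hb] at h1
    have : (a : ZMod q) ^ 2 = 0 := by simpa using h1
    exact pow_eq_zero_iff (two_ne_zero) |>.1 this
  exact ⟨(ZMod.intCast_zmod_eq_zero_iff_dvd a q).1 ha, (ZMod.intCast_zmod_eq_zero_iff_dvd b q).1 hb⟩

lemma NormAux.val_int {q : ℕ} (hq : Inert q) {a b : ℤ} (ha : a ≠ 0) (hb : b ≠ 0) :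
    padicValInt q (a ^ 2 - 2 * b ^ 2) = 2 * min (padicValInt q a) (padicValInt q b) := by
  have := Fact.mk hq.1
  set m := min (padicValInt q a) (padicValInt q b) with hm
  have hqz : (q : ℤ) ≠ 0 := by exact_mod_cast hq.1.ne_zero
  obtain ⟨a1, ha1⟩ : (q : ℤ) ^ m ∣ a :=
    (pow_dvd_pow _ (min_le_left _ _)).trans (padicValInt_dvd a)
  obtain ⟨b1, hb1⟩ : (q : ℤ) ^ m ∣ b :=
    (pow_dvd_pow _ (min_le_right _ _)).trans (padicValInt_dvd b)
  have ha10 : a1 ≠ 0 := by
    rintro rfl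
    apply ha
    rw [ha1, mul_zero]
  have hb10 : b1 ≠ 0 := by
    rintro rfl
    apply hb
    rw [hb1, mul_zero]
  have hpow : padicValInt q ((q : ℤ) ^ m) = m := by
    rw [← Nat.cast_pow, padicValInt.of_nat, padicValNat.prime_pow]
  have hva : padicValInt q a = m + padicValInt q a1 := by
    conv_lhs => rw [ha1]
    rw [padicValInt.mul (pow_ne_zero _ hqz) ha10, hpow]
  have hvb : padicValInt q b = m + padicValInt q b1 := by
    conv_lhs => rw [hb1]
    rw [padicValInt.mul (pow_ne_zero _ hqz) hb10, hpow]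
  have hnd : ¬ (q : ℤ) ∣ a1 ^ 2 - 2 * b1 ^ 2 := by
    intro h
    obtain ⟨h1, h2⟩ := NormAux.dvd_of_dvd hq h
    have e1 : 1 ≤ padicValInt q a1 := by
      by_contra hlt
      push Not at hlt
      have h0 : padicValInt q a1 = 0 := by omega
      rw [padicValInt.eq_zero_iff] at h0
      rcases h0 with h0 | h0 | h0
      · exact hq.1.one_lt.ne' h0
      · exact ha10 h0
      · exact h0 h1
    have e2 : 1 ≤ padicValInt q b1 := by
      by_contra hlt
      push Not at hlt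
      have h0 : padicValInt q b1 = 0 := by omega
      rw [padicValInt.eq_zero_iff] at h0
      rcases h0 with h0 | h0 | h0
      · exact hq.1.one_lt.ne' h0
      · exact hb10 h0
      · exact h0 h2
    omega
  have hfac : a ^ 2 - 2 * b ^ 2 = ((q : ℤ) ^ m * (q : ℤ) ^ m) * (a1 ^ 2 - 2 * b1 ^ 2) := by
    conv_lhs => rw [ha1, hb1]
    ring
  have hne : a1 ^ 2 - 2 * b1 ^ 2 ≠ 0 := by
    intro h
    apply hnd
    rw [h]
    exact dvd_zero _
  rw [hfac, padicValInt.mul (mul_ne_zero (pow_ne_zero _ hqz) (pow_ne_zero _ hqz)) hne,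
    padicValInt.mul (pow_ne_zero _ hqz) (pow_ne_zero _ hqz), hpow,
    padicValInt.eq_zero_of_not_dvd hnd]
  omega

/-- `2` is a non-residue modulo an inert prime: no cancellation in `c² - 2 e²` -/
theorem val_normForm {q : ℕ} (hq : Inert q) {c e : ℚ} (hc : c ≠ 0) (he : e ≠ 0) :
    padicValRat q (c ^ 2 - 2 * e ^ 2) = 2 * min (padicValRat q c) (padicValRat q e) := by
  have := Fact.mk hq.1
  set a : ℤ := c.num * e.den with ha
  set b : ℤ := e.num * c.den with hb
  set d : ℤ := c.den * e.den with hd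
  have hcd : (c.den : ℤ) ≠ 0 := by exact_mod_cast c.den_nz
  have hed : (e.den : ℤ) ≠ 0 := by exact_mod_cast e.den_nz
  have ha0 : a ≠ 0 := mul_ne_zero (Rat.num_ne_zero.2 hc) hed
  have hb0 : b ≠ 0 := mul_ne_zero (Rat.num_ne_zero.2 he) hcd
  have hd0 : d ≠ 0 := mul_ne_zero hcd hed
  have hdq : (d : ℚ) ≠ 0 := by exact_mod_cast hd0
  have hcdq : (c.den : ℚ) ≠ 0 := by exact_mod_cast c.den_nz
  have hedq : (e.den : ℚ) ≠ 0 := by exact_mod_cast e.den_nz
  have hc' : c = (a : ℚ) / d := by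
    rw [ha, hd]
    push_cast
    rw [mul_div_mul_right _ _ hedq]
    exact (Rat.num_div_den c).symm
  have he' : e = (b : ℚ) / d := by
    rw [hb, hd]
    push_cast
    rw [mul_comm (c.den : ℚ) (e.den : ℚ), mul_div_mul_right _ _ hcdq]
    exact (Rat.num_div_den e).symm
  have hval := NormAux.val_int hq ha0 hb0
  have haq : (a : ℚ) ≠ 0 := by exact_mod_cast ha0
  have hbq : (b : ℚ) ≠ 0 := by exact_mod_cast hb0
  have hn : ((a ^ 2 - 2 * b ^ 2 : ℤ) : ℚ) ≠ 0 := by
    push_cast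
    exact normForm_ne_zero (fun h => haq h.1)
  have e1 : c ^ 2 - 2 * e ^ 2 = ((a ^ 2 - 2 * b ^ 2 : ℤ) : ℚ) / ((d : ℚ) * d) := by
    rw [hc', he']
    push_cast
    field_simp
  rw [e1, padicValRat.div hn (mul_ne_zero hdq hdq), padicValRat.mul hdq hdq, hc', he',
    padicValRat.div haq hdq, padicValRat.div hbq hdq, padicValRat.of_int, padicValRat.of_int,
    padicValRat.of_int, padicValRat.of_int, hval, min_sub_sub_right]
  push_cast
  ring

theorem IsN.even_val {x : ℚ} (hx : IsN x) {q : ℕ} (hq : Inert q) : Even (padicValRat q x) := by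
  have := Fact.mk hq.1
  obtain ⟨hx0, c, e, rfl⟩ := hx
  by_cases hc : c = 0
  · have he : e ≠ 0 := by
      rintro rfl
      apply hx0
      rw [hc]
      ring
    have h1 : c ^ 2 - 2 * e ^ 2 = -(2 * (e * e)) := by
      rw [hc]
      ring
    have h2 : padicValRat q (2 : ℚ) = 0 := by
      have : padicValNat q 2 = 0 := by
        apply padicValNat.eq_zero_of_not_dvd
        intro h
        exact (NormAux.ne_two hq) ((Nat.prime_dvd_prime_iff_eq hq.1 Nat.prime_two).1 h)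
      have h3 : padicValRat q ((2 : ℕ) : ℚ) = (padicValNat q 2 : ℤ) := padicValRat.of_nat
      rw [this] at h3
      exact_mod_cast h3
    rw [h1, padicValRat.neg, padicValRat.mul two_ne_zero (mul_ne_zero he he),
      padicValRat.mul he he, h2, zero_add]
    exact ⟨_, rfl⟩
  · by_cases he : e = 0
    · have h1 : c ^ 2 - 2 * e ^ 2 = c * c := by
        rw [he]
        ring
      rw [h1, padicValRat.mul hc hc]
      exact ⟨_, rfl⟩
    · rw [val_normForm hq hc he]
      exact even_two_mul _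

theorem IsN.mul {x y : ℚ} (hx : IsN x) (hy : IsN y) : IsN (x * y) := by
  obtain ⟨hx0, c, e, hx⟩ := hx
  obtain ⟨hy0, c', e', hy⟩ := hy
  refine ⟨mul_ne_zero hx0 hy0, c * c' + 2 * e * e', c * e' + c' * e, ?_⟩
  rw [hx, hy]
  ring

theorem IsN.inv {x : ℚ} (hx : IsN x) : IsN x⁻¹ := by
  obtain ⟨hx0, c, e, hx⟩ := hx
  refine ⟨inv_ne_zero hx0, c / x, e / x, ?_⟩
  rw [div_pow, div_pow, ← mul_div_assoc, ← sub_div, ← hx, sq, ← div_div, div_self hx0, one_div]

theorem IsN.sq {x : ℚ} (hx : x ≠ 0) : IsN (x ^ 2) :=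
  ⟨pow_ne_zero _ hx, x, 0, by ring⟩

theorem IsN.neg {x : ℚ} (hx : IsN x) : IsN (-x) := by
  obtain ⟨hx0, c, e, hx⟩ := hx
  refine ⟨neg_ne_zero.2 hx0, c + 2 * e, c + e, ?_⟩
  rw [hx]
  ring

end Pool.Agent.H528R2
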