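import Pool.Agent.H528R2.Defs
import Pool.Agent.H528R2.NormVal
import Pool.Agent.H528R2.NormRep
import Pool.Agent.H528R2.Legendre

namespace Pool.Agent.H528R2

open NumberTheorySymbols in
/-- the symbol computation -/
lemma jacobi_calc {a r l : ℕ} (hao : Odd a) (hr : r % 8 = 1) (har : a.Coprime r)
    (hl8 : l % 8 = 1) (hla : (l : ℤ) % a = (r : ℤ) % a)
    (hlr : (l : ℤ) % r = (-2 * a : ℤ) % r) :
    J(((2 * a * r : ℕ) : ℤ) | l) = 1 := by
  have hro : Odd r := by rw [Nat.odd_iff]; omega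
  have hlo : Odd l := by rw [Nat.odd_iff]; omega
  have e1 : J((l : ℤ) | a) = J((r : ℤ) | a) := jacobiSym.mod_left' hla
  have e2 : J((l : ℤ) | r) = J((-2 * a : ℤ) | r) := jacobiSym.mod_left' hlr
  have e3 : J((a * r : ℤ) | l) = J((l : ℤ) | (a * r)) := by
    have := jacobiSym.quadratic_reciprocity_one_mod_four (a := l) (b := a * r) (by omega)
      (hao.mul hro)
    rw [this]; push_cast; rfl
  have e4 : J((2 : ℤ) | l) = 1 := by
    rw [jacobiSym.at_two hlo]
    rw [ZMod.χ₈_nat_mod_eight, hl8]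
    decide
  have e5 : J((2 : ℤ) | r) = 1 := by
    rw [jacobiSym.at_two hro]
    rw [ZMod.χ₈_nat_mod_eight, hr]
    decide
  have e6 : J((-1 : ℤ) | r) = 1 := by
    rw [jacobiSym.at_neg_one hro]
    rw [ZMod.χ₄_nat_one_mod_four (by omega)]
  have e7 : J((r : ℤ) | a) = J((a : ℤ) | r) :=
    jacobiSym.quadratic_reciprocity_one_mod_four (a := r) (b := a) (by omega) hao
  have e8 : J((r : ℤ) | a) * J((r : ℤ) | a) = 1 := by
    have := jacobiSym.sq_one (a := (r : ℤ)) (b := a) (by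
      rw [Int.gcd_natCast_natCast]; exact har.symm)
    rw [← this]; ring
  have e9 : J((-2 * a : ℤ) | r) = J((a : ℤ) | r) := by
    rw [show (-2 * a : ℤ) = -1 * (2 * a) by ring, jacobiSym.mul_left, jacobiSym.mul_left, e6, e5]
    ring
  calc J(((2 * a * r : ℕ) : ℤ) | l) = J((2 : ℤ) | l) * J((a * r : ℤ) | l) := by
        rw [← jacobiSym.mul_left]; congr 1; push_cast; ring
    _ = J((l : ℤ) | (a * r)) := by rw [e4, e3, one_mul]
    _ = J((l : ℤ) | a) * J((l : ℤ) | r) := by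
        have : NeZero a := ⟨by rintro rfl; simp at hao⟩
        have : NeZero r := ⟨by rintro rfl; simp at hro⟩
        rw [jacobiSym.mul_right]
    _ = 1 := by rw [e1, e2, e9, ← e7, e8]

lemma exists_l {a r : ℕ} (ha : a ≠ 0) (hao : Odd a) (hr : r % 8 = 1) (har : a.Coprime r) :
    ∃ l : ℕ, l.Prime ∧ a < l ∧ r < l ∧ l % 8 = 1 ∧ (l : ℤ) % a = (r : ℤ) % a ∧
      (l : ℤ) % r = (-2 * a : ℤ) % r := by
  have hro : Odd r := by rw [Nat.odd_iff]; omega
  have hr0 : r ≠ 0 := by rintro rfl; simp at hr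
  have h8 : Nat.Coprime 8 (a * r) := by
    rw [show (8 : ℕ) = 2 ^ 3 by norm_num]
    apply Nat.Coprime.pow_left
    rw [Nat.coprime_two_left]
    exact hao.mul hro
  -- a natural number congruent to -2a mod r
  obtain ⟨r', rfl⟩ : ∃ r', r = r' + 1 := ⟨r - 1, by omega⟩
  set c : ℕ := 2 * a * r' with hc
  have hcr : (c : ℤ) ≡ (-2 * a : ℤ) [ZMOD ((r' + 1 : ℕ) : ℤ)] := by
    rw [Int.modEq_iff_dvd]
    refine ⟨-(2 * a), ?_⟩
    rw [hc]; push_cast; ring
  have hcc : Nat.Coprime c (r' + 1) := by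
    rw [hc]
    apply Nat.Coprime.mul_left
    · apply Nat.Coprime.mul_left
      · rw [Nat.coprime_two_left]; exact hro
      · exact har
    · simp
  obtain ⟨x, hx1, hx2⟩ := Nat.chineseRemainder har (r' + 1) c
  obtain ⟨y, hy1, hy2⟩ := Nat.chineseRemainder h8 1 x
  have hya : y ≡ (r' + 1) [MOD a] := (hy2.of_mul_right (r' + 1)).trans hx1
  have hyr : y ≡ c [MOD (r' + 1)] := (hy2.of_mul_left a).trans hx2
  have : NeZero (8 * (a * (r' + 1))) := ⟨by positivity⟩
  have hcop : Nat.Coprime y (8 * (a * (r' + 1))) := by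
    apply Nat.Coprime.mul_right
    · rw [Nat.coprime_iff_gcd_eq_one, hy1.gcd_eq]; rfl
    · apply Nat.Coprime.mul_right
      · rw [Nat.coprime_iff_gcd_eq_one, hya.gcd_eq]; exact har.symm
      · rw [Nat.coprime_iff_gcd_eq_one, hyr.gcd_eq]; exact hcc
  have hu : IsUnit ((y : ℕ) : ZMod (8 * (a * (r' + 1)))) := by
    rw [ZMod.isUnit_iff_coprime]; exact hcop
  obtain ⟨l, hl1, hl2, hl3⟩ := Nat.forall_exists_prime_gt_and_eq_mod hu (a + (r' + 1))
  have hl4 : l ≡ y [MOD (8 * (a * (r' + 1)))] := (ZMod.natCast_eq_natCast_iff _ _ _).1 hl3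
  refine ⟨l, hl2, by omega, by omega, ?_, ?_, ?_⟩
  · have : l ≡ 1 [MOD 8] := (hl4.of_mul_right (a * (r' + 1))).trans hy1
    exact this
  · have : l ≡ (r' + 1) [MOD a] := ((hl4.of_mul_left 8).of_mul_right (r' + 1)).trans hya
    have := (Int.natCast_modEq_iff).2 this
    exact this
  · have : l ≡ c [MOD (r' + 1)] := ((hl4.of_mul_left 8).of_mul_left a).trans hyr
    exact ((Int.natCast_modEq_iff).2 this).trans hcr

theorem exists_repr {a r : ℕ} (ha : Squarefree a) (hao : Odd a) (hr : r % 8 = 1)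
    (har : a.Coprime r) : ∃ w : ℚ, IsN (r - 2 * a * w ^ 2) := by
  obtain ⟨r0, k, hk, hr0⟩ := Nat.sq_mul_squarefree r
  have hro : Odd r := by rw [Nat.odd_iff]; omega
  have hko : Odd k := by
    rw [← hk] at hro
    by_contra hne
    rw [Nat.not_odd_iff_even] at hne
    have h1 := (Nat.odd_mul.1 hro).1
    rw [← Nat.not_even_iff_odd] at h1
    exact h1 (hne.pow_of_ne_zero (by norm_num))
  have hr0o : Odd r0 := by
    rw [← hk] at hro
    exact (Nat.odd_mul.1 hro).2
  have hk8 : k ^ 2 % 8 = 1 := by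
    obtain ⟨m, rfl⟩ := hko
    have : (2 * m + 1) ^ 2 = 4 * (m * (m + 1)) + 1 := by ring
    rw [this]
    obtain ⟨t, ht⟩ := Nat.even_mul_succ_self m
    omega
  have hr08 : r0 % 8 = 1 := by
    have : (k ^ 2 * r0) % 8 = 1 := by rw [hk]; exact hr
    rw [Nat.mul_mod, hk8] at this
    omega
  have har0 : a.Coprime r0 := by
    rw [← hk] at har
    exact (Nat.coprime_mul_iff_right.1 har).2
  have ha0 : a ≠ 0 := ha.ne_zero
  obtain ⟨l, hl, hal, hrl, hl8, hla, hlr⟩ := exists_l ha0 hao hr08 har0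
  have : Fact l.Prime := ⟨hl⟩
  have hlo : Odd l := by rw [Nat.odd_iff]; omega
  have hlr' : (l : ℤ) ≡ -2 * a [ZMOD r0] := hlr
  have hla' : (l : ℤ) ≡ r0 [ZMOD a] := hla
  have hc1 : a.Coprime l := by
    rw [Nat.coprime_comm]
    exact (Nat.Prime.coprime_iff_not_dvd hl).2 (Nat.not_dvd_of_pos_of_lt (Nat.pos_of_ne_zero ha0) hal)
  have hc2 : r0.Coprime l := by
    rw [Nat.coprime_comm]
    exact (Nat.Prime.coprime_iff_not_dvd hl).2
      (Nat.not_dvd_of_pos_of_lt (Nat.pos_of_ne_zero hr0.ne_zero) hrl)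
  obtain ⟨x, y, z, hne, hxyz⟩ := legendre_special (r := r0) (a := a) (l := l) hr0 ha hl hr0o hao hlo
    har0.symm hc2 hc1
    (by
      intro p hp hpr
      have h : (l : ℤ) ≡ -2 * a [ZMOD p] := hlr'.of_dvd (by exact_mod_cast hpr)
      have h' : ((l : ℤ) : ZMod p) = ((-2 * a : ℤ) : ZMod p) := (ZMod.intCast_eq_intCast_iff _ _ _).2 h
      push_cast at h'
      refine ⟨2 * a, ?_⟩
      rw [h']; ring)
    (by
      intro p hp hpa
      have h : (l : ℤ) ≡ r0 [ZMOD p] := hla'.of_dvd (by exact_mod_cast hpa)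
      have h' : ((l : ℤ) : ZMod p) = ((r0 : ℤ) : ZMod p) := (ZMod.intCast_eq_intCast_iff _ _ _).2 h
      push_cast at h'
      refine ⟨r0, ?_⟩
      push_cast
      rw [h'])
    (by
      have h := jacobi_calc hao hr08 har0 hl8 hla hlr
      rw [← jacobiSym.legendreSym.to_jacobiSym] at h
      have h0 : ((((2 * a * r0 : ℕ) : ℤ)) : ZMod l) ≠ 0 := by
        intro h0
        rw [(legendreSym.eq_zero_iff l _).2 h0] at h
        exact zero_ne_one h
      have h2 := (legendreSym.eq_one_iff l h0).1 h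
      exact_mod_cast h2)
  have hxz : x ≠ 0 := by
    rintro rfl
    apply hne
    have h0 : (2 * a * y ^ 2 + l * z ^ 2 : ℤ) = 0 := by rw [← hxyz]; ring
    have h1 : (0 : ℤ) < a := by exact_mod_cast Nat.pos_of_ne_zero ha0
    have h2 : (0 : ℤ) < l := by exact_mod_cast hl.pos
    have h3 : (0 : ℤ) ≤ 2 * a * y ^ 2 := by positivity
    have h4 : (0 : ℤ) ≤ l * z ^ 2 := by positivity
    have h5 : (2 * a * y ^ 2 : ℤ) = 0 := by linarith
    have h6 : (l * z ^ 2 : ℤ) = 0 := by linarith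
    have h7 : y = 0 := by
      rcases mul_eq_zero.1 h5 with h | h
      · exfalso; linarith
      · exact pow_eq_zero_iff (by norm_num) |>.1 h
    have h8 : z = 0 := by
      rcases mul_eq_zero.1 h6 with h | h
      · exfalso; linarith
      · exact pow_eq_zero_iff (by norm_num) |>.1 h
    rw [h7, h8]
  have hz : z ≠ 0 := by
    rintro rfl
    have h0 : (r0 * x ^ 2 : ℤ) = 2 * a * y ^ 2 := by rw [hxyz]; ring
    have hy : y ≠ 0 := by
      rintro rfl
      have : (r0 * x ^ 2 : ℤ) = 0 := by rw [h0]; ring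
      rcases mul_eq_zero.1 this with h | h
      · exact hr0.ne_zero (by exact_mod_cast h)
      · exact hxz (pow_eq_zero_iff (by norm_num) |>.1 h)
    have : Fact (Nat.Prime 2) := ⟨Nat.prime_two⟩
    have h1 := congrArg (padicValInt 2) h0
    have hr0' : (r0 : ℤ) ≠ 0 := by exact_mod_cast hr0.ne_zero
    have ha0' : (a : ℤ) ≠ 0 := by exact_mod_cast ha0
    rw [padicValInt.mul hr0' (pow_ne_zero _ hxz), padicValInt.mul (mul_ne_zero two_ne_zero ha0')
      (pow_ne_zero _ hy), padicValInt.mul two_ne_zero ha0'] at h1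
    rw [pow_two, pow_two, padicValInt.mul hxz hxz, padicValInt.mul hy hy] at h1
    have h2 : padicValInt 2 (r0 : ℤ) = 0 := by
      rw [padicValInt.of_nat]
      exact padicValNat.eq_zero_of_not_dvd (by intro h; rw [Nat.odd_iff] at hr0o; omega)
    have h3 : padicValInt 2 (a : ℤ) = 0 := by
      rw [padicValInt.of_nat]
      exact padicValNat.eq_zero_of_not_dvd (by intro h; rw [Nat.odd_iff] at hao; omega)
    have h4 : padicValInt 2 (2 : ℤ) = 1 := by
      rw [show (2 : ℤ) = ((2 : ℕ) : ℤ) by norm_num, padicValInt.of_nat]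
      exact padicValNat.self (by norm_num)
    omega
  have hk0 : k ≠ 0 := by rintro rfl; simp at hko
  refine ⟨k * y / x, ?_⟩
  have hxq : (x : ℚ) ≠ 0 := by exact_mod_cast hxz
  have hzq : (z : ℚ) ≠ 0 := by exact_mod_cast hz
  have hkq : (k : ℚ) ≠ 0 := by exact_mod_cast hk0
  have key : ((r : ℚ) - 2 * a * (k * y / x) ^ 2) = l * (k * z / x) ^ 2 := by
    have h1 : (r0 * x ^ 2 : ℚ) = 2 * a * y ^ 2 + l * z ^ 2 := by exact_mod_cast hxyz
    have h2 : (r : ℚ) = k ^ 2 * r0 := by exact_mod_cast hk.symm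
    rw [h2]
    field_simp
    linear_combination h1
  rw [key]
  exact (isN_prime hl (Or.inr (Or.inl hl8))).mul (IsN.sq (by positivity))

end Pool.Agent.H528R2
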