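import Pool.Agent.H528R2.NormVal
import Pool.Agent.H528R2.NormRep
import Pool.Agent.H528R2.LOne

/-!
# A5: the meaning of `Test`
-/

set_option autoImplicit false

namespace Pool.Agent.H528R2

theorem ti_prime {q : ℕ} (hq : Inert q) : q.Prime := hq.1

theorem ti_odd {q : ℕ} (hq : Inert q) : Odd q := by
  rcases hq.2 with h | h
  · exact Nat.odd_iff.2 (by omega)
  · exact Nat.odd_iff.2 (by omega)

theorem ti_val_two_pow {q : ℕ} (hq : Inert q) (k : ℕ) :
    padicValRat q ((2 : ℚ) ^ k) = 0 := by
  have := Fact.mk hq.1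
  have h : padicValRat q (((2 ^ k : ℕ)) : ℚ) = 0 := by
    rw [padicValRat.of_nat]
    have : padicValNat q (2 ^ k) = 0 := by
      apply padicValNat.eq_zero_of_not_dvd
      intro h
      have h2 := hq.1.dvd_of_dvd_pow h
      have h3 := (Nat.prime_dvd_prime_iff_eq hq.1 Nat.prime_two).1 h2
      have := hq.2
      omega
    rw [this]; rfl
  simpa using h

/-- soundness of `T` -/
theorem ti_sound {N F : ℚ} (h : T N F) {q : ℕ} (hq : Inert q) (hodd : Odd (padicValRat q N)) :
    F = 0 ∨ padicValRat q N < 2 * padicValRat q F := by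
  have := Fact.mk hq.1
  have hN : N ≠ 0 := by
    rintro rfl
    rw [padicValRat.zero] at hodd
    exact absurd hodd (by decide)
  obtain ⟨w, hw⟩ := h
  by_cases hF : F = 0
  · exact Or.inl hF
  right
  by_contra hcon
  push Not at hcon
  have hD : F ^ 2 - 2 * w ^ 2 ≠ 0 := normForm_ne_zero (fun h => hF h.1)
  obtain ⟨k, hk, hkF⟩ : ∃ k : ℤ, padicValRat q (F ^ 2 - 2 * w ^ 2) = 2 * k ∧
      k ≤ padicValRat q F := by
    by_cases hw0 : w = 0
    · refine ⟨padicValRat q F, ?_, le_rfl⟩
      rw [hw0]
      have : F ^ 2 - 2 * (0 : ℚ) ^ 2 = F ^ 2 := by ring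
      rw [this, padicValRat.pow]
      norm_num
    · exact ⟨_, val_normForm hq hF hw0, min_le_left _ _⟩
  obtain ⟨j, hj⟩ := hodd
  have hlt : padicValRat q (F ^ 2 - 2 * w ^ 2) < padicValRat q N := by omega
  have hsum0 : N + (F ^ 2 - 2 * w ^ 2) ≠ 0 := by
    intro h0
    have h1 : N = -(F ^ 2 - 2 * w ^ 2) := by linarith
    have h2 : padicValRat q N = padicValRat q (F ^ 2 - 2 * w ^ 2) := by
      rw [h1, padicValRat.neg]
    omega
  have hval : padicValRat q (N + (F ^ 2 - 2 * w ^ 2)) = padicValRat q (F ^ 2 - 2 * w ^ 2) := by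
    rw [add_comm]
    rw [add_comm] at hsum0
    exact padicValRat.add_eq_of_lt hsum0 hD hN hlt
  have he := hw.even_val hq
  have hrw : N * (N + F ^ 2 - 2 * w ^ 2) = N * (N + (F ^ 2 - 2 * w ^ 2)) := by ring
  rw [hrw, padicValRat.mul hN hsum0, hval] at he
  obtain ⟨i, hi⟩ := he
  omega

/-- completeness of `T` -/
theorem ti_compl {a : ℕ} (ha : Squarefree a) (hao : Odd a) (g : ℤ) :
    T (64 * a) (32 * a * g) := by
  have ha0 : (a : ℚ) ≠ 0 := by
    have := ha.ne_zero
    exact_mod_cast this
  obtain ⟨w, hw⟩ := exists_repr (r := 1 + 16 * a * g.natAbs ^ 2) ha hao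
    (by
      have : 16 * a * g.natAbs ^ 2 = 8 * (2 * a * g.natAbs ^ 2) := by ring
      omega)
    (by
      have : 1 + 16 * a * g.natAbs ^ 2 = 1 + a * (16 * g.natAbs ^ 2) := by ring
      rw [this, Nat.coprime_add_mul_left_right]
      exact Nat.coprime_one_right a)
  refine ⟨8 * a * w, ?_⟩
  have h64 : (64 * a : ℚ) ≠ 0 := by positivity
  have := (IsN.sq h64).mul hw
  convert this using 1
  have hg : ((g.natAbs : ℕ) : ℚ) ^ 2 = (g : ℚ) ^ 2 := by
    have := Int.natAbs_sq g
    have h2 : ((g.natAbs : ℤ) : ℚ) ^ 2 = (g : ℚ) ^ 2 := by exact_mod_cast this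
    rwa [Int.cast_natCast] at h2
  push_cast
  rw [hg]
  ring

theorem ti_compl' {a : ℕ} (ha : Squarefree a) (hao : Odd a) : T (1 / (64 * a)) 1 := by
  have ha0 : (a : ℚ) ≠ 0 := by
    have := ha.ne_zero
    exact_mod_cast this
  obtain ⟨w, hw⟩ := exists_repr (r := 1 + 64 * a) ha hao
    (by omega)
    (by
      have : 1 + 64 * a = 1 + a * 64 := by ring
      rw [this, Nat.coprime_add_mul_left_right]
      exact Nat.coprime_one_right a)
  refine ⟨w / 8, ?_⟩
  have h64 : (1 / (64 * a) : ℚ) ≠ 0 := by positivity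
  have := (IsN.sq h64).mul hw
  convert this using 1
  push_cast
  field_simp
  ring

/-- products of distinct primes -/
theorem ti_prod_primes (S : Finset ℕ) (hS : ∀ q ∈ S, q.Prime) :
    Squarefree (∏ q ∈ S, q) ∧ ∀ q, q.Prime → (q ∣ (∏ q ∈ S, q) ↔ q ∈ S) := by
  classical
  induction S using Finset.induction_on with
  | empty =>
    refine ⟨by simp, ?_⟩
    intro q hq
    simp [hq.one_lt.ne']
  | insert p S hp ih =>
    obtain ⟨h1, h2⟩ := ih (fun q hq => hS q (Finset.mem_insert_of_mem hq))
    have hpp : p.Prime := hS p (Finset.mem_insert_self _ _)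
    rw [Finset.prod_insert hp]
    have hcop : Nat.Coprime p (∏ q ∈ S, q) := by
      rw [hpp.coprime_iff_not_dvd, h2 p hpp]
      exact hp
    refine ⟨?_, ?_⟩
    · rw [Nat.squarefree_mul hcop]
      exact ⟨hpp.prime.squarefree, h1⟩
    · intro q hq
      rw [hq.dvd_mul, h2 q hq, Finset.mem_insert, Nat.prime_dvd_prime_iff_eq hq hpp]

/-- the valuation of a squarefree number -/
theorem ti_val_squarefree {a : ℕ} (ha : Squarefree a) {q : ℕ} (hq : q.Prime) :
    padicValRat q (a : ℚ) = if q ∣ a then 1 else 0 := by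
  have := Fact.mk hq
  rw [padicValRat.of_nat]
  split_ifs with h
  · have h1 : padicValNat q a ≤ 1 := by
      have h2 := (Nat.squarefree_iff_factorization_le_one ha.ne_zero).1 ha q
      rwa [Nat.factorization_def a hq] at h2
    have h2 : 1 ≤ padicValNat q a := one_le_padicValNat_of_dvd ha.ne_zero h
    have h3 : padicValNat q a = 1 := le_antisymm h1 h2
    rw [h3]; rfl
  · rw [padicValNat.eq_zero_of_not_dvd h]; rfl

theorem test_iff {N F : ℚ} (hN : N ≠ 0) :
    Test N F ↔ ∀ q, Inert q → Odd (padicValRat q N) → Vge q 1 F := by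
  classical
  constructor
  · rintro ⟨ν, e, hν, h1, h2, h3⟩ q hq hodd
    have := Fact.mk hq.1
    have hν0 : ν ≠ 0 := hν.1
    have hNν : N * ν ≠ 0 := mul_ne_zero hN hν0
    obtain ⟨i, hi⟩ := hν.even_val hq
    have hodd' : Odd (padicValRat q (N * ν)) := by
      rw [padicValRat.mul hN hν0, hi]
      exact hodd.add_even ⟨i, rfl⟩
    have hpos : 0 < padicValRat q (N * ν) := by
      have h4 : Odd (padicValRat q (1 / (N * ν))) := by
        rw [one_div, padicValRat.inv]
        exact hodd'.neg
      rcases ti_sound h1 hq h4 with h5 | h5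
      · exact absurd h5 one_ne_zero
      · rw [one_div, padicValRat.inv, padicValRat.one] at h5
        omega
    have h32 : padicValRat q (32 : ℚ) = 0 := by
      have := ti_val_two_pow hq 5
      norm_num at this
      exact this
    have he : e ≠ 0 ∧ padicValRat q e = 0 := by
      rcases ti_sound h2 hq hodd' with h5 | h5
      · have : e = 1 := by linarith
        rw [this]
        exact ⟨one_ne_zero, padicValRat.one⟩
      · have he1 : e - 1 ≠ 0 := by
          intro h6
          rw [h6, mul_zero, padicValRat.zero] at h5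
          omega
        rw [padicValRat.mul (by norm_num) he1, h32] at h5
        have h6 : 0 < padicValRat q (e - 1) := by omega
        have he0 : e ≠ 0 := by
          rintro rfl
          have : (0 : ℚ) - 1 = -1 := by ring
          rw [this, padicValRat.neg, padicValRat.one] at h6
          omega
        refine ⟨he0, ?_⟩
        have h7 : padicValRat q (1 + (e - 1)) = padicValRat q (1 : ℚ) := by
          apply padicValRat.add_eq_of_lt
          · intro h; apply he0; linarith
          · exact one_ne_zero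
          · exact he1
          · rw [padicValRat.one]; exact h6
        have h8 : 1 + (e - 1) = e := by ring
        rw [h8, padicValRat.one] at h7
        exact h7
    rcases ti_sound h3 hq hodd' with h5 | h5
    · left
      have h32 : (32 : ℚ) * e ≠ 0 := mul_ne_zero (by norm_num) he.1
      exact (mul_eq_zero.1 h5).resolve_left h32
    · by_cases hF : F = 0
      · exact Or.inl hF
      right
      rw [padicValRat.mul (mul_ne_zero (by norm_num) he.1) hF,
        padicValRat.mul (by norm_num) he.1, h32, he.2] at h5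
      omega
  · intro h
    -- the product of the relevant primes
    set S : Finset ℕ := (N.num.natAbs * N.den).primeFactors.filter
      (fun q => Inert q ∧ Odd (padicValRat q N)) with hS
    have hSp : ∀ q ∈ S, q.Prime := by
      intro q hq
      rw [hS, Finset.mem_filter] at hq
      exact hq.2.1.1
    have hmem : ∀ q, q ∈ S ↔ (Inert q ∧ Odd (padicValRat q N)) := by
      intro q
      rw [hS, Finset.mem_filter]
      constructor
      · exact fun h => h.2
      · rintro ⟨hq, hodd⟩
        refine ⟨?_, hq, hodd⟩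
        have hnum : N.num.natAbs ≠ 0 := by
          rw [Int.natAbs_ne_zero]
          exact Rat.num_ne_zero.2 hN
        rw [Nat.mem_primeFactors]
        refine ⟨hq.1, ?_, mul_ne_zero hnum N.den_ne_zero⟩
        by_contra hnd
        rw [hq.1.dvd_mul, not_or] at hnd
        have h1 : padicValRat q N = 0 := by
          unfold padicValRat padicValInt
          rw [padicValNat.eq_zero_of_not_dvd hnd.1, padicValNat.eq_zero_of_not_dvd hnd.2]
          rfl
        rw [h1] at hodd
        exact absurd hodd (by decide)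
    set a : ℕ := ∏ q ∈ S, q with ha_def
    obtain ⟨ha, hdvd⟩ := ti_prod_primes S hSp
    rw [← ha_def] at ha hdvd
    have hao : Odd a := by
      rw [← Nat.not_even_iff_odd, even_iff_two_dvd, hdvd 2 Nat.prime_two, hmem]
      rintro ⟨⟨_, h1⟩, _⟩
      omega
    have ha0 : (a : ℚ) ≠ 0 := by
      have := ha.ne_zero
      exact_mod_cast this
    have h64 : (64 * a : ℚ) ≠ 0 := by positivity
    -- the norm
    have hν : IsN (64 * a / N) := by
      apply isN_of_even (div_ne_zero h64 hN)
      intro q hq
      have := Fact.mk hq.1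
      have h6 : padicValRat q (64 : ℚ) = 0 := by
        have := ti_val_two_pow hq 6
        norm_num at this
        exact this
      rw [padicValRat.div h64 hN, padicValRat.mul (by norm_num) ha0, h6,
        ti_val_squarefree ha hq.1]
      by_cases hqS : q ∈ S
      · rw [if_pos ((hdvd q hq.1).2 hqS)]
        obtain ⟨k, hk⟩ := ((hmem q).1 hqS).2
        rw [hk]
        exact ⟨-k, by ring⟩
      · rw [if_neg (fun h => hqS ((hdvd q hq.1).1 h))]
        have : ¬ Odd (padicValRat q N) := fun h => hqS ((hmem q).2 ⟨hq, h⟩)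
        rw [Int.not_odd_iff_even] at this
        obtain ⟨k, hk⟩ := this
        rw [hk]
        exact ⟨-k, by ring⟩
    have hNν : N * (64 * a / N) = 64 * a := by field_simp
    -- the primes of `a` divide the numerator of `F` and not its denominator
    have hF : ∀ q ∈ S, q ∣ F.num.natAbs ∧ ¬ q ∣ F.den := by
      intro q hq
      have hq' := (hmem q).1 hq
      have := Fact.mk hq'.1.1
      rcases h q hq'.1 hq'.2 with h1 | h1
      · rw [h1]
        refine ⟨by simp, ?_⟩
        have : (0 : ℚ).den = 1 := rfl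
        rw [this, Nat.dvd_one]
        exact hq'.1.1.one_lt.ne'
      · have h2 : 1 ≤ (padicValNat q F.num.natAbs : ℤ) - padicValNat q F.den := h1
        have h3 : q ∣ F.num.natAbs := by
          by_contra h4
          rw [padicValNat.eq_zero_of_not_dvd h4] at h2
          have h5 : (0 : ℤ) ≤ (padicValNat q F.den : ℤ) := Int.natCast_nonneg _
          rw [Nat.cast_zero] at h2
          linarith
        refine ⟨h3, ?_⟩
        intro h4
        have h5 := Nat.dvd_gcd h3 h4
        rw [F.reduced] at h5
        exact hq'.1.1.one_lt.ne' (Nat.dvd_one.1 h5)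
    have haF : (a : ℤ) ∣ F.num := by
      rw [Int.natCast_dvd]
      exact Finset.prod_primes_dvd _ (fun q hq => (hSp q hq).prime) (fun q hq => (hF q hq).1)
    have hcop : Nat.Coprime a F.den := by
      rw [Nat.Coprime, Nat.eq_one_iff_not_exists_prime_dvd]
      intro q hq hqd
      exact (hF q ((hdvd q hq).1 (hqd.trans (Nat.gcd_dvd_left _ _)))).2
        (hqd.trans (Nat.gcd_dvd_right _ _))
    have hcop' : IsCoprime (a : ℤ) (F.den : ℤ) := Nat.isCoprime_iff_coprime.2 hcop
    obtain ⟨u, v, huv⟩ := hcop'
    obtain ⟨c, hc⟩ := haF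
    refine ⟨64 * a / N, ((v * F.den : ℤ) : ℚ), hν, ?_, ?_, ?_⟩
    · rw [hNν]; exact ti_compl' ha hao
    · rw [hNν]
      have h1 : (32 : ℚ) * (((v * F.den : ℤ) : ℚ) - 1) = 32 * a * ((-u : ℤ) : ℚ) := by
        have h2 : ((v * F.den : ℤ) : ℚ) = 1 - ((u * a : ℤ) : ℚ) := by
          have h3 : (v * F.den : ℤ) = 1 - u * a := by linarith
          rw [h3]; push_cast; ring
        rw [h2]; push_cast; ring
      rw [h1]
      exact ti_compl ha hao _
    · rw [hNν]
      have h1 : (32 : ℚ) * ((v * F.den : ℤ) : ℚ) * F = 32 * a * ((v * c : ℤ) : ℚ) := by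
        have h2 : F * F.den = F.num := Rat.mul_den_eq_num F
        have h3 : ((F.num : ℤ) : ℚ) = a * c := by rw [hc]; push_cast; ring
        push_cast
        calc (32 : ℚ) * (v * F.den) * F = 32 * v * (F * F.den) := by ring
          _ = 32 * v * (a * c) := by rw [h2, h3]
          _ = _ := by ring
      rw [h1]
      exact ti_compl ha hao _

end Pool.Agent.H528R2
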