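import Pool.Agent.H528R2.NormVal
import Pool.Agent.H528R2.Rank
import Pool.Agent.H528R2.TestIff
import Pool.Agent.H528R2.CoreB

/-! modules used by the chain -/
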