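import Pool.Agent.H528R2.Val
import Pool.Agent.H528R2.Imp

/-!
# The atoms: what a divisibility test of the output of an array says about its index
-/

namespace Pool.Agent.H528R2.Chain

open Pool.Agent.H528R2

/-- the prime `t` is visible at the index `n` -/
def Vis (t : ℕ) (n : ℤ) : Prop := (rk t : ℤ) ∣ 8 * n

/-- the prime `t` is visible at the index `n`, with a higher multiplicity than at `M` -/
def Hi (t : ℕ) (M n : ℤ) : Prop := Vis t n ∧ padicValInt t M < padicValInt t n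

theorem inert_ne_two {t : ℕ} (ht : Inert t) : t ≠ 2 := by
  rintro rfl; rcases ht.2 with h | h <;> omega

theorem eight_ne {n : ℤ} (hn : n ≠ 0) : 8 * n ≠ 0 := by omega

theorem zz_ne {n : ℤ} (hn : n ≠ 0) : zz n ≠ 0 := (zz_pos hn).ne'

theorem val_zz_not_vis {t : ℕ} (ht : t.Prime) {n : ℤ} (hn : n ≠ 0) (h : ¬ Vis t n) :
    0 ≤ padicValRat t (zz (8 * n)) := by
  by_contra h'
  exact h ((dvd_iff ht (eight_ne hn)).2 (by omega))

theorem val_zz_vis {t : ℕ} (ht : t.Prime) {n : ℤ} (hn : n ≠ 0) (h : Vis t n) :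
    padicValRat t (zz (8 * n)) = -2 * dd t (8 * n) ∧
      padicValRat t (yy (8 * n)) = -3 * dd t (8 * n) ∧ 1 ≤ dd t (8 * n) :=
  val_zz ht (eight_ne hn) h

theorem valInt_eight {t : ℕ} (ht : Inert t) {n : ℤ} (hn : n ≠ 0) :
    padicValInt t (8 * n) = padicValInt t n := by
  have := Fact.mk ht.1
  rw [padicValInt.mul (by norm_num) hn]
  have : padicValInt t 8 = 0 := by
    rw [padicValInt.eq_zero_iff]
    right; right
    intro h
    have h2 : (t : ℤ) ∣ 2 ^ 3 := by simpa using h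
    have h3 : t ∣ 2 ^ 3 := by exact_mod_cast h2
    have h4 := (Nat.prime_dvd_prime_iff_eq ht.1 Nat.prime_two).1 (ht.1.dvd_of_dvd_pow h3)
    exact inert_ne_two ht h4
  omega

theorem dd_eight {t : ℕ} (ht : Inert t) {n : ℤ} (hn : n ≠ 0) (h : Vis t n) :
    dd t (8 * n) + padicValNat t (rk t) = dd t (rk t) + padicValInt t n := by
  rw [dd_eq ht.1 (eight_ne hn) h, valInt_eight ht hn]

theorem vge_inv {t : ℕ} (ht : t.Prime) {x : ℚ} (hx : x ≠ 0) {k : ℤ} :
    Vge t k (1 / x) ↔ padicValRat t x ≤ -k := by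
  unfold Vge
  rw [one_div, val_inv ht]
  constructor
  · rintro (h | h)
    · exact absurd (inv_eq_zero.1 h) hx
    · omega
  · intro h; right; omega

theorem inv_zz_iff {t : ℕ} (ht : t.Prime) {n : ℤ} (hn : n ≠ 0) :
    Vge t 1 (1 / zz (8 * n)) ↔ Vis t n := by
  rw [vge_inv ht (zz_ne (eight_ne hn)), Vis, dvd_iff ht (eight_ne hn)]
  omega

theorem w0_iff {t : ℕ} (ht : t.Prime) {M n : ℤ} (hn : n ≠ 0) :
    Vge t 1 (arrOf M n).w0 ↔ Vis t n := inv_zz_iff ht hn

theorem w1_iff {t : ℕ} (ht : t.Prime) {M n : ℤ} (hn : n ≠ M) :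
    Vge t 1 (arrOf M n).w1 ↔ Vis t (n - M) := inv_zz_iff ht (sub_ne_zero.2 hn)

theorem quot_iff {t : ℕ} (ht : Inert t) {M n : ℤ} (hM : M ≠ 0) (hn : n ≠ 0) (h : Vis t M) :
    Vge t 1 (zz (8 * M) / zz (8 * n)) ↔ Hi t M n := by
  have hzM := zz_ne (eight_ne hM)
  have hzn := zz_ne (eight_ne hn)
  have h1 := val_zz_vis ht.1 hM h
  unfold Vge Hi
  rw [val_div ht.1 hzM hzn]
  by_cases h2 : Vis t n
  · have h3 := val_zz_vis ht.1 hn h2
    have h4 := dd_eight ht hM h
    have h5 := dd_eight ht hn h2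
    constructor
    · rintro (h | h)
      · exact absurd h (div_ne_zero hzM hzn)
      · exact ⟨h2, by omega⟩
    · rintro ⟨-, h⟩
      right; omega
  · have h3 := val_zz_not_vis ht.1 hn h2
    constructor
    · rintro (h | h)
      · exact absurd h (div_ne_zero hzM hzn)
      · omega
    · rintro ⟨h, -⟩
      exact absurd h h2

theorem q0_iff {t : ℕ} (ht : Inert t) {M n : ℤ} (hM : M ≠ 0) (hn : n ≠ 0) (h : Vis t M) :
    Vge t 1 (arrOf M n).q0 ↔ Hi t M n := quot_iff ht hM hn h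

theorem q1_iff {t : ℕ} (ht : Inert t) {M n : ℤ} (hM : M ≠ 0) (hn : n ≠ M) (h : Vis t M) :
    Vge t 1 (arrOf M n).q1 ↔ Hi t M (n - M) := quot_iff ht hM (sub_ne_zero.2 hn) h

/-- value of an index: `n` for `false`, `n - M` for `true` -/
def sh (M n : ℤ) (b : Bool) : ℤ := if b then n - M else n

theorem q_iff {t : ℕ} (ht : Inert t) {M n : ℤ} (hM : M ≠ 0) (hn0 : n ≠ 0) (hn : n ≠ M)
    (h : Vis t M) (b : Bool) : Vge t 1 ((arrOf M n).q b) ↔ Hi t M (sh M n b) := by
  cases b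
  · exact q0_iff ht hM hn0 h
  · exact q1_iff ht hM hn h

theorem Vis.add {t : ℕ} {m n : ℤ} (hm : Vis t m) (hn : Vis t n) : Vis t (m + n) := by
  unfold Vis at *; rw [mul_add]; exact dvd_add hm hn

theorem Vis.sub {t : ℕ} {m n : ℤ} (hm : Vis t m) (hn : Vis t n) : Vis t (m - n) := by
  unfold Vis at *; rw [mul_sub]; exact dvd_sub hm hn

theorem Vis.of_dvd {t : ℕ} {m n : ℤ} (hm : Vis t m) (h : m ∣ n) : Vis t n :=
  hm.trans (mul_dvd_mul_left 8 h)

/-- `u^(v_u M + 1)` divides `n` -/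
theorem Hi.dvd {t : ℕ} {M n : ℤ} (h : Hi t M n) :
    ((t ^ (padicValInt t M + 1) : ℕ) : ℤ) ∣ n := by
  have h2 : ((t ^ padicValInt t n : ℕ) : ℤ) ∣ n := by
    have := @padicValInt_dvd t n
    simpa using this
  refine dvd_trans ?_ h2
  exact_mod_cast pow_dvd_pow t h.2

/-- a prime cannot be high for `n` and for `n - M` -/
theorem Hi.not_both {t : ℕ} (ht : Inert t) {M n : ℤ} (hM : M ≠ 0) (h : Hi t M n)
    (h' : Hi t M (n - M)) : False := by
  have h1 := h.dvd
  have h2 := h'.dvd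
  have h3 : ((t ^ (padicValInt t M + 1) : ℕ) : ℤ) ∣ M := by
    have := dvd_sub h1 h2
    simpa using this
  have := Fact.mk ht.1
  push_cast at h3
  rw [padicValInt_dvd_iff] at h3
  rcases h3 with h3 | h3
  · exact hM h3
  · omega

theorem not_dvd_of_hi {t : ℕ} (ht : Inert t) {M n : ℤ} (hM : M ≠ 0) (h : Hi t M n) :
    ¬ ((t ^ (padicValInt t M + 1) : ℕ) : ℤ) ∣ n - M := by
  intro h2
  have h1 := h.dvd
  have h3 : ((t ^ (padicValInt t M + 1) : ℕ) : ℤ) ∣ M := by
    have := dvd_sub h1 h2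
    simpa using this
  have := Fact.mk ht.1
  push_cast at h3
  rw [padicValInt_dvd_iff] at h3
  rcases h3 with h3 | h3
  · exact hM h3
  · omega

theorem not_dvd_of_hi' {t : ℕ} (ht : Inert t) {M n : ℤ} (hM : M ≠ 0) (h : Hi t M (n - M)) :
    ¬ ((t ^ (padicValInt t M + 1) : ℕ) : ℤ) ∣ n := by
  intro h2
  have h1 := h.dvd
  have h3 : ((t ^ (padicValInt t M + 1) : ℕ) : ℤ) ∣ M := by
    have := dvd_sub h2 h1
    simpa using this
  have := Fact.mk ht.1
  push_cast at h3
  rw [padicValInt_dvd_iff] at h3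
  rcases h3 with h3 | h3
  · exact hM h3
  · omega

/-! ### the functions `nrm`, `hst`, `Cval`, `Hval` -/

theorem sq_sub_two_ne (x : ℚ) : x ^ 2 - 2 ≠ 0 := by
  have := normForm_ne_zero (c := x) (e := 1) (by simp)
  simpa using this

theorem val_sq_sub_two {t : ℕ} (ht : Inert t) {x : ℚ} (hx : x ≠ 0) :
    padicValRat t (x ^ 2 - 2) = 2 * min (padicValRat t x) 0 := by
  have := val_normForm ht hx (one_ne_zero)
  simpa using this

theorem val_nrm {t : ℕ} (ht : Inert t) {x : ℚ} (hx : x ≠ 0) :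
    padicValRat t (nrm x) = 2 * max (padicValRat t x) 0 := by
  unfold nrm
  rw [val_div ht.1 (pow_ne_zero 2 hx) (sq_sub_two_ne x), val_sq_sub_two ht hx, val_pow ht.1]
  push_cast
  omega

theorem nrm_eq_zero {x : ℚ} : nrm x = 0 ↔ x = 0 := by
  unfold nrm
  rw [div_eq_zero_iff]
  constructor
  · rintro (h | h)
    · exact pow_eq_zero_iff (two_ne_zero) |>.1 h
    · exact absurd h (sq_sub_two_ne x)
  · rintro rfl; left; simp

theorem vge_nrm {t : ℕ} (ht : Inert t) (x : ℚ) : Vge t 0 (nrm x) := by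
  by_cases hx : x = 0
  · left; exact nrm_eq_zero.2 hx
  · right; rw [val_nrm ht hx]; omega

theorem vge_one_nrm {t : ℕ} (ht : Inert t) {x : ℚ} : Vge t 1 (nrm x) ↔ Vge t 1 x := by
  unfold Vge
  by_cases hx : x = 0
  · exact ⟨fun _ => Or.inl hx, fun _ => Or.inl (nrm_eq_zero.2 hx)⟩
  · rw [val_nrm ht hx, nrm_eq_zero]
    constructor
    · rintro (h | h)
      · exact Or.inl h
      · right; omega
    · rintro (h | h)
      · exact Or.inl h
      · right; omega

theorem vge_list_prod {t : ℕ} (ht : t.Prime) (l : List ℚ) (h : ∀ x ∈ l, Vge t 0 x) :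
    Vge t 0 l.prod := by
  induction l with
  | nil => simpa using vge_one t
  | cons a l ih =>
    rw [List.prod_cons]
    have := Vge.mul ht (h a (by simp)) (ih (fun x hx => h x (by simp [hx])))
    simpa using this

theorem vge_one_list_prod {t : ℕ} (ht : t.Prime) (l : List ℚ) (h : ∀ x ∈ l, Vge t 0 x) :
    Vge t 1 l.prod ↔ ∃ x ∈ l, Vge t 1 x := by
  induction l with
  | nil =>
    simp [Vge]
  | cons a l ih =>
    have ih := ih (fun x hx => h x (by simp [hx]))
    have ha := h a (by simp)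
    have hl := vge_list_prod ht l (fun x hx => h x (by simp [hx]))
    rw [List.prod_cons]
    constructor
    · intro h1
      by_cases h2 : Vge t 1 a
      · exact ⟨a, by simp, h2⟩
      · have h3 : Vge t 1 l.prod := by
          unfold Vge at h1 h2 ha ⊢
          push Not at h2
          by_cases h4 : l.prod = 0
          · exact Or.inl h4
          · rw [val_mul ht h2.1 h4] at h1
            have h5 := h1.resolve_left (mul_ne_zero h2.1 h4)
            have h6 := ha.resolve_left h2.1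
            right; omega
        obtain ⟨x, hx, hx'⟩ := ih.1 h3
        exact ⟨x, by simp [hx], hx'⟩
    · rintro ⟨x, hx, hx'⟩
      rcases List.mem_cons.1 hx with rfl | hx
      · simpa using Vge.mul ht hx' hl
      · simpa using Vge.mul ht ha (ih.2 ⟨x, hx, hx'⟩)

theorem vge_Cval {t : ℕ} (ht : Inert t) (cl : List ℚ) : Vge t 0 (Cval cl) := by
  apply vge_list_prod ht.1
  intro x hx
  obtain ⟨y, -, rfl⟩ := List.mem_map.1 hx
  exact vge_nrm ht y

theorem vge_one_Cval {t : ℕ} (ht : Inert t) (cl : List ℚ) :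
    Vge t 1 (Cval cl) ↔ ∃ x ∈ cl, Vge t 1 x := by
  unfold Cval
  rw [vge_one_list_prod ht.1]
  · constructor
    · rintro ⟨x, hx, h⟩
      obtain ⟨y, hy, rfl⟩ := List.mem_map.1 hx
      exact ⟨y, hy, (vge_one_nrm ht).1 h⟩
    · rintro ⟨x, hx, h⟩
      exact ⟨nrm x, List.mem_map.2 ⟨x, hx, rfl⟩, (vge_one_nrm ht).2 h⟩
  · intro x hx
    obtain ⟨y, -, rfl⟩ := List.mem_map.1 hx
    exact vge_nrm ht y

theorem val_hst {t : ℕ} (ht : Inert t) {N w w' : ℚ} (hN : N ≠ 0) (hw : w ≠ 0) (hw' : w' ≠ 0) :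
    hst N w w' ≠ 0 ∧ padicValRat t (hst N w w') =
      2 * max 0 (|padicValRat t N| - 2 * max (padicValRat t w) 0 - 2 * max (padicValRat t w') 0) := by
  have h1w : 1 / w ≠ 0 := one_div_ne_zero hw
  have h1w' : 1 / w' ≠ 0 := one_div_ne_zero hw'
  have hA := sq_sub_two_ne (1 / w)
  have hB := sq_sub_two_ne (1 / w')
  have hC := sq_sub_two_ne N
  unfold hst
  simp only
  set N' := N / (N ^ 2 - 2) with hN'
  set ζ := 1 / (((1 / w) ^ 2 - 2) * ((1 / w') ^ 2 - 2)) with hζ
  have hN'0 : N' ≠ 0 := div_ne_zero hN hC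
  have hζ0 : ζ ≠ 0 := one_div_ne_zero (mul_ne_zero hA hB)
  have hD : N' ^ 2 - 2 * ζ ^ 2 ≠ 0 := normForm_ne_zero (fun h => hN'0 h.1)
  have hvN : padicValRat t N' = |padicValRat t N| := by
    rw [hN', val_div ht.1 hN hC, val_sq_sub_two ht hN]
    rcases le_total 0 (padicValRat t N) with h | h
    · rw [abs_of_nonneg h]; omega
    · rw [abs_of_nonpos h]; omega
  have hvζ : padicValRat t ζ = 2 * max (padicValRat t w) 0 + 2 * max (padicValRat t w') 0 := by
    rw [hζ, val_div ht.1 one_ne_zero (mul_ne_zero hA hB), val_mul ht.1 hA hB,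
      val_sq_sub_two ht h1w, val_sq_sub_two ht h1w', val_div ht.1 one_ne_zero hw,
      val_div ht.1 one_ne_zero hw']
    simp only [padicValRat.one]
    omega
  refine ⟨div_ne_zero (pow_ne_zero 2 hN'0) hD, ?_⟩
  rw [val_div ht.1 (pow_ne_zero 2 hN'0) hD, val_normForm ht hN'0 hζ0, val_pow ht.1, hvN, hvζ]
  push_cast
  omega

end Pool.Agent.H528R2.Chain
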