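import Pool.Agent.H528R2.CurvePt
import Pool.Agent.H703R2.Desc.Trans

/-!
# `{Z ∈ □ ∪ 5□} = ℤ P0`: explicit 2-isogeny descent
-/

namespace Pool.Agent.H528R2

namespace Descent

open Pool.Agent.H703R2.Desc

/-- the points with coordinates given by `k, a, d` -/
def Good (M : ℤ) : Prop := ∀ k k' a d w : ℤ, (k = 1 ∧ k' = 65 ∨ k = 5 ∧ k' = 13) → 0 < a → 0 < d →
  0 < w → IsCoprime a d → w ^ 2 + 2 * a ^ 2 * d ^ 2 = k * a ^ 4 + k' * d ^ 4 → a ≤ M → d ≤ M →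
  ∀ Q : Pt, Q ≠ 0 → ptX Q = k * a ^ 2 / d ^ 2 → ∃ n : ℤ, Q = n • P0

/-- doubling -/
theorem halve_pt {a d w : ℤ} (ha : 0 < a) (hd : 0 < d) (hw : 0 < w) (hcad : IsCoprime a d)
    (h : w ^ 2 + 2 * a ^ 2 * d ^ 2 = a ^ 4 + 65 * d ^ 4) {Q : Pt} (hQ : Q ≠ 0)
    (hX : ptX Q = a ^ 2 / d ^ 2) :
    ∃ k k' A B v : ℤ, (k = 1 ∧ k' = 65 ∨ k = 5 ∧ k' = 13) ∧ 0 < A ∧ 0 < B ∧ 0 < v ∧
      IsCoprime A B ∧ v ^ 2 + 2 * A ^ 2 * B ^ 2 = k * A ^ 4 + k' * B ^ 4 ∧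
      (∀ M, a ≤ M → d ≤ M → A ^ 4 ≤ 36 * M ∧ B ^ 4 ≤ 36 * M) ∧
      ∃ Q' : Pt, Q' ≠ 0 ∧ ptX Q' = k * A ^ 2 / B ^ 2 ∧ (Q = Q' + Q' ∨ Q = -(Q' + Q')) := by
  obtain ⟨k, k', A, B, v, c, hk, hA, hB, hv, hAB, h1, hc, h2, h3⟩ := halve ha hd hw hcad h
  refine ⟨k, k', A, B, v, hk, hA, hB, hv, hAB, h1,
    fun M haM hdM => halve_height ha hd hk hA hB h1 hc h2 h3 haM hdM, ?_⟩
  have hk0 : (0 : ℚ) < k := by rcases hk with ⟨rfl, rfl⟩ | ⟨rfl, rfl⟩ <;> norm_num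
  have hkk : (k : ℚ) * k' = 65 := by rcases hk with ⟨rfl, rfl⟩ | ⟨rfl, rfl⟩ <;> norm_num
  have hA' : (0 : ℚ) < A := by exact_mod_cast hA
  have hB' : (0 : ℚ) < B := by exact_mod_cast hB
  have hv' : (0 : ℚ) < v := by exact_mod_cast hv
  have ha' : (0 : ℚ) < a := by exact_mod_cast ha
  have hd' : (0 : ℚ) < d := by exact_mod_cast hd
  have hc' : (0 : ℚ) < c := by rcases hc with rfl | rfl | rfl <;> norm_num
  have h1' : (v : ℚ) ^ 2 + 2 * A ^ 2 * B ^ 2 = k * A ^ 4 + k' * B ^ 4 := by exact_mod_cast h1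
  have h2' : (2 : ℚ) * A * B * v = c * d := by exact_mod_cast h2
  have h3' : ((k : ℚ) * A ^ 4 - k' * B ^ 4) ^ 2 = (c * a) ^ 2 := by
    rcases h3 with h3 | h3
    · have : (k : ℚ) * A ^ 4 - k' * B ^ 4 = c * a := by exact_mod_cast h3
      rw [this]
    · have : (k' : ℚ) * B ^ 4 - k * A ^ 4 = c * a := by exact_mod_cast h3
      rw [← this]; ring
  obtain ⟨Q', hQ', hX', hY'⟩ := exists_pt (z := (k : ℚ) * A ^ 2 / B ^ 2) (y := k * A * v / B ^ 3)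
    (by positivity) (by
      have hv2 : (v : ℚ) ^ 2 = k * A ^ 4 + k' * B ^ 4 - 2 * A ^ 2 * B ^ 2 := by linarith
      field_simp
      rw [hv2]
      linear_combination (B : ℚ) ^ 4 * hkk)
  refine ⟨Q', hQ', hX', ?_⟩
  have hYne : ptY Q' ≠ 0 := by rw [hY']; positivity
  obtain ⟨hd1, -, hd3, -⟩ := pt_dbl hQ' hYne
  have hXX : ptX (Q' + Q') = ptX Q := by
    rw [hd3, hX, hX', hY']
    have e1 : (((k : ℚ) * A ^ 2 / B ^ 2) ^ 2 - 65) / (2 * (k * A * v / B ^ 3)) =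
        (k * A ^ 4 - k' * B ^ 4) / (2 * A * B * v) := by
      field_simp
      linear_combination ((B : ℚ) ^ 4) * hkk
    rw [e1, h2', div_pow, h3']
    field_simp
  rcases (ptX_eq_iff hQ hd1).1 hXX.symm with h | h
  · exact Or.inl h
  · exact Or.inr h

theorem X0 : ptX P0 = 5 := rfl
theorem Y0 : ptY P0 = 20 := rfl
theorem P0_ne0 : P0 ≠ 0 := WeierstrassCurve.Affine.Point.some_ne_zero _

/-- the third point of the line through `Q` and `P0` -/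
theorem third {Q R : Pt} (hQ : Q ≠ 0) (hR : R ≠ 0) (h : ptX Q ≠ ptX R) :
    ∃ ν : ℚ, ptX Q * ptX R * ptX (Q + R) = ν ^ 2 := by
  obtain ⟨-, h2, -⟩ := pt_add hQ hR h
  have e1 := pt_eq hQ
  have e2 := pt_eq hR
  refine ⟨ptY Q - (ptY Q - ptY R) / (ptX Q - ptX R) * ptX Q, ?_⟩
  rw [h2]
  have hne : ptX Q - ptX R ≠ 0 := sub_ne_zero.2 h
  generalize ptX Q = x at *
  generalize ptX R = x' at *
  generalize ptY Q = y at *
  generalize ptY R = y' at *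
  field_simp
  linear_combination (x - x') * x' * e1 - (x - x') * x * e2

/-- rational squares in lowest terms -/
theorem exists_frac {t z : ℚ} (hz : z ≠ 0) (h : z = t ^ 2) :
    ∃ p q : ℤ, 0 < p ∧ 0 < q ∧ IsCoprime p q ∧ z = (p : ℚ) ^ 2 / (q : ℚ) ^ 2 := by
  have ht : t ≠ 0 := by rintro rfl; apply hz; rw [h]; norm_num
  refine ⟨|t.num|, t.den, abs_pos.2 (Rat.num_ne_zero.2 ht), by exact_mod_cast t.den_pos, ?_, ?_⟩
  · have h1 := t.reduced
    rw [Int.isCoprime_iff_gcd_eq_one, Int.gcd_eq_natAbs, Int.natAbs_abs, Int.natAbs_natCast]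
    exact h1
  · have h2 : ((|t.num| : ℤ) : ℚ) ^ 2 = (t.num : ℚ) ^ 2 := by
      rw [Int.cast_abs, sq_abs]
    rw [h2, h, ← div_pow]
    congr 1
    have := Rat.num_div_den t
    push_cast
    exact this.symm

theorem exists_w {k k' a d : ℤ} (hk : k = 1 ∧ k' = 65 ∨ k = 5 ∧ k' = 13) (ha : 0 < a) (hd : 0 < d)
    {Q : Pt} (hQ : Q ≠ 0) (hX : ptX Q = k * a ^ 2 / d ^ 2) :
    ∃ w : ℤ, 0 < w ∧ w ^ 2 + 2 * a ^ 2 * d ^ 2 = k * a ^ 4 + k' * d ^ 4 := by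
  have hk0 : (0 : ℚ) < k := by rcases hk with ⟨rfl, rfl⟩ | ⟨rfl, rfl⟩ <;> norm_num
  have hk'0 : (0 : ℚ) < k' := by rcases hk with ⟨rfl, rfl⟩ | ⟨rfl, rfl⟩ <;> norm_num
  have hkk : (k : ℚ) * k' = 65 := by rcases hk with ⟨rfl, rfl⟩ | ⟨rfl, rfl⟩ <;> norm_num
  have ha' : (0 : ℚ) < a := by exact_mod_cast ha
  have hd' : (0 : ℚ) < d := by exact_mod_cast hd
  have e := pt_eq hQ
  rw [hX] at e
  set t : ℚ := ptY Q * d ^ 3 / (k * a) with ht
  have h1 : t ^ 2 = ((k * a ^ 4 + k' * d ^ 4 - 2 * a ^ 2 * d ^ 2 : ℤ) : ℚ) := by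
    have : t ^ 2 = ptY Q ^ 2 * d ^ 6 / (k ^ 2 * a ^ 2) := by rw [ht]; field_simp
    rw [this, e]
    push_cast
    field_simp
    linear_combination (-(d : ℚ) ^ 4) * hkk
  have h2 : IsSquare (k * a ^ 4 + k' * d ^ 4 - 2 * a ^ 2 * d ^ 2) := by
    rw [← Rat.isSquare_intCast_iff]
    exact ⟨t, by rw [← h1]; ring⟩
  obtain ⟨u, hu⟩ := h2
  have hpos : 0 < k * a ^ 4 + k' * d ^ 4 - 2 * a ^ 2 * d ^ 2 := by
    have ha4 : 0 < a ^ 4 := by positivity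
    have hd4 : 0 < d ^ 4 := by positivity
    rcases hk with ⟨rfl, rfl⟩ | ⟨rfl, rfl⟩
    · nlinarith [sq_nonneg (a ^ 2 - d ^ 2)]
    · nlinarith [sq_nonneg (a ^ 2 - d ^ 2)]
  refine ⟨|u|, ?_, ?_⟩
  · rw [abs_pos]
    rintro rfl
    rw [hu] at hpos
    simp at hpos
  · rw [sq_abs]; linarith

theorem five_thirteen {a d : ℤ} (hcad : IsCoprime a d) : 5 * a ^ 2 ≠ 13 * d ^ 2 := by
  intro h
  have p13 : Prime (13 : ℤ) := Int.prime_iff_natAbs_prime.2 (by norm_num)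
  have h1 : (13 : ℤ) ∣ 5 * a ^ 2 := ⟨d ^ 2, h⟩
  have h2 : (13 : ℤ) ∣ a := by
    rcases p13.dvd_or_dvd h1 with h3 | h3
    · norm_num at h3
    · exact p13.dvd_of_dvd_pow h3
  obtain ⟨a', rfl⟩ := h2
  have h3 : d ^ 2 = 13 * (5 * a' ^ 2) := by
    have : 13 * d ^ 2 = 13 * (13 * (5 * a' ^ 2)) := by rw [← h]; ring
    exact mul_left_cancel₀ (by norm_num) this
  have h4 : (13 : ℤ) ∣ d := p13.dvd_of_dvd_pow (n := 2) ⟨5 * a' ^ 2, h3⟩
  exact not_both hcad (p := 13) (by norm_num) (by exact_mod_cast Dvd.intro _ rfl)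
    (by exact_mod_cast h4)

/-- translation by `± P0` -/
theorem trans_pt {a d w M : ℤ} (ha : 0 < a) (hd : 0 < d) (hcad : IsCoprime a d)
    (h : w ^ 2 + 2 * a ^ 2 * d ^ 2 = 5 * a ^ 4 + 13 * d ^ 4) (hne : a ≠ d) (haM : a ≤ M)
    (hdM : d ≤ M) {Q : Pt} (hQ : Q ≠ 0) (hX : ptX Q = 5 * a ^ 2 / d ^ 2) :
    ∃ R : Pt, R ≠ 0 ∧ (R = Q + P0 ∨ R = Q - P0) ∧ ∃ p q : ℤ, 0 < p ∧ 0 < q ∧ IsCoprime p q ∧
      ptX R = (p : ℚ) ^ 2 / (q : ℚ) ^ 2 ∧ 8 * p ^ 2 ≤ 13 * M ^ 2 ∧ 8 * q ^ 2 ≤ 13 * M ^ 2 := by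
  obtain ⟨hao, hdo⟩ := odd_odd hcad h
  have ha' : (0 : ℚ) < a := by exact_mod_cast ha
  have hd' : (0 : ℚ) < d := by exact_mod_cast hd
  have hXne : ptX Q ≠ ptX P0 := by
    rw [hX, X0]
    intro h1
    have h2 : (a : ℚ) ^ 2 = d ^ 2 := by
      field_simp at h1
      linarith
    have h3 : (a : ℚ) = d := (pow_left_inj₀ ha'.le hd'.le two_ne_zero).1 h2
    exact hne (by exact_mod_cast h3)
  have hXne' : ptX Q ≠ ptX (-P0) := by rwa [ptX_neg]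
  have hP0' : -P0 ≠ 0 := neg_ne_zero.2 P0_ne0
  have hR1 : Q + P0 ≠ 0 := (pt_add hQ P0_ne0 hXne).1
  have hR2 : Q - P0 ≠ 0 := by rw [sub_eq_add_neg]; exact (pt_add hQ hP0' hXne').1
  have had : (a : ℚ) ^ 2 - d ^ 2 ≠ 0 := by
    intro h1
    apply hXne
    rw [hX, X0]
    field_simp
    linarith
  have hprod := pt_prod hQ P0_ne0 hXne
  have hsum := pt_sum hQ P0_ne0 hXne
  rw [X0, hX] at hprod hsum
  have hprod' : ptX (Q + P0) * ptX (Q - P0) = ((5 * a ^ 2 - 13 * d ^ 2) / (a ^ 2 - d ^ 2)) ^ 2 := by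
    rw [hprod]
    congr 1
    have : (5 * (a : ℚ) ^ 2 / d ^ 2 - 5) = 5 * (a ^ 2 - d ^ 2) / d ^ 2 := by field_simp
    rw [this]
    field_simp
    ring
  have h513 : (5 : ℚ) * a ^ 2 - 13 * d ^ 2 ≠ 0 := by
    intro h1
    apply five_thirteen hcad
    have : (5 : ℚ) * a ^ 2 = 13 * d ^ 2 := by linarith
    exact_mod_cast this
  have hpne : ptX (Q + P0) * ptX (Q - P0) ≠ 0 := by
    rw [hprod']
    exact pow_ne_zero _ (div_ne_zero h513 had)
  have hXR1 : ptX (Q + P0) ≠ 0 := left_ne_zero_of_mul hpne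
  have hXR2 : ptX (Q - P0) ≠ 0 := right_ne_zero_of_mul hpne
  obtain ⟨p, q, hp, hq, hpq, e1⟩ : ∃ p q : ℤ, 0 < p ∧ 0 < q ∧ IsCoprime p q ∧
      ptX (Q + P0) = (p : ℚ) ^ 2 / (q : ℚ) ^ 2 := by
    obtain ⟨ν, hν⟩ := third hQ P0_ne0 hXne
    rw [hX, X0] at hν
    apply exists_frac hXR1 (t := ν * d / (5 * a))
    rw [div_pow, mul_pow, ← hν]
    field_simp
  obtain ⟨r, s, hr, hs, hrs, e2⟩ : ∃ p q : ℤ, 0 < p ∧ 0 < q ∧ IsCoprime p q ∧
      ptX (Q - P0) = (p : ℚ) ^ 2 / (q : ℚ) ^ 2 := by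
    obtain ⟨ν, hν⟩ := third hQ hP0' hXne'
    rw [hX, ptX_neg, X0, ← sub_eq_add_neg] at hν
    apply exists_frac hXR2 (t := ν * d / (5 * a))
    rw [div_pow, mul_pow, ← hν]
    field_simp
  have hp' : (0 : ℚ) < p := by exact_mod_cast hp
  have hq' : (0 : ℚ) < q := by exact_mod_cast hq
  have hr' : (0 : ℚ) < r := by exact_mod_cast hr
  have hs' : (0 : ℚ) < s := by exact_mod_cast hs
  have i1 : p ^ 2 * r ^ 2 * (a ^ 2 - d ^ 2) ^ 2 = q ^ 2 * s ^ 2 * (5 * a ^ 2 - 13 * d ^ 2) ^ 2 := by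
    have : (p : ℚ) ^ 2 * r ^ 2 * (a ^ 2 - d ^ 2) ^ 2 = q ^ 2 * s ^ 2 * (5 * a ^ 2 - 13 * d ^ 2) ^ 2 := by
      rw [e1, e2] at hprod'
      field_simp at hprod'
      linear_combination hprod'
    exact_mod_cast this
  have i2 : (p ^ 2 * s ^ 2 + r ^ 2 * q ^ 2) * (a ^ 2 - d ^ 2) ^ 2 =
      2 * (5 * a ^ 4 + 14 * a ^ 2 * d ^ 2 + 13 * d ^ 4) * (q ^ 2 * s ^ 2) := by
    have : ((p : ℚ) ^ 2 * s ^ 2 + r ^ 2 * q ^ 2) * (a ^ 2 - d ^ 2) ^ 2 =
        2 * (5 * a ^ 4 + 14 * a ^ 2 * d ^ 2 + 13 * d ^ 4) * (q ^ 2 * s ^ 2) := by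
      rw [e1, e2] at hsum
      have e5 : (5 * (a : ℚ) ^ 2 / d ^ 2 - 5) = 5 * (a ^ 2 - d ^ 2) / d ^ 2 := by field_simp
      rw [e5] at hsum
      field_simp at hsum
      linear_combination (1 / 5 : ℚ) * hsum
    exact_mod_cast this
  rcases trans_height ha hd hao hdo hne hp hq hr hs hpq hrs haM hdM i1 i2 with h3 | h3
  · exact ⟨Q + P0, hR1, Or.inl rfl, p, q, hp, hq, hpq, e1, h3⟩
  · exact ⟨Q - P0, hR2, Or.inr rfl, r, s, hr, hs, hrs, e2, h3⟩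

/-- `2 P0` and `3 P0` -/
theorem two_P0 : P0 + P0 ≠ 0 ∧ ptX (P0 + P0) = 1 ∧ ptY (P0 + P0) = -8 := by
  have h := pt_dbl P0_ne0 (by rw [Y0]; norm_num)
  obtain ⟨h1, h2, -, h4⟩ := h
  have h5 : ptX (P0 + P0) = 1 := by rw [h2, X0, Y0]; norm_num
  refine ⟨h1, h5, ?_⟩
  rw [h4, h5, X0, Y0]; norm_num

theorem three_P0 : P0 + P0 + P0 ≠ 0 ∧ ptX (P0 + P0 + P0) = 45 := by
  obtain ⟨h1, h2, h3⟩ := two_P0
  have h := pt_add h1 P0_ne0 (by rw [h2, X0]; norm_num)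
  refine ⟨h.1, ?_⟩
  rw [h.2.1, h2, h3, X0, Y0]; norm_num

theorem good_three : Good 3 := by
  intro k k' a d w hk ha hd hw hcad h haM hdM Q hQ hX
  have hw' : w ≤ 110 := by
    by_contra hcon
    push Not at hcon
    have h1 : 111 ^ 2 ≤ w ^ 2 := pow_le_pow_left₀ (by norm_num) (by omega) 2
    rcases hk with ⟨rfl, rfl⟩ | ⟨rfl, rfl⟩ <;> interval_cases a <;> interval_cases d <;> omega
  have base1 : ptX Q = 1 → ∃ n : ℤ, Q = n • P0 := by
    intro h1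
    obtain ⟨h2, h3, -⟩ := two_P0
    rcases (ptX_eq_iff hQ h2).1 (by rw [h1, h3]) with h4 | h4
    · exact ⟨2, by rw [h4, two_zsmul]⟩
    · exact ⟨-2, by rw [h4, neg_zsmul, two_zsmul]⟩
  have base5 : ptX Q = 5 → ∃ n : ℤ, Q = n • P0 := by
    intro h1
    rcases (ptX_eq_iff hQ P0_ne0).1 (by rw [h1, X0]) with h4 | h4
    · exact ⟨1, by rw [h4, one_zsmul]⟩
    · exact ⟨-1, by rw [h4, neg_zsmul, one_zsmul]⟩
  have base45 : ptX Q = 45 → ∃ n : ℤ, Q = n • P0 := by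
    intro h1
    obtain ⟨h2, h3⟩ := three_P0
    have e : (3 : ℤ) • P0 = P0 + P0 + P0 := by
      have : (3 : ℤ) = 2 + 1 := by norm_num
      rw [this, add_zsmul, two_zsmul, one_zsmul]
    rcases (ptX_eq_iff hQ h2).1 (by rw [h1, h3]) with h4 | h4
    · exact ⟨3, by rw [h4, e]⟩
    · exact ⟨-3, by rw [h4, neg_zsmul, e]⟩
  rcases hk with ⟨rfl, rfl⟩ | ⟨rfl, rfl⟩
  · interval_cases a <;> interval_cases d
    · exact base1 (by rw [hX]; norm_num)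
    · exfalso; revert h; clear hX hQ Q base1 base5 base45; interval_cases w <;> omega
    · exfalso; revert h; clear hX hQ Q base1 base5 base45; interval_cases w <;> omega
    · exfalso; revert h; clear hX hQ Q base1 base5 base45; interval_cases w <;> omega
    · exact base1 (by rw [hX]; norm_num)
    · exfalso; revert h; clear hX hQ Q base1 base5 base45; interval_cases w <;> omega
    · exfalso; revert h; clear hX hQ Q base1 base5 base45; interval_cases w <;> omega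
    · exfalso; revert h; clear hX hQ Q base1 base5 base45; interval_cases w <;> omega
    · exact base1 (by rw [hX]; norm_num)
  · interval_cases a <;> interval_cases d
    · exact base5 (by rw [hX]; norm_num)
    · exfalso; revert h; clear hX hQ Q base1 base5 base45; interval_cases w <;> omega
    · exfalso; revert h; clear hX hQ Q base1 base5 base45; interval_cases w <;> omega
    · exfalso; revert h; clear hX hQ Q base1 base5 base45; interval_cases w <;> omega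
    · exact base5 (by rw [hX]; norm_num)
    · exfalso; revert h; clear hX hQ Q base1 base5 base45; interval_cases w <;> omega
    · exact base45 (by rw [hX]; norm_num)
    · exfalso; revert h; clear hX hQ Q base1 base5 base45; interval_cases w <;> omega
    · exact base5 (by rw [hX]; norm_num)

/-- squares -/
theorem good_of_half {a d w M N : ℤ} (hG : Good N) (hN : 0 ≤ N) (ha : 0 < a) (hd : 0 < d)
    (hw : 0 < w) (hcad : IsCoprime a d) (h : w ^ 2 + 2 * a ^ 2 * d ^ 2 = a ^ 4 + 65 * d ^ 4)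
    (haM : a ≤ M) (hdM : d ≤ M) (hMN : 36 * M < (N + 1) ^ 4) {Q : Pt} (hQ : Q ≠ 0)
    (hX : ptX Q = a ^ 2 / d ^ 2) : ∃ n : ℤ, Q = n • P0 := by
  obtain ⟨k, k', A, B, v, hk, hA, hB, hv, hAB, h1, hb, Q', hQ', hX', hQQ⟩ :=
    halve_pt ha hd hw hcad h hQ hX
  obtain ⟨hb1, hb2⟩ := hb M haM hdM
  have hA' : A ≤ N := by
    have : A ^ 4 < (N + 1) ^ 4 := by linarith
    have := lt_of_pow_lt_pow_left₀ 4 (by linarith) this
    omega
  have hB' : B ≤ N := by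
    have : B ^ 4 < (N + 1) ^ 4 := by linarith
    have := lt_of_pow_lt_pow_left₀ 4 (by linarith) this
    omega
  obtain ⟨n, hn⟩ := hG k k' A B v hk hA hB hv hAB h1 hA' hB' Q' hQ' hX'
  rcases hQQ with h2 | h2
  · exact ⟨n + n, by rw [h2, hn, add_zsmul]⟩
  · exact ⟨-(n + n), by rw [h2, hn, neg_zsmul, add_zsmul]⟩

theorem good_step {N : ℤ} (hN : 3 ≤ N) (hG : Good N) : Good (N + 1) := by
  intro k k' a d w hk ha hd hw hcad h haM hdM Q hQ hX
  rcases hk with ⟨rfl, rfl⟩ | ⟨rfl, rfl⟩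
  · apply good_of_half hG (by linarith) ha hd hw hcad (by linarith) haM hdM _ hQ
      (by rw [hX]; push_cast; ring)
    have h1 : (4 : ℤ) ^ 3 ≤ (N + 1) ^ 3 := pow_le_pow_left₀ (by norm_num) (by linarith) 3
    have h2 : (N + 1) ^ 4 = (N + 1) ^ 3 * (N + 1) := by ring
    rw [h2]
    nlinarith
  · by_cases hne : a = d
    · subst hne
      have ha1 : a = 1 := by
        have h1 := Int.isUnit_iff.1 (isCoprime_self.1 hcad)
        omega
      subst ha1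
      exact good_three 5 13 1 1 w (by simp) ha hd hw hcad h (by norm_num) (by norm_num) Q hQ hX
    · obtain ⟨R, hR, hRQ, p, q, hp, hq, hpq, hXR, b1, b2⟩ := trans_pt ha hd hcad h hne haM hdM hQ
        (by rw [hX]; push_cast; ring)
      obtain ⟨w', hw', hw2⟩ := exists_w (k := 1) (k' := 65) (by simp) hp hq hR
        (by rw [hXR]; push_cast; ring)
      obtain ⟨n, hn⟩ : ∃ n : ℤ, R = n • P0 := by
        apply good_of_half (M := max p q) hG (by linarith) hp hq hw' hpq (by linarith)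
          (le_max_left _ _) (le_max_right _ _) _ hR hXR
        set m := max p q with hm
        have hm0 : 0 < m := lt_of_lt_of_le hp (le_max_left _ _)
        have hm2 : 8 * m ^ 2 ≤ 13 * (N + 1) ^ 2 := by
          rcases max_choice p q with h5 | h5 <;> rw [hm, h5] <;> assumption
        apply lt_of_pow_lt_pow_left₀ 2 (by positivity)
        have h1 : (4 : ℤ) ^ 6 ≤ (N + 1) ^ 6 := pow_le_pow_left₀ (by norm_num) (by linarith) 6
        have h2 : ((N + 1) ^ 4) ^ 2 = (N + 1) ^ 6 * (N + 1) ^ 2 := by ring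
        rw [h2]
        have h3 : 0 < (N + 1) ^ 2 := by positivity
        nlinarith
      rcases hRQ with h5 | h5
      · refine ⟨n - 1, ?_⟩
        rw [sub_zsmul, one_zsmul, ← hn, h5]; abel
      · refine ⟨n + 1, ?_⟩
        rw [add_zsmul, one_zsmul, ← hn, h5]; abel

theorem good_all (M : ℕ) : Good (M + 3) := by
  induction M with
  | zero => simpa using good_three
  | succ n ih =>
    have := good_step (by linarith [Int.natCast_nonneg n] : (3 : ℤ) ≤ (n : ℤ) + 3) ih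
    have e : ((n + 1 : ℕ) : ℤ) + 3 = (n : ℤ) + 3 + 1 := by push_cast; ring
    rw [e]; exact this

end Descent

open Descent in
/-- the points with `Z ∈ □ ∪ 5 □` are the multiples of `P0` -/
theorem generator {z y : ℚ} (hz : z ≠ 0) (h : y ^ 2 = z ^ 3 - 2 * z ^ 2 + 65 * z)
    (hsq : IsSquare z ∨ IsSquare (5 * z)) : ∃ n : ℤ, n ≠ 0 ∧ z = zz n ∧ y = yy n := by
  obtain ⟨Q, hQ, hXz, hYy⟩ := exists_pt hz h
  have key : ∀ k k' : ℤ, (k = 1 ∧ k' = 65 ∨ k = 5 ∧ k' = 13) → ∀ p q : ℤ, 0 < p → 0 < q →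
      IsCoprime p q → z = k * (p : ℚ) ^ 2 / (q : ℚ) ^ 2 → ∃ n : ℤ, Q = n • P0 := by
    intro k k' hk p q hp hq hpq hzz
    obtain ⟨w, hw, hw2⟩ := exists_w hk hp hq hQ (by rw [hXz, hzz])
    have hG := good_all (max p q).toNat
    have hm0 : 0 < max p q := lt_of_lt_of_le hp (le_max_left _ _)
    have hm : (((max p q).toNat : ℕ) : ℤ) = max p q := Int.toNat_of_nonneg hm0.le
    refine hG k k' p q w hk hp hq hw hpq hw2 ?_ ?_ Q hQ (by rw [hXz, hzz])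
    · rw [hm]; have := le_max_left p q; linarith
    · rw [hm]; have := le_max_right p q; linarith
  obtain ⟨n, hn⟩ : ∃ n : ℤ, Q = n • P0 := by
    rcases hsq with ⟨t, ht⟩ | ⟨t, ht⟩
    · obtain ⟨p, q, hp, hq, hpq, e⟩ := exists_frac hz (t := t) (by rw [ht]; ring)
      exact key 1 65 (by simp) p q hp hq hpq (by rw [e]; push_cast; ring)
    · obtain ⟨p, q, hp, hq, hpq, e⟩ := exists_frac (z := z / 5) (by positivity) (t := t / 5)
        (by rw [div_pow, sq t, ← ht]; ring)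
      refine key 5 13 (by simp) p q hp hq hpq ?_
      have : z = 5 * (z / 5) := by ring
      rw [this, e]; push_cast; ring
  refine ⟨n, ?_, ?_, ?_⟩
  · rintro rfl
    rw [zero_zsmul] at hn
    exact hQ hn
  · rw [zz, ← hn, hXz]
  · rw [yy, ← hn, hYy]

end Pool.Agent.H528R2
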