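import Pool.Agent.H528R2.QDefs

/-!
# Closure properties of relations over `ℚ` defined by systems of elementary constraints
-/

namespace Pool.Agent.H528R2

namespace Dio

open Pool.Agent.NPC

/-- renaming of variables -/
def ren (g : ℕ → ℕ) : ER.Tm → ER.Tm
  | .var i => .var (g i)
  | .zero => .zero
  | .one => .one
  | .add s t => .add (ren g s) (ren g t)
  | .neg t => .neg (ren g t)
  | .mul s t => .mul (ren g s) (ren g t)

theorem evalQ_ren (g : ℕ → ℕ) (v : ℕ → ℚ) (t : ER.Tm) :
    evalQ v (ren g t) = evalQ (fun n => v (g n)) t := by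
  induction t with
  | var i => rfl
  | zero => rfl
  | one => rfl
  | add s t hs ht => simp only [ren, evalQ, hs, ht]
  | neg t ht => simp only [ren, evalQ, ht]
  | mul s t hs ht => simp only [ren, evalQ, hs, ht]

/-- polynomial functions of the environment -/
def PF (f : (ℕ → ℚ) → ℚ) : Prop := ∃ t : ER.Tm, ∀ v, evalQ v t = f v

theorem PF.var (i : ℕ) : PF (fun v => v i) := ⟨.var i, fun _ => rfl⟩
theorem PF.zero : PF (fun _ => 0) := ⟨.zero, fun _ => rfl⟩
theorem PF.one : PF (fun _ => 1) := ⟨.one, fun _ => rfl⟩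

theorem PF.add {f g : (ℕ → ℚ) → ℚ} (hf : PF f) (hg : PF g) : PF (fun v => f v + g v) := by
  obtain ⟨s, hs⟩ := hf
  obtain ⟨t, ht⟩ := hg
  exact ⟨.add s t, fun v => by simp only [evalQ, hs, ht]⟩

theorem PF.mul {f g : (ℕ → ℚ) → ℚ} (hf : PF f) (hg : PF g) : PF (fun v => f v * g v) := by
  obtain ⟨s, hs⟩ := hf
  obtain ⟨t, ht⟩ := hg
  exact ⟨.mul s t, fun v => by simp only [evalQ, hs, ht]⟩

theorem PF.neg {f : (ℕ → ℚ) → ℚ} (hf : PF f) : PF (fun v => - f v) := by
  obtain ⟨s, hs⟩ := hf
  exact ⟨.neg s, fun v => by simp only [evalQ, hs]⟩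

theorem PF.sub {f g : (ℕ → ℚ) → ℚ} (hf : PF f) (hg : PF g) : PF (fun v => f v - g v) := by
  obtain ⟨s, hs⟩ := hf
  obtain ⟨t, ht⟩ := hg
  exact ⟨.add s (.neg t), fun v => by simp only [evalQ, hs, ht, sub_eq_add_neg]⟩

theorem PF.nat (n : ℕ) : PF (fun _ => (n : ℚ)) := by
  induction n with
  | zero =>
    obtain ⟨t, ht⟩ := PF.zero
    exact ⟨t, fun v => by rw [ht]; simp⟩
  | succ n ih =>
    obtain ⟨t, ht⟩ := ih.add PF.one
    exact ⟨t, fun v => by rw [ht]; simp⟩

theorem PF.lit (n : ℕ) [n.AtLeastTwo] : PF (fun _ => (OfNat.ofNat n : ℚ)) := PF.nat n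

theorem PF.pow {f : (ℕ → ℚ) → ℚ} (hf : PF f) (n : ℕ) : PF (fun v => f v ^ n) := by
  induction n with
  | zero =>
    obtain ⟨t, ht⟩ := PF.one
    exact ⟨t, fun v => by rw [ht]; simp⟩
  | succ n ih =>
    obtain ⟨t, ht⟩ := ih.mul hf
    exact ⟨t, fun v => by rw [ht]; exact (pow_succ _ _).symm⟩

theorem PF.ren {f : (ℕ → ℚ) → ℚ} (hf : PF f) (g : ℕ → ℕ) : PF (fun v => f (fun n => v (g n))) := by
  obtain ⟨t, ht⟩ := hf
  exact ⟨Dio.ren g t, fun v => by rw [evalQ_ren, ht]⟩

theorem PF.shift {f : (ℕ → ℚ) → ℚ} (hf : PF f) : PF (fun v => f (fun n => v (n + 1))) :=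
  hf.ren (fun n => n + 1)

/-- `v` at the even places, `u` at the odd places -/
def mix (v u : ℕ → ℚ) (n : ℕ) : ℚ := if n % 2 = 0 then v (n / 2) else u (n / 2)

theorem mix_even (v u : ℕ → ℚ) (n : ℕ) : mix v u (2 * n) = v n := by
  unfold mix
  rw [if_pos (by omega)]
  congr 1
  omega

theorem mix_odd (v u : ℕ → ℚ) (n : ℕ) : mix v u (2 * n + 1) = u n := by
  unfold mix
  rw [if_neg (by omega)]
  congr 1
  omega

/-- existentially defined relations, on environments -/
def DQ (R : (ℕ → ℚ) → Prop) : Prop := ∃ t : ER.Tm, ∀ v, R v ↔ ∃ u, evalQ (mix v u) t = 0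

theorem DQ.congr {R R' : (ℕ → ℚ) → Prop} (h : DQ R) (h' : ∀ v, R' v ↔ R v) : DQ R' := by
  obtain ⟨t, ht⟩ := h
  exact ⟨t, fun v => (h' v).trans (ht v)⟩

theorem DQ.eq {f g : (ℕ → ℚ) → ℚ} (hf : PF f) (hg : PF g) : DQ (fun v => f v = g v) := by
  obtain ⟨t, ht⟩ := hf.sub hg
  refine ⟨ren (fun n => 2 * n) t, fun v => ?_⟩
  have key : ∀ u, evalQ (mix v u) (ren (fun n => 2 * n) t) = f v - g v := by
    intro u
    rw [evalQ_ren]
    simp only [mix_even]
    exact ht v
  constructor
  · intro h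
    exact ⟨fun _ => 0, by rw [key, h, sub_self]⟩
  · rintro ⟨u, hu⟩
    rw [key] at hu
    linarith

/-- the environment of the first formula -/
def g1 (n : ℕ) : ℕ := if n % 2 = 0 then n else 2 * (2 * (n / 2)) + 1
/-- the environment of the second formula -/
def g2 (n : ℕ) : ℕ := if n % 2 = 0 then n else 2 * (2 * (n / 2) + 1) + 1

theorem mix_g1 (v u : ℕ → ℚ) (n : ℕ) :
    mix v u (g1 n) = mix v (fun m => u (2 * m)) n := by
  obtain ⟨m, rfl | rfl⟩ : ∃ m, n = 2 * m ∨ n = 2 * m + 1 := ⟨n / 2, by omega⟩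
  · rw [g1, if_pos (by omega), mix_even, mix_even]
  · have h : (2 * m + 1) / 2 = m := by omega
    rw [g1, if_neg (by omega), h, mix_odd, mix_odd]

theorem mix_g2 (v u : ℕ → ℚ) (n : ℕ) :
    mix v u (g2 n) = mix v (fun m => u (2 * m + 1)) n := by
  obtain ⟨m, rfl | rfl⟩ : ∃ m, n = 2 * m ∨ n = 2 * m + 1 := ⟨n / 2, by omega⟩
  · rw [g2, if_pos (by omega), mix_even, mix_even]
  · have h : (2 * m + 1) / 2 = m := by omega
    rw [g2, if_neg (by omega), h, mix_odd, mix_odd]

theorem evalQ_g1 (v u : ℕ → ℚ) (t : ER.Tm) :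
    evalQ (mix v u) (ren g1 t) = evalQ (mix v (fun m => u (2 * m))) t := by
  rw [evalQ_ren]
  congr 1
  funext n
  exact mix_g1 v u n

theorem evalQ_g2 (v u : ℕ → ℚ) (t : ER.Tm) :
    evalQ (mix v u) (ren g2 t) = evalQ (mix v (fun m => u (2 * m + 1))) t := by
  rw [evalQ_ren]
  congr 1
  funext n
  exact mix_g2 v u n

theorem DQ.and {R R' : (ℕ → ℚ) → Prop} (h : DQ R) (h' : DQ R') : DQ (fun v => R v ∧ R' v) := by
  obtain ⟨s, hs⟩ := h
  obtain ⟨t, ht⟩ := h'
  refine ⟨.add (.mul (ren g1 s) (ren g1 s)) (.mul (ren g2 t) (ren g2 t)), fun v => ?_⟩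
  have key : ∀ u, evalQ (mix v u)
      (.add (.mul (ren g1 s) (ren g1 s)) (.mul (ren g2 t) (ren g2 t))) =
        evalQ (mix v (fun m => u (2 * m))) s * evalQ (mix v (fun m => u (2 * m))) s +
        evalQ (mix v (fun m => u (2 * m + 1))) t * evalQ (mix v (fun m => u (2 * m + 1))) t := by
    intro u
    simp only [evalQ, evalQ_g1, evalQ_g2]
  change R v ∧ R' v ↔ _
  rw [hs, ht]
  constructor
  · rintro ⟨⟨a, ha⟩, ⟨b, hb⟩⟩
    refine ⟨mix a b, ?_⟩
    rw [key]
    simp only [mix_even, mix_odd, ha, hb]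
    norm_num
  · rintro ⟨u, hu⟩
    rw [key] at hu
    have h1 := mul_self_nonneg (evalQ (mix v (fun m => u (2 * m))) s)
    have h2 := mul_self_nonneg (evalQ (mix v (fun m => u (2 * m + 1))) t)
    exact ⟨⟨_, mul_self_eq_zero.1 (by linarith)⟩, ⟨_, mul_self_eq_zero.1 (by linarith)⟩⟩

theorem DQ.or {R R' : (ℕ → ℚ) → Prop} (h : DQ R) (h' : DQ R') : DQ (fun v => R v ∨ R' v) := by
  obtain ⟨s, hs⟩ := h
  obtain ⟨t, ht⟩ := h'
  refine ⟨.mul (ren g1 s) (ren g2 t), fun v => ?_⟩
  have key : ∀ u, evalQ (mix v u) (.mul (ren g1 s) (ren g2 t)) =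
        evalQ (mix v (fun m => u (2 * m))) s *
        evalQ (mix v (fun m => u (2 * m + 1))) t := by
    intro u
    simp only [evalQ, evalQ_g1, evalQ_g2]
  change R v ∨ R' v ↔ _
  rw [hs, ht]
  constructor
  · rintro (⟨a, ha⟩ | ⟨b, hb⟩)
    · refine ⟨mix a a, ?_⟩
      rw [key]
      simp only [mix_even, ha, zero_mul]
    · refine ⟨mix b b, ?_⟩
      rw [key]
      simp only [mix_odd, hb, mul_zero]
  · rintro ⟨u, hu⟩
    rw [key] at hu
    rcases mul_eq_zero.1 hu with h | h
    · exact Or.inl ⟨_, h⟩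
    · exact Or.inr ⟨_, h⟩

/-- moving one universal variable to the existential ones -/
def g3 (n : ℕ) : ℕ := if n = 0 then 1 else if n % 2 = 0 then n - 2 else n + 2

theorem DQ.ex {R : (ℕ → ℚ) → ℚ → Prop} (h : DQ (fun v => R (fun n => v (n + 1)) (v 0))) :
    DQ (fun v => ∃ a, R v a) := by
  obtain ⟨t, ht⟩ := h
  refine ⟨ren g3 t, fun v => ?_⟩
  have key : ∀ u : ℕ → ℚ, evalQ (mix v u) (ren g3 t) =
      evalQ (mix (fun n => if n = 0 then u 0 else v (n - 1)) (fun n => u (n + 1))) t := by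
    intro u
    rw [evalQ_ren]
    congr 1
    funext n
    obtain ⟨m, rfl | rfl⟩ : ∃ m, n = 2 * m ∨ n = 2 * m + 1 := ⟨n / 2, by omega⟩
    · rw [mix_even]
      rcases m with _ | m
      · rw [g3, if_pos (by omega), if_pos rfl]
        exact mix_odd v u 0
      · rw [g3, if_neg (by omega), if_pos (by omega), if_neg (by omega)]
        have : 2 * (m + 1) - 2 = 2 * m := by omega
        rw [this, mix_even]
        rfl
    · rw [g3, if_neg (by omega), if_neg (by omega), mix_odd]
      have : 2 * m + 1 + 2 = 2 * (m + 1) + 1 := by omega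
      rw [this, mix_odd]
  constructor
  · rintro ⟨a, ha⟩
    have h1 := (ht (fun n => if n = 0 then a else v (n - 1))).1 (by simpa using ha)
    obtain ⟨u, hu⟩ := h1
    refine ⟨fun n => if n = 0 then a else u (n - 1), ?_⟩
    rw [key]
    simpa using hu
  · rintro ⟨u, hu⟩
    rw [key] at hu
    have h1 := (ht (fun n => if n = 0 then u 0 else v (n - 1))).2 ⟨_, hu⟩
    exact ⟨u 0, by simpa using h1⟩

theorem DQ.ne {f g : (ℕ → ℚ) → ℚ} (hf : PF f) (hg : PF g) : DQ (fun v => f v ≠ g v) := by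
  have h : DQ (fun v => ∃ a, (f v - g v) * a = 1) :=
    DQ.ex (R := fun v a => (f v - g v) * a = 1)
      (DQ.eq ((hf.shift.sub hg.shift).mul (PF.var 0)) PF.one)
  refine h.congr fun v => ?_
  constructor
  · intro h
    exact ⟨(f v - g v)⁻¹, mul_inv_cancel₀ (sub_ne_zero.2 h)⟩
  · rintro ⟨a, ha⟩ h
    rw [h, sub_self, zero_mul] at ha
    exact zero_ne_one ha

theorem DQ.isSquare {f : (ℕ → ℚ) → ℚ} (hf : PF f) : DQ (fun v => IsSquare (f v)) :=
  DQ.ex (R := fun v a => f v = a * a) (DQ.eq hf.shift ((PF.var 0).mul (PF.var 0)))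

/-! ### from environments to systems of elementary constraints -/

/-- codes of terms -/
def code : ER.Tm → ℕ
  | .var i => Nat.pair 0 i
  | .zero => Nat.pair 1 0
  | .one => Nat.pair 2 0
  | .add s t => Nat.pair 3 (Nat.pair (code s) (code t))
  | .neg t => Nat.pair 4 (code t)
  | .mul s t => Nat.pair 5 (Nat.pair (code s) (code t))

theorem code_injective : Function.Injective code := by
  intro s
  induction s with
  | var i => intro t h; cases t <;> simp_all [code, Nat.pair_eq_pair]
  | zero => intro t h; cases t <;> simp_all [code, Nat.pair_eq_pair]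
  | one => intro t h; cases t <;> simp_all [code, Nat.pair_eq_pair]
  | add a b ha hb =>
    intro t h
    cases t <;> simp [code, Nat.pair_eq_pair] at h
    rw [ha h.1, hb h.2]
  | neg a ha =>
    intro t h
    cases t <;> simp [code, Nat.pair_eq_pair] at h
    rw [ha h]
  | mul a b ha hb =>
    intro t h
    cases t <;> simp [code, Nat.pair_eq_pair] at h
    rw [ha h.1, hb h.2]

/-- the variable holding the value of a term -/
def ix (k : ℕ) (t : ER.Tm) : ℕ := k + code t

/-- the constraints attached to a term -/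
def cons (k : ℕ) : ER.Tm → List ER.Con
  | .var _ => []
  | .zero => [.add (ix k .zero) (ix k .zero) (ix k .zero)]
  | .one => [.one (ix k .one)]
  | .add s t => .add (ix k s) (ix k t) (ix k (.add s t)) :: (cons k s ++ cons k t)
  | .neg t => .add (ix k t) (ix k (.neg t)) (ix k .zero) :: cons k t
  | .mul s t => .mul (ix k s) (ix k t) (ix k (.mul s t)) :: (cons k s ++ cons k t)

theorem cons_sound (k : ℕ) (v : ℕ → ℚ) (h0 : v (ix k .zero) = 0) (t : ER.Tm)
    (h : ∀ c ∈ cons k t, HoldsQ v c) : v (ix k t) = evalQ (fun i => v (ix k (.var i))) t := by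
  induction t with
  | var i => rfl
  | zero => exact h0
  | one => exact h _ (List.mem_singleton.2 rfl)
  | add s t hs ht =>
    have h1 := hs fun c hc => h c (List.mem_cons_of_mem _ (List.mem_append_left _ hc))
    have h2 := ht fun c hc => h c (List.mem_cons_of_mem _ (List.mem_append_right _ hc))
    have h3 := h _ List.mem_cons_self
    simp only [HoldsQ] at h3
    simp only [evalQ]
    rw [← h1, ← h2, h3]
  | neg t ht =>
    have h2 := ht fun c hc => h c (List.mem_cons_of_mem _ hc)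
    have h3 := h _ List.mem_cons_self
    simp only [HoldsQ, h0] at h3
    simp only [evalQ]
    rw [← h2]
    linarith
  | mul s t hs ht =>
    have h1 := hs fun c hc => h c (List.mem_cons_of_mem _ (List.mem_append_left _ hc))
    have h2 := ht fun c hc => h c (List.mem_cons_of_mem _ (List.mem_append_right _ hc))
    have h3 := h _ List.mem_cons_self
    simp only [HoldsQ] at h3
    simp only [evalQ]
    rw [← h1, ← h2, h3]

theorem cons_complete (k : ℕ) (v w : ℕ → ℚ) (hv : ∀ s, v (ix k s) = evalQ w s) (t : ER.Tm) :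
    ∀ c ∈ cons k t, HoldsQ v c := by
  induction t with
  | var i => intro c hc; simp [cons] at hc
  | zero =>
    intro c hc
    simp only [cons, List.mem_singleton] at hc
    subst hc
    simp [HoldsQ, hv, evalQ]
  | one =>
    intro c hc
    simp only [cons, List.mem_singleton] at hc
    subst hc
    simp [HoldsQ, hv, evalQ]
  | add s t hs ht =>
    intro c hc
    simp only [cons, List.mem_cons, List.mem_append] at hc
    rcases hc with rfl | hc | hc
    · simp [HoldsQ, hv, evalQ]
    · exact hs c hc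
    · exact ht c hc
  | neg t ht =>
    intro c hc
    simp only [cons, List.mem_cons] at hc
    rcases hc with rfl | hc
    · simp [HoldsQ, hv, evalQ]
    · exact ht c hc
  | mul s t hs ht =>
    intro c hc
    simp only [cons, List.mem_cons, List.mem_append] at hc
    rcases hc with rfl | hc | hc
    · simp [HoldsQ, hv, evalQ]
    · exact hs c hc
    · exact ht c hc

theorem DQ.dioQ {k : ℕ} {P : (Fin k → ℚ) → Prop} (h : DQ (fun v => P (fun i => v i))) :
    DioQ k P := by
  obtain ⟨t, ht⟩ := h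
  have hP : ∀ x : Fin k → ℚ, P x ↔ ∃ w : ℕ → ℚ, (∀ i : Fin k, w (2 * i) = x i) ∧ evalQ w t = 0 := by
    intro x
    constructor
    · intro hx
      have h1 := (ht (fun n => if h : n < k then x ⟨n, h⟩ else 0)).1 (by simpa using hx)
      obtain ⟨u, hu⟩ := h1
      exact ⟨_, fun i => by rw [mix_even]; simp, hu⟩
    · rintro ⟨w, hw, hw0⟩
      have h1 := (ht (fun n => w (2 * n))).2 ⟨fun n => w (2 * n + 1), by
        rw [← hw0]
        congr 1
        funext n
        obtain ⟨m, rfl | rfl⟩ : ∃ m, n = 2 * m ∨ n = 2 * m + 1 := ⟨n / 2, by omega⟩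
        · rw [mix_even]
        · rw [mix_odd]⟩
      have h2 : (fun i : Fin k => w (2 * (i : ℕ))) = x := funext hw
      simpa only [h2] using h1
  refine ⟨.add (ix k .zero) (ix k .zero) (ix k .zero) ::
    .add (ix k .zero) (ix k .zero) (ix k t) :: (cons k t ++
      (List.range k).map (fun i => .add (ix k .zero) i (ix k (.var (2 * i))))), fun x => ?_⟩
  rw [hP]
  constructor
  · rintro ⟨w, hw, hw0⟩
    obtain ⟨v', hx, hv⟩ : ∃ v' : ℕ → ℚ, (∀ i : Fin k, v' i = x i) ∧
        ∀ s, v' (ix k s) = evalQ w s := by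
      refine ⟨fun n => if h : n < k then x ⟨n, h⟩ else evalQ w (Function.invFun code (n - k)),
        fun i => by simp, fun s => ?_⟩
      have h1 : ¬ ix k s < k := by unfold ix; omega
      have h2 : ix k s - k = code s := by unfold ix; omega
      change (if h : ix k s < k then x ⟨ix k s, h⟩ else
        evalQ w (Function.invFun code (ix k s - k))) = evalQ w s
      rw [dif_neg h1, h2, Function.leftInverse_invFun code_injective s]
    refine ⟨v', hx, ?_⟩
    intro c hc
    simp only [List.mem_cons, List.mem_append, List.mem_map, List.mem_range] at hc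
    rcases hc with rfl | rfl | hc | ⟨i, hi, rfl⟩
    · simp only [HoldsQ, hv, evalQ, add_zero]
    · simp only [HoldsQ, hv, evalQ, add_zero, hw0]
    · exact cons_complete k _ w hv t c hc
    · simp only [HoldsQ, hv, evalQ, zero_add]
      rw [hw ⟨i, hi⟩]
      exact hx ⟨i, hi⟩
  · rintro ⟨v, hv, hc⟩
    have h0 : v (ix k .zero) = 0 := by
      have := hc _ List.mem_cons_self
      simp only [HoldsQ] at this
      linarith
    have h1 := hc _ (List.mem_cons_of_mem _ List.mem_cons_self)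
    have h2 := cons_sound k v h0 t fun c hc' =>
      hc c (List.mem_cons_of_mem _ (List.mem_cons_of_mem _ (List.mem_append_left _ hc')))
    refine ⟨fun i => v (ix k (.var i)), fun i => ?_, ?_⟩
    · have h3 := hc (.add (ix k .zero) i (ix k (.var (2 * i))))
        (List.mem_cons_of_mem _ (List.mem_cons_of_mem _ (List.mem_append_right _
          (List.mem_map.2 ⟨i, List.mem_range.2 i.2, rfl⟩))))
      simp only [HoldsQ, h0, zero_add] at h3
      simp only
      rw [← h3, hv]
    · simp only [HoldsQ, h0, zero_add] at h1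
      rw [← h2, ← h1]

end Dio

end Pool.Agent.H528R2
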