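import Pool.Agent.H528R2.QDefs
import Pool.Agent.H528R2.DioCore
import Pool.Agent.H528R2.CurvePt
import Pool.Agent.H528R2.ZZ
import Pool.Agent.H528R2.Descent

/-!
# The basic relations of the reduction are Diophantine over `ℚ`
-/

namespace Pool.Agent.H528R2

namespace Dio

/-! ### `√2` and `√5` are irrational -/

theorem not_isSquare_prime {p : ℕ} (hp : p.Prime) : ¬ IsSquare (p : ℚ) := by
  rw [Rat.isSquare_natCast_iff]
  exact hp.prime.not_isSquare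

theorem sq_ne_two (x : ℚ) : x ^ 2 - 2 ≠ 0 := by
  intro h
  apply not_isSquare_prime Nat.prime_two
  refine ⟨x, ?_⟩
  push_cast
  linarith [sq x]

theorem sq_ne_two_sq {x y : ℚ} (hy : y ≠ 0) : x ^ 2 - 2 * y ^ 2 ≠ 0 := by
  intro h
  apply sq_ne_two (x / y)
  field_simp
  linarith

theorem not_both {z : ℚ} (hz : z ≠ 0) (h1 : IsSquare z) (h5 : IsSquare (5 * z)) : False := by
  apply not_isSquare_prime Nat.prime_five
  have h : ((5 : ℕ) : ℚ) = 5 * z / z := by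
    push_cast
    field_simp
  rw [h]
  exact h5.div h1

/-! ### norms and tests -/

theorem dq_isN {f : (ℕ → ℚ) → ℚ} (hf : PF f) : DQ (fun v => IsN (f v)) := by
  unfold IsN
  refine (DQ.ne hf PF.zero).and (DQ.ex (DQ.ex ?_))
  exact DQ.eq hf.shift.shift (((PF.var _).pow 2).sub ((PF.lit 2).mul ((PF.var _).pow 2)))

theorem dq_T {f g : (ℕ → ℚ) → ℚ} (hf : PF f) (hg : PF g) : DQ (fun v => T (f v) (g v)) := by
  unfold T
  refine DQ.ex ?_
  exact dq_isN (hf.shift.mul ((hf.shift.add (hg.shift.pow 2)).sub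
    ((PF.lit 2).mul ((PF.var _).pow 2))))

theorem not_isN_zero : ¬ IsN 0 := fun h => h.1 rfl

theorem test_iff_ex (N F : ℚ) : Test N F ↔ ∃ ν e a : ℚ, IsN ν ∧ a * (N * ν) = 1 ∧ T a 1 ∧
    T (N * ν) (32 * (e - 1)) ∧ T (N * ν) (32 * e * F) := by
  constructor
  · rintro ⟨ν, e, h1, h2, h3, h4⟩
    have hN : N * ν ≠ 0 := by
      intro h0
      obtain ⟨w, hw⟩ := h2
      rw [h0, div_zero, zero_mul] at hw
      exact not_isN_zero hw
    exact ⟨ν, e, 1 / (N * ν), h1, by rw [one_div, inv_mul_cancel₀ hN], h2, h3, h4⟩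
  · rintro ⟨ν, e, a, h1, ha, h2, h3, h4⟩
    have : a = 1 / (N * ν) := eq_one_div_of_mul_eq_one_left ha
    subst this
    exact ⟨ν, e, h1, h2, h3, h4⟩

theorem dq_test {f g : (ℕ → ℚ) → ℚ} (hf : PF f) (hg : PF g) : DQ (fun v => Test (f v) (g v)) := by
  refine DQ.congr ?_ (fun v => test_iff_ex (f v) (g v))
  refine DQ.ex (DQ.ex (DQ.ex ?_))
  refine (dq_isN (PF.var _)).and ?_
  refine (DQ.eq ((PF.var _).mul (hf.shift.shift.shift.mul (PF.var _))) PF.one).and ?_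
  refine (dq_T (PF.var _) PF.one).and ?_
  refine (dq_T (hf.shift.shift.shift.mul (PF.var _))
    ((PF.lit 32).mul ((PF.var _).sub PF.one))).and ?_
  exact dq_T (hf.shift.shift.shift.mul (PF.var _))
    (((PF.lit 32).mul (PF.var _)).mul hg.shift.shift.shift)

theorem dq_NT {f g : (ℕ → ℚ) → ℚ} (hf : PF f) (hg : PF g) : DQ (fun v => NT (f v) (g v)) := by
  unfold NT
  exact (DQ.eq hf PF.zero).or (dq_test hf hg)

/-! ### `nrm` and `hst` -/

theorem eq_nrm_iff (x y : ℚ) : y = nrm x ↔ y * (x ^ 2 - 2) = x ^ 2 := by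
  unfold nrm
  exact eq_div_iff (sq_ne_two x)

theorem dq_nrm {f g : (ℕ → ℚ) → ℚ} (hf : PF f) (hg : PF g) : DQ (fun v => g v = nrm (f v)) := by
  refine DQ.congr ?_ (fun v => eq_nrm_iff (f v) (g v))
  exact DQ.eq (hg.mul ((hf.pow 2).sub (PF.lit 2))) (hf.pow 2)

theorem eq_one_div_iff (w a : ℚ) : a = 1 / w ↔ w * a = 1 ∨ (w = 0 ∧ a = 0) := by
  by_cases hw : w = 0
  · subst hw
    simp
  · rw [eq_div_iff hw, mul_comm]
    simp [hw]

theorem dq_inv {f g : (ℕ → ℚ) → ℚ} (hf : PF f) (hg : PF g) : DQ (fun v => g v = 1 / f v) := by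
  refine DQ.congr ?_ (fun v => eq_one_div_iff (f v) (g v))
  exact (DQ.eq (hf.mul hg) PF.one).or ((DQ.eq hf PF.zero).and (DQ.eq hg PF.zero))

theorem eq_hst_iff (N w w' y : ℚ) : y = hst N w w' ↔ ∃ a b N' ζ : ℚ, a = 1 / w ∧ b = 1 / w' ∧
    N' * (N ^ 2 - 2) = N ∧ ζ * ((a ^ 2 - 2) * (b ^ 2 - 2)) = 1 ∧
    y * (N' ^ 2 - 2 * ζ ^ 2) = N' ^ 2 := by
  have h1 := sq_ne_two (1 / w)
  have h2 := sq_ne_two (1 / w')
  have h3 := sq_ne_two N
  have h4 : 1 / (((1 / w) ^ 2 - 2) * ((1 / w') ^ 2 - 2)) ≠ 0 :=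
    one_div_ne_zero (mul_ne_zero h1 h2)
  have key : y = hst N w w' ↔ y * ((N / (N ^ 2 - 2)) ^ 2 -
      2 * (1 / (((1 / w) ^ 2 - 2) * ((1 / w') ^ 2 - 2))) ^ 2) = (N / (N ^ 2 - 2)) ^ 2 := by
    unfold hst
    exact eq_div_iff (sq_ne_two_sq h4)
  rw [key]
  constructor
  · intro h
    exact ⟨_, _, N / (N ^ 2 - 2), 1 / (((1 / w) ^ 2 - 2) * ((1 / w') ^ 2 - 2)), rfl, rfl,
      div_mul_cancel₀ _ h3, one_div_mul_cancel (mul_ne_zero h1 h2), h⟩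
  · rintro ⟨a, b, N', ζ, rfl, rfl, h5, h6, h7⟩
    rw [(div_eq_iff h3).2 h5.symm, ← eq_one_div_of_mul_eq_one_left h6]
    exact h7

theorem dq_hst {f g h k : (ℕ → ℚ) → ℚ} (hf : PF f) (hg : PF g) (hh : PF h) (hk : PF k) :
    DQ (fun v => k v = hst (f v) (g v) (h v)) := by
  refine DQ.congr ?_ (fun v => eq_hst_iff (f v) (g v) (h v) (k v))
  refine DQ.ex (DQ.ex (DQ.ex (DQ.ex ?_)))
  refine (dq_inv hg.shift.shift.shift.shift (PF.var _)).and ?_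
  refine (dq_inv hh.shift.shift.shift.shift (PF.var _)).and ?_
  refine (DQ.eq ((PF.var _).mul ((hf.shift.shift.shift.shift.pow 2).sub (PF.lit 2)))
    hf.shift.shift.shift.shift).and ?_
  refine (DQ.eq ((PF.var _).mul ((((PF.var _).pow 2).sub (PF.lit 2)).mul
    (((PF.var _).pow 2).sub (PF.lit 2)))) PF.one).and ?_
  exact DQ.eq (hk.shift.shift.shift.shift.mul (((PF.var _).pow 2).sub
    ((PF.lit 2).mul ((PF.var _).pow 2)))) ((PF.var _).pow 2)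

/-! ### the curve -/

/-- affine points of the curve other than `(0, 0)` -/
def On (z y : ℚ) : Prop := z ≠ 0 ∧ y ^ 2 = z ^ 3 - 2 * z ^ 2 + 65 * z

theorem dq_On {f g : (ℕ → ℚ) → ℚ} (hf : PF f) (hg : PF g) : DQ (fun v => On (f v) (g v)) := by
  unfold On
  exact (DQ.ne hf PF.zero).and (DQ.eq (hg.pow 2)
    (((hf.pow 3).sub ((PF.lit 2).mul (hf.pow 2))).add ((PF.lit 65).mul hf)))

theorem zz_on {n : ℤ} (hn : n ≠ 0) : On (zz n) (yy n) :=
  ⟨(zz_pos hn).ne', pt_eq (smul_P0_ne hn)⟩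

theorem even_iff {n : ℤ} (hn : n ≠ 0) : Even n ↔ IsSquare (zz n) := by
  constructor
  · exact sq_even
  · intro h
    by_contra h'
    exact not_both (zz_on hn).1 h (sq_odd (Int.not_even_iff_odd.1 h'))

theorem odd_iff {n : ℤ} (hn : n ≠ 0) : Odd n ↔ IsSquare (5 * zz n) := by
  constructor
  · exact sq_odd
  · intro h
    by_contra h'
    exact not_both (zz_on hn).1 (sq_even (Int.not_odd_iff_even.1 h')) h

theorem gam_iff (z y : ℚ) : (∃ n : ℤ, n ≠ 0 ∧ z = zz n ∧ y = yy n) ↔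
    On z y ∧ (IsSquare z ∨ IsSquare (5 * z)) := by
  constructor
  · rintro ⟨n, hn, rfl, rfl⟩
    refine ⟨zz_on hn, ?_⟩
    rcases Int.even_or_odd n with h | h
    · exact Or.inl (sq_even h)
    · exact Or.inr (sq_odd h)
  · rintro ⟨⟨hz, h⟩, hs⟩
    exact generator hz h hs

/-- doubling of a point -/
def Dbl (x y x' y' : ℚ) : Prop :=
  ∃ l : ℚ, l * (2 * y) = 3 * x ^ 2 - 4 * x + 65 ∧ x' = l ^ 2 + 2 - 2 * x ∧
    y' = - (l * (x' - x) + y)

theorem dq_Dbl {f g h k : (ℕ → ℚ) → ℚ} (hf : PF f) (hg : PF g) (hh : PF h) (hk : PF k) :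
    DQ (fun v => Dbl (f v) (g v) (h v) (k v)) := by
  unfold Dbl
  refine DQ.ex ?_
  refine (DQ.eq ((PF.var _).mul ((PF.lit 2).mul hg.shift))
    ((((PF.lit 3).mul (hf.shift.pow 2)).sub ((PF.lit 4).mul hf.shift)).add (PF.lit 65))).and ?_
  refine (DQ.eq hh.shift ((((PF.var _).pow 2).add (PF.lit 2)).sub
    ((PF.lit 2).mul hf.shift))).and ?_
  exact DQ.eq hk.shift ((((PF.var _).mul (hh.shift.sub hf.shift)).add hg.shift).neg)

theorem dbl_iff {n : ℤ} (hn : n ≠ 0) (x' y' : ℚ) :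
    Dbl (zz n) (yy n) x' y' ↔ x' = zz (2 * n) ∧ y' = yy (2 * n) := by
  have hP : n • P0 ≠ 0 := smul_P0_ne hn
  have hy : ptY (n • P0) ≠ 0 := yy_ne hn
  obtain ⟨-, h1, -, h2⟩ := pt_dbl hP hy
  have h3 : n • P0 + n • P0 = (2 * n) • P0 := by rw [two_mul, add_zsmul]
  rw [h3] at h1 h2
  change zz (2 * n) = _ at h1
  change yy (2 * n) = _ at h2
  unfold Dbl
  change ptY (n • P0) ≠ 0 at hy
  change (∃ l : ℚ, l * (2 * ptY (n • P0)) = 3 * ptX (n • P0) ^ 2 - 4 * ptX (n • P0) + 65 ∧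
    x' = l ^ 2 + 2 - 2 * ptX (n • P0) ∧ y' = - (l * (x' - ptX (n • P0)) + ptY (n • P0))) ↔ _
  have hy2 : 2 * ptY (n • P0) ≠ 0 := mul_ne_zero two_ne_zero hy
  constructor
  · rintro ⟨l, hl, rfl, rfl⟩
    have : l = (3 * ptX (n • P0) ^ 2 - 4 * ptX (n • P0) + 65) / (2 * ptY (n • P0)) :=
      (eq_div_iff hy2).2 hl
    rw [← this] at h1 h2
    refine ⟨h1.symm, ?_⟩
    rw [h2]
    change _ = -(l * (zz (2 * n) - ptX (n • P0)) + ptY (n • P0))
    rw [h1]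
  · rintro ⟨rfl, rfl⟩
    exact ⟨_, div_mul_cancel₀ _ hy2, h1, h2⟩

/-- multiplication by `8` -/
def Oct (x y a b : ℚ) : Prop :=
  ∃ x1 y1 x2 y2 : ℚ, Dbl x y x1 y1 ∧ Dbl x1 y1 x2 y2 ∧ Dbl x2 y2 a b

theorem dq_Oct {f g h k : (ℕ → ℚ) → ℚ} (hf : PF f) (hg : PF g) (hh : PF h) (hk : PF k) :
    DQ (fun v => Oct (f v) (g v) (h v) (k v)) := by
  unfold Oct
  refine DQ.ex (DQ.ex (DQ.ex (DQ.ex ?_)))
  refine (dq_Dbl hf.shift.shift.shift.shift hg.shift.shift.shift.shift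
    (PF.var _) (PF.var _)).and ?_
  refine (dq_Dbl (PF.var _) (PF.var _) (PF.var _) (PF.var _)).and ?_
  exact dq_Dbl (PF.var _) (PF.var _) hh.shift.shift.shift.shift hk.shift.shift.shift.shift

theorem oct_iff {n : ℤ} (hn : n ≠ 0) (a b : ℚ) :
    Oct (zz n) (yy n) a b ↔ a = zz (8 * n) ∧ b = yy (8 * n) := by
  have h2 : 2 * n ≠ 0 := mul_ne_zero two_ne_zero hn
  have h4 : 2 * (2 * n) ≠ 0 := mul_ne_zero two_ne_zero h2
  have h8 : 2 * (2 * (2 * n)) = 8 * n := by ring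
  constructor
  · rintro ⟨x1, y1, x2, y2, h, h', h''⟩
    obtain ⟨rfl, rfl⟩ := (dbl_iff hn _ _).1 h
    obtain ⟨rfl, rfl⟩ := (dbl_iff h2 _ _).1 h'
    obtain ⟨rfl, rfl⟩ := (dbl_iff h4 _ _).1 h''
    rw [h8]
    exact ⟨rfl, rfl⟩
  · rintro ⟨rfl, rfl⟩
    refine ⟨zz (2 * n), yy (2 * n), zz (2 * (2 * n)), yy (2 * (2 * n)),
      (dbl_iff hn _ _).2 ⟨rfl, rfl⟩, (dbl_iff h2 _ _).2 ⟨rfl, rfl⟩, (dbl_iff h4 _ _).2 ?_⟩
    rw [h8]
    exact ⟨rfl, rfl⟩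

/-- the chord formula -/
def Chd (x1 y1 x2 y2 x y : ℚ) : Prop :=
  ∃ l : ℚ, l * (x1 - x2) = y1 - y2 ∧ x = l ^ 2 + 2 - x1 - x2 ∧ y = - (l * (x - x1) + y1)

theorem dq_Chd {f1 g1 f2 g2 f g : (ℕ → ℚ) → ℚ} (hf1 : PF f1) (hg1 : PF g1) (hf2 : PF f2)
    (hg2 : PF g2) (hf : PF f) (hg : PF g) :
    DQ (fun v => Chd (f1 v) (g1 v) (f2 v) (g2 v) (f v) (g v)) := by
  unfold Chd
  refine DQ.ex ?_
  refine (DQ.eq ((PF.var _).mul (hf1.shift.sub hf2.shift)) (hg1.shift.sub hg2.shift)).and ?_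
  refine (DQ.eq hf.shift (((((PF.var _).pow 2).add (PF.lit 2)).sub hf1.shift).sub
    hf2.shift)).and ?_
  exact DQ.eq hg.shift ((((PF.var _).mul (hf.shift.sub hf1.shift)).add hg1.shift).neg)

theorem chd_iff {m n : ℤ} (hm : m ≠ 0) (hn : n ≠ 0) (h : zz m ≠ zz n) (x y : ℚ) :
    Chd (zz m) (yy m) (zz n) (yy n) x y ↔ x = zz (m + n) ∧ y = yy (m + n) := by
  have hP : m • P0 ≠ 0 := smul_P0_ne hm
  have hQ : n • P0 ≠ 0 := smul_P0_ne hn
  obtain ⟨-, h1, h2⟩ := pt_add hP hQ h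
  have h3 : m • P0 + n • P0 = (m + n) • P0 := by rw [add_zsmul]
  rw [h3] at h1 h2
  change zz (m + n) = ((yy m - yy n) / (zz m - zz n)) ^ 2 + 2 - zz m - zz n at h1
  change yy (m + n) = -((yy m - yy n) / (zz m - zz n) * (zz (m + n) - zz m) + yy m) at h2
  have hy2 : zz m - zz n ≠ 0 := sub_ne_zero.2 h
  constructor
  · rintro ⟨l, hl, rfl, rfl⟩
    have : l = (yy m - yy n) / (zz m - zz n) := (eq_div_iff hy2).2 hl
    rw [← this] at h1 h2
    refine ⟨h1.symm, ?_⟩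
    rw [h2, h1]
  · rintro ⟨rfl, rfl⟩
    exact ⟨_, div_mul_cancel₀ _ hy2, h1, h2⟩

/-! ### the two relations -/

theorem baseRel_iff (z y w : ℚ) : BaseRel z y w ↔
    On z y ∧ IsSquare (5 * z) ∧ ∃ a b : ℚ, Oct z y a b ∧ w * a = 1 := by
  constructor
  · rintro ⟨M, hM, rfl, rfl, rfl⟩
    have hM0 : M ≠ 0 := by rintro rfl; simp at hM
    have h8 : (8 : ℤ) * M ≠ 0 := mul_ne_zero (by norm_num) hM0
    exact ⟨zz_on hM0, sq_odd hM, _, _, (oct_iff hM0 _ _).2 ⟨rfl, rfl⟩,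
      one_div_mul_cancel (zz_on h8).1⟩
  · rintro ⟨⟨hz, h⟩, hs, a, b, ho, hw⟩
    obtain ⟨n, hn, rfl, rfl⟩ := generator hz h (Or.inr hs)
    obtain ⟨rfl, rfl⟩ := (oct_iff hn _ _).1 ho
    exact ⟨n, (odd_iff hn).2 hs, rfl, rfl, eq_one_div_of_mul_eq_one_left hw⟩

theorem dq_base {f g h : (ℕ → ℚ) → ℚ} (hf : PF f) (hg : PF g) (hh : PF h) :
    DQ (fun v => BaseRel (f v) (g v) (h v)) := by
  refine DQ.congr ?_ (fun v => baseRel_iff (f v) (g v) (h v))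
  refine (dq_On hf hg).and ((DQ.isSquare ((PF.lit 5).mul hf)).and (DQ.ex (DQ.ex ?_)))
  refine (dq_Oct hf.shift.shift hg.shift.shift (PF.var _) (PF.var _)).and ?_
  exact DQ.eq (hh.shift.shift.mul (PF.var _)) PF.one

/-- the parity condition on the point -/
def ParQ (p : ℕ) (x : ℚ) : Prop := (p = 1 → IsSquare (5 * x)) ∧ (p = 2 → IsSquare x)

theorem par_iff (p : ℕ) {n : ℤ} (hn : n ≠ 0) : Par p n ↔ ParQ p (zz n) := by
  unfold Par ParQ
  rw [even_iff hn, odd_iff hn]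

theorem DQ.true : DQ (fun _ => True) :=
  (DQ.eq PF.zero PF.zero).congr fun _ => by simp

theorem dq_par (p : ℕ) {f : (ℕ → ℚ) → ℚ} (hf : PF f) : DQ (fun v => ParQ p (f v)) := by
  unfold ParQ
  refine DQ.and ?_ ?_
  · by_cases h : p = 1
    · exact (DQ.isSquare ((PF.lit 5).mul hf)).congr fun v => by simp [h]
    · exact DQ.true.congr fun v => by simp [h]
  · by_cases h : p = 2
    · exact (DQ.isSquare hf).congr fun v => by simp [h]
    · exact DQ.true.congr fun v => by simp [h]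

theorem arrRel_iff (p : ℕ) (z y a0 a1 w0 w1 q0 q1 : ℚ) :
    ArrRel p z y ⟨a0, a1, w0, w1, q0, q1⟩ ↔
      On z y ∧ (IsSquare z ∨ IsSquare (5 * z)) ∧ ∃ v u : ℚ, On v u ∧
        (IsSquare v ∨ IsSquare (5 * v)) ∧ v ≠ z ∧ ∃ x x' : ℚ, Chd v u z y x x' ∧ ParQ p x ∧
          ∃ a b c d e f : ℚ, Oct z y a b ∧ Oct v u c d ∧ Oct x x' e f ∧
            a0 * f = e ∧ w0 * e = 1 ∧ q0 * e = a ∧ a1 * d = c ∧ w1 * c = 1 ∧ q1 * c = a := by
  constructor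
  · rintro ⟨M, n, hM, hn, hnM, hn2, hp, rfl, rfl, hA⟩
    have hV : n - M ≠ 0 := sub_ne_zero.2 hnM
    have hne : zz (n - M) ≠ zz M := by
      rw [Ne, zz_eq_iff hV hM]
      rintro (h | h)
      · exact hn2 (by linarith)
      · exact hn (by linarith)
    have h8n : (8 : ℤ) * n ≠ 0 := mul_ne_zero (by norm_num) hn
    have h8V : (8 : ℤ) * (n - M) ≠ 0 := mul_ne_zero (by norm_num) hV
    have hX : n - M + M = n := by ring
    unfold arrOf at hA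
    simp only [Arr.mk.injEq] at hA
    obtain ⟨rfl, rfl, rfl, rfl, rfl, rfl⟩ := hA
    have g1 := (gam_iff _ _).1 ⟨M, hM, rfl, rfl⟩
    have g2 := (gam_iff _ _).1 ⟨n - M, hV, rfl, rfl⟩
    refine ⟨g1.1, g1.2, zz (n - M), yy (n - M), g2.1, g2.2, hne, zz n, yy n,
      (chd_iff hV hM hne _ _).2 (by rw [hX]; exact ⟨rfl, rfl⟩), (par_iff p hn).1 hp,
      zz (8 * M), yy (8 * M), zz (8 * (n - M)), yy (8 * (n - M)), zz (8 * n), yy (8 * n),
      (oct_iff hM _ _).2 ⟨rfl, rfl⟩, (oct_iff hV _ _).2 ⟨rfl, rfl⟩,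
      (oct_iff hn _ _).2 ⟨rfl, rfl⟩, ?_, ?_, ?_, ?_, ?_, ?_⟩
    · exact div_mul_cancel₀ _ (yy_ne h8n)
    · exact one_div_mul_cancel (zz_on h8n).1
    · exact div_mul_cancel₀ _ (zz_on h8n).1
    · exact div_mul_cancel₀ _ (yy_ne h8V)
    · exact one_div_mul_cancel (zz_on h8V).1
    · exact div_mul_cancel₀ _ (zz_on h8V).1
  · rintro ⟨h1, h2, v, u, h3, h4, hvz, x, x', hc, hp, a, b, c, d, e, f, o1, o2, o3,
      e1, e2, e3, e4, e5, e6⟩
    obtain ⟨M, hM, rfl, rfl⟩ := (gam_iff _ _).2 ⟨h1, h2⟩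
    obtain ⟨k, hk, rfl, rfl⟩ := (gam_iff _ _).2 ⟨h3, h4⟩
    obtain ⟨rfl, rfl⟩ := (chd_iff hk hM hvz _ _).1 hc
    have hvz' := hvz
    rw [Ne, zz_eq_iff hk hM, not_or] at hvz'
    have hn : k + M ≠ 0 := fun h => hvz'.2 (by linarith)
    obtain ⟨rfl, rfl⟩ := (oct_iff hM _ _).1 o1
    obtain ⟨rfl, rfl⟩ := (oct_iff hk _ _).1 o2
    obtain ⟨rfl, rfl⟩ := (oct_iff hn _ _).1 o3
    have h8n : (8 : ℤ) * (k + M) ≠ 0 := mul_ne_zero (by norm_num) hn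
    have h8V : (8 : ℤ) * k ≠ 0 := mul_ne_zero (by norm_num) hk
    have hX : k + M - M = k := by ring
    refine ⟨M, k + M, hM, hn, fun h => hk (by linarith), fun h => hvz'.1 (by linarith),
      (par_iff p hn).2 hp, rfl, rfl, ?_⟩
    unfold arrOf
    rw [hX, Arr.mk.injEq]
    exact ⟨(eq_div_iff (yy_ne h8n)).2 e1, (eq_div_iff (yy_ne h8V)).2 e4,
      (eq_div_iff (zz_on h8n).1).2 e2, (eq_div_iff (zz_on h8V).1).2 e5,
      (eq_div_iff (zz_on h8n).1).2 e3, (eq_div_iff (zz_on h8V).1).2 e6⟩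

theorem dq_arr (p : ℕ) {z y a0 a1 w0 w1 q0 q1 : (ℕ → ℚ) → ℚ} (hz : PF z) (hy : PF y)
    (ha0 : PF a0) (ha1 : PF a1) (hw0 : PF w0) (hw1 : PF w1) (hq0 : PF q0) (hq1 : PF q1) :
    DQ (fun v => ArrRel p (z v) (y v) ⟨a0 v, a1 v, w0 v, w1 v, q0 v, q1 v⟩) := by
  refine DQ.congr ?_ (fun v => arrRel_iff p _ _ _ _ _ _ _ _)
  refine (dq_On hz hy).and (((DQ.isSquare hz).or (DQ.isSquare ((PF.lit 5).mul hz))).and ?_)
  refine DQ.ex (DQ.ex ?_)
  refine (dq_On (PF.var _) (PF.var _)).and (((DQ.isSquare (PF.var _)).or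
    (DQ.isSquare ((PF.lit 5).mul (PF.var _)))).and ((DQ.ne (PF.var _) hz.shift.shift).and ?_))
  replace hz := hz.shift.shift
  replace hy := hy.shift.shift
  replace ha0 := ha0.shift.shift
  replace ha1 := ha1.shift.shift
  replace hw0 := hw0.shift.shift
  replace hw1 := hw1.shift.shift
  replace hq0 := hq0.shift.shift
  replace hq1 := hq1.shift.shift
  refine DQ.ex (DQ.ex ?_)
  replace hz := hz.shift.shift
  replace hy := hy.shift.shift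
  replace ha0 := ha0.shift.shift
  replace ha1 := ha1.shift.shift
  replace hw0 := hw0.shift.shift
  replace hw1 := hw1.shift.shift
  replace hq0 := hq0.shift.shift
  replace hq1 := hq1.shift.shift
  refine (dq_Chd (PF.var _) (PF.var _) hz hy (PF.var _) (PF.var _)).and
    ((dq_par p (PF.var _)).and ?_)
  refine DQ.ex (DQ.ex (DQ.ex (DQ.ex (DQ.ex (DQ.ex ?_)))))
  replace hz := hz.shift.shift.shift.shift.shift.shift
  replace hy := hy.shift.shift.shift.shift.shift.shift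
  replace ha0 := ha0.shift.shift.shift.shift.shift.shift
  replace ha1 := ha1.shift.shift.shift.shift.shift.shift
  replace hw0 := hw0.shift.shift.shift.shift.shift.shift
  replace hw1 := hw1.shift.shift.shift.shift.shift.shift
  replace hq0 := hq0.shift.shift.shift.shift.shift.shift
  replace hq1 := hq1.shift.shift.shift.shift.shift.shift
  refine (dq_Oct hz hy (PF.var _) (PF.var _)).and ?_
  refine (dq_Oct (PF.var _) (PF.var _) (PF.var _) (PF.var _)).and ?_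
  refine (dq_Oct (PF.var _) (PF.var _) (PF.var _) (PF.var _)).and ?_
  refine (DQ.eq (ha0.mul (PF.var _)) (PF.var _)).and ?_
  refine (DQ.eq (hw0.mul (PF.var _)) PF.one).and ?_
  refine (DQ.eq (hq0.mul (PF.var _)) (PF.var _)).and ?_
  refine (DQ.eq (ha1.mul (PF.var _)) (PF.var _)).and ?_
  refine (DQ.eq (hw1.mul (PF.var _)) PF.one).and ?_
  exact DQ.eq (hq1.mul (PF.var _)) (PF.var _)

end Dio

open Dio

theorem dio_base : DioQ 3 (fun x => BaseRel (x 0) (x 1) (x 2)) :=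
  DQ.dioQ (dq_base (PF.var _) (PF.var _) (PF.var _))

theorem dio_arr (p : ℕ) (_hp : p ≤ 2) :
    DioQ 8 (fun x => ArrRel p (x 0) (x 1) ⟨x 2, x 3, x 4, x 5, x 6, x 7⟩) :=
  DQ.dioQ (dq_arr p (PF.var _) (PF.var _) (PF.var _) (PF.var _) (PF.var _) (PF.var _)
    (PF.var _) (PF.var _))

theorem dio_nt : DioQ 2 (fun x => NT (x 0) (x 1)) :=
  DQ.dioQ (dq_NT (PF.var _) (PF.var _))

theorem dio_nrm : DioQ 2 (fun x => x 1 = nrm (x 0)) :=
  DQ.dioQ (dq_nrm (PF.var _) (PF.var _))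

theorem dio_hst : DioQ 4 (fun x => x 3 = hst (x 0) (x 1) (x 2)) :=
  DQ.dioQ (dq_hst (PF.var _) (PF.var _) (PF.var _) (PF.var _))

end Pool.Agent.H528R2
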