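import Pool.Agent.H528R2.Build5
import Pool.Agent.H528R2.Dio

/-!
# The system attached to a DQBF instance (module E2): the result
-/

namespace Pool.Agent.H528R2

open Pool.Agent.NPC

theorem dioHyp : DioHyp where
  base := dio_base
  arr := dio_arr
  nt := dio_nt
  nrm := dio_nrm
  hst := dio_hst

/-- For each instance of DQBF the system of constraints over `ℚ` can be computed in polynomial
time. -/
theorem exists_build : ∃ build : DInst → List ER.Con,
    Poly build ∧ ∀ I, QSat (build I) ↔ RSat I := exists_build_of dioHyp

end Pool.Agent.H528R2
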