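import Pool.Agent.H528R2.QDefs
import Pool.Agent.H671R2.PolyAuto

/-!
# Compilation of systems of macro constraints (module E2, part 1)
-/

namespace Pool.Agent.H528R2

open Pool.Agent.NPC

/-- a relation on `ℚ` defined by a fixed system of elementary constraints -/
structure Macro where
  k : ℕ
  R : (Fin k → ℚ) → Prop
  dio : DioQ k R

/-- the macro constraint `(kind, arguments)` holds at `V` -/
def MHolds (Ms : List Macro) (V : ℕ → ℚ) (x : ℕ × List ℕ) : Prop :=
  ∀ M ∈ Ms[x.1]?, M.R (fun i => V (x.2.getD i 0))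

/-- renaming of the variables in the `j`-th macro constraint -/
def rho (k : ℕ) (args : List ℕ) (j i : ℕ) : ℕ :=
  if i < k then 2 * args.getD i 0 else 2 * Nat.pair j i + 1

/-- renaming in a constraint -/
def renCon (ρ : ℕ → ℕ) : ER.Con → ER.Con
  | .one i => .one (ρ i)
  | .add i j k => .add (ρ i) (ρ j) (ρ k)
  | .mul i j k => .mul (ρ i) (ρ j) (ρ k)

theorem holdsQ_renCon (v : ℕ → ℚ) (ρ : ℕ → ℕ) (c : ER.Con) :
    HoldsQ v (renCon ρ c) ↔ HoldsQ (fun i => v (ρ i)) c := by
  cases c <;> rfl

/-- the system of a macro -/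
noncomputable def Macro.sys (M : Macro) : List ER.Con := M.dio.choose

theorem Macro.sys_spec (M : Macro) (x : Fin M.k → ℚ) :
    M.R x ↔ ∃ v : ℕ → ℚ, (∀ i : Fin M.k, v i = x i) ∧ ∀ c ∈ M.sys, HoldsQ v c :=
  M.dio.choose_spec x

/-- the table of the systems of the macros -/
noncomputable def mtable (Ms : List Macro) : List (ℕ × List ER.Con) :=
  Ms.map fun M => (M.k, M.sys)

/-- the compiled system -/
noncomputable def mcompile (Ms : List Macro) (L : List (ℕ × List ℕ)) : List ER.Con :=
  L.zipIdx.flatMap fun p =>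
    ((mtable Ms).getD p.1.1 (0, [])).2.map
      (renCon (rho ((mtable Ms).getD p.1.1 (0, [])).1 p.1.2 p.2))

theorem poly_natPair {α : Type} [TEnc α] {f g : α → ℕ} (hf : Poly f) (hg : Poly g) :
    Poly (fun a => Nat.pair (f a) (g a)) := by
  unfold Nat.pair
  fun_prop

attribute [fun_prop] poly_natPair

theorem poly_rho {α : Type} [TEnc α] {k j i : α → ℕ} {l : α → List ℕ} (hk : Poly k)
    (hl : Poly l) (hj : Poly j) (hi : Poly i) :
    Poly (fun a => rho (k a) (l a) (j a) (i a)) := by
  unfold rho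
  fun_prop

theorem poly_renCon {α : Type} [TEnc α] {k j : α → ℕ} {l : α → List ℕ} {c : α → ER.Con}
    (hk : Poly k) (hl : Poly l) (hj : Poly j) (hc : Poly c) :
    Poly (fun a => renCon (rho (k a) (l a) (j a)) (c a)) := by
  apply ER.poly_con_of_code
  have h := ER.poly_con_code hc
  have h1 : Poly (fun a => rho (k a) (l a) (j a) (c a).code.2.1) := poly_rho hk hl hj (by fun_prop)
  have h2 : Poly (fun a => rho (k a) (l a) (j a) (c a).code.2.2.1) :=
    poly_rho hk hl hj (by fun_prop)
  have h3 : Poly (fun a => rho (k a) (l a) (j a) (c a).code.2.2.2) :=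
    poly_rho hk hl hj (by fun_prop)
  have h4 : Poly (fun a => if (c a).code.1 = 0 then
      ((0, rho (k a) (l a) (j a) (c a).code.2.1, 0, 0) : ℕ × ℕ × ℕ × ℕ) else
      ((c a).code.1, rho (k a) (l a) (j a) (c a).code.2.1, rho (k a) (l a) (j a) (c a).code.2.2.1,
        rho (k a) (l a) (j a) (c a).code.2.2.2)) := by
    fun_prop
  refine h4.congr fun a => ?_
  cases c a <;> simp [renCon, ER.Con.code]

theorem poly_mcompile (Ms : List Macro) : Poly (mcompile Ms) := by
  unfold mcompile
  refine Poly.flatMap (Poly.zipIdx Poly.id) ?_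
  refine NPC.Poly.map (F := fun (a : List (ℕ × List ℕ) × ((ℕ × List ℕ) × ℕ)) c =>
    renCon (rho ((mtable Ms).getD a.2.1.1 (0, [])).1 a.2.1.2 a.2.2) c) ?_ ?_
  · exact NPC.Poly.snd (NPC.Poly.getD (NPC.Poly.const (mtable Ms)) (by fun_prop) (NPC.Poly.const (0, [])))
  · exact poly_renCon (NPC.Poly.fst (NPC.Poly.getD (NPC.Poly.const (mtable Ms)) (by fun_prop)
      (NPC.Poly.const (0, [])))) (by fun_prop) (by fun_prop) (by fun_prop)

theorem mtable_getD (Ms : List Macro) (i : ℕ) :
    (mtable Ms).getD i (0, []) = ((Ms[i]?).map fun M => (M.k, M.sys)).getD (0, []) := by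
  unfold mtable
  rw [List.getD_eq_getElem?_getD, List.getElem?_map]

theorem qsat_mcompile (Ms : List Macro) (L : List (ℕ × List ℕ)) :
    QSat (mcompile Ms L) ↔ ∃ V : ℕ → ℚ, ∀ x ∈ L, MHolds Ms V x := by
  classical
  constructor
  · rintro ⟨v, hv⟩
    refine ⟨fun n => v (2 * n), fun x hx M hM => ?_⟩
    obtain ⟨j, hj, rfl⟩ := List.getElem_of_mem hx
    have hM' : Ms[L[j].1]? = some M := hM
    refine (M.sys_spec _).mpr ⟨fun i => v (rho M.k L[j].2 j i), fun i => ?_, fun c hc => ?_⟩
    · simp [rho]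
    · rw [← holdsQ_renCon]
      apply hv
      refine List.mem_flatMap.mpr ⟨(L[j], j), ?_, ?_⟩
      · exact List.mk_mem_zipIdx_iff_getElem?.mpr (List.getElem?_eq_getElem hj)
      · simp only [mtable_getD, hM', Option.map_some, Option.getD_some]
        exact List.mem_map_of_mem hc
  · rintro ⟨V, hV⟩
    have hex : ∀ j : ℕ, ∃ u : ℕ → ℚ, ∀ x, L[j]? = some x → ∀ M ∈ Ms[x.1]?,
        (∀ i : Fin M.k, u i = V (x.2.getD i 0)) ∧ ∀ c ∈ M.sys, HoldsQ u c := by
      intro j
      rcases hx : L[j]? with _ | x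
      · exact ⟨fun _ => 0, by simp⟩
      · rcases hM : Ms[x.1]? with _ | M
        · refine ⟨fun _ => 0, ?_⟩
          intro x' hx' M hM'
          simp only [Option.some.injEq] at hx'
          subst hx'
          rw [hM] at hM'
          simp at hM'
        · obtain ⟨u, hu⟩ := (M.sys_spec _).mp (hV x (List.mem_of_getElem? hx) M hM)
          refine ⟨u, ?_⟩
          intro x' hx' M' hM'
          simp only [Option.some.injEq] at hx'
          subst hx'
          rw [hM] at hM'
          simp only [Option.mem_def, Option.some.injEq] at hM'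
          subst hM'
          exact hu
    choose u hu using hex
    refine ⟨fun n => if n % 2 = 0 then V (n / 2) else
      u (Nat.unpair (n / 2)).1 (Nat.unpair (n / 2)).2, fun c hc => ?_⟩
    obtain ⟨⟨x, j⟩, hxj, hc⟩ := List.mem_flatMap.mp hc
    rw [List.mk_mem_zipIdx_iff_getElem?] at hxj
    simp only [mtable_getD] at hc
    rcases hM : Ms[x.1]? with _ | M
    · simp [hM] at hc
    · simp only [hM, Option.map_some, Option.getD_some, List.mem_map] at hc
      obtain ⟨c', hc', rfl⟩ := hc
      obtain ⟨h1, h2⟩ := hu j x hxj M hM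
      rw [holdsQ_renCon]
      have h3 := h2 c' hc'
      convert h3 using 1
      ext i
      unfold rho
      split_ifs with h4 h5 h5
      · rw [Nat.mul_div_cancel_left _ (by norm_num)]
        exact (h1 ⟨i, h4⟩).symm
      · omega
      · omega
      · have : (2 * Nat.pair j i + 1) / 2 = Nat.pair j i := by omega
        rw [this, Nat.unpair_pair]

end Pool.Agent.H528R2
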