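import Pool.Agent.H528R2.Build1

/-!
# The system attached to a DQBF instance (module E2, part 2): names and semantics
-/

namespace Pool.Agent.H528R2

open Pool.Agent.NPC

/-! ### the macros -/

theorem dio_add : DioQ 3 (fun x => x 0 + x 1 = x 2) := by
  refine ⟨[.add 0 1 2], fun x => ⟨fun h => ?_, ?_⟩⟩
  · refine ⟨fun i => if h : i < 3 then x ⟨i, h⟩ else 0, fun i => by simp, ?_⟩
    intro c hc
    simp only [List.mem_singleton] at hc
    subst hc
    exact h
  · rintro ⟨v, hv, hc⟩
    have h := hc _ (List.mem_singleton.mpr rfl)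
    have h0 := hv 0
    have h1 := hv 1
    have h2 := hv 2
    simp only [HoldsQ] at h
    simp only [Fin.isValue, Fin.val_zero, Fin.val_one, Fin.val_two] at h0 h1 h2
    rw [← h0, ← h1, ← h2]
    exact h

theorem dio_mul : DioQ 3 (fun x => x 0 * x 1 = x 2) := by
  refine ⟨[.mul 0 1 2], fun x => ⟨fun h => ?_, ?_⟩⟩
  · refine ⟨fun i => if h : i < 3 then x ⟨i, h⟩ else 0, fun i => by simp, ?_⟩
    intro c hc
    simp only [List.mem_singleton] at hc
    subst hc
    exact h
  · rintro ⟨v, hv, hc⟩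
    have h := hc _ (List.mem_singleton.mpr rfl)
    have h0 := hv 0
    have h1 := hv 1
    have h2 := hv 2
    simp only [HoldsQ] at h
    simp only [Fin.isValue, Fin.val_zero, Fin.val_one, Fin.val_two] at h0 h1 h2
    rw [← h0, ← h1, ← h2]
    exact h

theorem dio_one : DioQ 1 (fun x => x 0 = 1) := by
  refine ⟨[.one 0], fun x => ⟨fun h => ?_, ?_⟩⟩
  · refine ⟨fun _ => x 0, fun i => by rw [Fin.eq_zero i], ?_⟩
    intro c hc
    simp only [List.mem_singleton] at hc
    subst hc
    exact h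
  · rintro ⟨v, hv, hc⟩
    have h := hc _ (List.mem_singleton.mpr rfl)
    have h0 := hv 0
    simp only [HoldsQ] at h
    simp only [Fin.isValue, Fin.val_zero] at h0
    rw [← h0]
    exact h

/-- the hypotheses on the macros (proved in `Dio.lean`) -/
structure DioHyp : Prop where
  base : DioQ 3 (fun x => BaseRel (x 0) (x 1) (x 2))
  arr : ∀ p ≤ 2, DioQ 8 (fun x => ArrRel p (x 0) (x 1) ⟨x 2, x 3, x 4, x 5, x 6, x 7⟩)
  nt : DioQ 2 (fun x => NT (x 0) (x 1))
  nrm : DioQ 2 (fun x => x 1 = nrm (x 0))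
  hst : DioQ 4 (fun x => x 3 = hst (x 0) (x 1) (x 2))

/-- the list of macros -/
def macros (H : DioHyp) : List Macro :=
  [⟨3, _, H.base⟩, ⟨8, _, H.arr 0 (by norm_num)⟩, ⟨8, _, H.arr 1 (by norm_num)⟩,
   ⟨8, _, H.arr 2 le_rfl⟩, ⟨2, _, H.nt⟩, ⟨2, _, H.nrm⟩, ⟨4, _, H.hst⟩, ⟨3, _, dio_add⟩,
   ⟨3, _, dio_mul⟩, ⟨1, _, dio_one⟩]

section
variable (H : DioHyp) (V : ℕ → ℚ)

theorem mh_base (a b c : ℕ) : MHolds (macros H) V (0, [a, b, c]) ↔
    BaseRel (V a) (V b) (V c) := by
  simp [MHolds, macros]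
theorem mh_arr0 (a b c d e f g h : ℕ) : MHolds (macros H) V (1, [a, b, c, d, e, f, g, h]) ↔
    ArrRel 0 (V a) (V b) ⟨V c, V d, V e, V f, V g, V h⟩ := by
  simp [MHolds, macros]
theorem mh_arr1 (a b c d e f g h : ℕ) : MHolds (macros H) V (2, [a, b, c, d, e, f, g, h]) ↔
    ArrRel 1 (V a) (V b) ⟨V c, V d, V e, V f, V g, V h⟩ := by
  simp [MHolds, macros]
theorem mh_arr2 (a b c d e f g h : ℕ) : MHolds (macros H) V (3, [a, b, c, d, e, f, g, h]) ↔
    ArrRel 2 (V a) (V b) ⟨V c, V d, V e, V f, V g, V h⟩ := by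
  simp [MHolds, macros]
theorem mh_nt (a b : ℕ) : MHolds (macros H) V (4, [a, b]) ↔ NT (V a) (V b) := by
  simp [MHolds, macros]
theorem mh_nrm (a b : ℕ) : MHolds (macros H) V (5, [a, b]) ↔ V b = nrm (V a) := by
  simp [MHolds, macros]
theorem mh_hst (a b c d : ℕ) : MHolds (macros H) V (6, [a, b, c, d]) ↔
    V d = hst (V a) (V b) (V c) := by
  simp [MHolds, macros]
theorem mh_add (a b c : ℕ) : MHolds (macros H) V (7, [a, b, c]) ↔ V a + V b = V c := by
  simp [MHolds, macros]
theorem mh_mul (a b c : ℕ) : MHolds (macros H) V (8, [a, b, c]) ↔ V a * V b = V c := by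
  simp [MHolds, macros]
theorem mh_one (a : ℕ) : MHolds (macros H) V (9, [a]) ↔ V a = 1 := by
  simp [MHolds, macros]

end

/-! ### names -/

def vC (c : ℕ) : ℕ := Nat.pair 0 c
def vZ (i : ℕ) : ℕ := Nat.pair 1 i
def vY (i : ℕ) : ℕ := Nat.pair 2 i
def vW (i : ℕ) : ℕ := Nat.pair 3 i
def cmp (an d : ℕ) : ℕ := Nat.pair 4 (Nat.pair an d)
def vN (o c t : ℕ) : ℕ := Nat.pair 5 (Nat.pair o (Nat.pair c t))
def vP (o t : ℕ) : ℕ := Nat.pair 6 (Nat.pair o t)
def vQ (o c t : ℕ) : ℕ := Nat.pair 7 (Nat.pair o (Nat.pair c t))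
def vH (o c t : ℕ) : ℕ := Nat.pair 8 (Nat.pair o (Nat.pair c t))
def vHH (o c t : ℕ) : ℕ := Nat.pair 9 (Nat.pair o (Nat.pair c t))
def vL (o s u : ℕ) : ℕ := Nat.pair 10 (Nat.pair o (Nat.pair s u))
def vK (o s u : ℕ) : ℕ := Nat.pair 11 (Nat.pair o (Nat.pair s u))
def vG (o c : ℕ) : ℕ := Nat.pair 12 (Nat.pair o c)
def vF (o c s : ℕ) : ℕ := Nat.pair 13 (Nat.pair o (Nat.pair c s))

/-- names of arrays -/
def aA (i l b : ℕ) : ℕ := Nat.pair 0 (Nat.pair i (Nat.pair l b))
def aD (i b : ℕ) : ℕ := Nat.pair 1 (Nat.pair i b)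
def aB (k : ℕ) : ℕ := Nat.pair 2 k
def aS : ℕ := Nat.pair 3 0

/-- the array with a given name -/
def arrV (V : ℕ → ℚ) (an : ℕ) : Arr :=
  ⟨V (cmp an 0), V (cmp an 1), V (cmp an 2), V (cmp an 3), V (cmp an 4), V (cmp an 5)⟩

/-- pairs of arrays -/
def pairV (V : ℕ → ℚ) (p : ℕ × ℕ) : Arr × Arr := (arrV V p.1, arrV V p.2)

/-- the solution with given values -/
def solV (V : ℕ → ℚ) : Sol where
  z i := V (vZ i)
  y i := V (vY i)
  w i := V (vW i)
  A i l b := arrV V (aA i l b.toNat)
  D i b := arrV V (aD i b.toNat)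
  B k := arrV V (aB k)
  Ds := arrV V aS

/-! ### lists of names; `M` is a bound for the indices (`M = m + 2`) -/

def nPairs (M i : ℕ) : List (ℕ × ℕ) :=
  (List.range (min i M)).map (fun l => (aA i l 0, aA i l 1)) ++ [(aD i 0, aD i 1)]

theorem pairs_solV (V : ℕ → ℚ) {M i : ℕ} (h : i ≤ M) :
    (solV V).pairs i = (nPairs M i).map (pairV V) := by
  simp [Sol.pairs, solV, nPairs, pairV, min_eq_left h]

theorem length_nPairs {M i : ℕ} (h : i ≤ M) : (nPairs M i).length = i + 1 := by
  simp [nPairs, min_eq_left h]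

def nAtom (I : DInst) (l : Bool × Bool × ℕ) : ℕ :=
  if l.1 = true then
    (if l.2.2 < I.2.1.length then (if l.2.1 = true then cmp (aB l.2.2) 5 else cmp (aB l.2.2) 4)
      else vC 1)
  else
    (if l.2.2 < I.1.length then (if l.2.1 = true then cmp (aA (I.1.length + 1) l.2.2 0) 5
      else cmp (aA (I.1.length + 1) l.2.2 0) 4) else vC 1)

theorem atom_solV (V : ℕ → ℚ) (hV : V (vC 1) = 1) (I : DInst) (l : Bool × Bool × ℕ) :
    (solV V).atom I l = V (nAtom I l) := by
  unfold Sol.atom nAtom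
  rcases l with ⟨b, s, n⟩
  simp only [DInst.K, DInst.m]
  by_cases h1 : n < I.2.1.length <;> by_cases h2 : n < I.1.length <;> cases b <;> cases s <;>
    simp [Arr.q, solV, arrV, hV, h1, h2]

def nStepCls (M i : ℕ) : List (List ℕ) :=
  [[vW (i + 1)], [cmp (aD (i + 1) 0) 4], [cmp (aD (i + 1) 1) 5]] ++
  (List.range (min (i + 1) M)).flatMap (fun l =>
    [cmp ((nPairs M i).getD l (0, 0)).1 2, cmp (aA (i + 1) l 0) 4, cmp (aA (i + 1) l 1) 4].flatMap
      (fun x =>
      [[x, cmp ((nPairs M i).getD l (0, 0)).2 3], [x, cmp (aA (i + 1) l 0) 5],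
        [x, cmp (aA (i + 1) l 1) 5]]))

theorem stepCls_solV (V : ℕ → ℚ) {M i : ℕ} (h : i + 1 ≤ M) :
    (solV V).stepCls i = (nStepCls M i).map (List.map V) := by
  unfold Sol.stepCls nStepCls
  rw [pairs_solV V (show i ≤ M by omega), min_eq_left h]
  simp only [List.map_append, List.map_flatMap]
  congr 1
  refine List.flatMap_congr fun l hl => ?_
  have hl' : l < (nPairs M i).length := by
    rw [length_nPairs (by omega)]
    simpa using hl
  have e1 : ((nPairs M i).map (pairV V)).getD l Sol.stepCls.default_pair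
      = pairV V ((nPairs M i).getD l (0, 0)) := by
    rw [List.getD_eq_getElem _ _ (by simpa using hl'), List.getD_eq_getElem _ _ hl',
      List.getElem_map]
  simp only [e1]
  simp [pairV, solV, arrV]

def nLastCls (I : DInst) : List (List ℕ) :=
  [[cmp aS 4]] ++ (List.range I.2.1.length).map (fun k => [cmp (aB k) 4, cmp (aB k) 5]) ++
    I.2.2.map (fun cl => cl.map (nAtom I))

theorem lastCls_solV (V : ℕ → ℚ) (hV : V (vC 1) = 1) (I : DInst) :
    (solV V).lastCls I = (nLastCls I).map (List.map V) := by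
  unfold Sol.lastCls nLastCls
  simp only [List.map_append, List.map_map, List.singleton_append, DInst.K, List.map_cons,
    List.map_nil, List.cons_append, List.nil_append]
  congr 1
  congr 1
  refine List.map_congr_left fun cl _ => ?_
  simp only [Function.comp_apply, List.map_map]
  refine List.map_congr_left fun l _ => ?_
  exact atom_solV V hV I l

def nInd (m j : ℕ) (L : List ℕ) : List (ℕ × ℕ) :=
  (L.filter (fun l => l ≠ j)).map (fun l => (aA (m + 1) l 0, aA (m + 1) l 1)) ++ [(aS, aS)]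

theorem ind_solV (V : ℕ → ℚ) (I : DInst) (j : ℕ) :
    (solV V).indPairs I j = (nInd I.1.length j (List.range (I.1.length + 1))).map (pairV V) := by
  simp [Sol.indPairs, nInd, solV, pairV, DInst.m]

theorem length_nInd (m j : ℕ) : (nInd m j (List.range (m + 1))).length ≤ m + 2 := by
  simp only [nInd, List.length_append, List.length_map, List.length_singleton]
  have := List.length_filter_le (fun l => decide (l ≠ j)) (List.range (m + 1))
  simp only [List.length_range] at this
  omega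

/-! ### the constraints of a family of tests -/

def obsC1 (o : ℕ) (ps : List (ℕ × ℕ)) (c : ℕ) : List (ℕ × List ℕ) :=
  [(7, [vC 0, vC 0, vN o c ps.length]), (8, [vC 1, vC 1, vHH o c ps.length]),
      (8, [vC 319, vHH o c 0, vG o c])] ++
    ps.zipIdx.flatMap (fun p => [(8, [vC (c + 1), vN o c (p.2 + 1), vQ o c p.2]),
      (7, [vP o p.2, vQ o c p.2, vN o c p.2]),
      (6, [vN o c 0, cmp p.1.1 2, cmp p.1.2 3, vH o c p.2]),
      (8, [vH o c p.2, vHH o c (p.2 + 1), vHH o c p.2])])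

def obsC2 (o : ℕ) (n : ℕ) (s : ℕ) (cl : List ℕ) : List (ℕ × List ℕ) :=
  [(8, [vC 1, vC 1, vK o s cl.length])] ++
    cl.zipIdx.flatMap (fun x => [(5, [x.1, vL o s x.2]),
      (8, [vL o s x.2, vK o s (x.2 + 1), vK o s x.2])]) ++
    (List.range n).flatMap (fun c => [(8, [vG o c, vK o s 0, vF o c s]),
      (4, [vN o c 0, vF o c s])])

def obsC (o : ℕ) (ps : List (ℕ × ℕ)) (cls : List (List ℕ)) : List (ℕ × List ℕ) :=
  ps.zipIdx.map (fun p => (8, [cmp p.1.1 0, cmp p.1.2 1, vP o p.2])) ++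
  (List.range ps.length).flatMap (obsC1 o ps) ++
  cls.zipIdx.flatMap (fun q => obsC2 o ps.length q.2 q.1)

theorem chain {α : Type} (l : List α) (f : ℕ → ℚ) (g : α → ℚ → ℚ) (init : ℚ)
    (h0 : f l.length = init) (hs : ∀ t (h : t < l.length), f t = g l[t] (f (t + 1))) :
    f 0 = l.foldr g init := by
  induction l generalizing f with
  | nil => exact h0
  | cons a l ih =>
    rw [List.foldr_cons, hs 0 (by simp)]
    rw [← ih (fun t => f (t + 1)) (by simpa using h0) fun t ht => ?_]
    · rfl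
    · have := hs (t + 1) (by simpa using ht)
      simpa using this

theorem Hval_eq (N : ℚ) (ps : List (Arr × Arr)) :
    Hval N ps = ps.foldr (fun p acc => hst N p.1.w0 p.2.w1 * acc) 1 := by
  unfold Hval
  rw [List.prod_eq_foldr, List.foldr_map]

theorem Cval_eq (cl : List ℚ) : Cval cl = cl.foldr (fun x acc => nrm x * acc) 1 := by
  unfold Cval
  rw [List.prod_eq_foldr, List.foldr_map]

theorem mem_zipIdx_of {α : Type} {l : List α} {t : ℕ} (h : t < l.length) :
    (l[t], t) ∈ l.zipIdx :=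
  List.mk_mem_zipIdx_iff_getElem?.mpr (List.getElem?_eq_getElem h)

/-- soundness of the constraints of a family of tests -/
theorem obs_sound (H : DioHyp) {V : ℕ → ℚ} {o : ℕ} {ps : List (ℕ × ℕ)} {cls : List (List ℕ)}
    (hc : ∀ c ≤ ps.length, V (vC c) = c) (h1 : V (vC 1) = 1) (h319 : V (vC 319) = 319)
    (h : ∀ x ∈ obsC o ps cls, MHolds (macros H) V x) :
    ObsR (ps.map (pairV V)) (cls.map (List.map V)) := by
  have hP := fun x hx => h x (List.mem_append_left _ (List.mem_append_left _ hx))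
  have hA := fun x hx => h x (List.mem_append_left _ (List.mem_append_right _ hx))
  have hB := fun x hx => h x (List.mem_append_right _ hx)
  -- products
  have hP' : ∀ t (ht : t < ps.length), V (vP o t) = V (cmp ps[t].1 0) * V (cmp ps[t].2 1) := by
    intro t ht
    have := hP _ (List.mem_map.mpr ⟨_, mem_zipIdx_of ht, rfl⟩)
    rw [mh_mul] at this
    exact this.symm
  -- values for fixed `c`
  have hN : ∀ c < ps.length, V (vN o c 0) = Nval (c + 1) (ps.map (pairV V)) ∧
      V (vG o c) = 319 * Hval (Nval (c + 1) (ps.map (pairV V))) (ps.map (pairV V)) := by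
    intro c hcl
    have hA' := fun x hx => hA x (List.mem_flatMap.mpr ⟨c, List.mem_range.mpr hcl, hx⟩)
    have h0 := hA' (7, [vC 0, vC 0, vN o c ps.length]) (by simp [obsC1])
    have h1' := hA' (8, [vC 1, vC 1, vHH o c ps.length]) (by simp [obsC1])
    have hG := hA' (8, [vC 319, vHH o c 0, vG o c]) (by simp [obsC1])
    rw [mh_add] at h0
    rw [mh_mul] at h1' hG
    have hs := fun t ht x hx => hA' x (List.mem_append_right _
      (List.mem_flatMap.mpr ⟨(ps[t]'ht, t), mem_zipIdx_of ht, hx⟩))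
    have hs' : ∀ t (ht : t < ps.length),
        V (vC (c + 1)) * V (vN o c (t + 1)) = V (vQ o c t) ∧
        V (vP o t) + V (vQ o c t) = V (vN o c t) ∧
        V (vH o c t) = hst (V (vN o c 0)) (V (cmp ps[t].1 2)) (V (cmp ps[t].2 3)) ∧
        V (vH o c t) * V (vHH o c (t + 1)) = V (vHH o c t) := by
      intro t ht
      have h2 := hs t ht
      refine ⟨?_, ?_, ?_, ?_⟩
      · have := h2 (8, [vC (c + 1), vN o c (t + 1), vQ o c t]) (by simp)
        rwa [mh_mul] at this
      · have := h2 (7, [vP o t, vQ o c t, vN o c t]) (by simp)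
        rwa [mh_add] at this
      · have := h2 (6, [vN o c 0, cmp ps[t].1 2, cmp ps[t].2 3, vH o c t]) (by simp)
        rwa [mh_hst] at this
      · have := h2 (8, [vH o c t, vHH o c (t + 1), vHH o c t]) (by simp)
        rwa [mh_mul] at this
    have hc0 : V (vC 0) = 0 := by simpa using hc 0 (Nat.zero_le _)
    have hcc : V (vC (c + 1)) = ((c + 1 : ℕ) : ℚ) := hc (c + 1) hcl
    have e1 : V (vN o c 0) = Nval (c + 1) (ps.map (pairV V)) := by
      unfold Nval
      refine chain (ps.map (pairV V)) (fun t => V (vN o c t)) _ 0 ?_ ?_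
      · simp only [List.length_map]
        rw [← h0, hc0, add_zero]
      · intro t ht
        simp only [List.length_map] at ht
        obtain ⟨q1, q2, -, -⟩ := hs' t ht
        simp only [List.getElem_map]
        rw [← q2, ← q1, hcc, hP' t ht]
        rfl
    refine ⟨e1, ?_⟩
    rw [← hG, h319, Hval_eq]
    congr 1
    refine chain (ps.map (pairV V)) (fun t => V (vHH o c t)) _ 1 ?_ ?_
    · simp only [List.length_map]
      rw [← h1', h1, one_mul]
    · intro t ht
      simp only [List.length_map] at ht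
      obtain ⟨-, -, q3, q4⟩ := hs' t ht
      simp only [List.getElem_map]
      rw [← q4, q3, e1]
      rfl
  intro c hcl cl hcl'
  rw [List.length_map, List.mem_range] at hcl
  obtain ⟨hN1, hN2⟩ := hN c hcl
  obtain ⟨ncl, hncl, rfl⟩ := List.mem_map.mp hcl'
  obtain ⟨s, hs, rfl⟩ := List.getElem_of_mem hncl
  have hB' := fun x hx => hB x (List.mem_flatMap.mpr ⟨_, mem_zipIdx_of hs, hx⟩)
  have h0 := hB' (8, [vC 1, vC 1, vK o s cls[s].length]) (by simp [obsC2])
  rw [mh_mul] at h0
  have hs1 := fun x hx => hB' x (List.mem_append_left _ (List.mem_append_right _ hx))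
  have hs2 := fun x hx => hB' x (List.mem_append_right _
    (List.mem_flatMap.mpr ⟨c, List.mem_range.mpr hcl, hx⟩))
  have hK : V (vK o s 0) = Cval (cls[s].map V) := by
    rw [Cval_eq]
    refine chain (cls[s].map V) (fun u => V (vK o s u)) _ 1 ?_ ?_
    · simp only [List.length_map]
      rw [← h0, h1, one_mul]
    · intro u hu
      simp only [List.length_map] at hu
      have h2 := fun x hx => hs1 x (List.mem_flatMap.mpr ⟨_, mem_zipIdx_of hu, hx⟩)
      have q1 := h2 (5, [cls[s][u], vL o s u]) (by simp)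
      have q2 := h2 (8, [vL o s u, vK o s (u + 1), vK o s u]) (by simp)
      rw [mh_nrm] at q1
      rw [mh_mul] at q2
      simp only [List.getElem_map]
      rw [← q2, q1]
  have q1 := hs2 (8, [vG o c, vK o s 0, vF o c s]) (by simp)
  have q2 := hs2 (4, [vN o c 0, vF o c s]) (by simp)
  rw [mh_mul] at q1
  rw [mh_nt, ← q1, hN1, hN2, hK] at q2
  exact q2

end Pool.Agent.H528R2
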