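import Pool.Agent.H528R2.Build2

/-!
# The system attached to a DQBF instance (module E2, part 3): completeness
-/

namespace Pool.Agent.H528R2

open Pool.Agent.NPC

def arrComp (A : Arr) (d : ℕ) : ℚ :=
  match d with
  | 0 => A.a0
  | 1 => A.a1
  | 2 => A.w0
  | 3 => A.w1
  | 4 => A.q0
  | _ => A.q1

def arrAt (S : Sol) (an : ℕ) : Arr :=
  match (Nat.unpair an).1 with
  | 0 => S.A (Nat.unpair (Nat.unpair an).2).1
      (Nat.unpair (Nat.unpair (Nat.unpair an).2).2).1
      (decide ((Nat.unpair (Nat.unpair (Nat.unpair an).2).2).2 ≠ 0))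
  | 1 => S.D (Nat.unpair (Nat.unpair an).2).1
      (decide ((Nat.unpair (Nat.unpair an).2).2 ≠ 0))
  | 2 => S.B (Nat.unpair an).2
  | _ => S.Ds

/-- the values of the unknowns attached to a solution -/
noncomputable def mkV (S : Sol) (psQ : ℕ → List (Arr × Arr)) (clsQ : ℕ → List (List ℚ))
    (n : ℕ) : ℚ :=
  let r := (Nat.unpair n).2
  let a := (Nat.unpair r).1
  let r2 := (Nat.unpair r).2
  let b := (Nat.unpair r2).1
  let c := (Nat.unpair r2).2
  match (Nat.unpair n).1 with
  | 0 => (r : ℚ)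
  | 1 => S.z r
  | 2 => S.y r
  | 3 => S.w r
  | 4 => arrComp (arrAt S a) r2
  | 5 => Nval (b + 1) ((psQ a).drop c)
  | 6 => ((psQ a).getD r2 Sol.stepCls.default_pair).1.a0 *
      ((psQ a).getD r2 Sol.stepCls.default_pair).2.a1
  | 7 => ((b + 1 : ℕ) : ℚ) * Nval (b + 1) ((psQ a).drop (c + 1))
  | 8 => hst (Nval (b + 1) (psQ a)) ((psQ a).getD c Sol.stepCls.default_pair).1.w0
      ((psQ a).getD c Sol.stepCls.default_pair).2.w1
  | 9 => Hval (Nval (b + 1) (psQ a)) ((psQ a).drop c)
  | 10 => nrm (((clsQ a).getD b []).getD c 0)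
  | 11 => Cval (((clsQ a).getD b []).drop c)
  | 12 => 319 * Hval (Nval (r2 + 1) (psQ a)) (psQ a)
  | _ => 319 * Hval (Nval (b + 1) (psQ a)) (psQ a) * Cval ((clsQ a).getD c [])

section
variable (S : Sol) (psQ : ℕ → List (Arr × Arr)) (clsQ : ℕ → List (List ℚ))

theorem mkV_C (c : ℕ) : mkV S psQ clsQ (vC c) = c := by simp [mkV, vC]
theorem mkV_Z (i : ℕ) : mkV S psQ clsQ (vZ i) = S.z i := by simp [mkV, vZ]
theorem mkV_Y (i : ℕ) : mkV S psQ clsQ (vY i) = S.y i := by simp [mkV, vY]
theorem mkV_W (i : ℕ) : mkV S psQ clsQ (vW i) = S.w i := by simp [mkV, vW]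
theorem mkV_cmp (an d : ℕ) : mkV S psQ clsQ (cmp an d) = arrComp (arrAt S an) d := by
  simp [mkV, cmp]
theorem mkV_N (o c t : ℕ) : mkV S psQ clsQ (vN o c t) = Nval (c + 1) ((psQ o).drop t) := by
  simp [mkV, vN]
theorem mkV_P (o t : ℕ) : mkV S psQ clsQ (vP o t) =
    ((psQ o).getD t Sol.stepCls.default_pair).1.a0 *
      ((psQ o).getD t Sol.stepCls.default_pair).2.a1 := by simp [mkV, vP]
theorem mkV_Q (o c t : ℕ) : mkV S psQ clsQ (vQ o c t) =
    ((c + 1 : ℕ) : ℚ) * Nval (c + 1) ((psQ o).drop (t + 1)) := by simp [mkV, vQ]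
theorem mkV_H (o c t : ℕ) : mkV S psQ clsQ (vH o c t) =
    hst (Nval (c + 1) (psQ o)) ((psQ o).getD t Sol.stepCls.default_pair).1.w0
      ((psQ o).getD t Sol.stepCls.default_pair).2.w1 := by simp [mkV, vH]
theorem mkV_HH (o c t : ℕ) : mkV S psQ clsQ (vHH o c t) =
    Hval (Nval (c + 1) (psQ o)) ((psQ o).drop t) := by simp [mkV, vHH]
theorem mkV_L (o s u : ℕ) : mkV S psQ clsQ (vL o s u) =
    nrm (((clsQ o).getD s []).getD u 0) := by simp [mkV, vL]
theorem mkV_K (o s u : ℕ) : mkV S psQ clsQ (vK o s u) =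
    Cval (((clsQ o).getD s []).drop u) := by simp [mkV, vK]
theorem mkV_G (o c : ℕ) : mkV S psQ clsQ (vG o c) =
    319 * Hval (Nval (c + 1) (psQ o)) (psQ o) := by simp [mkV, vG]
theorem mkV_F (o c s : ℕ) : mkV S psQ clsQ (vF o c s) =
    319 * Hval (Nval (c + 1) (psQ o)) (psQ o) * Cval ((clsQ o).getD s []) := by simp [mkV, vF]

theorem arrV_mkV (an : ℕ) : arrV (mkV S psQ clsQ) an = arrAt S an := by
  simp only [arrV, mkV_cmp, arrComp]

theorem solV_mkV : solV (mkV S psQ clsQ) = S := by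
  unfold solV
  have e1 : (fun i l (b : Bool) => arrV (mkV S psQ clsQ) (aA i l b.toNat)) = S.A := by
    funext i l b
    rw [arrV_mkV]
    cases b <;> simp [arrAt, aA]
  have e2 : (fun i (b : Bool) => arrV (mkV S psQ clsQ) (aD i b.toNat)) = S.D := by
    funext i b
    rw [arrV_mkV]
    cases b <;> simp [arrAt, aD]
  have e3 : (fun k => arrV (mkV S psQ clsQ) (aB k)) = S.B := by
    funext k
    rw [arrV_mkV]
    simp [arrAt, aB]
  have e4 : arrV (mkV S psQ clsQ) aS = S.Ds := by
    rw [arrV_mkV]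
    simp [arrAt, aS]
  rw [e1, e2, e3, e4]
  simp only [mkV_Z, mkV_Y, mkV_W]

end

theorem Nval_cons (c : ℕ) (p : Arr × Arr) (ps : List (Arr × Arr)) :
    Nval c (p :: ps) = p.1.a0 * p.2.a1 + c * Nval c ps := rfl

theorem Hval_cons (N : ℚ) (p : Arr × Arr) (ps : List (Arr × Arr)) :
    Hval N (p :: ps) = hst N p.1.w0 p.2.w1 * Hval N ps := by
  simp [Hval]

theorem Cval_cons (x : ℚ) (l : List ℚ) : Cval (x :: l) = nrm x * Cval l := by
  simp [Cval]

theorem of_mem_zipIdx {α : Type} {l : List α} {p : α × ℕ} (h : p ∈ l.zipIdx) :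
    ∃ h : p.2 < l.length, p.1 = l[p.2] := by
  have := List.mem_zipIdx_iff_getElem?.mp h
  obtain ⟨h1, h2⟩ := List.getElem?_eq_some_iff.mp this
  exact ⟨h1, h2.symm⟩

/-- completeness of the constraints of a family of tests -/
theorem obs_complete (H : DioHyp) (S : Sol) (psQ : ℕ → List (Arr × Arr))
    (clsQ : ℕ → List (List ℚ)) {o : ℕ} {ps : List (ℕ × ℕ)} {cls : List (List ℕ)}
    (hps : psQ o = ps.map (pairV (mkV S psQ clsQ)))
    (hcls : clsQ o = cls.map (List.map (mkV S psQ clsQ)))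
    (hobs : ObsR (psQ o) (clsQ o)) :
    ∀ x ∈ obsC o ps cls, MHolds (macros H) (mkV S psQ clsQ) x := by
  have hlen : (psQ o).length = ps.length := by rw [hps, List.length_map]
  have hclen : (clsQ o).length = cls.length := by rw [hcls, List.length_map]
  have hget : ∀ t (ht : t < ps.length), (psQ o)[t]'(by omega) = pairV (mkV S psQ clsQ) ps[t] := by
    intro t ht
    simp [hps]
  have hgetD : ∀ t (ht : t < ps.length) d, (psQ o).getD t d = pairV (mkV S psQ clsQ) ps[t] := by
    intro t ht d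
    rw [List.getD_eq_getElem _ _ (by omega), hget t ht]
  have hdrop : ∀ t (ht : t < ps.length), (psQ o).drop t =
      pairV (mkV S psQ clsQ) ps[t] :: (psQ o).drop (t + 1) := by
    intro t ht
    rw [List.drop_eq_getElem_cons (by omega), hget t ht]
  have hcget : ∀ s (hs : s < cls.length), (clsQ o).getD s [] = cls[s].map (mkV S psQ clsQ) := by
    intro s hs
    rw [List.getD_eq_getElem _ _ (by omega)]
    simp [hcls]
  intro x hx
  rcases List.mem_append.mp hx with hx | hx
  · rcases List.mem_append.mp hx with hx | hx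
    · -- products
      obtain ⟨p, hp, rfl⟩ := List.mem_map.mp hx
      obtain ⟨ht, hp1⟩ := of_mem_zipIdx hp
      rw [mh_mul, mkV_P, hgetD _ ht, hp1]
      rfl
    · obtain ⟨c, hc, hx⟩ := List.mem_flatMap.mp hx
      rcases List.mem_append.mp hx with hx | hx
      · simp only [List.mem_cons, List.not_mem_nil, or_false] at hx
        rcases hx with rfl | rfl | rfl
        · rw [mh_add, mkV_C, mkV_N, List.drop_eq_nil_of_le (by omega)]
          simp [Nval]
        · rw [mh_mul, mkV_C, mkV_HH, List.drop_eq_nil_of_le (by omega)]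
          simp [Hval]
        · rw [mh_mul, mkV_C, mkV_HH, mkV_G, List.drop_zero]
          norm_num
      · obtain ⟨p, hp, hx⟩ := List.mem_flatMap.mp hx
        obtain ⟨ht, hp1⟩ := of_mem_zipIdx hp
        simp only [List.mem_cons, List.not_mem_nil, or_false] at hx
        rcases hx with rfl | rfl | rfl | rfl
        · rw [mh_mul, mkV_C, mkV_N, mkV_Q]
        · rw [mh_add, mkV_P, mkV_Q, mkV_N, hdrop _ ht, Nval_cons, hgetD _ ht]
        · rw [mh_hst, mkV_H, mkV_N, List.drop_zero, hgetD _ ht, hp1]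
          rfl
        · rw [mh_mul, mkV_H, mkV_HH, mkV_HH, hdrop _ ht, Hval_cons, hgetD _ ht]
  · obtain ⟨q, hq, hx⟩ := List.mem_flatMap.mp hx
    obtain ⟨hs, hq1⟩ := of_mem_zipIdx hq
    rcases List.mem_append.mp hx with hx | hx
    · rcases List.mem_append.mp hx with hx | hx
      · simp only [List.mem_cons, List.not_mem_nil, or_false] at hx
        subst hx
        rw [mh_mul, mkV_C, mkV_K, hcget _ hs, hq1, List.drop_eq_nil_of_le (by simp)]
        simp [Cval]
      · obtain ⟨y, hy, hx⟩ := List.mem_flatMap.mp hx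
        obtain ⟨hu, hy1⟩ := of_mem_zipIdx hy
        simp only [List.mem_cons, List.not_mem_nil, or_false] at hx
        have hy2 : y.1 = cls[q.2][y.2]'(by rw [← hq1]; exact hu) := by
          simp only [hy1, hq1]
        have e1 : ((clsQ o).getD q.2 []).getD y.2 0 = mkV S psQ clsQ y.1 := by
          rw [hcget _ hs, List.getD_eq_getElem _ _ (by rw [List.length_map, ← hq1]; exact hu),
            List.getElem_map, hy2]
        have e2 : ((clsQ o).getD q.2 []).drop y.2 =
            mkV S psQ clsQ y.1 :: ((clsQ o).getD q.2 []).drop (y.2 + 1) := by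
          have hlt : y.2 < ((clsQ o).getD q.2 []).length := by
            rw [hcget _ hs, List.length_map, ← hq1]; exact hu
          rw [List.drop_eq_getElem_cons hlt, ← e1, List.getD_eq_getElem _ _ hlt]
        rcases hx with rfl | rfl
        · rw [mh_nrm, mkV_L, e1]
        · rw [mh_mul, mkV_L, mkV_K, mkV_K, e1, e2, Cval_cons]
    · obtain ⟨c, hc, hx⟩ := List.mem_flatMap.mp hx
      simp only [List.mem_cons, List.not_mem_nil, or_false] at hx
      rcases hx with rfl | rfl
      · rw [mh_mul, mkV_G, mkV_K, mkV_F, List.drop_zero]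
      · rw [mh_nt, mkV_N, mkV_F, List.drop_zero]
        refine hobs c (by rw [hlen]; exact hc) _ ?_
        rw [List.getD_eq_getElem _ _ (by omega)]
        exact List.getElem_mem _

end Pool.Agent.H528R2
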