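import Pool.Agent.H528R2.Build3

/-!
# The system attached to a DQBF instance (module E2, part 4): the list of constraints, semantics
-/

namespace Pool.Agent.H528R2

open Pool.Agent.NPC

def arrArgs (i an : ℕ) : List ℕ :=
  [vZ i, vY i, cmp an 0, cmp an 1, cmp an 2, cmp an 3, cmp an 4, cmp an 5]

def consC (m : ℕ) : List (ℕ × List ℕ) :=
  [(9, [vC 1])] ++ (List.range (2000 + (m + 2))).map (fun c => (7, [vC c, vC 1, vC (c + 1)]))

def consL (m i : ℕ) : List (ℕ × List ℕ) :=
  [(0, [vZ i, vY i, vW i]), (2, arrArgs i (aD i 0)), (3, arrArgs i (aD i 1)),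
    (4, [vC 11, vW i]), (4, [vC 29, vW i]), (4, [vC 11, cmp (aD i 0) 4]),
    (4, [vC 11, cmp (aD i 1) 4]), (4, [vC 29, cmp (aD i 0) 5]), (4, [vC 29, cmp (aD i 1) 5])] ++
  (List.range (min i (m + 2))).flatMap (fun l => [(1, arrArgs i (aA i l 0)),
    (1, arrArgs i (aA i l 1)), (4, [vC 11, cmp (aA i l 0) 4]), (4, [vC 11, cmp (aA i l 1) 5]),
    (4, [vC 29, cmp (aA i l 0) 4]), (4, [vC 29, cmp (aA i l 1) 5])])

def consT (m K : ℕ) : List (ℕ × List ℕ) :=
  [(2, arrArgs (m + 1) aS), (4, [vC 1931, vW 0]), (4, [vC 1931, cmp (aD 0 0) 4]),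
    (4, [vC 1931, cmp (aD 0 1) 5])] ++
  (List.range K).map (fun k => (1, arrArgs (m + 1) (aB k)))

def consI (I : DInst) : List (ℕ × List ℕ) :=
  (List.range I.2.1.length).flatMap (fun k => (List.range I.1.length).flatMap (fun j =>
    if (I.2.1.getD k []).getD j false = false then
      obsC (Nat.pair 2 (Nat.pair k j)) (nInd I.1.length j (List.range (I.1.length + 1)))
        [[cmp (aB k) 2, cmp (aB k) 3, cmp aS 3]]
    else []))

def cons (I : DInst) : List (ℕ × List ℕ) :=
  consC I.1.length ++ (List.range (I.1.length + 2)).flatMap (consL I.1.length) ++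
    consT I.1.length I.2.1.length ++
    (List.range I.1.length).flatMap (fun i => obsC (Nat.pair 0 i) (nPairs (I.1.length + 2) i)
      (nStepCls (I.1.length + 2) i)) ++
    obsC (Nat.pair 1 0) (nPairs (I.1.length + 2) I.1.length)
      (nStepCls (I.1.length + 2) I.1.length ++ nLastCls I) ++
    consI I

theorem mh_A0 (H : DioHyp) (V : ℕ → ℚ) (i an : ℕ) : MHolds (macros H) V (1, arrArgs i an) ↔
    ArrRel 0 (V (vZ i)) (V (vY i)) (arrV V an) := mh_arr0 H V _ _ _ _ _ _ _ _
theorem mh_A1 (H : DioHyp) (V : ℕ → ℚ) (i an : ℕ) : MHolds (macros H) V (2, arrArgs i an) ↔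
    ArrRel 1 (V (vZ i)) (V (vY i)) (arrV V an) := mh_arr1 H V _ _ _ _ _ _ _ _
theorem mh_A2 (H : DioHyp) (V : ℕ → ℚ) (i an : ℕ) : MHolds (macros H) V (3, arrArgs i an) ↔
    ArrRel 2 (V (vZ i)) (V (vY i)) (arrV V an) := mh_arr2 H V _ _ _ _ _ _ _ _

theorem consC_iff (H : DioHyp) (V : ℕ → ℚ) (m : ℕ) :
    (∀ x ∈ consC m, MHolds (macros H) V x) ↔ ∀ c ≤ 2000 + (m + 2), V (vC c) = c := by
  have e : (∀ x ∈ consC m, MHolds (macros H) V x) ↔ V (vC 1) = 1 ∧
      ∀ c < 2000 + (m + 2), V (vC c) + V (vC 1) = V (vC (c + 1)) := by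
    unfold consC
    simp only [List.mem_append, List.mem_singleton, List.mem_map, List.mem_range]
    constructor
    · intro h
      refine ⟨(mh_one H V _).mp (h _ (Or.inl rfl)), fun c hc => ?_⟩
      exact (mh_add H V _ _ _).mp (h _ (Or.inr ⟨c, hc, rfl⟩))
    · rintro ⟨h1, h2⟩ x (rfl | ⟨c, hc, rfl⟩)
      · exact (mh_one H V _).mpr h1
      · exact (mh_add H V _ _ _).mpr (h2 c hc)
  rw [e]
  constructor
  · rintro ⟨h1, h2⟩ c
    induction c with
    | zero =>
      intro _
      have := h2 0 (by omega)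
      simpa using this
    | succ c ih =>
      intro hc
      rw [← h2 c (by omega), ih (by omega), h1]
      push_cast
      rfl
  · intro h
    refine ⟨by simpa using h 1 (by omega), fun c hc => ?_⟩
    rw [h c (by omega), h 1 (by omega), h (c + 1) (by omega)]
    push_cast
    rfl

theorem consL_iff (H : DioHyp) (V : ℕ → ℚ) {m i : ℕ} (hi : i ≤ m + 2) (h11 : V (vC 11) = 11)
    (h29 : V (vC 29) = 29) :
    (∀ x ∈ consL m i, MHolds (macros H) V x) ↔
      BaseRel ((solV V).z i) ((solV V).y i) ((solV V).w i) ∧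
      (∀ l < i, ∀ b, ArrRel 0 ((solV V).z i) ((solV V).y i) ((solV V).A i l b)) ∧
      (ArrRel 1 ((solV V).z i) ((solV V).y i) ((solV V).D i false) ∧
        ArrRel 2 ((solV V).z i) ((solV V).y i) ((solV V).D i true)) ∧
      (∀ pe ∈ [((11 : ℕ), false), ((29 : ℕ), true)],
        NT pe.1 ((solV V).w i) ∧ (∀ l < i, ∀ b, NT pe.1 (((solV V).A i l b).q b)) ∧
        ∀ b, NT pe.1 (((solV V).D i b).q pe.2)) := by
  unfold consL
  rw [min_eq_left hi]
  simp only [List.forall_mem_append, List.forall_mem_cons, List.forall_mem_flatMap,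
    List.mem_range, List.not_mem_nil, false_imp_iff, implies_true, and_true, mh_base, mh_A0,
    mh_A1, mh_A2, mh_nt, Bool.forall_bool, solV, Arr.q, arrV, Bool.toNat_false,
    Bool.toNat_true, h11, h29, if_true, if_false, Bool.false_eq_true]
  push_cast
  constructor
  · rintro ⟨⟨a1, a2, a3, a4, a5, a6, a7, a8, a9⟩, a10⟩
    exact ⟨a1, fun l hl => ⟨(a10 l hl).1, (a10 l hl).2.1⟩, ⟨a2, a3⟩,
      ⟨a4, fun l hl => ⟨(a10 l hl).2.2.1, (a10 l hl).2.2.2.1⟩, a6, a7⟩,
      ⟨a5, fun l hl => ⟨(a10 l hl).2.2.2.2.1, (a10 l hl).2.2.2.2.2⟩, a8, a9⟩⟩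
  · rintro ⟨a1, a10, ⟨a2, a3⟩, ⟨a4, a11, a6, a7⟩, ⟨a5, a12, a8, a9⟩⟩
    exact ⟨⟨a1, a2, a3, a4, a5, a6, a7, a8, a9⟩, fun l hl => ⟨(a10 l hl).1, (a10 l hl).2,
      (a11 l hl).1, (a11 l hl).2, (a12 l hl).1, (a12 l hl).2⟩⟩

theorem consT_iff (H : DioHyp) (V : ℕ → ℚ) (m K : ℕ) (h : V (vC 1931) = 1931) :
    (∀ x ∈ consT m K, MHolds (macros H) V x) ↔
      (∀ k < K, ArrRel 0 ((solV V).z (m + 1)) ((solV V).y (m + 1)) ((solV V).B k)) ∧
      ArrRel 1 ((solV V).z (m + 1)) ((solV V).y (m + 1)) (solV V).Ds ∧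
      (NT 1931 ((solV V).w 0) ∧ ∀ b, NT 1931 (((solV V).D 0 b).q b)) := by
  unfold consT
  simp only [List.forall_mem_append, List.forall_mem_cons, List.forall_mem_map,
    List.mem_range, List.not_mem_nil, false_imp_iff, implies_true, and_true, mh_A0,
    mh_A1, mh_nt, Bool.forall_bool, solV, Arr.q, arrV, Bool.toNat_false,
    Bool.toNat_true, h, if_true, if_false, Bool.false_eq_true]
  constructor
  · rintro ⟨⟨a1, a2, a3, a4⟩, a5⟩
    exact ⟨a5, a1, a2, a3, a4⟩
  · rintro ⟨a5, a1, a2, a3, a4⟩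
    exact ⟨⟨a1, a2, a3, a4⟩, a5⟩

/-- the families of pairs -/
def psQ (S : Sol) (I : DInst) (o : ℕ) : List (Arr × Arr) :=
  match (Nat.unpair o).1 with
  | 0 => S.pairs (Nat.unpair o).2
  | 1 => S.pairs I.m
  | _ => S.indPairs I (Nat.unpair (Nat.unpair o).2).2

/-- the families of clauses -/
def clsQ (S : Sol) (I : DInst) (o : ℕ) : List (List ℚ) :=
  match (Nat.unpair o).1 with
  | 0 => S.stepCls (Nat.unpair o).2
  | 1 => S.stepCls I.m ++ S.lastCls I
  | _ => [[(S.B (Nat.unpair (Nat.unpair o).2).1).w0, (S.B (Nat.unpair (Nat.unpair o).2).1).w1,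
      S.Ds.w1]]

theorem cons_iff (H : DioHyp) (I : DInst) :
    (∃ V : ℕ → ℚ, ∀ x ∈ cons I, MHolds (macros H) V x) ↔ RSat I := by
  unfold cons
  simp only [List.forall_mem_append]
  constructor
  · rintro ⟨V, ⟨⟨⟨⟨⟨hC, hL⟩, hT⟩, hS⟩, hE⟩, hI⟩⟩
    rw [consC_iff] at hC
    have h1 : V (vC 1) = 1 := by simpa using hC 1 (by omega)
    have h11 : V (vC 11) = 11 := by simpa using hC 11 (by omega)
    have h29 : V (vC 29) = 29 := by simpa using hC 29 (by omega)
    have h319 : V (vC 319) = 319 := by simpa using hC 319 (by omega)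
    have h1931 : V (vC 1931) = 1931 := by simpa using hC 1931 (by omega)
    rw [consT_iff H V _ _ h1931] at hT
    have hL' := fun i (hi : i ≤ I.m + 1) =>
      (consL_iff H V (m := I.1.length) (i := i) (by simp only [DInst.m] at hi; omega) h11 h29).mp
        fun x hx => hL x (List.mem_flatMap.mpr ⟨i, List.mem_range.mpr
          (by simp only [DInst.m] at hi; omega), hx⟩)
    refine ⟨solV V, fun i hi => (hL' i hi).1, fun i hi => (hL' i hi).2.1,
      fun i hi => (hL' i hi).2.2.1, hT.1, hT.2.1, fun i hi => (hL' i hi).2.2.2, hT.2.2,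
      ?_, ?_, ?_⟩
    · intro i hi
      have hi' : i < I.1.length := hi
      rw [pairs_solV V (M := I.1.length + 2) (by omega),
        stepCls_solV V (M := I.1.length + 2) (by omega)]
      refine obs_sound H (o := Nat.pair 0 i) ?_ h1 h319
        fun x hx => hS x (List.mem_flatMap.mpr ⟨i, List.mem_range.mpr hi', hx⟩)
      intro c hc
      rw [length_nPairs (by omega)] at hc
      exact hC c (by omega)
    · rw [show I.m = I.1.length from rfl, pairs_solV V (M := I.1.length + 2) (by omega),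
        stepCls_solV V (M := I.1.length + 2) (by omega), lastCls_solV V h1, ← List.map_append]
      refine obs_sound H (o := Nat.pair 1 0) ?_ h1 h319 hE
      intro c hc
      rw [length_nPairs (by omega)] at hc
      exact hC c (by omega)
    · intro k hk j hj hkj
      rw [ind_solV]
      refine obs_sound H (o := Nat.pair 2 (Nat.pair k j))
        (cls := [[cmp (aB k) 2, cmp (aB k) 3, cmp aS 3]]) ?_ h1 h319 fun x hx => hI x ?_
      · intro c hc
        have := length_nInd I.1.length j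
        exact hC c (by omega)
      · refine List.mem_flatMap.mpr ⟨k, List.mem_range.mpr hk,
          List.mem_flatMap.mpr ⟨j, List.mem_range.mpr hj, ?_⟩⟩
        have hkj' : (I.2.1.getD k []).getD j false = false := hkj
        rw [if_pos hkj']
        exact hx
  · rintro ⟨S, hb, ha, hd, hB, hDs, ht, ht', hS, hE, hI⟩
    set V := mkV S (psQ S I) (clsQ S I) with hV
    have hVS : solV V = S := solV_mkV _ _ _
    have hC : ∀ c ≤ 2000 + (I.1.length + 2), V (vC c) = c := fun c _ => mkV_C _ _ _ _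
    have h1 : V (vC 1) = 1 := by simpa using hC 1 (by omega)
    have h11 : V (vC 11) = 11 := by simpa using hC 11 (by omega)
    have h29 : V (vC 29) = 29 := by simpa using hC 29 (by omega)
    have h1931 : V (vC 1931) = 1931 := by simpa using hC 1931 (by omega)
    refine ⟨V, ⟨⟨⟨⟨⟨(consC_iff H V _).mpr hC, ?_⟩, ?_⟩, ?_⟩, ?_⟩, ?_⟩⟩
    · intro x hx
      obtain ⟨i, hi, hx⟩ := List.mem_flatMap.mp hx
      rw [List.mem_range] at hi
      refine (consL_iff H V (m := I.1.length) (i := i) (by omega) h11 h29).mpr ?_ x hx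
      have hi' : i ≤ I.m + 1 := by simp only [DInst.m]; omega
      rw [hVS]
      exact ⟨hb i hi', ha i hi', hd i hi', ht i hi'⟩
    · rw [consT_iff H V _ _ h1931, hVS]
      exact ⟨hB, hDs, ht'⟩
    · intro x hx
      obtain ⟨i, hi, hx⟩ := List.mem_flatMap.mp hx
      rw [List.mem_range] at hi
      have e1 : psQ S I (Nat.pair 0 i) = S.pairs i := by simp [psQ]
      have e2 : clsQ S I (Nat.pair 0 i) = S.stepCls i := by simp [clsQ]
      refine obs_complete H S (psQ S I) (clsQ S I) ?_ ?_ ?_ x hx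
      · rw [e1, ← pairs_solV _ (by omega), ← hV, hVS]
      · rw [e2, ← stepCls_solV _ (by omega), ← hV, hVS]
      · rw [e1, e2]
        exact hS i hi
    · intro x hx
      have e1 : psQ S I (Nat.pair 1 0) = S.pairs I.m := by simp [psQ]
      have e2 : clsQ S I (Nat.pair 1 0) = S.stepCls I.m ++ S.lastCls I := by simp [clsQ]
      refine obs_complete H S (psQ S I) (clsQ S I) ?_ ?_ ?_ x hx
      · rw [e1, ← pairs_solV _ (by omega), ← hV, hVS]
        rfl
      · rw [e2, List.map_append, ← stepCls_solV _ (by omega), ← hV, ← lastCls_solV _ h1, hVS]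
        rfl
      · rw [e1, e2]
        exact hE
    · intro x hx
      obtain ⟨k, hk, hx⟩ := List.mem_flatMap.mp hx
      obtain ⟨j, hj, hx⟩ := List.mem_flatMap.mp hx
      rw [List.mem_range] at hk hj
      split_ifs at hx with hkj
      · have e1 : psQ S I (Nat.pair 2 (Nat.pair k j)) = S.indPairs I j := by simp [psQ]
        have e2 : clsQ S I (Nat.pair 2 (Nat.pair k j)) =
            [[(S.B k).w0, (S.B k).w1, S.Ds.w1]] := by simp [clsQ]
        refine obs_complete H S (psQ S I) (clsQ S I) ?_ ?_ ?_ x hx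
        · rw [e1, ← ind_solV, ← hV, hVS]
        · rw [e2, ← hV, ← hVS]
          rfl
        · rw [e1, e2]
          exact hI k hk j hj hkj
      · simp at hx

end Pool.Agent.H528R2
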