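import Pool.Agent.H528R2.Build4

/-!
# The system attached to a DQBF instance (module E2, part 5): polynomial time
-/

namespace Pool.Agent.H528R2

open Pool.Agent.NPC

section
variable {α : Type} [TEnc α] {f g h k : α → ℕ}

theorem poly_vC (hf : Poly f) : Poly (fun a => vC (f a)) := by unfold vC; fun_prop
theorem poly_vZ (hf : Poly f) : Poly (fun a => vZ (f a)) := by unfold vZ; fun_prop
theorem poly_vY (hf : Poly f) : Poly (fun a => vY (f a)) := by unfold vY; fun_prop
theorem poly_vW (hf : Poly f) : Poly (fun a => vW (f a)) := by unfold vW; fun_prop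
theorem poly_cmp (hf : Poly f) (hg : Poly g) : Poly (fun a => cmp (f a) (g a)) := by
  unfold cmp; fun_prop
theorem poly_vN (hf : Poly f) (hg : Poly g) (hh : Poly h) :
    Poly (fun a => vN (f a) (g a) (h a)) := by unfold vN; fun_prop
theorem poly_vP (hf : Poly f) (hg : Poly g) : Poly (fun a => vP (f a) (g a)) := by
  unfold vP; fun_prop
theorem poly_vQ (hf : Poly f) (hg : Poly g) (hh : Poly h) :
    Poly (fun a => vQ (f a) (g a) (h a)) := by unfold vQ; fun_prop
theorem poly_vH (hf : Poly f) (hg : Poly g) (hh : Poly h) :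
    Poly (fun a => vH (f a) (g a) (h a)) := by unfold vH; fun_prop
theorem poly_vHH (hf : Poly f) (hg : Poly g) (hh : Poly h) :
    Poly (fun a => vHH (f a) (g a) (h a)) := by unfold vHH; fun_prop
theorem poly_vL (hf : Poly f) (hg : Poly g) (hh : Poly h) :
    Poly (fun a => vL (f a) (g a) (h a)) := by unfold vL; fun_prop
theorem poly_vK (hf : Poly f) (hg : Poly g) (hh : Poly h) :
    Poly (fun a => vK (f a) (g a) (h a)) := by unfold vK; fun_prop
theorem poly_vG (hf : Poly f) (hg : Poly g) : Poly (fun a => vG (f a) (g a)) := by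
  unfold vG; fun_prop
theorem poly_vF (hf : Poly f) (hg : Poly g) (hh : Poly h) :
    Poly (fun a => vF (f a) (g a) (h a)) := by unfold vF; fun_prop
theorem poly_aA (hf : Poly f) (hg : Poly g) (hh : Poly h) :
    Poly (fun a => aA (f a) (g a) (h a)) := by unfold aA; fun_prop
theorem poly_aD (hf : Poly f) (hg : Poly g) : Poly (fun a => aD (f a) (g a)) := by
  unfold aD; fun_prop
theorem poly_aB (hf : Poly f) : Poly (fun a => aB (f a)) := by unfold aB; fun_prop

end

attribute [fun_prop] poly_vC poly_vZ poly_vY poly_vW poly_cmp poly_vN poly_vP poly_vQ poly_vH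
  poly_vHH poly_vL poly_vK poly_vG poly_vF poly_aA poly_aD poly_aB

section
variable {α : Type} [TEnc α] {f g h k : α → ℕ}

theorem poly_arrArgs (hf : Poly f) (hg : Poly g) : Poly (fun a => arrArgs (f a) (g a)) := by
  unfold arrArgs; fun_prop

attribute [fun_prop] poly_arrArgs

theorem poly_range (hf : UPoly f) : Poly (fun a => List.range (f a)) := hf.range

theorem poly_range_min (hf : Poly f) (hg : UPoly g) :
    Poly (fun a => List.range (min (f a) (g a))) :=
  UPoly.range (UPoly.of_le (NPC.Poly.min hf hg.toPoly) hg fun _ => min_le_right _ _)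

theorem poly_consC (hf : UPoly f) : Poly (fun a => consC (f a)) := by
  unfold consC
  refine NPC.Poly.append (by fun_prop) (NPC.Poly.map
    (F := fun _ c => ((7 : ℕ), [vC c, vC 1, vC (c + 1)]))
    (poly_range (UPoly.add (UPoly.const _) (UPoly.add hf (UPoly.const _)))) (by fun_prop))

theorem poly_consL (hf : UPoly f) (hg : Poly g) : Poly (fun a => consL (f a) (g a)) := by
  unfold consL
  refine NPC.Poly.append (by fun_prop) (NPC.Poly.flatMap (F := fun (a : α) (l : ℕ) =>
    ([(1, arrArgs (g a) (aA (g a) l 0)),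
    (1, arrArgs (g a) (aA (g a) l 1)), (4, [vC 11, cmp (aA (g a) l 0) 4]), (4, [vC 11, cmp (aA (g a) l 1) 5]),
    (4, [vC 29, cmp (aA (g a) l 0) 4]), (4, [vC 29, cmp (aA (g a) l 1) 5])] : List (ℕ × List ℕ)))
    (poly_range_min hg (UPoly.add hf (UPoly.const _))) (by fun_prop))

theorem poly_consT (hf : UPoly f) (hg : UPoly g) : Poly (fun a => consT (f a) (g a)) := by
  unfold consT
  have hf' := hf.toPoly
  refine NPC.Poly.append (by fun_prop) (NPC.Poly.map (F := fun a k =>
    (((1 : ℕ), arrArgs (f a + 1) (aB k)) : ℕ × List ℕ))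
    (poly_range hg) (by fun_prop))

theorem poly_nPairs (hf : UPoly f) (hg : Poly g) : Poly (fun a => nPairs (f a) (g a)) := by
  unfold nPairs
  refine NPC.Poly.append (NPC.Poly.map (F := fun (a : α) (l : ℕ) => (aA (g a) l 0, aA (g a) l 1))
    (poly_range_min hg hf) (by fun_prop)) (by fun_prop)

theorem poly_nStepCls (hf : UPoly f) (hg : Poly g) :
    Poly (fun a => nStepCls (f a) (g a)) := by
  unfold nStepCls
  have h1 : Poly (fun a => nPairs (f a) (g a)) := poly_nPairs hf hg
  refine NPC.Poly.append (by fun_prop) (NPC.Poly.flatMap (F := fun (a : α) (l : ℕ) =>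
    [cmp ((nPairs (f a) (g a)).getD l (0, 0)).1 2, cmp (aA (g a + 1) l 0) 4,
      cmp (aA (g a + 1) l 1) 4].flatMap
      (fun x =>
      [[x, cmp ((nPairs (f a) (g a)).getD l (0, 0)).2 3], [x, cmp (aA (g a + 1) l 0) 5],
        [x, cmp (aA (g a + 1) l 1) 5]]))
    (poly_range_min (by fun_prop) hf) ?_)
  have h2 : Poly (fun p : α × ℕ => (nPairs (f p.1) (g p.1)).getD p.2 (0, 0)) :=
    NPC.Poly.getD (h1.comp (NPC.Poly.fst NPC.Poly.id)) (by fun_prop) (NPC.Poly.const _)
  have h3 : Poly (fun p : α × ℕ => cmp ((nPairs (f p.1) (g p.1)).getD p.2 (0, 0)).2 3) :=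
    poly_cmp (NPC.Poly.snd h2) (NPC.Poly.const _)
  have h4 : Poly (fun p : α × ℕ => cmp ((nPairs (f p.1) (g p.1)).getD p.2 (0, 0)).1 2) :=
    poly_cmp (NPC.Poly.fst h2) (NPC.Poly.const _)
  have h5 : ∀ b c : ℕ, Poly (fun p : α × ℕ => cmp (aA (g p.1 + 1) p.2 b) c) := fun b c => by
    fun_prop
  have h6 : Poly (fun q : (α × ℕ) × ℕ => q.2) := NPC.Poly.snd NPC.Poly.id
  have h7 : Poly (fun q : (α × ℕ) × ℕ => q.1) := NPC.Poly.fst NPC.Poly.id
  refine NPC.Poly.flatMap (F := fun (p : α × ℕ) (x : ℕ) =>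
      [[x, cmp ((nPairs (f p.1) (g p.1)).getD p.2 (0, 0)).2 3], [x, cmp (aA (g p.1 + 1) p.2 0) 5],
        [x, cmp (aA (g p.1 + 1) p.2 1) 5]])
      (NPC.Poly.cons h4 (NPC.Poly.cons (h5 0 4) (NPC.Poly.cons (h5 1 4) (NPC.Poly.const [])))) ?_
  have h8 : ∀ {u : (α × ℕ) × ℕ → ℕ}, Poly u → Poly (fun q : (α × ℕ) × ℕ => [q.2, u q]) :=
    fun hu => NPC.Poly.cons h6 (NPC.Poly.cons hu (NPC.Poly.const []))
  exact NPC.Poly.cons (h8 (h3.comp h7)) (NPC.Poly.cons (h8 ((h5 0 5).comp h7))
    (NPC.Poly.cons (h8 ((h5 1 5).comp h7)) (NPC.Poly.const [])))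

theorem poly_nAtom {I : α → DInst} {l : α → Bool × Bool × ℕ} (hI : Poly I) (hl : Poly l) :
    Poly (fun a => nAtom (I a) (l a)) := by
  unfold nAtom
  fun_prop

theorem poly_nLastCls {I : α → DInst} (hI : Poly I) :
    Poly (fun a => nLastCls (I a)) := by
  unfold nLastCls
  refine NPC.Poly.append (NPC.Poly.append (by fun_prop) (NPC.Poly.map
    (F := fun _ k => [cmp (aB k) 4, cmp (aB k) 5])
    (poly_range (UPoly.length (by fun_prop))) (by fun_prop)))
    (NPC.Poly.map (F := fun a cl => List.map (nAtom (I a)) cl) (by fun_prop) ?_)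
  refine NPC.Poly.map (F := fun (p : α × List (Bool × Bool × ℕ)) l => nAtom (I p.1) l)
    (by fun_prop) (poly_nAtom (by fun_prop) (by fun_prop))

theorem poly_nInd {l : α → List ℕ} (hf : Poly f) (hg : Poly g) (hl : Poly l) :
    Poly (fun a => nInd (f a) (g a) (l a)) := by
  unfold nInd
  fun_prop

theorem poly_obsC1 {ps : α → List (ℕ × ℕ)} (hf : Poly f) (hg : Poly g) (hps : Poly ps) :
    Poly (fun a => obsC1 (f a) (ps a) (g a)) := by
  unfold obsC1
  refine NPC.Poly.append (by fun_prop) (NPC.Poly.flatMap (F := fun (a : α) (p : (ℕ × ℕ) × ℕ) =>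
      ([(8, [vC (g a + 1), vN (f a) (g a) (p.2 + 1), vQ (f a) (g a) p.2]),
      (7, [vP (f a) p.2, vQ (f a) (g a) p.2, vN (f a) (g a) p.2]),
      (6, [vN (f a) (g a) 0, cmp p.1.1 2, cmp p.1.2 3, vH (f a) (g a) p.2]),
      (8, [vH (f a) (g a) p.2, vHH (f a) (g a) (p.2 + 1), vHH (f a) (g a) p.2])] :
      List (ℕ × List ℕ))) (by fun_prop) (by fun_prop))

theorem poly_obsC2 {cl : α → List ℕ} (hf : Poly f) (hg : UPoly g) (hh : Poly h)
    (hcl : Poly cl) :
    Poly (fun a => obsC2 (f a) (g a) (h a) (cl a)) := by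
  unfold obsC2
  refine NPC.Poly.append (NPC.Poly.append (by fun_prop) (by fun_prop)) (NPC.Poly.flatMap
    (F := fun (a : α) (c : ℕ) => ([(8, [vG (f a) c, vK (f a) (h a) 0, vF (f a) c (h a)]),
      (4, [vN (f a) c 0, vF (f a) c (h a)])] : List (ℕ × List ℕ))) (poly_range hg)
      (by fun_prop))

theorem poly_obsC {ps : α → List (ℕ × ℕ)} {cls : α → List (List ℕ)} (hf : Poly f)
    (hps : Poly ps) (hcls : Poly cls) :
    Poly (fun a => obsC (f a) (ps a) (cls a)) := by
  unfold obsC
  refine NPC.Poly.append (NPC.Poly.append (by fun_prop) ?_) ?_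
  · refine NPC.Poly.flatMap (F := fun (a : α) (c : ℕ) => obsC1 (f a) (ps a) c)
      (poly_range (UPoly.length hps)) (poly_obsC1 (by fun_prop) (by fun_prop) (by fun_prop))
  · refine NPC.Poly.flatMap (F := fun (a : α) (q : List ℕ × ℕ) => obsC2 (f a) (ps a).length q.2 q.1) (by fun_prop)
      (poly_obsC2 (by fun_prop) (UPoly.length (by fun_prop)) (by fun_prop) (by fun_prop))

theorem poly_consI {I : α → DInst} (hI : Poly I) : Poly (fun a => consI (I a)) := by
  unfold consI
  refine NPC.Poly.flatMap (F := fun (a : α) (k : ℕ) => (List.range (I a).1.length).flatMap (fun j =>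
    if ((I a).2.1.getD k []).getD j false = false then
      obsC (Nat.pair 2 (Nat.pair k j)) (nInd (I a).1.length j (List.range ((I a).1.length + 1)))
        [[cmp (aB k) 2, cmp (aB k) 3, cmp aS 3]]
    else [])) (poly_range (UPoly.length (by fun_prop))) ?_
  refine NPC.Poly.flatMap (F := fun (p : α × ℕ) (j : ℕ) =>
    if ((I p.1).2.1.getD p.2 []).getD j false = false then
      obsC (Nat.pair 2 (Nat.pair p.2 j)) (nInd (I p.1).1.length j
        (List.range ((I p.1).1.length + 1)))
        [[cmp (aB p.2) 2, cmp (aB p.2) 3, cmp aS 3]]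
    else []) (poly_range (UPoly.length (by fun_prop))) ?_
  have h1 : Poly (fun q : (α × ℕ) × ℕ => obsC (Nat.pair 2 (Nat.pair q.1.2 q.2))
      (nInd (I q.1.1).1.length q.2 (List.range ((I q.1.1).1.length + 1)))
        [[cmp (aB q.1.2) 2, cmp (aB q.1.2) 3, cmp aS 3]]) :=
    poly_obsC (by fun_prop) (poly_nInd (by fun_prop) (by fun_prop)
      (poly_range (UPoly.add (UPoly.length (by fun_prop)) (UPoly.const 1)))) (by fun_prop)
  have h2 : Poly (fun q : (α × ℕ) × ℕ =>
      decide ((((I q.1.1).2.1.getD q.1.2 []).getD q.2 false) = false)) :=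
    NPC.Poly.dec_eq (NPC.Poly.getD (NPC.Poly.getD (by fun_prop) (by fun_prop)
      (NPC.Poly.const [])) (by fun_prop) (NPC.Poly.const false)) (NPC.Poly.const false)
  exact NPC.Poly.ite h2 h1 (NPC.Poly.const [])

theorem poly_cons : Poly cons := by
  unfold cons
  have hm : UPoly (fun I : DInst => I.1.length) := UPoly.length (by fun_prop)
  have hm' : Poly (fun I : DInst => I.1.length) := hm.toPoly
  have hK : UPoly (fun I : DInst => I.2.1.length) := UPoly.length (by fun_prop)
  have hM : UPoly (fun I : DInst => I.1.length + 2) := UPoly.add hm (UPoly.const 2)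
  refine NPC.Poly.append (NPC.Poly.append (NPC.Poly.append (NPC.Poly.append (NPC.Poly.append
    (poly_consC hm) ?_) (poly_consT hm hK)) ?_) ?_) (poly_consI NPC.Poly.id)
  · exact NPC.Poly.flatMap (F := fun (I : DInst) (i : ℕ) => consL I.1.length i) (poly_range hM)
      (poly_consL (hm.comp (NPC.Poly.fst NPC.Poly.id)) (NPC.Poly.snd NPC.Poly.id))
  · exact NPC.Poly.flatMap (F := fun (I : DInst) (i : ℕ) => obsC (Nat.pair 0 i)
      (nPairs (I.1.length + 2) i) (nStepCls (I.1.length + 2) i)) (poly_range hm)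
      (poly_obsC (by fun_prop)
        (poly_nPairs (hM.comp (NPC.Poly.fst NPC.Poly.id)) (NPC.Poly.snd NPC.Poly.id))
        (poly_nStepCls (hM.comp (NPC.Poly.fst NPC.Poly.id)) (NPC.Poly.snd NPC.Poly.id)))
  · exact poly_obsC (by fun_prop) (poly_nPairs hM hm')
      (NPC.Poly.append (poly_nStepCls hM hm') (poly_nLastCls NPC.Poly.id))

end

/-- the main result of this module, from the fact that the macros are Diophantine -/
theorem exists_build_of (H : DioHyp) : ∃ build : DInst → List ER.Con,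
    Poly build ∧ ∀ I, QSat (build I) ↔ RSat I :=
  ⟨fun I => mcompile (macros H) (cons I), (poly_mcompile (macros H)).comp poly_cons,
    fun I => (qsat_mcompile _ _).trans (cons_iff H I)⟩

end Pool.Agent.H528R2
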