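import Pool.Agent.H528R2.ChainS

/-!
# Completeness of the chain: a solution of the DQBF gives a solution over `ℚ`
-/

namespace Pool.Agent.H528R2.Chain

open Pool.Agent.H528R2

/-- `n = k M` with `k ≡ β mod t` -/
def Str (M n : ℤ) (t : ℕ) (β : Bool) : Prop :=
  ∃ k : ℤ, n = k * M ∧ (t : ℤ) ∣ k - (if β then 1 else 0)

theorem Str.hi {M n : ℤ} {t : ℕ} {β : Bool} (ht : Inert t) (hM : M ≠ 0) (hn0 : n ≠ 0)
    (hn : n ≠ M) (hv : Vis t M) (h : Str M n t β) : Hi t M (sh M n β) := by
  have := Fact.mk ht.1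
  obtain ⟨k, rfl, hk⟩ := h
  have hsh : sh M (k * M) β = (k - (if β then 1 else 0)) * M := by
    cases β
    · simp [sh]
    · simp [sh]; ring
  have hne : (k - (if β then 1 else 0)) ≠ 0 := by
    intro h0
    cases β
    · simp only [Bool.false_eq_true, if_false, sub_zero] at h0
      rw [h0] at hn0; simp at hn0
    · simp only [if_true] at h0
      have : k = 1 := by omega
      rw [this] at hn; simp at hn
  rw [hsh]
  refine ⟨Vis.of_dvd hv (dvd_mul_left _ _), ?_⟩
  rw [padicValInt.mul hne hM]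
  have h1 : (t : ℤ) ^ 1 ∣ (k - (if β then 1 else 0)) := by rw [pow_one]; exact hk
  rw [padicValInt_dvd_iff] at h1
  have := h1.resolve_left hne
  omega

theorem exists_crt (F : Finset ℕ) (hF : ∀ t ∈ F, Inert t) (val : ℕ → Bool) (p : ℕ) :
    ∃ k : ℤ, 3 ≤ k ∧ (p = 1 → Odd k) ∧ (p = 2 → Even k) ∧
      ∀ t ∈ F, (t : ℤ) ∣ k - (if val t then 1 else 0) := by
  classical
  have hp : ∀ t ∈ insert 2 F, t.Prime := by
    intro t ht
    rcases Finset.mem_insert.1 ht with rfl | ht
    · exact Nat.prime_two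
    · exact (hF t ht).1
  obtain ⟨k0, hk0⟩ := Nat.chineseRemainderOfFinset
    (fun t => if t = 2 then (if p = 1 then 1 else 0) else if val t then 1 else 0)
    (fun t => t) (insert 2 F) (fun t ht => (hp t ht).ne_zero)
    (fun a ha b hb hab => (Nat.coprime_primes (hp a ha) (hp b hb)).2 hab)
  set P := ∏ t ∈ insert 2 F, t with hP
  have hP1 : 1 ≤ P := Nat.one_le_iff_ne_zero.2 (Finset.prod_ne_zero_iff.2 fun t ht =>
    (hp t ht).ne_zero)
  have hdvd : ∀ t ∈ insert 2 F, (t : ℤ) ∣ (P : ℤ) := fun t ht => by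
    exact_mod_cast Finset.dvd_prod_of_mem (fun t => t) ht
  have h2 := hk0 2 (Finset.mem_insert_self _ _)
  simp only [if_true] at h2
  have hP2 := hdvd 2 (Finset.mem_insert_self _ _)
  refine ⟨(k0 : ℤ) + 4 * P, by omega, ?_, ?_, ?_⟩
  · intro h1
    rw [if_pos h1] at h2
    have h3 : k0 % 2 = 1 := h2
    rw [Int.odd_iff]
    omega
  · intro h1
    rw [if_neg (by omega)] at h2
    have h3 : k0 % 2 = 0 := h2
    rw [Int.even_iff]
    omega
  · intro t ht
    have h3 := hk0 t (Finset.mem_insert_of_mem ht)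
    simp only [if_neg (inert_ne_two (hF t ht))] at h3
    have h4 : (t : ℤ) ∣ (k0 : ℤ) - ((if val t then 1 else 0 : ℕ) : ℤ) :=
      (Nat.modEq_iff_dvd.1 h3.symm)
    have h5 : (t : ℤ) ∣ 4 * (P : ℤ) :=
      dvd_mul_of_dvd_right (hdvd t (Finset.mem_insert_of_mem ht)) 4
    have h6 := dvd_add h4 h5
    have e : (k0 : ℤ) - ((if val t then 1 else 0 : ℕ) : ℤ) + 4 * (P : ℤ) =
        (k0 : ℤ) + 4 * P - (if val t then 1 else 0) := by
      push_cast; ring
    rwa [e] at h6

theorem exists_index {M : ℤ} (hM : Odd M) (F : Finset ℕ) (hF : ∀ t ∈ F, Inert t)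
    (val : ℕ → Bool) (p : ℕ) : ∃ n : ℤ, n ≠ 0 ∧ n ≠ M ∧ n ≠ 2 * M ∧ Par p n ∧
      ∀ t ∈ F, Str M n t (val t) := by
  obtain ⟨k, hk3, hk1, hk2, hk⟩ := exists_crt F hF val p
  have hM0 := odd_ne_zero hM
  refine ⟨k * M, mul_ne_zero (by omega) hM0, ?_, ?_, ⟨fun h => (hk1 h).mul hM, fun h =>
    (hk2 h).mul_right M⟩, fun t ht => ⟨k, rfl, hk t ht⟩⟩
  · intro h
    have : (k - 1) * M = 0 := by linarith
    rcases mul_eq_zero.1 this with h | h
    · omega
    · exact hM0 h
  · intro h
    have : (k - 2) * M = 0 := by linarith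
    rcases mul_eq_zero.1 this with h | h
    · omega
    · exact hM0 h

/-- the data of a level -/
structure Lvl where
  M : ℤ
  nA : ℕ → Bool → ℤ
  nD : Bool → ℤ
  F : Finset ℕ

open Classical in
/-- the coordinate `l` of the address of the prime `t` in the next level -/
noncomputable def adr (i : ℕ) (L : Lvl) (t l : ℕ) : Bool :=
  if l < i then !(decide (Vis t (L.nA l false))) else !(decide (Vis t (L.nD false)))

structure WF (i : ℕ) (L : Lvl) : Prop where
  Modd : Odd L.M
  h11 : Vis 11 L.M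
  h29 : Vis 29 L.M
  h1931 : Vis 1931 L.M
  A0 : ∀ l < i, ∀ b, L.nA l b ≠ 0 ∧ L.nA l b ≠ L.M ∧ L.nA l b ≠ 2 * L.M
  D0 : ∀ b, L.nD b ≠ 0 ∧ L.nD b ≠ L.M ∧ L.nD b ≠ 2 * L.M
  Dp : Odd (L.nD false) ∧ Even (L.nD true)
  A11 : ∀ l < i, ∀ b, Str L.M (L.nA l b) 11 b
  A29 : ∀ l < i, ∀ b, Str L.M (L.nA l b) 29 b
  D11 : ∀ b, Str L.M (L.nD b) 11 false
  D29 : ∀ b, Str L.M (L.nD b) 29 true
  F : ∀ t ∈ L.F, Inert t ∧ Vis t L.M ∧ t ≠ 11 ∧ t ≠ 29
  F1931 : 1931 ∈ L.F
  FD : ∀ t ∈ L.F, ∀ b, Str L.M (L.nD b) t b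

structure Stp (i : ℕ) (L L' : Lvl) : Prop where
  good : ∀ t, Inert t → t ≠ 11 → t ≠ 29 →
    (∀ l < i, Vis t (L.nA l false) ∨ Vis t (L.nA l true - L.M)) →
    (Vis t (L.nD false) ∨ Vis t (L.nD true - L.M)) → t ∈ L'.F
  A : ∀ t ∈ L'.F, ∀ l < i + 1, ∀ b, Str L'.M (L'.nA l b) t (adr i L t l)

theorem vis_of_dvd {t : ℕ} {r : ℕ} (h : rk t ∣ r) {n : ℤ} (hn : (r : ℤ) ∣ n) : Vis t n := by
  have h1 : (rk t : ℤ) ∣ (r : ℤ) := by exact_mod_cast h
  exact (h1.trans hn).trans (dvd_mul_left _ _)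

/-- a level with given address function -/
theorem exists_lvl (i : ℕ) {M : ℤ} (hM : Odd M) (h315 : (315 : ℤ) ∣ M) (ad : ℕ → ℕ → Bool) :
    ∃ L, WF i L ∧ L.M = M ∧ (∀ t, Inert t → t ≠ 11 → t ≠ 29 → Vis t M → t ∈ L.F) ∧
      ∀ t ∈ L.F, ∀ l < i, ∀ b, Str L.M (L.nA l b) t (ad t l) := by
  classical
  have hM0 := odd_ne_zero hM
  have hfin := finite_rk (eight_ne hM0)
  set F : Finset ℕ := (hfin.toFinset).filter (fun t => Inert t ∧ t ≠ 11 ∧ t ≠ 29) with hF
  have hmem : ∀ t, t ∈ F ↔ Vis t M ∧ Inert t ∧ t ≠ 11 ∧ t ≠ 29 := by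
    intro t
    rw [hF, Finset.mem_filter, Set.Finite.mem_toFinset]
    constructor
    · rintro ⟨⟨-, h1⟩, h2⟩
      exact ⟨h1, h2⟩
    · rintro ⟨h1, h2⟩
      exact ⟨⟨h2.1.1, h1⟩, h2⟩
  set T : Finset ℕ := insert 11 (insert 29 F) with hT
  have hTi : ∀ t ∈ T, Inert t := by
    intro t ht
    rw [hT, Finset.mem_insert, Finset.mem_insert] at ht
    rcases ht with rfl | rfl | ht
    · exact inert_eleven
    · exact inert_29
    · exact ((hmem t).1 ht).2.1
  have hFT : ∀ t ∈ F, t ∈ T := fun t ht => by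
    rw [hT]; exact Finset.mem_insert_of_mem (Finset.mem_insert_of_mem ht)
  have h11T : 11 ∈ T := by rw [hT]; exact Finset.mem_insert_self _ _
  have h29T : 29 ∈ T := by rw [hT]; exact Finset.mem_insert_of_mem (Finset.mem_insert_self _ _)
  have hA := fun (l : ℕ) (b : Bool) => exists_index hM T hTi
    (fun t => if t = 11 ∨ t = 29 then b else ad t l) 0
  choose nA hA1 hA2 hA3 _ hA5 using hA
  have hD := fun (b : Bool) => exists_index hM T hTi
    (fun t => if t = 11 then false else if t = 29 then true else b) (if b then 2 else 1)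
  choose nD hD1 hD2 hD3 hD4 hD5 using hD
  have e5 : (5 : ℤ) ∣ M := (by norm_num : (5 : ℤ) ∣ 315).trans h315
  have e7 : (7 : ℤ) ∣ M := (by norm_num : (7 : ℤ) ∣ 315).trans h315
  have e9 : (9 : ℤ) ∣ M := (by norm_num : (9 : ℤ) ∣ 315).trans h315
  have hv1931 : Vis 1931 M := vis_of_dvd rk_1931.1 (by exact_mod_cast e9)
  have h1931 : 1931 ∈ F := (hmem 1931).2 ⟨hv1931, inert_1931, by norm_num, by norm_num⟩
  refine ⟨⟨M, nA, nD, F⟩, ⟨hM, vis_of_dvd (r := 5) (by rw [rk_eleven]) (by exact_mod_cast e5),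
    vis_of_dvd (r := 7) (by rw [rk_29]) (by exact_mod_cast e7), hv1931,
    fun l _ b => ⟨hA1 l b, hA2 l b, hA3 l b⟩, fun b => ⟨hD1 b, hD2 b, hD3 b⟩, ⟨?_, ?_⟩, ?_, ?_, ?_,
    ?_, ?_, h1931, ?_⟩, rfl, ?_, ?_⟩
  · exact (hD4 false).1 (by simp)
  · exact (hD4 true).2 (by simp)
  · intro l _ b
    have := hA5 l b 11 h11T
    simpa using this
  · intro l _ b
    have := hA5 l b 29 h29T
    simpa using this
  · intro b
    have := hD5 b 11 h11T
    simpa using this
  · intro b
    have := hD5 b 29 h29T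
    simpa using this
  · intro t ht
    have := (hmem t).1 ht
    exact ⟨this.2.1, this.1, this.2.2⟩
  · intro t ht b
    have h1 := (hmem t).1 ht
    have := hD5 b t (hFT t ht)
    simp only [if_neg h1.2.2.1, if_neg h1.2.2.2] at this
    exact this
  · intro t h1 h2 h3 h4
    exact (hmem t).2 ⟨h4, h1, h2, h3⟩
  · intro t ht l _ b
    have h1 := (hmem t).1 ht
    have := hA5 l b t (hFT t ht)
    have hne : ¬ (t = 11 ∨ t = 29) := by
      rintro (h | h)
      · exact h1.2.2.1 h
      · exact h1.2.2.2 h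
    simp only [if_neg hne] at this
    exact this

theorem exists_zero : ∃ L, WF 0 L := by
  obtain ⟨L, hL, -⟩ := exists_lvl 0 (M := 315) (by decide) dvd_rfl (fun _ _ => false)
  exact ⟨L, hL⟩

theorem exists_stp {i : ℕ} {L : Lvl} (h : WF i L) : ∃ L', WF (i + 1) L' ∧ Stp i L L' := by
  have hodd2 : Odd (L.nD true - L.M) := h.Dp.2.sub_odd h.Modd
  have hM : Odd (315 * (L.nD false) * (L.nD true - L.M)) := by
    apply Odd.mul _ hodd2
    apply Odd.mul _ h.Dp.1
    decide
  obtain ⟨L', hL', hM', hgood, hA⟩ := exists_lvl (i + 1) hM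
    (dvd_mul_of_dvd_left (dvd_mul_right _ _) _) (adr i L)
  refine ⟨L', hL', ⟨?_, hA⟩⟩
  intro t ht h11 h29 _ hD
  apply hgood t ht h11 h29
  rcases hD with hD | hD
  · exact hD.of_dvd (dvd_mul_of_dvd_left (dvd_mul_left _ _) _)
  · exact hD.of_dvd (dvd_mul_left _ _)

noncomputable def lv : (i : ℕ) → {L : Lvl // WF i L}
  | 0 => ⟨exists_zero.choose, exists_zero.choose_spec⟩
  | i + 1 => ⟨(exists_stp (lv i).2).choose, (exists_stp (lv i).2).choose_spec.1⟩

theorem lv_stp (i : ℕ) : Stp i (lv i).1 (lv (i + 1)).1 := (exists_stp (lv i).2).choose_spec.2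

/-- the solution -/
noncomputable def sol (m : ℕ) (nB : ℕ → ℤ) (nS : ℤ) : Sol where
  z i := zz (lv i).1.M
  y i := yy (lv i).1.M
  w i := 1 / zz (8 * (lv i).1.M)
  A i l b := arrOf (lv i).1.M ((lv i).1.nA l b)
  D i b := arrOf (lv i).1.M ((lv i).1.nD b)
  B k := arrOf (lv (m + 1)).1.M (nB k)
  Ds := arrOf (lv (m + 1)).1.M nS

theorem sol_pairs (m : ℕ) (nB : ℕ → ℤ) (nS : ℤ) (i : ℕ) :
    (sol m nB nS).pairs i = (((List.range i).map (fun l => ((lv i).1.nA l false, (lv i).1.nA l true))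
      ++ [((lv i).1.nD false, (lv i).1.nD true)]).map
        (fun p => (arrOf (lv i).1.M p.1, arrOf (lv i).1.M p.2))) := by
  unfold Sol.pairs
  rw [List.map_append, List.map_map]
  rfl

/-- primes seen by the pairs of level `i` -/
theorem step_cls (m : ℕ) (nB : ℕ → ℤ) (nS : ℤ) (i : ℕ) {t : ℕ} (ht : Inert t)
    (hF : t ∈ (lv (i + 1)).1.F)
    (hv : ∀ l < i, Vis t ((lv i).1.nA l false) ∨ Vis t ((lv i).1.nA l true - (lv i).1.M))
    (hv' : Vis t ((lv i).1.nD false) ∨ Vis t ((lv i).1.nD true - (lv i).1.M)) :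
    ∀ cl ∈ (sol m nB nS).stepCls i, ∃ x ∈ cl, Vge t 1 x := by
  have hwf := (lv i).2
  have hwf' := (lv (i + 1)).2
  have hM := odd_ne_zero hwf.Modd
  have hM' := odd_ne_zero hwf'.Modd
  have hvis := (hwf'.F t hF).2.1
  have hst := lv_stp i
  intro cl hcl
  unfold Sol.stepCls at hcl
  rcases List.mem_append.1 hcl with hcl | hcl
  · simp only [List.mem_cons, List.not_mem_nil, or_false] at hcl
    rcases hcl with rfl | rfl | rfl
    · exact ⟨_, List.mem_singleton.2 rfl, (inv_zz_iff ht.1 hM').2 hvis⟩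
    · refine ⟨_, List.mem_singleton.2 rfl, ?_⟩
      have h0 := hwf'.D0 false
      exact (q0_iff ht hM' h0.1 hvis).2 ((hwf'.FD t hF false).hi ht hM' h0.1 h0.2.1 hvis)
    · refine ⟨_, List.mem_singleton.2 rfl, ?_⟩
      have h0 := hwf'.D0 true
      exact (q1_iff ht hM' h0.2.1 hvis).2 ((hwf'.FD t hF true).hi ht hM' h0.1 h0.2.1 hvis)
  · obtain ⟨l, hl, hcl⟩ := List.mem_flatMap.1 hcl
    rw [List.mem_range] at hl
    simp only at hcl
    obtain ⟨x, hx, hcl⟩ := List.mem_flatMap.1 hcl
    obtain ⟨y, hy, rfl⟩ := List.mem_map.1 hcl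
    have hp : ∃ n0 n1 : ℤ, ((sol m nB nS).pairs i).getD l Sol.stepCls.default_pair =
        (arrOf (lv i).1.M n0, arrOf (lv i).1.M n1) ∧ n0 ≠ 0 ∧ n1 ≠ (lv i).1.M ∧
        (Vis t n0 ∨ Vis t (n1 - (lv i).1.M)) ∧
        (adr i (lv i).1 t l = false → Vis t n0) ∧ (adr i (lv i).1 t l = true → ¬ Vis t n0) := by
      rcases Nat.lt_or_ge l i with hli | hli
      · refine ⟨(lv i).1.nA l false, (lv i).1.nA l true, ?_, (hwf.A0 l hli false).1,
          (hwf.A0 l hli true).2.1, hv l hli, ?_, ?_⟩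
        · unfold Sol.pairs
          rw [List.getD_append _ _ _ _ (by simpa using hli),
            List.getD_eq_getElem _ _ (by simpa using hli)]
          rw [List.getElem_map, List.getElem_range]
          rfl
        · unfold adr; rw [if_pos hli]; simp
        · unfold adr; rw [if_pos hli]; simp
      · have hli : l = i := by omega
        subst hli
        refine ⟨(lv l).1.nD false, (lv l).1.nD true, ?_, (hwf.D0 false).1,
          (hwf.D0 true).2.1, hv', ?_, ?_⟩
        · unfold Sol.pairs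
          rw [List.getD_append_right _ _ _ _ (by simp)]
          simp only [List.length_map, List.length_range, Nat.sub_self, List.getD_cons_zero]
          rfl
        · unfold adr; rw [if_neg (lt_irrefl _)]; simp
        · unfold adr; rw [if_neg (lt_irrefl _)]; simp
    obtain ⟨n0, n1, hpair, hn0, hn1, hv01, had0, had1⟩ := hp
    rw [hpair] at hx hy
    have hA0 := fun b => hwf'.A0 l hl b
    have hAs := fun b => hst.A t hF l hl b
    cases had : adr i (lv i).1 t l with
    | false =>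
      refine ⟨x, by simp, ?_⟩
      simp only [List.mem_cons, List.not_mem_nil, or_false] at hx
      have key : ∀ b, Vge t 1 ((sol m nB nS).A (i + 1) l b).q0 := fun b => by
        have h1 := hAs b
        rw [had] at h1
        exact (q0_iff ht hM' (hA0 b).1 hvis).2 (h1.hi ht hM' (hA0 b).1 (hA0 b).2.1 hvis)
      rcases hx with rfl | rfl | rfl
      · exact (w0_iff ht.1 hn0).2 (had0 had)
      · exact key false
      · exact key true
    | true =>
      refine ⟨y, by simp, ?_⟩
      simp only [List.mem_cons, List.not_mem_nil, or_false] at hy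
      have key : ∀ b, Vge t 1 ((sol m nB nS).A (i + 1) l b).q1 := fun b => by
        have h1 := hAs b
        rw [had] at h1
        exact (q1_iff ht hM' (hA0 b).2.1 hvis).2 (h1.hi ht hM' (hA0 b).1 (hA0 b).2.1 hvis)
      rcases hy with rfl | rfl | rfl
      · exact (w1_iff ht.1 hn1).2 (hv01.resolve_left (had1 had))
      · exact key false
      · exact key true

/-- `R ∣ a x` only depends on the class of `x` modulo `R / gcd(R, a)` -/
theorem exists_red {R : ℕ} (hR : R ≠ 0) (a : ℤ) :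
    ∃ R' : ℕ, R' ≠ 0 ∧ ∀ x : ℤ, (R : ℤ) ∣ a * x ↔ (R' : ℤ) ∣ x := by
  set g := Nat.gcd R a.natAbs with hg
  have hg0 : 0 < g := Nat.gcd_pos_of_pos_left _ (Nat.pos_of_ne_zero hR)
  obtain ⟨R', hR'⟩ : g ∣ R := Nat.gcd_dvd_left _ _
  obtain ⟨a', ha'⟩ : (g : ℤ) ∣ a := Int.natCast_dvd.2 (Nat.gcd_dvd_right _ _)
  have hR0 : R' ≠ 0 := by
    rintro rfl
    rw [mul_zero] at hR'
    exact hR hR'
  have hcop : IsCoprime (R' : ℤ) a' := by
    have h1 : Nat.Coprime R' a'.natAbs := by
      have h2 : Nat.gcd (g * R') (g * a'.natAbs) = g * 1 := by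
        have : a.natAbs = g * a'.natAbs := by
          rw [ha', Int.natAbs_mul, Int.natAbs_natCast]
        rw [← hR', ← this, mul_one]
      rw [Nat.gcd_mul_left] at h2
      exact Nat.eq_of_mul_eq_mul_left hg0 h2
    rw [Int.isCoprime_iff_gcd_eq_one, Int.gcd_eq_natAbs, Int.natAbs_natCast]
    exact h1
  refine ⟨R', hR0, fun x => ?_⟩
  have hg0' : (g : ℤ) ≠ 0 := by exact_mod_cast hg0.ne'
  rw [hR', ha']
  push_cast
  rw [mul_assoc, mul_dvd_mul_iff_left hg0']
  constructor
  · exact fun h => hcop.dvd_of_dvd_mul_left h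
  · exact fun h => dvd_mul_of_dvd_right h _

theorem dvd_of_squarefree {R : ℕ} (hR : Squarefree R) {x : ℤ}
    (h : ∀ p, p.Prime → p ∣ R → (p : ℤ) ∣ x) : (R : ℤ) ∣ x := by
  rw [← Nat.prod_primeFactors_of_squarefree hR]
  have : ∏ p ∈ R.primeFactors, p ∣ x.natAbs := by
    apply Finset.prod_primes_dvd
    · intro p hp
      exact (Nat.prime_of_mem_primeFactors hp).prime
    · intro p hp
      exact Int.natCast_dvd.1 (h p (Nat.prime_of_mem_primeFactors hp)
        (Nat.dvd_of_mem_primeFactors hp))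
  exact Int.natCast_dvd.2 this

theorem str_unique {M n : ℤ} (hM : M ≠ 0) {t : ℕ} {β : Bool} (h : Str M n t β) {k : ℤ}
    (hk : n = k * M) : (t : ℤ) ∣ k - (if β then 1 else 0) := by
  obtain ⟨k', hk', hd⟩ := h
  have : k = k' := mul_right_cancel₀ hM (hk.symm.trans hk')
  rw [this]; exact hd

theorem rsat_complete {I : DInst} (h : DQSat I) : RSat I := by
  classical
  obtain ⟨B, hdep, hcl⟩ := h
  set m := I.m with hm
  set L := (lv (m + 1)).1 with hL
  have hwf : WF (m + 1) L := (lv (m + 1)).2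
  have hM0 := odd_ne_zero hwf.Modd
  set a : ℕ → ℕ → Bool := fun t => adr m (lv m).1 t with ha
  have hst := lv_stp m
  have hFi : ∀ t ∈ L.F, Inert t := fun t ht => (hwf.F t ht).1
  have hB := fun (k : ℕ) => exists_index hwf.Modd L.F hFi (fun t => B k (a t)) 0
  choose nB hB1 hB2 hB3 _ hB5 using hB
  set P : ℕ := ∏ t ∈ L.F, t with hP
  have hPodd : Odd P := by
    rw [hP]
    apply Finset.prod_induction _ _ (fun a b => Odd.mul) odd_one
    intro t ht
    exact (hFi t ht).1.odd_of_ne_two (inert_ne_two (hFi t ht))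
  have hP1931 : 1931 ∣ P := Finset.dvd_prod_of_mem (fun t => t) hwf.F1931
  have hPge : 1931 ≤ P := Nat.le_of_dvd hPodd.pos hP1931
  have hPsq : Squarefree P := by
    rw [hP]
    apply Finset.squarefree_prod_of_pairwise_isCoprime
    · intro x hx y hy hxy
      exact Nat.coprime_iff_isRelPrime.1 ((Nat.coprime_primes (hFi x hx).1 (hFi y hy).1).2 hxy)
    · intro t ht
      exact (Nat.prime_iff.1 (hFi t ht).1).squarefree
  set nS : ℤ := (P : ℤ) * L.M with hnS
  have hS1 : nS ≠ 0 := mul_ne_zero (by omega) hM0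
  have hSne : ∀ c : ℤ, c < 1931 → nS ≠ c * L.M := by
    intro c hc h
    have : (P : ℤ) = c := mul_right_cancel₀ hM0 (hnS.symm.trans h)
    omega
  have hS2 : nS ≠ L.M := by simpa using hSne 1 (by norm_num)
  have hS3 : nS ≠ 2 * L.M := hSne 2 (by norm_num)
  have hSodd : Odd nS := by
    rw [hnS]
    exact Odd.mul (by exact_mod_cast hPodd) hwf.Modd
  have hSstr : ∀ t ∈ L.F, Str L.M nS t false := by
    intro t ht
    refine ⟨P, hnS, ?_⟩
    simp only [Bool.false_eq_true, if_false, sub_zero]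
    exact_mod_cast Finset.dvd_prod_of_mem (fun t => t) ht
  set S := sol m nB nS with hS
  have hgood : ∀ i, ∀ t, Inert t → t ≠ 11 → t ≠ 29 →
      (∀ p ∈ (List.range i).map (fun l => ((lv i).1.nA l false, (lv i).1.nA l true))
      ++ [((lv i).1.nD false, (lv i).1.nD true)], Vis t p.1 ∨ Vis t (p.2 - (lv i).1.M)) →
      (t ∈ (lv (i + 1)).1.F ∧
        ∀ cl ∈ S.stepCls i, ∃ x ∈ cl, Vge t 1 x) := by
    intro i t ht h11 h29 hv
    have hv1 : ∀ l < i, Vis t ((lv i).1.nA l false) ∨ Vis t ((lv i).1.nA l true - (lv i).1.M) := by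
      intro l hl
      exact hv _ (List.mem_append_left _ (List.mem_map.2 ⟨l, List.mem_range.2 hl, rfl⟩))
    have hv2 := hv _ (List.mem_append_right _ (List.mem_singleton.2 rfl))
    have hF := (lv_stp i).good t ht h11 h29 hv1 hv2
    exact ⟨hF, step_cls m nB nS i ht hF hv1 hv2⟩
  have hne : ∀ i, (∀ p ∈ (List.range i).map (fun l => ((lv i).1.nA l false, (lv i).1.nA l true))
      ++ [((lv i).1.nD false, (lv i).1.nD true)], p.1 ≠ 0) ∧
      (∀ p ∈ (List.range i).map (fun l => ((lv i).1.nA l false, (lv i).1.nA l true))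
      ++ [((lv i).1.nD false, (lv i).1.nD true)], p.2 ≠ (lv i).1.M) := by
    intro i
    have hwf := (lv i).2
    constructor
    · intro p hp
      rcases List.mem_append.1 hp with hp | hp
      · obtain ⟨l, hl, rfl⟩ := List.mem_map.1 hp
        exact (hwf.A0 l (List.mem_range.1 hl) false).1
      · rw [List.mem_singleton.1 hp]
        exact (hwf.D0 false).1
    · intro p hp
      rcases List.mem_append.1 hp with hp | hp
      · obtain ⟨l, hl, rfl⟩ := List.mem_map.1 hp
        exact (hwf.A0 l (List.mem_range.1 hl) true).2.1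
      · rw [List.mem_singleton.1 hp]
        exact (hwf.D0 true).2.1
  refine ⟨S, ?_, ?_, ?_, ?_, ?_, ?_, ?_, ?_, ?_, ?_⟩
  · intro i _
    exact ⟨(lv i).1.M, (lv i).2.Modd, rfl, rfl, rfl⟩
  · intro i _ l hl b
    have h0 := (lv i).2.A0 l hl b
    exact ⟨(lv i).1.M, (lv i).1.nA l b, odd_ne_zero (lv i).2.Modd, h0.1, h0.2.1, h0.2.2,
      ⟨fun h => by omega, fun h => by omega⟩, rfl, rfl, rfl⟩
  · intro i _
    have h0 := (lv i).2.D0
    have hp := (lv i).2.Dp
    exact ⟨⟨(lv i).1.M, (lv i).1.nD false, odd_ne_zero (lv i).2.Modd, (h0 false).1, (h0 false).2.1,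
      (h0 false).2.2, ⟨fun _ => hp.1, fun h => by omega⟩, rfl, rfl, rfl⟩,
      ⟨(lv i).1.M, (lv i).1.nD true, odd_ne_zero (lv i).2.Modd, (h0 true).1, (h0 true).2.1,
      (h0 true).2.2, ⟨fun h => by omega, fun _ => hp.2⟩, rfl, rfl, rfl⟩⟩
  · intro k _
    exact ⟨L.M, nB k, hM0, hB1 k, hB2 k, hB3 k, ⟨fun h => by omega, fun h => by omega⟩,
      rfl, rfl, rfl⟩
  · exact ⟨L.M, nS, hM0, hS1, hS2, hS3, ⟨fun _ => hSodd, fun h => by omega⟩, rfl, rfl, rfl⟩
  · intro i _ pe hpe
    have hwi := (lv i).2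
    have hMi := odd_ne_zero hwi.Modd
    simp only [List.mem_cons, List.not_mem_nil, or_false] at hpe
    rcases hpe with rfl | rfl
    · refine ⟨(nt_prime inert_eleven).2 ((inv_zz_iff inert_eleven.1 hMi).2 hwi.h11), ?_, ?_⟩
      · intro l hl b
        have h0 := hwi.A0 l hl b
        exact (nt_prime inert_eleven).2 ((q_iff inert_eleven hMi h0.1 h0.2.1 hwi.h11 b).2
          ((hwi.A11 l hl b).hi inert_eleven hMi h0.1 h0.2.1 hwi.h11))
      · intro b
        have h0 := hwi.D0 b
        exact (nt_prime inert_eleven).2 ((q_iff inert_eleven hMi h0.1 h0.2.1 hwi.h11 false).2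
          ((hwi.D11 b).hi inert_eleven hMi h0.1 h0.2.1 hwi.h11))
    · refine ⟨(nt_prime inert_29).2 ((inv_zz_iff inert_29.1 hMi).2 hwi.h29), ?_, ?_⟩
      · intro l hl b
        have h0 := hwi.A0 l hl b
        exact (nt_prime inert_29).2 ((q_iff inert_29 hMi h0.1 h0.2.1 hwi.h29 b).2
          ((hwi.A29 l hl b).hi inert_29 hMi h0.1 h0.2.1 hwi.h29))
      · intro b
        have h0 := hwi.D0 b
        exact (nt_prime inert_29).2 ((q_iff inert_29 hMi h0.1 h0.2.1 hwi.h29 true).2
          ((hwi.D29 b).hi inert_29 hMi h0.1 h0.2.1 hwi.h29))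
  · have hw0 := (lv 0).2
    have hM00 := odd_ne_zero hw0.Modd
    have e : (1931 : ℚ) = ((1931 : ℕ) : ℚ) := by norm_num
    refine ⟨?_, ?_⟩
    · rw [e]
      exact (nt_prime inert_1931).2 ((inv_zz_iff inert_1931.1 hM00).2 hw0.h1931)
    · intro b
      rw [e]
      have h0 := hw0.D0 b
      exact (nt_prime inert_1931).2 ((q_iff inert_1931 hM00 h0.1 h0.2.1 hw0.h1931 b).2
        ((hw0.FD 1931 hw0.F1931 b).hi inert_1931 hM00 h0.1 h0.2.1 hw0.h1931))
  · intro i _
    rw [hS, sol_pairs]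
    exact obs_complete _ (hne i).1 (hne i).2 (fun t ht h11 h29 hv => (hgood i t ht h11 h29 hv).2)
  · rw [hS, sol_pairs]
    refine obs_complete _ (hne m).1 (hne m).2 (fun t ht h11 h29 hv => ?_)
    obtain ⟨hF, hstep⟩ := hgood m t ht h11 h29 hv
    have hvis : Vis t L.M := (hwf.F t hF).2.1
    have hBv : ∀ k, Vge t 1 ((S.B k).q (B k (a t))) := by
      intro k
      exact (q_iff ht hM0 (hB1 k) (hB2 k) hvis _).2
        ((hB5 k t hF).hi ht hM0 (hB1 k) (hB2 k) hvis)
    intro cl hcl'
    rcases List.mem_append.1 hcl' with hcl' | hcl'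
    · exact hstep cl hcl'
    unfold Sol.lastCls at hcl'
    rcases List.mem_append.1 hcl' with hcl' | hcl'
    · rcases List.mem_cons.1 hcl' with rfl | hcl'
      · exact ⟨_, List.mem_singleton.2 rfl, (q0_iff ht hM0 hS1 hvis).2
          ((hSstr t hF).hi ht hM0 hS1 hS2 hvis)⟩
      · obtain ⟨k, hk, rfl⟩ := List.mem_map.1 hcl'
        have := hBv k
        cases hb : B k (a t) with
        | false =>
          rw [hb] at this
          exact ⟨_, List.mem_cons_self, this⟩
        | true =>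
          rw [hb] at this
          exact ⟨_, List.mem_cons_of_mem _ (List.mem_singleton.2 rfl), this⟩
    · obtain ⟨cl0, hcl0, rfl⟩ := List.mem_map.1 hcl'
      obtain ⟨l, hl, hlt⟩ := hcl (a t) cl0 hcl0
      refine ⟨S.atom I l, List.mem_map.2 ⟨l, hl, rfl⟩, ?_⟩
      unfold DInst.litTrue at hlt
      unfold Sol.atom
      by_cases hl1 : l.1 = true
      · rw [if_pos hl1] at hlt ⊢
        rw [if_pos hlt.1, ← hlt.2]
        exact hBv l.2.2
      · rw [if_neg hl1] at hlt ⊢
        rw [if_pos hlt.1, ← hlt.2]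
        have hlm : l.2.2 < m + 1 := by have := hlt.1; omega
        have h0 := hwf.A0 l.2.2 hlm false
        exact (q_iff ht hM0 h0.1 h0.2.1 hvis _).2
          ((hst.A t hF l.2.2 hlm false).hi ht hM0 h0.1 h0.2.1 hvis)
  · intro k hk j hj hd
    have e : S.indPairs I j = ((((List.range (I.m + 1)).filter (fun l => l ≠ j)).map
        (fun l => (L.nA l false, L.nA l true)) ++ [(nS, nS)]).map
          (fun p => (arrOf L.M p.1, arrOf L.M p.2))) := by
      unfold Sol.indPairs
      rw [List.map_append, List.map_map]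
      rfl
    rw [e]
    have hmem : ∀ p ∈ (((List.range (I.m + 1)).filter (fun l => l ≠ j)).map
        (fun l => (L.nA l false, L.nA l true)) ++ [(nS, nS)]),
        (∃ l < m + 1, l ≠ j ∧ p = (L.nA l false, L.nA l true)) ∨ p = (nS, nS) := by
      intro p hp
      rcases List.mem_append.1 hp with hp | hp
      · obtain ⟨l, hl, rfl⟩ := List.mem_map.1 hp
        rw [List.mem_filter, List.mem_range] at hl
        exact Or.inl ⟨l, hl.1, by simpa using hl.2, rfl⟩
      · exact Or.inr (List.mem_singleton.1 hp)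
    refine obs_complete _ ?_ ?_ ?_
    · intro p hp
      rcases hmem p hp with ⟨l, hl, -, rfl⟩ | rfl
      · exact (hwf.A0 l hl false).1
      · exact hS1
    · intro p hp
      rcases hmem p hp with ⟨l, hl, -, rfl⟩ | rfl
      · exact (hwf.A0 l hl true).2.1
      · exact hS2
    · intro t ht h11 h29 hv cl hcl'
      rw [List.mem_singleton.1 hcl']
      by_cases hSv : Vis t (nS - L.M)
      · exact ⟨S.Ds.w1, by simp, (w1_iff ht.1 hS2).2 hSv⟩
      have hSv' : Vis t nS := by
        have := hv (nS, nS) (by simp)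
        exact this.resolve_right hSv
      have hrk0 : rk t ≠ 0 := by
        intro h0
        unfold Vis at hSv'
        rw [h0] at hSv'
        have := zero_dvd_iff.1 (by exact_mod_cast hSv' : (0 : ℤ) ∣ 8 * nS)
        omega
      obtain ⟨R, hR0, hR⟩ := exists_red hrk0 (8 * L.M)
      have hRS : (R : ℤ) ∣ (P : ℤ) := by
        rw [← hR]
        have : 8 * nS = 8 * L.M * P := by rw [hnS]; ring
        rw [← this]; exact hSv'
      have hRsq : Squarefree R := hPsq.squarefree_of_dvd (by exact_mod_cast hRS)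
      -- the address seen off `j`
      have hβ : ∀ l, ∃ β : Bool, l < m + 1 → l ≠ j → ∀ t' ∈ L.F, t' ∣ R → a t' l = β := by
        intro l
        by_cases hl : l < m + 1
        · by_cases hlj : l ≠ j
          · have h1 := hv (L.nA l false, L.nA l true) (by
              apply List.mem_append_left
              refine List.mem_map.2 ⟨l, ?_, rfl⟩
              rw [List.mem_filter, List.mem_range]
              exact ⟨hl, by simpa using hlj⟩)
            have key : ∀ β : Bool, Vis t (sh L.M (L.nA l β) β) →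
                ∀ t' ∈ L.F, t' ∣ R → a t' l = β := by
              intro β hβ t' ht' htR
              have hs := hst.A t' ht' l hl β
              obtain ⟨k0, hk0, -⟩ := id hs
              have hd := str_unique hM0 hs hk0
              have hR' : (R : ℤ) ∣ k0 - (if β then 1 else 0) := by
                rw [← hR]
                have : 8 * sh L.M (L.nA l β) β = 8 * L.M * (k0 - (if β then 1 else 0)) := by
                  have e1 : L.nA l β = k0 * L.M := hk0
                  rw [e1]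
                  cases β <;> simp [sh] <;> ring
                rw [← this]; exact hβ
              have hd' : (t' : ℤ) ∣ k0 - (if β then 1 else 0) :=
                (Int.natCast_dvd_natCast.2 htR).trans hR'
              have hd2 := dvd_sub hd hd'
              by_contra hne'
              have h2 : (t' : ℤ) ∣ 1 := by
                have hne'' : adr m (lv m).1 t' l ≠ β := hne'
                cases hA : adr m (lv m).1 t' l <;> cases β <;> simp_all
              have h3 : t' ∣ 1 := by exact_mod_cast h2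
              exact (hFi t' ht').1.one_lt.ne' (Nat.dvd_one.1 h3)
            rcases h1 with h1 | h1
            · exact ⟨false, fun _ _ => key false h1⟩
            · exact ⟨true, fun _ _ => key true h1⟩
          · exact ⟨false, fun _ h => absurd h hlj⟩
        · exact ⟨false, fun h => absurd h hl⟩
      choose β hβ using hβ
      set γ := B k (fun l => if l < m + 1 then β l else false) with hγ
      obtain ⟨k0, hk0, -⟩ := id (hB5 k 1931 hwf.F1931)
      have hRB : (R : ℤ) ∣ k0 - (if γ then 1 else 0) := by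
        apply dvd_of_squarefree hRsq
        intro p hp hpR
        have hpP : p ∣ P := by
          have : (p : ℤ) ∣ (P : ℤ) := (Int.natCast_dvd_natCast.2 hpR).trans hRS
          exact_mod_cast this
        obtain ⟨t', ht', hpt'⟩ := (hp.prime.dvd_finsetProd_iff (fun t => t)).1 hpP
        have hpt : p = t' := (Nat.prime_dvd_prime_iff_eq hp (hFi t' ht').1).1 hpt'
        subst hpt
        have h1 := str_unique hM0 (hB5 k p ht') hk0
        have h2 : B k (a p) = γ := by
          rw [hγ]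
          apply hdep k hk
          intro l hl hdl
          have hlj : l ≠ j := by
            rintro rfl
            rw [hd] at hdl; simp at hdl
          have hl' : l < m + 1 := by omega
          rw [if_pos hl']
          exact hβ l hl' hlj p ht' hpR
        rw [h2] at h1
        exact h1
      have hfin : Vis t (sh L.M (nB k) γ) := by
        have h1 := (hR _).2 hRB
        have : 8 * sh L.M (nB k) γ = 8 * L.M * (k0 - (if γ then 1 else 0)) := by
          rw [hk0]
          cases γ <;> simp [sh] <;> ring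
        unfold Vis
        rw [this]; exact h1
      cases hγ' : γ with
      | false =>
        rw [hγ'] at hfin
        exact ⟨(S.B k).w0, by simp, (w0_iff ht.1 (hB1 k)).2 hfin⟩
      | true =>
        rw [hγ'] at hfin
        exact ⟨(S.B k).w1, by simp, (w1_iff ht.1 (hB2 k)).2 hfin⟩

end Pool.Agent.H528R2.Chain

namespace Pool.Agent.H528R2

theorem rsat_iff (I : DInst) : RSat I ↔ DQSat I :=
  ⟨Chain.rsat_sound, Chain.rsat_complete⟩

end Pool.Agent.H528R2
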