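import Pool.Agent.H528R2.Obs

/-!
# Soundness of the chain: a solution over `ℚ` gives a solution of the DQBF
-/

namespace Pool.Agent.H528R2.Chain

open Pool.Agent.H528R2

theorem nt_prime {p : ℕ} (hp : Inert p) {x : ℚ} : NT (p : ℚ) x ↔ Vge p 1 x := by
  have hp0 : (p : ℚ) ≠ 0 := by exact_mod_cast hp.1.ne_zero
  unfold NT
  rw [test_iff hp0]
  constructor
  · rintro (h | h)
    · exact absurd h hp0
    · apply h p hp
      have := Fact.mk hp.1
      rw [padicValRat.self hp.1.one_lt]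
      exact odd_one
  · intro h
    right
    intro q hq hodd
    by_cases hqp : q = p
    · rw [hqp]; exact h
    · exfalso
      rw [padicValRat.of_nat, padicValNat.eq_zero_of_not_dvd] at hodd
      · simp at hodd
      · intro hd
        exact hqp ((Nat.prime_dvd_prime_iff_eq hq.1 hp.1).1 hd)

theorem index_inj {m n : ℤ} (hm : m ≠ 0) (hn : n ≠ 0) (hz : zz m = zz n) (hy : yy m = yy n) :
    m = n := by
  rcases (zz_eq_iff hm hn).1 hz with h | h
  · exact h
  · exfalso
    rw [h, yy_neg] at hy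
    have := yy_ne hn
    apply this
    linarith

/-- the integers behind a solution -/
structure Good (I : DInst) (S : Sol) (M : ℕ → ℤ) (nA : ℕ → ℕ → Bool → ℤ) (nD : ℕ → Bool → ℤ)
    (nB : ℕ → ℤ) (nS : ℤ) : Prop where
  M0 : ∀ i ≤ I.m + 1, Odd (M i)
  Sw : ∀ i ≤ I.m + 1, S.w i = 1 / zz (8 * M i)
  A : ∀ i ≤ I.m + 1, ∀ l < i, ∀ b, S.A i l b = arrOf (M i) (nA i l b) ∧ nA i l b ≠ 0 ∧
    nA i l b ≠ M i
  D : ∀ i ≤ I.m + 1, ∀ b, S.D i b = arrOf (M i) (nD i b) ∧ nD i b ≠ 0 ∧ nD i b ≠ M i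
  Dodd : ∀ i ≤ I.m + 1, Odd (nD i false) ∧ Even (nD i true)
  B : ∀ k < I.K, S.B k = arrOf (M (I.m + 1)) (nB k) ∧ nB k ≠ 0 ∧ nB k ≠ M (I.m + 1)
  Ds : S.Ds = arrOf (M (I.m + 1)) nS ∧ nS ≠ 0 ∧ nS ≠ M (I.m + 1) ∧ Odd nS

theorem exists_idx {p : ℕ} {z y : ℚ} {A : Arr} {M : ℤ} (hM : M ≠ 0) (hz : z = zz M)
    (hy : y = yy M) (h : ArrRel p z y A) :
    ∃ n : ℤ, A = arrOf M n ∧ n ≠ 0 ∧ n ≠ M ∧ Par p n := by
  obtain ⟨M', n, hM', hn, hnM, -, hpar, hz', hy', hA⟩ := h
  have : M' = M := index_inj hM' hM (by rw [← hz', hz]) (by rw [← hy', hy])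
  subst this
  exact ⟨n, hA, hn, hnM, hpar⟩

theorem odd_ne_zero {n : ℤ} (h : Odd n) : n ≠ 0 := by
  rintro rfl; simp at h

theorem exists_good {I : DInst} {S : Sol}
    (h1 : ∀ i ≤ I.m + 1, BaseRel (S.z i) (S.y i) (S.w i))
    (h2 : ∀ i ≤ I.m + 1, ∀ l < i, ∀ b, ArrRel 0 (S.z i) (S.y i) (S.A i l b))
    (h3 : ∀ i ≤ I.m + 1, ArrRel 1 (S.z i) (S.y i) (S.D i false) ∧
      ArrRel 2 (S.z i) (S.y i) (S.D i true))
    (h4 : ∀ k < I.K, ArrRel 0 (S.z (I.m + 1)) (S.y (I.m + 1)) (S.B k))
    (h5 : ArrRel 1 (S.z (I.m + 1)) (S.y (I.m + 1)) S.Ds) :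
    ∃ M nA nD nB nS, Good I S M nA nD nB nS := by
  have h1' : ∀ i : ℕ, ∃ M : ℤ, i ≤ I.m + 1 →
      Odd M ∧ S.z i = zz M ∧ S.y i = yy M ∧ S.w i = 1 / zz (8 * M) := by
    intro i
    by_cases hi : i ≤ I.m + 1
    · obtain ⟨M, hM⟩ := h1 i hi
      exact ⟨M, fun _ => hM⟩
    · exact ⟨0, fun h => absurd h hi⟩
  choose M hM using h1'
  have hA : ∀ (i l : ℕ) (b : Bool), ∃ n : ℤ, i ≤ I.m + 1 → l < i →
      S.A i l b = arrOf (M i) n ∧ n ≠ 0 ∧ n ≠ M i := by
    intro i l b
    by_cases hi : i ≤ I.m + 1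
    · by_cases hl : l < i
      · obtain ⟨hM1, hM2, hM3, -⟩ := hM i hi
        obtain ⟨n, hn1, hn2, hn3, -⟩ := exists_idx (odd_ne_zero hM1) hM2 hM3 (h2 i hi l hl b)
        exact ⟨n, fun _ _ => ⟨hn1, hn2, hn3⟩⟩
      · exact ⟨0, fun _ h => absurd h hl⟩
    · exact ⟨0, fun h => absurd h hi⟩
  choose nA hnA using hA
  have hD : ∀ (i : ℕ) (b : Bool), ∃ n : ℤ, i ≤ I.m + 1 →
      S.D i b = arrOf (M i) n ∧ n ≠ 0 ∧ n ≠ M i ∧ (b = false → Odd n) ∧ (b = true → Even n) := by
    intro i b
    by_cases hi : i ≤ I.m + 1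
    · obtain ⟨hM1, hM2, hM3, -⟩ := hM i hi
      cases b with
      | false =>
        obtain ⟨n, hn1, hn2, hn3, hn4⟩ := exists_idx (odd_ne_zero hM1) hM2 hM3 (h3 i hi).1
        exact ⟨n, fun _ => ⟨hn1, hn2, hn3, fun _ => hn4.1 rfl, fun h => by simp at h⟩⟩
      | true =>
        obtain ⟨n, hn1, hn2, hn3, hn4⟩ := exists_idx (odd_ne_zero hM1) hM2 hM3 (h3 i hi).2
        exact ⟨n, fun _ => ⟨hn1, hn2, hn3, fun h => by simp at h, fun _ => hn4.2 rfl⟩⟩
    · exact ⟨0, fun h => absurd h hi⟩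
  choose nD hnD using hD
  obtain ⟨hM1, hM2, hM3, -⟩ := hM (I.m + 1) le_rfl
  have hB : ∀ k : ℕ, ∃ n : ℤ, k < I.K →
      S.B k = arrOf (M (I.m + 1)) n ∧ n ≠ 0 ∧ n ≠ M (I.m + 1) := by
    intro k
    by_cases hk : k < I.K
    · obtain ⟨n, hn1, hn2, hn3, -⟩ := exists_idx (odd_ne_zero hM1) hM2 hM3 (h4 k hk)
      exact ⟨n, fun _ => ⟨hn1, hn2, hn3⟩⟩
    · exact ⟨0, fun h => absurd h hk⟩
  choose nB hnB using hB
  obtain ⟨nS, hS1, hS2, hS3, hS4⟩ := exists_idx (odd_ne_zero hM1) hM2 hM3 h5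
  exact ⟨M, nA, nD, nB, nS, fun i hi => (hM i hi).1, fun i hi => (hM i hi).2.2.2,
    fun i hi l hl b => hnA i l b hi hl,
    fun i hi b => ⟨(hnD i b hi).1, (hnD i b hi).2.1, (hnD i b hi).2.2.1⟩,
    fun i hi => ⟨(hnD i false hi).2.2.2.1 rfl, (hnD i true hi).2.2.2.2 rfl⟩,
    fun k hk => hnB k hk, hS1, hS2, hS3, hS4.1 rfl⟩

/-- the tests made at an explicit prime: `v`, with bit `ε` -/
structure Anchor (M : ℕ → ℤ) (nA : ℕ → ℕ → Bool → ℤ) (nD : ℕ → Bool → ℤ) (i : ℕ) (v : ℕ)
    (ε : Bool) : Prop where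
  eq : v = if ε then 29 else 11
  vis : Vis v (M i)
  A : ∀ l < i, ∀ b, Hi v (M i) (sh (M i) (nA i l b) b)
  D : ∀ b, Hi v (M i) (sh (M i) (nD i b) ε)

theorem inert_eleven : Inert 11 := ⟨by norm_num, by norm_num⟩

theorem inert_29 : Inert 29 := ⟨by norm_num, by norm_num⟩

theorem inert_1931 : Inert 1931 := ⟨by norm_num, by norm_num⟩

section

variable {M : ℕ → ℤ} {nA : ℕ → ℕ → Bool → ℤ} {nD : ℕ → Bool → ℤ} {i v : ℕ} {ε : Bool}

theorem Anchor.eq' (h : Anchor M nA nD i v ε) : v = 11 ∨ v = 29 := by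
  have := h.eq
  cases ε
  · exact Or.inl this
  · exact Or.inr this

theorem Anchor.inert (h : Anchor M nA nD i v ε) : Inert v := by
  rcases h.eq' with h | h <;> rw [h]
  · exact inert_eleven
  · exact inert_29

theorem Anchor.le (h : Anchor M nA nD i v ε) : 11 ≤ v := by
  rcases h.eq' with h | h <;> omega

theorem Anchor.le' (h : Anchor M nA nD i v ε) : v ≤ 29 := by
  rcases h.eq' with h | h <;> omega

theorem Anchor.rk (h : Anchor M nA nD i v ε) : rk v = 5 ∨ rk v = 7 := by
  rcases h.eq' with h | h <;> rw [h]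
  · exact Or.inl rk_eleven
  · exact Or.inr rk_29

end

/-- `s` is a cell of level `i` and address `a` -/
structure Cell (M : ℕ → ℤ) (nA : ℕ → ℕ → Bool → ℤ) (nD : ℕ → Bool → ℤ) (i : ℕ)
    (a : ℕ → Bool) (s : ℕ) : Prop where
  inert : Inert s
  le : 1931 + i ≤ s
  vis : Vis s (M i)
  A : ∀ l < i, ∀ b, Hi s (M i) (sh (M i) (nA i l b) (a l))
  D : ∀ b, Hi s (M i) (sh (M i) (nD i b) b)
  wit : (i = 0 ∧ s = 1931) ∨ (∃ s', s'.Prime ∧ 1931 ≤ s' ∧ s' ≠ s ∧ s' ∣ rk s) ∧
    (11 ∣ rk s ∨ 29 ∣ rk s)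

/-- the extra clauses of the last step -/
def extra (I : DInst) (S : Sol) (i : ℕ) : List (List ℚ) := if i = I.m then S.lastCls I else []

section

variable {I : DInst} {S : Sol} {M : ℕ → ℤ} {nA : ℕ → ℕ → Bool → ℤ} {nD : ℕ → Bool → ℤ}
  {nB : ℕ → ℤ} {nS : ℤ}

/-- indices of the pairs of the step -/
def idxs (nA : ℕ → ℕ → Bool → ℤ) (nD : ℕ → Bool → ℤ) (i : ℕ) (a : ℕ → Bool) :
    List (ℤ × ℤ × Bool) :=
  (List.range i).map (fun l => (nA i l false, nA i l true, a l)) ++
    [(nD i false, nD i true, a i)]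

theorem pairs_eq (hg : Good I S M nA nD nB nS) {i : ℕ} (hi : i ≤ I.m + 1) (a : ℕ → Bool) :
    S.pairs i = (idxs nA nD i a).map (fun p => (arrOf (M i) p.1, arrOf (M i) p.2.1)) := by
  unfold Sol.pairs idxs
  rw [List.map_append, List.map_map]
  congr 1
  · apply List.map_congr_left
    intro l hl
    rw [List.mem_range] at hl
    rw [(hg.A i hi l hl false).1, (hg.A i hi l hl true).1]
    rfl
  · rw [(hg.D i hi false).1, (hg.D i hi true).1]
    rfl

theorem ge_eq (M : ℤ) (n0 n1 : ℤ) (b : Bool) :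
    ge M (n0, n1, b) = sh M (if b then n1 else n0) b := by
  cases b <;> rfl

theorem oe_eq (M : ℤ) (n0 n1 : ℤ) (b : Bool) :
    oe M (n0, n1, b) = sh M (if b then n0 else n1) (!b) := by
  cases b <;> rfl

theorem not_dvd_sh {t : ℕ} (ht : Inert t) {M n : ℤ} (hM : M ≠ 0) {b : Bool}
    (h : Hi t M (sh M n b)) : ¬ ((t ^ (padicValInt t M + 1) : ℕ) : ℤ) ∣ sh M n (!b) := by
  cases b with
  | false => exact not_dvd_of_hi ht hM h
  | true => exact not_dvd_of_hi' ht hM h

theorem uv_dvd {u v : ℕ} (hu : Inert u) (hv : Inert v) (huv : u ≠ v) {i j : ℕ} {n : ℤ}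
    (h1 : ((u ^ i : ℕ) : ℤ) ∣ n) (h2 : ((v ^ j : ℕ) : ℤ) ∣ n) :
    ((u ^ i * v ^ j : ℕ) : ℤ) ∣ n := by
  have hc : Nat.Coprime (u ^ i) (v ^ j) :=
    Nat.Coprime.pow _ _ ((Nat.coprime_primes hu.1 hv.1).2 huv)
  have hc' := Nat.isCoprime_iff_coprime.2 hc
  push_cast at *
  exact hc'.mul_dvd h1 h2

theorem dvd_rk_of_val {u t k : ℕ} (h : padicValNat u (rk t) = k + 1) : u ∣ rk t := by
  have := @pow_padicValNat_dvd u (rk t)
  rw [h] at this
  exact (dvd_pow_self u (Nat.succ_ne_zero k)).trans this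

theorem intrinsic {s v : ℕ} (hv : v.Prime) (hs : s.Prime) {e f : ℕ}
    (h : ∃ s', s'.Prime ∧ s' ≠ s ∧ s' ≠ v ∧ s' ∣ rk s) : ¬ rk s ∣ s ^ e * v ^ f := by
  obtain ⟨s', hp, h1, h2, h3⟩ := h
  intro hd
  rcases (Nat.Prime.dvd_mul hp).1 (h3.trans hd) with h4 | h4
  · exact h1 ((Nat.prime_dvd_prime_iff_eq hp hs).1 (hp.dvd_of_dvd_pow h4))
  · exact h2 ((Nat.prime_dvd_prime_iff_eq hp hv).1 (hp.dvd_of_dvd_pow h4))

/-- one step of the chain -/
theorem step (hg : Good I S M nA nD nB nS) {i : ℕ} (hi : i ≤ I.m)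
    (hobs : ObsR (S.pairs i) (S.stepCls i ++ extra I S i)) {a : ℕ → Bool} {u v : ℕ}
    (hu : Cell M nA nD i a u) (hv : Anchor M nA nD i v (a i)) :
    ∃ t, Cell M nA nD (i + 1) a t ∧ ∀ cl ∈ extra I S i, ∃ x ∈ cl, Vge t 1 x := by
  have hi' : i ≤ I.m + 1 := by omega
  have hi1 : i + 1 ≤ I.m + 1 := by omega
  have hM0 := odd_ne_zero (hg.M0 i hi')
  have hM1 := odd_ne_zero (hg.M0 (i + 1) hi1)
  have huv : u ≠ v := by
    have := hu.le; have := hv.le'; omega
  rw [pairs_eq hg hi' a] at hobs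
  have hmem : ∀ p ∈ idxs nA nD i a, (∃ l < i, p = (nA i l false, nA i l true, a l)) ∨
      p = (nD i false, nD i true, a i) := by
    intro p hp
    unfold idxs at hp
    rcases List.mem_append.1 hp with hp | hp
    · obtain ⟨l, hl, rfl⟩ := List.mem_map.1 hp
      exact Or.inl ⟨l, List.mem_range.1 hl, rfl⟩
    · exact Or.inr (List.mem_singleton.1 hp)
  have hDmem : (nD i false, nD i true, a i) ∈ idxs nA nD i a := by
    unfold idxs; simp
  have hAmem : ∀ l < i, (nA i l false, nA i l true, a l) ∈ idxs nA nD i a := by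
    intro l hl
    unfold idxs
    exact List.mem_append_left _ (List.mem_map.2 ⟨l, List.mem_range.2 hl, rfl⟩)
  obtain ⟨t, ht, ht0, ht11, ht29, hut, hvis, hnvis, htu, htv, hcls⟩ := obs_sound
    (M := M i) (idxs nA nD i a)
    (by
      intro p hp
      rcases hmem p hp with ⟨l, hl, rfl⟩ | rfl
      · exact (hg.A i hi' l hl false).2.1
      · exact (hg.D i hi' false).2.1)
    (by
      intro p hp
      rcases hmem p hp with ⟨l, hl, rfl⟩ | rfl
      · exact (hg.A i hi' l hl true).2.2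
      · exact (hg.D i hi' true).2.2)
    hu.inert hv.inert huv (by have := hu.le; omega) hv.le
    (i := padicValInt u (M i)) (j := padicValInt v (M i))
    (by
      intro p hp
      rcases hmem p hp with ⟨l, hl, rfl⟩ | rfl
      · rw [ge_eq]
        apply uv_dvd hu.inert hv.inert huv
        · have := (hu.A l hl (a l)).dvd
          cases h : a l <;> rw [h] at this <;> exact this
        · have := (hv.A l hl (a l)).dvd
          cases h : a l <;> rw [h] at this <;> exact this
      · rw [ge_eq]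
        apply uv_dvd hu.inert hv.inert huv
        · have := (hu.D (a i)).dvd
          cases h : a i <;> rw [h] at this <;> exact this
        · have := (hv.D (a i)).dvd
          cases h : a i <;> rw [h] at this <;> exact this)
    (by
      intro p hp
      rcases hmem p hp with ⟨l, hl, rfl⟩ | rfl
      · rw [oe_eq]
        rintro ⟨h1, -⟩
        refine not_dvd_sh hu.inert hM0 ?_ h1
        have := hu.A l hl (!(a l))
        cases h : a l <;> rw [h] at this <;> exact this
      · rw [oe_eq]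
        rintro ⟨-, h1⟩
        refine not_dvd_sh hv.inert hM0 ?_ h1
        have := hv.D (!(a i))
        cases h : a i <;> rw [h] at this <;> exact this)
    (by
      refine ⟨_, hDmem, ?_⟩
      rw [ge_eq]
      have h1 := hg.Dodd i hi'
      have h2 := hg.M0 i hi'
      cases h : a i with
      | false => exact h1.1
      | true => exact h1.2.sub_odd h2)
    (by
      unfold idxs
      simp only [List.length_append, List.length_map, List.length_range, List.length_singleton]
      have := hu.le; omega)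
    (by
      rintro ⟨h1, h2⟩
      rcases hu.wit with ⟨-, h3⟩ | ⟨⟨s', hs', hle, hne, hd⟩, -⟩
      · subst h3
        have h4 : v ∣ 9 := h1.trans rk_1931.1
        have h5 := (hv.inert.1.dvd_of_dvd_pow (show v ∣ 3 ^ 2 from h4))
        have := Nat.le_of_dvd (by norm_num) h5
        have := hv.le
        omega
      · exact intrinsic hv.inert.1 hu.inert.1 ⟨s', hs', hne, by have := hv.le'; omega, hd⟩ h2)
    (by
      rintro ⟨h1, -⟩
      have h2 : u ≤ rk v := Nat.le_of_dvd (by rcases hv.rk with h | h <;> omega) h1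
      have := hu.le
      rcases hv.rk with h | h <;> omega)
    hobs
  have hu_rk : u ∣ rk t := dvd_rk_of_val htu
  have hv_rk : v ∣ rk t := dvd_rk_of_val htv
  have hstep : ∀ cl ∈ S.stepCls i, ∃ x ∈ cl, Vge t 1 x := fun cl hcl =>
    hcls cl (List.mem_append_left _ hcl)
  have hw : Vis t (M (i + 1)) := by
    obtain ⟨x, hx, hx'⟩ := hstep [S.w (i + 1)] (by unfold Sol.stepCls; simp)
    rw [List.mem_singleton] at hx
    subst hx
    rw [hg.Sw (i + 1) hi1] at hx'
    exact (inv_zz_iff ht.1 hM1).1 hx'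
  refine ⟨t, ⟨ht, by have := hu.le; omega, hw, ?_, ?_, ?_⟩, fun cl hcl =>
    hcls cl (List.mem_append_right _ hcl)⟩
  · -- addresses
    intro l hl b
    -- the pair number `l`
    have hp : ∃ n0 n1 : ℤ, (S.pairs i).getD l Sol.stepCls.default_pair =
        (arrOf (M i) n0, arrOf (M i) n1) ∧ (n0, n1, a l) ∈ idxs nA nD i a ∧ n0 ≠ 0 ∧
          n1 ≠ M i := by
      rcases Nat.lt_or_ge l i with hli | hli
      · refine ⟨nA i l false, nA i l true, ?_, hAmem l hli, (hg.A i hi' l hli false).2.1,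
          (hg.A i hi' l hli true).2.2⟩
        unfold Sol.pairs
        rw [List.getD_append _ _ _ _ (by simpa using hli),
          List.getD_eq_getElem _ _ (by simpa using hli)]
        rw [List.getElem_map, List.getElem_range, (hg.A i hi' l hli false).1,
          (hg.A i hi' l hli true).1]
      · have hli : l = i := by omega
        subst hli
        refine ⟨nD l false, nD l true, ?_, hDmem, (hg.D l hi' false).2.1,
          (hg.D l hi' true).2.2⟩
        unfold Sol.pairs
        rw [List.getD_append_right _ _ _ _ (by simp)]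
        simp only [List.length_map, List.length_range, Nat.sub_self, List.getD_cons_zero]
        rw [(hg.D l hi' false).1, (hg.D l hi' true).1]
    obtain ⟨n0, n1, hpair, hpm, hn0, hn1⟩ := hp
    have hA0 := hg.A (i + 1) hi1 l hl false
    have hA1 := hg.A (i + 1) hi1 l hl true
    have hA := hg.A (i + 1) hi1 l hl b
    have hor : ∀ x ∈ [(arrOf (M i) n0).w0, (S.A (i + 1) l false).q0, (S.A (i + 1) l true).q0],
        ∀ y ∈ [(arrOf (M i) n1).w1, (S.A (i + 1) l false).q1, (S.A (i + 1) l true).q1],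
        Vge t 1 x ∨ Vge t 1 y := by
      intro x hx y hy
      obtain ⟨z, hz, hz'⟩ := hstep [x, y] (by
        unfold Sol.stepCls
        apply List.mem_append_right
        rw [List.mem_flatMap]
        refine ⟨l, List.mem_range.2 hl, ?_⟩
        simp only
        rw [hpair, List.mem_flatMap]
        exact ⟨x, hx, List.mem_map.2 ⟨y, hy, rfl⟩⟩)
      rcases List.mem_cons.1 hz with rfl | hz
      · exact Or.inl hz'
      · rw [List.mem_singleton] at hz
        subst hz
        exact Or.inr hz'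
    have hv1 := hvis _ hpm
    have hv2 := hnvis _ hpm
    rw [ge_eq] at hv1
    rw [oe_eq] at hv2
    cases hal : a l with
    | false =>
      rw [hal] at hv1 hv2
      have h1 : ¬ Vge t 1 (arrOf (M i) n1).w1 := by
        rw [w1_iff ht.1 hn1]; exact hv2
      have h2 : Vge t 1 (S.A (i + 1) l b).q0 := by
        have := hor (S.A (i + 1) l b).q0 (by cases b <;> simp) _ (by simp : (arrOf (M i) n1).w1 ∈ _)
        exact this.resolve_right h1
      rw [hA.1, q0_iff ht hM1 hA.2.1 hw] at h2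
      exact h2
    | true =>
      rw [hal] at hv1 hv2
      have h1 : ¬ Vge t 1 (arrOf (M i) n0).w0 := by
        rw [w0_iff ht.1 hn0]; exact hv2
      have h2 : Vge t 1 (S.A (i + 1) l b).q1 := by
        have := hor _ (by simp : (arrOf (M i) n0).w0 ∈ _) (S.A (i + 1) l b).q1 (by cases b <;> simp)
        exact this.resolve_left h1
      rw [hA.1, q1_iff ht hM1 hA.2.2 hw] at h2
      exact h2
  · intro b
    have hD := hg.D (i + 1) hi1 b
    cases b with
    | false =>
      obtain ⟨x, hx, hx'⟩ := hstep [(S.D (i + 1) false).q0] (by unfold Sol.stepCls; simp)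
      rw [List.mem_singleton] at hx
      subst hx
      rw [hD.1, q0_iff ht hM1 hD.2.1 hw] at hx'
      exact hx'
    | true =>
      obtain ⟨x, hx, hx'⟩ := hstep [(S.D (i + 1) true).q1] (by unfold Sol.stepCls; simp)
      rw [List.mem_singleton] at hx
      subst hx
      rw [hD.1, q1_iff ht hM1 hD.2.2 hw] at hx'
      exact hx'
  · right
    refine ⟨⟨u, hu.inert.1, by have := hu.le; omega, by omega, hu_rk⟩, ?_⟩
    rcases hv.eq' with h | h
    · left; rwa [h] at hv_rk
    · right; rwa [h] at hv_rk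

end

/-- the bit of a coordinate out of range is replaced by `false` -/
def restr (m : ℕ) (a : ℕ → Bool) : ℕ → Bool := fun l => if l < m then a l else false

section

variable {I : DInst} {S : Sol} {M : ℕ → ℤ} {nA : ℕ → ℕ → Bool → ℤ} {nD : ℕ → Bool → ℤ}
  {nB : ℕ → ℤ} {nS : ℤ}

theorem cell_zero (hg : Good I S M nA nD nB nS) (a : ℕ → Bool)
    (h : NT 1931 (S.w 0) ∧ ∀ b, NT 1931 ((S.D 0 b).q b)) : Cell M nA nD 0 a 1931 := by
  have h0 : 0 ≤ I.m + 1 := Nat.zero_le _
  have hM := odd_ne_zero (hg.M0 0 h0)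
  have hvis : Vis 1931 (M 0) := by
    have h1 := h.1
    rw [show (1931 : ℚ) = ((1931 : ℕ) : ℚ) by norm_num, nt_prime inert_1931, hg.Sw 0 h0] at h1
    exact (inv_zz_iff inert_1931.1 hM).1 h1
  refine ⟨inert_1931, le_rfl, hvis, fun l hl => by omega, ?_, Or.inl ⟨rfl, rfl⟩⟩
  intro b
  have h1 := h.2 b
  have hD := hg.D 0 h0 b
  rw [show (1931 : ℚ) = ((1931 : ℕ) : ℚ) by norm_num, nt_prime inert_1931, hD.1,
    q_iff inert_1931 hM hD.2.1 hD.2.2 hvis] at h1
  exact h1

theorem anchor_of (hg : Good I S M nA nD nB nS) {i : ℕ} (hi : i ≤ I.m + 1)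
    (h : ∀ pe ∈ [((11 : ℕ), false), ((29 : ℕ), true)],
      NT pe.1 (S.w i) ∧ (∀ l < i, ∀ b, NT pe.1 ((S.A i l b).q b)) ∧
      ∀ b, NT pe.1 ((S.D i b).q pe.2)) (ε : Bool) :
    Anchor M nA nD i (if ε then 29 else 11) ε := by
  have hM := odd_ne_zero (hg.M0 i hi)
  have hin : Inert (if ε then 29 else 11) := by
    cases ε
    · exact inert_eleven
    · exact inert_29
  have h1 := h ((if ε then 29 else 11), ε) (by cases ε <;> simp)
  simp only at h1
  obtain ⟨h1, h2, h3⟩ := h1
  have hvis : Vis (if ε then 29 else 11) (M i) := by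
    rw [nt_prime hin, hg.Sw i hi] at h1
    exact (inv_zz_iff hin.1 hM).1 h1
  refine ⟨rfl, hvis, ?_, ?_⟩
  · intro l hl b
    have hA := hg.A i hi l hl b
    have h4 := h2 l hl b
    rw [nt_prime hin, hA.1, q_iff hin hM hA.2.1 hA.2.2 hvis] at h4
    exact h4
  · intro b
    have hD := hg.D i hi b
    have h4 := h3 b
    rw [nt_prime hin, hD.1, q_iff hin hM hD.2.1 hD.2.2 hvis] at h4
    exact h4

theorem exists_cell (hg : Good I S M nA nD nB nS)
    (hanch : ∀ i ≤ I.m + 1, ∀ ε, Anchor M nA nD i (if ε then 29 else 11) ε)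
    (h0 : NT 1931 (S.w 0) ∧ ∀ b, NT 1931 ((S.D 0 b).q b))
    (hobs : ∀ i ≤ I.m, ObsR (S.pairs i) (S.stepCls i ++ extra I S i)) (a : ℕ → Bool) :
    ∀ i ≤ I.m + 1, ∃ s, Cell M nA nD i a s ∧
      (i = I.m + 1 → ∀ cl ∈ S.lastCls I, ∃ x ∈ cl, Vge s 1 x) := by
  intro i
  induction i with
  | zero => exact fun _ => ⟨1931, cell_zero hg a h0, fun h => by omega⟩
  | succ i ih =>
    intro hi
    obtain ⟨s, hs, -⟩ := ih (by omega)
    obtain ⟨t, ht, ht'⟩ := step hg (by omega) (hobs i (by omega)) hs (hanch i (by omega) (a i))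
    refine ⟨t, ht, fun h => ?_⟩
    have : extra I S i = S.lastCls I := by
      unfold extra; rw [if_pos (by omega)]
    rwa [this] at ht'

/-- two final cells whose addresses differ at most at `j` see the same value of `B k`, if `k` does
not depend on `j` -/
theorem indep (hg : Good I S M nA nD nB nS) {k j : ℕ} (hk : k < I.K)
    (hobs : ObsR (S.indPairs I j) [[(S.B k).w0, (S.B k).w1, S.Ds.w1]]) {a a' : ℕ → Bool} {u v : ℕ}
    (hu : Cell M nA nD (I.m + 1) a u) (hv : Cell M nA nD (I.m + 1) a' v)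
    (haa : ∀ l, l ≠ j → a l = a' l)
    (huS : Hi u (M (I.m + 1)) nS) (hvS : Hi v (M (I.m + 1)) nS)
    {b b' : Bool} (hub : Hi u (M (I.m + 1)) (sh (M (I.m + 1)) (nB k) b))
    (hvb : Hi v (M (I.m + 1)) (sh (M (I.m + 1)) (nB k) b')) : b = b' := by
  set i := I.m + 1 with hi
  have hi' : i ≤ I.m + 1 := le_rfl
  have hM0 := odd_ne_zero (hg.M0 i hi')
  have hB := hg.B k hk
  have hS := hg.Ds
  rw [← hi] at hB hS
  by_cases huv : u = v
  · subst huv
    by_contra hbb
    have hbb' : b' = !b := by cases b <;> cases b' <;> simp_all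
    subst hbb'
    cases b with
    | false => exact hub.not_both hu.inert hM0 hvb
    | true => exact hvb.not_both hu.inert hM0 hub
  set ps : List (ℤ × ℤ × Bool) := ((List.range i).filter (fun l => l ≠ j)).map
    (fun l => (nA i l false, nA i l true, a l)) ++ [(nS, nS, false)] with hps
  have hpairs : S.indPairs I j = ps.map (fun p => (arrOf (M i) p.1, arrOf (M i) p.2.1)) := by
    unfold Sol.indPairs
    rw [hps, List.map_append, List.map_map]
    congr 1
    · apply List.map_congr_left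
      intro l hl
      rw [List.mem_filter, List.mem_range] at hl
      rw [← hi, (hg.A i hi' l hl.1 false).1, (hg.A i hi' l hl.1 true).1]
      rfl
    · rw [hS.1]
      rfl
  rw [hpairs] at hobs
  have hmem : ∀ p ∈ ps, (∃ l < i, l ≠ j ∧ p = (nA i l false, nA i l true, a l)) ∨
      p = (nS, nS, false) := by
    intro p hp
    rw [hps] at hp
    rcases List.mem_append.1 hp with hp | hp
    · obtain ⟨l, hl, rfl⟩ := List.mem_map.1 hp
      rw [List.mem_filter, List.mem_range] at hl
      exact Or.inl ⟨l, hl.1, by simpa using hl.2, rfl⟩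
    · exact Or.inr (List.mem_singleton.1 hp)
  have hSmem : (nS, nS, false) ∈ ps := by
    rw [hps]; simp
  have hwit : ∀ {s : ℕ} {c : ℕ → Bool}, Cell M nA nD i c s → (11 ∣ rk s ∨ 29 ∣ rk s) := by
    intro s c hs
    rcases hs.wit with ⟨h, -⟩ | ⟨-, h⟩
    · omega
    · exact h
  have hintr : ∀ {s t : ℕ} {c c' : ℕ → Bool}, Cell M nA nD i c s → Cell M nA nD i c' t →
      ∀ {e f : ℕ}, ¬ rk s ∣ s ^ e * t ^ f := by
    intro s t c c' hs ht e f
    have h1 := hs.le
    have h2 := ht.le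
    rcases hwit hs with h | h
    · exact intrinsic ht.inert.1 hs.inert.1 ⟨11, by norm_num, by omega, by omega, h⟩
    · exact intrinsic ht.inert.1 hs.inert.1 ⟨29, by norm_num, by omega, by omega, h⟩
  obtain ⟨t, ht, ht0, ht11, ht29, hut, hvis, hnvis, htu, htv, hcls⟩ := obs_sound
    (M := M i) ps
    (by
      intro p hp
      rcases hmem p hp with ⟨l, hl, -, rfl⟩ | rfl
      · exact (hg.A i hi' l hl false).2.1
      · exact hS.2.1)
    (by
      intro p hp
      rcases hmem p hp with ⟨l, hl, -, rfl⟩ | rfl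
      · exact (hg.A i hi' l hl true).2.2
      · exact hS.2.2.1)
    hu.inert hv.inert huv (by have := hu.le; omega) (by have := hv.le; omega)
    (i := padicValInt u (M i)) (j := padicValInt v (M i))
    (by
      intro p hp
      rcases hmem p hp with ⟨l, hl, hlj, rfl⟩ | rfl
      · rw [ge_eq]
        apply uv_dvd hu.inert hv.inert huv
        · have := (hu.A l hl (a l)).dvd
          cases h : a l <;> rw [h] at this <;> exact this
        · have := (hv.A l hl (a l)).dvd
          rw [← haa l hlj] at this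
          cases h : a l <;> rw [h] at this <;> exact this
      · rw [ge_eq]
        exact uv_dvd hu.inert hv.inert huv huS.dvd hvS.dvd)
    (by
      intro p hp
      rcases hmem p hp with ⟨l, hl, -, rfl⟩ | rfl
      · rw [oe_eq]
        rintro ⟨h1, -⟩
        refine not_dvd_sh hu.inert hM0 ?_ h1
        have := hu.A l hl (!(a l))
        cases h : a l <;> rw [h] at this <;> exact this
      · rw [oe_eq]
        rintro ⟨h1, -⟩
        exact not_dvd_sh (b := false) hu.inert hM0 huS h1)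
    (by
      refine ⟨_, hSmem, ?_⟩
      rw [ge_eq]
      exact hS.2.2.2)
    (by
      rw [hps]
      simp only [List.length_append, List.length_map, List.length_singleton]
      have h1 := List.length_filter_le (fun l => decide (l ≠ j)) (List.range i)
      rw [List.length_range] at h1
      have := hu.le
      omega)
    (by rintro ⟨-, h⟩; exact hintr hu hv h)
    (by rintro ⟨-, h⟩; exact hintr hv hu h)
    hobs
  have hX : Vis t (nB k) ∨ Vis t (nB k - M i) := by
    obtain ⟨x, hx, hx'⟩ := hcls _ (List.mem_singleton.2 rfl)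
    have hnS : ¬ Vis t (nS - M i) := hnvis _ hSmem
    simp only [List.mem_cons, List.not_mem_nil, or_false] at hx
    rcases hx with rfl | rfl | rfl
    · left; rw [hB.1, w0_iff ht.1 hB.2.1] at hx'; exact hx'
    · right; rw [hB.1, w1_iff ht.1 hB.2.2] at hx'; exact hx'
    · exfalso
      rw [hS.1, w1_iff ht.1 hS.2.2.1] at hx'
      exact hnS hx'
  have hX' : ∃ c, Vis t (sh (M i) (nB k) c) := by
    rcases hX with h | h
    · exact ⟨false, h⟩
    · exact ⟨true, h⟩
  obtain ⟨c, hc⟩ := hX'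
  have key : ∀ {s : ℕ} {d : Bool} (hs : Inert s)
      (hv : padicValNat s (rk t) = padicValInt s (M i) + 1)
      (hd : Hi s (M i) (sh (M i) (nB k) d)), c = d := by
    intro s d hs hv hd
    by_contra hcd
    have hcd' : c = !d := by cases c <;> cases d <;> simp_all
    apply not_dvd_sh hs hM0 hd
    rw [← hcd']
    exact pow_dvd_of_rk (k := 3) hs hv (by
      have : (2 : ℤ) ^ 3 = 8 := by norm_num
      rw [this]; exact hc)
  rw [← key hu.inert htu hub, ← key hv.inert htv hvb]

theorem rsat_sound (h : RSat I) : DQSat I := by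
  obtain ⟨S, h1, h2, h3, h4, h5, h6, h7, h8, h9, h10⟩ := h
  obtain ⟨M, nA, nD, nB, nS, hg⟩ := exists_good h1 h2 h3 h4 h5
  have hobs : ∀ i ≤ I.m, ObsR (S.pairs i) (S.stepCls i ++ extra I S i) := by
    intro i hi
    unfold extra
    by_cases him : i = I.m
    · rw [if_pos him, him]; exact h9
    · rw [if_neg him, List.append_nil]; exact h8 i (by omega)
  have hanch : ∀ i ≤ I.m + 1, ∀ ε, Anchor M nA nD i (if ε then 29 else 11) ε := fun i hi =>
    anchor_of hg hi (h6 i hi)
  have hcell := fun a => exists_cell hg hanch h7 hobs a (I.m + 1) le_rfl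
  choose t htc htl using hcell
  have htl := fun a => htl a rfl
  have hM0 := odd_ne_zero (hg.M0 (I.m + 1) le_rfl)
  -- the last clauses
  have hS : ∀ a, Hi (t a) (M (I.m + 1)) nS := by
    intro a
    obtain ⟨x, hx, hx'⟩ := htl a [S.Ds.q0] (by unfold Sol.lastCls; simp)
    rw [List.mem_singleton] at hx
    subst hx
    rw [hg.Ds.1, q0_iff (htc a).inert hM0 hg.Ds.2.1 (htc a).vis] at hx'
    exact hx'
  have hB : ∀ a, ∀ k < I.K, ∃ b, Hi (t a) (M (I.m + 1)) (sh (M (I.m + 1)) (nB k) b) := by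
    intro a k hk
    have hBk := hg.B k hk
    obtain ⟨x, hx, hx'⟩ := htl a [(S.B k).q0, (S.B k).q1] (by
      unfold Sol.lastCls
      apply List.mem_append_left
      apply List.mem_cons_of_mem
      exact List.mem_map.2 ⟨k, List.mem_range.2 hk, rfl⟩)
    simp only [List.mem_cons, List.not_mem_nil, or_false] at hx
    rcases hx with rfl | rfl
    · rw [hBk.1, q0_iff (htc a).inert hM0 hBk.2.1 (htc a).vis] at hx'
      exact ⟨false, hx'⟩
    · rw [hBk.1, q1_iff (htc a).inert hM0 hBk.2.2 (htc a).vis] at hx'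
      exact ⟨true, hx'⟩
  have huniq : ∀ a, ∀ n : ℤ, ∀ b b' : Bool, Hi (t a) (M (I.m + 1)) (sh (M (I.m + 1)) n b) →
      Hi (t a) (M (I.m + 1)) (sh (M (I.m + 1)) n b') → b = b' := by
    intro a n b b' hb hb'
    cases b <;> cases b'
    · rfl
    · exact absurd hb' (fun h => hb.not_both (htc a).inert hM0 h)
    · exact absurd hb (fun h => hb'.not_both (htc a).inert hM0 h)
    · rfl
  classical
  set B0 : ℕ → (ℕ → Bool) → Bool := fun k a =>
    decide (Hi (t a) (M (I.m + 1)) (sh (M (I.m + 1)) (nB k) true)) with hB0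
  have hB0s : ∀ k < I.K, ∀ a, Hi (t a) (M (I.m + 1)) (sh (M (I.m + 1)) (nB k) (B0 k a)) := by
    intro k hk a
    by_cases h : Hi (t a) (M (I.m + 1)) (sh (M (I.m + 1)) (nB k) true)
    · have : B0 k a = true := by rw [hB0]; simpa using h
      rw [this]; exact h
    · have : B0 k a = false := by rw [hB0]; simpa using h
      rw [this]
      obtain ⟨b, hb⟩ := hB a k hk
      cases b
      · exact hb
      · exact absurd hb h
  -- one flip
  have hflip : ∀ k < I.K, ∀ j < I.m, I.dep k j = false → ∀ a a' : ℕ → Bool,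
      (∀ l, l ≠ j → a l = a' l) → B0 k a = B0 k a' := by
    intro k hk j hj hd a a' haa
    exact indep hg hk (h10 k hk j hj hd) (htc a) (htc a') haa (hS a) (hS a') (hB0s k hk a)
      (hB0s k hk a')
  -- several flips
  have hflips : ∀ k < I.K, ∀ n ≤ I.m, ∀ a a' : ℕ → Bool,
      (∀ l < n, I.dep k l = true → a l = a' l) → (∀ l, n ≤ l → a l = a' l) →
      B0 k a = B0 k a' := by
    intro k hk n
    induction n with
    | zero =>
      intro _ a a' _ h
      have : a = a' := funext fun l => h l (Nat.zero_le l)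
      rw [this]
    | succ n ih =>
      intro hn a a' h h'
      by_cases hd : I.dep k n = true
      · apply ih (by omega) a a' (fun l hl => h l (by omega))
        intro l hl
        rcases Nat.eq_or_lt_of_le hl with rfl | hl
        · exact h _ (by omega) hd
        · exact h' l hl
      · have hd : I.dep k n = false := by simpa using hd
        have e1 : B0 k a = B0 k (Function.update a n (a' n)) :=
          hflip k hk n (by omega) hd _ _ (fun l hl => by rw [Function.update_of_ne hl])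
        rw [e1]
        apply ih (by omega)
        · intro l hl hdl
          rw [Function.update_of_ne (by omega)]
          exact h l (by omega) hdl
        · intro l hl
          rcases Nat.eq_or_lt_of_le hl with rfl | hl
          · rw [Function.update_self]
          · rw [Function.update_of_ne (by omega)]
            exact h' l hl
  refine ⟨fun k a => B0 k (restr I.m a), ?_, ?_⟩
  · intro k hk a a' haa
    apply hflips k hk I.m le_rfl
    · intro l hl hd
      unfold restr
      rw [if_pos hl, if_pos hl]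
      exact haa l hl hd
    · intro l hl
      unfold restr
      rw [if_neg (by omega), if_neg (by omega)]
  · intro a cl hcl
    obtain ⟨x, hx, hx'⟩ := htl (restr I.m a) (cl.map (S.atom I)) (by
      unfold Sol.lastCls
      apply List.mem_append_right
      exact List.mem_map.2 ⟨cl, hcl, rfl⟩)
    obtain ⟨l, hl, rfl⟩ := List.mem_map.1 hx
    refine ⟨l, hl, ?_⟩
    have hone : ¬ Vge (t (restr I.m a)) 1 (1 : ℚ) := by
      unfold Vge; simp
    unfold Sol.atom at hx'
    unfold DInst.litTrue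
    by_cases hl1 : l.1 = true
    · rw [if_pos hl1] at hx' ⊢
      by_cases hlK : l.2.2 < I.K
      · rw [if_pos hlK] at hx'
        have hBk := hg.B l.2.2 hlK
        rw [hBk.1, q_iff (htc _).inert hM0 hBk.2.1 hBk.2.2 (htc _).vis] at hx'
        exact ⟨hlK, huniq _ _ _ _ (hB0s _ hlK _) hx'⟩
      · rw [if_neg hlK] at hx'
        exact absurd hx' hone
    · rw [if_neg hl1] at hx' ⊢
      by_cases hlm : l.2.2 < I.m
      · rw [if_pos hlm] at hx'
        have hAk := hg.A (I.m + 1) le_rfl l.2.2 (by omega) false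
        rw [hAk.1, q_iff (htc _).inert hM0 hAk.2.1 hAk.2.2 (htc _).vis] at hx'
        have h1 := (htc (restr I.m a)).A l.2.2 (by omega) false
        have h2 := huniq _ _ _ _ h1 hx'
        refine ⟨hlm, ?_⟩
        rw [← h2]; unfold restr; rw [if_pos hlm]
      · rw [if_neg hlm] at hx'
        exact absurd hx' hone

end

end Pool.Agent.H528R2.Chain
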