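import Pool.Agent.H528R2.Rank
import Pool.Agent.H528R2.ZZ
import Pool.Agent.H528R2.CurvePt
import Pool.Agent.H528R2.Diff
import Pool.Agent.H528R2.Rho
namespace Pool.Agent.H528R2
namespace CoreAux
open Finset

lemma supp_dd {n : ℤ} (hn : n ≠ 0) :
    (Function.support (fun s : {s : ℕ // Inert s} => ((dd s n : ℕ) : ZMod 2))).Finite := by
  have := finite_rk hn
  refine (this.preimage (Subtype.val_injective.injOn)).subset ?_
  intro s hs
  simp only [Set.mem_preimage, Set.mem_ofPred_eq]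
  refine ⟨s.2.1, ?_⟩
  by_contra hcon
  apply hs
  simp [dd_eq_zero s.2.1 hn hcon]

/-! ### `pr` modulo 16 -/

lemma pr_add16 {n : ℤ} (h : Odd n) : pr (n + 16) = pr n := by
  have h1 := pr_add_eight h
  have h2 : Odd (n + 8) := by
    obtain ⟨k, hk⟩ := h
    exact ⟨k + 4, by omega⟩
  have h3 := pr_add_eight h2
  have : n + 16 = n + 8 + 8 := by ring
  rw [this, h3, h1, add_assoc]
  have : (1 : ZMod 2) + 1 = 0 := by decide
  rw [this, add_zero]

lemma pr_add16_nat {n : ℤ} (h : Odd n) (k : ℕ) : pr (n + 16 * k) = pr n := by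
  induction k with
  | zero => simp
  | succ k ih =>
    have h2 : Odd (n + 16 * k) := by
      obtain ⟨l, hl⟩ := h
      exact ⟨l + 8 * k, by omega⟩
    have := pr_add16 h2
    rw [← ih, ← this]
    congr 1
    push_cast
    ring

lemma pr_add16_int {n : ℤ} (h : Odd n) (k : ℤ) : pr (n + 16 * k) = pr n := by
  obtain ⟨m, rfl | rfl⟩ := k.eq_nat_or_neg
  · exact pr_add16_nat h m
  · have h2 : Odd (n + 16 * -(m : ℤ)) := by
      obtain ⟨l, hl⟩ := h
      exact ⟨l - 8 * m, by omega⟩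
    have := pr_add16_nat h2 m
    rw [← this]
    congr 1
    ring

def Phi (α β : ZMod 2) (x : ZMod 16) : ZMod 2 :=
  if x = 1 ∨ x = 15 then α else if x = 7 ∨ x = 9 then α + 1 else
    if x = 3 ∨ x = 13 then β else β + 1

lemma pr_phi {n : ℤ} (h : Odd n) : pr n = Phi (pr 1) (pr 3) (n : ZMod 16) := by
  have e : n = n % 16 + 16 * (n / 16) := by omega
  have ho : Odd (n % 16) := by
    rw [Int.odd_iff] at h ⊢
    omega
  have h1 : pr n = pr (n % 16) := by
    conv_lhs => rw [e]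
    exact pr_add16_int ho _
  have h2 : (n : ZMod 16) = ((n % 16 : ℤ) : ZMod 16) := by
    have : ((16 : ℤ) : ZMod 16) = 0 := by decide
    conv_lhs => rw [e]
    push_cast
    have h16 : (16 : ZMod 16) = 0 := by decide
    rw [h16]; ring
  rw [h1, h2]
  have e9 : pr 9 = pr 1 + 1 := pr_add_eight (n := 1) (by decide)
  have e15 : pr 15 = pr 1 := by
    have := pr_add16 (n := -1) (by decide)
    rw [pr_neg] at this
    exact this
  have e7 : pr 7 = pr 1 + 1 := by
    have := pr_add_eight (n := -1) (by decide)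
    rw [pr_neg] at this
    exact this
  have e11 : pr 11 = pr 3 + 1 := pr_add_eight (n := 3) (by decide)
  have e13 : pr 13 = pr 3 := by
    have := pr_add16 (n := -3) (by decide)
    rw [pr_neg] at this
    exact this
  have e5 : pr 5 = pr 3 + 1 := by
    have := pr_add_eight (n := -3) (by decide)
    rw [pr_neg] at this
    exact this
  have hr : n % 16 = 1 ∨ n % 16 = 3 ∨ n % 16 = 5 ∨ n % 16 = 7 ∨ n % 16 = 9 ∨ n % 16 = 11 ∨
      n % 16 = 13 ∨ n % 16 = 15 := by
    rw [Int.odd_iff] at ho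
    omega
  rcases hr with hr | hr | hr | hr | hr | hr | hr | hr <;> rw [hr]
  · simp [Phi]
  · have : (3 : ZMod 16) ≠ 1 ∧ (3 : ZMod 16) ≠ 15 ∧ (3 : ZMod 16) ≠ 7 ∧ (3 : ZMod 16) ≠ 9 := by decide
    simp [Phi, this]
  · have : (5 : ZMod 16) ≠ 1 ∧ (5 : ZMod 16) ≠ 15 ∧ (5 : ZMod 16) ≠ 7 ∧ (5 : ZMod 16) ≠ 9 ∧
      (5 : ZMod 16) ≠ 3 ∧ (5 : ZMod 16) ≠ 13 := by decide
    simp [Phi, this, e5]
  · have : (7 : ZMod 16) ≠ 1 ∧ (7 : ZMod 16) ≠ 15 := by decide
    simp [Phi, this, e7]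
  · have : (9 : ZMod 16) ≠ 1 ∧ (9 : ZMod 16) ≠ 15 := by decide
    simp [Phi, this, e9]
  · have : (11 : ZMod 16) ≠ 1 ∧ (11 : ZMod 16) ≠ 15 ∧ (11 : ZMod 16) ≠ 7 ∧ (11 : ZMod 16) ≠ 9 ∧
      (11 : ZMod 16) ≠ 3 ∧ (11 : ZMod 16) ≠ 13 := by decide
    simp [Phi, this, e11]
  · have : (13 : ZMod 16) ≠ 1 ∧ (13 : ZMod 16) ≠ 15 ∧ (13 : ZMod 16) ≠ 7 ∧ (13 : ZMod 16) ≠ 9 := by
      decide
    simp [Phi, this, e13]
  · simp [Phi, e15]

lemma phi_sum : ∀ α β : ZMod 2, ∀ g ∈ ([1,3,5,7,9,11,13,15] : List (ZMod 16)),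
    ∀ u ∈ ([3,5,11,13] : List (ZMod 16)), ∀ v ∈ ([3,5,11,13] : List (ZMod 16)),
    Phi α β (g * u * v) + Phi α β g + Phi α β (g * u) + Phi α β (g * v) = 1 := by
  decide

lemma inert_mod {u : ℕ} (hu : Inert u) : (u : ZMod 16) ∈ ([3,5,11,13] : List (ZMod 16)) := by
  have h : u % 16 = 3 ∨ u % 16 = 5 ∨ u % 16 = 11 ∨ u % 16 = 13 := by
    have := hu.2
    omega
  have e : (u : ZMod 16) = ((u % 16 : ℕ) : ZMod 16) := by simp
  rw [e]
  rcases h with h | h | h | h <;> rw [h] <;> decide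

lemma odd_mod {g : ℤ} (hg : Odd g) : (g : ZMod 16) ∈ ([1,3,5,7,9,11,13,15] : List (ZMod 16)) := by
  have h : g % 16 = 1 ∨ g % 16 = 3 ∨ g % 16 = 5 ∨ g % 16 = 7 ∨ g % 16 = 9 ∨ g % 16 = 11 ∨
      g % 16 = 13 ∨ g % 16 = 15 := by
    rw [Int.odd_iff] at hg
    omega
  have e : (g : ZMod 16) = ((g % 16 : ℤ) : ZMod 16) := by
    have h16 : (16 : ZMod 16) = 0 := by decide
    conv_lhs => rw [show g = g % 16 + 16 * (g / 16) by omega]
    push_cast
    rw [h16]; ring
  rw [e]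
  rcases h with h | h | h | h | h | h | h | h <;> rw [h] <;> decide

lemma inert_odd {u : ℕ} (hu : Inert u) : Odd (u : ℤ) := by
  have := hu.2
  rw [Int.odd_iff]
  omega

lemma pr_four {g : ℤ} (hg : Odd g) {u v : ℕ} (hu : Inert u) (hv : Inert v) :
    pr (g * u * v) + pr g + pr (g * u) + pr (g * v) = 1 := by
  rw [pr_phi hg, pr_phi (hg.mul (inert_odd hu)), pr_phi (hg.mul (inert_odd hv)),
    pr_phi ((hg.mul (inert_odd hu)).mul (inert_odd hv))]
  push_cast
  exact phi_sum _ _ _ (odd_mod hg) _ (inert_mod hu) _ (inert_mod hv)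


/-! ### counting -/

def S4 (f : ℕ → ZMod 2) (c u v i j : ℕ) : ZMod 2 :=
  f (c * u ^ i * v ^ j) + f (c * u ^ (i + 1) * v ^ j) + f (c * u ^ i * v ^ (j + 1)) +
    f (c * u ^ (i + 1) * v ^ (j + 1))

lemma S4_add (f g : ℕ → ZMod 2) (c u v i j : ℕ) :
    S4 (fun n => f n + g n) c u v i j = S4 f c u v i j + S4 g c u v i j := by
  unfold S4; ring

section fam
variable {c u v : ℕ} (hc : c ≠ 0) (hu : u.Prime) (hv : v.Prime) (huv : u ≠ v)
  (huc : ¬ u ∣ c) (hvc : ¬ v ∣ c)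
include hc hu hv huv huc hvc

omit huv huc hvc in
lemma fam_ne (a b : ℕ) : c * u ^ a * v ^ b ≠ 0 :=
  mul_ne_zero (mul_ne_zero hc (pow_ne_zero _ hu.ne_zero)) (pow_ne_zero _ hv.ne_zero)

omit huv huc hvc in
lemma fam_fact (a b p : ℕ) : (c * u ^ a * v ^ b).factorization p =
    c.factorization p + (if u = p then a else 0) + (if v = p then b else 0) := by
  rw [Nat.factorization_mul (mul_ne_zero hc (pow_ne_zero _ hu.ne_zero))
    (pow_ne_zero _ hv.ne_zero), Nat.factorization_mul hc (pow_ne_zero _ hu.ne_zero),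
    hu.factorization_pow, hv.factorization_pow]
  simp [Finsupp.single_apply]

lemma fam_val_u (a b : ℕ) : padicValNat u (c * u ^ a * v ^ b) = a := by
  rw [← Nat.factorization_def _ hu, fam_fact hc hu hv]
  simp [Nat.factorization_eq_zero_of_not_dvd huc, huv.symm]

lemma fam_val_v (a b : ℕ) : padicValNat v (c * u ^ a * v ^ b) = b := by
  rw [← Nat.factorization_def _ hv, fam_fact hc hu hv]
  simp [Nat.factorization_eq_zero_of_not_dvd hvc, huv]

omit huv huc hvc in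
lemma fam_val {t : ℕ} (ht : t.Prime) (htu : t ≠ u) (htv : t ≠ v) (a b : ℕ) :
    padicValNat t (c * u ^ a * v ^ b) = padicValNat t c := by
  rw [← Nat.factorization_def _ ht, fam_fact hc hu hv, ← Nat.factorization_def _ ht]
  simp [htu.symm, htv.symm]

lemma fam_dvd {ρ A B a b : ℕ} (h : ρ ∣ c * u ^ A * v ^ B) :
    (ρ ∣ c * u ^ a * v ^ b ↔ padicValNat u ρ ≤ a ∧ padicValNat v ρ ≤ b) := by
  have hρ : ρ ≠ 0 := by
    rintro rfl
    exact fam_ne hc hu hv A B (Nat.eq_zero_of_zero_dvd h)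
  rw [← Nat.factorization_def _ hu, ← Nat.factorization_def _ hv]
  constructor
  · intro h'
    have := (Nat.factorization_le_iff_dvd hρ (fam_ne hc hu hv a b)).2 h'
    constructor
    · have h1 := this u
      rw [fam_fact hc hu hv] at h1
      simpa [Nat.factorization_eq_zero_of_not_dvd huc, huv.symm] using h1
    · have h1 := this v
      rw [fam_fact hc hu hv] at h1
      simpa [Nat.factorization_eq_zero_of_not_dvd hvc, huv] using h1
  · rintro ⟨h1, h2⟩
    rw [← Nat.factorization_le_iff_dvd hρ (fam_ne hc hu hv a b)]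
    intro p
    have h3 := (Nat.factorization_le_iff_dvd hρ (fam_ne hc hu hv A B)).2 h p
    rw [fam_fact hc hu hv] at h3 ⊢
    by_cases hpu : u = p
    · subst hpu
      simp; omega
    · by_cases hpv : v = p
      · subst hpv
        simp; omega
      · simpa [hpu, hpv] using h3

lemma count (ρ i j : ℕ) : S4 (fun N => if ρ ∣ N then 1 else 0) c u v i j =
    if (ρ ∣ c * u ^ (i + 1) * v ^ (j + 1) ∧ padicValNat u ρ = i + 1 ∧ padicValNat v ρ = j + 1)
      then 1 else 0 := by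
  by_cases h : ρ ∣ c * u ^ (i + 1) * v ^ (j + 1)
  · have h0 := (fam_dvd hc hu hv huv huc hvc h (a := i + 1) (b := j + 1)).1 h
    unfold S4
    simp only [fam_dvd hc hu hv huv huc hvc h]
    have e2 : (1 : ZMod 2) + 1 = 0 := by decide
    by_cases h1 : padicValNat u ρ = i + 1
    · by_cases h2 : padicValNat v ρ = j + 1
      · simp [h1, h2]
      · have h3 : padicValNat v ρ ≤ j := by omega
        have h4 : padicValNat v ρ ≤ j + 1 := by omega
        simp [h1, h2, h3, h4, e2]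
    · have h3 : padicValNat u ρ ≤ i := by omega
      have h4 : padicValNat u ρ ≤ i + 1 := by omega
      by_cases h2 : padicValNat v ρ = j + 1
      · simp [h1, h2, h3, h4, e2]
      · have h5 : padicValNat v ρ ≤ j := by omega
        have h6 : padicValNat v ρ ≤ j + 1 := by omega
        simp [h1, h2, h3, h4, h5, h6, e2]
  · have hn : ∀ a ≤ i + 1, ∀ b ≤ j + 1, ¬ ρ ∣ c * u ^ a * v ^ b := by
      intro a ha b hb h'
      exact h (h'.trans (mul_dvd_mul (mul_dvd_mul_left c (pow_dvd_pow u ha)) (pow_dvd_pow v hb)))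
    unfold S4
    simp [hn i (by omega) j (by omega), hn (i + 1) le_rfl j (by omega),
      hn i (by omega) (j + 1) le_rfl, h]

end fam

/-! ### parities -/

noncomputable def E (s N : ℕ) : ZMod 2 := ((dd s (N : ℤ) : ℕ) : ZMod 2)

noncomputable def del (s : ℕ) : ZMod 2 := (dd s (rk s) : ZMod 2) + (padicValNat s (rk s) : ZMod 2)

lemma E_eq {s N : ℕ} (hs : s.Prime) (hN : N ≠ 0) :
    E s N = (del s + (padicValNat s N : ZMod 2)) * (if rk s ∣ N then 1 else 0) := by
  have hN' : (N : ℤ) ≠ 0 := by exact_mod_cast hN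
  by_cases h : rk s ∣ N
  · have h' : (rk s : ℤ) ∣ (N : ℤ) := by exact_mod_cast h
    have := dd_eq hs hN' h'
    rw [padicValInt.of_nat] at this
    have h2 : ((dd s (N : ℤ) + padicValNat s (rk s) : ℕ) : ZMod 2) =
      ((dd s (rk s) + padicValNat s N : ℕ) : ZMod 2) := by rw [this]
    push_cast at h2
    have key : ∀ a b c d : ZMod 2, a + b = c + d → a = c + b + d := by decide
    simp only [h, if_true, mul_one, E, del]
    exact key _ _ _ _ h2
  · have h' : ¬ (rk s : ℤ) ∣ (N : ℤ) := by exact_mod_cast h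
    simp [E, h, dd_eq_zero hs hN' h']

lemma E_mul_coprime {s N h : ℕ} (hs : s.Prime) (hN : N ≠ 0) (hh : h.Prime) (hsh : s ≠ h)
    (hr : rk s = 0 ∨ ¬ h ∣ rk s) : E s (N * h) = E s N := by
  rw [E_eq hs hN, E_eq hs (mul_ne_zero hN hh.ne_zero)]
  have h1 : padicValNat s (N * h) = padicValNat s N := by
    have := Fact.mk hs
    rw [padicValNat.mul hN hh.ne_zero]
    have : ¬ s ∣ h := by
      intro h2
      exact hsh ((Nat.prime_dvd_prime_iff_eq hs hh).1 h2)
    simp [padicValNat.eq_zero_of_not_dvd this]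
  have h2 : rk s ∣ N * h ↔ rk s ∣ N := by
    rcases hr with hr | hr
    · rw [hr, zero_dvd_iff, zero_dvd_iff]
      simp [hN, hh.ne_zero]
    · have : (rk s).Coprime h := ((Nat.Prime.coprime_iff_not_dvd hh).2 hr).symm
      exact ⟨fun h3 => this.dvd_of_dvd_mul_right h3, fun h3 => h3.mul_right h⟩
  rw [h1]
  simp only [h2]

lemma S4_E {t c u v i j : ℕ} (hc : c ≠ 0) (hu : u.Prime) (hv : v.Prime) (huv : u ≠ v)
    (huc : ¬ u ∣ c) (hvc : ¬ v ∣ c) (ht : t.Prime) (htu : t ≠ u) (htv : t ≠ v) :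
    S4 (E t) c u v i j = (del t + (padicValNat t c : ZMod 2)) *
      if (rk t ∣ c * u ^ (i + 1) * v ^ (j + 1) ∧ padicValNat u (rk t) = i + 1 ∧
        padicValNat v (rk t) = j + 1) then 1 else 0 := by
  rw [← count hc hu hv huv huc hvc (rk t) i j]
  unfold S4
  rw [E_eq ht (fam_ne hc hu hv _ _), E_eq ht (fam_ne hc hu hv _ _),
    E_eq ht (fam_ne hc hu hv _ _), E_eq ht (fam_ne hc hu hv _ _),
    fam_val hc hu hv ht htu htv, fam_val hc hu hv ht htu htv, fam_val hc hu hv ht htu htv,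
    fam_val hc hu hv ht htu htv]
  ring


lemma zz_six' : zz 6 = 2401 / 225 := by
  have h5 : (5 : ℤ) • P0 ≠ 0 := smul_P0_ne (by norm_num)
  have h1 : P0 ≠ 0 := by
    have := smul_P0_ne (n := 1) (by norm_num)
    rwa [one_zsmul] at this
  have e1 : ptX P0 = 5 := by
    have := zz_one
    unfold zz at this
    rwa [one_zsmul] at this
  have e5 : ptX ((5 : ℤ) • P0) = 5 / 121 := zz_five
  have e4 : ptX ((5 : ℤ) • P0 - P0) = 16 := by
    have := zz_four
    unfold zz at this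
    rw [← this]
    congr 1
    rw [show (5 : ℤ) = 4 + 1 by norm_num, add_zsmul, one_zsmul, add_sub_cancel_right]
  have e6 : zz 6 = ptX ((5 : ℤ) • P0 + P0) := by
    unfold zz
    congr 1
    rw [show (6 : ℤ) = 5 + 1 by norm_num, add_zsmul, one_zsmul]
  have := pt_prod h5 h1 (by rw [e5, e1]; norm_num)
  rw [← e6, e4, e5, e1] at this
  norm_num at this
  linarith

lemma rk_small {s : ℕ} (hs : s.Prime) (h : s ∣ 225) (h' : ¬ s ∣ 2401) : rk s ∣ 6 := by
  have h1 : padicValRat s (zz 6) < 0 := by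
    have := Fact.mk hs
    rw [zz_six', padicValRat.div (by norm_num) (by norm_num)]
    have e1 : padicValRat s (2401 : ℚ) = 0 := by
      have : padicValRat s ((2401 : ℕ) : ℚ) = 0 := by
        rw [padicValRat.of_nat, padicValNat.eq_zero_of_not_dvd h']
        rfl
      exact_mod_cast this
    have e2 : 1 ≤ padicValRat s (225 : ℚ) := by
      have : 1 ≤ padicValRat s ((225 : ℕ) : ℚ) := by
        rw [padicValRat.of_nat]
        exact_mod_cast one_le_padicValNat_of_dvd (by norm_num) h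
      exact_mod_cast this
    rw [e1]
    linarith
  have := (dvd_iff hs (by norm_num)).2 h1
  exact_mod_cast this

lemma rk_le' {s : ℕ} (hs : Inert s) {u : ℕ} (hu : 11 ≤ u) (h : u ∣ rk s) : rk s ≤ 2 * s + 1 := by
  by_cases h7 : 7 ≤ s
  · exact rk_le hs h7
  · exfalso
    have h2 := hs.2
    have h3 : s = 3 ∨ s = 5 := by omega
    have h6 : rk s ∣ 6 := by
      rcases h3 with rfl | rfl
      · exact rk_small (by norm_num) (by norm_num) (by norm_num)
      · exact rk_small (by norm_num) (by norm_num) (by norm_num)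
    have := Nat.le_of_dvd (by norm_num) (h.trans h6)
    omega

lemma S4_comm (f : ℕ → ZMod 2) (c u v i j : ℕ) : S4 f c u v i j = S4 f c v u j i := by
  unfold S4
  rw [mul_right_comm c (u ^ i) (v ^ j), mul_right_comm c (u ^ (i + 1)) (v ^ j),
    mul_right_comm c (u ^ i) (v ^ (j + 1)), mul_right_comm c (u ^ (i + 1)) (v ^ (j + 1))]
  ring

lemma S4_self {u v i j : ℕ} (hu : Inert u) (hv : Inert v) (huv : u ≠ v) (hu11 : 11 ≤ u)
    (hv11 : 11 ≤ v) (hiu : ¬ (v ∣ rk u ∧ rk u ∣ u ^ i * v ^ (j + 1))) :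
    S4 (E u) 1 u v i j = 0 := by
  have hu1 : ¬ u ∣ 1 := by
    intro h
    have := Nat.le_of_dvd one_pos h
    omega
  have hv1 : ¬ v ∣ 1 := by
    intro h
    have := Nat.le_of_dvd one_pos h
    omega
  have e2 : (1 : ZMod 2) + 1 = 0 := by decide
  have F := @fam_ne 1 u v one_ne_zero hu.1 hv.1
  have V := @fam_val_u 1 u v one_ne_zero hu.1 hv.1 huv hu1 hv1
  unfold S4
  rw [E_eq hu.1 (F _ _), E_eq hu.1 (F _ _), E_eq hu.1 (F _ _), E_eq hu.1 (F _ _), V, V, V, V]
  by_cases h : rk u ∣ 1 * u ^ (i + 1) * v ^ (j + 1)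
  · have h0 := (fam_dvd one_ne_zero hu.1 hv.1 huv hu1 hv1 h (a := i + 1) (b := j + 1)).1 h
    have hr0 : rk u ≠ 0 := by
      intro h1
      rw [h1, zero_dvd_iff] at h
      exact F _ _ h
    have hb : ¬ padicValNat v (rk u) = j + 1 := by
      intro hb
      have hv' : v ∣ rk u := by
        have := Fact.mk hv.1
        exact dvd_of_one_le_padicValNat (by omega)
      by_cases ha : padicValNat u (rk u) ≤ i
      · apply hiu
        refine ⟨hv', ?_⟩
        have := (fam_dvd one_ne_zero hu.1 hv.1 huv hu1 hv1 h (a := i) (b := j + 1)).2 ⟨ha, by omega⟩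
        simpa using this
      · have hu' : u ∣ rk u := by
          have := Fact.mk hu.1
          exact dvd_of_one_le_padicValNat (by omega)
        have h1 : u * v ∣ rk u :=
          Nat.Coprime.mul_dvd_of_dvd_of_dvd ((Nat.coprime_primes hu.1 hv.1).2 huv) hu' hv'
        have h2 := rk_le' hu hu11 hu'
        have h3 := Nat.le_of_dvd (Nat.pos_of_ne_zero hr0) h1
        nlinarith
    have hb' : padicValNat v (rk u) ≤ j := by omega
    have hb'' : padicValNat v (rk u) ≤ j + 1 := by omega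
    simp only [fam_dvd one_ne_zero hu.1 hv.1 huv hu1 hv1 h]
    have key : ∀ x y : ZMod 2, (x + y) * 1 + (x + (y + 1)) * 1 + (x + y) * 1 + (x + (y + 1)) * 1 = 0 := by
      decide
    have key2 : ∀ x y : ZMod 2, (x + y) * 0 + (x + (y + 1)) * 1 + (x + y) * 0 + (x + (y + 1)) * 1 = 0 := by
      decide
    by_cases ha : padicValNat u (rk u) ≤ i
    · have ha' : padicValNat u (rk u) ≤ i + 1 := by omega
      simp only [ha, ha', hb', hb'', and_self, if_true]
      push_cast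
      exact key _ _
    · have ha' : padicValNat u (rk u) ≤ i + 1 := by omega
      simp only [ha, ha', hb', hb'', and_self, if_true, false_and, if_false]
      push_cast
      exact key2 _ _
  · have hn : ∀ a ≤ i + 1, ∀ b ≤ j + 1, ¬ rk u ∣ 1 * u ^ a * v ^ b := by
      intro a ha b hb h'
      exact h (h'.trans (mul_dvd_mul (mul_dvd_mul_left 1 (pow_dvd_pow u ha)) (pow_dvd_pow v hb)))
    simp only [hn i (by omega) j (by omega), hn (i + 1) le_rfl j (by omega),
      hn i (by omega) (j + 1) le_rfl, h, if_false, mul_zero, add_zero]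

lemma pr_eq_E (N : ℕ) : pr (N : ℤ) = ∑ᶠ s : {s : ℕ // Inert s}, E s N := rfl

lemma supp_E {N : ℕ} (hN : N ≠ 0) :
    (Function.support (fun s : {s : ℕ // Inert s} => E s N)).Finite :=
  supp_dd (by exact_mod_cast hN)

lemma S4_pr {c u v i j : ℕ} (hc : c ≠ 0) (hu : u.Prime) (hv : v.Prime) :
    S4 (fun N => pr (N : ℤ)) c u v i j = ∑ᶠ s : {s : ℕ // Inert s}, S4 (E s) c u v i j := by
  have F := @fam_ne c u v hc hu hv
  unfold S4
  simp only [pr_eq_E]
  rw [finsum_add_distrib, finsum_add_distrib, finsum_add_distrib]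
  · exact supp_E (F _ _)
  · exact supp_E (F _ _)
  · exact ((supp_E (F _ _)).union (supp_E (F _ _))).subset (Function.support_add _ _)
  · exact supp_E (F _ _)
  · exact ((((supp_E (F _ _)).union (supp_E (F _ _))).subset (Function.support_add _ _)).union
      (supp_E (F _ _))).subset (Function.support_add _ _)
  · exact supp_E (F _ _)

lemma supp_S4 {c u v i j : ℕ} (hc : c ≠ 0) (hu : u.Prime) (hv : v.Prime) :
    (Function.support (fun s : {s : ℕ // Inert s} => S4 (E s) c u v i j)).Finite := by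
  have F := @fam_ne c u v hc hu hv
  unfold S4
  exact ((((((supp_E (F _ _)).union (supp_E (F _ _))).subset (Function.support_add _ _)).union
      (supp_E (F _ _))).subset (Function.support_add _ _)).union (supp_E (F _ _))).subset
        (Function.support_add _ _)


lemma S4_mulh (f : ℕ → ZMod 2) (c h u v i j : ℕ) :
    S4 f (c * h) u v i j = S4 (fun N => f (N * h)) c u v i j := by
  have : ∀ a b, c * h * u ^ a * v ^ b = c * u ^ a * v ^ b * h := by intros; ring
  unfold S4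
  simp only [this]

lemma dvd_of_val {p n k : ℕ} (hp : p.Prime) (h : padicValNat p n = k + 1) : p ∣ n := by
  have := Fact.mk hp
  exact dvd_of_one_le_padicValNat (by omega)

lemma ne_zero_of_val {p n k : ℕ} (h : padicValNat p n = k + 1) : n ≠ 0 := by
  rintro rfl
  simp at h

/-- bound which prevents a third prime from dividing a rank of apparition -/
lemma third {u v t s : ℕ} (hu : Inert u) (hv : Inert v) (huv : u ≠ v) (hu11 : 11 ≤ u)
    (hv11 : 11 ≤ v) (hs : Inert s) (ht : t.Prime) (htu : t ≠ u) (htv : t ≠ v) (hst : s ≤ t)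
    (h0 : rk s ≠ 0) (h1 : u ∣ rk s) (h2 : v ∣ rk s) : ¬ t ∣ rk s := by
  intro h3
  have h4 : u * v ∣ rk s :=
    Nat.Coprime.mul_dvd_of_dvd_of_dvd ((Nat.coprime_primes hu.1 hv.1).2 huv) h1 h2
  have h5 : u * v * t ∣ rk s :=
    Nat.Coprime.mul_dvd_of_dvd_of_dvd (Nat.Coprime.mul_left
      ((Nat.coprime_primes hu.1 ht).2 htu.symm) ((Nat.coprime_primes hv.1 ht).2 htv.symm)) h4 h3
  have h6 := Nat.le_of_dvd (Nat.pos_of_ne_zero h0) h5
  have h7 := rk_le' hs hu11 h1
  have h8 : 11 * 11 ≤ u * v := Nat.mul_le_mul hu11 hv11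
  have h9 : 11 * 11 * t ≤ u * v * t := Nat.mul_le_mul_right t h8
  have h10 := ht.two_le
  omega

lemma step1 {u v : ℕ} (hu : Inert u) (hv : Inert v) (huv : u ≠ v) (hu11 : 11 ≤ u) (hv11 : 11 ≤ v)
    {i j : ℕ}
    (hiu : ¬ (v ∣ rk u ∧ rk u ∣ u ^ i * v ^ (j + 1)))
    (hiv : ¬ (u ∣ rk v ∧ rk v ∣ v ^ j * u ^ (i + 1))) :
    ∃ t : ℕ, Inert t ∧ t ≠ u ∧ t ≠ v ∧ rk t ∣ u ^ (i + 1) * v ^ (j + 1) ∧ Odd (dd t (rk t)) ∧
      padicValNat u (rk t) = i + 1 ∧ padicValNat v (rk t) = j + 1 := by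
  have hu1 : ¬ u ∣ 1 := by
    intro h
    have := Nat.le_of_dvd one_pos h
    omega
  have hv1 : ¬ v ∣ 1 := by
    intro h
    have := Nat.le_of_dvd one_pos h
    omega
  have h1 : S4 (fun N => pr (N : ℤ)) 1 u v i j = 1 := by
    have hg : Odd ((u : ℤ) ^ i * (v : ℤ) ^ j) := (((inert_odd hu).pow)).mul ((inert_odd hv).pow)
    rw [← pr_four hg hu hv]
    unfold S4
    push_cast
    have e1 : (1 : ℤ) * u ^ i * v ^ j = u ^ i * v ^ j := by ring
    have e2 : (1 : ℤ) * u ^ (i + 1) * v ^ j = u ^ i * v ^ j * u := by ring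
    have e3 : (1 : ℤ) * u ^ i * v ^ (j + 1) = u ^ i * v ^ j * v := by ring
    have e4 : (1 : ℤ) * u ^ (i + 1) * v ^ (j + 1) = u ^ i * v ^ j * u * v := by ring
    rw [e1, e2, e3, e4]
    ring
  rw [S4_pr one_ne_zero hu.1 hv.1] at h1
  obtain ⟨t, ht⟩ : ∃ t : {s : ℕ // Inert s}, S4 (E t) 1 u v i j ≠ 0 := by
    by_contra hcon
    push Not at hcon
    rw [finsum_eq_zero_of_forall_eq_zero hcon] at h1
    exact absurd h1 (by decide)
  obtain ⟨t, hti⟩ := t
  simp only at ht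
  have htu : t ≠ u := by
    rintro rfl
    exact ht (S4_self hu hv huv hu11 hv11 hiu)
  have htv : t ≠ v := by
    rintro rfl
    rw [S4_comm] at ht
    exact ht (S4_self hv hu huv.symm hv11 hu11 hiv)
  rw [S4_E one_ne_zero hu.1 hv.1 huv hu1 hv1 hti.1 htu htv] at ht
  have h2 := left_ne_zero_of_mul ht
  have h3 := right_ne_zero_of_mul ht
  rw [ite_ne_right_iff] at h3
  obtain ⟨⟨h3, h4, h5⟩, -⟩ := h3
  refine ⟨t, hti, htu, htv, by simpa using h3, ?_, h4, h5⟩
  have h6 : ¬ t ∣ rk t := third hu hv huv hu11 hv11 hti hti.1 htu htv le_rfl (ne_zero_of_val h4)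
    (dvd_of_val hu.1 h4) (dvd_of_val hv.1 h5)
  rw [← ZMod.natCast_ne_zero_iff_odd]
  simpa [del, padicValNat.eq_zero_of_not_dvd h6] using h2

lemma step2 {u v : ℕ} (hu : Inert u) (hv : Inert v) (huv : u ≠ v) (hu11 : 11 ≤ u) (hv11 : 11 ≤ v)
    {i j : ℕ} {G : ℤ} (hG : Odd G) {h : ℕ} (hh : Inert h) (hhu : h ≠ u) (hhv : h ≠ v)
    (hhG : (h : ℤ) ∣ G) (hr : (rk h : ℤ) ∣ 8 * G)
    (hru : padicValNat u (rk h) = i + 1) (hrv : padicValNat v (rk h) = j + 1) :
    ∃ t : ℕ, Inert t ∧ h < t ∧ t ≠ u ∧ t ≠ v ∧ (rk t : ℤ) ∣ 8 * G ∧ Odd (dd t (rk t)) ∧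
      padicValNat u (rk t) = i + 1 ∧ padicValNat v (rk t) = j + 1 := by
  have hr0 : rk h ≠ 0 := ne_zero_of_val hru
  have hur : u ∣ rk h := dvd_of_val hu.1 hru
  have hvr : v ∣ rk h := dvd_of_val hv.1 hrv
  have hhr : ¬ h ∣ rk h := third hu hv huv hu11 hv11 hh hh.1 hhu hhv le_rfl hr0 hur hvr
  have hrle := rk_le' hh hu11 hur
  have huvr : u * v ≤ rk h := Nat.le_of_dvd (Nat.pos_of_ne_zero hr0)
    (Nat.Coprime.mul_dvd_of_dvd_of_dvd ((Nat.coprime_primes hu.1 hv.1).2 huv) hur hvr)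
  -- decomposition of rk h
  obtain ⟨e, r1, hr1, he⟩ := Nat.exists_eq_pow_mul_and_not_dvd hr0 2 (by norm_num)
  have hr1' : r1 ≠ 0 := by rintro rfl; simp at hr1
  obtain ⟨a, r2, hr2, ha⟩ := Nat.exists_eq_pow_mul_and_not_dvd hr1' u (by omega)
  have hr2' : r2 ≠ 0 := by rintro rfl; simp at hr2
  obtain ⟨b, k, hk, hb⟩ := Nat.exists_eq_pow_mul_and_not_dvd hr2' v (by omega)
  have hk0 : k ≠ 0 := by rintro rfl; simp at hk
  have h2k : ¬ 2 ∣ k := by
    intro h2
    exact hr1 (by rw [ha, hb]; exact dvd_mul_of_dvd_right (dvd_mul_of_dvd_right h2 _) _)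
  have huk : ¬ u ∣ k := by
    intro h2
    exact hr2 (by rw [hb]; exact dvd_mul_of_dvd_right h2 _)
  have hu8 : ¬ u ∣ 8 := by
    intro h2
    have := Nat.le_of_dvd (by norm_num) h2
    omega
  have hv8 : ¬ v ∣ 8 := by
    intro h2
    have := Nat.le_of_dvd (by norm_num) h2
    omega
  have hu2 : ¬ u ∣ 2 ^ e * k := by
    intro h2
    rcases (hu.1.dvd_mul).1 h2 with h2 | h2
    · have := Nat.le_of_dvd (by norm_num) (hu.1.dvd_of_dvd_pow h2)
      omega
    · exact huk h2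
  have hv2 : ¬ v ∣ 2 ^ e * k := by
    intro h2
    rcases (hv.1.dvd_mul).1 h2 with h2 | h2
    · have := Nat.le_of_dvd (by norm_num) (hv.1.dvd_of_dvd_pow h2)
      omega
    · exact hk h2
  have hrr : rk h = (2 ^ e * k) * u ^ a * v ^ b := by rw [he, ha, hb]; ring
  have h2ek : 2 ^ e * k ≠ 0 := mul_ne_zero (by positivity) hk0
  have ea : a = i + 1 := by
    rw [← hru, hrr, fam_val_u h2ek hu.1 hv.1 huv hu2 hv2]
  have eb : b = j + 1 := by
    rw [← hrv, hrr, fam_val_v h2ek hu.1 hv.1 huv hu2 hv2]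
  subst ea eb
  -- e ≤ 3
  have he3 : 2 ^ e ∣ 8 := by
    have h1 : ((2 ^ e : ℕ) : ℤ) ∣ 8 * G := by
      refine dvd_trans ?_ hr
      exact_mod_cast (by rw [he]; exact dvd_mul_right _ _ : 2 ^ e ∣ rk h)
    have h2 : IsCoprime ((2 ^ e : ℕ) : ℤ) G := by
      push_cast
      apply IsCoprime.pow_left
      obtain ⟨l, hl⟩ := hG
      exact ⟨-l, 1, by rw [hl]; ring⟩
    have h3 := h2.dvd_of_dvd_mul_right h1
    exact_mod_cast h3
  have hr1G : ((r1 * h : ℕ) : ℤ) ∣ G := by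
    have h1 : ((r1 : ℕ) : ℤ) ∣ 8 * G := by
      refine dvd_trans ?_ hr
      exact_mod_cast (by rw [he]; exact dvd_mul_left _ _ : r1 ∣ rk h)
    have h2 : IsCoprime ((r1 : ℕ) : ℤ) 8 := by
      rw [show (8 : ℤ) = ((8 : ℕ) : ℤ) by norm_num, Nat.isCoprime_iff_coprime]
      rw [show (8 : ℕ) = 2 ^ 3 by norm_num]
      exact Nat.Coprime.pow_right _ ((Nat.Prime.coprime_iff_not_dvd Nat.prime_two).2 hr1).symm
    have h3 := h2.dvd_of_dvd_mul_left h1
    have h4 : ¬ h ∣ r1 := by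
      intro h5
      exact hhr (by rw [he]; exact dvd_mul_of_dvd_right h5 _)
    have h5 : IsCoprime (r1 : ℤ) (h : ℤ) := by
      rw [Nat.isCoprime_iff_coprime]
      exact ((Nat.Prime.coprime_iff_not_dvd hh.1).2 h4).symm
    push_cast
    exact h5.mul_dvd h3 hhG
  -- the family
  obtain ⟨c, hc⟩ : ∃ c, c = 8 * k := ⟨_, rfl⟩
  have hc0 : c ≠ 0 := by omega
  have huc : ¬ u ∣ c := by
    intro h2
    rw [hc] at h2
    rcases (hu.1.dvd_mul).1 h2 with h2 | h2
    · exact hu8 h2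
    · exact huk h2
  have hvc : ¬ v ∣ c := by
    intro h2
    rw [hc] at h2
    rcases (hv.1.dvd_mul).1 h2 with h2 | h2
    · exact hv8 h2
    · exact hk h2
  have hch0 : c * h ≠ 0 := mul_ne_zero hc0 hh.1.ne_zero
  have huch : ¬ u ∣ c * h := by
    intro h2
    rcases (hu.1.dvd_mul).1 h2 with h2 | h2
    · exact huc h2
    · exact hhu ((Nat.prime_dvd_prime_iff_eq hu.1 hh.1).1 h2).symm
  have hvch : ¬ v ∣ c * h := by
    intro h2
    rcases (hv.1.dvd_mul).1 h2 with h2 | h2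
    · exact hvc h2
    · exact hhv ((Nat.prime_dvd_prime_iff_eq hv.1 hh.1).1 h2).symm
  have hrc : rk h ∣ c * u ^ (i + 1) * v ^ (j + 1) := by
    rw [hrr, hc]
    exact mul_dvd_mul_right (mul_dvd_mul_right (mul_dvd_mul_right he3 _) _) _
  have hcG : ((c * u ^ (i + 1) * v ^ (j + 1) * h : ℕ) : ℤ) ∣ 8 * G := by
    have : c * u ^ (i + 1) * v ^ (j + 1) * h = 8 * (r1 * h) := by rw [hc, ha, hb]; ring
    rw [this]
    push_cast
    push_cast at hr1G
    exact mul_dvd_mul_left 8 hr1G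
  have F := @fam_ne c u v hc0 hu.1 hv.1
  have e2 : (1 : ZMod 2) + 1 = 0 := by decide
  -- the sum
  have hsum : (∑ᶠ s : {s : ℕ // Inert s}, (S4 (E s) c u v i j + S4 (E s) (c * h) u v i j)) = 0 := by
    rw [finsum_add_distrib (supp_S4 hc0 hu.1 hv.1) (supp_S4 hch0 hu.1 hv.1),
      ← S4_pr hc0 hu.1 hv.1, ← S4_pr hch0 hu.1 hv.1, S4_mulh, ← S4_add]
    have key : ∀ a' b', pr ((c * u ^ a' * v ^ b' : ℕ) : ℤ) +
        pr ((c * u ^ a' * v ^ b' * h : ℕ) : ℤ) = 1 := by
      intro a' b'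
      have h1 : ((c * u ^ a' * v ^ b' * h : ℕ) : ℤ) = ((c * u ^ a' * v ^ b' : ℕ) : ℤ) * (h : ℤ) := by
        push_cast; ring
      rw [h1, pr_mul (by exact_mod_cast F a' b') ?_ (inert_odd hh)]
      · have h3 : (h : ℤ) % 8 = 3 ∨ (h : ℤ) % 8 = 5 := by
          have := hh.2
          omega
        rw [if_pos h3, ← add_assoc]
        have : ∀ x : ZMod 2, x + x + 1 = 1 := by decide
        exact this _
      · have : 8 ∣ c * u ^ a' * v ^ b' := by
          rw [hc, mul_assoc, mul_assoc]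
          exact dvd_mul_right _ _
        exact_mod_cast this
    unfold S4
    simp only [key]
    decide
  -- contribution of h
  have hfh : S4 (E h) c u v i j + S4 (E h) (c * h) u v i j = 1 := by
    rw [S4_mulh, ← S4_add]
    have key : ∀ a' b', E h (c * u ^ a' * v ^ b') + E h (c * u ^ a' * v ^ b' * h) =
        if rk h ∣ c * u ^ a' * v ^ b' then 1 else 0 := by
      intro a' b'
      rw [E_eq hh.1 (F a' b'), E_eq hh.1 (mul_ne_zero (F a' b') hh.1.ne_zero)]
      have h1 : rk h ∣ c * u ^ a' * v ^ b' * h ↔ rk h ∣ c * u ^ a' * v ^ b' := by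
        have : (rk h).Coprime h := ((Nat.Prime.coprime_iff_not_dvd hh.1).2 hhr).symm
        exact ⟨fun h3 => this.dvd_of_dvd_mul_right h3, fun h3 => h3.mul_right h⟩
      have h2 : padicValNat h (c * u ^ a' * v ^ b' * h) =
          padicValNat h (c * u ^ a' * v ^ b') + 1 := by
        have := Fact.mk hh.1
        rw [padicValNat.mul (F a' b') hh.1.ne_zero, padicValNat_self]
      simp only [h1, h2]
      by_cases h3 : rk h ∣ c * u ^ a' * v ^ b'
      · simp only [h3, if_true]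
        push_cast
        have : ∀ x y : ZMod 2, (x + y) * 1 + (x + (y + 1)) * 1 = 1 := by decide
        exact this _ _
      · simp [h3]
    have h1 := count hc0 hu.1 hv.1 huv huc hvc (rk h) i j
    rw [if_pos ⟨hrc, hru, hrv⟩] at h1
    rw [← h1]
    unfold S4
    simp only [key]
  obtain ⟨t, hti, hth, hft⟩ : ∃ t : ℕ, Inert t ∧ t ≠ h ∧
      S4 (E t) c u v i j + S4 (E t) (c * h) u v i j ≠ 0 := by
    by_contra hcon
    push Not at hcon
    have h1 := finsum_eq_single (fun s : {s : ℕ // Inert s} =>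
      S4 (E s) c u v i j + S4 (E s) (c * h) u v i j) ⟨h, hh⟩ (fun x hx => hcon x.1 x.2 (by
        intro h2
        exact hx (Subtype.ext h2)))
    rw [hsum] at h1
    simp only [hfh] at h1
    exact absurd h1 (by decide)
  have hht : rk t ≠ 0 ∧ h ∣ rk t := by
    by_contra hcon
    apply hft
    have h1 : rk t = 0 ∨ ¬ h ∣ rk t := by tauto
    have h2 : ∀ a' b', E t (c * u ^ a' * v ^ b' * h) = E t (c * u ^ a' * v ^ b') :=
      fun a' b' => E_mul_coprime hti.1 (F a' b') hh.1 hth h1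
    rw [S4_mulh, ← S4_add]
    unfold S4
    simp only [h2]
    have : ∀ x : ZMod 2, x + x = 0 := by decide
    simp only [this]
    try rfl
  obtain ⟨ht0, hht⟩ := hht
  have hhle := Nat.le_of_dvd (Nat.pos_of_ne_zero ht0) hht
  have htu : t ≠ u := by
    rintro rfl
    have := rk_le hu (by omega)
    nlinarith
  have htv : t ≠ v := by
    rintro rfl
    have := rk_le hv (by omega)
    nlinarith
  have hvt : padicValNat t (c * h) = padicValNat t c := by
    have := Fact.mk hti.1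
    rw [padicValNat.mul hc0 hh.1.ne_zero]
    have : ¬ t ∣ h := by
      intro h2
      exact hth ((Nat.prime_dvd_prime_iff_eq hti.1 hh.1).1 h2)
    simp [padicValNat.eq_zero_of_not_dvd this]
  rw [S4_E hc0 hu.1 hv.1 huv huc hvc hti.1 htu htv, S4_E hch0 hu.1 hv.1 huv huch hvch hti.1 htu htv,
    hvt, ← mul_add] at hft
  have h2 := left_ne_zero_of_mul hft
  have h3 := right_ne_zero_of_mul hft
  have hP : rk t ∣ c * h * u ^ (i + 1) * v ^ (j + 1) ∧ padicValNat u (rk t) = i + 1 ∧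
        padicValNat v (rk t) = j + 1 := by
    by_contra hcon
    have hcon2 : ¬ (rk t ∣ c * u ^ (i + 1) * v ^ (j + 1) ∧ padicValNat u (rk t) = i + 1 ∧
        padicValNat v (rk t) = j + 1) := by
      rintro ⟨h4, h5, h6⟩
      refine hcon ⟨?_, h5, h6⟩
      refine h4.trans ?_
      rw [show c * h * u ^ (i + 1) * v ^ (j + 1) = c * u ^ (i + 1) * v ^ (j + 1) * h by ring]
      exact dvd_mul_right _ _
    rw [if_neg hcon, if_neg hcon2] at h3
    exact h3 rfl
  obtain ⟨hP1, hP2, hP3⟩ := hP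
  have hut := dvd_of_val hu.1 hP2
  have hvt' := dvd_of_val hv.1 hP3
  have htle := rk_le' hti hu11 hut
  have hlt : h < t := by
    have h4 : u * h ∣ rk t :=
      Nat.Coprime.mul_dvd_of_dvd_of_dvd ((Nat.coprime_primes hu.1 hh.1).2 hhu.symm) hut hht
    have h5 := Nat.le_of_dvd (Nat.pos_of_ne_zero ht0) h4
    have h6 : 11 * h ≤ u * h := Nat.mul_le_mul_right h hu11
    have := hh.1.two_le
    omega
  have htr : ¬ t ∣ rk t := third hu hv huv hu11 hv11 hti hti.1 htu htv le_rfl ht0 hut hvt'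
  have htc : ¬ t ∣ c := by
    intro h4
    rw [hc] at h4
    rcases (hti.1.dvd_mul).1 h4 with h5 | h5
    · have h6 := (hti.1.dvd_of_dvd_pow (show t ∣ 2 ^ 3 from h5))
      have h7 := Nat.le_of_dvd (by norm_num) h6
      have h8 := hti.2
      omega
    · exact third hu hv huv hu11 hv11 hh hti.1 htu htv hlt.le hr0 hur hvr
        (by rw [he, ha, hb]; exact dvd_mul_of_dvd_right (dvd_mul_of_dvd_right
          (dvd_mul_of_dvd_right h5 _) _) _)
  refine ⟨t, hti, hlt, htu, htv, ?_, ?_, hP2, hP3⟩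
  · refine dvd_trans ?_ hcG
    rw [show c * u ^ (i + 1) * v ^ (j + 1) * h = c * h * u ^ (i + 1) * v ^ (j + 1) by ring]
    exact_mod_cast hP1
  · rw [← ZMod.natCast_ne_zero_iff_odd]
    simpa [del, padicValNat.eq_zero_of_not_dvd htr, padicValNat.eq_zero_of_not_dvd htc] using h2

/-- existence of a visible prime above two given inert primes -/
theorem core_aux {u v : ℕ} (hu : Inert u) (hv : Inert v) (huv : u ≠ v) (hu11 : 11 ≤ u) (hv11 : 11 ≤ v)
    {i j : ℕ} {G : ℤ} (hG : Odd G) (h : ((u ^ (i + 1) * v ^ (j + 1) : ℕ) : ℤ) ∣ G)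
    (hiu : ¬ (v ∣ rk u ∧ rk u ∣ u ^ i * v ^ (j + 1)))
    (hiv : ¬ (u ∣ rk v ∧ rk v ∣ v ^ j * u ^ (i + 1))) :
    ∃ t : ℕ, Inert t ∧ rk t ≠ 0 ∧ (rk t : ℤ) ∣ 8 * G ∧ Odd (dd t (8 * G)) ∧
      padicValNat u (rk t) = i + 1 ∧ padicValNat v (rk t) = j + 1 := by
  have hG0 : G ≠ 0 := by
    rintro rfl
    simp at hG
  have h8G : 8 * G ≠ 0 := by omega
  -- good primes
  have fin : ∀ t : ℕ, Inert t → t ≠ u → t ≠ v → (rk t : ℤ) ∣ 8 * G → Odd (dd t (rk t)) →
      padicValNat u (rk t) = i + 1 → padicValNat v (rk t) = j + 1 → Even (padicValInt t G) →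
      ∃ t : ℕ, Inert t ∧ rk t ≠ 0 ∧ (rk t : ℤ) ∣ 8 * G ∧ Odd (dd t (8 * G)) ∧
      padicValNat u (rk t) = i + 1 ∧ padicValNat v (rk t) = j + 1 := by
    intro t ht htu htv h1 h2 h3 h4 h5
    have h0 : rk t ≠ 0 := ne_zero_of_val h3
    refine ⟨t, ht, h0, h1, ?_, h3, h4⟩
    have h6 := dd_eq ht.1 h8G h1
    have h7 : ¬ t ∣ rk t := third hu hv huv hu11 hv11 ht ht.1 htu htv le_rfl h0
      (dvd_of_val hu.1 h3) (dvd_of_val hv.1 h4)
    have := Fact.mk ht.1
    have h8 : padicValInt t (8 * G) = padicValInt t G := by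
      rw [padicValInt.mul (by norm_num) hG0]
      have : padicValInt t 8 = 0 := by
        have h9 : ¬ t ∣ 8 := by
          intro h5
          have h6 := (ht.1.dvd_of_dvd_pow (show t ∣ 2 ^ 3 from h5))
          have h7 := Nat.le_of_dvd (by norm_num) h6
          have h8 := ht.2
          omega
        have h10 : padicValInt t ((8 : ℕ) : ℤ) = 0 := by
          rw [padicValInt.of_nat, padicValNat.eq_zero_of_not_dvd h9]
        exact_mod_cast h10
      rw [this, zero_add]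
    rw [padicValNat.eq_zero_of_not_dvd h7, add_zero, h8] at h6
    rw [h6]
    exact h2.add_even h5
  let H : Set ℕ := {t | Inert t ∧ t ≠ u ∧ t ≠ v ∧ (rk t : ℤ) ∣ 8 * G ∧ Odd (dd t (rk t)) ∧
      padicValNat u (rk t) = i + 1 ∧ padicValNat v (rk t) = j + 1 ∧ Odd (padicValInt t G)}
  obtain ⟨t, ht1, ht2, ht3, ht4, ht5, ht6, ht7⟩ := step1 hu hv huv hu11 hv11 hiu hiv
  have ht8 : (rk t : ℤ) ∣ 8 * G :=
    (show (rk t : ℤ) ∣ ((u ^ (i + 1) * v ^ (j + 1) : ℕ) : ℤ) by exact_mod_cast ht4).trans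
      (h.trans (dvd_mul_left _ _))
  by_cases hev : Even (padicValInt t G)
  · exact fin t ht1 ht2 ht3 ht8 ht5 ht6 ht7 hev
  have hHne : H.Nonempty := ⟨t, ht1, ht2, ht3, ht8, ht5, ht6, ht7, Nat.not_even_iff_odd.1 hev⟩
  have hHdvd : ∀ s ∈ H, s ∣ G.natAbs := by
    intro s hs
    have h1 : Odd (padicValInt s G) := hs.2.2.2.2.2.2.2
    have h2 : padicValNat s G.natAbs ≠ 0 := by
      intro h3
      have : padicValInt s G = 0 := h3
      rw [this] at h1
      simp at h1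
    exact dvd_of_one_le_padicValNat (Nat.one_le_iff_ne_zero.2 h2)
  have hHfin : H.Finite := by
    refine (Set.finite_Iic G.natAbs).subset ?_
    intro s hs
    exact Nat.le_of_dvd (Int.natAbs_pos.2 hG0) (hHdvd s hs)
  obtain ⟨m, hmH, hmax⟩ := Set.exists_max_image H id hHfin hHne
  obtain ⟨m1, m2, m3, m4, m5, m6, m7, m8⟩ := hmH
  have hmG : (m : ℤ) ∣ G := by
    rw [Int.natCast_dvd]
    exact hHdvd m ⟨m1, m2, m3, m4, m5, m6, m7, m8⟩
  obtain ⟨s, s1, s2, s3, s4, s5, s6, s7, s8⟩ :=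
    step2 hu hv huv hu11 hv11 hG m1 m2 m3 hmG m4 m6 m7
  by_cases hev : Even (padicValInt s G)
  · exact fin s s1 s3 s4 s5 s6 s7 s8 hev
  · have := hmax s ⟨s1, s3, s4, s5, s6, s7, s8, Nat.not_even_iff_odd.1 hev⟩
    simp only [id] at this
    omega

end CoreAux

/-- existence of a visible prime above two given inert primes -/
theorem core {u v : ℕ} (hu : Inert u) (hv : Inert v) (huv : u ≠ v) (hu11 : 11 ≤ u) (hv11 : 11 ≤ v)
    {i j : ℕ} {G : ℤ} (hG : Odd G) (h : ((u ^ (i + 1) * v ^ (j + 1) : ℕ) : ℤ) ∣ G)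
    (hiu : ¬ (v ∣ rk u ∧ rk u ∣ u ^ i * v ^ (j + 1)))
    (hiv : ¬ (u ∣ rk v ∧ rk v ∣ v ^ j * u ^ (i + 1))) :
    ∃ t : ℕ, Inert t ∧ rk t ≠ 0 ∧ (rk t : ℤ) ∣ 8 * G ∧ Odd (dd t (8 * G)) ∧
      padicValNat u (rk t) = i + 1 ∧ padicValNat v (rk t) = j + 1 :=
  CoreAux.core_aux hu hv huv hu11 hv11 hG h hiu hiv

end Pool.Agent.H528R2
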