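import Mathlib

/-!
# Shared definitions for the project the existential theory of `ℚ` is NEXP-hard

* `Inert q` : prime `q ≡ 3, 5 (mod 8)`, i.e. inert in `ℚ(√2)`;
* `IsN x` : `x` is a nonzero norm from `ℚ(√2)`;
* `Test N F` : an existential formula which says `v_q(F) ≥ 1` for all inert `q` with `v_q(N)` odd;
* `W` : the elliptic curve `Y² = Z³ - 2 Z² + 65 Z` (65a2), `P0 = (5, 20)`,
  `zz n`, `yy n` : the coordinates of `n • P0`;
* `dd s n` : `- v_s(zz n) / 2` (when positive), `rk s` : rank of apparition of `s`;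
* `pr n` : the parity of `∑_{s inert} dd s n`.
-/

namespace Pool.Agent.H528R2

/-- primes inert in `ℚ(√2)` -/
def Inert (q : ℕ) : Prop := q.Prime ∧ (q % 8 = 3 ∨ q % 8 = 5)

/-- nonzero norms from `ℚ(√2)` -/
def IsN (x : ℚ) : Prop := x ≠ 0 ∧ ∃ c e : ℚ, x = c ^ 2 - 2 * e ^ 2

def T (N F : ℚ) : Prop := ∃ w : ℚ, IsN (N * (N + F ^ 2 - 2 * w ^ 2))

def Test (N F : ℚ) : Prop :=
  ∃ ν e : ℚ, IsN ν ∧ T (1 / (N * ν)) 1 ∧ T (N * ν) (32 * (e - 1)) ∧ T (N * ν) (32 * e * F)

/-- `v_q(x) ≥ k`, with `v_q(0) = ∞` -/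
def Vge (q : ℕ) (k : ℤ) (x : ℚ) : Prop := x = 0 ∨ k ≤ padicValRat q x

/-! ### the curve -/

/-- `Y² = Z³ - 2 Z² + 65 Z` -/
def W : WeierstrassCurve ℚ := ⟨0, -2, 0, 65, 0⟩

abbrev Pt : Type := W.toAffine.Point

lemma P0_ns : W.toAffine.Nonsingular 5 20 := by
  rw [WeierstrassCurve.Affine.nonsingular_iff, WeierstrassCurve.Affine.equation_iff]
  simp only [W]
  norm_num

/-- the generator `(5, 20)` -/
def P0 : Pt := .some 5 20 P0_ns

/-- first coordinate (`0` for the point at infinity) -/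
def ptX : Pt → ℚ
  | .zero => 0
  | .some x _ _ => x

/-- second coordinate (`0` for the point at infinity) -/
def ptY : Pt → ℚ
  | .zero => 0
  | .some _ y _ => y

noncomputable def zz (n : ℤ) : ℚ := ptX (n • P0)
noncomputable def yy (n : ℤ) : ℚ := ptY (n • P0)

/-- half the order of the pole of `zz n` at `s` (`0` if there is no pole) -/
noncomputable def dd (s : ℕ) (n : ℤ) : ℕ := (- padicValRat s (zz n) / 2).toNat

/-- rank of apparition: the least `n ≥ 1` such that `s` divides the denominator of `zz n`,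
and `0` if there is none -/
noncomputable def rk (s : ℕ) : ℕ := sInf {n : ℕ | 0 < n ∧ padicValRat s (zz n) < 0}

/-- parity of the number of inert primes (with multiplicity `dd`) of the denominator of `n • P0` -/
noncomputable def pr (n : ℤ) : ZMod 2 := ∑ᶠ s : {s : ℕ // Inert s}, ((dd s n : ℕ) : ZMod 2)

/-! ### the outputs attached to an array (a rational point `n • P0` seen relative to `M • P0`) -/

/-- the six rational numbers attached to an array -/
structure Arr where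
  a0 : ℚ
  a1 : ℚ
  w0 : ℚ
  w1 : ℚ
  q0 : ℚ
  q1 : ℚ

/-- `q0` or `q1` -/
def Arr.q (A : Arr) (b : Bool) : ℚ := if b then A.q1 else A.q0

/-- `w0` or `w1` -/
def Arr.w (A : Arr) (b : Bool) : ℚ := if b then A.w1 else A.w0

/-- the outputs of the array of index `n` relative to the base index `M` -/
noncomputable def arrOf (M n : ℤ) : Arr where
  a0 := zz (8 * n) / yy (8 * n)
  a1 := zz (8 * (n - M)) / yy (8 * (n - M))
  w0 := 1 / zz (8 * n)
  w1 := 1 / zz (8 * (n - M))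
  q0 := zz (8 * M) / zz (8 * n)
  q1 := zz (8 * M) / zz (8 * (n - M))

/-- parity conditions: `0` none, `1` odd, `2` even -/
def Par (p : ℕ) (n : ℤ) : Prop := (p = 1 → Odd n) ∧ (p = 2 → Even n)

/-- `A` is an array relative to the base point `(z, y)`, with parity condition `p` -/
def ArrRel (p : ℕ) (z y : ℚ) (A : Arr) : Prop :=
  ∃ M n : ℤ, M ≠ 0 ∧ n ≠ 0 ∧ n ≠ M ∧ n ≠ 2 * M ∧ Par p n ∧
    z = zz M ∧ y = yy M ∧ A = arrOf M n

/-- `(z, y)` is an odd multiple of `P0` and `w = 1 / Z(8 •)` -/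
def BaseRel (z y w : ℚ) : Prop :=
  ∃ M : ℤ, Odd M ∧ z = zz M ∧ y = yy M ∧ w = 1 / zz (8 * M)

/-- `x² / (x² - 2)`: integral at all inert primes, divisible by `q` iff `x` is -/
def nrm (x : ℚ) : ℚ := x ^ 2 / (x ^ 2 - 2)

/-- the exemption factor -/
def hst (N w w' : ℚ) : ℚ :=
  let N' := N / (N ^ 2 - 2)
  let ζ := 1 / (((1 / w) ^ 2 - 2) * ((1 / w') ^ 2 - 2))
  N' ^ 2 / (N' ^ 2 - 2 * ζ ^ 2)

/-- `Test`, vacuous for `N = 0` -/
def NT (N F : ℚ) : Prop := N = 0 ∨ Test N F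

def Nval (c : ℕ) (ps : List (Arr × Arr)) : ℚ :=
  ps.foldr (fun p acc => p.1.a0 * p.2.a1 + c * acc) 0

def Hval (N : ℚ) (ps : List (Arr × Arr)) : ℚ :=
  (ps.map (fun p => hst N p.1.w0 p.2.w1)).prod

def Cval (cl : List ℚ) : ℚ := (cl.map nrm).prod

/-- all the tests made at the primes seen by the family `ps` -/
def ObsR (ps : List (Arr × Arr)) (cls : List (List ℚ)) : Prop :=
  ∀ c ∈ List.range ps.length, ∀ cl ∈ cls,
    NT (Nval (c + 1) ps) (319 * Hval (Nval (c + 1) ps) ps * Cval cl)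

/-! ### DQBF -/

/-- instances of DQBF: `(U, deps, cls)`: `U.length` universal variables, `deps.length` existential
variables, `deps` says on which universal variables they may depend, `cls` is a CNF whose
literals are `(isExistential, sign, index)` -/
abbrev DInst : Type := List Unit × List (List Bool) × List (List (Bool × Bool × ℕ))

def DInst.m (I : DInst) : ℕ := I.1.length
def DInst.K (I : DInst) : ℕ := I.2.1.length
def DInst.dep (I : DInst) (k j : ℕ) : Bool := (I.2.1.getD k []).getD j false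

/-- literals whose index is out of range are false -/
def DInst.litTrue (I : DInst) (a : ℕ → Bool) (B : ℕ → (ℕ → Bool) → Bool)
    (l : Bool × Bool × ℕ) : Prop :=
  if l.1 then l.2.2 < I.K ∧ B l.2.2 a = l.2.1 else l.2.2 < I.m ∧ a l.2.2 = l.2.1

def DQSat (I : DInst) : Prop :=
  ∃ B : ℕ → (ℕ → Bool) → Bool,
    (∀ k < I.K, ∀ a a' : ℕ → Bool, (∀ j < I.m, I.dep k j = true → a j = a' j) →
      B k a = B k a') ∧
    ∀ a : ℕ → Bool, ∀ cl ∈ I.2.2, ∃ l ∈ cl, I.litTrue a B l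

/-! ### the system over `ℚ` attached to an instance of DQBF -/

/-- the unknowns of the system -/
structure Sol where
  z : ℕ → ℚ
  y : ℕ → ℚ
  w : ℕ → ℚ
  A : ℕ → ℕ → Bool → Arr
  D : ℕ → Bool → Arr
  B : ℕ → Arr
  Ds : Arr

def Sol.pairs (S : Sol) (i : ℕ) : List (Arr × Arr) :=
  (List.range i).map (fun l => (S.A i l false, S.A i l true)) ++ [(S.D i false, S.D i true)]

/-- the atom attached to a literal -/
def Sol.atom (S : Sol) (I : DInst) (l : Bool × Bool × ℕ) : ℚ :=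
  if l.1 then (if l.2.2 < I.K then (S.B l.2.2).q l.2.1 else 1)
  else (if l.2.2 < I.m then (S.A (I.m + 1) l.2.2 false).q l.2.1 else 1)

/-- clauses tested in the step from level `i` to level `i + 1` -/
def Sol.stepCls (S : Sol) (i : ℕ) : List (List ℚ) :=
  [[S.w (i + 1)], [(S.D (i + 1) false).q0], [(S.D (i + 1) true).q1]] ++
  (List.range (i + 1)).flatMap (fun l =>
    let p := (S.pairs i).getD l default_pair
    [p.1.w0, (S.A (i + 1) l false).q0, (S.A (i + 1) l true).q0].flatMap (fun x =>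
      [p.2.w1, (S.A (i + 1) l false).q1, (S.A (i + 1) l true).q1].map (fun y => [x, y])))
where
  default_pair : Arr × Arr := (⟨0, 0, 0, 0, 0, 0⟩, ⟨0, 0, 0, 0, 0, 0⟩)

/-- the additional clauses tested in the last step -/
def Sol.lastCls (S : Sol) (I : DInst) : List (List ℚ) :=
  [S.Ds.q0] :: (List.range I.K).map (fun k => [(S.B k).q0, (S.B k).q1]) ++
    I.2.2.map (fun cl => cl.map (S.atom I))

/-- the family used to test that an array does not depend on the coordinate `j` -/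
def Sol.indPairs (S : Sol) (I : DInst) (j : ℕ) : List (Arr × Arr) :=
  ((List.range (I.m + 1)).filter (fun l => l ≠ j)).map
    (fun l => (S.A (I.m + 1) l false, S.A (I.m + 1) l true)) ++ [(S.Ds, S.Ds)]

def RSat (I : DInst) : Prop :=
  ∃ S : Sol,
    -- base points and arrays of all levels
    (∀ i ≤ I.m + 1, BaseRel (S.z i) (S.y i) (S.w i)) ∧
    (∀ i ≤ I.m + 1, ∀ l < i, ∀ b, ArrRel 0 (S.z i) (S.y i) (S.A i l b)) ∧
    (∀ i ≤ I.m + 1, ArrRel 1 (S.z i) (S.y i) (S.D i false) ∧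
      ArrRel 2 (S.z i) (S.y i) (S.D i true)) ∧
    (∀ k < I.K, ArrRel 0 (S.z (I.m + 1)) (S.y (I.m + 1)) (S.B k)) ∧
    ArrRel 1 (S.z (I.m + 1)) (S.y (I.m + 1)) S.Ds ∧
    -- tests at the explicit primes
    (∀ i ≤ I.m + 1, ∀ pe ∈ [((11 : ℕ), false), ((29 : ℕ), true)],
      NT pe.1 (S.w i) ∧ (∀ l < i, ∀ b, NT pe.1 ((S.A i l b).q b)) ∧
      ∀ b, NT pe.1 ((S.D i b).q pe.2)) ∧
    (NT 1931 (S.w 0) ∧ ∀ b, NT 1931 ((S.D 0 b).q b)) ∧
    -- the steps
    (∀ i < I.m, ObsR (S.pairs i) (S.stepCls i)) ∧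
    ObsR (S.pairs I.m) (S.stepCls I.m ++ S.lastCls I) ∧
    -- independence
    (∀ k < I.K, ∀ j < I.m, I.dep k j = false →
      ObsR (S.indPairs I j) [[(S.B k).w0, (S.B k).w1, S.Ds.w1]])

end Pool.Agent.H528R2
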