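import Pool.Agent.H528R2.Defs

/-!
Auxiliary lemmas for `Diff.lean`: valuations of sums, and the valuation of the two slopes.
-/

namespace Pool.Agent.H528R2

namespace DB

set_option linter.unusedSectionVars false

variable {s : ℕ} [hs : Fact s.Prime]

lemma gv_zero (k : ℤ) : Vge s k 0 := Or.inl rfl

lemma gv_mono {k l : ℤ} (h : l ≤ k) {x : ℚ} (hx : Vge s k x) : Vge s l x := by
  rcases hx with hx | hx
  · exact Or.inl hx
  · exact Or.inr (h.trans hx)

lemma gv_neg {k : ℤ} {x : ℚ} (hx : Vge s k x) : Vge s k (-x) := by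
  rcases hx with hx | hx
  · exact Or.inl (by rw [hx, neg_zero])
  · exact Or.inr (by rwa [padicValRat.neg])

lemma gv_add {k : ℤ} {x y : ℚ} (hx : Vge s k x) (hy : Vge s k y) : Vge s k (x + y) := by
  by_cases h : x + y = 0
  · exact Or.inl h
  rcases hx with hx | hx
  · subst hx; simpa using hy
  rcases hy with hy | hy
  · subst hy; rw [add_zero] ; exact Or.inr hx
  exact Or.inr ((le_min hx hy).trans (padicValRat.min_le_padicValRat_add h))

lemma gv_sub {k : ℤ} {x y : ℚ} (hx : Vge s k x) (hy : Vge s k y) : Vge s k (x - y) := by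
  rw [sub_eq_add_neg]; exact gv_add hx (gv_neg hy)

lemma gv_mul {k l : ℤ} {x y : ℚ} (hx : Vge s k x) (hy : Vge s l y) : Vge s (k + l) (x * y) := by
  rcases hx with hx | hx
  · subst hx; exact Or.inl (zero_mul _)
  rcases hy with hy | hy
  · subst hy; exact Or.inl (mul_zero _)
  by_cases h1 : x = 0
  · subst h1; exact Or.inl (zero_mul _)
  by_cases h2 : y = 0
  · subst h2; exact Or.inl (mul_zero _)
  refine Or.inr ?_
  rw [padicValRat.mul h1 h2]; omega

lemma gv_int (n : ℤ) : Vge s 0 (n : ℚ) := by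
  refine Or.inr ?_
  rw [padicValRat.of_int]; positivity

lemma gv_nat (n : ℕ) : Vge s 0 (n : ℚ) := by
  have := gv_int (s := s) (n : ℤ)
  simpa using this

lemma gv_ofNat (n : ℕ) [n.AtLeastTwo] : Vge s 0 (OfNat.ofNat n : ℚ) := by
  have := gv_nat (s := s) (OfNat.ofNat n)
  rwa [Nat.cast_ofNat] at this

/-- the maximal ideal and integers -/
lemma gv_one_int_iff {n : ℤ} : Vge s 1 (n : ℚ) ↔ (s : ℤ) ∣ n := by
  constructor
  · intro h
    rcases h with h | h
    · have : n = 0 := by exact_mod_cast h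
      rw [this]; exact dvd_zero _
    · rw [padicValRat.of_int] at h
      have h' : padicValInt s n ≠ 0 := by omega
      by_contra hc
      exact h' (padicValInt.eq_zero_of_not_dvd hc)
  · intro h
    by_cases hn : n = 0
    · subst hn; exact Or.inl (by simp)
    refine Or.inr ?_
    rw [padicValRat.of_int]
    have h' : padicValInt s n ≠ 0 := by
      intro h0
      rcases padicValInt.eq_zero_iff.1 h0 with h1 | h1 | h1
      · exact hs.out.one_lt.ne' h1
      · exact hn h1
      · exact h1 h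
    omega

lemma gval_of {x : ℚ} (h0 : Vge s 0 x) (h1 : ¬ Vge s 1 x) : x ≠ 0 ∧ padicValRat s x = 0 := by
  have hx : x ≠ 0 := fun h => h1 (Or.inl h)
  refine ⟨hx, ?_⟩
  have a : 0 ≤ padicValRat s x := h0.resolve_left hx
  have b : ¬ (1 ≤ padicValRat s x) := fun h => h1 (Or.inr h)
  omega

lemma gnot_of {x : ℚ} {k : ℤ} (hx : x ≠ 0) (h : padicValRat s x < k) : ¬ Vge s k x := by
  rintro (h' | h')
  · exact hx h'
  · omega

lemma gv_prime {x y : ℚ} (hx : Vge s 0 x) (hy : Vge s 0 y) (h : Vge s 1 (x * y)) :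
    Vge s 1 x ∨ Vge s 1 y := by
  by_contra hc
  push Not at hc
  obtain ⟨hx1, hx2⟩ := gval_of hx hc.1
  obtain ⟨hy1, hy2⟩ := gval_of hy hc.2
  rcases h with h | h
  · exact (mul_ne_zero hx1 hy1) h
  · rw [padicValRat.mul hx1 hy1] at h; omega

lemma gv_of_sq {x : ℚ} {k : ℤ} (h : Vge s (2 * k) (x ^ 2)) : Vge s k x := by
  rcases h with h | h
  · exact Or.inl (by simpa using h)
  · rw [padicValRat.pow] at h
    refine Or.inr ?_
    push_cast at h
    omega

lemma gv_sq {x : ℚ} {k : ℤ} (h : Vge s k x) : Vge s (2 * k) (x ^ 2) := by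
  rw [pow_two, two_mul]; exact gv_mul h h

/-- valuation of a sum when one term is dominated -/
lemma gval_add {x y : ℚ} (hx : x ≠ 0) (hy : Vge s (padicValRat s x + 1) y) :
    x + y ≠ 0 ∧ padicValRat s (x + y) = padicValRat s x := by
  rcases hy with hy | hy
  · subst hy; rw [add_zero]; exact ⟨hx, rfl⟩
  by_cases hy0 : y = 0
  · subst hy0; rw [add_zero]; exact ⟨hx, rfl⟩
  have hlt : padicValRat s x < padicValRat s y := by omega
  have hne : x + y ≠ 0 := by
    intro h
    have : y = -x := by linear_combination h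
    rw [this, padicValRat.neg] at hlt
    exact lt_irrefl _ hlt
  exact ⟨hne, padicValRat.add_eq_of_lt hne hx hy0 hlt⟩

/-- the order of the pole of a square plus something integral, halved -/
def DD (s : ℕ) (x : ℚ) : ℕ := (- padicValRat s x / 2).toNat

lemma DD_of_vge {x : ℚ} (h : Vge s 0 x) : DD s x = 0 := by
  unfold DD
  rcases h with h | h
  · subst h; simp
  · omega

lemma DD_sq_add {l c : ℚ} (hc : Vge s 0 c) (hl : l ≠ 0) (h : padicValRat s l ≤ 0) :
    (DD s (l ^ 2 + c) : ℤ) = - padicValRat s l := by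
  by_cases h0 : padicValRat s l = 0
  · rw [h0, neg_zero]
    have : Vge s 0 (l ^ 2 + c) := by
      refine gv_add ?_ hc
      refine Or.inr ?_
      rw [padicValRat.pow, h0]; simp
    rw [DD_of_vge this]; simp
  · have h1 : padicValRat s (l ^ 2) = 2 * padicValRat s l := by
      rw [padicValRat.pow]; push_cast; ring
    have h2 : Vge s (padicValRat s (l ^ 2) + 1) c := gv_mono (by omega) hc
    obtain ⟨h3, h4⟩ := gval_add (pow_ne_zero 2 hl) h2
    unfold DD
    rw [h4, h1]
    omega

/-- the key lemma: both slopes -/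
theorem key {z1 z2 y1 y2 g c : ℚ} (hz : z1 ≠ z2) (h2 : s ≠ 2)
    (hy1 : Vge s 0 y1) (hy2 : Vge s 0 y2) (hg : Vge s 0 g) (hc : Vge s 0 c)
    (hzz : Vge s 0 (z1 - z2))
    (heq : (y1 - y2) * (y1 + y2) = (z1 - z2) * g)
    (hk : Vge s 1 (z1 - z2) → ¬ Vge s 1 y1 ∨ ¬ Vge s 1 g) :
    (DD s (((y1 - y2) / (z1 - z2)) ^ 2 + c) : ℤ) + (DD s (((y1 + y2) / (z1 - z2)) ^ 2 + c) : ℤ)
      = padicValRat s (z1 - z2) := by
  have hne : z1 - z2 ≠ 0 := sub_ne_zero.2 hz
  by_cases hk0 : Vge s 1 (z1 - z2)
  swap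
  · -- unit difference
    obtain ⟨_, hv⟩ := gval_of hzz hk0
    have hinv : Vge s 0 (z1 - z2)⁻¹ := by
      refine Or.inr ?_
      rw [padicValRat.inv, hv]; simp
    have a1 : Vge s 0 (((y1 - y2) / (z1 - z2)) ^ 2 + c) := by
      refine gv_add ?_ hc
      have := gv_sq (gv_mul (gv_sub hy1 hy2) hinv)
      simpa [div_eq_mul_inv] using this
    have a2 : Vge s 0 (((y1 + y2) / (z1 - z2)) ^ 2 + c) := by
      refine gv_add ?_ hc
      have := gv_sq (gv_mul (gv_add hy1 hy2) hinv)
      simpa [div_eq_mul_inv] using this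
    rw [DD_of_vge a1, DD_of_vge a2, hv]; simp
  have hkk : 1 ≤ padicValRat s (z1 - z2) := hk0.resolve_left hne
  -- general facts when a factor is nonzero
  have hdiv : ∀ a : ℚ, a ≠ 0 → padicValRat s (a / (z1 - z2)) =
      padicValRat s a - padicValRat s (z1 - z2) := fun a ha => padicValRat.div ha hne
  rcases hk hk0 with hu | hu
  · -- y1 is a unit
    obtain ⟨hy10, hy1v⟩ := gval_of hy1 hu
    have h2y : ¬ Vge s 1 (2 * y1) := by
      intro h
      rcases gv_prime (gv_ofNat 2) hy1 h with h' | h'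
      · have h'' : Vge s 1 ((2 : ℤ) : ℚ) := by simpa using h'
        have := gv_one_int_iff.1 h''
        have h3 : s ∣ 2 := by exact_mod_cast this
        exact h2 ((Nat.prime_dvd_prime_iff_eq hs.out Nat.prime_two).1 h3)
      · exact hu h'
    have hor : ¬ Vge s 1 (y1 - y2) ∨ ¬ Vge s 1 (y1 + y2) := by
      by_contra hcon
      push Not at hcon
      apply h2y
      have := gv_add hcon.1 hcon.2
      have e : y1 - y2 + (y1 + y2) = 2 * y1 := by ring
      rwa [e] at this
    rcases hor with ha | ha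
    · -- y1 - y2 is a unit
      obtain ⟨ha0, hav⟩ := gval_of (gv_sub hy1 hy2) ha
      have e2 : (y1 + y2) / (z1 - z2) = g * (y1 - y2)⁻¹ := by
        rw [div_eq_iff hne]
        field_simp
        linear_combination heq
      have a2 : Vge s 0 (((y1 + y2) / (z1 - z2)) ^ 2 + c) := by
        refine gv_add ?_ hc
        rw [e2]
        have hinv : Vge s 0 (y1 - y2)⁻¹ := by
          refine Or.inr ?_
          rw [padicValRat.inv, hav]; simp
        have := gv_sq (gv_mul hg hinv)
        simpa using this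
      rw [DD_of_vge a2, DD_sq_add hc (div_ne_zero ha0 hne) (by rw [hdiv _ ha0, hav]; omega),
        hdiv _ ha0, hav]
      simp
    · obtain ⟨ha0, hav⟩ := gval_of (gv_add hy1 hy2) ha
      have e2 : (y1 - y2) / (z1 - z2) = g * (y1 + y2)⁻¹ := by
        rw [div_eq_iff hne]
        field_simp
        linear_combination heq
      have a2 : Vge s 0 (((y1 - y2) / (z1 - z2)) ^ 2 + c) := by
        refine gv_add ?_ hc
        rw [e2]
        have hinv : Vge s 0 (y1 + y2)⁻¹ := by
          refine Or.inr ?_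
          rw [padicValRat.inv, hav]; simp
        have := gv_sq (gv_mul hg hinv)
        simpa using this
      rw [DD_of_vge a2, DD_sq_add hc (div_ne_zero ha0 hne) (by rw [hdiv _ ha0, hav]; omega),
        hdiv _ ha0, hav]
      simp
  · -- g is a unit
    obtain ⟨hg0, hgv⟩ := gval_of hg hu
    have hprod : (y1 - y2) * (y1 + y2) ≠ 0 := by
      rw [heq]; exact mul_ne_zero hne hg0
    have ha0 : y1 - y2 ≠ 0 := left_ne_zero_of_mul hprod
    have hb0 : y1 + y2 ≠ 0 := right_ne_zero_of_mul hprod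
    have hsum : padicValRat s (y1 - y2) + padicValRat s (y1 + y2) = padicValRat s (z1 - z2) := by
      rw [← padicValRat.mul ha0 hb0, heq, padicValRat.mul hne hg0, hgv, add_zero]
    have ha : 0 ≤ padicValRat s (y1 - y2) := (gv_sub hy1 hy2).resolve_left ha0
    have hb : 0 ≤ padicValRat s (y1 + y2) := (gv_add hy1 hy2).resolve_left hb0
    rw [DD_sq_add hc (div_ne_zero ha0 hne) (by rw [hdiv _ ha0]; omega),
      DD_sq_add hc (div_ne_zero hb0 hne) (by rw [hdiv _ hb0]; omega), hdiv _ ha0, hdiv _ hb0]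
    omega

end DB

end Pool.Agent.H528R2
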