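import Pool.Agent.H528R2.Dqbf5

/-!
# DQBF is NEXP-hard (F1), final part
-/

set_option autoImplicit false

namespace Pool.Agent.H528R2.F1

open Pool.Agent.NPC Pool.Agent.NPC.CL

section Codes

variable {Q K A : Type} [Fintype Q] [Fintype K] [Fintype A]

/-- codes of the function symbols -/
noncomputable def code : Sy Q K A → ℕ :=
  Sum.elim (fun q => (Fintype.equivFin Q q : ℕ))
    (Sum.elim (fun k => Fintype.card Q + (Fintype.equivFin K k : ℕ))
      (fun ko => Fintype.card Q + Fintype.card K + (Fintype.equivFin (K × Option A) ko : ℕ)))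

theorem code_lt (s : Sy Q K A) :
    code s < Fintype.card Q + Fintype.card K + Fintype.card (K × Option A) := by
  rcases s with q | k | ko
  · have := (Fintype.equivFin Q q).2
    simp only [code, Sum.elim_inl]
    omega
  · have := (Fintype.equivFin K k).2
    simp only [code, Sum.elim_inl, Sum.elim_inr]
    omega
  · have := (Fintype.equivFin (K × Option A) ko).2
    simp only [code, Sum.elim_inr]
    omega

theorem code_inl_lt (q : Q) : code (.inl q : Sy Q K A) < Fintype.card Q :=
  (Fintype.equivFin Q q).2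

theorem inl_of_code_lt {s : Sy Q K A} (h : code s < Fintype.card Q) : ∃ q, s = .inl q := by
  rcases s with q | k | ko
  · exact ⟨q, rfl⟩
  · simp only [code, Sum.elim_inl, Sum.elim_inr] at h; omega
  · simp only [code, Sum.elim_inr] at h; omega

theorem code_inj {s s' : Sy Q K A} (h : code s = code s') : s = s' := by
  rcases s with q | k | ko <;> rcases s' with q' | k' | ko'
  · have h' : (Fintype.equivFin Q q : ℕ) = (Fintype.equivFin Q q' : ℕ) := h
    rw [(Fintype.equivFin Q).injective (Fin.ext h')]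
  · have := (Fintype.equivFin Q q).2
    simp only [code, Sum.elim_inl, Sum.elim_inr] at h; omega
  · have := (Fintype.equivFin Q q).2
    simp only [code, Sum.elim_inl, Sum.elim_inr] at h; omega
  · have := (Fintype.equivFin Q q').2
    simp only [code, Sum.elim_inl, Sum.elim_inr] at h; omega
  · simp only [code, Sum.elim_inl, Sum.elim_inr] at h
    have h' : (Fintype.equivFin K k : ℕ) = (Fintype.equivFin K k' : ℕ) := by omega
    rw [(Fintype.equivFin K).injective (Fin.ext h')]
  · have := (Fintype.equivFin K k).2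
    simp only [code, Sum.elim_inl, Sum.elim_inr] at h; omega
  · have := (Fintype.equivFin Q q').2
    simp only [code, Sum.elim_inl, Sum.elim_inr] at h; omega
  · have := (Fintype.equivFin K k').2
    simp only [code, Sum.elim_inl, Sum.elim_inr] at h; omega
  · simp only [code, Sum.elim_inr] at h
    have h' : (Fintype.equivFin (K × Option A) ko : ℕ) =
      (Fintype.equivFin (K × Option A) ko' : ℕ) := by omega
    rw [(Fintype.equivFin (K × Option A)).injective (Fin.ext h')]

/-- coded schemas -/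
noncomputable def encA (asc : Asc Q K A) : Sc :=
  (asc.1, asc.2.1, asc.2.2.1, asc.2.2.2.map (fun l => (l.1, code l.2.1, l.2.2.1, l.2.2.2)))

/-- well-formed block variables -/
def BWf (v : BV Q K A) : Prop :=
  2 ≤ v.2.1 ∧ v.2.1 < 7 ∧ 1 ≤ v.2.2 ∧ v.2.2 < 7 ∧ (v.2.2 = 1 → ∃ q, v.1 = .inl q)

def AWf (asc : Asc Q K A) : Prop :=
  (∀ q ∈ asc.1, q.1 < 7) ∧ (∀ b ∈ asc.2.1, b < 7) ∧
  (∀ q ∈ asc.2.2.1, q.1 < 4 ∧ q.1 ≠ 1 ∧ q.2.1 < 7 ∧ q.2.2 < 7) ∧
  (∀ l ∈ asc.2.2.2, BWf l.2)

theorem bst_wf (q : Q) {a : ℕ} (h : 2 ≤ a ∧ a < 7) : BWf (bst q a : BV Q K A) :=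
  ⟨h.1, h.2, by simp [bst], by simp [bst], fun _ => ⟨q, rfl⟩⟩

theorem bhp_wf (k : K) {a b : ℕ} (h : 2 ≤ a ∧ a < 7) (h' : 2 ≤ b ∧ b < 7) :
    BWf (bhp k a b : BV Q K A) :=
  ⟨h.1, h.2, by simp only [bhp]; omega, h'.2, fun h2 => by simp only [bhp] at h2; omega⟩

theorem bce_wf (k : K) (o : Option A) {a b : ℕ} (h : 2 ≤ a ∧ a < 7) (h' : 2 ≤ b ∧ b < 7) :
    BWf (bce k o a b : BV Q K A) :=
  ⟨h.1, h.2, by simp only [bce]; omega, h'.2, fun h2 => by simp only [bce] at h2; omega⟩

theorem imp_wf {ps : List (BV Q K A)} {c : BV Q K A} (h : ∀ v ∈ ps, BWf v) (hc : BWf c) :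
    ∀ l ∈ imp ps c, BWf l.2 := by
  intro l hl
  simp only [imp, List.mem_append, List.mem_map, List.mem_singleton] at hl
  rcases hl with ⟨v, hv, rfl⟩ | rfl
  · exact h v hv
  · exact hc

theorem forb_wf {ps : List (BV Q K A)} (h : ∀ v ∈ ps, BWf v) :
    ∀ l ∈ forb ps, BWf l.2 := by
  intro l hl
  simp only [forb, List.mem_map] at hl
  obtain ⟨v, hv, rfl⟩ := hl
  exact h v hv

theorem ptrB_range (op : Op A) (o : Option A) : 2 ≤ ptrB op o ∧ ptrB op o < 7 := by
  cases op <;> simp [ptrB]
  cases o <;> simp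

variable [DecidableEq K] (D : Tab Q K A)

theorem rdA_wf {q : Q} {o : Option A} {g1 : List (ℕ × ℕ)} {g3 : List (ℕ × ℕ × ℕ)}
    {ps : List (BV Q K A)} (h1 : ∀ q ∈ g1, q.1 < 7)
    (h3 : ∀ q ∈ g3, q.1 < 4 ∧ q.1 ≠ 1 ∧ q.2.1 < 7 ∧ q.2.2 < 7) (hp : ∀ v ∈ ps, BWf v) :
    ∀ asc ∈ rdA D q o g1 g3 ps, AWf asc := by
  intro asc h
  unfold rdA at h
  have hps : ∀ v ∈ (bst q 2 :: bhp (D.M.κ q) 2 5 :: ps), BWf v := by
    intro v hv
    rw [List.mem_cons, List.mem_cons] at hv
    rcases hv with rfl | rfl | hv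
    · exact bst_wf _ (by norm_num)
    · exact bhp_wf _ (by norm_num) (by norm_num)
    · exact hp v hv
  rw [List.mem_cons, List.mem_cons] at h
  rcases h with rfl | rfl | h
  · exact ⟨h1, by simp, h3, imp_wf hps (bst_wf _ (by norm_num))⟩
  · exact ⟨h1, by simp, h3, imp_wf hps (bhp_wf _ (by norm_num) (ptrB_range _ _))⟩
  · cases hop : (D.M.δ q o).2 with
    | keep => rw [hop] at h; simp at h
    | pop => rw [hop] at h; simp at h
    | push a =>
      rw [hop] at h
      rw [List.mem_singleton] at h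
      subst h
      exact ⟨h1, by simp, h3, imp_wf hps (bce_wf _ _ (by norm_num) (by norm_num))⟩

theorem allA_wf (y : List Bool) : ∀ asc ∈ allA D y, AWf asc := by
  intro asc h
  unfold allA cA at h
  simp only [List.mem_append] at h
  rcases h with (h | h | h | h) | h
  · obtain ⟨q, hq, h⟩ := List.mem_flatMap.1 h
    rw [List.mem_append] at h
    rcases h with h | h
    · unfold trA at h
      rw [List.mem_append] at h
      rcases h with h | h
      · exact rdA_wf D (by simp) (by simp) (by simp) asc h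
      · obtain ⟨o, ho, h⟩ := List.mem_flatMap.1 h
        exact rdA_wf D (by simp) (by simp) (by
          intro v hv
          rw [List.mem_singleton] at hv
          subst hv
          exact bce_wf _ _ (by norm_num) (by norm_num)) asc h
    · obtain ⟨k, hk, rfl⟩ := List.mem_map.1 h
      refine ⟨by simp, by simp, by simp, imp_wf ?_ (bhp_wf _ (by norm_num) (by norm_num))⟩
      intro v hv
      simp only [List.mem_cons, List.not_mem_nil, or_false] at hv
      rcases hv with rfl | rfl
      · exact bst_wf _ (by norm_num)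
      · exact bhp_wf _ (by norm_num) (by norm_num)
  · obtain ⟨k, hk, h⟩ := List.mem_flatMap.1 h
    obtain ⟨o, ho, rfl⟩ := List.mem_map.1 h
    refine ⟨by simp, by simp, by simp, imp_wf ?_ (bce_wf _ _ (by norm_num) (by norm_num))⟩
    intro v hv
    simp only [List.mem_cons, List.not_mem_nil, or_false] at hv
    rcases hv with rfl | rfl
    · exact bhp_wf _ (by norm_num) (by norm_num)
    · exact bce_wf _ _ (by norm_num) (by norm_num)
  · unfold inA at h
    rw [List.mem_cons, List.mem_append] at h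
    rcases h with rfl | h | h
    · refine ⟨by simp, by simp, by simp, ?_⟩
      intro l hl
      rw [List.mem_singleton] at hl
      subst hl
      exact bst_wf _ (by norm_num)
    · obtain ⟨k, hk, rfl⟩ := List.mem_map.1 h
      refine ⟨by simp, by simp, by simp, ?_⟩
      intro l hl
      rw [List.mem_singleton] at hl
      subst hl
      exact bhp_wf _ (by norm_num) (by norm_num)
    · simp only [List.mem_cons, List.not_mem_nil, or_false] at h
      rcases h with rfl | rfl
      · refine ⟨by simp, by simp, by simp, ?_⟩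
        intro l hl
        simp only [List.mem_cons, List.not_mem_nil, or_false] at hl
        rcases hl with rfl | rfl | rfl <;> exact bce_wf _ _ (by norm_num) (by norm_num)
      · refine ⟨by simp, by simp, by simp, imp_wf ?_ (bce_wf _ _ (by norm_num) (by norm_num))⟩
        intro v hv
        rw [List.mem_singleton] at hv
        subst hv
        exact bce_wf _ _ (by norm_num) (by norm_num)
  · unfold fiA at h
    rw [List.mem_append, List.mem_append, List.mem_append] at h
    rcases h with h | h | h | h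
    · obtain ⟨q, hq, rfl⟩ := List.mem_map.1 h
      refine ⟨by simp, by simp, by simp, forb_wf ?_⟩
      intro v hv
      rw [List.mem_singleton] at hv
      subst hv
      exact bst_wf _ (by norm_num)
    · rw [List.mem_singleton] at h
      subst h
      refine ⟨by simp, by simp, by simp, forb_wf ?_⟩
      intro v hv
      rw [List.mem_singleton] at hv
      subst hv
      exact bhp_wf _ (by norm_num) (by norm_num)
    · obtain ⟨o, ho, rfl⟩ := List.mem_map.1 h
      refine ⟨by simp, by simp, by simp, forb_wf ?_⟩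
      intro v hv
      simp only [List.mem_cons, List.not_mem_nil, or_false] at hv
      rcases hv with rfl | rfl
      · exact bhp_wf _ (by norm_num) (by norm_num)
      · exact bce_wf _ _ (by norm_num) (by norm_num)
    · obtain ⟨o, ho, rfl⟩ := List.mem_map.1 h
      refine ⟨by simp, by simp, by simp, forb_wf ?_⟩
      intro v hv
      simp only [List.mem_cons, List.not_mem_nil, or_false] at hv
      rcases hv with rfl | rfl
      · exact bhp_wf _ (by norm_num) (by norm_num)
      · exact bce_wf _ _ (by norm_num) (by norm_num)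
  · obtain ⟨q, hq, rfl⟩ := List.mem_map.1 h
    refine ⟨by simp, by simp, by simp, ?_⟩
    intro l hl
    rw [List.mem_singleton] at hl
    subst hl
    exact bce_wf _ _ (by norm_num) (by norm_num)

theorem env_lt {p N r : ℕ} {y : List Bool} (hr : 2 ^ p + y.length + N + 2 < 2 ^ r) (i : ℕ) :
    (envOf p N y).getD i 0 < 2 ^ r := by
  have hpp : 0 < 2 ^ p := by positivity
  by_cases hi : i < (envOf p N y).length
  · rw [List.getD_eq_getElem _ _ hi]
    have hm := List.getElem_mem hi
    generalize (envOf p N y)[i] = e at hm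
    unfold envOf at hm
    simp only [List.mem_append, List.mem_cons, List.not_mem_nil, or_false, List.mem_map,
      List.mem_range] at hm
    rcases hm with (rfl | rfl | rfl) | ⟨j, hj, rfl⟩
    · positivity
    · omega
    · omega
    · omega
  · rw [List.getD_eq_default _ _ (by omega)]
    positivity

theorem encA_wf {p N r : ℕ} {y : List Bool} (hr : 2 ^ p + y.length + N + 2 < 2 ^ r) :
    ∀ sc ∈ (allA D y).map encA, Wf (Fintype.card Q)
      (Fintype.card Q + Fintype.card K + Fintype.card (K × Option A)) r (envOf p N y) sc := by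
  intro sc hsc
  obtain ⟨asc, hasc, rfl⟩ := List.mem_map.1 hsc
  obtain ⟨w1, w2, w3, w4⟩ := allA_wf D y asc hasc
  refine ⟨fun q hq => ⟨w1 q hq, env_lt hr _⟩, w2, w3, ?_⟩
  intro q hq
  obtain ⟨l, hl, rfl⟩ := List.mem_map.1 hq
  obtain ⟨b1, b2, b3, b4, b5⟩ := w4 l hl
  refine ⟨code_lt _, b1, b2, b3, b4, ?_⟩
  intro h1
  obtain ⟨q, hq⟩ := b5 h1
  simp only
  rw [hq]
  exact code_inl_lt q

theorem lits_iff {T : ℕ → ℕ → ℕ → Bool} {τ : Var Q K A → Bool}
    (hτ : ∀ (s : Sy Q K A) X Y, τ (sym s X Y) = T (code s) X Y) (u : ℕ → ℕ) (asc : Asc Q K A) :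
    (∃ q ∈ (encA asc).2.2.2, T q.2.1 (u q.2.2.1) (u q.2.2.2) = q.1) ↔
      ∃ l ∈ instc u asc, τ l.2 = l.1 := by
  constructor
  · rintro ⟨q, hq, h⟩
    obtain ⟨l, hl, rfl⟩ := List.mem_map.1 hq
    refine ⟨(l.1, evv u l.2), List.mem_map.2 ⟨l, hl, rfl⟩, ?_⟩
    simp only [evv]
    rw [hτ]
    exact h
  · rintro ⟨l', hl', h⟩
    obtain ⟨l, hl, rfl⟩ := List.mem_map.1 hl'
    refine ⟨_, List.mem_map.2 ⟨l, hl, rfl⟩, ?_⟩
    simp only [evv] at h
    rw [hτ] at h
    exact h

theorem ssat_iff {p N r : ℕ} {y : List Bool} (hr : 2 ^ p + y.length + N + 2 < 2 ^ r)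
    (hqs : ∀ q, q ∈ D.qs) (hks : ∀ k, k ∈ D.ks) (hos : ∀ o, o ∈ D.os) :
    (∃ T, SSat (Fintype.card Q) r p (envOf p N y) ((allA D y).map encA) T) ↔
      ∃ w : List Bool, w.length ≤ 2 ^ p ∧ Accepts D (run D (2 ^ p) y w N) := by
  classical
  constructor
  · rintro ⟨T, hT1, hT2⟩
    set τ : Var Q K A → Bool := fun v => match v with
      | .st t q => T (code (.inl q : Sy Q K A)) t 0
      | .hp t k h => T (code (.inr (.inl k) : Sy Q K A)) t h
      | .ce t k j o => T (code (.inr (.inr (k, o)) : Sy Q K A)) t j with hτdef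
    have hτ : ∀ (s : Sy Q K A) X Y, τ (sym s X Y) = T (code s) X Y := by
      intro s X Y
      rcases s with q | k | ko
      · exact hT1 _ (code_inl_lt q) _ _ _
      · rfl
      · rfl
    refine formula_complete hqs hks hos (complete D hr (τ := τ) ?_)
    intro asc hasc u hu hg
    rw [← lits_iff hτ]
    exact hT2 u hu (encA asc) (List.mem_map.2 ⟨asc, hasc, rfl⟩) hg
  · rintro ⟨w, hw, hacc⟩
    set τ := asg (run D (2 ^ p) y w) with hτdef
    set T : ℕ → ℕ → ℕ → Bool := fun c X Y =>
      decide (∃ s : Sy Q K A, code s = c ∧ τ (sym s X Y) = true) with hTdef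
    have hτ : ∀ (s : Sy Q K A) X Y, τ (sym s X Y) = T (code s) X Y := by
      intro s X Y
      rw [Bool.eq_iff_iff]
      simp only [hTdef, decide_eq_true_eq]
      constructor
      · intro h; exact ⟨s, rfl, h⟩
      · rintro ⟨s', hs', h⟩
        rw [← code_inj hs']
        exact h
    refine ⟨T, ?_, ?_⟩
    · intro c hc X Y Y'
      simp only [hTdef, decide_eq_decide]
      constructor
      · rintro ⟨s, hs, h⟩
        rw [← hs] at hc
        obtain ⟨q, rfl⟩ := inl_of_code_lt hc
        exact ⟨.inl q, hs, h⟩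
      · rintro ⟨s, hs, h⟩
        rw [← hs] at hc
        obtain ⟨q, rfl⟩ := inl_of_code_lt hc
        exact ⟨.inl q, hs, h⟩
    · intro u hu sc hsc hg
      obtain ⟨asc, hasc, rfl⟩ := List.mem_map.1 hsc
      rw [lits_iff hτ]
      exact sound D hw hacc hasc hg

theorem dqsat_iff {p N : ℕ} {U : List Unit} {y : List Bool}
    (hr : 2 ^ p + y.length + N + 2 < 2 ^ U.length)
    (hqs : ∀ q, q ∈ D.qs) (hks : ∀ k, k ∈ D.ks) (hos : ∀ o, o ∈ D.os) :
    DQSat (build (Fintype.card Q) (Fintype.card Q + Fintype.card K + Fintype.card (K × Option A)) U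
      p (envOf p N y) ((allA D y).map encA)) ↔
      ∃ w : List Bool, w.length ≤ 2 ^ p ∧ Accepts D (run D (2 ^ p) y w N) := by
  rw [← ssat_iff D hr hqs hks hos]
  constructor
  · intro h
    exact build_complete (by omega) (encA_wf D hr) h
  · rintro ⟨T, hT⟩
    exact build_sound (by omega) (encA_wf D hr) hT

end Codes

/-! ### polynomial bounds -/

theorem eval_le_pow (q : Polynomial ℕ) (a m : ℕ) (h : m ≤ 2 ^ a) :
    q.eval m ≤ q.eval 1 * 2 ^ (a * q.natDegree) := by
  rw [Polynomial.eval_eq_sum_range, Polynomial.eval_eq_sum_range, Finset.sum_mul]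
  apply Finset.sum_le_sum
  intro i hi
  rw [Finset.mem_range] at hi
  rw [one_pow, mul_one]
  apply Nat.mul_le_mul_left
  calc m ^ i ≤ (2 ^ a) ^ i := Nat.pow_le_pow_left h i
    _ = 2 ^ (a * i) := by rw [pow_mul]
    _ ≤ 2 ^ (a * q.natDegree) := Nat.pow_le_pow_right (by norm_num)
        (Nat.mul_le_mul_left _ (by omega))

theorem size_bound (p s n : ℕ) : 2 ^ p + (2 * n + 1) + 2 ^ s + 2 < 2 ^ (p + s + 2 * n + 5) := by
  have h1 : 2 * n + 1 ≤ 2 ^ (2 * n) := Nat.lt_two_pow_self
  have hA : 1 ≤ 2 ^ p := Nat.one_le_two_pow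
  have hB : 1 ≤ 2 ^ s := Nat.one_le_two_pow
  have hC : 1 ≤ 2 ^ (2 * n) := Nat.one_le_two_pow
  have e : 2 ^ (p + s + 2 * n + 5) = 32 * (2 ^ p * 2 ^ s * 2 ^ (2 * n)) := by
    rw [pow_add, pow_add, pow_add]; ring
  rw [e]
  generalize 2 ^ p = A at *
  generalize 2 ^ s = B at *
  generalize 2 ^ (2 * n) = C at *
  have hAB : 1 ≤ A * B := Nat.one_le_iff_ne_zero.2 (by positivity)
  have hAC : 1 ≤ A * C := Nat.one_le_iff_ne_zero.2 (by positivity)
  have hBC : 1 ≤ B * C := Nat.one_le_iff_ne_zero.2 (by positivity)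
  have g1 : A ≤ A * B * C := by
    calc A = A * 1 := by ring
      _ ≤ A * (B * C) := Nat.mul_le_mul_left _ hBC
      _ = A * B * C := by ring
  have g2 : B ≤ A * B * C := by
    calc B = B * 1 := by ring
      _ ≤ B * (A * C) := Nat.mul_le_mul_left _ hAC
      _ = A * B * C := by ring
  have g3 : C ≤ A * B * C := by
    calc C = 1 * C := by ring
      _ ≤ A * B * C := Nat.mul_le_mul_right _ hAB
  omega

/-! ### polynomial time -/

section PolyTime

variable {α : Type} [TEnc α]

theorem poly_two_pow {n : α → ℕ} (hn : UPoly n) : NPC.Poly (fun a => 2 ^ (n a)) := by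
  have h1 : NPC.Poly (fun a => (List.replicate (n a) ()).map (fun _ => false)) :=
    NPC.Poly.map (F := fun _ _ => false) hn (NPC.Poly.const false)
  refine (NPC.Poly.valBits (NPC.Poly.append h1 (NPC.Poly.const [true]))).congr fun a => ?_
  have h2 : ∀ k, valB (List.replicate k false ++ [true]) = 2 ^ k := by
    intro k
    rw [valB_append]
    have h3 : valB (List.replicate k false) = 0 := by
      induction k with
      | zero => rfl
      | succ k ih => simp [List.replicate_succ, valB, ih]
    rw [h3]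
    simp [valB]
  rw [List.map_replicate, h2]

theorem poly_envOf {p N : α → ℕ} {y : α → List Bool}
    (hp : NPC.Poly (fun a => 2 ^ (p a))) (hN : NPC.Poly N) (hy : NPC.Poly y) :
    NPC.Poly (fun a => envOf (p a) (N a) (y a)) := by
  unfold envOf
  refine NPC.Poly.append ?_ (NPC.Poly.map (NPC.Poly.range_length hy) ?_)
  · exact NPC.Poly.cons (NPC.Poly.const 0) (NPC.Poly.cons hN (NPC.Poly.cons
      (NPC.Poly.add hp (NPC.Poly.length hy)) (NPC.Poly.const [])))
  · exact NPC.Poly.add (hp.comp (NPC.Poly.fst NPC.Poly.id)) (NPC.Poly.snd NPC.Poly.id)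

variable {Q K A : Type} [Fintype Q] [Fintype K] [Fintype A] [DecidableEq K] (D : Tab Q K A)

theorem poly_scs {y : α → List Bool} (hy : NPC.Poly y) :
    NPC.Poly (fun a => (allA D (y a)).map encA) := by
  have h1 : NPC.Poly (fun a => (y a).reverse.zipIdx.map (fun q : Bool × ℕ =>
      (([(2, 0), (4, 3 + q.2)], [], [],
        [(true, code (.inr (.inr (D.k₀, some (D.sym q.1))) : Sy Q K A), 2, 4)]) : Sc))) := by
    refine NPC.Poly.map (F := fun _ (q : Bool × ℕ) => (([(2, 0), (4, 3 + q.2)], [], [],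
        [(true, code (.inr (.inr (D.k₀, some (D.sym q.1))) : Sy Q K A), 2, 4)]) : Sc))
      (NPC.Poly.zipIdx (NPC.Poly.reverse hy)) ?_
    have h2 : NPC.Poly (fun b : Bool =>
        code (.inr (.inr (D.k₀, some (D.sym b))) : Sy Q K A)) := polyOfFintype _
    refine NPC.Poly.pair ?_ (NPC.Poly.pair (NPC.Poly.const _) (NPC.Poly.pair (NPC.Poly.const _) ?_))
    · refine NPC.Poly.cons (NPC.Poly.const _) (NPC.Poly.cons (NPC.Poly.pair (NPC.Poly.const _)
        (NPC.Poly.add (NPC.Poly.const _) (NPC.Poly.snd (NPC.Poly.snd NPC.Poly.id))))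
        (NPC.Poly.const _))
    · refine NPC.Poly.cons (NPC.Poly.pair (NPC.Poly.const _) (NPC.Poly.pair
        (h2.comp (NPC.Poly.fst (NPC.Poly.snd NPC.Poly.id))) (NPC.Poly.const _))) (NPC.Poly.const _)
  refine (NPC.Poly.append (NPC.Poly.const ((cA D).map encA)) h1).congr fun a => ?_
  unfold allA inY
  rw [List.map_append, List.map_map]
  rfl

end PolyTime

end F1

open Pool.Agent.NPC Pool.Agent.NPC.CL F1

/-- **DQBF is `NEXP`-hard.** -/
theorem hardX_dq : HardX DQSat := by
  classical
  intro L hL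
  obtain ⟨V, pp, ⟨hV⟩, hL⟩ := hL
  let D := tab hV.tm hV.inputAlphabet hV.outputAlphabet
  let s : Polynomial ℕ := Polynomial.C (hV.time.eval 1 + maxDepth hV.tm) +
    (pp + Polynomial.C 2 * Polynomial.X + Polynomial.C 2) * Polynomial.C hV.time.natDegree
  let R : Polynomial ℕ := pp + s + Polynomial.C 2 * Polynomial.X + Polynomial.C 5
  have hs : ∀ n, s.eval n = hV.time.eval 1 + maxDepth hV.tm +
      (pp.eval n + 2 * n + 2) * hV.time.natDegree := by
    intro n
    simp [s]
  have hR : ∀ n, R.eval n = pp.eval n + s.eval n + 2 * n + 5 := by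
    intro n
    simp [R]
  refine ⟨fun x => build (Fintype.card (NQ hV.tm)) (Fintype.card (NQ hV.tm) +
      Fintype.card hV.tm.K + Fintype.card (hV.tm.K × Option (NA hV.tm)))
      (List.replicate (R.eval x.length) ()) (pp.eval x.length)
      (envOf (pp.eval x.length) (2 ^ (s.eval x.length)) (pairPre x))
      ((allA D (pairPre x)).map encA), ?_, ?_⟩
  · have hlen : UPoly (fun x : List Bool => x.length) := UPoly.length NPC.Poly.id
    have h1 : NPC.Poly (fun x : List Bool => build (Fintype.card (NQ hV.tm))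
      (Fintype.card (NQ hV.tm) +
      Fintype.card hV.tm.K + Fintype.card (hV.tm.K × Option (NA hV.tm)))
      (List.replicate (R.eval x.length) ()) (pp.eval x.length)
      (envOf (pp.eval x.length) (2 ^ (s.eval x.length)) (pairPre x))
      ((allA D (pairPre x)).map encA)) :=
      poly_build _ _ (UPoly.eval hlen R) (UPoly.eval hlen pp).toPoly
        (poly_envOf (poly_two_pow (UPoly.eval hlen pp)) (poly_two_pow (UPoly.eval hlen s))
          (pPre NPC.Poly.id)) (poly_scs D (pPre NPC.Poly.id))
    exact PC.comp (ea := fun x : List Bool => x) (eb := (bits : List Bool → List Bool))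
      (ec := bits) (f := fun x => x) h1 PC.ofBits
  · intro x
    rw [dqsat_iff D (by
        rw [List.length_replicate, pairPre_length, hR]
        exact size_bound _ _ _) (fun q => by simp [D, tab]) (fun k => by simp [D, tab])
        (fun o => by simp [D, tab])]
    rw [hL x]
    have key : ∀ w : List Bool, w.length ≤ 2 ^ (pp.eval x.length) →
        (V (pairBits x w) = [true] ↔ Accepts D (run D (2 ^ (pp.eval x.length)) (pairPre x) w
          (2 ^ (s.eval x.length)))) := by
      intro w hw
      rw [pairBits_eq]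
      refine tab_correct hV.tm hV.inputAlphabet hV.outputAlphabet V _ _ _ _ _ hw
        (hV.outputsFun (pairPre x ++ w)) ?_
      have hm : (id (pairPre x ++ w) : List Bool).length ≤
          2 ^ (pp.eval x.length + 2 * x.length + 2) := by
        simp only [id_eq, List.length_append, pairPre_length]
        have h1 : 2 * x.length + 1 ≤ 2 ^ (2 * x.length) := Nat.lt_two_pow_self
        have e : 2 ^ (pp.eval x.length + 2 * x.length + 2) =
            4 * (2 ^ (pp.eval x.length) * 2 ^ (2 * x.length)) := by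
          rw [pow_add, pow_add]; ring
        rw [e]
        have hA : 1 ≤ 2 ^ (pp.eval x.length) := Nat.one_le_two_pow
        have hC : 1 ≤ 2 ^ (2 * x.length) := Nat.one_le_two_pow
        generalize 2 ^ (pp.eval x.length) = A at *
        generalize 2 ^ (2 * x.length) = C at *
        have g1 : A ≤ A * C := Nat.le_mul_of_pos_right _ hC
        have g3 : C ≤ A * C := Nat.le_mul_of_pos_left _ hA
        omega
      have h2 := eval_le_pow hV.time _ _ hm
      refine (Nat.mul_le_mul_right _ h2).trans ?_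
      rw [hs]
      have h3 : hV.time.eval 1 ≤ 2 ^ (hV.time.eval 1) := Nat.lt_two_pow_self.le
      have h4 : maxDepth hV.tm ≤ 2 ^ (maxDepth hV.tm) := Nat.lt_two_pow_self.le
      rw [pow_add, pow_add]
      calc hV.time.eval 1 * 2 ^ ((pp.eval x.length + 2 * x.length + 2) * hV.time.natDegree) *
            maxDepth hV.tm
          ≤ 2 ^ (hV.time.eval 1) * 2 ^ ((pp.eval x.length + 2 * x.length + 2) *
            hV.time.natDegree) * 2 ^ (maxDepth hV.tm) :=
            Nat.mul_le_mul (Nat.mul_le_mul_right _ h3) h4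
        _ = _ := by ring
    constructor
    · rintro ⟨w, hw, h⟩
      exact ⟨w, hw, (key w hw).1 h⟩
    · rintro ⟨w, hw, h⟩
      exact ⟨w, hw, (key w hw).2 h⟩

end Pool.Agent.H528R2
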