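import Pool.Agent.H528R2.QDefs

/-!
# DQBF is NEXP-hard, part 1: instances with named variables

Universal variables: 7 blocks of `r` bits. Existential variables: `(c, a, b)` at level `i ≤ r`,
with `c < S`, `a, b < 7`.
-/

set_option autoImplicit false

namespace Pool.Agent.H528R2.F1

open Pool.Agent.NPC

/-- abstract literals: `inl (b, i, s)`: bit `i` of block `b` has the value `s`;
`inr (c, a, b, i, s)`: the existential variable `(c, a, b)` at level `i` has the value `s` -/
abbrev AL : Type := (ℕ × ℕ × Bool) ⊕ (ℕ × ℕ × ℕ × ℕ × Bool)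

def tr (u : ℕ → ℕ) (e : ℕ → ℕ → ℕ → ℕ → Bool) : AL → Prop :=
  Sum.elim (fun q => (u q.1).testBit q.2.1 = q.2.2)
    (fun q => e q.1 q.2.1 q.2.2.1 q.2.2.2.1 = q.2.2.2.2)

def ok (r S : ℕ) : AL → Prop :=
  Sum.elim (fun q => q.1 < 7 ∧ q.2.1 < r)
    (fun q => q.1 < S ∧ q.2.1 < 7 ∧ q.2.2.1 < 7 ∧ q.2.2.2.1 ≤ r)

/-- index of an existential variable -/
def ix (S c a b i : ℕ) : ℕ := ((i * S + c) * 7 + a) * 7 + b

/-- concrete literals -/
def conc (r S : ℕ) (l : AL) : Bool × Bool × ℕ :=
  Sum.elim (fun q : ℕ × ℕ × Bool => (false, q.2.2, q.1 * r + q.2.1))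
    (fun q : ℕ × ℕ × ℕ × ℕ × Bool => (true, q.2.2.2.2, ix S q.1 q.2.1 q.2.2.1 q.2.2.2.1)) l

/-- dependencies: the variable `g = (c, a, b)` depends on the block `x` -/
def depB (S0 g x : ℕ) : Bool :=
  if g / 49 < S0 then decide (x = g / 7 % 7) else (decide (x = g / 7 % 7) || decide (x = g % 7))

def depRow (S0 : ℕ) (U : List Unit) (g : ℕ) : List Bool :=
  (List.range 7).flatMap (fun x => U.map (fun _ => depB S0 g x))

def deps (S0 S : ℕ) (U : List Unit) : List (List Bool) :=
  (List.range (U.length + 1)).flatMap (fun _ => (List.range (S * 49)).map (fun g => depRow S0 U g))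

def inst (S0 S : ℕ) (U : List Unit) (F : List (List AL)) : DInst :=
  ((List.range 7).flatMap (fun _ => U), deps S0 S U, F.map (fun cl => cl.map (conc U.length S)))

theorem length_flatMap_range {β : Type} (f : ℕ → List β) (m : ℕ) (hf : ∀ a, (f a).length = m) :
    ∀ n, ((List.range n).flatMap f).length = n * m := by
  intro n
  induction n with
  | zero => simp
  | succ n ih =>
    rw [List.range_succ, List.flatMap_append, List.length_append, ih]
    simp only [List.flatMap_cons, List.flatMap_nil, List.append_nil, hf]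
    ring

theorem getD_flatMap_range {β : Type} (f : ℕ → List β) (m : ℕ) (hf : ∀ a, (f a).length = m)
    (d : β) : ∀ n i j : ℕ, i < n → j < m →
      ((List.range n).flatMap f).getD (i * m + j) d = (f i).getD j d := by
  intro n
  induction n with
  | zero => intro i j hi; omega
  | succ n ih =>
    intro i j hi hj
    rw [List.range_succ, List.flatMap_append]
    simp only [List.flatMap_cons, List.flatMap_nil, List.append_nil]
    have hlen := length_flatMap_range f m hf n
    by_cases hin : i < n
    · rw [List.getD_append _ _ _ _ (by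
        rw [hlen]
        calc i * m + j < i * m + m := by omega
          _ = (i + 1) * m := by ring
          _ ≤ n * m := Nat.mul_le_mul_right _ hin)]
      exact ih i j hin hj
    · have : i = n := by omega
      subst this
      rw [List.getD_append_right _ _ _ _ (by rw [hlen]; omega), hlen]
      congr 1
      omega

theorem inst_m (S0 S : ℕ) (U : List Unit) (F : List (List AL)) :
    (inst S0 S U F).m = 7 * U.length :=
  length_flatMap_range (fun _ => U) U.length (fun _ => rfl) 7

theorem inst_K (S0 S : ℕ) (U : List Unit) (F : List (List AL)) :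
    (inst S0 S U F).K = (U.length + 1) * (S * 49) :=
  length_flatMap_range _ (S * 49) (fun _ => by simp) _

theorem depRow_getD (S0 : ℕ) (U : List Unit) (g x i : ℕ) (hx : x < 7) (hi : i < U.length) :
    (depRow S0 U g).getD (x * U.length + i) false = depB S0 g x := by
  unfold depRow
  rw [getD_flatMap_range _ U.length (fun _ => by simp) false 7 x i hx hi]
  rw [List.getD_eq_getElem _ _ (by simpa using hi)]
  simp

theorem inst_dep (S0 S : ℕ) (U : List Unit) (F : List (List AL)) (g i x j : ℕ) (hg : g < S * 49)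
    (hi : i ≤ U.length) (hx : x < 7) (hj : j < U.length) :
    (inst S0 S U F).dep (i * (S * 49) + g) (x * U.length + j) = depB S0 g x := by
  unfold DInst.dep
  have h1 : ((inst S0 S U F).2.1).getD (i * (S * 49) + g) [] = depRow S0 U g := by
    change (deps S0 S U).getD (i * (S * 49) + g) [] = _
    unfold deps
    rw [getD_flatMap_range _ (S * 49) (fun _ => by simp) [] _ i g (by omega) hg]
    rw [List.getD_eq_getElem _ _ (by simpa using hg)]
    simp
  rw [h1]
  exact depRow_getD S0 U g x j hx hj

theorem ix_eq (S c a b i : ℕ) : ix S c a b i = i * (S * 49) + ((c * 7 + a) * 7 + b) := by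
  unfold ix; ring

/-- the assignment of the universal variables with given values of the blocks -/
def asgOf (r : ℕ) (u : ℕ → ℕ) (j : ℕ) : Bool := (u (j / r)).testBit (j % r)

theorem asgOf_apply {r : ℕ} (u : ℕ → ℕ) {b i : ℕ} (hi : i < r) :
    asgOf r u (b * r + i) = (u b).testBit i := by
  unfold asgOf
  have hr : 0 < r := by omega
  rw [Nat.mul_comm b r, Nat.mul_add_div hr, Nat.div_eq_of_lt hi, Nat.mul_add_mod,
    Nat.mod_eq_of_lt hi, Nat.add_zero]

theorem of_dqsat {S0 S : ℕ} {U : List Unit} {F : List (List AL)}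
    (h : DQSat (inst S0 S U F)) (hF : ∀ cl ∈ F, ∀ l ∈ cl, ok U.length S l) :
    ∃ E : (ℕ → ℕ) → ℕ → ℕ → ℕ → ℕ → Bool,
      (∀ (c a b i : ℕ) (u u' : ℕ → ℕ), c < S → a < 7 → b < 7 → i ≤ U.length →
        (∀ x < 7, depB S0 ((c * 7 + a) * 7 + b) x = true → u x = u' x) →
        E u c a b i = E u' c a b i) ∧
      ∀ u : ℕ → ℕ, ∀ cl ∈ F, ∃ l ∈ cl, tr u (E u) l := by
  obtain ⟨B, hdep, hcl⟩ := h
  refine ⟨fun u c a b i => B (ix S c a b i) (asgOf U.length u), ?_, ?_⟩
  · intro c a b i u u' hc ha hb hi huu
    have hg : (c * 7 + a) * 7 + b < S * 49 := by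
      have : (c + 1) * 49 ≤ S * 49 := Nat.mul_le_mul_right _ hc
      omega
    refine hdep _ ?_ _ _ ?_
    · rw [inst_K, ix_eq]
      calc i * (S * 49) + ((c * 7 + a) * 7 + b) < i * (S * 49) + S * 49 := by omega
        _ = (i + 1) * (S * 49) := by ring
        _ ≤ (U.length + 1) * (S * 49) := Nat.mul_le_mul_right _ (by omega)
    · intro j hj hd
      rw [inst_m] at hj
      have hr : 0 < U.length := by
        rcases Nat.eq_zero_or_pos U.length with h0 | h0
        · rw [h0] at hj; omega
        · exact h0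
      have hx : j / U.length < 7 := by
        rw [Nat.div_lt_iff_lt_mul hr]; exact hj
      have hj' : j / U.length * U.length + j % U.length = j := Nat.div_add_mod' j _
      rw [ix_eq, ← hj', inst_dep S0 S U F _ i _ _ hg hi hx (Nat.mod_lt _ hr)] at hd
      unfold asgOf
      rw [huu _ hx hd]
  · intro u cl hcl'
    obtain ⟨l', hl', ht⟩ := hcl (asgOf U.length u) (cl.map (conc U.length S))
      (List.mem_map.2 ⟨cl, hcl', rfl⟩)
    obtain ⟨l, hl, rfl⟩ := List.mem_map.1 hl'
    refine ⟨l, hl, ?_⟩
    have hok := hF cl hcl' l hl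
    rcases l with ⟨b, i, s⟩ | ⟨c, a, b, i, s⟩
    · simp only [ok, Sum.elim_inl] at hok
      simp only [DInst.litTrue, conc, Sum.elim_inl] at ht
      simp only [Bool.false_eq_true, if_false] at ht
      simp only [tr, Sum.elim_inl]
      rw [← ht.2, asgOf_apply u hok.2]
    · simp only [DInst.litTrue, conc, Sum.elim_inr, if_true] at ht
      simp only [tr, Sum.elim_inr]
      exact ht.2

/-- the number with given bits -/
def numOf (f : ℕ → Bool) : ℕ → ℕ
  | 0 => 0
  | r + 1 => numOf f r + (if f r then 2 ^ r else 0)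

theorem numOf_lt (f : ℕ → Bool) (r : ℕ) : numOf f r < 2 ^ r := by
  induction r with
  | zero => simp [numOf]
  | succ r ih =>
    rw [numOf, pow_succ]
    split_ifs <;> omega

theorem numOf_testBit (f : ℕ → Bool) (r i : ℕ) (hi : i < r) : (numOf f r).testBit i = f i := by
  induction r with
  | zero => omega
  | succ r ih =>
    rw [numOf]
    have hlt := numOf_lt f r
    by_cases hir : i = r
    · subst hir
      split_ifs with hf
      · rw [Nat.add_comm, Nat.testBit_two_pow_add_eq, Nat.testBit_lt_two_pow hlt, hf]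
        rfl
      · rw [Nat.add_zero, Nat.testBit_lt_two_pow hlt]
        simpa using hf
    · have hir' : i < r := by omega
      split_ifs with hf
      · rw [Nat.add_comm, Nat.testBit_two_pow_add_gt hir', ih hir']
      · rw [Nat.add_zero, ih hir']

theorem numOf_congr {f g : ℕ → Bool} {r : ℕ} (h : ∀ i < r, f i = g i) : numOf f r = numOf g r := by
  induction r with
  | zero => rfl
  | succ r ih => rw [numOf, numOf, ih (fun i hi => h i (by omega)), h r (by omega)]

/-- the values of the blocks for a given assignment -/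
def valOf (r : ℕ) (a : ℕ → Bool) (b : ℕ) : ℕ := numOf (fun i => a (b * r + i)) r

theorem valOf_lt (r : ℕ) (a : ℕ → Bool) (b : ℕ) : valOf r a b < 2 ^ r := numOf_lt _ _

theorem valOf_testBit (r : ℕ) (a : ℕ → Bool) (b i : ℕ) (hi : i < r) :
    (valOf r a b).testBit i = a (b * r + i) := numOf_testBit _ _ _ hi

theorem to_dqsat {S0 S : ℕ} {U : List Unit} {F : List (List AL)}
    (hF : ∀ cl ∈ F, ∀ l ∈ cl, ok U.length S l)
    (E : (ℕ → ℕ) → ℕ → ℕ → ℕ → ℕ → Bool)
    (hE : ∀ (c a b i : ℕ) (u u' : ℕ → ℕ), c < S → a < 7 → b < 7 → i ≤ U.length →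
        (∀ x < 7, depB S0 ((c * 7 + a) * 7 + b) x = true → u x = u' x) →
        E u c a b i = E u' c a b i)
    (hcl : ∀ u : ℕ → ℕ, (∀ x, u x < 2 ^ U.length) → ∀ cl ∈ F, ∃ l ∈ cl, tr u (E u) l) :
    DQSat (inst S0 S U F) := by
  refine ⟨fun k a => E (valOf U.length a) (k / 49 % S) (k / 7 % 7) (k % 7) (k / 49 / S), ?_, ?_⟩
  · intro k hk a a' haa
    rw [inst_K] at hk
    have hS : 0 < S := by
      rcases Nat.eq_zero_or_pos S with h0 | h0
      · rw [h0] at hk; omega
      · exact h0
    have hc : k / 49 % S < S := Nat.mod_lt _ hS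
    have ha : k / 7 % 7 < 7 := Nat.mod_lt _ (by norm_num)
    have hb : k % 7 < 7 := Nat.mod_lt _ (by norm_num)
    have hi : k / 49 / S ≤ U.length := by
      rw [Nat.div_div_eq_div_mul, ← Nat.lt_succ_iff]
      rw [Nat.div_lt_iff_lt_mul (by positivity), Nat.mul_comm 49 S]
      exact hk
    have hg : (k / 49 % S * 7 + k / 7 % 7) * 7 + k % 7 < S * 49 := by
      have : (k / 49 % S + 1) * 49 ≤ S * 49 := Nat.mul_le_mul_right _ hc
      omega
    have hkk : k = k / 49 / S * (S * 49) + ((k / 49 % S * 7 + k / 7 % 7) * 7 + k % 7) := by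
      have h1 := Nat.div_add_mod (k / 49) S
      have h2 : k = (k / 49) * 49 + (k / 7 % 7) * 7 + k % 7 := by omega
      calc k = (k / 49) * 49 + (k / 7 % 7) * 7 + k % 7 := h2
        _ = (S * (k / 49 / S) + k / 49 % S) * 49 + (k / 7 % 7) * 7 + k % 7 := by rw [h1]
        _ = _ := by ring
    refine hE _ _ _ _ _ _ hc ha hb hi ?_
    intro x hx hd
    apply numOf_congr
    intro j hj
    apply haa
    · rw [inst_m]
      calc x * U.length + j < x * U.length + U.length := by omega
        _ = (x + 1) * U.length := by ring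
        _ ≤ 7 * U.length := Nat.mul_le_mul_right _ hx
    · rw [hkk, inst_dep S0 S U F _ _ _ _ hg hi hx hj]
      exact hd
  · intro a cl' hcl'
    obtain ⟨cl, hc, rfl⟩ := List.mem_map.1 hcl'
    obtain ⟨l, hl, ht⟩ := hcl (valOf U.length a) (valOf_lt _ _) cl hc
    refine ⟨conc U.length S l, List.mem_map.2 ⟨l, hl, rfl⟩, ?_⟩
    have hok := hF cl hc l hl
    rcases l with ⟨b, i, s⟩ | ⟨c, a', b, i, s⟩
    · simp only [ok, Sum.elim_inl] at hok
      simp only [tr, Sum.elim_inl] at ht
      simp only [DInst.litTrue, conc, Sum.elim_inl, Bool.false_eq_true, if_false]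
      refine ⟨?_, ?_⟩
      · rw [inst_m]
        calc b * U.length + i < b * U.length + U.length := by omega
          _ = (b + 1) * U.length := by ring
          _ ≤ 7 * U.length := Nat.mul_le_mul_right _ hok.1
      · have h1 := valOf_testBit U.length a b i hok.2
        rw [← h1]
        exact ht
    · simp only [ok, Sum.elim_inr] at hok
      simp only [tr, Sum.elim_inr] at ht
      obtain ⟨h1, h2, h3, h4⟩ := hok
      simp only [DInst.litTrue, conc, Sum.elim_inr, if_true]
      have hS : 0 < S := by omega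
      have e1 : ix S c a' b i % 7 = b := by unfold ix; omega
      have e2 : ix S c a' b i / 7 % 7 = a' := by unfold ix; omega
      have e3 : ix S c a' b i / 49 = i * S + c := by unfold ix; omega
      refine ⟨?_, ?_⟩
      · rw [inst_K, ix_eq]
        have hg : (c * 7 + a') * 7 + b < S * 49 := by
          have : (c + 1) * 49 ≤ S * 49 := Nat.mul_le_mul_right _ h1
          omega
        calc i * (S * 49) + ((c * 7 + a') * 7 + b) < i * (S * 49) + S * 49 := by omega
          _ = (i + 1) * (S * 49) := by ring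
          _ ≤ (U.length + 1) * (S * 49) := Nat.mul_le_mul_right _ (by omega)
      · rw [e1, e2, e3]
        have e4 : (i * S + c) % S = c := by
          rw [Nat.mul_comm, Nat.mul_add_mod, Nat.mod_eq_of_lt h1]
        have e5 : (i * S + c) / S = i := by
          rw [Nat.mul_comm, Nat.mul_add_div hS, Nat.div_eq_of_lt h1, Nat.add_zero]
        rw [e4, e5]
        exact ht

end Pool.Agent.H528R2.F1
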