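import Pool.Agent.H528R2.Dqbf1

/-!
# DQBF is NEXP-hard, part 2: schemas

`DQSat` of the instance built from a list of schemas is equivalent to the existence of a family of
binary relations on numbers `< 2 ^ r` satisfying all instances of the schemas.
-/

set_option autoImplicit false

namespace Pool.Agent.H528R2.F1

open Pool.Agent.NPC

/-- the four auxiliary relations at level `i` -/
def rel (ρ i X Y : ℕ) : Prop :=
  if ρ = 0 then X % 2 ^ i = Y % 2 ^ i
  else if ρ = 1 then X % 2 ^ i + 1 = 2 ^ i ∧ Y % 2 ^ i = 0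
  else if ρ = 2 then Y % 2 ^ i = X % 2 ^ i + 1
  else X % 2 ^ i < Y % 2 ^ i

/-- the guards -/
def rs (ρ X Y : ℕ) : Prop := if ρ = 0 then X = Y else if ρ = 2 then Y = X + 1 else X < Y

/-- clauses of the auxiliary relations for one pair of blocks -/
def auxXY (S : ℕ) (U : List Unit) (x y : ℕ) : List (List AL) :=
  [[.inr (S, x, y, 0, true)], [.inr (S + 1, x, y, 0, true)]] ++
  (List.range U.length).flatMap fun i =>
    [[.inr (S, x, y, i, false), .inl (x, i, false), .inl (y, i, false), .inr (S, x, y, i + 1, true)],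
     [.inr (S, x, y, i, false), .inl (x, i, true), .inl (y, i, true), .inr (S, x, y, i + 1, true)],
     [.inr (S + 1, x, y, i, false), .inl (x, i, false), .inl (y, i, true),
       .inr (S + 1, x, y, i + 1, true)],
     [.inr (S + 1, x, y, i, false), .inl (x, i, true), .inl (y, i, false),
       .inr (S + 2, x, y, i + 1, true)],
     [.inr (S + 2, x, y, i, false), .inl (x, i, false), .inl (y, i, false),
       .inr (S + 2, x, y, i + 1, true)],
     [.inr (S + 2, x, y, i, false), .inl (x, i, true), .inl (y, i, true),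
       .inr (S + 2, x, y, i + 1, true)],
     [.inl (x, i, true), .inl (y, i, false), .inr (S + 3, x, y, i + 1, true)],
     [.inr (S + 3, x, y, i, false), .inl (x, i, false), .inl (y, i, false),
       .inr (S + 3, x, y, i + 1, true)],
     [.inr (S + 3, x, y, i, false), .inl (x, i, true), .inl (y, i, true),
       .inr (S + 3, x, y, i + 1, true)]]

def auxCl (S : ℕ) (U : List Unit) : List (List AL) :=
  (List.range 7).flatMap fun x => (List.range 7).flatMap fun y => auxXY S U x y

/-- consistency of the copies -/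
def consCl (S : ℕ) (U : List Unit) : List (List AL) :=
  (List.range S).flatMap fun c => (List.range 7).flatMap fun a => (List.range 7).flatMap fun b =>
    [[.inr (S, 0, a, U.length, false), .inr (S, 1, b, U.length, false), .inr (c, 0, 1, 0, false),
      .inr (c, a, b, 0, true)],
     [.inr (S, 0, a, U.length, false), .inr (S, 1, b, U.length, false), .inr (c, 0, 1, 0, true),
      .inr (c, a, b, 0, false)]]

/-- schemas: equations between blocks and constants (given by an index in the list of constants),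
blocks bounded by `2 ^ p`, relations between blocks, and literals `(sign, c, a, b)` -/
abbrev Sc : Type := List (ℕ × ℕ) × List ℕ × List (ℕ × ℕ × ℕ) × List (Bool × ℕ × ℕ × ℕ)

def expand (S : ℕ) (U : List Unit) (p : ℕ) (env : List ℕ) (sc : Sc) : List AL :=
  sc.1.flatMap (fun q => (List.range U.length).map
    (fun i => .inl (q.1, i, !((env.getD q.2 0).bits.getD i false)))) ++
  (sc.2.1.flatMap (fun b => ((List.range U.length).filter (fun i => decide (p ≤ i))).map
    (fun i => .inl (b, i, true))) ++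
  (sc.2.2.1.map (fun q => .inr (S + q.1, q.2.1, q.2.2, U.length, false)) ++
  sc.2.2.2.map (fun q => .inr (q.2.1, q.2.2.1, q.2.2.2, 0, q.1))))

def fml (S : ℕ) (U : List Unit) (p : ℕ) (env : List ℕ) (scs : List Sc) : List (List AL) :=
  auxCl S U ++ (consCl S U ++ scs.map (fun sc => expand S U p env sc))

def guard (p : ℕ) (env : List ℕ) (u : ℕ → ℕ) (sc : Sc) : Prop :=
  (∀ q ∈ sc.1, u q.1 = env.getD q.2 0) ∧ (∀ b ∈ sc.2.1, u b < 2 ^ p) ∧
  (∀ q ∈ sc.2.2.1, rs q.1 (u q.2.1) (u q.2.2))

/-- well-formed schemas -/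
def Wf (S0 S r : ℕ) (env : List ℕ) (sc : Sc) : Prop :=
  (∀ q ∈ sc.1, q.1 < 7 ∧ env.getD q.2 0 < 2 ^ r) ∧ (∀ b ∈ sc.2.1, b < 7) ∧
  (∀ q ∈ sc.2.2.1, q.1 < 4 ∧ q.1 ≠ 1 ∧ q.2.1 < 7 ∧ q.2.2 < 7) ∧
  (∀ q ∈ sc.2.2.2, q.2.1 < S ∧ 2 ≤ q.2.2.1 ∧ q.2.2.1 < 7 ∧ 1 ≤ q.2.2.2 ∧ q.2.2.2 < 7 ∧
    (q.2.2.2 = 1 → q.2.1 < S0))

/-- satisfaction of the schemas by a family of relations -/
def SSat (S0 r p : ℕ) (env : List ℕ) (scs : List Sc) (T : ℕ → ℕ → ℕ → Bool) : Prop :=
  (∀ c < S0, ∀ X Y Y', T c X Y = T c X Y') ∧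
  ∀ u : ℕ → ℕ, (∀ x, u x < 2 ^ r) → ∀ sc ∈ scs, guard p env u sc →
    ∃ q ∈ sc.2.2.2, T q.2.1 (u q.2.2.1) (u q.2.2.2) = q.1

theorem getD_bits (n i : ℕ) : n.bits.getD i false = n.testBit i := by
  rw [Nat.testBit_eq_inth, List.getI_eq_getElem?_getD]
  rw [List.getD_eq_getElem?_getD]
  cases h : n.bits[i]? <;> simp

theorem mod_succ (x i : ℕ) : x % 2 ^ (i + 1) = x % 2 ^ i + (if x.testBit i then 2 ^ i else 0) := by
  rw [Nat.mod_pow_succ, Nat.testBit_eq_decide_div_mod_eq]
  have h : x / 2 ^ i % 2 = 0 ∨ x / 2 ^ i % 2 = 1 := by omega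
  rcases h with h | h <;> simp [h]

/-- forced truth of the relations -/
theorem aux_forced {S : ℕ} {U : List Unit} {u : ℕ → ℕ} {e : ℕ → ℕ → ℕ → ℕ → Bool} {x y : ℕ}
    (h : ∀ cl ∈ auxXY S U x y, ∃ l ∈ cl, tr u e l) :
    ∀ i ≤ U.length, (rel 0 i (u x) (u y) → e S x y i = true) ∧
      (rel 1 i (u x) (u y) → e (S + 1) x y i = true) ∧
      (rel 2 i (u x) (u y) → e (S + 2) x y i = true) ∧
      (rel 3 i (u x) (u y) → e (S + 3) x y i = true) := by
  intro i
  induction i with
  | zero =>
    intro _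
    have h0 := h [.inr (S, x, y, 0, true)] (by simp [auxXY])
    have h1 := h [.inr (S + 1, x, y, 0, true)] (by simp [auxXY])
    simp only [List.mem_singleton, exists_eq_left, tr, Sum.elim_inr] at h0 h1
    refine ⟨fun _ => h0, fun _ => h1, ?_, ?_⟩
    · intro h2; simp [rel, Nat.mod_one] at h2
    · intro h2; simp [rel, Nat.mod_one] at h2
  | succ i ih =>
    intro hi
    obtain ⟨i0, i1, i2, i3⟩ := ih (by omega)
    have hc : ∀ cl ∈ ([[.inr (S, x, y, i, false), .inl (x, i, false), .inl (y, i, false),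
          .inr (S, x, y, i + 1, true)],
        [.inr (S, x, y, i, false), .inl (x, i, true), .inl (y, i, true),
          .inr (S, x, y, i + 1, true)],
        [.inr (S + 1, x, y, i, false), .inl (x, i, false), .inl (y, i, true),
          .inr (S + 1, x, y, i + 1, true)],
        [.inr (S + 1, x, y, i, false), .inl (x, i, true), .inl (y, i, false),
          .inr (S + 2, x, y, i + 1, true)],
        [.inr (S + 2, x, y, i, false), .inl (x, i, false), .inl (y, i, false),
          .inr (S + 2, x, y, i + 1, true)],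
        [.inr (S + 2, x, y, i, false), .inl (x, i, true), .inl (y, i, true),
          .inr (S + 2, x, y, i + 1, true)],
        [.inl (x, i, true), .inl (y, i, false), .inr (S + 3, x, y, i + 1, true)],
        [.inr (S + 3, x, y, i, false), .inl (x, i, false), .inl (y, i, false),
          .inr (S + 3, x, y, i + 1, true)],
        [.inr (S + 3, x, y, i, false), .inl (x, i, true), .inl (y, i, true),
          .inr (S + 3, x, y, i + 1, true)]] : List (List AL)), ∃ l ∈ cl, tr u e l := by
      intro cl hcl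
      apply h
      unfold auxXY
      rw [List.mem_append]
      right
      rw [List.mem_flatMap]
      exact ⟨i, List.mem_range.2 (by omega), hcl⟩
    simp only [List.mem_cons, List.not_mem_nil, or_false, forall_eq_or_imp, forall_eq,
      exists_eq_or_imp, exists_eq_left, tr, Sum.elim_inl, Sum.elim_inr] at hc
    obtain ⟨c1, c2, c3, c4, c5, c6, c7, c8, c9⟩ := hc
    have hX := mod_succ (u x) i
    have hY := mod_succ (u y) i
    have hXl : u x % 2 ^ i < 2 ^ i := Nat.mod_lt _ (by positivity)
    have hYl : u y % 2 ^ i < 2 ^ i := Nat.mod_lt _ (by positivity)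
    have hpow : 2 ^ (i + 1) = 2 * 2 ^ i := by rw [pow_succ]; ring
    have r0 : ∀ j, rel 0 j (u x) (u y) ↔ u x % 2 ^ j = u y % 2 ^ j := fun j => by simp [rel]
    have r1 : ∀ j, rel 1 j (u x) (u y) ↔ u x % 2 ^ j + 1 = 2 ^ j ∧ u y % 2 ^ j = 0 :=
      fun j => by simp [rel]
    have r2 : ∀ j, rel 2 j (u x) (u y) ↔ u y % 2 ^ j = u x % 2 ^ j + 1 := fun j => by simp [rel]
    have r3 : ∀ j, rel 3 j (u x) (u y) ↔ u x % 2 ^ j < u y % 2 ^ j := fun j => by simp [rel]
    rw [r0, r1, r2, r3]
    rw [r0] at i0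
    rw [r1] at i1
    rw [r2] at i2
    rw [r3] at i3
    rw [hX, hY, hpow]
    generalize u x % 2 ^ i = X at *
    generalize u y % 2 ^ i = Y at *
    generalize 2 ^ i = M at *
    cases hbx : (u x).testBit i <;> cases hby : (u y).testBit i <;>
      simp only [hbx, hby, Bool.false_eq_true, if_false, if_true, false_or,
        reduceCtorEq, true_or, Nat.add_zero] at * 
    · refine ⟨fun hh => ?_, fun hh => ?_, fun hh => ?_, fun hh => ?_⟩
      · have := i0 (by omega); simp_all
      · omega
      · have := i2 (by omega); simp_all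
      · have := i3 (by omega); simp_all
    · refine ⟨fun hh => ?_, fun hh => ?_, fun hh => ?_, fun hh => ?_⟩
      · omega
      · omega
      · have := i1 (by omega); simp_all
      · simp_all
    · refine ⟨fun hh => ?_, fun hh => ?_, fun hh => ?_, fun hh => ?_⟩
      · omega
      · have := i1 (by omega); simp_all
      · omega
      · omega
    · refine ⟨fun hh => ?_, fun hh => ?_, fun hh => ?_, fun hh => ?_⟩
      · have := i0 (by omega); simp_all
      · omega
      · have := i2 (by omega); simp_all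
      · have := i3 (by omega); simp_all

open Classical in
/-- the relations satisfy their clauses -/
theorem aux_true {S : ℕ} {U : List Unit} {u : ℕ → ℕ} {e : ℕ → ℕ → ℕ → ℕ → Bool} {x y : ℕ}
    (he : ∀ ρ < 4, ∀ i, e (S + ρ) x y i = decide (rel ρ i (u x) (u y))) :
    ∀ cl ∈ auxXY S U x y, ∃ l ∈ cl, tr u e l := by
  have e0 : ∀ i, (e S x y i = true ↔ u x % 2 ^ i = u y % 2 ^ i) := fun i => by
    have := he 0 (by norm_num) i
    simp only [Nat.add_zero] at this
    rw [this]; simp [rel]
  have e1 : ∀ i, (e (S + 1) x y i = true ↔ u x % 2 ^ i + 1 = 2 ^ i ∧ u y % 2 ^ i = 0) := fun i => by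
    rw [he 1 (by norm_num) i]; simp [rel]
  have e2 : ∀ i, (e (S + 2) x y i = true ↔ u y % 2 ^ i = u x % 2 ^ i + 1) := fun i => by
    rw [he 2 (by norm_num) i]; simp [rel]
  have e3 : ∀ i, (e (S + 3) x y i = true ↔ u x % 2 ^ i < u y % 2 ^ i) := fun i => by
    rw [he 3 (by norm_num) i]; simp [rel]
  have f0 : ∀ i, (e S x y i = false ↔ ¬ (u x % 2 ^ i = u y % 2 ^ i)) := fun i => by
    rw [← e0]; simp
  have f1 : ∀ i, (e (S + 1) x y i = false ↔ ¬ (u x % 2 ^ i + 1 = 2 ^ i ∧ u y % 2 ^ i = 0)) :=
    fun i => by rw [← e1]; simp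
  have f2 : ∀ i, (e (S + 2) x y i = false ↔ ¬ (u y % 2 ^ i = u x % 2 ^ i + 1)) := fun i => by
    rw [← e2]; simp
  have f3 : ∀ i, (e (S + 3) x y i = false ↔ ¬ (u x % 2 ^ i < u y % 2 ^ i)) := fun i => by
    rw [← e3]; simp
  intro cl hcl
  unfold auxXY at hcl
  rw [List.mem_append] at hcl
  rcases hcl with hcl | hcl
  · simp only [List.mem_cons, List.not_mem_nil, or_false] at hcl
    rcases hcl with rfl | rfl
    · simp [tr, e0, Nat.mod_one]
    · simp [tr, e1, Nat.mod_one]
  · rw [List.mem_flatMap] at hcl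
    obtain ⟨i, _, hcl⟩ := hcl
    have hX := mod_succ (u x) i
    have hY := mod_succ (u y) i
    have hXl : u x % 2 ^ i < 2 ^ i := Nat.mod_lt _ (by positivity)
    have hYl : u y % 2 ^ i < 2 ^ i := Nat.mod_lt _ (by positivity)
    have hpow : 2 ^ (i + 1) = 2 * 2 ^ i := by rw [pow_succ]; ring
    simp only [List.mem_cons, List.not_mem_nil, or_false] at hcl
    rcases hcl with rfl | rfl | rfl | rfl | rfl | rfl | rfl | rfl | rfl <;>
      simp only [List.mem_cons, List.not_mem_nil, or_false, exists_eq_or_imp, exists_eq_left, tr,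
        Sum.elim_inl, Sum.elim_inr, e0, e1, e2, e3, f0, f1, f2, f3, hX, hY] <;>
      try simp only [hpow]
    all_goals
      (clear hX hY hpow
       generalize u x % 2 ^ i = X at *
       generalize u y % 2 ^ i = Y at *
       generalize 2 ^ i = M at *
       cases (u x).testBit i <;> cases (u y).testBit i <;>
         simp only [Bool.false_eq_true, if_false, if_true, reduceCtorEq, or_true, true_or, false_or,
           or_false, Nat.add_zero] <;> omega)

end Pool.Agent.H528R2.F1
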