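import Pool.Agent.H528R2.Dqbf2

/-!
# DQBF is NEXP-hard, part 3: the instance of a list of schemas
-/

set_option autoImplicit false

namespace Pool.Agent.H528R2.F1

open Pool.Agent.NPC

/-- the instance of a list of schemas -/
def build (S0 S : ℕ) (U : List Unit) (p : ℕ) (env : List ℕ) (scs : List Sc) : DInst :=
  inst S0 (S + 4) U (fml S U p env scs)

theorem mem_auxCl {S : ℕ} {U : List Unit} {cl : List AL} :
    cl ∈ auxCl S U ↔ ∃ x < 7, ∃ y < 7, cl ∈ auxXY S U x y := by
  simp [auxCl, List.mem_flatMap]

theorem mem_consCl {S : ℕ} {U : List Unit} {cl : List AL} :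
    cl ∈ consCl S U ↔ ∃ c < S, ∃ a < 7, ∃ b < 7,
      cl = [.inr (S, 0, a, U.length, false), .inr (S, 1, b, U.length, false),
        .inr (c, 0, 1, 0, false), .inr (c, a, b, 0, true)] ∨
      cl = [.inr (S, 0, a, U.length, false), .inr (S, 1, b, U.length, false),
        .inr (c, 0, 1, 0, true), .inr (c, a, b, 0, false)] := by
  simp [consCl, List.mem_flatMap]

theorem auxXY_ok {S : ℕ} {U : List Unit} {x y : ℕ} (hx : x < 7) (hy : y < 7) {cl : List AL}
    (h : cl ∈ auxXY S U x y) : ∀ l ∈ cl, ok U.length (S + 4) l := by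
  unfold auxXY at h
  rw [List.mem_append, List.mem_flatMap] at h
  rcases h with h | ⟨i, hi, h⟩
  · simp only [List.mem_cons, List.not_mem_nil, or_false] at h
    rcases h with rfl | rfl <;> simp [ok, hx, hy]
  · rw [List.mem_range] at hi
    simp only [List.mem_cons, List.not_mem_nil, or_false] at h
    rcases h with rfl | rfl | rfl | rfl | rfl | rfl | rfl | rfl | rfl <;>
      simp [ok, hx, hy, hi] <;> omega

theorem fml_ok {S0 S p : ℕ} {U : List Unit} {env : List ℕ} {scs : List Sc}
    (hw : ∀ sc ∈ scs, Wf S0 S U.length env sc) :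
    ∀ cl ∈ fml S U p env scs, ∀ l ∈ cl, ok U.length (S + 4) l := by
  intro cl hcl
  unfold fml at hcl
  rw [List.mem_append, List.mem_append] at hcl
  rcases hcl with hcl | hcl | hcl
  · obtain ⟨x, hx, y, hy, h⟩ := mem_auxCl.1 hcl
    exact auxXY_ok hx hy h
  · obtain ⟨c, hc, a, ha, b, hb, h⟩ := mem_consCl.1 hcl
    rcases h with rfl | rfl <;> simp [ok, ha, hb] <;> omega
  · obtain ⟨sc, hsc, rfl⟩ := List.mem_map.1 hcl
    obtain ⟨w1, w2, w3, w4⟩ := hw sc hsc
    intro l hl
    unfold expand at hl
    rw [List.mem_append, List.mem_append, List.mem_append] at hl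
    rcases hl with hl | hl | hl | hl
    · obtain ⟨q, hq, hl⟩ := List.mem_flatMap.1 hl
      obtain ⟨i, hi, rfl⟩ := List.mem_map.1 hl
      exact ⟨(w1 q hq).1, List.mem_range.1 hi⟩
    · obtain ⟨b, hb, hl⟩ := List.mem_flatMap.1 hl
      obtain ⟨i, hi, rfl⟩ := List.mem_map.1 hl
      exact ⟨w2 b hb, List.mem_range.1 (List.mem_filter.1 hi).1⟩
    · obtain ⟨q, hq, rfl⟩ := List.mem_map.1 hl
      obtain ⟨h1, h2, h3, h4⟩ := w3 q hq
      exact ⟨by simp only; omega, h3, h4, le_rfl⟩
    · obtain ⟨q, hq, rfl⟩ := List.mem_map.1 hl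
      obtain ⟨h1, h2, h3, h4, h5, h6⟩ := w4 q hq
      exact ⟨by simp only; omega, h3, h5, Nat.zero_le _⟩

theorem rel_of_rs {ρ r X Y : ℕ} (hρ : ρ < 4) (hρ1 : ρ ≠ 1) (hX : X < 2 ^ r) (hY : Y < 2 ^ r)
    (h : rs ρ X Y) : rel ρ r X Y := by
  unfold rel
  unfold rs at h
  rw [Nat.mod_eq_of_lt hX, Nat.mod_eq_of_lt hY]
  interval_cases ρ
  · simpa using h
  · omega
  · simpa using h
  · simpa using h

theorem rs_of_rel {ρ r X Y : ℕ} (hρ : ρ < 4) (hρ1 : ρ ≠ 1) (hX : X < 2 ^ r) (hY : Y < 2 ^ r)
    (h : rel ρ r X Y) : rs ρ X Y := by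
  unfold rel at h
  unfold rs
  rw [Nat.mod_eq_of_lt hX, Nat.mod_eq_of_lt hY] at h
  interval_cases ρ
  · simpa using h
  · omega
  · simpa using h
  · simpa using h

theorem eq_of_bits {r X Y : ℕ} (hX : X < 2 ^ r) (hY : Y < 2 ^ r)
    (h : ∀ i < r, X.testBit i = Y.testBit i) : X = Y := by
  apply Nat.eq_of_testBit_eq
  intro i
  by_cases hi : i < r
  · exact h i hi
  · have h2 : 2 ^ r ≤ 2 ^ i := Nat.pow_le_pow_right (by norm_num) (by omega)
    rw [Nat.testBit_lt_two_pow (hX.trans_le h2), Nat.testBit_lt_two_pow (hY.trans_le h2)]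

theorem lt_of_bits {r p X : ℕ} (hX : X < 2 ^ r)
    (h : ∀ i < r, p ≤ i → X.testBit i = false) : X < 2 ^ p := by
  apply Nat.lt_pow_two_of_testBit
  intro i hi
  by_cases hir : i < r
  · exact h i hir hi
  · have h2 : 2 ^ r ≤ 2 ^ i := Nat.pow_le_pow_right (by norm_num) (by omega)
    rw [Nat.testBit_lt_two_pow (hX.trans_le h2)]

theorem build_sound {S0 S p : ℕ} {U : List Unit} {env : List ℕ} {scs : List Sc} (hS : S0 ≤ S)
    (hw : ∀ sc ∈ scs, Wf S0 S U.length env sc) {T : ℕ → ℕ → ℕ → Bool}
    (hT : SSat S0 U.length p env scs T) : DQSat (build S0 S U p env scs) := by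
  classical
  obtain ⟨hT1, hT2⟩ := hT
  refine to_dqsat (fml_ok hw) (fun u c a b i => if c < S then T c (u a) (u b) else
    decide (rel (c - S) i (u a) (u b))) ?_ ?_
  · intro c a b i u u' hc ha hb hi huu
    have e1 : ((c * 7 + a) * 7 + b) / 49 = c := by omega
    have e2 : ((c * 7 + a) * 7 + b) / 7 % 7 = a := by omega
    have e3 : ((c * 7 + a) * 7 + b) % 7 = b := by omega
    unfold depB at huu
    rw [e1, e2, e3] at huu
    by_cases hc0 : c < S0
    · simp only [hc0, if_true, decide_eq_true_eq] at huu
      have h1 := huu a ha rfl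
      have hcS : c < S := by omega
      simp only [hcS, if_true]
      rw [h1]; exact hT1 c hc0 _ _ _
    · simp only [hc0, if_false, Bool.or_eq_true, decide_eq_true_eq] at huu
      rw [huu a ha (Or.inl rfl), huu b hb (Or.inr rfl)]
  · intro u hu cl hcl
    unfold fml at hcl
    rw [List.mem_append, List.mem_append] at hcl
    rcases hcl with hcl | hcl | hcl
    · obtain ⟨x, hx, y, hy, h⟩ := mem_auxCl.1 hcl
      refine aux_true ?_ cl h
      intro ρ hρ i
      have : ¬ (S + ρ < S) := by omega
      simp only [this, if_false, Nat.add_sub_cancel_left]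
    · obtain ⟨c, hc, a, ha, b, hb, h⟩ := mem_consCl.1 hcl
      have key : rel 0 U.length (u 0) (u a) → rel 0 U.length (u 1) (u b) →
          T c (u 0) (u 1) = T c (u a) (u b) := by
        intro h1 h2
        have h1' := rs_of_rel (by norm_num) (by norm_num) (hu 0) (hu a) h1
        have h2' := rs_of_rel (by norm_num) (by norm_num) (hu 1) (hu b) h2
        simp only [rs, if_true] at h1' h2'
        rw [h1', h2']
      by_cases h1 : rel 0 U.length (u 0) (u a)
      · by_cases h2 : rel 0 U.length (u 1) (u b)
        · have h3 := key h1 h2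
          rcases h with rfl | rfl <;>
            simp only [List.mem_cons, List.not_mem_nil, or_false, exists_eq_or_imp,
              exists_eq_left, tr, Sum.elim_inr, hc, if_true, h3] <;>
            cases T c (u a) (u b) <;> simp
        · rcases h with rfl | rfl <;>
            simp [tr, h2]
      · rcases h with rfl | rfl <;>
            simp [tr, h1]
    · obtain ⟨sc, hsc, rfl⟩ := List.mem_map.1 hcl
      obtain ⟨w1, w2, w3, w4⟩ := hw sc hsc
      by_contra hcon
      push Not at hcon
      have hg : guard p env u sc := by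
        refine ⟨?_, ?_, ?_⟩
        · intro q hq
          refine eq_of_bits (hu _) (w1 q hq).2 ?_
          intro i hi
          have := hcon (.inl (q.1, i, !((env.getD q.2 0).bits.getD i false))) (by
            unfold expand
            rw [List.mem_append]
            left
            exact List.mem_flatMap.2 ⟨q, hq, List.mem_map.2 ⟨i, List.mem_range.2 hi, rfl⟩⟩)
          simp only [tr, Sum.elim_inl, getD_bits] at this
          cases h1 : (u q.1).testBit i <;> cases h2 : (env.getD q.2 0).testBit i <;> simp_all
        · intro b hb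
          refine lt_of_bits (hu _) ?_
          intro i hi hpi
          have := hcon (.inl (b, i, true)) (by
            unfold expand
            rw [List.mem_append, List.mem_append]
            right; left
            exact List.mem_flatMap.2 ⟨b, hb, List.mem_map.2 ⟨i, List.mem_filter.2
              ⟨List.mem_range.2 hi, decide_eq_true hpi⟩, rfl⟩⟩)
          simpa [tr] using this
        · intro q hq
          obtain ⟨h1, h2, h3, h4⟩ := w3 q hq
          have := hcon (.inr (S + q.1, q.2.1, q.2.2, U.length, false)) (by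
            unfold expand
            rw [List.mem_append, List.mem_append, List.mem_append]
            right; right; left
            exact List.mem_map.2 ⟨q, hq, rfl⟩)
          have hn : ¬ (S + q.1 < S) := by omega
          simp only [tr, Sum.elim_inr, hn, if_false, Nat.add_sub_cancel_left,
            Bool.not_eq_false, decide_eq_true_eq] at this
          exact rs_of_rel h1 h2 (hu _) (hu _) this
      obtain ⟨q, hq, ht⟩ := hT2 u hu sc hsc hg
      apply hcon (.inr (q.2.1, q.2.2.1, q.2.2.2, 0, q.1)) (by
        unfold expand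
        rw [List.mem_append, List.mem_append, List.mem_append]
        right; right; right
        exact List.mem_map.2 ⟨q, hq, rfl⟩)
      simp only [tr, Sum.elim_inr, (w4 q hq).1, if_true]
      exact ht

theorem build_complete {S0 S p : ℕ} {U : List Unit} {env : List ℕ} {scs : List Sc}
    (hS : S0 ≤ S) (hw : ∀ sc ∈ scs, Wf S0 S U.length env sc)
    (h : DQSat (build S0 S U p env scs)) : ∃ T, SSat S0 U.length p env scs T := by
  obtain ⟨E, hE, hcl⟩ := of_dqsat h (fml_ok hw)
  refine ⟨fun c X Y => E (fun x => if x = 0 then X else if x = 1 then Y else 0) c 0 1 0, ?_, ?_⟩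
  · intro c hc X Y Y'
    apply hE c 0 1 0 _ _ (by omega) (by norm_num) (by norm_num) (Nat.zero_le _)
    intro x hx hd
    have e1 : ((c * 7 + 0) * 7 + 1) / 49 = c := by omega
    have e2 : ((c * 7 + 0) * 7 + 1) / 7 % 7 = 0 := by omega
    unfold depB at hd
    rw [e1, e2] at hd
    simp only [hc, if_true, decide_eq_true_eq] at hd
    subst hd
    simp
  · intro u hu sc hsc hg
    obtain ⟨w1, w2, w3, w4⟩ := hw sc hsc
    -- the relations are forced
    have hforce : ∀ (v : ℕ → ℕ) (x y : ℕ), x < 7 → y < 7 → ∀ ρ < 4,
        rel ρ U.length (v x) (v y) → E v (S + ρ) x y U.length = true := by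
      intro v x y hx hy ρ hρ hr
      have hcl' : ∀ cl ∈ auxXY S U x y, ∃ l ∈ cl, tr v (E v) l := by
        intro cl h'
        apply hcl v cl
        unfold fml
        rw [List.mem_append]
        left
        exact mem_auxCl.2 ⟨x, hx, y, hy, h'⟩
      obtain ⟨f0, f1, f2, f3⟩ := aux_forced hcl' U.length le_rfl
      interval_cases ρ
      · exact f0 hr
      · exact f1 hr
      · exact f2 hr
      · exact f3 hr
    -- the copies agree
    have hcopy : ∀ c a b, c < S → 2 ≤ a → a < 7 → 1 ≤ b → b < 7 → (b = 1 → c < S0) →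
        E u c a b 0 = E (fun x => if x = 0 then u a else if x = 1 then u b else 0) c 0 1 0 := by
      intro c a b hc ha ha' hb hb' hbc
      set v : ℕ → ℕ := fun x => if x = 0 then u a else if x = 1 then u b else u x with hv
      have va : v a = u a := by
        have h1 : a ≠ 0 := by omega
        have h2 : a ≠ 1 := by omega
        simp [hv, h1, h2]
      have vb : v b = u b := by
        have h1 : b ≠ 0 := by omega
        by_cases h2 : b = 1
        · simp [hv, h2]
        · simp [hv, h1, h2]
      have v0 : v 0 = u a := by simp [hv]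
      have v1 : v 1 = u b := by simp [hv]
      have e1 : E u c a b 0 = E v c a b 0 := by
        apply hE c a b 0 _ _ (by omega) ha' hb' (Nat.zero_le _)
        intro x hx hd
        have e1 : ((c * 7 + a) * 7 + b) / 49 = c := by omega
        have e2 : ((c * 7 + a) * 7 + b) / 7 % 7 = a := by omega
        have e3 : ((c * 7 + a) * 7 + b) % 7 = b := by omega
        unfold depB at hd
        rw [e1, e2, e3] at hd
        have hx' : x = a ∨ x = b := by
          split_ifs at hd
          · left; simpa using hd
          · simpa using hd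
        rcases hx' with rfl | rfl
        · exact va.symm
        · exact vb.symm
      have e2 : E v c 0 1 0 =
          E (fun x => if x = 0 then u a else if x = 1 then u b else 0) c 0 1 0 := by
        apply hE c 0 1 0 _ _ (by omega) (by norm_num) (by norm_num) (Nat.zero_le _)
        intro x hx hd
        have e1 : ((c * 7 + 0) * 7 + 1) / 49 = c := by omega
        have e2 : ((c * 7 + 0) * 7 + 1) / 7 % 7 = 0 := by omega
        have e3 : ((c * 7 + 0) * 7 + 1) % 7 = 1 := by omega
        unfold depB at hd
        rw [e1, e2, e3] at hd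
        have hx' : x = 0 ∨ x = 1 := by
          split_ifs at hd
          · left; simpa using hd
          · simpa using hd
        rcases hx' with rfl | rfl
        · simp [hv]
        · simp [hv]
      have q0 : E v S 0 a U.length = true := by
        have := hforce v 0 a (by norm_num) ha' 0 (by norm_num) (by rw [v0, va]; simp [rel])
        simpa using this
      have q1 : E v S 1 b U.length = true := by
        have := hforce v 1 b (by norm_num) hb' 0 (by norm_num) (by rw [v1, vb]; simp [rel])
        simpa using this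
      have c1 := hcl v [.inr (S, 0, a, U.length, false), .inr (S, 1, b, U.length, false),
        .inr (c, 0, 1, 0, false), .inr (c, a, b, 0, true)] (by
          unfold fml
          rw [List.mem_append, List.mem_append]
          right; left
          exact mem_consCl.2 ⟨c, hc, a, ha', b, hb', Or.inl rfl⟩)
      have c2 := hcl v [.inr (S, 0, a, U.length, false), .inr (S, 1, b, U.length, false),
        .inr (c, 0, 1, 0, true), .inr (c, a, b, 0, false)] (by
          unfold fml
          rw [List.mem_append, List.mem_append]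
          right; left
          exact mem_consCl.2 ⟨c, hc, a, ha', b, hb', Or.inr rfl⟩)
      simp only [List.mem_cons, List.not_mem_nil, or_false, exists_eq_or_imp,
        exists_eq_left, tr, Sum.elim_inr, q0, q1, reduceCtorEq, false_or] at c1 c2
      rw [e1, ← e2]
      clear e1 e2 q0 q1 hforce hcl hE h hw
      revert c1 c2
      generalize E v c 0 1 0 = A
      generalize E v c a b 0 = B
      cases A <;> cases B <;> simp
    obtain ⟨g1, g2, g3⟩ := hg
    obtain ⟨l, hl, ht⟩ := hcl u (expand S U p env sc) (by
      unfold fml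
      rw [List.mem_append, List.mem_append]
      right; right
      exact List.mem_map.2 ⟨sc, hsc, rfl⟩)
    unfold expand at hl
    rw [List.mem_append, List.mem_append, List.mem_append] at hl
    rcases hl with hl | hl | hl | hl
    · obtain ⟨q, hq, hl⟩ := List.mem_flatMap.1 hl
      obtain ⟨i, hi, rfl⟩ := List.mem_map.1 hl
      exfalso
      simp only [tr, Sum.elim_inl, getD_bits, g1 q hq] at ht
      cases h1 : (env.getD q.2 0).testBit i <;> simp_all
    · obtain ⟨b, hb, hl⟩ := List.mem_flatMap.1 hl
      obtain ⟨i, hi, rfl⟩ := List.mem_map.1 hl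
      exfalso
      have hpi : p ≤ i := of_decide_eq_true (List.mem_filter.1 hi).2
      have h2 : 2 ^ p ≤ 2 ^ i := Nat.pow_le_pow_right (by norm_num) hpi
      simp only [tr, Sum.elim_inl] at ht
      rw [Nat.testBit_lt_two_pow ((g2 b hb).trans_le h2)] at ht
      simp at ht
    · obtain ⟨q, hq, rfl⟩ := List.mem_map.1 hl
      exfalso
      obtain ⟨h1, h2, h3, h4⟩ := w3 q hq
      have := hforce u q.2.1 q.2.2 h3 h4 q.1 h1 (rel_of_rs h1 h2 (hu _) (hu _) (g3 q hq))
      simp only [tr, Sum.elim_inr] at ht
      rw [this] at ht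
      simp at ht
    · obtain ⟨q, hq, rfl⟩ := List.mem_map.1 hl
      obtain ⟨h1, h2, h3, h4, h5, h6⟩ := w4 q hq
      refine ⟨q, hq, ?_⟩
      simp only [tr, Sum.elim_inr] at ht
      rw [hcopy _ _ _ h1 h2 h3 h4 h5 h6] at ht
      exact ht

end Pool.Agent.H528R2.F1
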