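import Pool.Agent.H528R2.Dqbf3
import Pool.Agent.NPC.CookLevin3

/-!
# DQBF is NEXP-hard, part 4: the schemas of a machine
-/

set_option autoImplicit false

namespace Pool.Agent.H528R2.F1

open Pool.Agent.NPC Pool.Agent.NPC.CL

variable {Q K A : Type} [Fintype Q] [Fintype K] [Fintype A]

/-- function symbols -/
abbrev Sy (Q K A : Type) : Type := Q ⊕ K ⊕ (K × Option A)

/-- the propositional variable of a symbol -/
def sym : Sy Q K A → ℕ → ℕ → Var Q K A :=
  Sum.elim (fun q X _ => .st X q) (Sum.elim (fun k X Y => .hp X k Y)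
    (fun ko X Y => .ce X ko.1 Y ko.2))

/-- block variables -/
abbrev BV (Q K A : Type) : Type := Sy Q K A × ℕ × ℕ

def bst (q : Q) (a : ℕ) : BV Q K A := (.inl q, a, 1)
def bhp (k : K) (a b : ℕ) : BV Q K A := (.inr (.inl k), a, b)
def bce (k : K) (o : Option A) (a b : ℕ) : BV Q K A := (.inr (.inr (k, o)), a, b)

def evv (u : ℕ → ℕ) (v : BV Q K A) : Var Q K A := sym v.1 (u v.2.1) (u v.2.2)

/-- schemas over block variables -/
abbrev Asc (Q K A : Type) : Type :=
  List (ℕ × ℕ) × List ℕ × List (ℕ × ℕ × ℕ) × List (Bool × BV Q K A)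

def instc (u : ℕ → ℕ) (asc : Asc Q K A) : List (Bool × Var Q K A) :=
  asc.2.2.2.map (fun l => (l.1, evv u l.2))

def AGuard (p : ℕ) (env : List ℕ) (u : ℕ → ℕ) (asc : Asc Q K A) : Prop :=
  (∀ q ∈ asc.1, u q.1 = env.getD q.2 0) ∧ (∀ b ∈ asc.2.1, u b < 2 ^ p) ∧
  (∀ q ∈ asc.2.2.1, rs q.1 (u q.2.1) (u q.2.2))

/-- the block of the new pointer -/
def ptrB (op : Op A) (o : Option A) : ℕ :=
  match op with
  | .keep => 5
  | .pop => match o with
    | none => 5
    | some _ => 4
  | .push _ => 6

variable [DecidableEq K] (D : Tab Q K A)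

def rdA (q : Q) (o : Option A) (g1 : List (ℕ × ℕ)) (g3 : List (ℕ × ℕ × ℕ))
    (ps : List (BV Q K A)) : List (Asc Q K A) :=
  (g1, [], g3, imp (bst q 2 :: bhp (D.M.κ q) 2 5 :: ps) (bst (D.M.δ q o).1 3)) ::
  (g1, [], g3, imp (bst q 2 :: bhp (D.M.κ q) 2 5 :: ps)
    (bhp (D.M.κ q) 3 (ptrB (D.M.δ q o).2 o))) ::
  (match (D.M.δ q o).2 with
    | Op.push a => [(g1, [], g3, imp (bst q 2 :: bhp (D.M.κ q) 2 5 :: ps)
        (bce (D.M.κ q) (some a) 3 5))]
    | _ => [])

def trA (q : Q) : List (Asc Q K A) :=
  rdA D q none [(5, 0)] [(2, 2, 3), (2, 5, 6)] [] ++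
  D.os.flatMap (fun o => rdA D q o [] [(2, 2, 3), (2, 5, 6), (2, 4, 5)] [bce (D.M.κ q) o 2 4])

def fpA (q : Q) : List (Asc Q K A) :=
  (D.ks.filter (fun k => decide (k ≠ D.M.κ q))).map
    (fun k => ([], [], [(2, 2, 3)], imp [bst q 2, bhp k 2 5] (bhp k 3 5)))

def fmA : List (Asc Q K A) :=
  D.ks.flatMap (fun k => D.os.map (fun o =>
    ([], [], [(2, 2, 3), (3, 4, 5)], imp [bhp k 2 5, bce k o 2 4] (bce k o 3 4))))

def inA : List (Asc Q K A) :=
  ([(2, 0)], [], [], [(true, bst D.q₀ 2)]) ::
  (D.ks.map (fun k => ([(2, 0), (5, if k = D.k₀ then 2 else 0)], [], [], [(true, bhp k 2 5)])) ++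
  [([(2, 0)], [4], [], [(true, bce D.k₀ none 2 4), (true, bce D.k₀ (some (D.sym false)) 2 4),
      (true, bce D.k₀ (some (D.sym true)) 2 4)]),
   ([(2, 0)], [5], [(2, 4, 5)], imp [bce D.k₀ none 2 5] (bce D.k₀ none 2 4))])

def fiA : List (Asc Q K A) :=
  (D.qs.filter (fun q => !(D.acc q))).map (fun q => ([(2, 1)], [], [], forb [bst q 2])) ++
  ([([(2, 1), (5, 0)], [], [], forb [bhp D.k₁ 2 5])] ++
  ((D.os.filter (fun o => !(D.good o))).map
    (fun o => ([(2, 1)], [], [(2, 4, 5)], forb [bhp D.k₁ 2 5, bce D.k₁ o 2 4])) ++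
  (D.os.filter (fun o => o.isSome)).map
    (fun o => ([(2, 1)], [], [(2, 4, 5), (2, 5, 6)], forb [bhp D.k₁ 2 6, bce D.k₁ o 2 4]))))

def inY (y : List Bool) : List (Asc Q K A) :=
  y.reverse.zipIdx.map (fun q => ([(2, 0), (4, 3 + q.2)], [], [],
    [(true, bce D.k₀ (some (D.sym q.1)) 2 4)]))

/-- the part of the schemas which does not depend on the input -/
def cA : List (Asc Q K A) :=
  D.qs.flatMap (fun q => trA D q ++ fpA D q) ++ (fmA D ++ (inA D ++ fiA D))

def allA (y : List Bool) : List (Asc Q K A) := cA D ++ inY D y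

/-- the list of constants -/
def envOf (p N : ℕ) (y : List Bool) : List ℕ :=
  [0, N, 2 ^ p + y.length] ++ (List.range y.length).map (fun i => 2 ^ p + i)

omit [DecidableEq K] [Fintype Q] [Fintype K] [Fintype A] in
theorem imp_map {V V' : Type} (f : V → V') (ps : List V) (c : V) :
    (imp ps c).map (fun l => (l.1, f l.2)) = imp (ps.map f) (f c) := by
  simp [imp]

theorem forb_map {V V' : Type} (f : V → V') (ps : List V) :
    (forb ps).map (fun l => (l.1, f l.2)) = forb (ps.map f) := by
  simp [forb]

@[simp] theorem evv_bst (u : ℕ → ℕ) (q : Q) (a : ℕ) :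
    evv u (bst q a : BV Q K A) = .st (u a) q := rfl
@[simp] theorem evv_bhp (u : ℕ → ℕ) (k : K) (a b : ℕ) :
    evv u (bhp k a b : BV Q K A) = .hp (u a) k (u b) := rfl
@[simp] theorem evv_bce (u : ℕ → ℕ) (k : K) (o : Option A) (a b : ℕ) :
    evv u (bce k o a b : BV Q K A) = .ce (u a) k (u b) o := rfl

theorem rs_two {X Y : ℕ} : rs 2 X Y ↔ Y = X + 1 := by simp [rs]
theorem rs_three {X Y : ℕ} : rs 3 X Y ↔ X < Y := by simp [rs]

omit [Fintype Q] [Fintype K] [Fintype A] [DecidableEq K] in
theorem ptrB_spec {u : ℕ → ℕ} {op : Op A} {o : Option A} (h6 : u 6 = u 5 + 1)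
    (h5 : o.isSome → u 5 = u 4 + 1) : u (ptrB op o) = newPtr op o (u 5) := by
  cases op with
  | keep => rfl
  | pop =>
    cases o with
    | none => rfl
    | some a =>
      have := h5 rfl
      simp only [ptrB, newPtr]
      omega
  | push a => simpa [ptrB, newPtr] using h6

omit [Fintype Q] [Fintype K] [Fintype A] in
theorem rd_inst {u : ℕ → ℕ} {q : Q} {o : Option A} {g1 : List (ℕ × ℕ)} {g3 : List (ℕ × ℕ × ℕ)}
    {ps : List (BV Q K A)} {asc : Asc Q K A} (h : asc ∈ rdA D q o g1 g3 ps)
    (h3 : u 3 = u 2 + 1) (h6 : u 6 = u 5 + 1) (h5 : o.isSome → u 5 = u 4 + 1) :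
    instc u asc ∈ rdClauses D (u 2) q (u 5) (ps.map (evv u)) o := by
  unfold rdA at h
  unfold rdClauses
  rw [List.mem_cons, List.mem_cons] at h ⊢
  rcases h with rfl | rfl | h
  · left
    simp [instc, imp_map, h3]
  · right; left
    simp [instc, imp_map, h3, ptrB_spec h6 h5]
  · right; right
    cases hop : (D.M.δ q o).2 with
    | keep => rw [hop] at h; simp at h
    | pop => rw [hop] at h; simp at h
    | push a =>
      rw [hop] at h
      simp only [List.mem_singleton] at h ⊢
      subst h
      simp [instc, imp_map, h3]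

/-- values of the blocks -/
def mkU (t t' n h h2 : ℕ) (x : ℕ) : ℕ :=
  if x = 2 then t else if x = 3 then t' else if x = 4 then n else if x = 5 then h
  else if x = 6 then h2 else 0

@[simp] theorem mkU2 (t t' n h h2 : ℕ) : mkU t t' n h h2 2 = t := rfl
@[simp] theorem mkU3 (t t' n h h2 : ℕ) : mkU t t' n h h2 3 = t' := rfl
@[simp] theorem mkU4 (t t' n h h2 : ℕ) : mkU t t' n h h2 4 = n := rfl
@[simp] theorem mkU5 (t t' n h h2 : ℕ) : mkU t t' n h h2 5 = h := rfl
@[simp] theorem mkU6 (t t' n h h2 : ℕ) : mkU t t' n h h2 6 = h2 := rfl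

theorem mkU_lt {t t' n h h2 r : ℕ} (h1 : t < 2 ^ r) (h2' : t' < 2 ^ r) (h3 : n < 2 ^ r)
    (h4 : h < 2 ^ r) (h5 : h2 < 2 ^ r) (x : ℕ) : mkU t t' n h h2 x < 2 ^ r := by
  unfold mkU
  split_ifs
  · exact h1
  · exact h2'
  · exact h3
  · exact h4
  · exact h5
  · positivity

omit [Fintype Q] [Fintype K] [Fintype A] in
theorem rd_inst' {t h n : ℕ} {q : Q} {o : Option A} {g1 : List (ℕ × ℕ)}
    {g3 : List (ℕ × ℕ × ℕ)} {ps : List (BV Q K A)} {c : List (Bool × Var Q K A)}
    (h5 : o.isSome → h = n + 1)
    (hc : c ∈ rdClauses D t q h (ps.map (evv (mkU t (t + 1) n h (h + 1)))) o) :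
    ∃ asc ∈ rdA D q o g1 g3 ps, instc (mkU t (t + 1) n h (h + 1)) asc = c ∧
      asc.1 = g1 ∧ asc.2.1 = [] ∧ asc.2.2.1 = g3 := by
  unfold rdClauses at hc
  unfold rdA
  rw [List.mem_cons, List.mem_cons] at hc
  rcases hc with rfl | rfl | hc
  · refine ⟨_, List.mem_cons_self, ?_, rfl, rfl, rfl⟩
    simp [instc, imp_map]
  · refine ⟨_, List.mem_cons_of_mem _ List.mem_cons_self, ?_, rfl, rfl, rfl⟩
    have := ptrB_spec (u := mkU t (t + 1) n h (h + 1)) (op := (D.M.δ q o).2) (o := o)
      (by simp) (by simpa using h5)
    simp [instc, imp_map, this]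
  · cases hop : (D.M.δ q o).2 with
    | keep => rw [hop] at hc; simp at hc
    | pop => rw [hop] at hc; simp at hc
    | push a =>
      rw [hop] at hc
      simp only [List.mem_singleton] at hc
      subst hc
      refine ⟨_, List.mem_cons_of_mem _ (List.mem_cons_of_mem _ (List.mem_singleton_self _)),
        ?_, rfl, rfl, rfl⟩
      simp [instc, imp_map]

theorem env0 (p N : ℕ) (y : List Bool) : (envOf p N y)[0]?.getD 0 = 0 := rfl
theorem env1 (p N : ℕ) (y : List Bool) : (envOf p N y)[1]?.getD 0 = N := rfl
theorem env2 (p N : ℕ) (y : List Bool) : (envOf p N y)[2]?.getD 0 = 2 ^ p + y.length := rfl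
theorem env3 (p N : ℕ) (y : List Bool) {i : ℕ} (hi : i < y.length) :
    (envOf p N y)[3 + i]?.getD 0 = 2 ^ p + i := by
  rw [← List.getD_eq_getElem?_getD]
  unfold envOf
  rw [List.getD_append_right _ _ _ _ (by simp)]
  simp only [List.length_cons, List.length_nil]
  rw [List.getD_eq_getElem _ _ (by simp; omega)]
  simp

omit [Fintype Q] [Fintype K] [Fintype A] in
/-- soundness: instances of the schemas hold for an accepting run -/
theorem sound {p N : ℕ} {y w : List Bool} (hw : w.length ≤ 2 ^ p)
    (hacc : Accepts D (run D (2 ^ p) y w N)) {asc : Asc Q K A} (h : asc ∈ allA D y)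
    {u : ℕ → ℕ} (hg : AGuard p (envOf p N y) u asc) :
    ∃ l ∈ instc u asc, asg (run D (2 ^ p) y w) l.2 = l.1 := by
  have htr : ∀ t h, Holds (asg (run D (2 ^ p) y w)) (tClauses D t h) := fun t h =>
    tClauses_sound D _ t h (run_succ D (2 ^ p) y w t)
  have hform := formula_sound D (2 ^ p) y w N hw hacc
  rw [formula, Holds.append_iff, Holds.append_iff] at hform
  obtain ⟨hin, -, hfi⟩ := hform
  obtain ⟨g1, g2, g3⟩ := hg
  unfold allA cA at h
  simp only [List.mem_append] at h
  rcases h with (h | h | h | h) | h
  · obtain ⟨q, hq, h⟩ := List.mem_flatMap.1 h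
    rw [List.mem_append] at h
    rcases h with h | h
    · unfold trA at h
      rw [List.mem_append] at h
      rcases h with h | h
      · have e1 : asc.1 = [(5, 0)] ∧ asc.2.2.1 = [(2, 2, 3), (2, 5, 6)] := by
          unfold rdA at h
          rw [List.mem_cons, List.mem_cons] at h
          rcases h with rfl | rfl | h
          · exact ⟨rfl, rfl⟩
          · exact ⟨rfl, rfl⟩
          · cases hop : (D.M.δ q none).2 with
            | keep => rw [hop] at h; simp at h
            | pop => rw [hop] at h; simp at h
            | push a =>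
              rw [hop] at h
              rw [List.mem_singleton] at h
              subst h
              exact ⟨rfl, rfl⟩
        rw [e1.1] at g1
        rw [e1.2] at g3
        have a1 : u 5 = 0 := by have := g1 (5, 0) (by simp); simpa [env0] using this
        have a2 : u 3 = u 2 + 1 := rs_two.1 (g3 (2, 2, 3) (by simp))
        have a3 : u 6 = u 5 + 1 := rs_two.1 (g3 (2, 5, 6) (by simp))
        have hm := rd_inst D h a2 a3 (by simp)
        apply htr (u 2) (u 5)
        unfold tClauses
        rw [List.mem_append]
        left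
        rw [List.mem_flatMap]
        refine ⟨q, hq, ?_⟩
        rw [List.mem_append]
        left
        rw [a1]
        rw [a1] at hm
        exact hm
      · obtain ⟨o, ho, h⟩ := List.mem_flatMap.1 h
        have e1 : asc.1 = [] ∧ asc.2.2.1 = [(2, 2, 3), (2, 5, 6), (2, 4, 5)] := by
          unfold rdA at h
          rw [List.mem_cons, List.mem_cons] at h
          rcases h with rfl | rfl | h
          · exact ⟨rfl, rfl⟩
          · exact ⟨rfl, rfl⟩
          · cases hop : (D.M.δ q o).2 with
            | keep => rw [hop] at h; simp at h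
            | pop => rw [hop] at h; simp at h
            | push a =>
              rw [hop] at h
              rw [List.mem_singleton] at h
              subst h
              exact ⟨rfl, rfl⟩
        rw [e1.2] at g3
        have a1 : u 5 = u 4 + 1 := rs_two.1 (g3 (2, 4, 5) (by simp))
        have a2 : u 3 = u 2 + 1 := rs_two.1 (g3 (2, 2, 3) (by simp))
        have a3 : u 6 = u 5 + 1 := rs_two.1 (g3 (2, 5, 6) (by simp))
        have hm := rd_inst D h a2 a3 (fun _ => a1)
        apply htr (u 2) (u 5)
        unfold tClauses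
        rw [List.mem_append]
        left
        rw [List.mem_flatMap]
        refine ⟨q, hq, ?_⟩
        rw [List.mem_append]
        left
        rw [a1]
        rw [a1] at hm
        rw [trClauses, List.mem_flatMap]
        exact ⟨o, ho, by simpa using hm⟩
    · unfold fpA at h
      obtain ⟨k, hk, rfl⟩ := List.mem_map.1 h
      have a2 : u 3 = u 2 + 1 := rs_two.1 (g3 (2, 2, 3) (by simp))
      apply htr (u 2) (u 5)
      unfold tClauses
      rw [List.mem_append]
      left
      rw [List.mem_flatMap]
      refine ⟨q, hq, ?_⟩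
      rw [List.mem_append]
      right
      unfold fpClauses
      rw [List.mem_map]
      exact ⟨k, hk, by simp [instc, imp_map, a2]⟩
  · unfold fmA at h
    obtain ⟨k, hk, h⟩ := List.mem_flatMap.1 h
    obtain ⟨o, ho, rfl⟩ := List.mem_map.1 h
    have a2 : u 3 = u 2 + 1 := rs_two.1 (g3 (2, 2, 3) (by simp))
    have a3 : u 4 < u 5 := rs_three.1 (g3 (3, 4, 5) (by simp))
    apply htr (u 2) (u 5)
    unfold tClauses
    rw [List.mem_append]
    right
    unfold fmClauses
    rw [List.mem_flatMap]
    refine ⟨u 4, List.mem_range.2 a3, ?_⟩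
    rw [List.mem_flatMap]
    refine ⟨k, hk, ?_⟩
    rw [List.mem_map]
    exact ⟨o, ho, by simp [instc, imp_map, a2]⟩
  · unfold inA at h
    rw [List.mem_cons, List.mem_append] at h
    rw [inClauses, ← List.singleton_append, Holds.append_iff, Holds.append_iff, Holds.append_iff,
      Holds.append_iff] at hin
    obtain ⟨i1, i2, i3, i4, i5⟩ := hin
    rcases h with rfl | h | h
    · have a1 : u 2 = 0 := by have := g1 (2, 0) (by simp); simpa [env0] using this
      apply i1
      simp [instc, a1]
    · obtain ⟨k, hk, rfl⟩ := List.mem_map.1 h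
      have a1 : u 2 = 0 := by have := g1 (2, 0) (by simp); simpa [env0] using this
      have a2 : u 5 = if k = D.k₀ then 2 ^ p + y.length else 0 := by
        have := g1 (5, if k = D.k₀ then 2 else 0) (by simp)
        split_ifs at this ⊢
        · simpa [env2] using this
        · simpa [env0] using this
      apply i2
      rw [List.mem_map]
      exact ⟨k, hk, by simp [instc, a1, a2]⟩
    · simp only [List.mem_cons, List.not_mem_nil, or_false] at h
      rcases h with rfl | rfl
      · have a1 : u 2 = 0 := by have := g1 (2, 0) (by simp); simpa [env0] using this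
        have a2 : u 4 < 2 ^ p := g2 4 (by simp)
        apply i4
        rw [List.mem_map]
        exact ⟨u 4, List.mem_range.2 a2, by simp [instc, a1]⟩
      · have a1 : u 2 = 0 := by have := g1 (2, 0) (by simp); simpa [env0] using this
        have a2 : u 5 < 2 ^ p := g2 5 (by simp)
        have a3 : u 5 = u 4 + 1 := rs_two.1 (g3 (2, 4, 5) (by simp))
        apply i5
        rw [List.mem_map]
        exact ⟨u 4, List.mem_range.2 (by omega), by simp [instc, a1, imp_map, a3]⟩
  · unfold fiA at h
    rw [List.mem_append, List.mem_append, List.mem_append] at h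
    rw [fiClauses, Holds.append_iff, Holds.append_iff, Holds.append_iff] at hfi
    obtain ⟨f1, f2, f3, f4⟩ := hfi
    have hbound : ∀ k, (run D (2 ^ p) y w N).h k ≤ 2 ^ p + y.length + N := by
      intro k
      have h1 := iterate_ptr_le D.M (init D (2 ^ p) y w) k N
      have h2 : (init D (2 ^ p) y w).h k ≤ 2 ^ p + y.length := by
        simp only [init]
        split_ifs <;> omega
      unfold run
      omega
    rcases h with h | h | h | h
    · obtain ⟨q, hq, rfl⟩ := List.mem_map.1 h
      have a1 : u 2 = N := by have := g1 (2, 1) (by simp); simpa [env1] using this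
      apply f1
      rw [List.mem_map]
      exact ⟨q, hq, by simp [instc, forb_map, a1]⟩
    · rw [List.mem_singleton] at h
      subst h
      have a1 : u 2 = N := by have := g1 (2, 1) (by simp); simpa [env1] using this
      have a2 : u 5 = 0 := by have := g1 (5, 0) (by simp); simpa [env0] using this
      apply f2
      simp [instc, forb_map, a1, a2]
    · obtain ⟨o, ho, rfl⟩ := List.mem_map.1 h
      have a1 : u 2 = N := by have := g1 (2, 1) (by simp); simpa [env1] using this
      have a2 : u 5 = u 4 + 1 := rs_two.1 (g3 (2, 4, 5) (by simp))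
      by_cases h4 : u 4 < 2 ^ p + y.length + N + 1
      · apply f3
        rw [List.mem_flatMap]
        refine ⟨u 4, List.mem_range.2 h4, ?_⟩
        rw [List.mem_map]
        exact ⟨o, ho, by simp [instc, forb_map, a1, a2]⟩
      · have he : instc u (([(2, 1)], [], [(2, 4, 5)],
            forb [bhp D.k₁ 2 5, bce D.k₁ o 2 4]) : Asc Q K A) =
            forb [.hp N D.k₁ (u 4 + 1), .ce N D.k₁ (u 4) o] := by
          simp [instc, forb_map, a1, a2]
        rw [he, holds_forb]
        intro hall
        have := hall (.hp N D.k₁ (u 4 + 1)) (by simp)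
        rw [asg_hp] at this
        have := hbound D.k₁
        omega
    · obtain ⟨o, ho, rfl⟩ := List.mem_map.1 h
      have a1 : u 2 = N := by have := g1 (2, 1) (by simp); simpa [env1] using this
      have a2 : u 5 = u 4 + 1 := rs_two.1 (g3 (2, 4, 5) (by simp))
      have a3 : u 6 = u 5 + 1 := rs_two.1 (g3 (2, 5, 6) (by simp))
      by_cases h4 : u 4 < 2 ^ p + y.length + N + 1
      · apply f4
        rw [List.mem_flatMap]
        refine ⟨u 4, List.mem_range.2 h4, ?_⟩
        rw [List.mem_map]
        exact ⟨o, ho, by simp [instc, forb_map, a1, a2, a3]⟩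
      · have he : instc u (([(2, 1)], [], [(2, 4, 5), (2, 5, 6)],
            forb [bhp D.k₁ 2 6, bce D.k₁ o 2 4]) : Asc Q K A) =
            forb [.hp N D.k₁ (u 4 + 2), .ce N D.k₁ (u 4) o] := by
          simp [instc, forb_map, a1, a2, a3]
        rw [he, holds_forb]
        intro hall
        have := hall (.hp N D.k₁ (u 4 + 2)) (by simp)
        rw [asg_hp] at this
        have := hbound D.k₁
        omega
  · unfold inY at h
    obtain ⟨⟨b, i⟩, hbi, rfl⟩ := List.mem_map.1 h
    rw [inClauses, ← List.singleton_append, Holds.append_iff, Holds.append_iff, Holds.append_iff,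
      Holds.append_iff] at hin
    obtain ⟨i1, i2, i3, i4, i5⟩ := hin
    have a1 : u 2 = 0 := by have := g1 (2, 0) (by simp); simpa [env0] using this
    have hi : i < y.length := by
      have := List.mem_zipIdx_iff_getElem?.1 hbi
      simp only at this
      have h2 := (List.getElem?_eq_some_iff.1 this).1
      simpa using h2
    have a2 : u 4 = 2 ^ p + i := by
      have := g1 (4, 3 + i) (by simp)
      simpa [env3 p N y hi] using this
    apply i3
    rw [List.mem_map]
    exact ⟨(b, i), hbi, by simp [instc, a1, a2]⟩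

omit [Fintype Q] [Fintype K] [Fintype A] in
/-- completeness: all clauses of the formula are instances of the schemas -/
theorem complete {p N r : ℕ} {y : List Bool} (hr : 2 ^ p + y.length + N + 2 < 2 ^ r)
    {τ : Var Q K A → Bool}
    (hτ : ∀ asc ∈ allA D y, ∀ u : ℕ → ℕ, (∀ x, u x < 2 ^ r) → AGuard p (envOf p N y) u asc →
      ∃ l ∈ instc u asc, τ l.2 = l.1) :
    Holds τ (formula D (2 ^ p) y N) := by
  have hpos : 0 < 2 ^ p := by positivity
  have hposr : 0 < 2 ^ r := by positivity
  rw [formula, Holds.append_iff, Holds.append_iff]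
  refine ⟨?_, ?_, ?_⟩
  · rw [inClauses, ← List.singleton_append, Holds.append_iff, Holds.append_iff, Holds.append_iff,
      Holds.append_iff]
    refine ⟨?_, ?_, ?_, ?_, ?_⟩
    · intro c hc
      rw [List.mem_singleton] at hc
      subst hc
      exact hτ ([(2, 0)], [], [], [(true, bst D.q₀ 2)]) (by simp [allA, cA, inA])
        (mkU 0 0 0 0 0) (mkU_lt hposr hposr hposr hposr hposr) ⟨by simp [env0], by simp, by simp⟩
    · intro c hc
      obtain ⟨k, hk, rfl⟩ := List.mem_map.1 hc
      have := hτ ([(2, 0), (5, if k = D.k₀ then 2 else 0)], [], [], [(true, bhp k 2 5)])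
        (by
          simp only [allA, cA, inA, List.mem_append, List.mem_cons, List.mem_map]
          left; right; right; left; right; left
          exact ⟨k, hk, rfl⟩)
        (mkU 0 0 0 (if k = D.k₀ then 2 ^ p + y.length else 0) 0)
        (mkU_lt hposr hposr hposr (by split_ifs <;> omega) hposr)
        ⟨by
          intro q hq
          simp only [List.mem_cons, List.not_mem_nil, or_false] at hq
          rcases hq with rfl | rfl
          · simp [env0]
          · split_ifs <;> simp [env0, env2, *], by simp, by simp⟩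
      simpa [instc] using this
    · intro c hc
      obtain ⟨⟨b, i⟩, hbi, rfl⟩ := List.mem_map.1 hc
      have hi : i < y.length := by
        have := List.mem_zipIdx_iff_getElem?.1 hbi
        simp only at this
        have h2 := (List.getElem?_eq_some_iff.1 this).1
        simpa using h2
      have := hτ ([(2, 0), (4, 3 + i)], [], [], [(true, bce D.k₀ (some (D.sym b)) 2 4)])
        (by
          simp only [allA, List.mem_append]
          right
          exact List.mem_map.2 ⟨(b, i), hbi, rfl⟩)
        (mkU 0 0 (2 ^ p + i) 0 0)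
        (mkU_lt hposr hposr (by omega) hposr hposr)
        ⟨by
          intro q hq
          simp only [List.mem_cons, List.not_mem_nil, or_false] at hq
          rcases hq with rfl | rfl
          · simp [env0]
          · simp [env3 p N y hi], by simp, by simp⟩
      simpa [instc] using this
    · intro c hc
      obtain ⟨j, hj, rfl⟩ := List.mem_map.1 hc
      rw [List.mem_range] at hj
      have := hτ ([(2, 0)], [4], [], [(true, bce D.k₀ none 2 4),
          (true, bce D.k₀ (some (D.sym false)) 2 4), (true, bce D.k₀ (some (D.sym true)) 2 4)])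
        (by simp [allA, cA, inA]) (mkU 0 0 j 0 0)
        (mkU_lt hposr hposr (by omega) hposr hposr) ⟨by simp [env0], by simpa using hj, by simp⟩
      simpa [instc] using this
    · intro c hc
      obtain ⟨j, hj, rfl⟩ := List.mem_map.1 hc
      rw [List.mem_range] at hj
      have := hτ ([(2, 0)], [5], [(2, 4, 5)], imp [bce D.k₀ none 2 5] (bce D.k₀ none 2 4))
        (by simp [allA, cA, inA]) (mkU 0 0 j (j + 1) 0)
        (mkU_lt hposr hposr (by omega) (by omega) hposr)
        ⟨by simp [env0], by simp only [List.mem_singleton, forall_eq, mkU5]; omega,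
          by simp [rs_two]⟩
      simpa [instc, imp_map] using this
  · intro c hc
    obtain ⟨t, ht, hc⟩ := List.mem_flatMap.1 hc
    obtain ⟨h, hh, hc⟩ := List.mem_flatMap.1 hc
    rw [List.mem_range] at ht hh
    unfold tClauses at hc
    rw [List.mem_append] at hc
    rcases hc with hc | hc
    · obtain ⟨q, hq, hc⟩ := List.mem_flatMap.1 hc
      rw [List.mem_append] at hc
      rcases hc with hc | hc
      · cases h with
        | zero =>
          obtain ⟨asc, hasc, hi, e1, e2, e3⟩ := rd_inst' (t := t) (h := 0) (n := 0) (q := q)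
            (o := none) (g1 := [(5, 0)]) (g3 := [(2, 2, 3), (2, 5, 6)]) (ps := []) D
            (by simp) (c := c) (by simpa [trClauses] using hc)
          rw [← hi]
          refine hτ asc ?_ _ (mkU_lt (by omega) (by omega) (by omega) (by omega) (by omega)) ?_
          · simp only [allA, cA, List.mem_append]
            left; left
            refine List.mem_flatMap.2 ⟨q, hq, ?_⟩
            rw [List.mem_append]
            left
            unfold trA
            rw [List.mem_append]
            left
            exact hasc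
          · refine ⟨?_, ?_, ?_⟩
            · rw [e1]; simp [env0]
            · rw [e2]; simp
            · rw [e3]; simp [rs_two]
        | succ n =>
          rw [trClauses, List.mem_flatMap] at hc
          obtain ⟨o, ho, hc⟩ := hc
          obtain ⟨asc, hasc, hi, e1, e2, e3⟩ := rd_inst' (t := t) (h := n + 1) (n := n) (q := q)
            (o := o) (g1 := []) (g3 := [(2, 2, 3), (2, 5, 6), (2, 4, 5)])
            (ps := [bce (D.M.κ q) o 2 4]) D
            (by simp) (c := c) (by simpa using hc)
          rw [← hi]
          refine hτ asc ?_ _ (mkU_lt (by omega) (by omega) (by omega) (by omega) (by omega)) ?_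
          · simp only [allA, cA, List.mem_append]
            left; left
            refine List.mem_flatMap.2 ⟨q, hq, ?_⟩
            rw [List.mem_append]
            left
            unfold trA
            rw [List.mem_append]
            right
            exact List.mem_flatMap.2 ⟨o, ho, hasc⟩
          · refine ⟨?_, ?_, ?_⟩
            · rw [e1]; simp
            · rw [e2]; simp
            · rw [e3]; simp [rs_two]
      · unfold fpClauses at hc
        obtain ⟨k, hk, rfl⟩ := List.mem_map.1 hc
        have := hτ ([], [], [(2, 2, 3)], imp [bst q 2, bhp k 2 5] (bhp k 3 5))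
          (by
            simp only [allA, cA, List.mem_append]
            left; left
            refine List.mem_flatMap.2 ⟨q, hq, ?_⟩
            rw [List.mem_append]
            right
            exact List.mem_map.2 ⟨k, hk, rfl⟩)
          (mkU t (t + 1) 0 h 0)
          (mkU_lt (by omega) (by omega) (by omega) (by omega) (by omega))
          ⟨by simp, by simp, by simp [rs_two]⟩
        simpa [instc, imp_map] using this
    · unfold fmClauses at hc
      obtain ⟨j, hj, hc⟩ := List.mem_flatMap.1 hc
      obtain ⟨k, hk, hc⟩ := List.mem_flatMap.1 hc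
      obtain ⟨o, ho, rfl⟩ := List.mem_map.1 hc
      rw [List.mem_range] at hj
      have := hτ ([], [], [(2, 2, 3), (3, 4, 5)], imp [bhp k 2 5, bce k o 2 4] (bce k o 3 4))
        (by
          simp only [allA, cA, List.mem_append]
          left; right; left
          exact List.mem_flatMap.2 ⟨k, hk, List.mem_map.2 ⟨o, ho, rfl⟩⟩)
        (mkU t (t + 1) j h 0)
        (mkU_lt (by omega) (by omega) (by omega) (by omega) (by omega))
        ⟨by simp, by simp, by simp [rs_two, rs_three, hj]⟩
      simpa [instc, imp_map] using this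
  · rw [fiClauses, Holds.append_iff, Holds.append_iff, Holds.append_iff]
    refine ⟨?_, ?_, ?_, ?_⟩
    · intro c hc
      obtain ⟨q, hq, rfl⟩ := List.mem_map.1 hc
      have := hτ ([(2, 1)], [], [], forb [bst q 2])
        (by
          simp only [allA, cA, fiA, List.mem_append]
          left; right; right; right; left
          exact List.mem_map.2 ⟨q, hq, rfl⟩)
        (mkU N 0 0 0 0) (mkU_lt (by omega) hposr hposr hposr hposr)
        ⟨by simp [env1], by simp, by simp⟩
      simpa [instc, forb_map] using this
    · intro c hc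
      rw [List.mem_singleton] at hc
      subst hc
      have := hτ ([(2, 1), (5, 0)], [], [], forb [bhp D.k₁ 2 5])
        (by simp [allA, cA, fiA])
        (mkU N 0 0 0 0) (mkU_lt (by omega) hposr hposr hposr hposr)
        ⟨by simp [env0, env1], by simp, by simp⟩
      simpa [instc, forb_map] using this
    · intro c hc
      obtain ⟨h, hh, hc⟩ := List.mem_flatMap.1 hc
      obtain ⟨o, ho, rfl⟩ := List.mem_map.1 hc
      rw [List.mem_range] at hh
      have := hτ ([(2, 1)], [], [(2, 4, 5)], forb [bhp D.k₁ 2 5, bce D.k₁ o 2 4])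
        (by
          simp only [allA, cA, fiA, List.mem_append]
          left; right; right; right; right; right; left
          exact List.mem_map.2 ⟨o, ho, rfl⟩)
        (mkU N 0 h (h + 1) 0) (mkU_lt (by omega) hposr (by omega) (by omega) hposr)
        ⟨by simp [env1], by simp, by simp [rs_two]⟩
      simpa [instc, forb_map] using this
    · intro c hc
      obtain ⟨h, hh, hc⟩ := List.mem_flatMap.1 hc
      obtain ⟨o, ho, rfl⟩ := List.mem_map.1 hc
      rw [List.mem_range] at hh
      have := hτ ([(2, 1)], [], [(2, 4, 5), (2, 5, 6)], forb [bhp D.k₁ 2 6, bce D.k₁ o 2 4])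
        (by
          simp only [allA, cA, fiA, List.mem_append]
          left; right; right; right; right; right; right
          exact List.mem_map.2 ⟨o, ho, rfl⟩)
        (mkU N 0 h (h + 1) (h + 2)) (mkU_lt (by omega) hposr (by omega) (by omega) (by omega))
        ⟨by simp [env1], by simp, by simp [rs_two]⟩
      simpa [instc, forb_map] using this

end Pool.Agent.H528R2.F1
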