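import Pool.Agent.H528R2.Dqbf4
import Pool.Agent.H671R2.PolyAuto

/-!
# DQBF is NEXP-hard, part 5: polynomial time
-/

set_option autoImplicit false

namespace Pool.Agent.H528R2.F1

open Pool.Agent.NPC

attribute [local fun_prop] NPC.Poly.range_length

section PolyBuild

variable {α : Type} [TEnc α]

theorem poly_depRow (S0 : ℕ) {U : α → List Unit} {g : α → ℕ} (hU : Poly U) (hg : Poly g) :
    Poly (fun a => depRow S0 (U a) (g a)) := by
  unfold depRow depB
  refine NPC.Poly.flatMap (NPC.Poly.const _) ?_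
  fun_prop

theorem poly_deps (S0 S : ℕ) {U : α → List Unit} (hU : Poly U) :
    Poly (fun a => deps S0 S (U a)) := by
  unfold deps
  refine NPC.Poly.flatMap (NPC.Poly.range_length (NPC.Poly.cons (NPC.Poly.const ()) hU)) ?_
  refine NPC.Poly.map (NPC.Poly.const _) ?_
  exact poly_depRow S0 (hU.comp (NPC.Poly.fst (NPC.Poly.fst NPC.Poly.id))) (NPC.Poly.snd NPC.Poly.id)

theorem poly_conc (S : ℕ) {r : α → ℕ} {l : α → AL} (hr : Poly r) (hl : Poly l) :
    Poly (fun a => conc (r a) S (l a)) := by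
  unfold conc ix
  refine NPC.Poly.sumElim hl ?_ ?_
  · fun_prop
  · fun_prop

theorem poly_auxXY (S : ℕ) {U : α → List Unit} {x y : α → ℕ} (hU : Poly U) (hx : Poly x)
    (hy : Poly y) : Poly (fun a => auxXY S (U a) (x a) (y a)) := by
  unfold auxXY
  refine NPC.Poly.append ?_ (NPC.Poly.flatMap (NPC.Poly.range_length hU) ?_)
  · fun_prop
  · fun_prop

theorem poly_auxCl (S : ℕ) {U : α → List Unit} (hU : Poly U) :
    Poly (fun a => auxCl S (U a)) := by
  unfold auxCl
  refine NPC.Poly.flatMap (NPC.Poly.const _) (NPC.Poly.flatMap (NPC.Poly.const _) ?_)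
  exact poly_auxXY S (hU.comp (NPC.Poly.fst (NPC.Poly.fst NPC.Poly.id))) (NPC.Poly.snd (NPC.Poly.fst NPC.Poly.id))
    (NPC.Poly.snd NPC.Poly.id)

theorem poly_consCl (S : ℕ) {U : α → List Unit} (hU : Poly U) :
    Poly (fun a => consCl S (U a)) := by
  unfold consCl
  refine NPC.Poly.flatMap (NPC.Poly.const _) (NPC.Poly.flatMap (NPC.Poly.const _) (NPC.Poly.flatMap (NPC.Poly.const _) ?_))
  fun_prop

theorem poly_expand (S : ℕ) {U : α → List Unit} {p : α → ℕ} {env : α → List ℕ} {sc : α → Sc}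
    (hU : Poly U) (hp : Poly p) (he : Poly env) (hs : Poly sc) :
    Poly (fun a => expand S (U a) (p a) (env a) (sc a)) := by
  unfold expand
  refine NPC.Poly.append ?_ (NPC.Poly.append ?_ (NPC.Poly.append ?_ ?_))
  · refine NPC.Poly.flatMap (NPC.Poly.fst hs) (NPC.Poly.map (NPC.Poly.range_length (hU.comp (NPC.Poly.fst NPC.Poly.id))) ?_)
    refine NPC.Poly.inl (NPC.Poly.pair ?_ (NPC.Poly.pair ?_ (NPC.Poly.not (NPC.Poly.getD (NPC.Poly.natBits (NPC.Poly.getD ?_ ?_
      ?_)) ?_ ?_))))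
    all_goals fun_prop
  · refine NPC.Poly.flatMap (NPC.Poly.fst (NPC.Poly.snd hs)) (NPC.Poly.map (NPC.Poly.filter (NPC.Poly.range_length
      (hU.comp (NPC.Poly.fst NPC.Poly.id))) ?_) ?_)
    all_goals fun_prop
  · fun_prop
  · fun_prop

theorem poly_fml (S : ℕ) {U : α → List Unit} {p : α → ℕ} {env : α → List ℕ} {scs : α → List Sc}
    (hU : Poly U) (hp : Poly p) (he : Poly env) (hs : Poly scs) :
    Poly (fun a => fml S (U a) (p a) (env a) (scs a)) := by
  unfold fml
  refine NPC.Poly.append (poly_auxCl S hU) (NPC.Poly.append (poly_consCl S hU) (NPC.Poly.map hs ?_))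
  exact poly_expand S (hU.comp (NPC.Poly.fst NPC.Poly.id)) (hp.comp (NPC.Poly.fst NPC.Poly.id))
    (he.comp (NPC.Poly.fst NPC.Poly.id)) (NPC.Poly.snd NPC.Poly.id)

theorem poly_build (S0 S : ℕ) {U : α → List Unit} {p : α → ℕ} {env : α → List ℕ}
    {scs : α → List Sc} (hU : Poly U) (hp : Poly p) (he : Poly env) (hs : Poly scs) :
    Poly (fun a => build S0 S (U a) (p a) (env a) (scs a)) := by
  unfold build inst
  refine NPC.Poly.pair (NPC.Poly.flatMap (NPC.Poly.const _) ?_) (NPC.Poly.pair (poly_deps S0 (S + 4) hU)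
    (NPC.Poly.map (poly_fml S hU hp he hs) (NPC.Poly.map (NPC.Poly.snd NPC.Poly.id) ?_)))
  · exact hU.comp (NPC.Poly.fst NPC.Poly.id)
  · exact poly_conc (S + 4) (NPC.Poly.length (hU.comp (NPC.Poly.fst (NPC.Poly.fst NPC.Poly.id)))) (NPC.Poly.snd NPC.Poly.id)

end PolyBuild

end Pool.Agent.H528R2.F1
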