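import Pool.Agent.H528R2.Main
import Pool.Agent.H573R2.Quartic

/-!
# `NEXP`-hardness of the solvability over `ℚ` of one polynomial equation of degree at most `4`
-/

namespace Pool.Agent.H528R2

open Pool.Agent.NPC Pool.Agent.NPC.H573Q Pool.Agent.NPC.ER Pool.Agent.NPC.H612

theorem evalQ_eq (x : ℕ → ℚ) (t : ER.Tm) : evalQ x t = Pool.Agent.H573R2.QS.evalQ x t := by
  induction t with
  | var i => rfl
  | zero => rfl
  | one => rfl
  | add s t hs ht => simp only [evalQ, Pool.Agent.H573R2.QS.evalQ, hs, ht]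
  | neg t ht => simp only [evalQ, Pool.Agent.H573R2.QS.evalQ, ht]
  | mul s t hs ht => simp only [evalQ, Pool.Agent.H573R2.QS.evalQ, hs, ht]

theorem qsat_iff_quart (S : List ER.Con) : QSat S ↔ ETQ (QFm.eq (quart S) .zero) := by
  refine exists_congr fun v => ?_
  have h : (QFm.eq (quart S) .zero).Holds v ↔ evalQ v (quart S) = 0 := Iff.rfl
  rw [h, evalQ_eq, quart_iff]
  refine forall_congr' fun c => forall_congr' fun _ => ?_
  cases c <;> rfl

theorem poly_quartF : NPC.Poly (fun S : List ER.Con => QFm.eq (quart S) .zero) :=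
  poly_qfm_of_toks (poly_feq (poly_quart NPC.Poly.id) (NPC.Poly.const _))

theorem quartic_hard {L : Set (List Bool)} (hL : InNEXP L) :
    ∃ t : List Bool → ER.Tm, (∀ w, tdeg (t w) ≤ 4) ∧
      PolyTime (fun w => bits (QFm.eq (t w) .zero)) ∧
        ∀ w, w ∈ L ↔ ETQ (QFm.eq (t w) .zero) := by
  obtain ⟨f, hf, hfL⟩ := hardX_QSat L hL
  have h : PC (fun x : List Bool => x) bits (fun w => QFm.eq (quart (f w)) .zero) :=
    PC.comp (eb := (bits : List ER.Con → List Bool)) (g := fun S => QFm.eq (quart S) .zero)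
      poly_quartF hf
  exact ⟨fun w => quart (f w), fun w => tdeg_quart _, PC.toPolyTime h,
    fun w => (hfL w).trans (qsat_iff_quart _)⟩

end Pool.Agent.H528R2
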