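import Pool.Agent.H528R2.QForm
import Pool.Agent.H671R2.PolyAuto

/-!
# DQBF with guarded clauses

A guarded clause `(G, C)` says: if the universal assignment satisfies one of the patterns of `G`
then some literal of `C` is true. A pattern is a conjunction of equalities `a i = a j` between
universal variables and of conditions `a i = b`.
-/

namespace Pool.Agent.H528R2.Guard

open Pool.Agent.NPC

/-- literals `(isExistential, sign, index)` -/
abbrev Lit : Type := Bool × Bool × ℕ

/-- patterns: equalities between universal variables, fixed values of universal variables -/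
abbrev Pat : Type := List (ℕ × ℕ) × List (ℕ × Bool)

/-- truth of a pattern (conditions with an index `≥ m` are ignored) -/
def POk (m : ℕ) (a : ℕ → Bool) (p : Pat) : Prop :=
  (∀ e ∈ p.1, e.1 < m → e.2 < m → a e.1 = a e.2) ∧ ∀ c ∈ p.2, c.1 < m → a c.1 = c.2

/-- truth of a guard -/
def GOk (m : ℕ) (a : ℕ → Bool) (G : List Pat) : Prop := ∃ p ∈ G, POk m a p

/-- instances: `(U, deps, guarded clauses)` -/
abbrev GInst : Type := List Unit × List (List Bool) × List (List Pat × List Lit)

/-- the underlying prefix -/
def base (I : GInst) : DInst := (I.1, I.2.1, [])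

/-- truth of an instance -/
def GSat (I : GInst) : Prop :=
  ∃ B : ℕ → (ℕ → Bool) → Bool,
    (∀ k < (base I).K, ∀ a a' : ℕ → Bool,
      (∀ j < (base I).m, (base I).dep k j = true → a j = a' j) → B k a = B k a') ∧
    ∀ a : ℕ → Bool, ∀ c ∈ I.2.2, GOk (base I).m a c.1 → ∃ l ∈ c.2, (base I).litTrue a B l

/-! ### translation to DQBF -/

/-- the clause attached to a pattern and a list of literals -/
def patCl (m K : ℕ) (p : Pat) (C : List Lit) : List Lit :=
  ((p.1.filter (fun e => decide (e.1 < m) && decide (e.2 < m))).map
    (fun e => (true, true, K + (e.1 * m + e.2)))) ++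
  (p.2.map (fun c => (false, !c.2, c.1)) ++ C.filter (fun l => !l.1 || decide (l.2.2 < K)))

/-- the clauses for the auxiliary variables -/
def auxCl (m K : ℕ) (r : ℕ) : List (List Lit) :=
  [[(true, false, K + r), (false, true, r / m), (false, true, r % m)],
   [(true, false, K + r), (false, false, r / m), (false, false, r % m)]]

/-- all clauses -/
def allCl (m K : ℕ) (ms : List Unit) (gs : List (List Pat × List Lit)) : List (List Lit) :=
  gs.flatMap (fun c => c.1.map (fun p => patCl m K p c.2)) ++
    (List.range (ms.length * ms.length)).flatMap (fun r => auxCl m K r)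

/-- the instance of DQBF -/
def toD (I : GInst) : DInst :=
  (I.1, I.2.1 ++ (List.range (I.1.length * I.1.length)).map (fun _ => I.1.map (fun _ => true)),
    allCl I.1.length I.2.1.length I.1 I.2.2)

theorem toD_m (I : GInst) : (toD I).m = (base I).m := rfl

theorem toD_K (I : GInst) : (toD I).K = (base I).K + (base I).m * (base I).m := by
  simp [toD, DInst.K, DInst.m, base]

theorem toD_dep_lt (I : GInst) {k : ℕ} (hk : k < (base I).K) (j : ℕ) :
    (toD I).dep k j = (base I).dep k j := by
  have hk' : k < I.2.1.length := hk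
  simp only [toD, DInst.dep, base, List.getD_eq_getElem?_getD]
  rw [List.getElem?_append_left hk']

theorem toD_dep_ge (I : GInst) {k : ℕ} (hk : (base I).K ≤ k) (hk2 : k < (toD I).K) {j : ℕ}
    (hj : j < (base I).m) : (toD I).dep k j = true := by
  rw [toD_K] at hk2
  have hk' : I.2.1.length ≤ k := hk
  have hj' : j < I.1.length := hj
  have hk2' : k < I.2.1.length + I.1.length * I.1.length := hk2
  simp only [toD, DInst.dep, List.getD_eq_getElem?_getD]
  rw [List.getElem?_append_right hk', List.getElem?_map, List.getElem?_range (by omega)]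
  simp [List.getElem?_eq_getElem, hj']

theorem sat_toD (I : GInst) : GSat I ↔ DQSat (toD I) := by
  constructor
  · rintro ⟨B, hB, hcl⟩
    set K := (base I).K with hK
    set m := (base I).m with hm
    let B' : ℕ → (ℕ → Bool) → Bool := fun k a =>
      if k < K then B k a else decide (a ((k - K) / m) ≠ a ((k - K) % m))
    have hB' : ∀ k < K, ∀ a, B' k a = B k a := fun k hk a => by simp [B', hk]
    have hlit : ∀ a l, (base I).litTrue a B l → (toD I).litTrue a B' l := by
      intro a l hl
      unfold DInst.litTrue at hl ⊢
      split_ifs at hl ⊢ with h1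
      · refine ⟨?_, ?_⟩
        · rw [toD_K]; exact lt_of_lt_of_le hl.1 (Nat.le_add_right _ _)
        · rw [hB' _ hl.1]; exact hl.2
      · exact hl
    refine ⟨B', ?_, ?_⟩
    · intro k hk a a' haa
      by_cases hkK : k < K
      · rw [hB' k hkK, hB' k hkK]
        refine hB k hkK a a' fun j hj hd => haa j hj ?_
        rw [toD_dep_lt I hkK]
        exact hd
      · push Not at hkK
        have h1 : k - K < m * m := by
          rw [toD_K, ← hK, ← hm] at hk
          omega
        have hm0 : 0 < m := by
          rcases Nat.eq_zero_or_pos m with h | h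
          · rw [h] at h1; omega
          · exact h
        have h2 : (k - K) / m < m := Nat.div_lt_of_lt_mul h1
        have h3 : (k - K) % m < m := Nat.mod_lt _ hm0
        have e1 : B' k a = decide (a ((k - K) / m) ≠ a ((k - K) % m)) := by
          simp [B', not_lt.2 hkK]
        have e2 : B' k a' = decide (a' ((k - K) / m) ≠ a' ((k - K) % m)) := by
          simp [B', not_lt.2 hkK]
        rw [e1, e2, haa _ h2 (toD_dep_ge I hkK hk h2), haa _ h3 (toD_dep_ge I hkK hk h3)]
    · intro a cl hcl'
      have hcl'' : cl ∈ allCl m K I.1 I.2.2 := hcl'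
      unfold allCl at hcl''
      rw [List.mem_append] at hcl''
      rcases hcl'' with h | h
      · rw [List.mem_flatMap] at h
        obtain ⟨c, hc, h⟩ := h
        rw [List.mem_map] at h
        obtain ⟨p, hp, rfl⟩ := h
        by_cases hok : POk m a p
        · obtain ⟨l, hl, hlt⟩ := hcl a c hc ⟨p, hp, hok⟩
          refine ⟨l, ?_, hlit a l hlt⟩
          unfold patCl
          rw [List.mem_append, List.mem_append]
          refine Or.inr (Or.inr ?_)
          rw [List.mem_filter]
          refine ⟨hl, ?_⟩
          unfold DInst.litTrue at hlt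
          split_ifs at hlt with h1
          · have : l.2.2 < K := hlt.1
            simp [this]
          · simp [h1]
        · unfold POk at hok
          rw [not_and_or] at hok
          rcases hok with hok | hok
          · push Not at hok
            obtain ⟨e, he, h1, h2, h3⟩ := hok
            refine ⟨(true, true, K + (e.1 * m + e.2)), ?_, ?_⟩
            · unfold patCl
              rw [List.mem_append]
              refine Or.inl ?_
              rw [List.mem_map]
              refine ⟨e, ?_, rfl⟩
              rw [List.mem_filter]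
              exact ⟨he, by simp [h1, h2]⟩
            · unfold DInst.litTrue
              rw [if_pos rfl]
              have hlt : e.1 * m + e.2 < m * m := by
                calc e.1 * m + e.2 < e.1 * m + m := by omega
                  _ = (e.1 + 1) * m := by ring
                  _ ≤ m * m := Nat.mul_le_mul_right _ h1
              refine ⟨?_, ?_⟩
              · rw [toD_K, ← hK, ← hm]
                simp only
                omega
              · have hm0 : 0 < m := lt_of_le_of_lt (Nat.zero_le _) h1
                have e3 : (K + (e.1 * m + e.2) - K) / m = e.1 := by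
                  rw [Nat.add_sub_cancel_left, Nat.add_comm, Nat.add_mul_div_right _ _ hm0,
                    Nat.div_eq_of_lt h2, Nat.zero_add]
                have e4 : (K + (e.1 * m + e.2) - K) % m = e.2 := by
                  rw [Nat.add_sub_cancel_left, Nat.add_comm, Nat.add_mul_mod_self_right,
                    Nat.mod_eq_of_lt h2]
                simp only [B', Nat.not_lt.2 (Nat.le_add_right K _), if_false, e3, e4]
                simp [h3]
          · push Not at hok
            obtain ⟨c', hc', h1, h2⟩ := hok
            refine ⟨(false, !c'.2, c'.1), ?_, ?_⟩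
            · unfold patCl
              rw [List.mem_append, List.mem_append]
              exact Or.inr (Or.inl (List.mem_map.2 ⟨c', hc', rfl⟩))
            · unfold DInst.litTrue
              rw [if_neg (by simp)]
              refine ⟨h1, ?_⟩
              simp only
              cases h4 : a c'.1 <;> cases h5 : c'.2 <;> simp_all
      · rw [List.mem_flatMap] at h
        obtain ⟨r, hr, h⟩ := h
        rw [List.mem_range] at hr
        have hr' : r < m * m := hr
        have hm0 : 0 < m := by
          rcases Nat.eq_zero_or_pos m with h | h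
          · rw [h] at hr'; omega
          · exact h
        have h2 : r / m < m := Nat.div_lt_of_lt_mul hr'
        have h3 : r % m < m := Nat.mod_lt _ hm0
        have hBr : B' (K + r) a = decide (a (r / m) ≠ a (r % m)) := by
          simp only [B', Nat.not_lt.2 (Nat.le_add_right K _), if_false, Nat.add_sub_cancel_left]
        have hKr : K + r < (toD I).K := by
          rw [toD_K, ← hK, ← hm]; omega
        unfold auxCl at h
        rw [List.mem_cons, List.mem_singleton] at h
        by_cases hd : a (r / m) = a (r % m)
        · have h0 : B' (K + r) a = false := by rw [hBr]; simp [hd]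
          rcases h with rfl | rfl
          · exact ⟨_, List.mem_cons_self, by
              unfold DInst.litTrue; rw [if_pos rfl]; exact ⟨hKr, h0⟩⟩
          · exact ⟨_, List.mem_cons_self, by
              unfold DInst.litTrue; rw [if_pos rfl]; exact ⟨hKr, h0⟩⟩
        · have key : ∀ b : Bool, ∃ i, (i = r / m ∨ i = r % m) ∧ a i = b := by
            intro b
            by_cases hb : a (r / m) = b
            · exact ⟨_, Or.inl rfl, hb⟩
            · refine ⟨_, Or.inr rfl, ?_⟩
              cases h4 : a (r / m) <;> cases h5 : a (r % m) <;> cases b <;> simp_all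
          have key2 : ∀ b : Bool, ∃ l ∈ [((false, b, r / m) : Lit), (false, b, r % m)],
              (toD I).litTrue a B' l := by
            intro b
            obtain ⟨i, hi, hib⟩ := key b
            refine ⟨(false, b, i), ?_, ?_⟩
            · rcases hi with rfl | rfl <;> simp
            · unfold DInst.litTrue
              rw [if_neg (by simp)]
              refine ⟨?_, hib⟩
              rcases hi with rfl | rfl
              · exact h2
              · exact h3
          rcases h with rfl | rfl
          · obtain ⟨l, hl, hlt⟩ := key2 true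
            exact ⟨l, List.mem_cons_of_mem _ hl, hlt⟩
          · obtain ⟨l, hl, hlt⟩ := key2 false
            exact ⟨l, List.mem_cons_of_mem _ hl, hlt⟩
  · rintro ⟨B, hB, hcl⟩
    set K := (base I).K with hK
    set m := (base I).m with hm
    have hKle : K ≤ (toD I).K := by rw [toD_K]; exact Nat.le_add_right _ _
    refine ⟨B, ?_, ?_⟩
    · intro k hk a a' haa
      refine hB k (lt_of_lt_of_le hk hKle) a a' fun j hj hd => haa j hj ?_
      rw [toD_dep_lt I hk] at hd
      exact hd
    · rintro a c hc ⟨p, hp, hok⟩
      have hmem : patCl m K p c.2 ∈ (toD I).2.2 := by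
        change _ ∈ allCl m K I.1 I.2.2
        unfold allCl
        rw [List.mem_append, List.mem_flatMap]
        exact Or.inl ⟨c, hc, List.mem_map.2 ⟨p, hp, rfl⟩⟩
      obtain ⟨l, hl, hlt⟩ := hcl a _ hmem
      unfold patCl at hl
      rw [List.mem_append, List.mem_append] at hl
      rcases hl with hl | hl | hl
      · exfalso
        rw [List.mem_map] at hl
        obtain ⟨e, he, rfl⟩ := hl
        rw [List.mem_filter] at he
        obtain ⟨he, hlt2⟩ := he
        rw [Bool.and_eq_true, decide_eq_true_iff, decide_eq_true_iff] at hlt2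
        obtain ⟨h1, h2⟩ := hlt2
        have heq := hok.1 e he h1 h2
        unfold DInst.litTrue at hlt
        rw [if_pos rfl] at hlt
        have hlt' : e.1 * m + e.2 < m * m := by
          calc e.1 * m + e.2 < e.1 * m + m := by omega
            _ = (e.1 + 1) * m := by ring
            _ ≤ m * m := Nat.mul_le_mul_right _ h1
        have hm0 : 0 < m := lt_of_le_of_lt (Nat.zero_le _) h1
        have e3 : (e.1 * m + e.2) / m = e.1 := by
          rw [Nat.add_comm, Nat.add_mul_div_right _ _ hm0, Nat.div_eq_of_lt h2, Nat.zero_add]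
        have e4 : (e.1 * m + e.2) % m = e.2 := by
          rw [Nat.add_comm, Nat.add_mul_mod_self_right, Nat.mod_eq_of_lt h2]
        have haux : ∀ cl ∈ auxCl m K (e.1 * m + e.2), cl ∈ (toD I).2.2 := by
          intro cl hcl'
          change _ ∈ allCl m K I.1 I.2.2
          unfold allCl
          rw [List.mem_append, List.mem_flatMap]
          exact Or.inr (List.mem_flatMap.2 ⟨_, List.mem_range.2 hlt', hcl'⟩)
        have hval := hlt.2
        simp only at hval
        have key : ∀ b : Bool, a e.1 = b := by
          intro b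
          have hm' : [((true, false, K + (e.1 * m + e.2)) : Lit), (false, b, (e.1 * m + e.2) / m),
              (false, b, (e.1 * m + e.2) % m)] ∈ (toD I).2.2 := by
            apply haux
            unfold auxCl
            cases b <;> simp
          obtain ⟨l, hl, hlt3⟩ := hcl a _ hm'
          rw [e3, e4] at hl
          simp only [List.mem_cons, List.not_mem_nil, or_false] at hl
          rcases hl with rfl | rfl | rfl
          · unfold DInst.litTrue at hlt3
            rw [if_pos rfl] at hlt3
            have := hlt3.2
            simp only at this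
            rw [hval] at this
            exact absurd this (by simp)
          · unfold DInst.litTrue at hlt3
            rw [if_neg (by simp)] at hlt3
            exact hlt3.2
          · unfold DInst.litTrue at hlt3
            rw [if_neg (by simp)] at hlt3
            rw [heq]
            exact hlt3.2
        have := (key true).symm.trans (key false)
        exact absurd this (by simp)
      · exfalso
        rw [List.mem_map] at hl
        obtain ⟨c', hc', rfl⟩ := hl
        unfold DInst.litTrue at hlt
        rw [if_neg (by simp)] at hlt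
        have h1 := hok.2 c' hc' hlt.1
        have h2 := hlt.2
        simp only at h2
        rw [h1] at h2
        cases h3 : c'.2 <;> simp [h3] at h2
      · rw [List.mem_filter] at hl
        obtain ⟨hl, hlk⟩ := hl
        refine ⟨l, hl, ?_⟩
        unfold DInst.litTrue at hlt ⊢
        split_ifs at hlt ⊢ with h1
        · refine ⟨?_, hlt.2⟩
          have : l.2.2 < K := by simpa [h1] using hlk
          exact this
        · exact hlt


/-! ### the translation is computable in polynomial time -/

theorem poly_patCl {α : Type} [TEnc α] {m K : α → ℕ} {p : α → Pat} {C : α → List Lit}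
    (hm : NPC.Poly m) (hK : NPC.Poly K) (hp : NPC.Poly p) (hC : NPC.Poly C) :
    NPC.Poly (fun a => patCl (m a) (K a) (p a) (C a)) := by
  unfold patCl
  fun_prop

theorem poly_auxCl {α : Type} [TEnc α] {m K r : α → ℕ}
    (hm : NPC.Poly m) (hK : NPC.Poly K) (hr : NPC.Poly r) :
    NPC.Poly (fun a => auxCl (m a) (K a) (r a)) := by
  unfold auxCl
  fun_prop

theorem poly_toD : NPC.Poly toD := by
  have hI1 : NPC.Poly (fun I : GInst => I.1) := NPC.Poly.fst NPC.Poly.id
  have hI2 : NPC.Poly (fun I : GInst => I.2.1) := NPC.Poly.fst (NPC.Poly.snd NPC.Poly.id)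
  have hI3 : NPC.Poly (fun I : GInst => I.2.2) := NPC.Poly.snd (NPC.Poly.snd NPC.Poly.id)
  have hr : NPC.Poly (fun I : GInst => List.range (I.1.length * I.1.length)) :=
    (UPoly.mul (UPoly.length hI1) (UPoly.length hI1)).range
  have hm : NPC.Poly (fun I : GInst => I.1.length) := (UPoly.length hI1).toPoly
  have hK : NPC.Poly (fun I : GInst => I.2.1.length) := (UPoly.length hI2).toPoly
  have h1 : NPC.Poly (fun I : GInst => (List.range (I.1.length * I.1.length)).map
      (fun _ => I.1.map (fun _ => true))) :=
    NPC.Poly.map (F := fun (I : GInst) (_ : ℕ) => I.1.map (fun _ => true)) hr (by fun_prop)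
  have h2 : NPC.Poly (fun I : GInst => allCl I.1.length I.2.1.length I.1 I.2.2) := by
    unfold allCl
    refine NPC.Poly.append ?_ ?_
    · refine NPC.Poly.flatMap (F := fun (I : GInst) (c : List Pat × List Lit) =>
        c.1.map (fun p => patCl I.1.length I.2.1.length p c.2)) hI3 ?_
      refine NPC.Poly.map (F := fun (q : GInst × (List Pat × List Lit)) (p : Pat) =>
        patCl q.1.1.length q.1.2.1.length p q.2.2) (NPC.Poly.fst (NPC.Poly.snd NPC.Poly.id)) ?_
      exact poly_patCl (by fun_prop) (by fun_prop) (by fun_prop) (by fun_prop)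
    · refine NPC.Poly.flatMap (F := fun (I : GInst) (r : ℕ) =>
        auxCl I.1.length I.2.1.length r) hr ?_
      exact poly_auxCl (by fun_prop) (by fun_prop) (by fun_prop)
  exact NPC.Poly.pair hI1 (NPC.Poly.pair (NPC.Poly.append hI2 h1) h2)

/-- guarded DQBF reduces to DQBF -/
theorem hardX_dq_of_guard (h : HardX GSat) : HardX DQSat := h.trans poly_toD sat_toD

/-! ### numbers written by the universal variables -/

/-- the number with binary digits `a X, a (X+1), …, a (X+n-1)` (least significant first) -/
def val (a : ℕ → Bool) : ℕ → ℕ → ℕ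
  | _, 0 => 0
  | X, n + 1 => (a X).toNat + 2 * val a (X + 1) n

theorem val_lt (a : ℕ → Bool) (X n : ℕ) : val a X n < 2 ^ n := by
  induction n generalizing X with
  | zero => simp [val]
  | succ n ih =>
    have := ih (X + 1)
    have h2 : (a X).toNat ≤ 1 := Bool.toNat_le _
    rw [val, pow_succ]
    omega

/-- all indices below `n + 1`: zero or a successor -/
theorem forall_lt_succ' {n : ℕ} {P : ℕ → Prop} :
    (∀ i < n + 1, P i) ↔ P 0 ∧ ∀ i < n, P (i + 1) := by
  constructor
  · intro h
    exact ⟨h 0 (by omega), fun i hi => h (i + 1) (by omega)⟩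
  · rintro ⟨h0, h1⟩ i hi
    cases i with
    | zero => exact h0
    | succ i => exact h1 i (by omega)

theorem exists_lt_succ' {n : ℕ} {P : ℕ → Prop} :
    (∃ i < n + 1, P i) ↔ P 0 ∨ ∃ i < n, P (i + 1) := by
  constructor
  · rintro ⟨i, hi, h⟩
    cases i with
    | zero => exact Or.inl h
    | succ i => exact Or.inr ⟨i, by omega, h⟩
  · rintro (h | ⟨i, hi, h⟩)
    · exact ⟨0, by omega, h⟩
    · exact ⟨i + 1, by omega, h⟩

theorem val_eq_iff (a : ℕ → Bool) (X Y n : ℕ) :
    val a X n = val a Y n ↔ ∀ i < n, a (X + i) = a (Y + i) := by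
  induction n generalizing X Y with
  | zero => simp [val]
  | succ n ih =>
    rw [forall_lt_succ', val, val]
    have e : ∀ Z i, a (Z + (i + 1)) = a (Z + 1 + i) := fun Z i => by
      rw [show Z + (i + 1) = Z + 1 + i by ring]
    simp only [e, ← ih, Nat.add_zero]
    cases a X <;> cases a Y <;> simp [Bool.toNat] <;> omega

theorem val_const (a : ℕ → Bool) (X n c : ℕ) (hc : c < 2 ^ n) :
    val a X n = c ↔ ∀ i < n, a (X + i) = c.testBit i := by
  induction n generalizing X c with
  | zero => simp [val]; simp at hc; omega
  | succ n ih =>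
    rw [forall_lt_succ', val]
    have e : ∀ Z i, a (Z + (i + 1)) = a (Z + 1 + i) := fun Z i => by
      rw [show Z + (i + 1) = Z + 1 + i by ring]
    have h2 : c / 2 < 2 ^ n := by rw [pow_succ] at hc; omega
    simp only [e, Nat.add_zero, Nat.testBit_succ, ← ih (X + 1) (c / 2) h2, Nat.testBit_zero]
    rcases Nat.mod_two_eq_zero_or_one c with h | h <;> cases a X <;> simp [Bool.toNat, h] <;> omega

theorem val_succ_iff (a : ℕ → Bool) (X Y n : ℕ) :
    val a Y n = val a X n + 1 ↔ ∃ i < n, ((∀ l < i, a (X + l) = true ∧ a (Y + l) = false) ∧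
      a (X + i) = false ∧ a (Y + i) = true) ∧ ∀ l < n, i < l → a (X + l) = a (Y + l) := by
  induction n generalizing X Y with
  | zero => simp [val]
  | succ n ih =>
    rw [exists_lt_succ', val, val]
    have e : ∀ Z i, a (Z + (i + 1)) = a (Z + 1 + i) := fun Z i => by
      rw [show Z + (i + 1) = Z + 1 + i by ring]
    have h1 : (∀ l < n + 1, 0 < l → a (X + l) = a (Y + l)) ↔ val a (X + 1) n = val a (Y + 1) n := by
      rw [forall_lt_succ', val_eq_iff]
      simp only [e, Nat.lt_irrefl, false_imp_iff, true_and, Nat.succ_pos, true_imp_iff]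
    have h2 : (∃ i < n, ((∀ l < i + 1, a (X + l) = true ∧ a (Y + l) = false) ∧
        a (X + (i + 1)) = false ∧ a (Y + (i + 1)) = true) ∧
          ∀ l < n + 1, i + 1 < l → a (X + l) = a (Y + l)) ↔
        (a X = true ∧ a Y = false) ∧ val a (Y + 1) n = val a (X + 1) n + 1 := by
      rw [ih]
      constructor
      · rintro ⟨i, hi, ⟨h3, h4, h5⟩, h6⟩
        rw [forall_lt_succ'] at h3 h6
        exact ⟨h3.1, i, hi, ⟨fun l hl => by rw [← e, ← e]; exact h3.2 l hl,
          by rw [← e]; exact h4, by rw [← e]; exact h5⟩,
          fun l hl hil => by rw [← e, ← e]; exact h6.2 l hl (by omega)⟩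
      · rintro ⟨h0, i, hi, ⟨h3, h4, h5⟩, h6⟩
        refine ⟨i, hi, ⟨?_, by rw [e]; exact h4, by rw [e]; exact h5⟩, ?_⟩
        · rw [forall_lt_succ']
          exact ⟨h0, fun l hl => by rw [e, e]; exact h3 l hl⟩
        · rw [forall_lt_succ']
          exact ⟨by omega, fun l hl hil => by rw [e, e]; exact h6 l hl (by omega)⟩
    rw [h1, h2]
    simp only [Nat.add_zero, Nat.not_lt_zero, false_imp_iff, implies_true, true_and]
    cases a X <;> cases a Y <;> simp [Bool.toNat] <;> omega

theorem val_lt_iff (a : ℕ → Bool) (X Y n : ℕ) :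
    val a X n < val a Y n ↔ ∃ i < n, (a (X + i) = false ∧ a (Y + i) = true) ∧
      ∀ l < n, i < l → a (X + l) = a (Y + l) := by
  induction n generalizing X Y with
  | zero => simp [val]
  | succ n ih =>
    rw [exists_lt_succ', val, val]
    have e : ∀ Z i, a (Z + (i + 1)) = a (Z + 1 + i) := fun Z i => by
      rw [show Z + (i + 1) = Z + 1 + i by ring]
    have h1 : (∀ l < n + 1, 0 < l → a (X + l) = a (Y + l)) ↔ val a (X + 1) n = val a (Y + 1) n := by
      rw [forall_lt_succ', val_eq_iff]
      simp only [e, Nat.lt_irrefl, false_imp_iff, true_and, Nat.succ_pos, true_imp_iff]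
    have h2 : (∃ i < n, (a (X + (i + 1)) = false ∧ a (Y + (i + 1)) = true) ∧
          ∀ l < n + 1, i + 1 < l → a (X + l) = a (Y + l)) ↔
        val a (X + 1) n < val a (Y + 1) n := by
      rw [ih]
      constructor
      · rintro ⟨i, hi, ⟨h4, h5⟩, h6⟩
        rw [forall_lt_succ'] at h6
        exact ⟨i, hi, ⟨by rw [← e]; exact h4, by rw [← e]; exact h5⟩,
          fun l hl hil => by rw [← e, ← e]; exact h6.2 l hl (by omega)⟩
      · rintro ⟨i, hi, ⟨h4, h5⟩, h6⟩
        refine ⟨i, hi, ⟨by rw [e]; exact h4, by rw [e]; exact h5⟩, ?_⟩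
        rw [forall_lt_succ']
        exact ⟨by omega, fun l hl hil => by rw [e, e]; exact h6 l hl (by omega)⟩
    rw [h1, h2]
    simp only [Nat.add_zero]
    cases a X <;> cases a Y <;> simp [Bool.toNat] <;> omega

theorem val_lt_pow_iff (a : ℕ → Bool) (X n p : ℕ) :
    val a X n < 2 ^ p ↔ ∀ i < n, p ≤ i → a (X + i) = false := by
  induction n generalizing X p with
  | zero => simp [val]
  | succ n ih =>
    rw [forall_lt_succ', val]
    have e : ∀ Z i, a (Z + (i + 1)) = a (Z + 1 + i) := fun Z i => by
      rw [show Z + (i + 1) = Z + 1 + i by ring]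
    cases p with
    | zero =>
      have h := ih (X + 1) 0
      simp only [Nat.zero_le, true_imp_iff, pow_zero, Nat.lt_one_iff] at h
      simp only [Nat.zero_le, true_imp_iff, e, ← h, Nat.add_zero]
      cases a X <;> simp [Bool.toNat]
    | succ p =>
      have h := ih (X + 1) p
      simp only [Nat.add_le_add_iff_right, e, ← h, pow_succ]
      cases a X <;> simp [Bool.toNat] <;> omega

/-! ### guards -/

/-- equality of the numbers at `X` and `Y` -/
def gEq (X Y n : ℕ) : List Pat := [((List.range n).map (fun i => (X + i, Y + i)), [])]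

/-- the number at `X` is `c` -/
def gConst (X n c : ℕ) : List Pat :=
  [([], (List.range n).map (fun i => (X + i, c.bits.getD i false)))]

/-- the number at `Y` is the successor of the number at `X` -/
def gSucc (X Y n : ℕ) : List Pat := (List.range n).map (fun i =>
  (((List.range n).filter (fun l => decide (i < l))).map (fun l => (X + l, Y + l)),
    (X + i, false) :: (Y + i, true) :: ((List.range n).filter (fun l => decide (l < i))).flatMap
      (fun l => [(X + l, true), (Y + l, false)])))

/-- the number at `X` is less than the number at `Y` -/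
def gLt (X Y n : ℕ) : List Pat := (List.range n).map (fun i =>
  (((List.range n).filter (fun l => decide (i < l))).map (fun l => (X + l, Y + l)),
    [(X + i, false), (Y + i, true)]))

/-- the number at `X` is less than `2 ^ p` -/
def gLtPow (X n p : ℕ) : List Pat :=
  [([], ((List.range n).filter (fun i => decide (p ≤ i))).map (fun i => (X + i, false)))]

/-- no condition -/
def gTrue : List Pat := [([], [])]

/-- conjunction -/
def gAnd (G G' : List Pat) : List Pat :=
  G.flatMap (fun p => G'.map (fun q => (p.1 ++ q.1, p.2 ++ q.2)))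

section sem

variable {m : ℕ} {a : ℕ → Bool}

theorem gTrue_iff : GOk m a gTrue ↔ True := by
  simp [GOk, gTrue, POk]

theorem gAnd_iff {G G' : List Pat} : GOk m a (gAnd G G') ↔ GOk m a G ∧ GOk m a G' := by
  have key : ∀ p q : Pat, POk m a (p.1 ++ q.1, p.2 ++ q.2) ↔ POk m a p ∧ POk m a q := by
    intro p q
    simp only [POk, List.mem_append, or_imp, forall_and]
    tauto
  unfold GOk gAnd
  constructor
  · rintro ⟨p, hp, hok⟩
    rw [List.mem_flatMap] at hp
    obtain ⟨q, hq, hp⟩ := hp
    rw [List.mem_map] at hp
    obtain ⟨r, hr, rfl⟩ := hp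
    rw [key] at hok
    exact ⟨⟨q, hq, hok.1⟩, ⟨r, hr, hok.2⟩⟩
  · rintro ⟨⟨q, hq, h1⟩, ⟨r, hr, h2⟩⟩
    exact ⟨_, List.mem_flatMap.2 ⟨q, hq, List.mem_map.2 ⟨r, hr, rfl⟩⟩, (key q r).2 ⟨h1, h2⟩⟩

theorem gEq_iff {X Y n : ℕ} (hX : X + n ≤ m) (hY : Y + n ≤ m) :
    GOk m a (gEq X Y n) ↔ val a X n = val a Y n := by
  rw [val_eq_iff]
  simp only [GOk, gEq, POk, List.mem_singleton, exists_eq_left, List.mem_map, List.mem_range,
    forall_exists_index, and_imp, List.not_mem_nil, false_imp_iff, implies_true, and_true]
  constructor
  · intro h i hi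
    exact h _ i hi rfl (show X + i < m by omega) (show Y + i < m by omega)
  · rintro h e i hi rfl _ _
    exact h i hi

theorem bits_getD (c i : ℕ) : c.bits.getD i false = c.testBit i := by
  rw [List.getD_eq_getElem?_getD, Nat.testBit_eq_inth, List.getI_eq_getElem?_getD]
  rfl

theorem gConst_iff {X n c : ℕ} (hX : X + n ≤ m) (hc : c < 2 ^ n) :
    GOk m a (gConst X n c) ↔ val a X n = c := by
  rw [val_const _ _ _ _ hc]
  simp only [GOk, gConst, POk, List.mem_singleton, exists_eq_left, List.mem_map, List.mem_range,
    forall_exists_index, and_imp, List.not_mem_nil, false_imp_iff, implies_true, true_and,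
    bits_getD]
  constructor
  · intro h i hi
    exact h _ i hi rfl (show X + i < m by omega)
  · rintro h e i hi rfl _
    exact h i hi

theorem gSucc_iff {X Y n : ℕ} (hX : X + n ≤ m) (hY : Y + n ≤ m) :
    GOk m a (gSucc X Y n) ↔ val a Y n = val a X n + 1 := by
  rw [val_succ_iff]
  simp only [GOk, gSucc, List.mem_map, List.mem_range]
  constructor
  · rintro ⟨p, ⟨i, hi, rfl⟩, h1, h2⟩
    refine ⟨i, hi, ⟨fun l hl => ⟨?_, ?_⟩, ?_, ?_⟩, fun l hl hil => ?_⟩
    · exact h2 (X + l, true) (List.mem_cons_of_mem _ (List.mem_cons_of_mem _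
        (List.mem_flatMap.2 ⟨l, List.mem_filter.2 ⟨List.mem_range.2 (by omega), by simpa using hl⟩,
          by simp⟩))) (show X + l < m by omega)
    · exact h2 (Y + l, false) (List.mem_cons_of_mem _ (List.mem_cons_of_mem _
        (List.mem_flatMap.2 ⟨l, List.mem_filter.2 ⟨List.mem_range.2 (by omega), by simpa using hl⟩,
          by simp⟩))) (show Y + l < m by omega)
    · exact h2 (X + i, false) List.mem_cons_self (show X + i < m by omega)
    · exact h2 (Y + i, true) (List.mem_cons_of_mem _ List.mem_cons_self)
        (show Y + i < m by omega)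
    · exact h1 (X + l, Y + l) (List.mem_map.2 ⟨l, List.mem_filter.2 ⟨List.mem_range.2 hl,
        by simpa using hil⟩, rfl⟩) (show X + l < m by omega) (show Y + l < m by omega)
  · rintro ⟨i, hi, ⟨h1, h2, h3⟩, h4⟩
    refine ⟨_, ⟨i, hi, rfl⟩, ?_, ?_⟩
    · intro e he _ _
      rw [List.mem_map] at he
      obtain ⟨l, hl, rfl⟩ := he
      rw [List.mem_filter, List.mem_range, decide_eq_true_iff] at hl
      exact h4 l hl.1 hl.2
    · intro e he _
      rw [List.mem_cons, List.mem_cons, List.mem_flatMap] at he
      rcases he with rfl | rfl | ⟨l, hl, he⟩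
      · exact h2
      · exact h3
      · rw [List.mem_filter, List.mem_range, decide_eq_true_iff] at hl
        rw [List.mem_cons, List.mem_singleton] at he
        rcases he with rfl | rfl
        · exact (h1 l hl.2).1
        · exact (h1 l hl.2).2

theorem gLt_iff {X Y n : ℕ} (hX : X + n ≤ m) (hY : Y + n ≤ m) :
    GOk m a (gLt X Y n) ↔ val a X n < val a Y n := by
  rw [val_lt_iff]
  simp only [GOk, gLt, List.mem_map, List.mem_range]
  constructor
  · rintro ⟨p, ⟨i, hi, rfl⟩, h1, h2⟩
    refine ⟨i, hi, ⟨?_, ?_⟩, fun l hl hil => ?_⟩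
    · exact h2 (X + i, false) List.mem_cons_self (show X + i < m by omega)
    · exact h2 (Y + i, true) (List.mem_cons_of_mem _ List.mem_cons_self)
        (show Y + i < m by omega)
    · exact h1 (X + l, Y + l) (List.mem_map.2 ⟨l, List.mem_filter.2 ⟨List.mem_range.2 hl,
        by simpa using hil⟩, rfl⟩) (show X + l < m by omega) (show Y + l < m by omega)
  · rintro ⟨i, hi, ⟨h2, h3⟩, h4⟩
    refine ⟨_, ⟨i, hi, rfl⟩, ?_, ?_⟩
    · intro e he _ _
      rw [List.mem_map] at he
      obtain ⟨l, hl, rfl⟩ := he
      rw [List.mem_filter, List.mem_range, decide_eq_true_iff] at hl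
      exact h4 l hl.1 hl.2
    · intro e he _
      rw [List.mem_cons, List.mem_singleton] at he
      rcases he with rfl | rfl
      · exact h2
      · exact h3

theorem gLtPow_iff {X n p : ℕ} (hX : X + n ≤ m) :
    GOk m a (gLtPow X n p) ↔ val a X n < 2 ^ p := by
  rw [val_lt_pow_iff]
  simp only [GOk, gLtPow, POk, List.mem_singleton, exists_eq_left, List.mem_map, List.mem_filter,
    List.mem_range, decide_eq_true_eq, forall_exists_index, and_imp, List.not_mem_nil,
    false_imp_iff, implies_true, true_and]
  constructor
  · intro h i hi hpi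
    exact h _ i hi hpi rfl (show X + i < m by omega)
  · rintro h e i hi hpi rfl _
    exact h i hi hpi

end sem

section poly

variable {α : Type} [TEnc α] {X Y n c p : α → ℕ}

theorem poly_gEq (hX : NPC.Poly X) (hY : NPC.Poly Y) (hn : UPoly n) :
    NPC.Poly (fun a => gEq (X a) (Y a) (n a)) := by
  have hr : NPC.Poly (fun a => List.range (n a)) := hn.range
  unfold gEq
  refine NPC.Poly.cons (NPC.Poly.pair (NPC.Poly.map (F := fun a i => (X a + i, Y a + i)) hr
    (by fun_prop)) (NPC.Poly.const _)) (NPC.Poly.const _)

theorem poly_gConst (hX : NPC.Poly X) (hc : NPC.Poly c) (hn : UPoly n) :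
    NPC.Poly (fun a => gConst (X a) (n a) (c a)) := by
  have hr : NPC.Poly (fun a => List.range (n a)) := hn.range
  have hb : NPC.Poly (fun a => (c a).bits) := NPC.Poly.natBits hc
  unfold gConst
  have hb' : NPC.Poly (fun q : α × ℕ => (c q.1).bits) := hb.comp (NPC.Poly.fst NPC.Poly.id)
  refine NPC.Poly.cons (NPC.Poly.pair (NPC.Poly.const _) (NPC.Poly.map
    (F := fun a i => (X a + i, (c a).bits.getD i false)) hr (NPC.Poly.pair (by fun_prop)
      (NPC.Poly.getD hb' (NPC.Poly.snd NPC.Poly.id) (NPC.Poly.const _))))) (NPC.Poly.const _)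

theorem poly_gLtPow (hX : NPC.Poly X) (hp : NPC.Poly p) (hn : UPoly n) :
    NPC.Poly (fun a => gLtPow (X a) (n a) (p a)) := by
  have hr : NPC.Poly (fun a => List.range (n a)) := hn.range
  unfold gLtPow
  refine NPC.Poly.cons (NPC.Poly.pair (NPC.Poly.const _) (NPC.Poly.map
    (F := fun a i => (X a + i, false)) (NPC.Poly.filter (p := fun a i => decide (p a ≤ i)) hr
      (by fun_prop)) (by fun_prop))) (NPC.Poly.const _)

theorem poly_gSucc (hX : NPC.Poly X) (hY : NPC.Poly Y) (hn : UPoly n) :
    NPC.Poly (fun a => gSucc (X a) (Y a) (n a)) := by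
  have hr : NPC.Poly (fun a => List.range (n a)) := hn.range
  have hr' : NPC.Poly (fun q : α × ℕ => List.range (n q.1)) := hr.comp (NPC.Poly.fst NPC.Poly.id)
  unfold gSucc
  refine NPC.Poly.map (F := fun a i =>
    (((List.range (n a)).filter (fun l => decide (i < l))).map (fun l => (X a + l, Y a + l)),
    (X a + i, false) :: (Y a + i, true) :: ((List.range (n a)).filter (fun l => decide (l < i))).flatMap
      (fun l => [(X a + l, true), (Y a + l, false)]))) hr ?_
  have h1 : NPC.Poly (fun q : α × ℕ => (List.range (n q.1)).filter (fun l => decide (q.2 < l))) :=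
    NPC.Poly.filter (p := fun (q : α × ℕ) l => decide (q.2 < l)) hr' (by fun_prop)
  have h2 : NPC.Poly (fun q : α × ℕ => (List.range (n q.1)).filter (fun l => decide (l < q.2))) :=
    NPC.Poly.filter (p := fun (q : α × ℕ) l => decide (l < q.2)) hr' (by fun_prop)
  refine NPC.Poly.pair (NPC.Poly.map (F := fun (q : α × ℕ) l => (X q.1 + l, Y q.1 + l)) h1
    (by fun_prop)) (NPC.Poly.cons (by fun_prop) (NPC.Poly.cons (by fun_prop)
    (NPC.Poly.flatMap (F := fun (q : α × ℕ) l => [(X q.1 + l, true), (Y q.1 + l, false)]) h2
    (by fun_prop))))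

theorem poly_gLt (hX : NPC.Poly X) (hY : NPC.Poly Y) (hn : UPoly n) :
    NPC.Poly (fun a => gLt (X a) (Y a) (n a)) := by
  have hr : NPC.Poly (fun a => List.range (n a)) := hn.range
  have hr' : NPC.Poly (fun q : α × ℕ => List.range (n q.1)) := hr.comp (NPC.Poly.fst NPC.Poly.id)
  unfold gLt
  refine NPC.Poly.map (F := fun a i =>
    (((List.range (n a)).filter (fun l => decide (i < l))).map (fun l => (X a + l, Y a + l)),
    [(X a + i, false), (Y a + i, true)])) hr ?_
  have h1 : NPC.Poly (fun q : α × ℕ => (List.range (n q.1)).filter (fun l => decide (q.2 < l))) :=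
    NPC.Poly.filter (p := fun (q : α × ℕ) l => decide (q.2 < l)) hr' (by fun_prop)
  refine NPC.Poly.pair (NPC.Poly.map (F := fun (q : α × ℕ) l => (X q.1 + l, Y q.1 + l)) h1
    (by fun_prop)) (by fun_prop)

theorem poly_gAnd {G G' : α → List Pat} (hG : NPC.Poly G) (hG' : NPC.Poly G') :
    NPC.Poly (fun a => gAnd (G a) (G' a)) := by
  unfold gAnd
  refine NPC.Poly.flatMap (F := fun a (p : Pat) => (G' a).map (fun q => (p.1 ++ q.1, p.2 ++ q.2)))
    hG ?_
  exact NPC.Poly.map (F := fun (r : α × Pat) (q : Pat) => (r.2.1 ++ q.1, r.2.2 ++ q.2))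
    (hG'.comp (NPC.Poly.fst NPC.Poly.id)) (by fun_prop)

end poly

end Pool.Agent.H528R2.Guard
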