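import Pool.Agent.H528R2.Defs
import Pool.Agent.NPC.Dec
import Pool.Agent.NPC.Hard
import Pool.Agent.ER.ToSysPoly

/-!
# The existential theory of `ℚ`, `NEXP`, systems of elementary constraints over `ℚ`
-/

namespace Pool.Agent.H528R2

open Pool.Agent.NPC

/-! ### nondeterministic exponential time -/

/-- The class `NEXP`: languages with certificates of at most exponential length which can be
verified in time polynomial in the length of the input and of the certificate. -/
def InNEXP (L : Set (List Bool)) : Prop :=
  ∃ (V : List Bool → List Bool) (p : Polynomial ℕ), PolyTime V ∧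
    ∀ x, x ∈ L ↔ ∃ w : List Bool, w.length ≤ 2 ^ (p.eval x.length) ∧ V (pairBits x w) = [true]

/-- `NEXP`-hardness under polynomial-time many-one reductions -/
def NEXPHard (L : Set (List Bool)) : Prop := ∀ L', InNEXP L' → Reduces L' L

/-- internal version of hardness, for decision problems about structured data -/
def HardX {α : Type} [TEnc α] (P : α → Prop) : Prop :=
  ∀ L : Set (List Bool), InNEXP L → ∃ f : List Bool → α,
    PC (fun x : List Bool => x) (bits : α → List Bool) f ∧ ∀ x, x ∈ L ↔ P (f x)

/-! ### the existential theory of the field of rational numbers -/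

/-- The value of a polynomial expression (variables, `0`, `1`, `+`, `-`, `*`) at a rational
point. -/
def evalQ (x : ℕ → ℚ) : ER.Tm → ℚ
  | .var i => x i
  | .zero => 0
  | .one => 1
  | .add s t => evalQ x s + evalQ x t
  | .neg t => - evalQ x t
  | .mul s t => evalQ x s * evalQ x t

/-- Quantifier-free formulas of the language of rings: Boolean combinations of equations between
polynomials with integer coefficients. -/
inductive QFm : Type
  | eq (s t : ER.Tm) : QFm
  | not (φ : QFm) : QFm
  | and (φ ψ : QFm) : QFm
  | or (φ ψ : QFm) : QFm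
  deriving DecidableEq, Inhabited

/-- Truth of a quantifier-free formula at a rational point. -/
def QFm.Holds (x : ℕ → ℚ) : QFm → Prop
  | .eq s t => evalQ x s = evalQ x t
  | .not φ => ¬ φ.Holds x
  | .and φ ψ => φ.Holds x ∧ ψ.Holds x
  | .or φ ψ => φ.Holds x ∨ ψ.Holds x

/-- The existential closure of `φ` is true in the field `ℚ`. -/
def ETQ (φ : QFm) : Prop := ∃ x : ℕ → ℚ, φ.Holds x

/-- the same formula, in the syntax of `ER.Fm`: only used to write formulas as strings -/
def QFm.toFm : QFm → ER.Fm
  | .eq s t => .eq s t
  | .not φ => .not φ.toFm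
  | .and φ ψ => .and φ.toFm ψ.toFm
  | .or φ ψ => .or φ.toFm ψ.toFm

theorem QFm.toFm_injective : Function.Injective QFm.toFm := by
  intro a
  induction a with
  | eq s t => intro b h; cases b <;> simp_all [QFm.toFm]
  | not φ ih =>
    intro b h
    cases b <;> simp [QFm.toFm] at h
    rw [ih h]
  | and φ ψ ih1 ih2 =>
    intro b h
    cases b <;> simp [QFm.toFm] at h
    rw [ih1 h.1, ih2 h.2]
  | or φ ψ ih1 ih2 =>
    intro b h
    cases b <;> simp [QFm.toFm] at h
    rw [ih1 h.1, ih2 h.2]

instance : TEnc QFm := ⟨fun φ => toT φ.toFm, fun _ _ h => QFm.toFm_injective (TEnc.inj h)⟩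

/-! ### systems of elementary constraints over `ℚ` -/

/-- Validity over `ℚ` of the constraints `x i = 1`, `x i + x j = x k`, `x i * x j = x k`. -/
def HoldsQ (v : ℕ → ℚ) : ER.Con → Prop
  | .one i => v i = 1
  | .add i j k => v i + v j = v k
  | .mul i j k => v i * v j = v k

def QSat (S : List ER.Con) : Prop := ∃ v : ℕ → ℚ, ∀ c ∈ S, HoldsQ v c

/-- relations on `ℚ` which are defined by a fixed system of elementary constraints (the free
variables are `0, …, k-1`, the others are existentially quantified) -/
def DioQ (k : ℕ) (R : (Fin k → ℚ) → Prop) : Prop :=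
  ∃ S : List ER.Con, ∀ x, R x ↔ ∃ v : ℕ → ℚ, (∀ i : Fin k, v i = x i) ∧ ∀ c ∈ S, HoldsQ v c

end Pool.Agent.H528R2
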