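import Pool.Agent.H583R2.Bin
import Pool.Agent.H528R2.QDefs
import Pool.Agent.H622R2.CoNP

/-!
# `NEXP` is not contained in `NP`

A universal simulation of Mathlib's Turing machines (`Pool.Agent.H583R2.U`), exhaustive search for
complements of `NP` languages, and a diagonal argument.
-/

namespace Pool.Agent.H528R2.Hier

open Turing
open Pool.Agent.H583R2
open Pool.Agent.NPC (PolyTime pairBits InNP InP Reduces)

/-! ### polynomial bounds -/

theorem poly_le_pow (p : Polynomial ℕ) : ∃ k, ∀ n, p.eval n ≤ (n + 2) ^ k := by
  induction p using Polynomial.induction_on' with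
  | add p q hp hq =>
    obtain ⟨k, hk⟩ := hp
    obtain ⟨l, hl⟩ := hq
    refine ⟨max k l + 1, fun n => ?_⟩
    rw [Polynomial.eval_add, pow_succ]
    have h1 : (n + 2) ^ k ≤ (n + 2) ^ (max k l) :=
      Nat.pow_le_pow_right (by omega) (le_max_left _ _)
    have h2 : (n + 2) ^ l ≤ (n + 2) ^ (max k l) :=
      Nat.pow_le_pow_right (by omega) (le_max_right _ _)
    have h3 := hk n
    have h4 := hl n
    nlinarith [Nat.zero_le ((n + 2) ^ (max k l) * n)]
  | monomial m a =>
    refine ⟨a + m, fun n => ?_⟩
    rw [Polynomial.eval_monomial, pow_add]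
    exact Nat.mul_le_mul (Nat.lt_pow_self (by omega)).le (Nat.pow_le_pow_left (by omega) m)

theorem pow_lt_two_pow (k : ℕ) : ∃ N, ∀ n, N ≤ n → n ^ k < 2 ^ n := by
  have h := tendsto_pow_const_div_const_pow_of_one_lt (r := (2 : ℝ)) k (by norm_num)
  have h2 := h.eventually (gt_mem_nhds (show (0 : ℝ) < 1 by norm_num))
  obtain ⟨N, hN⟩ := Filter.eventually_atTop.1 h2
  refine ⟨N, fun n hn => ?_⟩
  have h3 := hN n hn
  rw [div_lt_one (by positivity)] at h3
  exact_mod_cast h3

section
variable {α : Type} [TEnc α]

theorem pf_pow {n : α → ℕ} (hn : PF n) (k : ℕ) : PF (fun a => n a ^ k) := by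
  induction k with
  | zero => exact (PF.const 1).congr (fun a => (pow_zero _).symm)
  | succ k ih => exact (PF.mul ih hn).congr (fun a => (pow_succ _ _).symm)

theorem pf_eval {n : α → ℕ} (hn : PF n) (p : Polynomial ℕ) : PF (fun a => p.eval (n a)) := by
  induction p using Polynomial.induction_on' with
  | add p q hp hq => exact (PF.add hp hq).congr (fun a => (Polynomial.eval_add).symm)
  | monomial m c =>
    exact (PF.mul (PF.const c) (pf_pow hn m)).congr (fun a => (Polynomial.eval_monomial).symm)

theorem pf_pairBits {x w : α → List Bool} (hx : PF x) (hw : PF w) :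
    PF (fun a => pairBits (x a) (w a)) :=
  PF.append (PF.flatMap (f := fun _ b => [true, b]) hx
    (PF.cons (PF.const true) (PF.cons PF.snd (PF.const [])))) (PF.cons (PF.const false) hw)

end

theorem spl_pairBits (x w : List Bool) : spl (pairBits x w) = (x, w) := by
  unfold spl pairBits
  rw [List.foldl_append, spl_aux1, List.foldl_cons]
  have e : splStep ((false, false), (x.reverse ++ [], [])) false =
    ((true, false), (x.reverse ++ [], [])) := rfl
  rw [e, spl_aux2]
  simp

theorem pairBits_length (x w : List Bool) : (pairBits x w).length = 2 * x.length + 1 + w.length := by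
  unfold pairBits
  rw [List.length_append, List.length_flatMap]
  simp
  omega

/-! ### the two notions of polynomial time -/

theorem code_of_polyTime {V : List Bool → List Bool} (h : PolyTime V) :
    ∃ (c : Code) (k : ℕ), ∀ x t, (x.length + 2) ^ k ≤ t → U c x t = some (V x) := by
  obtain ⟨M⟩ := h
  obtain ⟨k, hk⟩ := poly_le_pow (Polynomial.C (maxDep M.tm) * M.time)
  refine ⟨codeOf M.inputAlphabet M.outputAlphabet, k, fun x t ht => ?_⟩
  refine U_codeOf M.inputAlphabet M.outputAlphabet x (V x) (M.time.eval x.length)
    (M.outputsFun x) t ?_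
  have := hk x.length
  rw [Polynomial.eval_mul, Polynomial.eval_C] at this
  exact this.trans ht

theorem pf_of_polyTime {V : List Bool → List Bool} (h : PolyTime V) : PF V := by
  obtain ⟨c, k, hc⟩ := code_of_polyTime h
  have h1 : PF (fun x : List Bool => (U c x ((x.length + 2) ^ k)).getD []) :=
    PF.getD (PF.U.comp (PF.pair (PF.const c) (PF.pair PF.id
      (pf_pow (PF.add (PF.length PF.id) (PF.const 2)) k)))) (PF.const [])
  refine h1.congr (fun x => ?_)
  rw [hc x _ le_rfl]
  rfl

theorem polyTime_of_pf {f : List Bool → List Bool} (h : PF f) : PolyTime f := by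
  obtain ⟨c, ⟨k, hk⟩, hc⟩ := h
  obtain ⟨M, hM⟩ := hasTM hc (fun n => (Polynomial.C 60 * Polynomial.X +
    Polynomial.C 13 * (Polynomial.C 4 * Polynomial.X + Polynomial.C 3) ^ k +
    Polynomial.C 40 : Polynomial ℕ).eval n) (by
    intro x
    simp only [Polynomial.eval_add, Polynomial.eval_mul, Polynomial.eval_C, Polynomial.eval_X,
      Polynomial.eval_pow]
    have h1 := hk x
    have h2 : (sz x + 2) ^ k ≤ (4 * x.length + 3) ^ k :=
      Nat.pow_le_pow_left (by have := sz_str_le x; omega) k
    have h3 := h1.trans h2
    omega)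
  refine ⟨{ toTM2ComputableAux := M.toTM2ComputableAux
            time := Polynomial.C 60 * Polynomial.X +
              Polynomial.C 13 * (Polynomial.C 4 * Polynomial.X + Polynomial.C 3) ^ k +
              Polynomial.C 40
            outputsFun := fun x => ?_ }⟩
  have := M.outputsFun x
  rw [hM] at this
  exact this

/-! ### the universal simulation is stable -/

theorem U_succ (c : Code) (x : List Bool) (t : ℕ) {r : List Bool} (h : U c x t = some r) :
    U c x (t + 1) = some r := by
  unfold U at h ⊢
  have h1 : ¬ (runU c x t).1 < c.1.length := by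
    intro h2
    rw [if_pos (by simpa using h2)] at h
    cases h
  have h2 : runU c x (t + 1) = runU c x t := by
    unfold runU
    rw [Function.iterate_succ_apply']
    change stepU c.1 (runU c x t) = runU c x t
    unfold stepU
    rw [List.getElem?_eq_none (by omega)]
  rw [h2]
  exact h

theorem U_mono (c : Code) (x : List Bool) {t t' : ℕ} (htt : t ≤ t') {r : List Bool}
    (h : U c x t = some r) : U c x t' = some r := by
  induction t', htt using Nat.le_induction with
  | base => exact h
  | succ n _ ih => exact U_succ c x n ih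

/-! ### complements of `NP` languages are in `NEXP` -/

theorem compl_inNEXP {L : Set (List Bool)} (h : InNP L) : InNEXP Lᶜ := by
  obtain ⟨V, p, hV, hL⟩ := h
  have hVp := pf_of_polyTime hV
  have hx : PF (fun y : List Bool => (spl y).1) := PF.fst' (PF.spl PF.id)
  have hw : PF (fun y : List Bool => (spl y).2) := PF.snd' (PF.spl PF.id)
  have hW : PF (fun y : List Bool =>
      if decide (p.eval (spl y).1.length + 1 ≤ (str (spl y).2.length).length) &&
        (List.range (spl y).2.length).all (fun i =>
          !(decide ((str i).length ≤ p.eval (spl y).1.length) &&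
            (V (pairBits (spl y).1 (str i)) == [true]))) then [true] else ([] : List Bool)) := by
    refine PF.ite (PF.and (PF.le (PF.add (pf_eval (PF.length hx) p) (PF.const 1))
      (PF.length (PF.str (PF.length hw)))) ?_) (PF.const _) (PF.const _)
    refine PF.all (l := fun y : List Bool => List.range (spl y).2.length)
      (f := fun y i => !(decide ((str i).length ≤ p.eval (spl y).1.length) &&
            (V (pairBits (spl y).1 (str i)) == [true]))) (PF.range (PF.length hw)) ?_
    have hx' : PF (fun q : List Bool × ℕ => (spl q.1).1) := hx.comp PF.fst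
    exact PF.not (PF.and (PF.le (PF.length (PF.str PF.snd)) (pf_eval (PF.length hx') p))
      (PF.beqStr (hVp.comp (pf_pairBits hx' (PF.str PF.snd))) (PF.const _)))
  refine ⟨_, p + 1, polyTime_of_pf hW, fun x => ?_⟩
  constructor
  · intro hxL
    refine ⟨List.replicate (2 ^ (p + 1).eval x.length) true, by simp, ?_⟩
    rw [if_pos]
    rw [spl_pairBits]
    simp only [List.length_replicate, Bool.and_eq_true, decide_eq_true_eq, List.all_eq_true,
      List.mem_range, Bool.not_eq_true', Bool.and_eq_false_iff, decide_eq_false_iff_not,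
      beq_eq_false_iff_ne]
    rw [Polynomial.eval_add, Polynomial.eval_one]
    refine ⟨?_, fun i _ => ?_⟩
    · have h1 : 1 ≤ 2 ^ (p.eval x.length) := Nat.one_le_two_pow
      have h2 : 2 ^ (p.eval x.length + 1) = 2 ^ (p.eval x.length) * 2 := pow_succ _ _
      have h3 : 2 ^ (p.eval x.length + 1 + 1) = 2 ^ (p.eval x.length + 1) * 2 := pow_succ _ _
      have h4 : (str (2 ^ (p.eval x.length + 1))).length = p.eval x.length + 1 :=
        length_str_eq (by omega) (by rw [h3, h2]; omega)
      rw [h4]
    · by_contra hcon
      push Not at hcon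
      exact hxL ((hL x).2 ⟨str i, hcon.1, hcon.2⟩)
  · rintro ⟨w, _, hw2⟩ hxL
    obtain ⟨u, hu, hVu⟩ := (hL x).1 hxL
    rw [spl_pairBits] at hw2
    split at hw2
    · rename_i hc
      simp only [Bool.and_eq_true, decide_eq_true_eq, List.all_eq_true,
        List.mem_range, Bool.not_eq_true', Bool.and_eq_false_iff, decide_eq_false_iff_not,
        beq_eq_false_iff_ne] at hc
      obtain ⟨h1, h2⟩ := hc
      have h3 := h2 (idx u) ?_
      · rw [str_idx] at h3
        rcases h3 with h3 | h3
        · exact h3 hu
        · exact h3 hVu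
      · have h4 := idx_lt u
        have h5 := le_idx (str w.length)
        rw [idx_str] at h5
        have h6 : 2 ^ (u.length + 1) ≤ 2 ^ (str w.length).length :=
          Nat.pow_le_pow_right (by norm_num) (by omega)
        omega
    · simp at hw2

/-! ### the diagonal language -/

/-- verifier of the diagonal language: run the code written in `x` on the pair of `x` and `u` -/
def diagV (y : List Bool) : List Bool :=
  if (U (decCode (parse (spl y).1)) (pairBits (spl y).1 (spl (spl y).2).1)
    (spl (spl y).2).2.length).getD [] == [true] then [true] else []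

/-- the diagonal language -/
def diagL : Set (List Bool) :=
  {x | ∃ w : List Bool, w.length ≤ 2 ^ x.length ∧ diagV (pairBits x w) = [true]}

theorem diagV_polyTime : PolyTime diagV := by
  refine polyTime_of_pf ?_
  have hx : PF (fun y : List Bool => (spl y).1) := PF.fst' (PF.spl PF.id)
  have hw : PF (fun y : List Bool => spl (spl y).2) := PF.spl (PF.snd' (PF.spl PF.id))
  have hU := PF.U.comp (PF.pair (PF.decCode (PF.parse hx))
    (PF.pair (pf_pairBits hx (PF.fst' hw)) (PF.length (PF.snd' hw))))
  exact PF.ite (PF.beqStr (PF.getD hU (PF.const [])) (PF.const _)) (PF.const _) (PF.const _)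

theorem diagL_inNEXP : InNEXP diagL := by
  refine ⟨diagV, Polynomial.X, diagV_polyTime, fun x => ?_⟩
  simp only [Polynomial.eval_X]
  rfl

theorem diagV_pair (x u z : List Bool) : diagV (pairBits x (pairBits u z)) = [true] ↔
    U (decCode (parse x)) (pairBits x u) z.length = some [true] := by
  unfold diagV
  rw [spl_pairBits, spl_pairBits]
  simp only
  rcases hU : U (decCode (parse x)) (pairBits x u) z.length with _ | r
  · simp
  · by_cases h : r = [true] <;> simp [h]

theorem mem_diagL_of {x u z : List Bool} (hl : 2 * u.length + 1 + z.length ≤ 2 ^ x.length)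
    (h : U (decCode (parse x)) (pairBits x u) z.length = some [true]) : x ∈ diagL :=
  ⟨pairBits u z, by rw [pairBits_length]; exact hl, (diagV_pair x u z).2 h⟩

theorem exists_of_mem_diagL {x : List Bool} (h : x ∈ diagL) :
    ∃ u t, U (decCode (parse x)) (pairBits x u) t = some [true] := by
  obtain ⟨w, _, hw⟩ := h
  refine ⟨(spl w).1, (spl w).2.length, ?_⟩
  unfold diagV at hw
  rw [spl_pairBits] at hw
  simp only at hw
  rcases hU : U (decCode (parse x)) (pairBits x (spl w).1) (spl w).2.length with _ | r
  · rw [hU] at hw
    simp at hw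
  · rw [hU] at hw
    by_cases h : r = [true]
    · rw [h]
    · simp [h] at hw

/-- The complement of the diagonal language is not in `NP`. -/
theorem diagL_compl_not_inNP : ¬ InNP diagLᶜ := by
  rintro ⟨V, p, hV, hL⟩
  have hVp := pf_of_polyTime hV
  have hx : PF (fun y : List Bool => (spl y).1) := PF.fst' (PF.spl PF.id)
  have hw : PF (fun y : List Bool => (spl y).2) := PF.snd' (PF.spl PF.id)
  have hW : PF (fun y : List Bool => if decide ((spl y).2.length ≤ p.eval (spl y).1.length) &&
      (V (pairBits (spl y).1 (spl y).2) == [true]) then [true] else ([] : List Bool)) :=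
    PF.ite (PF.and (PF.le (PF.length hw) (pf_eval (PF.length hx) p))
      (PF.beqStr (hVp.comp (pf_pairBits hx hw)) (PF.const _))) (PF.const _) (PF.const _)
  set W : List Bool → List Bool := fun y : List Bool =>
    if decide ((spl y).2.length ≤ p.eval (spl y).1.length) &&
      (V (pairBits (spl y).1 (spl y).2) == [true]) then [true] else ([] : List Bool) with hWdef
  have hWiff : ∀ x u, W (pairBits x u) = [true] ↔
      u.length ≤ p.eval x.length ∧ V (pairBits x u) = [true] := by
    intro x u
    rw [hWdef]
    simp only [spl_pairBits, Bool.and_eq_true, decide_eq_true_eq, beq_iff_eq]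
    split
    · rename_i h
      simp [h]
    · rename_i h
      simp [h]
  have hL' : ∀ x, x ∉ diagL ↔ ∃ u, W (pairBits x u) = [true] := by
    intro x
    have := hL x
    simp only [hWiff]
    exact this
  obtain ⟨c, k, hc⟩ := code_of_polyTime (polyTime_of_pf hW)
  obtain ⟨q, hq⟩ := poly_le_pow (Polynomial.C 2 * p + 1 +
    (Polynomial.C 2 * Polynomial.X + 1 + p + 2) ^ k)
  obtain ⟨N, hN⟩ := pow_lt_two_pow (q + q)
  set x : List Bool := ser (enc c) ++ List.replicate (N + 2) false with hxdef
  have hpx : decCode (parse x) = c := by rw [hxdef, parse_ser, decCode_enc]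
  have hxN : N + 2 ≤ x.length := by
    rw [hxdef, List.length_append, List.length_replicate]
    omega
  by_cases hmem : x ∈ diagL
  · obtain ⟨u, t, hut⟩ := exists_of_mem_diagL hmem
    rw [hpx] at hut
    refine (hL' x).2 ⟨u, ?_⟩ hmem
    have h1 := U_mono c (pairBits x u)
      (le_max_left t (((pairBits x u).length + 2) ^ k)) hut
    have h2 := hc (pairBits x u) (max t (((pairBits x u).length + 2) ^ k)) (le_max_right _ _)
    rw [h1] at h2
    exact (Option.some.inj h2).symm
  · obtain ⟨u, hu⟩ := (hL' x).1 hmem
    have hul := ((hWiff x u).1 hu).1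
    refine hmem (mem_diagL_of (u := u)
      (z := List.replicate (((pairBits x u).length + 2) ^ k) true) ?_ ?_)
    · rw [List.length_replicate, pairBits_length]
      have h1 := hq x.length
      simp only [Polynomial.eval_add, Polynomial.eval_mul, Polynomial.eval_C, Polynomial.eval_X,
        Polynomial.eval_pow, Polynomial.eval_one, Polynomial.eval_ofNat] at h1
      have h2 : (2 * x.length + 1 + u.length + 2) ^ k ≤
          (2 * x.length + 1 + p.eval x.length + 2) ^ k := Nat.pow_le_pow_left (by omega) k
      have h3 : (x.length + 2) ^ q ≤ x.length ^ (q + q) := by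
        rw [← two_mul, pow_mul]
        refine Nat.pow_le_pow_left ?_ q
        nlinarith
      have h4 := hN x.length (by omega)
      omega
    · rw [hpx, List.length_replicate, hc _ _ le_rfl, hu]

/-- **`NEXP` is not contained in `NP`.** -/
theorem exists_inNEXP_not_inNP : ∃ L, InNEXP L ∧ ¬ InNP L := by
  by_contra hcon
  push Not at hcon
  exact diagL_compl_not_inNP (hcon _ (compl_inNEXP (hcon _ diagL_inNEXP)))

end Pool.Agent.H528R2.Hier

namespace Pool.Agent.H528R2

open Pool.Agent.NPC

/-- A `NEXP`-hard language is not in `NP`. -/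
theorem NEXPHard.not_inNP {L : Set (List Bool)} (h : NEXPHard L) : ¬ InNP L := by
  intro hL
  obtain ⟨L', h1, h2⟩ := Hier.exists_inNEXP_not_inNP
  exact h2 (H622R2.InNP.of_reduces (h L' h1) hL)

/-- A `NEXP`-hard language is not in `coNP`. -/
theorem NEXPHard.not_inCoNP {L : Set (List Bool)} (h : NEXPHard L) : ¬ InCoNP L := fun hL =>
  Hier.diagL_compl_not_inNP
    (H622R2.InNP.of_reduces (H622R2.Reduces.compl (h _ Hier.diagL_inNEXP)) hL)

/-- A `NEXP`-hard language is not in `P`. -/
theorem NEXPHard.not_inP {L : Set (List Bool)} (h : NEXPHard L) : ¬ InP L := fun hL =>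
  h.not_inNP hL.inNP

end Pool.Agent.H528R2
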