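import Pool.Agent.H528R2.Val

/-!
# A polynomial with a coefficient of small valuation has a small value at one of `1, …, L`
-/

namespace Pool.Agent.H528R2.Chain

open Pool.Agent.H528R2 Polynomial

theorem vge_coeff {t : ℕ} (ht : t.Prime) (k : ℤ) (L : ℕ) :
    ∀ (f : ℚ[X]), f.natDegree < L → ∀ S : Finset ℤ, S.card = L →
      (∀ a ∈ S, ∀ b ∈ S, a ≠ b → ¬ (t : ℤ) ∣ a - b) →
      (∀ c ∈ S, Vge t k (f.eval (c : ℚ))) → ∀ n, Vge t k (f.coeff n) := by
  induction L with
  | zero => intro f hf; omega
  | succ L ih =>
    intro f hf S hS hd hv n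
    obtain ⟨a, ha⟩ : S.Nonempty := by
      rw [← Finset.card_pos]; omega
    set b := f.eval (a : ℚ) with hb
    have hbv : Vge t k b := hv a ha
    rcases Nat.eq_zero_or_pos L with hL | hL
    · subst hL
      have h0 : f.natDegree = 0 := by omega
      have h1 : f = C (f.coeff 0) := Polynomial.eq_C_of_natDegree_eq_zero h0
      have h2 : b = f.coeff 0 := by
        rw [hb, h1]; simp
      rw [h1, coeff_C]
      split_ifs
      · rw [← h2]; exact hbv
      · exact Vge.zero t k
    · set p := f - C b with hp
      have hroot : p.IsRoot (a : ℚ) := by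
        simp [hp, hb, IsRoot.def]
      set g := p /ₘ (X - C (a : ℚ)) with hg
      have hmul : (X - C (a : ℚ)) * g = p := mul_divByMonic_eq_iff_isRoot.2 hroot
      have hdeg : g.natDegree < L := by
        rw [hg, natDegree_divByMonic _ (monic_X_sub_C _), natDegree_X_sub_C, hp]
        have := natDegree_sub_C (p := f) (a := b)
        omega
      have hcoef := ih g hdeg (S.erase a) (by rw [Finset.card_erase_of_mem ha]; omega)
        (fun x hx y hy => hd x (Finset.mem_of_mem_erase hx) y (Finset.mem_of_mem_erase hy))
        (by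
          intro c hc
          have hca : c ≠ a := Finset.ne_of_mem_erase hc
          have hcS : c ∈ S := Finset.mem_of_mem_erase hc
          have h1 : (((c - a : ℤ)) : ℚ) * g.eval (c : ℚ) = f.eval (c : ℚ) - b := by
            have := congrArg (fun q => Polynomial.eval (c : ℚ) q) hmul
            simp only [eval_mul, eval_sub, eval_X, eval_C, hp] at this
            push_cast
            exact this
          have hne : (((c - a : ℤ)) : ℚ) ≠ 0 := by
            exact_mod_cast sub_ne_zero.2 hca
          have h2 : Vge t k (f.eval (c : ℚ) - b) := Vge.sub ht (hv c hcS) hbv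
          have h3 : padicValRat t (((c - a : ℤ)) : ℚ) = 0 := by
            rw [padicValRat.of_int]
            have := hd c hcS a ha hca
            exact_mod_cast padicValInt.eq_zero_of_not_dvd this
          rw [← h1] at h2
          rcases h2 with h2 | h2
          · left
            exact (mul_eq_zero.1 h2).resolve_left hne
          · by_cases h4 : g.eval (c : ℚ) = 0
            · exact Or.inl h4
            · right
              rw [val_mul ht hne h4, h3, zero_add] at h2
              exact h2)
      have hf : f = C b + (X * g - C (a : ℚ) * g) := by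
        rw [← sub_mul, hmul, hp]; ring
      rw [hf, coeff_add, coeff_sub, coeff_C_mul, coeff_C]
      refine Vge.add ht ?_ (Vge.sub ht ?_ ?_)
      · split_ifs
        · exact hbv
        · exact Vge.zero t k
      · cases n with
        | zero => rw [coeff_X_mul_zero]; exact Vge.zero t k
        | succ n => rw [coeff_X_mul]; exact hcoef n
      · exact Vge.int_mul ht a (hcoef n)

/-- Horner evaluation -/
def hor (c : ℚ) (xs : List ℚ) : ℚ := xs.foldr (fun x acc => x + c * acc) 0

theorem hor_vge {t : ℕ} (ht : t.Prime) {k : ℤ} (c : ℕ) (xs : List ℚ) (h : ∀ x ∈ xs, Vge t k x) :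
    Vge t k (hor c xs) := by
  induction xs with
  | nil => exact Vge.zero t k
  | cons x xs ih =>
    have h1 : hor c (x :: xs) = x + c * hor c xs := rfl
    rw [h1]
    exact Vge.add ht (h x (by simp)) (Vge.nat_mul ht c (ih (fun y hy => h y (by simp [hy]))))

/-- the polynomial with a given list of coefficients -/
noncomputable def pol (xs : List ℚ) : ℚ[X] := xs.foldr (fun x acc => C x + X * acc) 0

theorem pol_eval (c : ℚ) (xs : List ℚ) : (pol xs).eval c = hor c xs := by
  induction xs with
  | nil => simp [pol, hor]
  | cons x xs ih =>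
    have h1 : hor c (x :: xs) = x + c * hor c xs := rfl
    have h2 : pol (x :: xs) = C x + X * pol xs := rfl
    rw [h1, h2, ← ih]; simp

theorem pol_coeff (xs : List ℚ) (n : ℕ) : (pol xs).coeff n = xs.getD n 0 := by
  induction xs generalizing n with
  | nil => simp [pol]
  | cons x xs ih =>
    have h2 : pol (x :: xs) = C x + X * pol xs := rfl
    rw [h2]
    cases n with
    | zero => simp
    | succ n => simp [ih]

theorem pol_natDegree (xs : List ℚ) (h : xs ≠ []) : (pol xs).natDegree < xs.length := by
  have hl : 0 < xs.length := List.length_pos_iff.2 h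
  have : (pol xs).natDegree ≤ xs.length - 1 := by
    rw [natDegree_le_iff_coeff_eq_zero]
    intro N hN
    rw [pol_coeff, List.getD_eq_default]
    omega
  omega

/-- among the values at `1, …, L`, one has the smallest possible valuation -/
theorem exists_hor {t : ℕ} (ht : t.Prime) {k : ℤ} (xs : List ℚ) (hlen : xs.length < t)
    (h : ∀ x ∈ xs, Vge t k x) (h' : ∃ x ∈ xs, x ≠ 0 ∧ padicValRat t x = k) :
    ∃ c ∈ List.range xs.length, hor ((c + 1 : ℕ) : ℚ) xs ≠ 0 ∧
      padicValRat t (hor ((c + 1 : ℕ) : ℚ) xs) = k := by
  by_contra hcon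
  push Not at hcon
  obtain ⟨x, hx, hx0, hxk⟩ := h'
  have hne : xs ≠ [] := by rintro rfl; simp at hx
  obtain ⟨n, hn, rfl⟩ := List.getElem_of_mem hx
  set S : Finset ℤ := (Finset.range xs.length).image (fun c : ℕ => ((c + 1 : ℕ) : ℤ)) with hS
  have hcard : S.card = xs.length := by
    rw [hS, Finset.card_image_of_injective, Finset.card_range]
    intro a b hab
    simpa using hab
  have key := vge_coeff ht (k + 1) xs.length (pol xs) (pol_natDegree xs hne) S hcard
    (by
      intro a ha b hb hab hd
      obtain ⟨a', ha', rfl⟩ := Finset.mem_image.1 ha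
      obtain ⟨b', hb', rfl⟩ := Finset.mem_image.1 hb
      rw [Finset.mem_range] at ha' hb'
      have h1 : (((a' + 1 : ℕ) : ℤ) - ((b' + 1 : ℕ) : ℤ)) = 0 := by
        apply Int.eq_zero_of_abs_lt_dvd hd
        rw [abs_lt]
        push_cast
        constructor <;> omega
      exact hab (by omega))
    (by
      intro c hc
      obtain ⟨a, ha, rfl⟩ := Finset.mem_image.1 hc
      rw [Finset.mem_range] at ha
      have h1 := hcon a (List.mem_range.2 ha)
      have h2 := hor_vge ht (a + 1) xs h
      have h3 : ((((a + 1 : ℕ) : ℤ)) : ℚ) = ((a + 1 : ℕ) : ℚ) := by push_cast; rfl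
      rw [h3, pol_eval]
      by_cases h4 : hor ((a + 1 : ℕ) : ℚ) xs = 0
      · exact Or.inl h4
      · right
        have h5 := h1 h4
        have h6 := h2.le h4
        omega) n
  rw [pol_coeff, List.getD_eq_getElem _ _ hn] at key
  have := key.le hx0
  omega

end Pool.Agent.H528R2.Chain
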