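import Pool.Agent.H528R2.QDefs

/-!
# Systems of elementary constraints as formulas; transfer of `NEXP`-hardness
-/

namespace Pool.Agent.H528R2

open Pool.Agent.NPC

/-- an elementary constraint, as an equation -/
def conF : ER.Con → QFm
  | .one i => .eq (.var i) .one
  | .add i j k => .eq (.add (.var i) (.var j)) (.var k)
  | .mul i j k => .eq (.mul (.var i) (.var j)) (.var k)

theorem conF_holds (v : ℕ → ℚ) (c : ER.Con) : (conF c).Holds v ↔ HoldsQ v c := by
  cases c <;> rfl

/-- a system of elementary constraints, as a conjunction of equations -/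
def sysF : List ER.Con → QFm
  | [] => .eq .zero .zero
  | c :: S => .and (conF c) (sysF S)

theorem sysF_holds (v : ℕ → ℚ) (S : List ER.Con) :
    (sysF S).Holds v ↔ ∀ c ∈ S, HoldsQ v c := by
  induction S with
  | nil => simp [sysF, QFm.Holds]
  | cons c S ih => simp [sysF, QFm.Holds, ih, conF_holds]

theorem toks_sysF (S : List ER.Con) : (sysF S).toFm.toks =
    S.flatMap (fun c => (conF c).toFm.toks) ++
      ([ER.Tok.zero, ER.Tok.zero, ER.Tok.eq] ++ S.map (fun _ => ER.Tok.and)) := by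
  induction S with
  | nil => rfl
  | cons c S ih =>
    have h : (sysF (c :: S)).toFm.toks =
        (conF c).toFm.toks ++ (sysF S).toFm.toks ++ [ER.Tok.and] := rfl
    rw [h, ih]
    have h2 : S.map (fun _ => ER.Tok.and) ++ [ER.Tok.and] =
        (c :: S).map (fun _ => ER.Tok.and) := by
      simp only [List.map_const', List.length_cons]
      rw [List.replicate_succ']
    rw [List.flatMap_cons, ← h2]
    simp only [List.append_assoc]

theorem toks_conF (c : ER.Con) : (conF c).toFm.toks =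
    if c.code.1 = 0 then [ER.Tok.var c.code.2.1, ER.Tok.one, ER.Tok.eq]
    else if c.code.1 = 1 then [ER.Tok.var c.code.2.1, ER.Tok.var c.code.2.2.1, ER.Tok.add,
      ER.Tok.var c.code.2.2.2, ER.Tok.eq]
    else [ER.Tok.var c.code.2.1, ER.Tok.var c.code.2.2.1, ER.Tok.mul,
      ER.Tok.var c.code.2.2.2, ER.Tok.eq] := by
  cases c <;> rfl

theorem poly_qfm_of_toks {α : Type} [TEnc α] {f : α → QFm}
    (hf : NPC.Poly (fun a => (f a).toFm.toks)) : NPC.Poly f := hf

theorem poly_tok_var {α : Type} [TEnc α] {f : α → ℕ} (hf : NPC.Poly f) :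
    NPC.Poly (fun a => ER.Tok.var (f a)) :=
  show NPC.Poly (fun a => (ER.Tok.var (f a)).code) from (NPC.Poly.const 0).pair hf

theorem poly_toks_conF : NPC.Poly (fun c : ER.Con => (conF c).toFm.toks) := by
  have hc : NPC.Poly (fun c : ER.Con => c.code) := ER.poly_con_code NPC.Poly.id
  have h0 : NPC.Poly (fun c : ER.Con => c.code.1) := NPC.Poly.fst hc
  have h1 : NPC.Poly (fun c : ER.Con => c.code.2.1) := NPC.Poly.fst (NPC.Poly.snd hc)
  have h2 : NPC.Poly (fun c : ER.Con => c.code.2.2.1) := NPC.Poly.fst (NPC.Poly.snd (NPC.Poly.snd hc))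
  have h3 : NPC.Poly (fun c : ER.Con => c.code.2.2.2) := NPC.Poly.snd (NPC.Poly.snd (NPC.Poly.snd hc))
  have v1 := poly_tok_var h1
  have v2 := poly_tok_var h2
  have v3 := poly_tok_var h3
  have key : NPC.Poly (fun c : ER.Con =>
      if c.code.1 = 0 then [ER.Tok.var c.code.2.1, ER.Tok.one, ER.Tok.eq]
      else if c.code.1 = 1 then [ER.Tok.var c.code.2.1, ER.Tok.var c.code.2.2.1, ER.Tok.add,
        ER.Tok.var c.code.2.2.2, ER.Tok.eq]
      else [ER.Tok.var c.code.2.1, ER.Tok.var c.code.2.2.1, ER.Tok.mul,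
        ER.Tok.var c.code.2.2.2, ER.Tok.eq]) :=
    NPC.Poly.ite (NPC.Poly.decide_eq h0 (NPC.Poly.const 0))
      (v1.cons ((NPC.Poly.const _).cons (NPC.Poly.const _)))
      (NPC.Poly.ite (NPC.Poly.decide_eq h0 (NPC.Poly.const 1))
        (v1.cons (v2.cons ((NPC.Poly.const _).cons (v3.cons (NPC.Poly.const _)))))
        (v1.cons (v2.cons ((NPC.Poly.const _).cons (v3.cons (NPC.Poly.const _))))))
  exact key.congr fun c => (toks_conF c).symm

theorem poly_sysF : NPC.Poly sysF := by
  apply poly_qfm_of_toks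
  have h1 : NPC.Poly (fun S : List ER.Con => S.flatMap (fun c => (conF c).toFm.toks)) :=
    NPC.Poly.flatMap NPC.Poly.id (poly_toks_conF.comp (NPC.Poly.snd NPC.Poly.id))
  have h2 : NPC.Poly (fun S : List ER.Con => S.map (fun _ => ER.Tok.and)) :=
    NPC.Poly.map NPC.Poly.id (NPC.Poly.const _)
  exact (NPC.Poly.append h1 (NPC.Poly.append (NPC.Poly.const _) h2)).congr fun S => (toks_sysF S).symm

theorem exists_form : ∃ F : List ER.Con → QFm, Poly F ∧ ∀ S, QSat S ↔ ETQ (F S) :=
  ⟨sysF, poly_sysF, fun S => exists_congr fun v => (sysF_holds v S).symm⟩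

theorem HardX.trans {α β : Type} [TEnc α] [TEnc β] {P : α → Prop} {Q : β → Prop} (hP : HardX P)
    {f : α → β} (hf : NPC.Poly f) (h : ∀ a, P a ↔ Q (f a)) : HardX Q := by
  intro L hL
  obtain ⟨g, hg, hgL⟩ := hP L hL
  exact ⟨fun x => f (g x), PC.comp hf hg, fun x => (hgL x).trans (h _)⟩

theorem HardX.toNEXPHard {α : Type} [TEnc α] {P : α → Prop} (hP : HardX P) :
    NEXPHard (lang P) := by
  intro L hL
  obtain ⟨f, hf, hfL⟩ := hP L hL
  refine ⟨fun x => bits (f x), PC.toPolyTime hf, fun x => ?_⟩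
  rw [hfL x]
  constructor
  · intro h
    exact ⟨f x, rfl, h⟩
  · rintro ⟨a, ha, hPa⟩
    rw [bits_injective ha] at hPa
    exact hPa

end Pool.Agent.H528R2
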