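import Pool.Agent.H528R2.ChainC
import Pool.Agent.H528R2.Build
import Pool.Agent.H528R2.Dqbf
import Pool.Agent.H528R2.QForm
import Pool.Agent.H528R2.Hier

/-!
# The existential theory of the field of rational numbers is NEXP-hard
-/

namespace Pool.Agent.H528R2

open Pool.Agent.NPC

/-- solvability over `ℚ` of a system of elementary constraints is `NEXP`-hard -/
theorem hardX_QSat : HardX QSat := by
  obtain ⟨build, hb, hb'⟩ := exists_build
  exact hardX_dq.trans hb fun I => ((hb' I).trans (rsat_iff I)).symm

theorem nexpHard_etq : NEXPHard (lang ETQ) := by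
  obtain ⟨F, hF, hF'⟩ := exists_form
  exact (hardX_QSat.trans hF hF').toNEXPHard

end Pool.Agent.H528R2
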