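import Pool.Agent.H528R2.Atoms
import Pool.Agent.H528R2.Interp

/-!
# Soundness and completeness of the observation of a family of pairs of arrays
-/

namespace Pool.Agent.H528R2.Chain

open Pool.Agent.H528R2

theorem Nval_eq (c : ℕ) (ps : List (Arr × Arr)) :
    Nval c ps = hor c (ps.map (fun p => p.1.a0 * p.2.a1)) := by
  unfold Nval hor
  rw [List.foldr_map]

theorem val_list_prod {t : ℕ} (ht : t.Prime) (l : List ℚ)
    (h : ∀ x ∈ l, x ≠ 0 ∧ padicValRat t x = 0) : l.prod ≠ 0 ∧ padicValRat t l.prod = 0 := by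
  induction l with
  | nil => simp
  | cons a l ih =>
    have ih := ih (fun x hx => h x (by simp [hx]))
    have ha := h a (by simp)
    rw [List.prod_cons]
    exact ⟨mul_ne_zero ha.1 ih.1, by rw [val_mul ht ha.1 ih.1, ha.2, ih.2, add_zero]⟩

/-! ### soundness -/

/-- the index which a prime should see -/
def ge (M : ℤ) (p : ℤ × ℤ × Bool) : ℤ := if p.2.2 then p.2.1 - M else p.1

/-- the index which a prime should not see -/
def oe (M : ℤ) (p : ℤ × ℤ × Bool) : ℤ := if p.2.2 then p.1 else p.2.1 - M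

/-- gcd of a list of integers -/
def lgcd (l : List ℤ) : ℕ := l.foldr (fun x acc => Nat.gcd x.natAbs acc) 0

theorem lgcd_dvd {l : List ℤ} {x : ℤ} (hx : x ∈ l) : ((lgcd l : ℕ) : ℤ) ∣ x := by
  induction l with
  | nil => simp at hx
  | cons a l ih =>
    have h1 : lgcd (a :: l) = Nat.gcd a.natAbs (lgcd l) := rfl
    rw [h1]
    rcases List.mem_cons.1 hx with rfl | hx
    · exact Int.natCast_dvd.2 (Nat.gcd_dvd_left _ _)
    · exact dvd_trans (by exact_mod_cast Nat.gcd_dvd_right _ _) (ih hx)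

theorem dvd_lgcd {l : List ℤ} {d : ℕ} (h : ∀ x ∈ l, (d : ℤ) ∣ x) : d ∣ lgcd l := by
  induction l with
  | nil => exact dvd_zero d
  | cons a l ih =>
    exact Nat.dvd_gcd (Int.natCast_dvd.1 (h a (by simp))) (ih (fun x hx => h x (by simp [hx])))

theorem valInt_mono {t : ℕ} (ht : t.Prime) {m n : ℤ} (hn : n ≠ 0) (h : m ∣ n) :
    padicValInt t m ≤ padicValInt t n := by
  have := Fact.mk ht
  have h1 : (t : ℤ) ^ padicValInt t m ∣ m := padicValInt_dvd m
  have h2 := h1.trans h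
  rw [padicValInt_dvd_iff] at h2
  exact h2.resolve_left hn

/-- the minimum of the valuations is reached -/
theorem exists_val_lgcd {l : List ℤ} {t : ℕ} (ht : t.Prime) (h0 : ∀ x ∈ l, x ≠ 0)
    (hne : l ≠ []) : ∃ x ∈ l, padicValInt t x = padicValInt t (lgcd l) := by
  have := Fact.mk ht
  by_contra hcon
  push Not at hcon
  have h1 : ∀ x ∈ l, ((t ^ (padicValInt t (lgcd l) + 1) : ℕ) : ℤ) ∣ x := by
    intro x hx
    push_cast
    rw [padicValInt_dvd_iff]
    right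
    have h2 := valInt_mono ht (h0 x hx) (lgcd_dvd hx)
    have h3 := hcon x hx
    omega
  have h2 := dvd_lgcd h1
  have h3 : (t : ℤ) ^ (padicValInt t (lgcd l) + 1) ∣ ((lgcd l : ℕ) : ℤ) := by exact_mod_cast h2
  rw [padicValInt_dvd_iff] at h3
  rcases h3 with h3 | h3
  · obtain ⟨x, hx⟩ := List.exists_mem_of_ne_nil l hne
    have h4 := lgcd_dvd hx
    rw [h3] at h4
    exact h0 x hx (zero_dvd_iff.1 h4)
  · omega

theorem pow_dvd_of_rk {u t : ℕ} (hu : Inert u) {i : ℕ} (h : padicValNat u (rk t) = i)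
    {n : ℤ} {k : ℕ} (hr : (rk t : ℤ) ∣ 2 ^ k * n) : ((u ^ i : ℕ) : ℤ) ∣ n := by
  have h1 : ((u ^ i : ℕ) : ℤ) ∣ (rk t : ℤ) := by
    have := @pow_padicValNat_dvd u (rk t)
    rw [h] at this
    exact_mod_cast this
  have h2 := h1.trans hr
  have hcop : IsCoprime (((u ^ i : ℕ) : ℤ)) ((2 : ℤ) ^ k) := by
    have h3 : Nat.Coprime (u ^ i) (2 ^ k) := by
      apply Nat.Coprime.pow
      exact (Nat.coprime_primes hu.1 Nat.prime_two).2 (inert_ne_two hu)
    have := Nat.isCoprime_iff_coprime.2 h3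
    exact_mod_cast this
  exact hcop.dvd_of_dvd_mul_left h2

theorem rk_small' {t : ℕ} (ht : Inert t) (h : t < 17) : rk t ≤ 35 := by
  by_cases h7 : 7 ≤ t
  · have := rk_le ht h7
    omega
  · have h35 : t = 3 ∨ t = 5 := by
      rcases ht.2 with h8 | h8 <;> omega
    have h6 : rk t ∣ 6 := by exact_mod_cast rk_small h35
    have := Nat.le_of_dvd (by norm_num) h6
    omega

theorem ge_of_rk {t u v : ℕ} (ht : Inert t) (hu : Inert u) (hv : Inert v) (huv : u ≠ v)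
    (hu11 : 11 ≤ u) (hv11 : 11 ≤ v) (h0 : rk t ≠ 0) (h1 : u ∣ rk t) (h2 : v ∣ rk t) :
    17 ≤ t ∧ u < t := by
  have h3 : u * v ∣ rk t :=
    Nat.Coprime.mul_dvd_of_dvd_of_dvd ((Nat.coprime_primes hu.1 hv.1).2 huv) h1 h2
  have h4 : u * v ≤ rk t := Nat.le_of_dvd (Nat.pos_of_ne_zero h0) h3
  have h5 : u * 11 ≤ u * v := Nat.mul_le_mul_left u hv11
  have h17 : 17 ≤ t := by
    by_contra h
    have := rk_small' ht (by omega)
    omega
  have := rk_le ht (by omega)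
  exact ⟨h17, by omega⟩

theorem obs_sound {M : ℤ} (ps : List (ℤ × ℤ × Bool)) (h0 : ∀ p ∈ ps, p.1 ≠ 0)
    (h1 : ∀ p ∈ ps, p.2.1 ≠ M) {u v : ℕ} (hu : Inert u) (hv : Inert v) (huv : u ≠ v)
    (hu11 : 11 ≤ u) (hv11 : 11 ≤ v) {i j : ℕ}
    (hge : ∀ p ∈ ps, ((u ^ (i + 1) * v ^ (j + 1) : ℕ) : ℤ) ∣ ge M p)
    (hoe : ∀ p ∈ ps, ¬ (((u ^ (i + 1) : ℕ) : ℤ) ∣ oe M p ∧ ((v ^ (j + 1) : ℕ) : ℤ) ∣ oe M p))
    (hodd : ∃ p ∈ ps, Odd (ge M p)) (hlen : ps.length ≤ u)
    (hiu : ¬ (v ∣ rk u ∧ rk u ∣ u ^ i * v ^ (j + 1)))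
    (hiv : ¬ (u ∣ rk v ∧ rk v ∣ v ^ j * u ^ (i + 1)))
    {cls : List (List ℚ)}
    (h : ObsR (ps.map (fun p => (arrOf M p.1, arrOf M p.2.1))) cls) :
    ∃ t : ℕ, Inert t ∧ rk t ≠ 0 ∧ t ≠ 11 ∧ t ≠ 29 ∧ u < t ∧ (∀ p ∈ ps, Vis t (ge M p)) ∧
      (∀ p ∈ ps, ¬ Vis t (oe M p)) ∧
      padicValNat u (rk t) = i + 1 ∧ padicValNat v (rk t) = j + 1 ∧
      ∀ cl ∈ cls, ∃ x ∈ cl, Vge t 1 x := by
  obtain ⟨p₀, hp₀, hodd⟩ := hodd
  have hge0 : ∀ p ∈ ps, ge M p ≠ 0 := by
    intro p hp; unfold ge; split_ifs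
    · exact sub_ne_zero.2 (h1 p hp)
    · exact h0 p hp
  have hoe0 : ∀ p ∈ ps, oe M p ≠ 0 := by
    intro p hp; unfold oe; split_ifs
    · exact h0 p hp
    · exact sub_ne_zero.2 (h1 p hp)
  set G : ℕ := lgcd (ps.map (ge M)) with hG
  have hGd : ∀ p ∈ ps, (G : ℤ) ∣ ge M p := fun p hp => lgcd_dvd (List.mem_map.2 ⟨p, hp, rfl⟩)
  have hGodd : Odd (G : ℤ) := by
    rw [← Int.not_even_iff_odd] at hodd ⊢
    intro he
    exact hodd (he.trans_dvd (hGd p₀ hp₀))
  have hG0 : (G : ℤ) ≠ 0 := by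
    intro h; rw [h] at hGodd; simp at hGodd
  have hGdvd : ((u ^ (i + 1) * v ^ (j + 1) : ℕ) : ℤ) ∣ (G : ℤ) := by
    have : u ^ (i + 1) * v ^ (j + 1) ∣ G := by
      apply dvd_lgcd
      intro x hx
      obtain ⟨p, hp, rfl⟩ := List.mem_map.1 hx
      exact hge p hp
    exact_mod_cast this
  obtain ⟨t, ht, ht0, htG, htodd, htu, htv⟩ := core hu hv huv hu11 hv11 hGodd hGdvd hiu hiv
  have hut : u ∣ rk t := by
    have := @pow_padicValNat_dvd u (rk t)
    rw [htu] at this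
    exact (dvd_pow_self u (Nat.succ_ne_zero i)).trans this
  have hvt : v ∣ rk t := by
    have := @pow_padicValNat_dvd v (rk t)
    rw [htv] at this
    exact (dvd_pow_self v (Nat.succ_ne_zero j)).trans this
  have h17 := ge_of_rk ht hu hv huv hu11 hv11 ht0 hut hvt
  have huvdvd : u * v ∣ rk t :=
    Nat.Coprime.mul_dvd_of_dvd_of_dvd ((Nat.coprime_primes hu.1 hv.1).2 huv) hut hvt
  have h121 : 11 * 11 ≤ rk t :=
    (Nat.mul_le_mul hu11 hv11).trans (Nat.le_of_dvd (Nat.pos_of_ne_zero ht0) huvdvd)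
  have ht11 : t ≠ 11 := by
    rintro rfl; rw [rk_eleven] at h121; omega
  have ht29 : t ≠ 29 := by
    rintro rfl; rw [rk_29] at h121; omega
  have hvis : ∀ p ∈ ps, Vis t (ge M p) := fun p hp =>
    Vis.of_dvd (show Vis t (G : ℤ) from htG) (hGd p hp)
  have hnvis : ∀ p ∈ ps, ¬ (rk t : ℤ) ∣ 2 * (8 * oe M p) := by
    intro p hp hd
    have hd' : (rk t : ℤ) ∣ 2 ^ 4 * oe M p := by
      have : (2 : ℤ) * (8 * oe M p) = 2 ^ 4 * oe M p := by ring
      rwa [this] at hd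
    exact hoe p hp ⟨pow_dvd_of_rk hu htu hd', pow_dvd_of_rk hv htv hd'⟩
  -- the valuations of the observed quantities
  set xs : List ℚ := (ps.map (fun p => (arrOf M p.1, arrOf M p.2.1))).map
    (fun p => p.1.a0 * p.2.a1) with hxs
  have hxs' : xs = ps.map (fun p => (arrOf M p.1).a0 * (arrOf M p.2.1).a1) := by
    rw [hxs, List.map_map]; rfl
  have hval : ∀ p ∈ ps, (arrOf M p.1).a0 * (arrOf M p.2.1).a1 ≠ 0 ∧
      padicValRat t ((arrOf M p.1).a0 * (arrOf M p.2.1).a1) = dd t (8 * ge M p) := by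
    intro p hp
    have hz1 := zz_ne (eight_ne (h0 p hp))
    have hy1 := yy_ne (eight_ne (h0 p hp))
    have hz2 := zz_ne (eight_ne (sub_ne_zero.2 (h1 p hp)))
    have hy2 := yy_ne (eight_ne (sub_ne_zero.2 (h1 p hp)))
    have e1 : (arrOf M p.1).a0 = zz (8 * p.1) / yy (8 * p.1) := rfl
    have e2 : (arrOf M p.2.1).a1 = zz (8 * (p.2.1 - M)) / yy (8 * (p.2.1 - M)) := rfl
    have hg := val_zz_vis ht.1 (hge0 p hp) (hvis p hp)
    have ho := val_unit ht.1 h17.1 (eight_ne (hoe0 p hp)) (hnvis p hp)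
    refine ⟨?_, ?_⟩
    · rw [e1, e2]
      exact mul_ne_zero (div_ne_zero hz1 hy1) (div_ne_zero hz2 hy2)
    · rw [e1, e2, val_mul ht.1 (div_ne_zero hz1 hy1) (div_ne_zero hz2 hy2),
        val_div ht.1 hz1 hy1, val_div ht.1 hz2 hy2]
      unfold ge oe at *
      cases hb : p.2.2 with
      | false =>
        simp only [hb, Bool.false_eq_true, if_false] at hg ho ⊢
        omega
      | true =>
        simp only [hb, if_true] at hg ho ⊢
        omega
  have hdd : ∀ p ∈ ps, dd t (8 * ge M p) + padicValInt t (G : ℤ) =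
      dd t (8 * (G : ℤ)) + padicValInt t (ge M p) := by
    intro p hp
    have e1 := dd_eight ht (hge0 p hp) (hvis p hp)
    have e2 := dd_eight ht hG0 htG
    omega
  have hge_val : ∀ p ∈ ps, padicValInt t (G : ℤ) ≤ padicValInt t (ge M p) := fun p hp =>
    valInt_mono ht.1 (hge0 p hp) (hGd p hp)
  obtain ⟨x₁, hx₁, hx₁v⟩ := exists_val_lgcd (l := ps.map (ge M)) ht.1
    (by intro x hx; obtain ⟨p, hp, rfl⟩ := List.mem_map.1 hx; exact hge0 p hp)
    (by intro h; rw [List.map_eq_nil_iff] at h; rw [h] at hp₀; simp at hp₀)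
  obtain ⟨p₁, hp₁, rfl⟩ := List.mem_map.1 hx₁
  obtain ⟨c, hc, hcne, hcv⟩ := exists_hor ht.1 (k := (dd t (8 * (G : ℤ)) : ℤ)) xs
    (by rw [hxs', List.length_map]; omega)
    (by
      intro x hx
      rw [hxs'] at hx
      obtain ⟨p, hp, rfl⟩ := List.mem_map.1 hx
      right
      rw [(hval p hp).2]
      have := hdd p hp
      have := hge_val p hp
      omega)
    (by
      refine ⟨_, by rw [hxs']; exact List.mem_map.2 ⟨p₁, hp₁, rfl⟩, (hval p₁ hp₁).1, ?_⟩
      rw [(hval p₁ hp₁).2]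
      have := hdd p₁ hp₁
      rw [← hG] at hx₁v
      omega)
  refine ⟨t, ht, ht0, ht11, ht29, h17.2, hvis, fun p hp hd =>
    hnvis p hp (dvd_mul_of_dvd_right hd 2), htu, htv, ?_⟩
  intro cl hcl
  have hobs := h c (by
    rw [List.mem_range] at hc ⊢
    rw [hxs, List.length_map] at hc
    exact hc) cl hcl
  rw [Nval_eq] at hobs
  rw [← hxs] at hobs
  rcases hobs with hobs | hobs
  · exact absurd hobs hcne
  rw [test_iff hcne] at hobs
  have hfin := hobs t ht (by rw [hcv]; exact_mod_cast htodd)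
  set N := hor ((c + 1 : ℕ) : ℚ) xs with hN
  -- the exemption factors are units
  have hH : Hval N (ps.map (fun p => (arrOf M p.1, arrOf M p.2.1))) ≠ 0 ∧
      padicValRat t (Hval N (ps.map (fun p => (arrOf M p.1, arrOf M p.2.1)))) = 0 := by
    unfold Hval
    apply val_list_prod ht.1
    intro x hx
    rw [List.map_map] at hx
    obtain ⟨p, hp, rfl⟩ := List.mem_map.1 hx
    have hw0 : (arrOf M p.1).w0 ≠ 0 := one_div_ne_zero (zz_ne (eight_ne (h0 p hp)))
    have hw1 : (arrOf M p.2.1).w1 ≠ 0 :=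
      one_div_ne_zero (zz_ne (eight_ne (sub_ne_zero.2 (h1 p hp))))
    have hh := val_hst ht hcne hw0 hw1
    refine ⟨hh.1, ?_⟩
    have hh2 := hh.2
    simp only [Function.comp]
    rw [hh2, hcv]
    have e1 : (arrOf M p.1).w0 = 1 / zz (8 * p.1) := rfl
    have e2 : (arrOf M p.2.1).w1 = 1 / zz (8 * (p.2.1 - M)) := rfl
    rw [e1, e2, val_div ht.1 one_ne_zero (zz_ne (eight_ne (h0 p hp))),
      val_div ht.1 one_ne_zero (zz_ne (eight_ne (sub_ne_zero.2 (h1 p hp)))), padicValRat.one]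
    have hg := val_zz_vis ht.1 (hge0 p hp) (hvis p hp)
    have e3 := hdd p hp
    have e4 := hge_val p hp
    have e5 : |((dd t (8 * (G : ℤ)) : ℕ) : ℤ)| = (dd t (8 * (G : ℤ)) : ℤ) := abs_of_nonneg (by omega)
    rw [e5]
    unfold ge at hg e3 e4
    cases hb : p.2.2 with
    | false =>
      simp only [hb, Bool.false_eq_true, if_false] at hg e3 e4
      omega
    | true =>
      simp only [hb, if_true] at hg e3 e4
      omega
  have h319 : padicValRat t (319 : ℚ) = 0 := by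
    have : (319 : ℚ) = ((319 : ℤ) : ℚ) := by norm_num
    rw [this, padicValRat.of_int]
    have h2 : ¬ (t : ℤ) ∣ 319 := by
      intro hd
      have h3 : t ∣ 11 * 29 := by exact_mod_cast hd
      rcases (Nat.Prime.dvd_mul ht.1).1 h3 with h4 | h4
      · exact ht11 ((Nat.prime_dvd_prime_iff_eq ht.1 (by norm_num)).1 h4)
      · exact ht29 ((Nat.prime_dvd_prime_iff_eq ht.1 (by norm_num)).1 h4)
    exact_mod_cast padicValInt.eq_zero_of_not_dvd h2
  rw [← vge_one_Cval ht]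
  by_cases hC : Cval cl = 0
  · exact Or.inl hC
  right
  have hne1 : (319 : ℚ) * Hval N (ps.map (fun p => (arrOf M p.1, arrOf M p.2.1))) ≠ 0 :=
    mul_ne_zero (by norm_num) hH.1
  have := hfin.le (mul_ne_zero hne1 hC)
  rw [val_mul ht.1 hne1 hC, val_mul ht.1 (by norm_num) hH.1, hH.2, h319] at this
  omega

/-! ### completeness -/

theorem obs_complete {M : ℤ} (ps : List (ℤ × ℤ)) (h0 : ∀ p ∈ ps, p.1 ≠ 0)
    (h1 : ∀ p ∈ ps, p.2 ≠ M) {cls : List (List ℚ)}
    (h : ∀ t, Inert t → t ≠ 11 → t ≠ 29 → (∀ p ∈ ps, Vis t p.1 ∨ Vis t (p.2 - M)) →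
      ∀ cl ∈ cls, ∃ x ∈ cl, Vge t 1 x) :
    ObsR (ps.map (fun p => (arrOf M p.1, arrOf M p.2))) cls := by
  intro c _ cl hcl
  set N := Nval (c + 1) (ps.map (fun p => (arrOf M p.1, arrOf M p.2))) with hN
  by_cases hN0 : N = 0
  · exact Or.inl hN0
  right
  rw [test_iff hN0]
  intro q hq hodd
  have hvN : padicValRat q N ≠ 0 := by
    intro h; rw [h] at hodd; simp at hodd
  have hw0 : ∀ p ∈ ps, (arrOf M p.1).w0 ≠ 0 := fun p hp =>
    one_div_ne_zero (zz_ne (eight_ne (h0 p hp)))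
  have hw1 : ∀ p ∈ ps, (arrOf M p.2).w1 ≠ 0 := fun p hp =>
    one_div_ne_zero (zz_ne (eight_ne (sub_ne_zero.2 (h1 p hp))))
  have hall : ∀ x ∈ (ps.map (fun p => (arrOf M p.1, arrOf M p.2))).map
      (fun p => hst N p.1.w0 p.2.w1), Vge q 0 x := by
    intro x hx
    rw [List.map_map] at hx
    obtain ⟨p, hp, rfl⟩ := List.mem_map.1 hx
    right
    simp only [Function.comp]
    rw [(val_hst hq hN0 (hw0 p hp) (hw1 p hp)).2]
    omega
  have hH := vge_list_prod hq.1 _ hall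
  have h319 : Vge q 0 (319 : ℚ) := vge_ofNat q 319
  have hC := vge_Cval hq cl
  have hHC := Vge.mul hq.1 (Vge.mul hq.1 h319 hH) hC
  by_cases hq11 : q = 11 ∨ q = 29
  · have h319' : Vge q 1 (319 : ℚ) := by
      right
      have hf := Fact.mk hq.1
      have e : (319 : ℚ) = ((319 : ℕ) : ℚ) := by norm_num
      rw [e, padicValRat.of_nat]
      have : 1 ≤ padicValNat q 319 := by
        apply one_le_padicValNat_of_dvd (by norm_num)
        rcases hq11 with rfl | rfl <;> norm_num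
      exact_mod_cast this
    exact Vge.mul hq.1 (Vge.mul hq.1 h319' hH) hC
  push Not at hq11
  by_cases hvis : ∀ p ∈ ps, Vis q p.1 ∨ Vis q (p.2 - M)
  · have := (vge_one_Cval hq cl).2 (h q hq hq11.1 hq11.2 hvis cl hcl)
    exact (Vge.mul hq.1 (Vge.mul hq.1 h319 hH) this).mono (by norm_num)
  · push Not at hvis
    obtain ⟨p, hp, hv0, hv1⟩ := hvis
    have h1' : Vge q 1 (Hval N (ps.map (fun p => (arrOf M p.1, arrOf M p.2)))) := by
      unfold Hval
      rw [vge_one_list_prod hq.1 _ hall]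
      refine ⟨hst N (arrOf M p.1).w0 (arrOf M p.2).w1, ?_, ?_⟩
      · rw [List.map_map]
        exact List.mem_map.2 ⟨p, hp, rfl⟩
      · right
        rw [(val_hst hq hN0 (hw0 p hp) (hw1 p hp)).2]
        have e1 : (arrOf M p.1).w0 = 1 / zz (8 * p.1) := rfl
        have e2 : (arrOf M p.2).w1 = 1 / zz (8 * (p.2 - M)) := rfl
        rw [e1, e2, val_div hq.1 one_ne_zero (zz_ne (eight_ne (h0 p hp))),
          val_div hq.1 one_ne_zero (zz_ne (eight_ne (sub_ne_zero.2 (h1 p hp)))), padicValRat.one]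
        have e3 := val_zz_not_vis hq.1 (h0 p hp) hv0
        have e4 := val_zz_not_vis hq.1 (sub_ne_zero.2 (h1 p hp)) hv1
        have e5 : 0 < |padicValRat q N| := abs_pos.2 hvN
        omega
    exact (Vge.mul hq.1 (Vge.mul hq.1 h319 h1') hC).mono (by norm_num)

end Pool.Agent.H528R2.Chain
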