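import Pool.Agent.H528R2.Defs

/-!
STATEMENTS (stubs) of the modules. Never import this file in a hand-in.
Each module proves its statements, with the same names, in its own file
`Pool/Agent/H528R2/<Module>.lean`, in the namespace `Pool.Agent.H528R2`.
-/

namespace Pool.Agent.H528R2

/-! ## A1 `NormVal.lean` -/

/-- `√2` is irrational -/
theorem normForm_ne_zero {c e : ℚ} (h : ¬ (c = 0 ∧ e = 0)) : c ^ 2 - 2 * e ^ 2 ≠ 0 := sorry

/-- `2` is a non-residue modulo an inert prime: no cancellation in `c² - 2 e²` -/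
theorem val_normForm {q : ℕ} (hq : Inert q) {c e : ℚ} (hc : c ≠ 0) (he : e ≠ 0) :
    padicValRat q (c ^ 2 - 2 * e ^ 2) = 2 * min (padicValRat q c) (padicValRat q e) := sorry

theorem IsN.even_val {x : ℚ} (hx : IsN x) {q : ℕ} (hq : Inert q) : Even (padicValRat q x) := sorry

theorem IsN.mul {x y : ℚ} (hx : IsN x) (hy : IsN y) : IsN (x * y) := sorry
theorem IsN.inv {x : ℚ} (hx : IsN x) : IsN x⁻¹ := sorry
theorem IsN.sq {x : ℚ} (hx : x ≠ 0) : IsN (x ^ 2) := sorry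
theorem IsN.neg {x : ℚ} (hx : IsN x) : IsN (-x) := sorry

/-! ## A2 `NormRep.lean` (class number one) -/

theorem isN_prime {p : ℕ} (hp : p.Prime) (h : p = 2 ∨ p % 8 = 1 ∨ p % 8 = 7) : IsN (p : ℚ) := sorry

theorem isN_of_even {x : ℚ} (hx : x ≠ 0) (h : ∀ q, Inert q → Even (padicValRat q x)) : IsN x := sorry

/-! ## A3 `Legendre.lean` -/

/-- Legendre's theorem for `r x² - 2 a y² - l z²` (pigeonhole modulo `2 a r l`; the form is then
`0` or `-2arl`, the second case being transformed into the first). -/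
theorem legendre_special {r a l : ℕ} (hr : Squarefree r) (ha : Squarefree a) (hl : l.Prime)
    (hro : Odd r) (hao : Odd a) (hlo : Odd l) (hra : r.Coprime a) (hrl : r.Coprime l)
    (hal : a.Coprime l)
    (h1 : ∀ p, p.Prime → p ∣ r → IsSquare (-2 * a * l : ZMod p))
    (h2 : ∀ p, p.Prime → p ∣ a → IsSquare ((l * r : ℕ) : ZMod p))
    (h3 : IsSquare ((2 * a * r : ℕ) : ZMod l)) :
    ∃ x y z : ℤ, (x, y, z) ≠ (0, 0, 0) ∧ r * x ^ 2 = 2 * a * y ^ 2 + l * z ^ 2 := sorry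

/-! ## A4 `LOne.lean` (Dirichlet's theorem on primes and quadratic reciprocity)

Write `r = r₀ k²`; choose a prime `l ≡ 1 mod 8`, `l ∤ a r`, with `(l/p) = (r₀/p)` for `p ∣ a` and
`(l/p) = (-2a/p)` for `p ∣ r₀`. Then `(2 a r₀ / l) = (l / a r₀) = (r₀/a) (-2a/r₀) = 1`. -/

theorem exists_repr {a r : ℕ} (ha : Squarefree a) (hao : Odd a) (hr : r % 8 = 1)
    (har : a.Coprime r) : ∃ w : ℚ, IsN (r - 2 * a * w ^ 2) := sorry

/-! ## A5 `TestIff.lean` (uses A1, A2, A4)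

Soundness: if `v_q(N')` is odd and `N'(N' + G² - 2w²)` is a norm then `v_q(G) > v_q(N')/2`.
Completeness: `a = ∏` of the inert `q` with `v_q(N)` odd, `ν = 64 a / N`, `e` an integer
`≡ 1 mod a` and `≡ 0` modulo the denominator of `F`;
`64a + (32 a g)² - 2 (8a w')² = 64 a (1 + 16 a g² - 2 a w'²)`. -/

theorem test_iff {N F : ℚ} (hN : N ≠ 0) :
    Test N F ↔ ∀ q, Inert q → Odd (padicValRat q N) → Vge q 1 F := sorry

/-! ## B1 `CurvePt.lean`: the group law in coordinates, for arbitrary rational points -/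

theorem ptX_neg (P : Pt) : ptX (-P) = ptX P := sorry
theorem ptY_neg (P : Pt) : ptY (-P) = - ptY P := sorry
theorem pt_eq {P : Pt} (h : P ≠ 0) : ptY P ^ 2 = ptX P ^ 3 - 2 * ptX P ^ 2 + 65 * ptX P := sorry
theorem ptX_eq_iff {P Q : Pt} (hP : P ≠ 0) (hQ : Q ≠ 0) : ptX P = ptX Q ↔ P = Q ∨ P = -Q := sorry
/-- every affine rational solution with `z ≠ 0` is a point -/
theorem exists_pt {z y : ℚ} (hz : z ≠ 0) (h : y ^ 2 = z ^ 3 - 2 * z ^ 2 + 65 * z) :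
    ∃ P : Pt, P ≠ 0 ∧ ptX P = z ∧ ptY P = y := sorry
theorem pt_add {P Q : Pt} (hP : P ≠ 0) (hQ : Q ≠ 0) (h : ptX P ≠ ptX Q) :
    let l := (ptY P - ptY Q) / (ptX P - ptX Q)
    P + Q ≠ 0 ∧ ptX (P + Q) = l ^ 2 + 2 - ptX P - ptX Q ∧
      ptY (P + Q) = - (l * (ptX (P + Q) - ptX P) + ptY P) := sorry
theorem pt_dbl {P : Pt} (hP : P ≠ 0) (h : ptY P ≠ 0) :
    let l := (3 * ptX P ^ 2 - 4 * ptX P + 65) / (2 * ptY P)
    P + P ≠ 0 ∧ ptX (P + P) = l ^ 2 + 2 - 2 * ptX P ∧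
      ptX (P + P) = ((ptX P ^ 2 - 65) / (2 * ptY P)) ^ 2 ∧
      ptY (P + P) = - (l * (ptX (P + P) - ptX P) + ptY P) := sorry
/-- product formula -/
theorem pt_prod {P Q : Pt} (hP : P ≠ 0) (hQ : Q ≠ 0) (h : ptX P ≠ ptX Q) :
    ptX (P + Q) * ptX (P - Q) = ((ptX P * ptX Q - 65) / (ptX P - ptX Q)) ^ 2 := sorry
/-- sum formula -/
theorem pt_sum {P Q : Pt} (hP : P ≠ 0) (hQ : Q ≠ 0) (h : ptX P ≠ ptX Q) :
    ptX (P + Q) + ptX (P - Q) =
      2 * ((ptX P + ptX Q) * (ptX P * ptX Q + 65) - 4 * ptX P * ptX Q) / (ptX P - ptX Q) ^ 2 := sorry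
/-- the points with `Y = 0` -/
theorem ptY_eq_zero_iff {P : Pt} (hP : P ≠ 0) : ptY P = 0 ↔ ptX P = 0 := sorry
theorem ptX_nonneg (P : Pt) : 0 ≤ ptX P := sorry

/-! ## B2 `Filt.lean`: points with a pole at `s` form a subgroup (any prime `s`) -/

theorem pole_val {s : ℕ} (hs : s.Prime) {P : Pt} (h : padicValRat s (ptX P) < 0) :
    ∃ d : ℕ, 1 ≤ d ∧ padicValRat s (ptX P) = -2 * d ∧ padicValRat s (ptY P) = -3 * d := sorry
theorem pole_add {s : ℕ} (hs : s.Prime) {P Q : Pt} (hP : padicValRat s (ptX P) < 0)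
    (hQ : padicValRat s (ptX Q) < 0) : P + Q = 0 ∨ padicValRat s (ptX (P + Q)) < 0 := sorry

/-! ## B3 `Formal.lean`: the formal group (any prime `s`, also `s = 2`) -/

theorem pole_smul {s : ℕ} (hs : s.Prime) {P : Pt} (h : padicValRat s (ptX P) < 0) {k : ℤ}
    (hk : k ≠ 0) : k • P ≠ 0 ∧
      padicValRat s (ptX (k • P)) = padicValRat s (ptX P) - 2 * padicValInt s k := sorry

/-! ## B4 `ZZ.lean`: the functions `zz`, `yy` (uses B1, B2, B3) -/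

theorem smul_P0_ne {n : ℤ} (hn : n ≠ 0) : n • P0 ≠ 0 := sorry
theorem zz_one : zz 1 = 5 := sorry
theorem yy_one : yy 1 = 20 := sorry
theorem zz_four : zz 4 = 16 := sorry
theorem zz_five : zz 5 = 5 / 121 := sorry
theorem zz_seven : zz 7 = 85805 / 841 := sorry
theorem zz_eight : zz 8 = 36481 / 18496 := sorry
theorem zz_nine : zz 9 = 12121245 / 3728761 := sorry
theorem zz_neg (n : ℤ) : zz (-n) = zz n := sorry
theorem yy_neg (n : ℤ) : yy (-n) = - yy n := sorry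
theorem zz_pos {n : ℤ} (hn : n ≠ 0) : 0 < zz n := sorry
theorem yy_ne {n : ℤ} (hn : n ≠ 0) : yy n ≠ 0 := sorry
theorem zz_eq_iff {m n : ℤ} (hm : m ≠ 0) (hn : n ≠ 0) : zz m = zz n ↔ m = n ∨ m = -n := sorry
/-- the classes of `zz n` modulo squares -/
theorem sq_even {n : ℤ} (h : Even n) : IsSquare (zz n) := sorry
theorem sq_odd {n : ℤ} (h : Odd n) : IsSquare (5 * zz n) := sorry

/-! ## B5 `Rank.lean`: ranks of apparition (uses B2, B3, B4) -/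

theorem dvd_iff {s : ℕ} (hs : s.Prime) {n : ℤ} (hn : n ≠ 0) :
    (rk s : ℤ) ∣ n ↔ padicValRat s (zz n) < 0 := sorry
theorem val_zz {s : ℕ} (hs : s.Prime) {n : ℤ} (hn : n ≠ 0) (h : (rk s : ℤ) ∣ n) :
    padicValRat s (zz n) = -2 * dd s n ∧ padicValRat s (yy n) = -3 * dd s n ∧ 1 ≤ dd s n := sorry
theorem dd_eq {s : ℕ} (hs : s.Prime) {n : ℤ} (hn : n ≠ 0) (h : (rk s : ℤ) ∣ n) :
    dd s n + padicValNat s (rk s) = dd s (rk s) + padicValInt s n := sorry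
theorem dd_eq_zero {s : ℕ} (hs : s.Prime) {n : ℤ} (hn : n ≠ 0) (h : ¬ (rk s : ℤ) ∣ n) :
    dd s n = 0 := sorry
theorem finite_rk {n : ℤ} (hn : n ≠ 0) : {s : ℕ | s.Prime ∧ (rk s : ℤ) ∣ n}.Finite := sorry
theorem rk_eleven : rk 11 = 5 := sorry
theorem rk_29 : rk 29 = 7 := sorry
theorem rk_1931 : rk 1931 ∣ 9 ∧ rk 1931 ≠ 0 := sorry
/-- a point which is neither `≡ O` nor `≡` a 2-torsion point has unit coordinates -/
theorem val_unit {s : ℕ} (hs : s.Prime) (h : 17 ≤ s) {n : ℤ} (hn : n ≠ 0)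
    (h2 : ¬ (rk s : ℤ) ∣ 2 * n) : padicValRat s (zz n) = 0 ∧ padicValRat s (yy n) = 0 := sorry

/-! ## B6 `Diff.lean`: valuation of differences (uses B1, B2, B4) -/

/-- `v_s(zz m - zz n) ≡ dd s (m+n) + dd s (m-n) + [s = 5, m and n odd] (mod 2)` -/
theorem diff_parity {s : ℕ} (hs : Inert s) {m n : ℤ} (hm : m ≠ 0) (hn : n ≠ 0) (h1 : m ≠ n)
    (h2 : m ≠ -n) :
    ((padicValRat s (zz m - zz n) : ℤ) : ZMod 2) =
      (dd s (m + n) : ZMod 2) + (dd s (m - n) : ZMod 2) +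
        (if s = 5 ∧ Odd m ∧ Odd n then 1 else 0) := sorry
/-- pigeonhole on the values `zz n` modulo `s` -/
theorem rk_le {s : ℕ} (hs : Inert s) (h : 7 ≤ s) : rk s ≤ 2 * s + 1 := sorry

/-! ## B7 `Descent.lean`: `{Z ∈ □ ∪ 5□} = ℤ P0` (2-isogeny descent) -/

theorem generator {z y : ℚ} (hz : z ≠ 0) (h : y ^ 2 = z ^ 3 - 2 * z ^ 2 + 65 * z)
    (hsq : IsSquare z ∨ IsSquare (5 * z)) : ∃ n : ℤ, n ≠ 0 ∧ z = zz n ∧ y = yy n := sorry

/-! ## C1 `Recip.lean` -/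

theorem finite_val (x : ℚ) (hx : x ≠ 0) :
    {s : {s : ℕ // Inert s} | ((padicValRat s x : ℤ) : ZMod 2) ≠ 0}.Finite := sorry

/-- the parity of `∑_{s inert} v_s(x)` is given by the 2-adic class of `±x` -/
theorem recip {x : ℚ} {e : ℤ} {a b : ℤ} (ha : Odd a) (hb : Odd b)
    (h : x = 2 ^ e * ((a : ℚ) / b)) :
    (∑ᶠ s : {s : ℕ // Inert s}, ((padicValRat s x : ℤ) : ZMod 2)) =
      if (a * b) % 8 = 1 ∨ (a * b) % 8 = 7 then 0 else 1 := sorry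

/-! ## C2 `Rho.lean` (uses B4, B5, B6, C1) -/

theorem pr_neg (n : ℤ) : pr (-n) = pr n := sorry
/-- from `(m, n) = (k + 4, 4)` and `zz 4 = 16`, `zz (odd) ≡ 5 mod 8` -/
theorem pr_add_eight {n : ℤ} (h : Odd n) : pr (n + 8) = pr n + 1 := sorry
/-- from `(m, n) = ((k+1) n, n)` -/
theorem pr_mul {n k : ℤ} (hn : n ≠ 0) (h8 : 8 ∣ n) (hk : Odd k) :
    pr (n * k) = pr n + (if k % 8 = 3 ∨ k % 8 = 5 then 1 else 0) := sorry

/-! ## C3 `Core.lean` (uses B5, B6.rk_le, C2) -/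

/-- existence of a visible prime above two given inert primes -/
theorem core {u v : ℕ} (hu : Inert u) (hv : Inert v) (huv : u ≠ v) (hu11 : 11 ≤ u) (hv11 : 11 ≤ v)
    {i j : ℕ} {G : ℤ} (hG : Odd G) (h : ((u ^ (i + 1) * v ^ (j + 1) : ℕ) : ℤ) ∣ G)
    (hiu : ¬ (v ∣ rk u ∧ rk u ∣ u ^ i * v ^ (j + 1)))
    (hiv : ¬ (u ∣ rk v ∧ rk v ∣ v ^ j * u ^ (i + 1))) :
    ∃ t : ℕ, Inert t ∧ rk t ≠ 0 ∧ (rk t : ℤ) ∣ 8 * G ∧ Odd (dd t (8 * G)) ∧
      padicValNat u (rk t) = i + 1 ∧ padicValNat v (rk t) = j + 1 := sorry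

/-! ## D `Chain.lean` (helper528) -/

theorem rsat_iff (I : DInst) : RSat I ↔ DQSat I := sorry

end Pool.Agent.H528R2
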