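import Pool.Agent.H528R2.QDefs

/-! STATEMENTS (stubs) of the complexity modules. Never import this file in a hand-in. -/

namespace Pool.Agent.H528R2

open Pool.Agent.NPC

/-! ## E1 `Dio.lean`: the macros are Diophantine over `ℚ`
(uses B1/B4/B7: `(z,y) = (zz n, yy n)` for some odd (even nonzero) `n` iff `z ≠ 0`, the point is on
the curve and `5 z` (`z`) is a square; chord and tangent formulas.) -/

theorem dio_base : DioQ 3 (fun x => BaseRel (x 0) (x 1) (x 2)) := sorry
theorem dio_arr (p : ℕ) (hp : p ≤ 2) :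
    DioQ 8 (fun x => ArrRel p (x 0) (x 1) ⟨x 2, x 3, x 4, x 5, x 6, x 7⟩) := sorry
theorem dio_nt : DioQ 2 (fun x => NT (x 0) (x 1)) := sorry
theorem dio_nrm : DioQ 2 (fun x => x 1 = nrm (x 0)) := sorry
theorem dio_hst : DioQ 4 (fun x => x 3 = hst (x 0) (x 1) (x 2)) := sorry

/-! ## E2 `Build.lean`: the system attached to a DQBF instance, in polynomial time -/

theorem exists_build : ∃ build : DInst → List ER.Con,
    Poly build ∧ ∀ I, QSat (build I) ↔ RSat I := sorry

/-! ## E3 `QForm.lean` -/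

theorem exists_form : ∃ F : List ER.Con → QFm, Poly F ∧ ∀ S, QSat S ↔ ETQ (F S) := sorry

theorem HardX.trans {α β : Type} [TEnc α] [TEnc β] {P : α → Prop} {Q : β → Prop} (hP : HardX P)
    {f : α → β} (hf : Poly f) (h : ∀ a, P a ↔ Q (f a)) : HardX Q := sorry

theorem HardX.toNEXPHard {α : Type} [TEnc α] {P : α → Prop} (hP : HardX P) :
    NEXPHard (lang P) := sorry

/-! ## F1 `Dqbf.lean`: DQBF is NEXP-hard (Peterson, Reif) -/

theorem hardX_dq : HardX DQSat := sorry

/-! ## G: the result -/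

theorem rsat_iff' (I : DInst) : RSat I ↔ DQSat I := sorry

theorem main : NEXPHard (lang ETQ) := by
  obtain ⟨build, hb, hb'⟩ := exists_build
  obtain ⟨F, hF, hF'⟩ := exists_form
  have h1 : HardX (QSat) := hardX_dq.trans hb fun I => ((hb' I).trans (rsat_iff' I)).symm
  exact (h1.trans hF hF').toNEXPHard

end Pool.Agent.H528R2
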