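import Pool.Agent.H528R2.Defs

/-!
# A small tool kit for `padicValRat` and `Vge`
-/

namespace Pool.Agent.H528R2

variable {s : ℕ} {k l : ℤ} {x y : ℚ}

theorem Vge.zero (s : ℕ) (k : ℤ) : Vge s k 0 := Or.inl rfl

theorem Vge.of_le (h : k ≤ padicValRat s x) : Vge s k x := Or.inr h

theorem Vge.self (s : ℕ) (x : ℚ) : Vge s (padicValRat s x) x := Or.inr le_rfl

theorem Vge.le (h : Vge s k x) (hx : x ≠ 0) : k ≤ padicValRat s x := h.resolve_left hx

theorem Vge.mono (h : Vge s k x) (hl : l ≤ k) : Vge s l x := h.imp id (fun h => hl.trans h)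

theorem Vge.neg (h : Vge s k x) : Vge s k (-x) := by
  rcases h with h | h
  · left; simp [h]
  · right; rwa [padicValRat.neg]

theorem Vge.add (hs : s.Prime) (hx : Vge s k x) (hy : Vge s k y) : Vge s k (x + y) := by
  have := Fact.mk hs
  rcases hx with hx | hx
  · rw [hx, zero_add]; exact hy
  rcases hy with hy | hy
  · rw [hy, add_zero]; exact Or.inr hx
  by_cases h : x + y = 0
  · exact Or.inl h
  · exact Or.inr (le_trans (le_min hx hy) (padicValRat.min_le_padicValRat_add h))

theorem Vge.sub (hs : s.Prime) (hx : Vge s k x) (hy : Vge s k y) : Vge s k (x - y) := by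
  rw [sub_eq_add_neg]; exact Vge.add hs hx hy.neg

theorem Vge.mul (hs : s.Prime) (hx : Vge s k x) (hy : Vge s l y) : Vge s (k + l) (x * y) := by
  have := Fact.mk hs
  rcases hx with hx | hx
  · left; simp [hx]
  rcases hy with hy | hy
  · left; simp [hy]
  by_cases h1 : x = 0
  · left; simp [h1]
  by_cases h2 : y = 0
  · left; simp [h2]
  right
  rw [padicValRat.mul h1 h2]
  exact add_le_add hx hy

theorem Vge.pow (hs : s.Prime) (hx : Vge s k x) (n : ℕ) : Vge s (n * k) (x ^ n) := by
  have := Fact.mk hs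
  rcases hx with hx | hx
  · by_cases hn : n = 0
    · subst hn; right; simp
    · left; simp [hx, hn]
  · right
    rw [padicValRat.pow]
    exact mul_le_mul_of_nonneg_left hx (by positivity)

theorem vge_int (s : ℕ) (n : ℤ) : Vge s 0 (n : ℚ) := by
  right; rw [padicValRat.of_int]; positivity

theorem vge_nat (s : ℕ) (n : ℕ) : Vge s 0 (n : ℚ) := vge_int s n

theorem vge_ofNat (s : ℕ) (n : ℕ) [n.AtLeastTwo] : Vge s 0 (OfNat.ofNat n : ℚ) := vge_nat s n

theorem vge_one (s : ℕ) : Vge s 0 (1 : ℚ) := by simpa using vge_nat s 1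

/-- multiplication by an integer does not decrease the valuation -/
theorem Vge.int_mul (hs : s.Prime) (n : ℤ) (hx : Vge s k x) : Vge s k (n * x) := by
  simpa using Vge.mul hs (vge_int s n) hx

theorem Vge.nat_mul (hs : s.Prime) (n : ℕ) (hx : Vge s k x) : Vge s k (n * x) := by
  simpa using Vge.mul hs (vge_nat s n) hx

theorem Vge.ofNat_mul (hs : s.Prime) (n : ℕ) [n.AtLeastTwo] (hx : Vge s k x) :
    Vge s k (OfNat.ofNat n * x) := Vge.nat_mul hs n hx

/-- dominant term -/
theorem val_add (hs : s.Prime) (hx : x ≠ 0) (hy : Vge s (padicValRat s x + 1) y) :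
    x + y ≠ 0 ∧ padicValRat s (x + y) = padicValRat s x := by
  have := Fact.mk hs
  rcases hy with hy | hy
  · rw [hy, add_zero]; exact ⟨hx, rfl⟩
  by_cases hy0 : y = 0
  · rw [hy0, add_zero]; exact ⟨hx, rfl⟩
  have hne : x + y ≠ 0 := by
    intro h
    have : y = -x := by linarith
    rw [this, padicValRat.neg] at hy
    omega
  exact ⟨hne, padicValRat.add_eq_of_lt hne hx hy0 (by omega)⟩

theorem val_sub (hs : s.Prime) (hx : x ≠ 0) (hy : Vge s (padicValRat s x + 1) y) :
    x - y ≠ 0 ∧ padicValRat s (x - y) = padicValRat s x := by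
  rw [sub_eq_add_neg]; exact val_add hs hx hy.neg

theorem val_mul (hs : s.Prime) (hx : x ≠ 0) (hy : y ≠ 0) :
    padicValRat s (x * y) = padicValRat s x + padicValRat s y := by
  have := Fact.mk hs
  exact padicValRat.mul hx hy

theorem val_div (hs : s.Prime) (hx : x ≠ 0) (hy : y ≠ 0) :
    padicValRat s (x / y) = padicValRat s x - padicValRat s y := by
  have := Fact.mk hs
  exact padicValRat.div hx hy

theorem val_inv (hs : s.Prime) (x : ℚ) : padicValRat s x⁻¹ = - padicValRat s x := by
  have := Fact.mk hs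
  exact padicValRat.inv x

theorem val_pow (hs : s.Prime) (x : ℚ) (n : ℕ) :
    padicValRat s (x ^ n) = n * padicValRat s x := by
  have := Fact.mk hs
  exact padicValRat.pow x

theorem ne_zero_of_val (h : padicValRat s x ≠ 0) : x ≠ 0 := by
  rintro rfl; simp at h

end Pool.Agent.H528R2
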